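import Pool.Agent.ZP.Defs

/-! # The infection with a threshold: basic definitions

Everything that does not depend on the infection is taken over from `ZP`.

`Thr.θ` is the threshold: the infected sites are sites with at least `θ` particles; when the number of particles of
an infected site drops below `θ`, the particles of this site recover at once, and when an infected particle jumps to
a site that has less than `θ` particles after the jump, it recovers at once.
* `θ = 1`: the infection with the finite recovery rate `δ` (nothing happens at once).
* `θ = 2`: the infection with the infinite recovery rate: an infected particle that is alone at its site recovers at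
  once.
-/

set_option autoImplicit false

open scoped ENNReal BigOperators Classical

noncomputable section

namespace ZQ

open ZP

/-- the threshold of the infection -/
class Thr where
  θ : ℕ
  pos : 1 ≤ θ

variable {d : ℕ} {V : Type} [Thr]

/-- the set of infected positions after a ring; `pr` is the projection of the positions to the sites.  After a jump
the two sites of the jump have to hold at least `θ` particles to be infected (the second condition; an infected site
different from the source of the jump does not lose particles). -/
def infMv (nb : V → Dir d → Option V) (pr : Pos d → V) (η : V → ℕ) (A : Set (Pos d))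
    (l : Lab V d) : Set (Pos d) :=
  match l.2.1 with
  | 0 => {z | z ∈ A ∧ (pr z = l.1 → 2 ≤ η l.1)}
  | k + 1 => {z | z ∈ ZI.infMv nb pr η A (l.1, k, l.2.2) ∧
      (k < η l.1 → (z ∈ A ∧ pr z ≠ l.1) ∨ Thr.θ ≤ mv nb η l (pr z))}

/-- one ring for the pair (configuration, infected set), infection restricted to the region `G` -/
def stepR (nb : V → Dir d → Option V) (pr : Pos d → V) (G : Set (Pos d))
    (s : (V → ℕ) × Set (Pos d)) (l : Lab V d) : (V → ℕ) × Set (Pos d) :=
  (mv nb s.1 l, infMv nb pr s.1 s.2 l ∩ G)

/-- the infected set at the time `s + j`, for the infection started from `A` at the time `s` and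
restricted to the region `G t` during `(t, t + 1]` -/
def inf (nb : V → Dir d → Option V) (pr : Pos d → V) (η0 : V → ℕ) (U : ℕ → List (Lab V d))
    (G : ℕ → Set (Pos d)) (s : ℕ) (A : Set (Pos d)) : ℕ → Set (Pos d)
  | 0 => {z | z ∈ A ∧ z ∈ G s ∧ Thr.θ ≤ cfg nb η0 U s (pr z)}
  | j + 1 => ((U (s + j)).foldl (stepR nb pr (G (s + j)))
      (cfg nb η0 U (s + j), inf nb pr η0 U G s A j ∩ G (s + j))).2

/-- the sites visited by the infection during the interval `(s + j, s + j + 1]` (and at its start) -/
def visU (nb : V → Dir d → Option V) (pr : Pos d → V) (η0 : V → ℕ) (U : ℕ → List (Lab V d))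
    (G : ℕ → Set (Pos d)) (s : ℕ) (A : Set (Pos d)) (j : ℕ) : Set (Pos d) :=
  {z | ∃ i ≤ (U (s + j)).length, z ∈ (((U (s + j)).take i).foldl (stepR nb pr (G (s + j)))
      (cfg nb η0 U (s + j), inf nb pr η0 U G s A j ∩ G (s + j))).2}

end ZQ
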