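import Pool.Agent.ZP.D0
import Pool.Agent.ZQ.InfLem

/-! # Row D0: calculus of `inf`, `R`, `vis` with recovery (deterministic, any environment); port of ZI/D0 -/

set_option autoImplicit false

open scoped ENNReal BigOperators Classical

noncomputable section

namespace ZQ.Rows

open ZP hiding Env envT foldl_stepR_fst foldl_stepR_inter foldl_stepR_mono foldl_stepR_occ foldl_stepR_region inf infMv infMv_mono infMv_occ inf_comp inf_inter inf_mono_univ inf_occ inf_pred mem_foldl_stepR mem_infMv stepR visU visU_mono_univ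
open ZP.Rows hiding R_mono R_occ R_restrict R_route R_self R_split R_start R_trans R_vis inf_mono inf_split inf_start mem_inf_iff visU_mono visU_split vis_mono vis_mono_time vis_of_R vis_of_R' vis_restrict

variable [ZQ.Thr]

open ZP hiding Env envT foldl_stepR_fst foldl_stepR_inter foldl_stepR_mono foldl_stepR_occ foldl_stepR_region inf infMv infMv_mono infMv_occ inf_comp inf_inter inf_mono_univ inf_occ inf_pred mem_foldl_stepR mem_infMv stepR visU visU_mono_univ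
open ZQ

variable {d : ℕ}

section D0

variable (E : Env d) {G G' : ℕ → Set (Pos d)} {s t t' : ℕ} {x y y' b : Pos d}

theorem inf_mono (h : ∀ t, G t ⊆ G' t) {A A' : Set (Pos d)} (hA : A ⊆ A') (j : ℕ) :
    inf E.nb E.pr E.η0 E.U G s A j ⊆ inf E.nb E.pr E.η0 E.U G' s A' j := by
  induction j with
  | zero => exact fun z hz => ⟨hA hz.1, h _ hz.2.1, hz.2.2⟩
  | succ j ih => exact foldl_stepR_mono (h _) _ _ fun z hz => ⟨ih hz.1, h _ hz.2⟩

theorem mem_inf_iff (A : Set (Pos d)) (j : ℕ) (z : Pos d) :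
    z ∈ inf E.nb E.pr E.η0 E.U G s A j ↔ ∃ a ∈ A, z ∈ inf E.nb E.pr E.η0 E.U G s {a} j := by
  constructor
  · induction j generalizing z with
    | zero => exact fun hz => ⟨z, hz.1, rfl, hz.2⟩
    | succ j ih =>
      intro hz
      obtain ⟨w, hw, hzw⟩ := mem_foldl_stepR (E.U (s + j)) _ _ z hz
      obtain ⟨a, ha, hwa⟩ := ih w hw.1
      refine ⟨a, ha, foldl_stepR_mono subset_rfl _ _ ?_ hzw⟩
      rintro _ rfl
      exact ⟨hwa, hw.2⟩
  · rintro ⟨a, ha, hz⟩
    exact inf_mono E (fun _ => subset_rfl) (Set.singleton_subset_iff.mpr ha) j hz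

theorem visU_mono (h : ∀ t, G t ⊆ G' t) {A A' : Set (Pos d)} (hA : A ⊆ A') (j : ℕ) :
    visU E.nb E.pr E.η0 E.U G s A j ⊆ visU E.nb E.pr E.η0 E.U G' s A' j := by
  rintro z ⟨i, hi, hz⟩
  refine ⟨i, hi, foldl_stepR_mono (h _) _ _ ?_ hz⟩
  exact fun w hw => ⟨inf_mono E h hA j hw.1, h _ hw.2⟩

theorem R_occ (h : E.R G s x t y) : E.occ t y := h.occ

/-- nothing is infected if the start is not allowed -/
theorem inf_start (A : Set (Pos d)) (j : ℕ) (z : Pos d)
    (hz : z ∈ inf E.nb E.pr E.η0 E.U G s A j) : ∃ a ∈ A, a ∈ G s ∧ E.occ s a := by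
  induction j generalizing z with
  | zero => exact ⟨z, hz.1, hz.2⟩
  | succ j ih =>
    obtain ⟨w, hw, -⟩ := mem_foldl_stepR (E.U (s + j)) _ _ z hz
    exact ih w hw.1

theorem R_start (h : E.R G s x t y) : E.occ s x ∧ x ∈ G s ∧ s ≤ t := by
  have hle := h.le
  obtain ⟨j, -, hy⟩ := h
  obtain ⟨a, rfl, h1, h2⟩ := inf_start E {x} j y hy
  exact ⟨h2, h1, hle⟩

theorem R_self (h : E.occ s x) (hG : x ∈ G s) : E.R G s x s x := Env.R_self h hG

theorem R_mono (h : ∀ t, G t ⊆ G' t) (hR : E.R G s x t y) : E.R G' s x t y := by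
  obtain ⟨j, hj, hy⟩ := hR
  exact ⟨j, hj, inf_mono E h subset_rfl j hy⟩

theorem vis_mono (h : ∀ t, G t ⊆ G' t) (hR : E.vis G s x t b) : E.vis G' s x t b := by
  obtain ⟨j, hj, hy⟩ := hR
  exact ⟨j, hj, visU_mono E h subset_rfl j hy⟩

theorem vis_mono_time (htt : t ≤ t') (hR : E.vis G s x t b) : E.vis G s x t' b := by
  obtain ⟨j, hj, hy⟩ := hR
  exact ⟨j, lt_of_lt_of_le hj htt, hy⟩

theorem R_trans (h : E.R G s x t y) (h' : E.R G t y t' y') : E.R G s x t' y' :=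
  h.comp h' fun _ _ _ => subset_rfl

theorem R_vis (h : E.R G s x t y) (h' : E.vis G t y t' b) : E.vis G s x t' b := by
  obtain ⟨j, rfl, hy⟩ := h
  obtain ⟨k, hk, i, hi, hz⟩ := h'
  refine ⟨j + k, by omega, i, by rw [← Nat.add_assoc]; exact hi, ?_⟩
  rw [← Nat.add_assoc]
  refine foldl_stepR_mono subset_rfl _ _ ?_ hz
  exact fun w hw => ⟨inf_comp hy k (fun _ _ _ => subset_rfl) hw.1, hw.2⟩

/-- the infected positions at the beginning of a unit of time are visited -/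
theorem vis_of_R (h : E.R G s x t y) (hy : y ∈ G t) (htt : t < t') : E.vis G s x t' y := by
  obtain ⟨j, rfl, hj⟩ := h
  exact ⟨j, htt, 0, Nat.zero_le _, hj, hy⟩

/-- the infected positions at the end of a unit of time are visited -/
theorem vis_of_R' (h : E.R G s x t y) (hst : s < t) : E.vis G s x t y := by
  obtain ⟨j, hj, hy⟩ := h
  obtain ⟨i, rfl⟩ : ∃ i, j = i + 1 := ⟨j - 1, by omega⟩
  refine ⟨i, by omega, (E.U (s + i)).length, le_rfl, ?_⟩
  rw [List.take_length]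
  exact hy

theorem inf_split {A : Set (Pos d)} (i j : ℕ) (z : Pos d)
    (hz : z ∈ inf E.nb E.pr E.η0 E.U G s A (i + (j + 1))) :
    ∃ w ∈ inf E.nb E.pr E.η0 E.U G s A i, w ∈ G (s + i) ∧
      z ∈ inf E.nb E.pr E.η0 E.U G (s + i) {w} (j + 1) := by
  induction j generalizing z with
  | zero =>
    obtain ⟨w, hw, hzw⟩ := mem_foldl_stepR (E.U (s + i)) _ _ z hz
    refine ⟨w, hw.1, hw.2, ?_⟩
    refine foldl_stepR_mono subset_rfl _ _ ?_ hzw
    rintro _ rfl
    exact ⟨⟨rfl, hw.2, inf_occ i _ hw.1⟩, hw.2⟩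
  | succ j ih =>
    obtain ⟨w, hw, hzw⟩ := mem_foldl_stepR (E.U (s + (i + (j + 1)))) _ _ z hz
    obtain ⟨a, ha, haG, hwa⟩ := ih w hw.1
    refine ⟨a, ha, haG, ?_⟩
    have hw2 : w ∈ G (s + (i + (j + 1))) := hw.2
    have hzw2 : z ∈ ((E.U (s + (i + (j + 1)))).foldl (stepR E.nb E.pr (G (s + (i + (j + 1)))))
      (cfg E.nb E.η0 E.U (s + (i + (j + 1))), {w})).2 := hzw
    rw [← Nat.add_assoc s i (j + 1)] at hzw2 hw2
    refine foldl_stepR_mono subset_rfl _ _ ?_ hzw2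
    rintro _ rfl
    exact ⟨hwa, hw2⟩

theorem R_split (h : E.R G s x t y) (τ : ℕ) (hs : s ≤ τ) (ht : τ < t) :
    ∃ z, z ∈ G τ ∧ E.R G s x τ z ∧ E.R G τ z t y := by
  obtain ⟨j, rfl, hy⟩ := h
  obtain ⟨i, rfl⟩ : ∃ i, τ = s + i := ⟨τ - s, by omega⟩
  obtain ⟨k, rfl⟩ : ∃ k, j = i + (k + 1) := ⟨j - i - 1, by omega⟩
  obtain ⟨w, h1, h2, h3⟩ := inf_split E i k y hy
  exact ⟨w, h2, ⟨i, rfl, h1⟩, ⟨k + 1, by omega, h3⟩⟩

/-- a route through the integer times -/
theorem R_route (h : E.R G s x t y) : ∃ Z : ℕ → Pos d, Z s = x ∧ Z t = y ∧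
    ∀ τ, s ≤ τ → τ < t → Z τ ∈ G τ ∧ E.R G s x τ (Z τ) ∧ E.R G τ (Z τ) (τ + 1) (Z (τ + 1)) ∧
      E.R G τ (Z τ) t y := by
  obtain ⟨j, hj⟩ : ∃ j, t = s + j := ⟨t - s, by have := h.le; omega⟩
  induction j generalizing t y with
  | zero =>
    obtain rfl : t = s := by omega
    obtain ⟨i, hi, hy⟩ := h
    obtain rfl : i = 0 := by omega
    have hyx : y = x := hy.1
    exact ⟨fun _ => x, rfl, hyx.symm, fun τ h1 h2 => absurd h2 (by omega)⟩
  | succ j ih =>
    obtain ⟨z, hz, h1, h2⟩ := R_split E h (s + j) (by omega) (by omega)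
    obtain ⟨Z, hZs, hZt, hZ⟩ := ih h1 rfl
    refine ⟨Function.update Z t y, ?_, Function.update_self _ _ _, ?_⟩
    · rw [Function.update_of_ne (by omega), hZs]
    · intro τ h3 h4
      rw [Function.update_of_ne (by omega : τ ≠ t)]
      by_cases h5 : τ < s + j
      · rw [Function.update_of_ne (by omega : τ + 1 ≠ t)]
        obtain ⟨h6, h7, h8, h9⟩ := hZ τ h3 h5
        exact ⟨h6, h7, h8, R_trans E h9 h2⟩
      · obtain rfl : τ = s + j := by omega
        obtain rfl : t = s + j + 1 := by omega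
        rw [Function.update_self, hZt]
        exact ⟨hz, h1, h2, h2⟩

/-- what is visited in the unit `j` is visited from an infected position at the beginning of the unit -/
theorem visU_split (j : ℕ) (hb : b ∈ visU E.nb E.pr E.η0 E.U G s {x} j) :
    ∃ z, z ∈ G (s + j) ∧ E.R G s x (s + j) z ∧ b ∈ visU E.nb E.pr E.η0 E.U G (s + j) {z} 0 := by
  obtain ⟨i, hi, hz⟩ := hb
  obtain ⟨w, hw, hzw⟩ := mem_foldl_stepR _ _ _ b hz
  refine ⟨w, hw.2, ⟨j, rfl, hw.1⟩, i, hi, ?_⟩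
  refine foldl_stepR_mono subset_rfl _ _ ?_ hzw
  rintro _ rfl
  exact ⟨⟨rfl, hw.2, inf_occ j _ hw.1⟩, hw.2⟩

/-- a restriction that holds along the visited positions may be added -/
theorem R_restrict (h : E.R G s x t y) (hx : x ∈ G' s)
    (hv : ∀ j, s + j < t → ∀ b ∈ visU E.nb E.pr E.η0 E.U G s {x} j, b ∈ G' (s + j)) :
    E.R (fun τ => G τ ∩ G' τ) s x t y := by
  obtain ⟨j, rfl, hy⟩ := h
  refine ⟨j, rfl, ?_⟩
  rw [inf_inter]
  · exact hy
  · rintro _ rfl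
    exact hx
  · exact fun i hi z hz => hv i (by omega) z hz

theorem vis_restrict (h : E.vis G s x t b)
    (hv : ∀ j, s + j < t → ∀ b ∈ visU E.nb E.pr E.η0 E.U G s {x} j, b ∈ G' (s + j)) :
    E.vis (fun τ => G τ ∩ G' τ) s x t b := by
  obtain ⟨j, hj, i, hi, hz⟩ := h
  have hx : x ∈ G' s := by
    obtain ⟨w, hw, -⟩ := mem_foldl_stepR _ _ _ b hz
    obtain ⟨a, rfl, h1, h2⟩ := inf_start E {x} j w hw.1
    exact hv 0 (by omega) _ ⟨0, Nat.zero_le _, ⟨⟨rfl, h1, h2⟩, h1⟩⟩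
  refine ⟨j, hj, i, hi, ?_⟩
  have hinf : inf E.nb E.pr E.η0 E.U (fun t => G t ∩ G' t) s {x} j = inf E.nb E.pr E.η0 E.U G s {x} j := by
    rw [inf_inter]
    · rintro _ rfl
      exact hx
    · exact fun i hi z hz => hv i (by omega) z hz
  have hvj := hv j hj
  have h1 : inf E.nb E.pr E.η0 E.U G s {x} j ∩ (G (s + j) ∩ G' (s + j)) =
      inf E.nb E.pr E.η0 E.U G s {x} j ∩ G (s + j) := by
    ext z
    constructor
    · exact fun hz => ⟨hz.1, hz.2.1⟩
    · exact fun hz => ⟨hz.1, hz.2, hvj z ⟨0, Nat.zero_le _, hz⟩⟩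
  show b ∈ (((E.U (s + j)).take i).foldl (stepR E.nb E.pr (G (s + j) ∩ G' (s + j)))
    (cfg E.nb E.η0 E.U (s + j), inf E.nb E.pr E.η0 E.U (fun t => G t ∩ G' t) s {x} j ∩
      (G (s + j) ∩ G' (s + j)))).2
  rw [hinf, h1, foldl_stepR_inter]
  · exact hz
  · intro i' hi' z hz'
    refine hvj z ⟨i', ?_, ?_⟩
    · rw [List.length_take] at hi'
      omega
    · rw [List.take_take] at hz'
      have : min i' i = i' := by
        rw [List.length_take] at hi'
        omega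
      rwa [this] at hz'

end D0

end ZQ.Rows
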