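import Pool.Agent.ZP.Ev0
import Pool.Agent.ZQ.Blocks
import Pool.Agent.ZI.Ev1

/-! # Paths, marks, block facts (with recovery) -/

set_option autoImplicit false

open scoped ENNReal BigOperators Classical

noncomputable section

namespace ZQ

open ZP ZQ

variable [Thr]

export ZI (Hits HitsBefore SymW shL Lev mix err)

variable {d : ℕ}

/-- one letter for the pair (configuration, infected set) on the cover of the torus, restricted to `G` -/
def stepI {M K : ℕ} (G : Set (Pos d)) (s : (Tor d M → ℕ) × Set (Pos d)) (a : Let d M K) :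
    (Tor d M → ℕ) × Set (Pos d) :=
  match toLab a with
  | none => s
  | some l => stepR nbT tv G s l

/-- deterministic facts on the block `(z, s)` of size `m` -/
structure BlockFacts (E : Env d) (P : BP) (u : Fin d → ℝ) (r Cv m n : ℕ) (z : Pos d) (s : ℕ) :
    Prop where
  near_ok : E.ok P.κ s (E.near P.κ s z)
  near_supn : supn (E.near P.κ s z - z) ≤ P.κ
  near_W : E.near P.κ s z ∈ E.W P u z s s
  x_mem : z + E.bx P u m z s ∈ E.W P u z s (s + E.bh P u m z s)
  x_lev : (m : ℝ) ≤ lev u (E.bx P u m z s)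
  x_occ : E.occ (s + E.bh P u m z s) (z + E.bx P u m z s)
  W_ub : ∀ y ∈ E.W P u z s (s + E.bh P u m z s), lev u (y - z) ≤ m + Cv + r
  h_ub : (E.bh P u m z s : ℝ) ≤ 4 * P.κ * (m + 2 * P.mg)
  h_lb : P.κ ≤ E.bh P u m z s
  conf : ∀ t, s ≤ t → t ≤ s + E.bh P u m z s → ∀ y ∈ E.W P u z s t,
    lev u (y - z) ≤ m + 2 * P.mg - ((s : ℝ) + E.bh P u m z s - t) / (8 * P.κ)
  x_nrm : nrm (E.bx P u m z s) ≤ Cv * E.bh P u m z s + 2 * d * P.κ
  next_mem : E.near P.κ (s + E.bh P u m z s + P.Δ) (z + E.bx P u m z s + v0 P u)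
    ∈ E.W P u z s (s + E.bh P u m z s + P.Δ)
  sub : ∀ t, s + E.bh P u m z s + P.Δ ≤ t → t ≤ n ^ 2 → t ≤ s + P.κ ^ 4 * n →
    E.W P u (z + E.bx P u m z s + v0 P u) (s + E.bh P u m z s + P.Δ) t ⊆ E.W P u z s t

end ZQ
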