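import Pool.Agent.ZP.D2
import Pool.Agent.ZQ.Ev0
import Pool.Agent.ZQ.InfLem
import Pool.Agent.ZI.Geo

/-! # D2: the deterministic block lemma (with recovery); port of ZI/D2

A position that is infected at the time `t ≥ s + κ` need not have the property `fg`; it is used through the point of
its route at the time `t - κ`, which has the property `fg`. -/

set_option autoImplicit false

open scoped ENNReal BigOperators Classical

noncomputable section

namespace ZQ.D2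

open ZP hiding BlockFacts Env envT foldl_stepR_fst foldl_stepR_inter foldl_stepR_mono foldl_stepR_occ foldl_stepR_region inf infMv infMv_mono infMv_occ inf_comp inf_inter inf_mono_univ inf_occ inf_pred mem_foldl_stepR mem_infMv stepI stepR visU visU_mono_univ
open ZP.D2 hiding R_back W_ub back bh_facts bh_lb bh_nat block_core bx_spec conf fg_of lev_lt move near_W near_facts near_spec next_mem nrm_W ok_occ' reach stage stages sub

variable [ZQ.Thr]

open ZI.Geo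

variable {d : ℕ}

/-- the nearest `ok` position -/
theorem near_spec (E : Env d) (κ s : ℕ) (z : Pos d) {r : ℕ}
    (h : ∃ v : Pos d, supn v ≤ r ∧ E.ok κ s (z + v)) :
    E.ok κ s (E.near κ s z) ∧ supn (E.near κ s z - z) ≤ r := by
  obtain ⟨v, hv, hocc⟩ := h
  have hne : {v : Pos d | E.ok κ s (z + v)}.Nonempty := ⟨v, hocc⟩
  unfold Env.near
  rw [dif_pos hne]
  refine ⟨Function.argminOn_mem rk {v : Pos d | E.ok κ s (z + v)} hne, ?_⟩
  rw [add_sub_cancel_left]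
  refine le_trans (supn_le_of_rk ?_) hv
  exact Function.argminOn_le rk {v : Pos d | E.ok κ s (z + v)} (a := v) hocc

/-- a route passes through a position at every intermediate time -/
theorem R_back {E : Env d} {G : ℕ → Set (Pos d)} {s : ℕ} {x : Pos d} (τ : ℕ) (hs : s ≤ τ) (k : ℕ) :
    ∀ y, E.R G s x (τ + (k + 1)) y → ∃ z, E.R G s x τ z ∧ E.R G τ z (τ + (k + 1)) y := by
  induction k with
  | zero =>
    intro y h
    exact Env.R.pred h hs
  | succ k ih =>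
    intro y h
    obtain ⟨y', h1, h2⟩ := Env.R.pred (t := τ + (k + 1)) h (by omega)
    obtain ⟨z, h3, h4⟩ := ih y' h1
    exact ⟨z, h3, Env.R.comp h4 h2 fun i _ _ => subset_rfl⟩

section core

variable {E : Env d} {r κ n Cv m s : ℕ} {u : Fin d → ℝ} {z : Pos d}

/-- one application of the covering property inside the wall -/
theorem move (hk : 0 < κ) (hE : E.Good r κ Cv (n ^ 2) (n ^ 2)) (hu : ∑ j, u j ^ 2 = 1) {t T : ℕ}
    {x y : Pos d} (hκt : κ ≤ t)
    (hx : x ∈ E.W (bq κ n) u z s t) (hf : E.fg κ t x) (hT : t ≤ T) (hTn : T + κ ≤ n ^ 2)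
    (hy : E.bg κ T y) {β : ℝ}
    (hβ : nrm (x - y) ≤ β) (hβn : β ≤ n ^ 2) (hβT : (β + 1) * κ ≤ (T : ℝ) - t)
    (hlev : -(κ : ℝ) ^ 3 + ((T : ℝ) - s) / (16 * κ) ≤ lev u (y - z) - (β + κ))
    (hnrm : nrm (y - z) + (β + κ) ≤ (n : ℝ) ^ 2) :
    y ∈ E.W (bq κ n) u z s T := by
  have hκ : (0 : ℝ) < κ := by exact_mod_cast hk
  have h1 := hE.g3 t T x y hκt hT hTn hf hy (by push_cast; linarith)
    (le_trans (mul_le_mul_of_nonneg_right (by linarith) hκ.le) hβT)
  refine Env.R.comp hx h1 fun i _ hi p hp => ?_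
  rw [mem_wall]
  have hp' : nrm (p - y) ≤ β + κ := by
    have : nrm (p - y) ≤ nrm (x - y) + κ := hp
    linarith
  constructor
  · have h2 : lev u (p - z) = lev u (y - z) + lev u (p - y) := by
      rw [← lev_add]
      congr 1
      abel
    have h3 := neg_le_lev hu (p - y)
    have h4 : ((i : ℝ) - s) / (16 * κ) ≤ ((T : ℝ) - s) / (16 * κ) := by
      apply div_le_div_of_nonneg_right _ (by positivity)
      have : (i : ℝ) ≤ T := by exact_mod_cast hi.le
      linarith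
    linarith
  · apply supn_le_of_nrm
    have h2 := nrm_sub_le p y z
    push_cast
    linarith

theorem near_facts (hE : E.Good r κ Cv (n ^ 2) (n ^ 2)) (z : Pos d)
    {t : ℕ} (hκt : κ ≤ t) (ht : t + κ ≤ n ^ 2) :
    E.ok κ t (E.near κ t z) ∧ supn (E.near κ t z - z) ≤ κ ∧
      nrm (E.near κ t z - z) ≤ (d : ℝ) * κ := by
  obtain ⟨v, _, h2, h3⟩ := hE.g1 t hκt ht z
  obtain ⟨h4, h5⟩ := near_spec E κ t z ⟨v, h2, h3⟩
  refine ⟨h4, h5, (nrm_le_supn _).trans ?_⟩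
  exact mul_le_mul_of_nonneg_left (by exact_mod_cast h5) (Nat.cast_nonneg _)

theorem ok_occ' {t : ℕ} {x : Pos d} (h : E.ok κ t x) : E.occ t x := by
  obtain ⟨_, s, y, rfl, h⟩ := h
  exact h.occ

/-- an infection that lives for the time `κ` gives `fg` -/
theorem fg_of (hN : Num d r κ n Cv m s) (hE : E.Good r κ Cv (n ^ 2) (n ^ 2)) {t t' : ℕ}
    {x y : Pos d} (ht : t + κ ≤ t') (htS : t' ≤ n ^ 2) (h : E.R (fun _ => Set.univ) t x t' y) :
    E.fg κ t x := by
  have hR := hN.real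
  have hk0 : 0 < κ := by
    have := hR.k1
    have h0 : (0 : ℝ) < κ := by linarith
    exact_mod_cast h0
  have h1 : ∃ w, E.R (fun _ => Set.univ) t x (t + κ) w := by
    rcases Nat.eq_or_lt_of_le ht with h0 | h0
    · exact ⟨y, by rw [h0]; exact h⟩
    · obtain ⟨k, hk⟩ : ∃ k, t' = t + κ + (k + 1) := ⟨t' - (t + κ) - 1, by omega⟩
      rw [hk] at h
      obtain ⟨w, hw, -⟩ := R_back (t + κ) (by omega) k y h
      exact ⟨w, hw⟩
  obtain ⟨w, hw⟩ := h1
  refine ⟨w, ?_⟩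
  have h2 : E.R (fun i => (fun _ => Set.univ) i ∩ (fun _ => Ball x ((κ : ℝ) ^ 2)) i) t x (t + κ) w := by
    refine Env.R.inter hw ?_ ?_
    · show nrm (x - x) ≤ _
      rw [sub_self]
      have h1 : nrm (0 : Pos d) = 0 := by simp [ZI.nrm]
      rw [h1]
      positivity
    · intro i hi1 hi2 p hp
      have h3 := hE.g4' t (i + 1) x p (by omega) (by omega) hp.univ
      have h4 : (Cv : ℝ) * (((i + 1 : ℕ) : ℝ) - t) ≤ Cv * κ := by
        apply mul_le_mul_of_nonneg_left _ (Nat.cast_nonneg _)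
        have : ((i + 1 : ℕ) : ℝ) ≤ ((t + κ : ℕ) : ℝ) := by exact_mod_cast hi2
        push_cast at this ⊢
        linarith
      have h5 := hR.fCk2
      show nrm (p - x) ≤ _
      linarith
  simpa only [Set.univ_inter] using h2

/-- an infected position is used through the point of its route `κ` units of time before -/
theorem back (hN : Num d r κ n Cv m s) (hE : E.Good r κ Cv (n ^ 2) (n ^ 2)) {t : ℕ} {x : Pos d}
    (hx : x ∈ E.W (bq κ n) u z s t) (h1 : s + κ ≤ t) (h2 : t ≤ n ^ 2) :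
    ∃ x' ∈ E.W (bq κ n) u z s (t - κ), E.fg κ (t - κ) x' ∧ nrm (x - x') ≤ Cv * κ + r := by
  have hR := hN.real
  have hk0 : 0 < κ := by
    have := hR.k1
    have h0 : (0 : ℝ) < κ := by linarith
    exact_mod_cast h0
  obtain ⟨k, hk⟩ : ∃ k, t = t - κ + (k + 1) := ⟨κ - 1, by omega⟩
  have hx' : E.R (wall (bq κ n) u z s) s (E.near (bq κ n).κ s z) (t - κ + (k + 1)) x := by
    rw [← hk]
    exact hx
  obtain ⟨x', h3, h4⟩ := R_back (t - κ) (by omega) k x hx'
  rw [← hk] at h4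
  refine ⟨x', h3, fg_of hN hE (by omega) h2 h4.univ, ?_⟩
  have h5 := hE.g4 (t - κ) t x' x (by omega) h2 h4.univ
  have h6 : ((t - κ : ℕ) : ℝ) = t - κ := by
    rw [Nat.cast_sub (by omega)]
  rw [h6] at h5
  have h7 : (Cv : ℝ) * ((t : ℝ) - (t - κ)) = Cv * κ := by ring
  linarith

theorem nrm_W (hN : Num d r κ n Cv m s) (hE : E.Good r κ Cv (n ^ 2) (n ^ 2)) {t : ℕ} {y : Pos d}
    (hy : y ∈ E.W (bq κ n) u z s t) (ht : t ≤ s + κ ^ 2 * m) :
    nrm (y - z) ≤ Cv * ((t : ℝ) - s) + r + d * κ ∧ nrm (y - z) ≤ (n : ℝ) ^ 2 / 10 := by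
  have hs := hN.hs
  have hs0 := hN.hs0
  have hR := hN.real
  have hst : s ≤ t := hy.le
  have hκs : s + κ ≤ n ^ 2 := by
    have h1 : (κ : ℝ) ≤ κ ^ 2 * m := by
      have h2 := hR.fm
      have h3 := hR.fkm2
      have h4 := hR.k1
      have h5 := hR.f1
      nlinarith
    have h2 : κ ≤ κ ^ 2 * m := by exact_mod_cast h1
    omega
  have h1 := hE.g4 s t _ y hst (by omega) hy.univ
  have h2 : nrm (E.near (bq κ n).κ s z - z) ≤ (d : ℝ) * κ := (near_facts hE z (t := s) hs0 hκs).2.2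
  have h3 := nrm_sub_le y (E.near (bq κ n).κ s z) z
  have h4 : nrm (y - z) ≤ Cv * ((t : ℝ) - s) + r + d * κ := by linarith
  refine ⟨h4, h4.trans ?_⟩
  have h5 : ((t : ℝ) - s) ≤ κ ^ 2 * m := by
    have : (t : ℝ) ≤ s + κ ^ 2 * m := by exact_mod_cast ht
    linarith
  have h6 : (Cv : ℝ) * ((t : ℝ) - s) ≤ Cv * (κ ^ 2 * m) :=
    mul_le_mul_of_nonneg_left h5 (Nat.cast_nonneg _)
  have := hR.fCm
  have := hR.fr
  have := hR.fdk
  have := hR.fn
  linarith

/-- one stage -/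
theorem stage (hN : Num d r κ n Cv m s) (hE : E.Good r κ Cv (n ^ 2) (n ^ 2))
    (hu : ∑ j, u j ^ 2 = 1) {t : ℕ} {x : Pos d} (hx : x ∈ E.W (bq κ n) u z s t)
    (hf : E.fg κ t x) (ht : t + 2 * κ ^ 4 + κ ≤ s + κ ^ 2 * m)
    (hlev : -(κ : ℝ) ^ 3 + ((t : ℝ) + 2 * κ ^ 4 - s) / (16 * κ) ≤ lev u (x - z) - κ ^ 3 / 8) :
    ∃ y ∈ E.W (bq κ n) u z s (t + 2 * κ ^ 4), E.fg κ (t + 2 * κ ^ 4) y ∧
      lev u (x - z) + κ ^ 3 / 2 ≤ lev u (y - z) := by
  have hR := hN.real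
  have hs := hN.hs
  have hs0 := hN.hs0
  have hst : s ≤ t := hx.le
  have hk0 : (0 : ℝ) < κ := by linarith [hR.k1]
  obtain ⟨v, _, hv, hok⟩ := hE.g1 (t + 2 * κ ^ 4) (by omega) (by omega) (x + rv u (κ ^ 3))
  have hv1 : nrm v ≤ (d : ℝ) * κ := (nrm_le_supn _).trans
    (mul_le_mul_of_nonneg_left (by exact_mod_cast hv) (Nat.cast_nonneg _))
  have hv2 := neg_le_lev hu v
  have hw1 := nrm_rv hu (κ ^ 3)
  have hw2 := lev_rv hu (κ ^ 3)
  push_cast at hw1 hw2
  have hyx : x + rv u (κ ^ 3) + v - x = rv u (κ ^ 3) + v := by abel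
  have h1 : nrm (x - (x + rv u (κ ^ 3) + v)) ≤ (κ : ℝ) ^ 3 + d + d * κ := by
    rw [nrm_sub_comm, hyx]
    have := nrm_add (rv u (κ ^ 3)) v
    linarith
  have h2 : lev u (x + rv u (κ ^ 3) + v - z) = lev u (x - z) + lev u (rv u (κ ^ 3)) + lev u v := by
    rw [← lev_add, ← lev_add]
    congr 1
    abel
  have hxn := (nrm_W hN hE hx (by omega)).2
  have h3 : nrm (x + rv u (κ ^ 3) + v - z) ≤ (κ : ℝ) ^ 3 + d + d * κ + (n : ℝ) ^ 2 / 10 := by
    have := nrm_sub_le (x + rv u (κ ^ 3) + v) x z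
    rw [nrm_sub_comm] at h1
    linarith
  have hd := hR.fd
  have hdk := hR.fdk
  have hr := hR.fr
  have hk := hR.fk
  have h1' := hR.f1
  have hn := hR.fn
  refine ⟨x + rv u (κ ^ 3) + v, ?_, hok.1, ?_⟩
  · refine move (β := (κ : ℝ) ^ 3 + d + d * κ) (by exact_mod_cast hk0) hE hu (by omega) hx hf
      (Nat.le_add_right _ _) (by omega) hok.2 h1 (by linarith) ?_ ?_ ?_
    · push_cast
      have : ((κ : ℝ) ^ 3 + d + d * κ + 1) * κ ≤ (2 * κ ^ 3) * κ :=
        mul_le_mul_of_nonneg_right (by linarith) hk0.le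
      have h4 : (2 * (κ : ℝ) ^ 3) * κ = 2 * κ ^ 4 := by ring
      linarith
    · rw [h2]
      push_cast
      linarith
    · linarith
  · rw [h2]
    linarith

/-- several stages -/
theorem stages (hN : Num d r κ n Cv m s) (hE : E.Good r κ Cv (n ^ 2) (n ^ 2))
    (hu : ∑ j, u j ^ 2 = 1) {t : ℕ} {x : Pos d} (hx : x ∈ E.W (bq κ n) u z s t)
    (hf : E.fg κ t x)
    (hlev : -(κ : ℝ) ^ 3 / 2 + ((t : ℝ) - s) / (16 * κ) ≤ lev u (x - z)) (k : ℕ)
    (ht : t + k * (2 * κ ^ 4) + κ ≤ s + κ ^ 2 * m) :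
    ∃ y ∈ E.W (bq κ n) u z s (t + k * (2 * κ ^ 4)), E.fg κ (t + k * (2 * κ ^ 4)) y ∧
      lev u (x - z) + k * (κ ^ 3 / 2) ≤ lev u (y - z) := by
  have hR := hN.real
  have hk0 : (0 : ℝ) < κ := by linarith [hR.k1]
  induction k with
  | zero => exact ⟨x, by simpa using hx, by simpa using hf, by simp⟩
  | succ k ih =>
    have h1 : t + (k + 1) * (2 * κ ^ 4) = t + k * (2 * κ ^ 4) + 2 * κ ^ 4 := by ring
    rw [h1] at ht ⊢
    obtain ⟨y, hy, hyf, hy2⟩ := ih (by omega)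
    obtain ⟨w, hw, hwf, hw2⟩ := stage hN hE hu hy hyf ht (by
      push_cast
      have h2 : ((t : ℝ) + k * (2 * κ ^ 4) + 2 * κ ^ 4 - s) / (16 * κ) =
          ((t : ℝ) - s) / (16 * κ) + (k + 1) * (κ ^ 3 / 8) := by
        field_simp
        ring
      rw [h2]
      have h3 : (0 : ℝ) ≤ k * κ ^ 3 := by positivity
      have h4 : (0 : ℝ) ≤ (κ : ℝ) ^ 3 := by positivity
      nlinarith)
    refine ⟨w, hw, hwf, ?_⟩
    push_cast
    linarith

/-- reaching the level `m` -/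
theorem reach (hN : Num d r κ n Cv m s) (hE : E.Good r κ Cv (n ^ 2) (n ^ 2))
    (hu : ∑ j, u j ^ 2 = 1) {t : ℕ} {x : Pos d} (hx : x ∈ E.W (bq κ n) u z s t)
    (hf : E.fg κ t x)
    (hlev : -(κ : ℝ) ^ 3 / 2 + ((t : ℝ) - s) / (16 * κ) ≤ lev u (x - z))
    (hxm : lev u (x - z) ≤ m) (ht : (t : ℝ) - s ≤ 5 * κ * m) :
    ∃ h : ℕ, (h : ℝ) ≤ ((t : ℝ) - s) + 4 * κ * (m - lev u (x - z)) + 2 * κ ^ 4 ∧
      ∃ y ∈ E.W (bq κ n) u z s (s + h), (m : ℝ) ≤ lev u (y - z) := by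
  have hR := hN.real
  have hk0 : (0 : ℝ) < κ := by linarith [hR.k1]
  have hk3 : (0 : ℝ) < (κ : ℝ) ^ 3 := by positivity
  have hst : s ≤ t := hx.le
  have hst' : (s : ℝ) ≤ t := by exact_mod_cast hst
  set lam := lev u (x - z) with hlam
  have hk1 := Nat.ceil_lt_add_one (a := 2 * (m - lam) / (κ : ℝ) ^ 3) (by
    have : 0 ≤ (m : ℝ) - lam := by linarith
    positivity)
  have hk2 := Nat.le_ceil (2 * (m - lam) / (κ : ℝ) ^ 3)
  set k := ⌈2 * (m - lam) / (κ : ℝ) ^ 3⌉₊ with hk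
  have h1 : (k : ℝ) * (2 * κ ^ 4) ≤ 4 * κ * (m - lam) + 2 * κ ^ 4 := by
    have : (k : ℝ) * (2 * κ ^ 4) ≤ (2 * (m - lam) / (κ : ℝ) ^ 3 + 1) * (2 * κ ^ 4) :=
      mul_le_mul_of_nonneg_right hk1.le (by positivity)
    have h2 : (2 * (m - lam) / (κ : ℝ) ^ 3 + 1) * (2 * κ ^ 4) = 4 * κ * (m - lam) + 2 * κ ^ 4 := by
      field_simp
      ring
    linarith
  have h3 : (m : ℝ) - lam ≤ k * (κ ^ 3 / 2) := by
    rw [div_le_iff₀ hk3] at hk2
    linarith
  have hlam2 : -(κ : ℝ) ^ 3 / 2 ≤ lam := by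
    have : 0 ≤ ((t : ℝ) - s) / (16 * κ) := div_nonneg (by linarith) (by positivity)
    linarith
  have h4 : (t : ℝ) + k * (2 * κ ^ 4) + κ ≤ s + κ ^ 2 * m := by
    have h5 : 4 * (κ : ℝ) * (m - lam) ≤ 4 * κ * (m + κ ^ 3 / 2) :=
      mul_le_mul_of_nonneg_left (by linarith) (by positivity)
    have h6 : 4 * (κ : ℝ) * (m + κ ^ 3 / 2) = 4 * (κ * m) + 2 * κ ^ 4 := by ring
    have h7 := hR.fkm
    have h8 := hR.fkm2
    have h9 : (0 : ℝ) ≤ κ * m := by positivity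
    have h10 : 5 * (κ : ℝ) * m = 5 * (κ * m) := by ring
    have h11 : (κ : ℝ) ≤ κ * m := by
      have h12 : (1 : ℝ) ≤ m := by linarith [hR.fm, hR.f1]
      nlinarith
    linarith
  obtain ⟨y, hy, -, hy2⟩ := stages hN hE hu hx hf hlev k (by exact_mod_cast h4)
  refine ⟨t - s + k * (2 * κ ^ 4), ?_, y, ?_, by linarith⟩
  · push_cast [Nat.cast_sub hst]
    linarith
  · have : s + (t - s + k * (2 * κ ^ 4)) = t + k * (2 * κ ^ 4) := by omega
    rw [this]
    exact hy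

theorem near_W (hN : Num d r κ n Cv m s) (hE : E.Good r κ Cv (n ^ 2) (n ^ 2))
    (hu : ∑ j, u j ^ 2 = 1) (hκs : s + κ ≤ n ^ 2) : E.near κ s z ∈ E.W (bq κ n) u z s s := by
  have hs0 := hN.hs0
  have hR := hN.real
  obtain ⟨h1, h2, h3⟩ := near_facts hE z (t := s) hs0 hκs
  refine Env.R_self (ok_occ' h1) ?_
  show E.near κ s z ∈ wall (bq κ n) u z s s
  rw [mem_wall, sub_self, zero_div]
  constructor
  · have := neg_le_lev hu (E.near κ s z - z)
    have := hR.fdk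
    have := hR.f1
    linarith
  · apply supn_le_of_nrm
    push_cast
    have := hR.fdk
    have := hR.fn
    have := hR.f1
    linarith

/-- the duration of the block -/
theorem bh_facts (hN : Num d r κ n Cv m s) (hE : E.Good r κ Cv (n ^ 2) (n ^ 2))
    (hu : ∑ j, u j ^ 2 = 1) :
    (E.bh (bq κ n) u m z s : ℝ) ≤ 4 * κ * m + 3 * κ ^ 4 ∧
      ∃ y ∈ E.W (bq κ n) u z s (s + E.bh (bq κ n) u m z s), (m : ℝ) ≤ lev u (y - z) := by
  have hs0 := hN.hs0
  have hR := hN.real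
  have hk0 : (0 : ℝ) < κ := by linarith [hR.k1]
  have h0 := near_W (z := z) hN hE hu (s_bd hN)
  obtain ⟨h1, h2, h3⟩ := near_facts hE z (t := s) hs0 (s_bd hN)
  have h4 := neg_le_lev hu (E.near κ s z - z)
  have h5 := lev_le hu (E.near κ s z - z)
  have h6 := hR.fdk
  have h7 := hR.f1
  have h8 := hR.fm
  obtain ⟨h, hh, y, hy, hy2⟩ := reach hN hE hu h0 h1.1 (by rw [sub_self, zero_div]; linarith)
    (by linarith) (by rw [sub_self]; positivity)
  have hmem : h ∈ {h | ∃ y ∈ E.W (bq κ n) u z s (s + h), (m : ℝ) ≤ lev u (y - z)} := ⟨y, hy, hy2⟩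
  have hle : E.bh (bq κ n) u m z s ≤ h := Nat.sInf_le hmem
  constructor
  · have h9 : (E.bh (bq κ n) u m z s : ℝ) ≤ h := by exact_mod_cast hle
    refine h9.trans (hh.trans ?_)
    have h10 : 4 * (κ : ℝ) * (m - lev u (E.near κ s z - z)) ≤ 4 * κ * (m + κ ^ 3 / 4) :=
      mul_le_mul_of_nonneg_left (by linarith) (by positivity)
    have h11 : 4 * (κ : ℝ) * (m + κ ^ 3 / 4) = 4 * κ * m + κ ^ 4 := by ring
    linarith
  · exact Nat.sInf_mem ⟨h, hmem⟩

theorem bh_nat (hN : Num d r κ n Cv m s) (hE : E.Good r κ Cv (n ^ 2) (n ^ 2))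
    (hu : ∑ j, u j ^ 2 = 1) :
    s + E.bh (bq κ n) u m z s + (64 * κ ^ 3 + 2) * κ + κ ≤ s + κ ^ 2 * m := by
  have hR := hN.real
  have h1 := (bh_facts (z := z) hN hE hu).1
  have h : (s : ℝ) + E.bh (bq κ n) u m z s + (64 * κ ^ 3 + 2) * κ + κ ≤ s + κ ^ 2 * m := by
    have h2 := hR.fkm
    have h3 := hR.fkm2
    have h4 := hR.fk
    have h5 := hR.fm
    have h6 : (0 : ℝ) ≤ κ * m := by positivity
    have h7 : (0 : ℝ) ≤ (κ : ℝ) ^ 4 := by positivity
    have h9 : (κ : ℝ) ≤ κ * m := by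
      have h10 := hR.k1
      have h11 : (1 : ℝ) ≤ m := by linarith [hR.f1]
      nlinarith
    have h8 : ((64 : ℝ) * κ ^ 3 + 2) * κ = 64 * κ ^ 4 + 2 * κ := by ring
    linarith
  exact_mod_cast h

/-- the duration is at least `κ` -/
theorem bh_lb (hN : Num d r κ n Cv m s) (hE : E.Good r κ Cv (n ^ 2) (n ^ 2))
    (hu : ∑ j, u j ^ 2 = 1) : κ ≤ E.bh (bq κ n) u m z s := by
  by_contra hcon
  have hR := hN.real
  have hb := bh_nat (z := z) hN hE hu
  obtain ⟨y, hy, hy2⟩ := (bh_facts (z := z) hN hE hu).2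
  have h1 := (nrm_W hN hE hy (by omega)).1
  have h2 := lev_le hu (y - z)
  have h3 : (E.bh (bq κ n) u m z s : ℝ) ≤ κ := by exact_mod_cast (not_le.1 hcon).le
  have h4 : (Cv : ℝ) * (((s + E.bh (bq κ n) u m z s : ℕ) : ℝ) - s) ≤ Cv * κ := by
    apply mul_le_mul_of_nonneg_left _ (Nat.cast_nonneg _)
    push_cast
    linarith
  have := hR.fCk
  have := hR.fr
  have := hR.fdk
  have := hR.fm
  have := hR.f1
  linarith

/-- before the end of the block the level `m` is not reached -/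
theorem lev_lt {t : ℕ} {y : Pos d} (hy : y ∈ E.W (bq κ n) u z s t)
    (ht : t < s + E.bh (bq κ n) u m z s) : lev u (y - z) < m := by
  by_contra hcon
  have hst : s ≤ t := hy.le
  have h1 : t - s < E.bh (bq κ n) u m z s := by omega
  apply Nat.notMem_of_lt_sInf h1
  refine ⟨y, ?_, not_lt.1 hcon⟩
  rw [Nat.add_sub_cancel' hst]
  exact hy

theorem bx_spec (hN : Num d r κ n Cv m s) (hE : E.Good r κ Cv (n ^ 2) (n ^ 2))
    (hu : ∑ j, u j ^ 2 = 1) :
    z + E.bx (bq κ n) u m z s ∈ E.W (bq κ n) u z s (s + E.bh (bq κ n) u m z s) ∧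
      (m : ℝ) ≤ lev u (E.bx (bq κ n) u m z s) := by
  obtain ⟨y, hy, hy2⟩ := (bh_facts (z := z) hN hE hu).2
  have hne : {v : Pos d | z + v ∈ E.W (bq κ n) u z s (s + E.bh (bq κ n) u m z s) ∧
      (m : ℝ) ≤ lev u v}.Nonempty := ⟨y - z, by rw [add_sub_cancel]; exact hy, hy2⟩
  unfold Env.bx
  rw [dif_pos hne]
  exact Function.argminOn_mem rk _ hne

theorem W_ub (hN : Num d r κ n Cv m s) (hE : E.Good r κ Cv (n ^ 2) (n ^ 2))
    (hu : ∑ j, u j ^ 2 = 1) {y : Pos d}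
    (hy : y ∈ E.W (bq κ n) u z s (s + E.bh (bq κ n) u m z s)) :
    lev u (y - z) ≤ m + Cv + r := by
  have hs := hN.hs
  have hs0 := hN.hs0
  have hR := hN.real
  have hb := bh_nat (z := z) hN hE hu
  have hlb := bh_lb (z := z) hN hE hu
  have hκ : 0 < κ := by
    have := hR.k1
    have h0 : (0 : ℝ) < κ := by linarith
    exact_mod_cast h0
  have h0 : 0 < E.bh (bq κ n) u m z s := by omega
  obtain ⟨b, hb'⟩ : ∃ b, E.bh (bq κ n) u m z s = b + 1 := ⟨_, (Nat.sub_add_cancel h0).symm⟩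
  rw [hb'] at hy hb
  obtain ⟨y', hy1, hy2⟩ := Env.R.pred (t := s + b) hy (by omega)
  have h1 := lev_lt (m := m) (show y' ∈ E.W (bq κ n) u z s (s + b) from hy1) (by omega)
  have h2 := hE.g4 (s + b) (s + b + 1) y' y (by omega) (by omega) hy2.univ
  push_cast at h2
  have h3 : lev u (y - z) = lev u (y' - z) + lev u (y - y') := by
    rw [← lev_add]
    congr 1
    abel
  have h4 := lev_le hu (y - y')
  have h5 : (Cv : ℝ) * ((s : ℝ) + b + 1 - (s + b)) = Cv := by ring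
  linarith

theorem conf (hN : Num d r κ n Cv m s) (hE : E.Good r κ Cv (n ^ 2) (n ^ 2))
    (hu : ∑ j, u j ^ 2 = 1) {t : ℕ} (ht : t ≤ s + E.bh (bq κ n) u m z s) {y : Pos d}
    (hy : y ∈ E.W (bq κ n) u z s t) :
    lev u (y - z) ≤ m + 2 * κ ^ 3 - ((s : ℝ) + E.bh (bq κ n) u m z s - t) / (8 * κ) := by
  have hs := hN.hs
  have hs0 := hN.hs0
  have hR := hN.real
  have hk0 : (0 : ℝ) < κ := by linarith [hR.k1]
  have hk3 : (0 : ℝ) < (κ : ℝ) ^ 3 := by positivity
  have hst : s ≤ t := hy.le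
  have hst' : (s : ℝ) ≤ t := by exact_mod_cast hst
  have hb := bh_nat (z := z) hN hE hu
  obtain ⟨hb1, -⟩ := bh_facts (z := z) hN hE hu
  have hm := hR.fm
  have hCk := hR.fCk
  have hr := hR.fr
  have hdk := hR.fdk
  have hC := hR.fC
  have h5 : (E.bh (bq κ n) u m z s : ℝ) / (8 * κ) ≤ m / 2 + κ ^ 3 := by
    rw [div_le_iff₀ (by positivity)]
    have h7 : ((m : ℝ) / 2 + κ ^ 3) * (8 * κ) = 4 * κ * m + 8 * κ ^ 4 := by ring
    have h9 : (0 : ℝ) ≤ (κ : ℝ) ^ 4 := by positivity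
    linarith
  rcases Nat.lt_or_ge t (s + E.bh (bq κ n) u m z s) with h1 | h1
  · rcases Nat.lt_or_ge t (s + κ) with h2 | h2
    · -- the start
      have h3 := (nrm_W hN hE hy (by omega)).1
      have h4 := lev_le hu (y - z)
      have h6 : (Cv : ℝ) * ((t : ℝ) - s) ≤ Cv * κ := by
        apply mul_le_mul_of_nonneg_left _ (Nat.cast_nonneg _)
        have : (t : ℝ) ≤ s + κ := by exact_mod_cast h2.le
        linarith
      have h7 : ((s : ℝ) + E.bh (bq κ n) u m z s - t) / (8 * κ) ≤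
          (E.bh (bq κ n) u m z s : ℝ) / (8 * κ) := by
        apply div_le_div_of_nonneg_right _ (by positivity)
        linarith
      linarith
    · obtain ⟨x, hx, hf, hxy⟩ := back hN hE hy h2 (by omega)
      have hx1 := lev_lt (m := m) hx (by omega)
      have hcast : ((t - κ : ℕ) : ℝ) = t - κ := by
        rw [Nat.cast_sub (by omega)]
      have hyx : lev u (y - z) ≤ lev u (x - z) + (Cv * κ + r) := by
        have e : lev u (y - z) = lev u (x - z) + lev u (y - x) := by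
          rw [← lev_add]
          congr 1
          abel
        have := lev_le hu (y - x)
        linarith
      have ht' : (t : ℝ) ≤ s + E.bh (bq κ n) u m z s := by exact_mod_cast ht
      rcases le_or_gt (-(κ : ℝ) ^ 3 / 2 + (((t - κ : ℕ) : ℝ) - s) / (16 * κ)) (lev u (x - z))
        with h3 | h3
      · have h4 : ((t - κ : ℕ) : ℝ) - s ≤ 5 * κ * m := by
          rw [hcast]
          have h5 := hR.fkm
          have h6 : (0 : ℝ) ≤ κ * m := by positivity
          linarith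
        obtain ⟨h, hh, w, hw, hw2⟩ := reach hN hE hu hx hf h3 hx1.le h4
        have hle : E.bh (bq κ n) u m z s ≤ h := Nat.sInf_le ⟨w, hw, hw2⟩
        have hle' : (E.bh (bq κ n) u m z s : ℝ) ≤ h := by exact_mod_cast hle
        rw [hcast] at hh
        have h5 : ((s : ℝ) + E.bh (bq κ n) u m z s - t) / (8 * κ) ≤
            (m - lev u (x - z)) + κ ^ 3 := by
          rw [div_le_iff₀ (by positivity)]
          have h6 : 0 ≤ (κ : ℝ) * (m - lev u (x - z)) := mul_nonneg hk0.le (by linarith)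
          have h7 : ((m : ℝ) - lev u (x - z) + κ ^ 3) * (8 * κ) =
            8 * (κ * (m - lev u (x - z))) + 8 * κ ^ 4 := by ring
          have h8 : 4 * (κ : ℝ) * (m - lev u (x - z)) = 4 * (κ * (m - lev u (x - z))) := by ring
          have h9 : (0 : ℝ) ≤ (κ : ℝ) ^ 4 := by positivity
          linarith
        linarith
      · have h4 : ((s : ℝ) + E.bh (bq κ n) u m z s - t) / (8 * κ) =
            (E.bh (bq κ n) u m z s : ℝ) / (8 * κ) - 2 * (((t : ℝ) - s) / (16 * κ)) := by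
          field_simp
          ring
        have h6 : 0 ≤ ((t : ℝ) - s) / (16 * κ) := div_nonneg (by linarith) (by positivity)
        have h7 : (((t - κ : ℕ) : ℝ) - s) / (16 * κ) ≤ ((t : ℝ) - s) / (16 * κ) := by
          apply div_le_div_of_nonneg_right _ (by positivity)
          rw [hcast]
          linarith
        rw [h4]
        linarith
  · obtain rfl : t = s + E.bh (bq κ n) u m z s := le_antisymm ht h1
    have h2 := W_ub hN hE hu hy
    have h3 : ((s : ℝ) + E.bh (bq κ n) u m z s - ((s + E.bh (bq κ n) u m z s : ℕ) : ℝ)) / (8 * κ) = 0 := by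
      push_cast
      rw [sub_self, zero_div]
    rw [h3]
    linarith

/-- the next centre -/
theorem next_mem (hN : Num d r κ n Cv m s) (hE : E.Good r κ Cv (n ^ 2) (n ^ 2))
    (hu : ∑ j, u j ^ 2 = 1) :
    E.near κ (s + E.bh (bq κ n) u m z s + (bq κ n).Δ) (z + E.bx (bq κ n) u m z s + v0 (bq κ n) u)
      ∈ E.W (bq κ n) u z s (s + E.bh (bq κ n) u m z s + (bq κ n).Δ) := by
  have hs := hN.hs
  have hs0 := hN.hs0
  have hR := hN.real
  have hk0 : (0 : ℝ) < κ := by linarith [hR.k1]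
  have hb := bh_nat (z := z) hN hE hu
  have hlb := bh_lb (z := z) hN hE hu
  obtain ⟨hb1, -⟩ := bh_facts (z := z) hN hE hu
  obtain ⟨hx1, hx2⟩ := bx_spec (z := z) hN hE hu
  have hΔ : (bq κ n).Δ = (64 * κ ^ 3 + 2) * κ := rfl
  have hv0 : v0 (bq κ n) u = rv u (32 * κ ^ 3) := rfl
  rw [hΔ, hv0]
  set h := E.bh (bq κ n) u m z s with hh
  set X := E.bx (bq κ n) u m z s with hX
  obtain ⟨q1, -, q3⟩ := near_facts hE (z + X + rv u (32 * κ ^ 3))
    (t := s + h + (64 * κ ^ 3 + 2) * κ) (by omega) (by omega)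
  set q := E.near κ (s + h + (64 * κ ^ 3 + 2) * κ) (z + X + rv u (32 * κ ^ 3)) with hq
  obtain ⟨x, hx, hf, hxX⟩ := back hN hE hx1 (by omega) (by omega)
  have hcast : ((s + h - κ : ℕ) : ℝ) = s + h - κ := by
    rw [Nat.cast_sub (by omega)]
    push_cast
    ring
  have hw1 := nrm_rv hu (32 * κ ^ 3)
  have hw2 := lev_rv hu (32 * κ ^ 3)
  push_cast at hw1 hw2
  have h1 : nrm (z + X - q) ≤ 32 * (κ : ℝ) ^ 3 + d + d * κ := by
    rw [nrm_sub_comm]
    have h2 : q - (z + X) = rv u (32 * κ ^ 3) + (q - (z + X + rv u (32 * κ ^ 3))) := by abel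
    rw [h2]
    have := nrm_add (rv u (32 * κ ^ 3)) (q - (z + X + rv u (32 * κ ^ 3)))
    linarith
  have h1x : nrm (x - q) ≤ 32 * (κ : ℝ) ^ 3 + d + d * κ + (Cv * κ + r) := by
    have := nrm_sub_le x (z + X) q
    rw [nrm_sub_comm] at hxX
    linarith
  have h2 : lev u (q - z) = lev u X + lev u (rv u (32 * κ ^ 3)) +
      lev u (q - (z + X + rv u (32 * κ ^ 3))) := by
    rw [← lev_add, ← lev_add]
    congr 1
    abel
  have h2' := neg_le_lev hu (q - (z + X + rv u (32 * κ ^ 3)))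
  have hxn := (nrm_W hN hE hx1 (by omega)).2
  have h3 : nrm (q - z) ≤ 32 * (κ : ℝ) ^ 3 + d + d * κ + (n : ℝ) ^ 2 / 10 := by
    have := nrm_sub_le q (z + X) z
    rw [nrm_sub_comm] at h1
    linarith
  have hd := hR.fd
  have hdk := hR.fdk
  have hr := hR.fr
  have hk := hR.fk
  have hCk := hR.fCk
  have h1' := hR.f1
  have hn := hR.fn
  have hfm := hR.fm
  refine move (β := 32 * (κ : ℝ) ^ 3 + d + d * κ + (Cv * κ + r)) (by exact_mod_cast hk0) hE hu
      (by omega) hx hf (by omega) (by omega) q1.2 h1x (by linarith) ?_ ?_ ?_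
  · rw [hcast]
    push_cast
    have : (32 * (κ : ℝ) ^ 3 + d + d * κ + (Cv * κ + r) + 1) * κ ≤ (64 * κ ^ 3 + 2) * κ :=
      mul_le_mul_of_nonneg_right (by linarith) hk0.le
    linarith
  · push_cast
    have h5 : ((s : ℝ) + h + (64 * κ ^ 3 + 2) * κ - s) / (16 * κ) ≤ m / 2 := by
      rw [div_le_iff₀ (by positivity)]
      have h6 : ((m : ℝ) / 2) * (16 * κ) = 8 * (κ * m) := by ring
      have h7 := hR.fkm
      have h8 : ((64 : ℝ) * κ ^ 3 + 2) * κ = 64 * κ ^ 4 + 2 * κ := by ring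
      have h9 : (κ : ℝ) ≤ κ * m := by
        have h10 := hR.k1
        have h11 : (1 : ℝ) ≤ m := by linarith
        nlinarith
      linarith
    linarith
  · linarith

theorem sub (hN : Num d r κ n Cv m s) (hE : E.Good r κ Cv (n ^ 2) (n ^ 2))
    (hu : ∑ j, u j ^ 2 = 1) {t : ℕ} (_ht1 : s + E.bh (bq κ n) u m z s + (bq κ n).Δ ≤ t)
    (ht2 : t ≤ n ^ 2) (ht3 : t ≤ s + κ ^ 4 * n) :
    E.W (bq κ n) u (z + E.bx (bq κ n) u m z s + v0 (bq κ n) u)
      (s + E.bh (bq κ n) u m z s + (bq κ n).Δ) t ⊆ E.W (bq κ n) u z s t := by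
  intro y hy
  have hs := hN.hs
  have hs0 := hN.hs0
  have hR := hN.real
  have hk0 : (0 : ℝ) < κ := by linarith [hR.k1]
  have hb := bh_nat (z := z) hN hE hu
  obtain ⟨hb1, -⟩ := bh_facts (z := z) hN hE hu
  obtain ⟨hx1, hx2⟩ := bx_spec (z := z) hN hE hu
  have hnext := next_mem (z := z) hN hE hu
  have hΔ : (bq κ n).Δ = (64 * κ ^ 3 + 2) * κ := rfl
  have hv0 : v0 (bq κ n) u = rv u (32 * κ ^ 3) := rfl
  rw [hΔ, hv0] at hy hnext
  rw [hΔ] at _ht1
  set h := E.bh (bq κ n) u m z s with hh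
  set X := E.bx (bq κ n) u m z s with hX
  obtain ⟨-, -, q3⟩ := near_facts hE (z + X + rv u (32 * κ ^ 3))
    (t := s + h + (64 * κ ^ 3 + 2) * κ) (by omega) (by omega)
  set s' := s + h + (64 * κ ^ 3 + 2) * κ with hs'
  set q := E.near κ s' (z + X + rv u (32 * κ ^ 3)) with hq
  have hxn := (nrm_W hN hE hx1 (by omega)).2
  rw [add_sub_cancel_left] at hxn
  have hw1 := nrm_rv hu (32 * κ ^ 3)
  have hw2 := lev_rv hu (32 * κ ^ 3)
  push_cast at hw1 hw2
  have hst : (s' : ℝ) ≤ t := by exact_mod_cast _ht1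
  have hloc : E.R (fun i => wall (bq κ n) u (z + X + rv u (32 * κ ^ 3)) s' i ∩
      (fun _ => Ball q (Cv * ((t : ℝ) - s') + r)) i) s' q t y := by
    refine Env.R.inter hy ?_ ?_
    · show nrm (q - q) ≤ _
      rw [sub_self]
      have h1 : nrm (0 : Pos d) = 0 := by simp [ZI.nrm]
      rw [h1]
      have : 0 ≤ (Cv : ℝ) * ((t : ℝ) - s') := mul_nonneg (Nat.cast_nonneg _) (by linarith)
      have : (0 : ℝ) ≤ r := Nat.cast_nonneg _
      linarith
    · intro i hi1 hi2 w hw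
      have h1 := hE.g4' s' (i + 1) q w (by omega) (by omega) hw.univ
      have h2 : (Cv : ℝ) * (((i + 1 : ℕ) : ℝ) - s') ≤ Cv * ((t : ℝ) - s') := by
        apply mul_le_mul_of_nonneg_left _ (Nat.cast_nonneg _)
        have : ((i + 1 : ℕ) : ℝ) ≤ t := by exact_mod_cast hi2
        linarith
      show nrm (w - q) ≤ _
      linarith
  refine Env.R.comp hnext hloc fun i hi1 hi2 w hw => ?_
  obtain ⟨hw3, hw4⟩ := hw
  rw [mem_wall] at hw3 ⊢
  have hw4' : nrm (w - q) ≤ Cv * ((t : ℝ) - s') + r := hw4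
  have hd := hR.fd
  have hdk := hR.fdk
  have hr := hR.fr
  have hn := hR.fn
  have hfm := hR.fm
  constructor
  · have h1 : lev u (w - z) = lev u (w - (z + X + rv u (32 * κ ^ 3))) +
        (lev u X + lev u (rv u (32 * κ ^ 3))) := by
      rw [← lev_add, ← lev_add]
      congr 1
      abel
    have h2 : ((i : ℝ) - s) / (16 * κ) = ((i : ℝ) - s') / (16 * κ) +
        ((s' : ℝ) - s) / (16 * κ) := by
      rw [← add_div]
      congr 1
      ring
    have h5 : ((s' : ℝ) - s) / (16 * κ) ≤ m / 2 := by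
      rw [div_le_iff₀ (by positivity), hs']
      push_cast
      have h6 : ((m : ℝ) / 2) * (16 * κ) = 8 * (κ * m) := by ring
      have h7 := hR.fkm
      have h8 : ((64 : ℝ) * κ ^ 3 + 2) * κ = 64 * κ ^ 4 + 2 * κ := by ring
      have h9 : (κ : ℝ) ≤ κ * m := by
        have h10 := hR.k1
        have h11 : (1 : ℝ) ≤ m := by linarith [hR.f1]
        nlinarith
      linarith
    have h6 : (0 : ℝ) ≤ (κ : ℝ) ^ 3 := by positivity
    linarith [hw3.1]
  · apply supn_le_of_nrm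
    push_cast
    have h1 := nrm_sub_le w q z
    have h2 := nrm_sub_le q (z + X + rv u (32 * κ ^ 3)) z
    have h3 : z + X + rv u (32 * κ ^ 3) - z = X + rv u (32 * κ ^ 3) := by abel
    rw [h3] at h2
    have h4 := nrm_add X (rv u (32 * κ ^ 3))
    have h5 : (Cv : ℝ) * ((t : ℝ) - s') ≤ Cv * (κ ^ 4 * n) := by
      apply mul_le_mul_of_nonneg_left _ (Nat.cast_nonneg _)
      have h6 : (t : ℝ) ≤ s + κ ^ 4 * n := by exact_mod_cast ht3
      have h7 : (s : ℝ) ≤ s' := by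
        have : s ≤ s' := by omega
        exact_mod_cast this
      linarith
    have h6 := hR.fCn
    linarith

theorem block_core (hN : Num d r κ n Cv m s) (hE : E.Good r κ Cv (n ^ 2) (n ^ 2))
    (hu : ∑ j, u j ^ 2 = 1) : BlockFacts E (bq κ n) u r Cv m n z s := by
  have hs := hN.hs
  have hs0 := hN.hs0
  have hR := hN.real
  have hb := bh_nat (z := z) hN hE hu
  obtain ⟨h1, h2, h3⟩ := near_facts hE z (t := s) hs0 (s_bd hN)
  obtain ⟨hx1, hx2⟩ := bx_spec (z := z) hN hE hu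
  obtain ⟨hb1, -⟩ := bh_facts (z := z) hN hE hu
  refine ⟨h1, h2, near_W hN hE hu (s_bd hN), hx1, hx2, hx1.occ, fun y hy => W_ub hN hE hu hy, ?_,
    bh_lb hN hE hu, fun t _ ht y hy => ?_, ?_, next_mem hN hE hu,
    fun t ht1 ht2 ht3 => sub hN hE hu ht1 ht2 ht3⟩
  · show (E.bh (bq κ n) u m z s : ℝ) ≤ 4 * κ * (m + 2 * ((κ ^ 3 : ℕ) : ℝ))
    push_cast
    have : 4 * (κ : ℝ) * (m + 2 * κ ^ 3) = 4 * κ * m + 8 * κ ^ 4 := by ring
    have h9 : (0 : ℝ) ≤ (κ : ℝ) ^ 4 := by positivity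
    linarith
  · have := conf hN hE hu ht hy
    show lev u (y - z) ≤ m + 2 * ((κ ^ 3 : ℕ) : ℝ) - ((s : ℝ) + E.bh (bq κ n) u m z s - t) / (8 * κ)
    push_cast
    exact this
  · have h4 := (nrm_W hN hE hx1 (by omega)).1
    rw [add_sub_cancel_left] at h4
    push_cast at h4
    have h5 : (Cv : ℝ) * ((s : ℝ) + E.bh (bq κ n) u m z s - s) = Cv * E.bh (bq κ n) u m z s := by
      ring
    have h6 := hR.d1
    have h7 : (r : ℝ) ≤ d * κ := by
      have h8 := hR.frk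
      have : (0 : ℝ) ≤ κ := Nat.cast_nonneg _
      nlinarith
    show nrm (E.bx (bq κ n) u m z s) ≤ Cv * E.bh (bq κ n) u m z s + 2 * d * κ
    linarith

end core

end ZQ.D2

namespace ZQ.Rows

open ZP hiding BlockFacts Env envT foldl_stepR_fst foldl_stepR_inter foldl_stepR_mono foldl_stepR_occ foldl_stepR_region inf infMv infMv_mono infMv_occ inf_comp inf_inter inf_mono_univ inf_occ inf_pred mem_foldl_stepR mem_infMv stepI stepR visU visU_mono_univ
open ZP.Rows hiding block_facts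

variable [ZQ.Thr]

open ZP hiding BlockFacts Env envT foldl_stepR_fst foldl_stepR_inter foldl_stepR_mono foldl_stepR_occ foldl_stepR_region inf infMv infMv_mono infMv_occ inf_comp inf_inter inf_mono_univ inf_occ inf_pred mem_foldl_stepR mem_infMv stepI stepR visU visU_mono_univ
open ZP.D2 hiding R_back W_ub back bh_facts bh_lb bh_nat block_core bx_spec conf fg_of lev_lt move near_W near_facts near_spec next_mem nrm_W ok_occ' reach stage stages sub
open ZQ.D2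
open ZQ

/-- ROW D2: the deterministic block lemma -/
theorem block_facts (d : ℕ) (hd : 0 < d) (Cv a0 : ℕ) : ∃ a ≥ a0, ∃ A0 : ℕ, ∀ A ≥ A0, ∃ r0 : ℕ,
    ∀ r ≥ r0, ∀ n : ℕ, r ^ A ≤ n → ∀ E : Env d, E.Good r (r ^ a) Cv (n ^ 2) (n ^ 2) →
    ∀ (u : Fin d → ℝ), ∑ j, u j ^ 2 = 1 → ∀ m : ℕ, r ^ (7 * a) ≤ m → m ≤ r * n →
    ∀ (z : Pos d) (s : ℕ), r ^ a ≤ s → s + r ^ (2 * a) * m ≤ n ^ 2 →
    BlockFacts E (bp d a r n) u r Cv m n z s := by
  refine ⟨max a0 2, le_max_left _ _, 5 * max a0 2, fun A hA => ⟨1000 * (d + 1) * (Cv + 1), ?_⟩⟩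
  intro r hr n hn E hE u hu m hm hmn z s hs0 hs
  set a := max a0 2 with ha
  have ha2 : 2 ≤ a := le_max_right _ _
  have hr1 : 1 ≤ r := le_trans (Nat.succ_le_of_lt (by positivity)) hr
  have e2 : r ^ (2 * a) = (r ^ a) ^ 2 := by rw [← pow_mul, mul_comm]
  have e3 : r ^ (3 * a) = (r ^ a) ^ 3 := by rw [← pow_mul, mul_comm]
  have e5 : r ^ (5 * a) = (r ^ a) ^ 5 := by rw [← pow_mul, mul_comm]
  have e7 : r ^ (7 * a) = (r ^ a) ^ 7 := by rw [← pow_mul, mul_comm]
  have hN : Num d r (r ^ a) n Cv m s := by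
    refine ⟨hd, hr, Nat.pow_le_pow_right hr1 ha2, e7 ▸ hm, hmn, ?_, hs0, e2 ▸ hs⟩
    rw [← e5]
    exact (Nat.pow_le_pow_right hr1 hA).trans hn
  have hP : bp d a r n = bq (r ^ a) n := by
    unfold ZI.bp bq
    rw [e3]
  rw [hP]
  exact block_core hN hE hu

end ZQ.Rows
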