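import Pool.Agent.ZP.Dec
import Pool.Agent.ZQ.Ev0
import Pool.Agent.ZI.Dec

/-! # Definitions for the decoupling of blocks (with recovery) -/

set_option autoImplicit false

open scoped ENNReal BigOperators Classical

noncomputable section

namespace ZQ

open ZP ZQ

variable [Thr]

export ZI (Up)

variable {d : ℕ} {m : Model} {δ : ℝ}

/-- the environment of a path of configurations with marks -/
def pe (q : Par d m δ) (p : List (Tor d q.M → ℕ)) (o : List (Option (Tor d q.M))) : Env d :=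
  envT q (p.headD (fun _ => 0)) (canP p o)

/-- two environments with the same occupation and the same infections -/
structure EqEnv (E E' : Env d) : Prop where
  occ : ∀ t x, E.occ t x ↔ E'.occ t x
  inf : ∀ (G : ℕ → Set (Pos d)) (s : ℕ) (A : Set (Pos d)) (j : ℕ),
    inf E.nb E.pr E.η0 E.U G s A j = inf E'.nb E'.pr E'.η0 E'.U G s A j
  vis : ∀ (G : ℕ → Set (Pos d)) (s : ℕ) (A : Set (Pos d)) (j : ℕ),
    visU E.nb E.pr E.η0 E.U G s A j = visU E'.nb E'.pr E'.η0 E'.U G s A j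

/-- two environments agree in the region `Γ` up to the time `T` -/
structure AgreeW (E E' : Env d) (Γ : ℕ → Set (Pos d)) (T : ℕ) : Prop where
  occ : ∀ t ≤ T, ∀ x ∈ Γ t, (E.occ t x ↔ E'.occ t x)
  R : ∀ G : ℕ → Set (Pos d), (∀ t ≤ T, G t ⊆ Γ t) → ∀ s t x y, t ≤ T →
    (E.R G s x t y ↔ E'.R G s x t y)

/-- the event of the first block, started at `(0, κ)`, in the form that is a function of the past -/
structure PastEv (E : Env d) (P : BP) (u : Fin d → ℝ) (r Cv m : ℕ) (y : ℕ × Pos d) : Prop where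
  blk : E.blk P u m 0 P.κ = y
  att : y.2 ∈ E.W P u 0 P.κ (P.κ + y.1)
  lev_ge : (m : ℝ) ≤ lev u y.2
  h_lb : P.κ ≤ y.1
  near_ok : E.ok P.κ P.κ (E.near P.κ P.κ 0)
  near_supn : supn (E.near P.κ P.κ 0) ≤ P.κ
  conf : ∀ t < y.1, ∀ b ∈ visU E.nb E.pr E.η0 E.U (wall P u 0 P.κ) P.κ {E.near P.κ P.κ 0} t,
    lev u b ≤ m + 2 * P.mg + Cv + r - ((y.1 : ℝ) - t) / (8 * P.κ)

/-- law of the block variable for the torus chain -/
def QT (q : Par d m δ) (P : BP) (u : Fin d → ℝ) (n m' : ℕ) (y : ℕ × Pos d) : ℝ≥0∞ :=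
  q.PP (n ^ 2 * q.N1) (fun η l => (envT q η l).blk P u m' 0 P.κ = y)

/-- what is used about good events and blocks -/
structure Base (m : Model) (δ : ℝ) (d Cv a A r0 : ℕ) (c : ℝ) : Prop where
  d_pos : 0 < d
  c_pos : 0 < c
  Cv_pos : 0 < Cv
  a_big : 10 ≤ a
  A_big : 1000 * a ≤ A
  r0_big : 10 ≤ r0
  good : ∀ r ≥ r0, ∀ n : ℕ, r ^ A ≤ n → n ≤ (2 * r) ^ A → ∀ q : Par d m δ, q.M = n ^ 4 → q.Tiny n →
    q.PP (n ^ 2 * q.N1) (fun η l => ¬ (envT q η l).Good r (r ^ a) Cv (n ^ 2) (n ^ 2)) ≤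
      ENNReal.ofReal (Real.exp (- c * r))
  facts : ∀ r ≥ r0, ∀ n : ℕ, r ^ A ≤ n → ∀ E : Env d, E.Good r (r ^ a) Cv (n ^ 2) (n ^ 2) →
    ∀ (u : Fin d → ℝ), ∑ j, u j ^ 2 = 1 → ∀ m : ℕ, r ^ (7 * a) ≤ m → m ≤ r * n →
    ∀ (z : Pos d) (s : ℕ), r ^ a ≤ s → s + r ^ (2 * a) * m ≤ n ^ 2 →
    BlockFacts E (bp d a r n) u r Cv m n z s

end ZQ
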