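import Pool.Agent.ZP.E1
import Pool.Agent.ZQ.Dec
import Pool.Agent.ZI.E1

/-! # Row E1: the infection is a function of the path of configurations with marks -/

set_option autoImplicit false

open scoped ENNReal BigOperators Classical

noncomputable section

namespace ZQ.E1

open ZP hiding AgreeW Base BlockFacts Env EqEnv PastEv QT envT inf infMv pe stepI stepR visU
open ZP.E1 hiding bx_eq cw_fold cw_foldA envT_cw foldl_filterMap foldl_stepI_fst foldl_stepI_sub near_eq stepI_can stepI_fst stepI_none stepI_some vis_letters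

variable [ZQ.Thr]

open ZP hiding AgreeW Base BlockFacts Env EqEnv PastEv QT envT inf infMv pe stepI stepR visU
open ZQ

variable {d : ℕ}

/-! ### one letter -/

section letters

variable {M K : ℕ}

theorem foldl_filterMap (G : Set (Pos d)) (L : List (Let d M K)) (s : (Tor d M → ℕ) × Set (Pos d)) :
    (L.filterMap toLab).foldl (stepR nbT tv G) s = L.foldl (stepI G) s := by
  induction L generalizing s with
  | nil => rfl
  | cons a L ih =>
    rw [List.foldl_cons, ← ih]
    rw [List.filterMap_cons]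
    unfold stepI
    cases h : toLab a with
    | none => rfl
    | some l => rfl

theorem stepI_fst (G : Set (Pos d)) (s : (Tor d M → ℕ) × Set (Pos d)) (a : Let d M K) :
    (stepI G s a).1 = stepA s.1 a := by
  unfold stepI stepA
  cases h : toLab a with
  | none => rfl
  | some l => rfl

theorem foldl_stepI_fst (G : Set (Pos d)) (L : List (Let d M K)) (s : (Tor d M → ℕ) × Set (Pos d)) :
    (L.foldl (stepI G) s).1 = L.foldl stepA s.1 := by
  induction L generalizing s with
  | nil => rfl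
  | cons a L ih =>
    rw [List.foldl_cons, List.foldl_cons, ih, stepI_fst]

theorem foldl_stepI_sub (G : Set (Pos d)) (L : List (Let d M K)) (s : (Tor d M → ℕ) × Set (Pos d))
    (h : s.2 ⊆ G) : (L.foldl (stepI G) s).2 ⊆ G := by
  induction L generalizing s with
  | nil => exact h
  | cons a L ih =>
    rw [List.foldl_cons]
    refine ih _ ?_
    unfold stepI
    cases h' : toLab a with
    | none => exact h
    | some l => exact Set.inter_subset_right

theorem stepI_none (G : Set (Pos d)) (s : (Tor d M → ℕ) × Set (Pos d))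
    (a : Let d M K) (h : toLab a = none) : stepI G s a = s := by
  unfold stepI
  rw [h]

theorem stepI_some (G : Set (Pos d)) (s : (Tor d M → ℕ) × Set (Pos d))
    (a : Let d M K) (b : Lab (Tor d M) d) (h : toLab a = some b) :
    stepI G s a = stepR nbT tv G s b := by
  unfold stepI
  rw [h]

end letters

/-! ### the canonical letter -/

section can

variable {M K : ℕ}

theorem stepI_can (hd : 0 < d) (hM : 3 ≤ M) (hK : 0 < K) (G A : Set (Pos d))
    (η : Tor d M → ℕ) (a : Let d M (K + 1)) (hA : A ⊆ G) :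
    stepI G (η, A) (canL (mark a) η (stepA η a) : Let d M (K + 1)) = stepI G (η, A) a := by
  have hM2 : 2 ≤ M := by omega
  cases h : toLab a with
  | none =>
    rw [stepA_none _ _ h, mark_none a h, canL_stay hM2, stepI_none _ _ a h]
    exact stepI_none _ _ _ rfl
  | some b =>
    obtain ⟨x, j, e⟩ := b
    cases j with
    | zero =>
      obtain ⟨e', he'⟩ := canL_rec (K := K) hd x η (stepA η a)
      rw [mark_zero a x e h, stepI_some _ _ _ _ he', stepI_some _ _ a _ h]
      rfl
    | succ k =>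
      rw [mark_succ a x k e h]
      have hs : stepA η a = ZI.mv nbT η (x, k, e) := stepA_some η a _ h
      by_cases hk : k < η x
      · rw [hs, stepI_some _ _ a _ h, stepI_some _ _ _ _ (canL_jump hM hK η x k e hk)]
        have hx : 0 < η x := lt_of_le_of_lt (Nat.zero_le _) hk
        unfold stepR
        have h0 : ZI.mv nbT η (x, 0, e) = ZI.mv nbT η (x, k, e) := by
          rw [ZI.C5.mv_add η (x, k, e) hk, ZI.C5.mv_add η (x, 0, e) hx]
        refine Prod.ext ?_ ?_
        · exact h0
        · change infMv nbT tv η A (x, 1, e) ∩ G = infMv nbT tv η A (x, k + 1, e) ∩ G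
          have h1 : ZI.infMv nbT tv η A (x, 0, e) = ZI.infMv nbT tv η A (x, k, e) := by
            unfold ZI.infMv
            rw [if_pos hk, if_pos hx]
          have h2 : infMv nbT tv η A (x, 1, e) = infMv nbT tv η A (x, k + 1, e) := by
            ext z
            change (z ∈ ZI.infMv nbT tv η A (x, 0, e) ∧
                (0 < η x → (z ∈ A ∧ tv z ≠ x) ∨ Thr.θ ≤ ZI.mv nbT η (x, 0, e) (tv z))) ↔
              (z ∈ ZI.infMv nbT tv η A (x, k, e) ∧
                (k < η x → (z ∈ A ∧ tv z ≠ x) ∨ Thr.θ ≤ ZI.mv nbT η (x, k, e) (tv z)))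
            rw [h1, h0]
            simp only [hk, hx, true_implies]
          rw [h2]
      · rw [hs, ZI.C5.mv_stay _ _ hk, canL_stay hM2, stepI_some _ _ a _ h,
          stepI_none _ _ _ rfl]
        unfold stepR
        refine Prod.ext ?_ ?_
        · exact (ZI.C5.mv_stay η (x, k, e) hk).symm
        · change A = infMv nbT tv η A (x, k + 1, e) ∩ G
          have h2 : infMv nbT tv η A (x, k + 1, e) = A := by
            ext z
            change (z ∈ ZI.infMv nbT tv η A (x, k, e) ∧
                (k < η x → (z ∈ A ∧ tv z ≠ x) ∨ Thr.θ ≤ ZI.mv nbT η (x, k, e) (tv z))) ↔ z ∈ A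
            unfold ZI.infMv
            rw [if_neg hk]
            exact ⟨fun h => h.1, fun h => ⟨h, fun h' => absurd h' hk⟩⟩
          rw [h2, Set.inter_eq_left.2 hA]

/-! ### the canonical word -/

theorem cw_fold (hd : 0 < d) (hM : 3 ≤ M) (hK : 0 < K) (G : Set (Pos d))
    (w : List (Let d M (K + 1))) :
    ∀ (η : Tor d M → ℕ) (A : Set (Pos d)), A ⊆ G →
      (cw η w).foldl (stepI G) (η, A) = w.foldl (stepI G) (η, A) := by
  induction w with
  | nil => exact fun η A _ => rfl
  | cons a w ih =>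
    intro η A hA
    rw [cw, List.foldl_cons, List.foldl_cons, stepI_can hd hM hK G A η a hA]
    have h1 : stepI G (η, A) a = (stepA η a, (stepI G (η, A) a).2) :=
      Prod.ext (stepI_fst G (η, A) a) rfl
    have h2 : (stepI G (η, A) a).2 ⊆ G := foldl_stepI_sub G [a] (η, A) hA
    rw [h1]
    exact ih _ _ h2

theorem cw_foldA (hd : 0 < d) (hM : 3 ≤ M) (hK : 0 < K) (w : List (Let d M (K + 1)))
    (η : Tor d M → ℕ) : (cw η w).foldl stepA η = w.foldl stepA η := by
  have h := congrArg Prod.fst (cw_fold hd hM hK Set.univ w η ∅ (Set.empty_subset _))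
  rw [foldl_stepI_fst, foldl_stepI_fst] at h
  exact h

/-! ### visits along letters -/

theorem vis_letters (G : Set (Pos d)) (L : List (Let d M K))
    (s : (Tor d M → ℕ) × Set (Pos d)) (z : Pos d) :
    (∃ i ≤ (L.filterMap toLab).length,
      z ∈ (((L.filterMap toLab).take i).foldl (stepR nbT tv G) s).2) ↔
    ∃ i ≤ L.length, z ∈ ((L.take i).foldl (stepI G) s).2 := by
  constructor
  · rintro ⟨i, hi, hz⟩
    obtain ⟨i', hi', htake⟩ := ZI.C5.take_filterMap toLab L i hi
    rw [htake, foldl_filterMap] at hz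
    exact ⟨i', hi', hz⟩
  · rintro ⟨i, hi, hz⟩
    refine ⟨((L.take i).filterMap toLab).length, ?_, ?_⟩
    · conv_rhs => rw [← List.take_append_drop i L, List.filterMap_append, List.length_append]
      exact Nat.le_add_right _ _
    · have h1 : (L.filterMap toLab).take ((L.take i).filterMap toLab).length =
          (L.take i).filterMap toLab := by
        conv_lhs => rw [← List.take_append_drop i L, List.filterMap_append]
        rw [List.take_append_drop i L]
        exact List.take_left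
      rw [h1, foldl_filterMap]
      exact hz

end can

/-! ### words with the same letters up to ineffective rings -/

section env

variable {m : Model} {δ : ℝ} (q : Par d m δ)

theorem envT_cw (hd : 0 < d) (η : Tor d q.M → ℕ) (w : List (Let d q.M (q.K + 1))) :
    EqEnv (envT q η w) (envT q η (cw η w)) := by
  have hM : 3 ≤ q.M := by have := q.M_ge; omega
  have hK : 0 < q.K := by have := q.K_ge; omega
  have hcfg : ∀ t, cfg nbT η (units q.N1 (cw η w)) t = cfg nbT η (units q.N1 w) t := by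
    intro t
    rw [cfg_eq, cfg_eq, cw_take, cw_foldA hd hM hK]
  have hblk : ∀ t, ((cw η w).drop (t * q.N1)).take q.N1 =
      cw (cfg nbT η (units q.N1 w) t) ((w.drop (t * q.N1)).take q.N1) := by
    intro t
    rw [cw_drop, cw_take, cfg_eq]
  have hinf : ∀ (G : ℕ → Set (Pos d)) (s : ℕ) (A : Set (Pos d)) (j : ℕ),
      inf nbT tv η (units q.N1 w) G s A j = inf nbT tv η (units q.N1 (cw η w)) G s A j := by
    intro G s A j
    induction j with
    | zero =>
      change {z | z ∈ A ∧ z ∈ G s ∧ Thr.θ ≤ cfg nbT η (units q.N1 w) s (tv z)} =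
        {z | z ∈ A ∧ z ∈ G s ∧ Thr.θ ≤ cfg nbT η (units q.N1 (cw η w)) s (tv z)}
      rw [hcfg]
    | succ j ih =>
      change ((units q.N1 w (s + j)).foldl (stepR nbT tv (G (s + j)))
        (cfg nbT η (units q.N1 w) (s + j), inf nbT tv η (units q.N1 w) G s A j ∩ G (s + j))).2 =
        ((units q.N1 (cw η w) (s + j)).foldl (stepR nbT tv (G (s + j)))
        (cfg nbT η (units q.N1 (cw η w)) (s + j),
          inf nbT tv η (units q.N1 (cw η w)) G s A j ∩ G (s + j))).2
      rw [← ih, hcfg]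
      have h1 : units q.N1 (cw η w) (s + j) =
        (cw (cfg nbT η (units q.N1 w) (s + j))
          ((w.drop ((s + j) * q.N1)).take q.N1)).filterMap toLab := by
        rw [← hblk]
        rfl
      have h2 : units q.N1 w (s + j) = ((w.drop ((s + j) * q.N1)).take q.N1).filterMap toLab :=
        rfl
      rw [h1, h2, foldl_filterMap, foldl_filterMap,
        cw_fold hd hM hK _ _ _ _ Set.inter_subset_right]
  refine ⟨fun t x => ?_, hinf, fun G s A j => ?_⟩
  · change Thr.θ ≤ cfg nbT η (units q.N1 w) t (tv x) ↔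
      Thr.θ ≤ cfg nbT η (units q.N1 (cw η w)) t (tv x)
    rw [hcfg]
  · change {z | ∃ i ≤ (units q.N1 w (s + j)).length, z ∈ (((units q.N1 w (s + j)).take i).foldl
        (stepR nbT tv (G (s + j))) (cfg nbT η (units q.N1 w) (s + j),
          inf nbT tv η (units q.N1 w) G s A j ∩ G (s + j))).2} =
      {z | ∃ i ≤ (units q.N1 (cw η w) (s + j)).length,
        z ∈ (((units q.N1 (cw η w) (s + j)).take i).foldl
        (stepR nbT tv (G (s + j))) (cfg nbT η (units q.N1 (cw η w)) (s + j),
          inf nbT tv η (units q.N1 (cw η w)) G s A j ∩ G (s + j))).2}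
    rw [← hinf, hcfg]
    have h1 : units q.N1 (cw η w) (s + j) =
      (cw (cfg nbT η (units q.N1 w) (s + j))
        ((w.drop ((s + j) * q.N1)).take q.N1)).filterMap toLab := by
      rw [← hblk]
      rfl
    have h2 : units q.N1 w (s + j) = ((w.drop ((s + j) * q.N1)).take q.N1).filterMap toLab :=
      rfl
    rw [h1, h2]
    ext z
    change (∃ i ≤ _, z ∈ _) ↔ (∃ i ≤ _, z ∈ _)
    rw [vis_letters, vis_letters, cw_length]
    constructor
    · rintro ⟨i, hi, hz⟩
      refine ⟨i, hi, ?_⟩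
      rw [cw_take, cw_fold hd hM hK _ _ _ _ Set.inter_subset_right]
      exact hz
    · rintro ⟨i, hi, hz⟩
      refine ⟨i, hi, ?_⟩
      rw [cw_take, cw_fold hd hM hK _ _ _ _ Set.inter_subset_right] at hz
      exact hz

end env

/-! ### nearest points of sets -/

theorem near_eq (E : Env d) (κ s : ℕ) (z : Pos d) :
    E.near κ s z = nearF {v | E.ok κ s (z + v)} z := rfl

theorem bx_eq (E : Env d) (P : BP) (u : Fin d → ℝ) (m : ℕ) (z : Pos d) (s : ℕ) :
    E.bx P u m z s = bxF {v : Pos d | z + v ∈ E.W P u z s (s + E.bh P u m z s) ∧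
      (m : ℝ) ≤ lev u v} := rfl

end ZQ.E1

namespace ZQ.Rows

open ZP hiding AgreeW Base BlockFacts Env EqEnv PastEv QT envT inf infMv pe stepI stepR visU
open ZP.Rows hiding pe_path

variable [ZQ.Thr]

open ZP hiding AgreeW Base BlockFacts Env EqEnv PastEv QT envT inf infMv pe stepI stepR visU
open ZQ

variable {d : ℕ} {m : Model} {δ : ℝ}

section E1

variable (q : Par d m δ)

theorem pe_path (hd : 0 < d) (η : Tor d q.M → ℕ) (w : List (Let d q.M (q.K + 1))) :
    EqEnv (envT q η w) (pe q (path η w) (w.map mark)) := by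
  have h1 : pe q (path η w) (w.map mark) = envT q η (E1.cw η w) := by
    unfold pe
    rw [E1.canP_path]
    obtain ⟨L, hL⟩ := E1.path_head η w
    rw [hL]
    rfl
  rw [h1]
  exact E1.envT_cw q hd η w

theorem EqEnv.symm {E E' : Env d} (h : EqEnv E E') : EqEnv E' E :=
  ⟨fun t x => (h.occ t x).symm, fun G s A j => (h.inf G s A j).symm,
    fun G s A j => (h.vis G s A j).symm⟩

theorem EqEnv.R {E E' : Env d} (h : EqEnv E E') (G : ℕ → Set (Pos d)) (s : ℕ) (x : Pos d) (t : ℕ)
    (y : Pos d) : E.R G s x t y ↔ E'.R G s x t y := by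
  unfold Env.R
  simp only [h.inf]

theorem EqEnv.visE {E E' : Env d} (h : EqEnv E E') (G : ℕ → Set (Pos d)) (s : ℕ) (x : Pos d)
    (t : ℕ) (y : Pos d) : E.vis G s x t y ↔ E'.vis G s x t y := by
  unfold Env.vis
  simp only [h.vis]

theorem EqEnv.fg {E E' : Env d} (h : EqEnv E E') (l t : ℕ) (x : Pos d) :
    E.fg l t x ↔ E'.fg l t x := by
  unfold Env.fg
  simp only [EqEnv.R h]

theorem EqEnv.bg {E E' : Env d} (h : EqEnv E E') (l t : ℕ) (x : Pos d) :
    E.bg l t x ↔ E'.bg l t x := by
  unfold Env.bg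
  simp only [EqEnv.R h]

theorem EqEnv.ok {E E' : Env d} (h : EqEnv E E') (l t : ℕ) (x : Pos d) :
    E.ok l t x ↔ E'.ok l t x := by
  unfold Env.ok
  rw [EqEnv.fg h, EqEnv.bg h]

theorem EqEnv.good {E E' : Env d} (h : EqEnv E E') {r κ Cv S Dm : ℕ} (hE : E.Good r κ Cv S Dm) :
    E'.Good r κ Cv S Dm := by
  constructor
  · intro t h1 h2 x
    obtain ⟨v, hv, hv', hv''⟩ := hE.g1 t h1 h2 x
    exact ⟨v, hv, hv', (EqEnv.ok h _ _ _).1 hv''⟩
  · intro s t x y h1 h2 h3 h4 h5 h6 h7
    exact (EqEnv.R h _ _ _ _ _).1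
      (hE.g3 s t x y h1 h2 h3 ((EqEnv.fg h _ _ _).2 h4) ((EqEnv.bg h _ _ _).2 h5) h6 h7)
  · intro s t x b h1 h2 h3 h4 h5 h6
    exact (EqEnv.visE h _ _ _ _ _).1
      (hE.g3' s t x b h1 h2 h3 ((EqEnv.fg h _ _ _).2 h4) h5 h6)
  · intro s t x y h1 h2 h3
    exact hE.g4 s t x y h1 h2 ((EqEnv.R h _ _ _ _ _).2 h3)
  · intro s t x y h1 h2 h3
    exact hE.g4' s t x y h1 h2 ((EqEnv.visE h _ _ _ _ _).2 h3)

theorem EqEnv.near {E E' : Env d} (h : EqEnv E E') (κ s : ℕ) (z : Pos d) :
    E.near κ s z = E'.near κ s z := by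
  rw [E1.near_eq, E1.near_eq]
  congr 1
  ext v
  exact EqEnv.ok h κ s (z + v)

theorem EqEnv.W {E E' : Env d} (h : EqEnv E E') (P : BP) (u : Fin d → ℝ) (z : Pos d)
    (s t : ℕ) : E.W P u z s t = E'.W P u z s t := by
  unfold Env.W
  ext y
  change E.R _ _ _ _ _ ↔ E'.R _ _ _ _ _
  rw [EqEnv.R h, EqEnv.near h]

theorem EqEnv.bh {E E' : Env d} (h : EqEnv E E') (P : BP) (u : Fin d → ℝ) (m : ℕ) (z : Pos d)
    (s : ℕ) : E.bh P u m z s = E'.bh P u m z s := by
  unfold Env.bh
  simp only [EqEnv.W h]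

theorem EqEnv.bx {E E' : Env d} (h : EqEnv E E') (P : BP) (u : Fin d → ℝ) (m : ℕ) (z : Pos d)
    (s : ℕ) : E.bx P u m z s = E'.bx P u m z s := by
  rw [E1.bx_eq, E1.bx_eq, EqEnv.bh h, EqEnv.W h]

theorem EqEnv.blk' {E E' : Env d} (h : EqEnv E E') (P : BP) (u : Fin d → ℝ) (m : ℕ) (z : Pos d)
    (s : ℕ) : E.blk P u m z s = E'.blk P u m z s := by
  unfold Env.blk
  rw [EqEnv.bh h, EqEnv.bx h]

theorem EqEnv.chain {E E' : Env d} (h : EqEnv E E') (P : BP) (u : Fin d → ℝ) (ms : List ℕ) (z : Pos d)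
    (s : ℕ) : E.chain P u ms z s = E'.chain P u ms z s := by
  induction ms generalizing z s with
  | nil => rfl
  | cons m ms ih =>
    unfold Env.chain
    rw [EqEnv.blk' h, ih]

theorem EqEnv.pastEv_imp {E E' : Env d} (h : EqEnv E E') (P : BP) (u : Fin d → ℝ)
    (r Cv m : ℕ) (y : ℕ × Pos d) (hp : PastEv E P u r Cv m y) : PastEv E' P u r Cv m y := by
  refine ⟨?_, ?_, hp.lev_ge, hp.h_lb, ?_, ?_, ?_⟩
  · rw [← EqEnv.blk' h]
    exact hp.blk
  · rw [← EqEnv.W h]
    exact hp.att
  · rw [← EqEnv.near h]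
    exact (EqEnv.ok h _ _ _).1 hp.near_ok
  · rw [← EqEnv.near h]
    exact hp.near_supn
  · intro t ht b hb
    rw [← EqEnv.near h, ← h.vis] at hb
    exact hp.conf t ht b hb

theorem EqEnv.pastEv {E E' : Env d} (h : EqEnv E E') (P : BP) (u : Fin d → ℝ) (r Cv m : ℕ)
    (y : ℕ × Pos d) : PastEv E P u r Cv m y ↔ PastEv E' P u r Cv m y :=
  ⟨EqEnv.pastEv_imp h P u r Cv m y, EqEnv.pastEv_imp (EqEnv.symm h) P u r Cv m y⟩

end E1

end ZQ.Rows
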