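import Pool.Agent.ZP.S1
import Pool.Agent.ZQ.Sys2
import Pool.Agent.ZI.S1

/-! # S1: blocks one after the other (deterministic; with recovery) -/

set_option autoImplicit false

open scoped ENNReal BigOperators Classical
open MeasureTheory

noncomputable section

namespace ZQ.S1

open ZP hiding Agree BlockFacts Env GoodK IsGamma LowTail QK StepP Sys UpTail envT inf infMv muK stepI stepR visU
open ZP.S1 hiding block_time chain_core dur dur_cons

variable [ZQ.Thr]

open ZP hiding Agree BlockFacts Env GoodK IsGamma LowTail QK StepP Sys UpTail envT inf infMv muK stepI stepR visU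
open ZQ

export ZI.S1 (rr_pos two_le_rr rr_pow_le lev_v0_nonneg lev_add pow_big room exists_scale)

variable {d : ℕ}

section core

variable {Ω : Type} [MeasurableSpace Ω] {P : Measure Ω}

/-- duration of one block and the waiting time -/
theorem block_time {E : Env d} {a r n Cv m s : ℕ} {u : Fin d → ℝ} {z : Pos d} (hr : 2 ≤ r)
    (ha : 10 ≤ a) (hm : r ^ (7 * a) ≤ m) (F : BlockFacts E (bp d a r n) u r Cv m n z s) :
    E.bh (bp d a r n) u m z s ≤ 8 * r ^ a * m ∧ (bp d a r n).Δ ≤ m ∧ 1024 ≤ r ^ a := by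
  have h1 := pow_big hr ha
  have e3 : r ^ (3 * a) = (r ^ a) ^ 3 := by rw [← pow_mul]; congr 1; ring
  have e7 : r ^ (7 * a) = (r ^ a) ^ 7 := by rw [← pow_mul]; congr 1; ring
  rw [e7] at hm
  generalize hκ : r ^ a = κ at *
  have hF := F.h_ub
  have hmg : 2 * κ ^ 3 ≤ m := by
    refine le_trans ?_ hm
    calc 2 * κ ^ 3 ≤ κ ^ 4 * κ ^ 3 := by
          refine Nat.mul_le_mul_right _ ?_
          calc 2 ≤ κ := by omega
            _ = κ ^ 1 := (pow_one _).symm
            _ ≤ κ ^ 4 := Nat.pow_le_pow_right (by omega) (by norm_num)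
      _ = κ ^ 7 := by ring
  refine ⟨?_, ?_, h1⟩
  · have h2 : (E.bh (bp d a r n) u m z s : ℝ) ≤ 4 * (κ : ℝ) * ((m : ℝ) + 2 * (κ : ℝ) ^ 3) := by
      have h3 := F.h_ub
      have eκ : ((bp d a r n).κ : ℝ) = κ := by rw [← hκ]; rfl
      have emg : ((bp d a r n).mg : ℝ) = (κ : ℝ) ^ 3 := by
        have : (bp d a r n).mg = κ ^ 3 := by rw [← hκ, ← pow_mul, mul_comm a 3]; rfl
        rw [this]; push_cast; rfl
      rw [eκ, emg] at h3
      exact h3
    have h4 : (2 : ℝ) * (κ : ℝ) ^ 3 ≤ m := by exact_mod_cast hmg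
    have h5 : (E.bh (bp d a r n) u m z s : ℝ) ≤ 8 * (κ : ℝ) * m := by
      have h6 : (0 : ℝ) ≤ κ := Nat.cast_nonneg _
      nlinarith
    exact_mod_cast h5
  · show (64 * r ^ (3 * a) + 2) * r ^ a ≤ m
    rw [e3, hκ]
    refine le_trans ?_ hm
    have h2 : 66 ≤ κ ^ 3 := by
      calc 66 ≤ κ := by omega
        _ = κ ^ 1 := (pow_one _).symm
        _ ≤ κ ^ 3 := Nat.pow_le_pow_right (by omega) (by norm_num)
    have h3 : 1 ≤ κ ^ 3 := Nat.one_le_pow _ _ (by omega)
    calc (64 * κ ^ 3 + 2) * κ ≤ (66 * κ ^ 3) * κ := by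
          refine Nat.mul_le_mul_right _ ?_
          omega
      _ ≤ (κ ^ 3 * κ ^ 3) * κ := Nat.mul_le_mul_right _ (Nat.mul_le_mul_right _ h2)
      _ = κ ^ 7 := by ring

/-- total duration of a chain -/
def dur (E : Env d) (Q : BP) (u : Fin d → ℝ) (ms : List ℕ) (z : Pos d) (s : ℕ) : ℕ :=
  ((E.chain Q u ms z s).map Prod.fst).sum + (ms.length - 1) * Q.Δ

theorem dur_cons (E : Env d) (Q : BP) (u : Fin d → ℝ) (m m2 : ℕ) (ms : List ℕ) (z : Pos d) (s : ℕ) :
    dur E Q u (m :: m2 :: ms) z s = E.bh Q u m z s + Q.Δ +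
      dur E Q u (m2 :: ms) (z + E.bx Q u m z s + v0 Q u) (s + E.bh Q u m z s + Q.Δ) := by
  unfold dur
  rw [show E.chain Q u (m :: m2 :: ms) z s = E.blk Q u m z s ::
    E.chain Q u (m2 :: ms) (z + (E.blk Q u m z s).2 + v0 Q u) (s + (E.blk Q u m z s).1 + Q.Δ) from rfl]
  rw [List.map_cons, List.sum_cons]
  simp only [Env.blk, List.length_cons, Nat.add_sub_cancel]
  ring

/-- the chain of blocks is contained in the first block and it reaches the sum of the levels -/
theorem chain_core (S : Sys d P) {k : ℕ} (hk : S.k0 ≤ k) (hr : 2 ≤ rr S.A k)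
    (hd : d ≤ rr S.A k) {E : Env d} (hE : GoodK S.a S.A S.Cv k E) {u : Fin d → ℝ}
    (hu : ∑ j, u j ^ 2 = 1) : ∀ ms : List ℕ, ms ≠ [] → (∀ m ∈ ms, rr S.A k ^ (7 * S.a) ≤ m) →
    ms.sum ≤ rr S.A k * 2 ^ k → ∀ (z : Pos d) (s : ℕ),
    kp S.a S.A k ≤ s → s + rr S.A k ^ (2 * S.a) * ms.sum ≤ (2 ^ k) ^ 2 →
    dur E (PK d S.a S.A k) u ms z s ≤ 9 * rr S.A k ^ S.a * ms.sum ∧
      ∃ y ∈ E.W (PK d S.a S.A k) u z s (s + dur E (PK d S.a S.A k) u ms z s),
        (ms.sum : ℝ) ≤ lev u (y - z) := by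
  have ha := S.a_big
  have hκ := pow_big hr ha
  have hl0 : d ≤ (PK d S.a S.A k).l0 := by
    show d ≤ 32 * rr S.A k ^ (3 * S.a)
    have h1 : rr S.A k ≤ rr S.A k ^ (3 * S.a) := by
      calc rr S.A k = rr S.A k ^ 1 := (pow_one _).symm
        _ ≤ _ := Nat.pow_le_pow_right (by omega) (by omega)
    omega
  have hv0 := lev_v0_nonneg (PK d S.a S.A k) u hu hl0
  intro ms
  induction ms with
  | nil => intro h; exact absurd rfl h
  | cons m ms ih =>
    intro _ hms hsum z s hks hs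
    have hm : rr S.A k ^ (7 * S.a) ≤ m := hms m (by simp)
    rw [List.sum_cons] at hsum hs
    have hmn : m ≤ rr S.A k * 2 ^ k := by omega
    have hs1 : s + rr S.A k ^ (2 * S.a) * m ≤ (2 ^ k) ^ 2 := by
      have : rr S.A k ^ (2 * S.a) * m ≤ rr S.A k ^ (2 * S.a) * (m + ms.sum) :=
        Nat.mul_le_mul_left _ (by omega)
      omega
    have F := S.facts k hk E hE u hu m hm hmn z s hks hs1
    obtain ⟨hb1, hb2, -⟩ := block_time hr ha hm F
    have hb1' : E.bh (PK d S.a S.A k) u m z s ≤ 8 * rr S.A k ^ S.a * m := hb1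
    have hb2' : (PK d S.a S.A k).Δ ≤ m := hb2
    cases ms with
    | nil =>
      have hdur : dur E (PK d S.a S.A k) u [m] z s = E.bh (PK d S.a S.A k) u m z s := by
        simp [dur, Env.chain, Env.blk]
      rw [hdur]
      refine ⟨?_, z + E.bx (PK d S.a S.A k) u m z s, F.x_mem, ?_⟩
      · simp only [List.sum_cons, List.sum_nil, add_zero]
        nlinarith
      · rw [add_sub_cancel_left]
        simpa using F.x_lev
    | cons m2 ms =>
      set κ := rr S.A k ^ S.a with hκd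
      have e2 : rr S.A k ^ (2 * S.a) = κ * κ := by rw [hκd, ← pow_add]; congr 1; ring
      have hm0 : 0 < m := lt_of_lt_of_le (pow_pos (by omega) _) hm
      have hstep : E.bh (PK d S.a S.A k) u m z s + (PK d S.a S.A k).Δ ≤ 9 * κ * m := by
        nlinarith
      have hκκ : 9 * κ ≤ κ * κ := Nat.mul_le_mul_right _ (by omega)
      have hstep2 : E.bh (PK d S.a S.A k) u m z s + (PK d S.a S.A k).Δ ≤
          rr S.A k ^ (2 * S.a) * m := by
        rw [e2]
        exact le_trans hstep (Nat.mul_le_mul_right _ hκκ)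
      have hs2 : s + E.bh (PK d S.a S.A k) u m z s + (PK d S.a S.A k).Δ +
          rr S.A k ^ (2 * S.a) * (m2 :: ms).sum ≤ (2 ^ k) ^ 2 := by
        have : rr S.A k ^ (2 * S.a) * (m + (m2 :: ms).sum) =
          rr S.A k ^ (2 * S.a) * m + rr S.A k ^ (2 * S.a) * (m2 :: ms).sum := by ring
        omega
      obtain ⟨hT, y, hy, hyl⟩ := ih (by simp) (fun m' hm' => hms m' (by simp [hm'])) (by omega)
        (z + E.bx (PK d S.a S.A k) u m z s + v0 (PK d S.a S.A k) u)
        (s + E.bh (PK d S.a S.A k) u m z s + (PK d S.a S.A k).Δ) (by omega) hs2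
      rw [dur_cons]
      set h1 := E.bh (PK d S.a S.A k) u m z s with hh1
      set Δ := (PK d S.a S.A k).Δ with hΔ
      set z' := z + E.bx (PK d S.a S.A k) u m z s + v0 (PK d S.a S.A k) u with hz'
      set T' := dur E (PK d S.a S.A k) u (m2 :: ms) z' (s + h1 + Δ) with hT'
      have htot : h1 + Δ + T' ≤ 9 * κ * (m :: m2 :: ms).sum := by
        rw [List.sum_cons]
        calc h1 + Δ + T' ≤ 9 * κ * m + 9 * κ * (m2 :: ms).sum := Nat.add_le_add hstep hT
          _ = _ := by ring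
      refine ⟨htot, y, ?_, ?_⟩
      · rw [show s + (h1 + Δ + T') = s + h1 + Δ + T' by ring]
        refine F.sub (s + h1 + Δ + T') (by omega) ?_ ?_ hy
        · have h3 : T' ≤ rr S.A k ^ (2 * S.a) * (m2 :: ms).sum := by
            rw [e2]
            exact le_trans hT (Nat.mul_le_mul_right _ hκκ)
          omega
        · show s + h1 + Δ + T' ≤ s + (rr S.A k ^ S.a) ^ 4 * 2 ^ k
          have h3 : 9 * κ * (m :: m2 :: ms).sum ≤ κ ^ 4 * 2 ^ k := by
            rw [List.sum_cons]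
            have hrκ : rr S.A k ≤ κ := by
              calc rr S.A k = rr S.A k ^ 1 := (pow_one _).symm
                _ ≤ _ := Nat.pow_le_pow_right (by omega) (by omega)
            calc 9 * κ * (m + (m2 :: ms).sum) ≤ 9 * κ * (rr S.A k * 2 ^ k) :=
                  Nat.mul_le_mul_left _ hsum
              _ ≤ (κ * κ) * (κ * 2 ^ k) :=
                  Nat.mul_le_mul hκκ (Nat.mul_le_mul_right _ hrκ)
              _ = κ ^ 3 * 2 ^ k := by ring
              _ ≤ κ ^ 4 * 2 ^ k :=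
                  Nat.mul_le_mul_right _ (Nat.pow_le_pow_right (by omega) (by norm_num))
          rw [← hκd]
          omega
      · have e1 : y - z = (y - z') + (E.bx (PK d S.a S.A k) u m z s + v0 (PK d S.a S.A k) u) := by
          rw [hz']
          abel
        rw [e1, lev_add, lev_add, List.sum_cons]
        have := F.x_lev
        push_cast at hyl ⊢
        linarith

end core

end ZQ.S1

namespace ZQ.Rows

open ZP hiding Agree BlockFacts Env GoodK IsGamma LowTail QK StepP Sys UpTail envT inf infMv muK stepI stepR visU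
open ZP.Rows hiding bh_chain

variable [ZQ.Thr]

open ZP hiding Agree BlockFacts Env GoodK IsGamma LowTail QK StepP Sys UpTail envT inf infMv muK stepI stepR visU
open ZP.S1 hiding block_time chain_core dur dur_cons
open ZQ.S1
open ZQ

variable {d : ℕ}

section S

variable {Ω : Type} [MeasurableSpace Ω] {P : Measure Ω}

theorem bh_chain (S : Sys d P) : ∃ k1 ≥ S.k0, ∀ k ≥ k1, ∀ E : Env d, GoodK S.a S.A S.Cv k E →
    ∀ u : Fin d → ℝ, ∑ j, u j ^ 2 = 1 → ∀ ms : List ℕ, ms ≠ [] →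
    (∀ m ∈ ms, rr S.A k ^ (7 * S.a) ≤ m) → ms.sum ≤ rr S.A k * 2 ^ k → ∀ (z : Pos d) (s : ℕ),
    kp S.a S.A k ≤ s → 2 * s ≤ (2 ^ k) ^ 2 →
    E.bh (PK d S.a S.A k) u ms.sum z s ≤
      ((E.chain (PK d S.a S.A k) u ms z s).map Prod.fst).sum + (ms.length - 1) * (PK d S.a S.A k).Δ := by
  have ha := S.a_big
  have hA := S.A_big
  obtain ⟨k1, hk1, H⟩ := exists_scale S.A S.k0 d (by omega)
  refine ⟨k1, hk1, fun k hk E hE u hu ms hne hms hsum z s hks hs => ?_⟩
  obtain ⟨h2, hd, h20⟩ := H k hk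
  obtain ⟨-, y, hy, hyl⟩ := chain_core S (le_trans hk1 hk) h2 hd hE hu ms hne hms hsum z s hks
    (room ha hA h20 hs hsum)
  exact Nat.sInf_le ⟨y, hy, hyl⟩

end S

end ZQ.Rows
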