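import Pool.Agent.ZP.E3
import Pool.Agent.ZQ.Dec
import Pool.Agent.ZQ.S1
import Pool.Agent.ZI.E3

/-! # E3: chains of blocks are determined by the environment in a half space (deterministic), with recovery -/

set_option autoImplicit false

open scoped ENNReal BigOperators Classical

noncomputable section

namespace ZQ.E3

open ZP hiding Agree AgreeW Base BlockFacts Env EqEnv GoodK IsGamma LowTail PastEv QK QT StepP Sys UpTail envT inf infMv muK pe stepI stepR visU
open ZP.E3 hiding R_agree R_congr blk_eq core inf_congr near_eq ok_agree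

variable [ZQ.Thr]

open ZI.Geo
open ZP hiding Agree AgreeW Base BlockFacts Env EqEnv GoodK IsGamma LowTail PastEv QK QT StepP Sys UpTail envT inf infMv muK pe stepI stepR visU
open ZQ

export ZI.E3 (rk_inj supn_add)

variable {d : ℕ}

/-- the infection depends only on the regions of its time interval -/
theorem inf_congr (E : Env d) {G G' : ℕ → Set (Pos d)} {s : ℕ} (A : Set (Pos d)) :
    ∀ j : ℕ, (∀ i ≤ j, G (s + i) = G' (s + i)) →
    inf E.nb E.pr E.η0 E.U G s A j = inf E.nb E.pr E.η0 E.U G' s A j := by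
  intro j
  induction j with
  | zero =>
    intro h
    have h0 := h 0 le_rfl
    rw [add_zero] at h0
    show {z | z ∈ A ∧ z ∈ G s ∧ Thr.θ ≤ cfg E.nb E.η0 E.U s (E.pr z)} =
      {z | z ∈ A ∧ z ∈ G' s ∧ Thr.θ ≤ cfg E.nb E.η0 E.U s (E.pr z)}
    rw [h0]
  | succ j ih =>
    intro h
    have h1 := ih fun i hi => h i (by omega)
    have h2 := h j (by omega)
    show ((E.U (s + j)).foldl (stepR E.nb E.pr (G (s + j)))
      (cfg E.nb E.η0 E.U (s + j), inf E.nb E.pr E.η0 E.U G s A j ∩ G (s + j))).2 =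
      ((E.U (s + j)).foldl (stepR E.nb E.pr (G' (s + j)))
      (cfg E.nb E.η0 E.U (s + j), inf E.nb E.pr E.η0 E.U G' s A j ∩ G' (s + j))).2
    rw [h1, h2]

theorem R_congr (E : Env d) {G G' : ℕ → Set (Pos d)} {s t : ℕ}
    (h : ∀ i, s ≤ i → i ≤ t → G i = G' i) (x y : Pos d) : E.R G s x t y ↔ E.R G' s x t y := by
  constructor
  · rintro ⟨j, rfl, hy⟩
    refine ⟨j, rfl, ?_⟩
    rwa [← inf_congr E {x} j fun i hi => h (s + i) (by omega) (by omega)]
  · rintro ⟨j, rfl, hy⟩
    refine ⟨j, rfl, ?_⟩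
    rwa [inf_congr E {x} j fun i hi => h (s + i) (by omega) (by omega)]

/-- agreement only needs the region to be inside during the time interval -/
theorem R_agree {E E' : Env d} {Γ : ℕ → Set (Pos d)} {T : ℕ} (hA : AgreeW E E' Γ T)
    {G : ℕ → Set (Pos d)} {s t : ℕ} (ht : t ≤ T) (hG : ∀ i, s ≤ i → i ≤ t → G i ⊆ Γ i)
    (x y : Pos d) : E.R G s x t y ↔ E'.R G s x t y := by
  have h1 : ∀ i, s ≤ i → i ≤ t → G i = (fun i => if s ≤ i ∧ i ≤ t then G i else ∅) i := by
    intro i h1 h2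
    simp only [h1, h2, and_self, if_true]
  rw [R_congr E h1, R_congr E' h1]
  refine hA.R _ ?_ s t x y ht
  intro i _
  show (if s ≤ i ∧ i ≤ t then G i else ∅) ⊆ Γ i
  split_ifs with h
  · exact hG i h.1 h.2
  · exact Set.empty_subset _

theorem ok_agree {E E' : Env d} {Γ : ℕ → Set (Pos d)} {T : ℕ} (hA : AgreeW E E' Γ T)
    {κ s : ℕ} {x : Pos d} (hs : s + κ ≤ T)
    (hG : ∀ i, s ≤ i + κ → i ≤ s + κ → Ball x ((κ : ℝ) ^ 2) ⊆ Γ i) :
    E.ok κ s x ↔ E'.ok κ s x := by
  have h1 : E.fg κ s x ↔ E'.fg κ s x := by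
    unfold Env.fg
    refine exists_congr fun y => ?_
    exact R_agree hA hs (fun i h1 h2 => hG i (by omega) h2) x y
  have h2 : E.bg κ s x ↔ E'.bg κ s x := by
    unfold Env.bg
    refine exists_congr fun t => exists_congr fun y => ?_
    constructor
    · rintro ⟨rfl, h⟩
      exact ⟨rfl, (R_agree hA (by omega) (fun i h1 h2 => hG i (by omega) (by omega)) y x).1 h⟩
    · rintro ⟨rfl, h⟩
      exact ⟨rfl, (R_agree hA (by omega) (fun i h1 h2 => hG i (by omega) (by omega)) y x).2 h⟩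
  unfold Env.ok
  rw [h1, h2]

/-- the nearest `ok` position depends only on the `ok` positions in the ball -/
theorem near_eq {E E' : Env d} {κ s r : ℕ} {z : Pos d}
    (h : ∃ v : Pos d, supn v ≤ r ∧ E.ok κ s (z + v))
    (he : ∀ v : Pos d, supn v ≤ r → (E.ok κ s (z + v) ↔ E'.ok κ s (z + v))) :
    E'.near κ s z = E.near κ s z := by
  obtain ⟨v, hv, hocc⟩ := h
  have hne : {v : Pos d | E.ok κ s (z + v)}.Nonempty := ⟨v, hocc⟩
  have hne' : {v : Pos d | E'.ok κ s (z + v)}.Nonempty := ⟨v, (he v hv).1 hocc⟩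
  unfold Env.near
  rw [dif_pos hne, dif_pos hne']
  have a1 := Function.argminOn_mem rk {v : Pos d | E.ok κ s (z + v)} hne
  have a2 := Function.argminOn_mem rk {v : Pos d | E'.ok κ s (z + v)} hne'
  have b1 := Function.argminOn_le rk {v : Pos d | E.ok κ s (z + v)} (a := v) hocc
  have c1 : supn (Function.argminOn rk {v : Pos d | E.ok κ s (z + v)} hne) ≤ r :=
    (supn_le_of_rk b1).trans hv
  have b2 := Function.argminOn_le rk {v : Pos d | E'.ok κ s (z + v)}
    (a := Function.argminOn rk {v : Pos d | E.ok κ s (z + v)} hne) ((he _ c1).1 a1)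
  have c2 : supn (Function.argminOn rk {v : Pos d | E'.ok κ s (z + v)} hne') ≤ r :=
    (supn_le_of_rk b2).trans c1
  have b3 := Function.argminOn_le rk {v : Pos d | E.ok κ s (z + v)}
    (a := Function.argminOn rk {v : Pos d | E'.ok κ s (z + v)} hne') ((he _ c2).2 a2)
  rw [rk_inj (le_antisymm b2 b3)]

/-- the block variable depends only on the infection of the block up to the end of the block -/
theorem blk_eq {E E' : Env d} {P : BP} {u : Fin d → ℝ} {m : ℕ} {z : Pos d} {s T : ℕ}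
    (hW : ∀ t ≤ T, E'.W P u z s t = E.W P u z s t) (hT : s + E.bh P u m z s ≤ T)
    (hx : z + E.bx P u m z s ∈ E.W P u z s (s + E.bh P u m z s))
    (hl : (m : ℝ) ≤ lev u (E.bx P u m z s)) : E'.blk P u m z s = E.blk P u m z s := by
  have hb : E'.bh P u m z s = E.bh P u m z s := by
    apply le_antisymm
    · refine Nat.sInf_le ⟨z + E.bx P u m z s, ?_, ?_⟩
      · rw [hW _ hT]
        exact hx
      · rwa [add_sub_cancel_left]
    · have hne : {h | ∃ y ∈ E'.W P u z s (s + h), (m : ℝ) ≤ lev u (y - z)}.Nonempty :=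
        ⟨E.bh P u m z s, z + E.bx P u m z s, by rw [hW _ hT]; exact hx, by
          rwa [add_sub_cancel_left]⟩
      have hle : E'.bh P u m z s ≤ E.bh P u m z s := by
        refine Nat.sInf_le ⟨z + E.bx P u m z s, ?_, ?_⟩
        · rw [hW _ hT]
          exact hx
        · rwa [add_sub_cancel_left]
      obtain ⟨y, hy, hyl⟩ := Nat.sInf_mem hne
      refine Nat.sInf_le ⟨y, ?_, hyl⟩
      have h2 : s + E'.bh P u m z s ≤ T := by omega
      rw [← hW _ h2]
      exact hy
  have hxe : E'.bx P u m z s = E.bx P u m z s := by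
    unfold Env.bx
    rw [hb]
    simp only [hW _ hT]
  unfold Env.blk
  rw [hb, hxe]

theorem core {Cv a r n : ℕ} (hr : 10 ≤ r) (hCr : Cv ≤ r) (hdr : d ≤ r) (ha : 10 ≤ a)
    (hrn : r ^ a + (r ^ a) ^ 2 ≤ n ^ 2) {E E' : Env d}
    {u : Fin d → ℝ} (hu : ∑ j, u j ^ 2 = 1) {T : ℕ} {b : ℝ} (hTn : T ≤ n ^ 2)
    (hF : ∀ m : ℕ, r ^ (7 * a) ≤ m → m ≤ r * n →
      ∀ (z : Pos d) (s : ℕ), r ^ a ≤ s → s + r ^ (2 * a) * m ≤ n ^ 2 →
      BlockFacts E (bp d a r n) u r Cv m n z s)
    (hA : AgreeW E E' (HS (bp d a r n) u b n) T) :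
    ∀ ms : List ℕ, (∀ m' ∈ ms, r ^ (7 * a) ≤ m') → ms.sum ≤ r * n → ∀ (z : Pos d) (s : ℕ),
    r ^ a ≤ s → supn z + r ^ (3 * a) * ms.sum ≤ 3 * n ^ 2 →
    b + (s : ℝ) / (16 * (bp d a r n).κ) + 2 * (bp d a r n).mg ≤ lev u z →
    s + r ^ (2 * a) * ms.sum ≤ T →
    E'.chain (bp d a r n) u ms z s = E.chain (bp d a r n) u ms z s := by
  intro ms
  induction ms with
  | nil => intros; rfl
  | cons m ms ih =>
    intro hms hsum z s hks hz hl hs
    have hm : r ^ (7 * a) ≤ m := hms m (by simp)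
    rw [List.sum_cons] at hsum hz hs
    have hmn : m ≤ r * n := by omega
    have hsm : s + r ^ (2 * a) * m ≤ T := by
      have : r ^ (2 * a) * m ≤ r ^ (2 * a) * (m + ms.sum) := Nat.mul_le_mul_left _ (by omega)
      omega
    have F := hF m hm hmn z s hks (hsm.trans hTn)
    obtain ⟨hb1, hb2, hκ⟩ := S1.block_time (by omega) ha hm F
    have e2 : r ^ (2 * a) = (r ^ a) ^ 2 := by rw [← pow_mul]; congr 1; ring
    have e3 : r ^ (3 * a) = (r ^ a) ^ 3 := by rw [← pow_mul]; congr 1; ring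
    have e7 : r ^ (7 * a) = (r ^ a) ^ 7 := by rw [← pow_mul]; congr 1; ring
    have hrκ : r ≤ r ^ a := by
      calc r = r ^ 1 := (pow_one _).symm
        _ ≤ r ^ a := Nat.pow_le_pow_right (by omega) (by omega)
    have hbp : bp d a r n = ⟨(r ^ a) ^ 3, r ^ a, 32 * (r ^ a) ^ 3, (64 * (r ^ a) ^ 3 + 2) * r ^ a,
        n ^ 2⟩ := by
      unfold bp
      rw [e3]
    -- the block
    have hz3 : supn z ≤ 3 * n ^ 2 := by omega
    have hsub : ∀ t, wall (bp d a r n) u z s t ⊆ HS (bp d a r n) u b n t := by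
      intro t
      rw [hbp] at hl ⊢
      exact wall_sub hz3 hl t
    have hbhT : s + E.bh (bp d a r n) u m z s + (bp d a r n).Δ + r ^ (2 * a) * ms.sum ≤ T := by
      have h1 : E.bh (bp d a r n) u m z s + (bp d a r n).Δ ≤ r ^ (2 * a) * m := by
        rw [e2]
        calc E.bh (bp d a r n) u m z s + (bp d a r n).Δ ≤ 8 * r ^ a * m + m := Nat.add_le_add hb1 hb2
          _ = (8 * r ^ a + 1) * m := by ring
          _ ≤ (r ^ a) ^ 2 * m := Nat.mul_le_mul_right _ (by nlinarith)
      have h2 : r ^ (2 * a) * (m + ms.sum) = r ^ (2 * a) * m + r ^ (2 * a) * ms.sum := by ring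
      omega
    have hκPκ : (bp d a r n).κ = r ^ a := rfl
    have hTκ : s + r ^ a ≤ T := by
      have h1 : r ^ a ≤ r ^ (2 * a) * m := by
        calc r ^ a ≤ r ^ (7 * a) := Nat.pow_le_pow_right (by omega) (by omega)
          _ ≤ m := hm
          _ = 1 * m := (one_mul _).symm
          _ ≤ r ^ (2 * a) * m := Nat.mul_le_mul_right _ (Nat.one_le_pow _ _ (by omega))
      omega
    have hnear : E'.near (bp d a r n).κ s z = E.near (bp d a r n).κ s z := by
      refine near_eq (r := r ^ a) ⟨E.near (bp d a r n).κ s z - z, F.near_supn, ?_⟩ ?_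
      · rw [add_sub_cancel]
        exact F.near_ok
      · intro v hv
        rw [hκPκ]
        refine ok_agree hA hTκ ?_
        rintro i - hi2 y hy
        have hy' : nrm (y - (z + v)) ≤ ((r ^ a : ℕ) : ℝ) ^ 2 := hy
        have hyz : lev u y = lev u z + (lev u v + lev u (y - (z + v))) := by
          rw [lev_sub, lev_add]
          ring
        have h1 := neg_le_lev hu v
        have h1' := neg_le_lev hu (y - (z + v))
        have h2 : nrm v ≤ (d : ℝ) * (r ^ a : ℕ) := (nrm_le_supn v).trans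
          (mul_le_mul_of_nonneg_left (by exact_mod_cast hv) (Nat.cast_nonneg _))
        refine ⟨?_, ?_⟩
        · rw [hyz]
          have h3 : (d : ℝ) * (r ^ a : ℕ) + ((r ^ a : ℕ) : ℝ) ^ 2 + 1 ≤
              2 * ((bp d a r n).mg : ℝ) := by
            rw [hbp]
            have : d * r ^ a + (r ^ a) ^ 2 + 1 ≤ 2 * (r ^ a) ^ 3 := by
              have h5 : d * r ^ a ≤ (r ^ a) ^ 2 := by
                calc d * r ^ a ≤ r ^ a * r ^ a := Nat.mul_le_mul_right _ (hdr.trans hrκ)
                  _ = (r ^ a) ^ 2 := by ring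
              have h6 : 1 ≤ (r ^ a) ^ 2 := Nat.one_le_pow _ _ (by omega)
              have h7 : 3 * (r ^ a) ^ 2 ≤ (r ^ a) ^ 3 := by
                calc 3 * (r ^ a) ^ 2 ≤ r ^ a * (r ^ a) ^ 2 := Nat.mul_le_mul_right _ (by omega)
                  _ = (r ^ a) ^ 3 := by ring
              omega
            exact_mod_cast this
          have h4 : (i : ℝ) / (16 * (bp d a r n).κ) ≤ (s : ℝ) / (16 * (bp d a r n).κ) + 1 := by
            rw [hκPκ]
            have hκ0 : (0 : ℝ) < ((r ^ a : ℕ) : ℝ) := by exact_mod_cast (by omega : 0 < r ^ a)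
            have h8 : (i : ℝ) ≤ s + ((r ^ a : ℕ) : ℝ) := by exact_mod_cast hi2
            rw [div_add_one (by positivity), div_le_div_iff_of_pos_right (by positivity)]
            linarith
          linarith
        · have h5 : supn (y - (z + v)) ≤ (r ^ a) ^ 2 := by
            apply supn_le_of_nrm
            push_cast
            push_cast at hy'
            exact hy'
          have h6 := supn_add (z + v) (y - (z + v))
          rw [add_sub_cancel] at h6
          have h7 := supn_add z v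
          omega
    have hW : ∀ t ≤ T, E'.W (bp d a r n) u z s t = E.W (bp d a r n) u z s t := by
      intro t ht
      unfold Env.W
      rw [hnear]
      ext y
      exact (hA.R (wall (bp d a r n) u z s) (fun t' _ => hsub t') s t _ y ht).symm
    have hblk := blk_eq (m := m) hW (by omega) F.x_mem F.x_lev
    show E'.blk (bp d a r n) u m z s :: E'.chain (bp d a r n) u ms
        (z + (E'.blk (bp d a r n) u m z s).2 + v0 (bp d a r n) u)
        (s + (E'.blk (bp d a r n) u m z s).1 + (bp d a r n).Δ) =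
      E.blk (bp d a r n) u m z s :: E.chain (bp d a r n) u ms
        (z + (E.blk (bp d a r n) u m z s).2 + v0 (bp d a r n) u)
        (s + (E.blk (bp d a r n) u m z s).1 + (bp d a r n).Δ)
    rw [hblk]
    congr 1
    have hv0 : v0 (bp d a r n) u = rv u (bp d a r n).l0 := rfl
    have hlv := lev_rv hu (bp d a r n).l0
    have hnv := nrm_rv hu (bp d a r n).l0
    rw [← hv0] at hlv hnv
    refine ih (fun m' hm' => hms m' (by simp [hm'])) (by omega) _ _ (hks.trans ?_) ?_ ?_ hbhT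
    · rw [add_assoc]
      exact Nat.le_add_right _ _
    · -- displacement
      show supn (z + E.bx (bp d a r n) u m z s + v0 (bp d a r n) u) + r ^ (3 * a) * ms.sum ≤ 3 * n ^ 2
      have h1 : supn (E.bx (bp d a r n) u m z s + v0 (bp d a r n) u) ≤ r ^ (3 * a) * m := by
        apply supn_le_of_nrm
        have h2 := nrm_add (E.bx (bp d a r n) u m z s) (v0 (bp d a r n) u)
        have h3 := F.x_nrm
        rw [hκPκ] at h3
        push_cast at h3
        have h4 : (Cv * E.bh (bp d a r n) u m z s + 2 * d * r ^ a + ((bp d a r n).l0 + d) : ℕ) ≤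
            r ^ (3 * a) * m := by
          rw [e7] at hm
          rw [e3, hbp]
          rw [hbp] at hb1
          generalize r ^ a = κ at *
          have h5 : Cv * E.bh ⟨κ ^ 3, κ, 32 * κ ^ 3, (64 * κ ^ 3 + 2) * κ, n ^ 2⟩ u m z s ≤
              κ * (8 * κ * m) := Nat.mul_le_mul (by omega) hb1
          have h6 : 2 * d * κ ≤ 2 * κ ^ 2 := by
            calc 2 * d * κ ≤ 2 * κ * κ := Nat.mul_le_mul_right _ (by omega)
              _ = 2 * κ ^ 2 := by ring
          have h7 : κ ^ 2 ≤ κ ^ 3 := Nat.pow_le_pow_right (by omega) (by norm_num)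
          have h8 : κ ≤ κ ^ 3 := by
            calc κ = κ ^ 1 := (pow_one _).symm
              _ ≤ κ ^ 3 := Nat.pow_le_pow_right (by omega) (by norm_num)
          have h9 : 1024 ≤ m := by
            refine le_trans ?_ hm
            calc 1024 ≤ κ := hκ
              _ = κ ^ 1 := (pow_one _).symm
              _ ≤ κ ^ 7 := Nat.pow_le_pow_right (by omega) (by norm_num)
          have h10 : κ * (8 * κ * m) = 8 * (κ ^ 2 * m) := by ring
          have h11 : 1024 * (κ ^ 2 * m) ≤ κ ^ 3 * m := by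
            calc 1024 * (κ ^ 2 * m) ≤ κ * (κ ^ 2 * m) := Nat.mul_le_mul_right _ hκ
              _ = κ ^ 3 * m := by ring
          have h12 : κ ^ 3 * 1024 ≤ κ ^ 3 * m := Nat.mul_le_mul_left _ h9
          show Cv * E.bh ⟨κ ^ 3, κ, 32 * κ ^ 3, (64 * κ ^ 3 + 2) * κ, n ^ 2⟩ u m z s + 2 * d * κ +
            (32 * κ ^ 3 + d) ≤ κ ^ 3 * m
          omega
        have h4' : ((Cv * E.bh (bp d a r n) u m z s + 2 * d * r ^ a + ((bp d a r n).l0 + d) : ℕ) : ℝ) ≤
            ((r ^ (3 * a) * m : ℕ) : ℝ) := Nat.cast_le.2 h4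
        push_cast at h4' ⊢
        linarith
      have h2 := supn_add z (E.bx (bp d a r n) u m z s + v0 (bp d a r n) u)
      rw [← add_assoc] at h2
      have h3 : r ^ (3 * a) * (m + ms.sum) = r ^ (3 * a) * m + r ^ (3 * a) * ms.sum := by ring
      omega
    · -- level
      show b + ((s + E.bh (bp d a r n) u m z s + (bp d a r n).Δ : ℕ) : ℝ) / (16 * (bp d a r n).κ) +
        2 * (bp d a r n).mg ≤ lev u (z + E.bx (bp d a r n) u m z s + v0 (bp d a r n) u)
      rw [lev_add, lev_add]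
      have h1 := F.x_lev
      have h2 := F.h_ub
      rw [hbp] at hl h1 h2 hlv ⊢
      rw [e7] at hm
      generalize r ^ a = κ at *
      have hκ0 : (0 : ℝ) < κ := by
        have : (1024 : ℝ) ≤ κ := by exact_mod_cast hκ
        linarith
      have h3 : ((s + E.bh ⟨κ ^ 3, κ, 32 * κ ^ 3, (64 * κ ^ 3 + 2) * κ, n ^ 2⟩ u m z s +
          (64 * κ ^ 3 + 2) * κ : ℕ) : ℝ) / (16 * κ) ≤
          (s : ℝ) / (16 * κ) + ((m : ℝ) + 2 * (κ : ℝ) ^ 3) / 4 + (64 * (κ : ℝ) ^ 3 + 2) / 16 := by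
        push_cast
        rw [div_le_iff₀ (by positivity)]
        have h4 : ((s : ℝ) / (16 * κ) + ((m : ℝ) + 2 * (κ : ℝ) ^ 3) / 4 +
            (64 * (κ : ℝ) ^ 3 + 2) / 16) * (16 * κ) =
            s + 4 * κ * ((m : ℝ) + 2 * (κ : ℝ) ^ 3) + (64 * (κ : ℝ) ^ 3 + 2) * κ := by
          field_simp
          ring
        rw [h4]
        have h5 : (E.bh ⟨κ ^ 3, κ, 32 * κ ^ 3, (64 * κ ^ 3 + 2) * κ, n ^ 2⟩ u m z s : ℝ) ≤
            4 * κ * ((m : ℝ) + 2 * (κ : ℝ) ^ 3) := by
          have := h2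
          push_cast at this
          exact this
        linarith
      have h6 : b + (s : ℝ) / (16 * κ) + 2 * (κ : ℝ) ^ 3 ≤ lev u z := by
        have := hl
        push_cast at this
        exact this
      have h7 : 32 * (κ : ℝ) ^ 3 - d ≤
          lev u (v0 ⟨κ ^ 3, κ, 32 * κ ^ 3, (64 * κ ^ 3 + 2) * κ, n ^ 2⟩ u) := by
        have := hlv
        push_cast at this
        exact this
      have h8 : (d : ℝ) ≤ (κ : ℝ) ^ 3 := by
        have : d ≤ κ ^ 3 := by
          calc d ≤ κ := by omega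
            _ = κ ^ 1 := (pow_one _).symm
            _ ≤ κ ^ 3 := Nat.pow_le_pow_right (by omega) (by norm_num)
        exact_mod_cast this
      have h9 : (1 : ℝ) ≤ (κ : ℝ) ^ 3 := by
        have : 1 ≤ κ ^ 3 := Nat.one_le_pow _ _ (by omega)
        exact_mod_cast this
      show b + ((s + E.bh ⟨κ ^ 3, κ, 32 * κ ^ 3, (64 * κ ^ 3 + 2) * κ, n ^ 2⟩ u m z s +
          (64 * κ ^ 3 + 2) * κ : ℕ) : ℝ) / (16 * κ) + 2 * ((κ ^ 3 : ℕ) : ℝ) ≤ _
      have h10 : ((κ ^ 3 : ℕ) : ℝ) = (κ : ℝ) ^ 3 := by push_cast; rfl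
      rw [h10]
      linarith

end ZQ.E3

namespace ZQ.Rows

open ZP hiding Agree AgreeW Base BlockFacts Env EqEnv GoodK IsGamma LowTail PastEv QK QT StepP Sys UpTail envT inf infMv muK pe stepI stepR visU
open ZP.Rows hiding bh_chain chain_eq

variable [ZQ.Thr]

open ZP hiding Agree AgreeW Base BlockFacts Env EqEnv GoodK IsGamma LowTail PastEv QK QT StepP Sys UpTail envT inf infMv muK pe stepI stepR visU
open ZQ

variable {d : ℕ} {m : Model} {δ : ℝ}

theorem chain_eq {Cv a A r0 : ℕ} {c : ℝ} (hB : Base m δ d Cv a A r0 c) : ∃ r1 ≥ r0, ∀ r ≥ r1, ∀ n : ℕ,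
    r ^ A ≤ n → ∀ E E' : Env d, E.Good r (r ^ a) Cv (n ^ 2) (n ^ 2) →
    ∀ (u : Fin d → ℝ), ∑ j, u j ^ 2 = 1 → ∀ ms : List ℕ, (∀ m' ∈ ms, r ^ (7 * a) ≤ m') →
    ms.sum ≤ r * n → ∀ (z : Pos d) (s T : ℕ) (b : ℝ), r ^ a ≤ s → 2 * s ≤ n ^ 2 →
    supn z ≤ 2 * n ^ 2 →
    b + (s : ℝ) / (16 * (bp d a r n).κ) + 2 * (bp d a r n).mg ≤ lev u z →
    s + r ^ (2 * a) * ms.sum ≤ T → T ≤ n ^ 2 →
    AgreeW E E' (HS (bp d a r n) u b n) T →
    E'.chain (bp d a r n) u ms z s = E.chain (bp d a r n) u ms z s := by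
  refine ⟨r0 + Cv + d, by omega, ?_⟩
  intro r hr n hn E E' hE u hu ms hms hsum z s T b hks _ hz hl hs hT hA
  have hr10 : 10 ≤ r := by
    have := hB.r0_big
    omega
  have hrA : r ^ (3 * a + 1) ≤ n := by
    refine le_trans (Nat.pow_le_pow_right (by omega) ?_) hn
    have := hB.A_big
    have := hB.a_big
    omega
  have hrn : r ^ a + (r ^ a) ^ 2 ≤ n ^ 2 := by
    have h1 : r ^ a ≤ n := (Nat.pow_le_pow_right (by omega) (by omega)).trans hrA
    have h2 : (r ^ a) ^ 2 ≤ n := by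
      rw [← pow_mul]
      exact (Nat.pow_le_pow_right (by omega) (by omega)).trans hrA
    have h3 : 10 ≤ n := by
      refine le_trans hr10 (le_trans ?_ hrA)
      calc r = r ^ 1 := (pow_one _).symm
        _ ≤ _ := Nat.pow_le_pow_right (by omega) (by omega)
    nlinarith
  refine E3.core hr10 (by omega) (by omega) hB.a_big hrn hu hT
    (fun m' h1 h2 z' s' h4 h3 => hB.facts r (by omega) n hn E hE u hu m' h1 h2 z' s' h4 h3) hA ms
    hms hsum z s hks ?_ hl hs
  have h1 : r ^ (3 * a) * ms.sum ≤ n ^ 2 := by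
    calc r ^ (3 * a) * ms.sum ≤ r ^ (3 * a) * (r * n) := Nat.mul_le_mul_left _ hsum
      _ = r ^ (3 * a + 1) * n := by rw [pow_succ]; ring
      _ ≤ n * n := Nat.mul_le_mul_right _ hrA
      _ = n ^ 2 := by ring
  omega

end ZQ.Rows
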