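import Pool.Agent.ZP.E4
import Pool.Agent.ZQ.Dec
import Pool.Agent.ZQ.E1
import Pool.Agent.ZQ.E3
import Pool.Agent.ZP.R2
import Pool.Agent.ZI.E4

/-! # Row E4: shift of the starting point, truncation of the word, invariance of the start (with recovery) -/

set_option autoImplicit false

open scoped ENNReal BigOperators Classical

noncomputable section

namespace ZQ.E4

open ZP hiding Agree AgreeW Base BlockFacts Env EqEnv GoodK IsGamma LowTail PastEv QK QT StepP Sys UpTail envT inf infMv muK pe stepI stepR visU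
open ZP.E4 hiding R_shift W_shift bh_shift blk_shift bx_shift chain_shift' foldl_shift infMv_shift inf_congr inf_shift near_shift occ_shift ok_shift

variable [ZQ.Thr]

open ZP hiding Agree AgreeW Base BlockFacts Env EqEnv GoodK IsGamma LowTail PastEv QK QT StepP Sys UpTail envT inf infMv muK pe stepI stepR visU
open ZQ

export ZI.E4 (units_take shB toLab_shL tv_add units_shift)

variable {d : ℕ}

/-! ### environments with the same units -/

theorem inf_congr {V : Type} (nb : V → Dir d → Option V) (pr : Pos d → V) (η0 : V → ℕ)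
    {U U' : ℕ → List (Lab V d)} {T : ℕ} (h : ∀ t < T, U t = U' t) (G : ℕ → Set (Pos d)) (s : ℕ)
    (A : Set (Pos d)) : ∀ j, s + j ≤ T → inf nb pr η0 U G s A j = inf nb pr η0 U' G s A j := by
  intro j
  induction j with
  | zero =>
    intro hj
    rw [inf, inf, cfg_congr nb η0 h s (by omega)]
  | succ j ih =>
    intro hj
    rw [inf, inf, ih (by omega), cfg_congr nb η0 h (s + j) (by omega), h (s + j) (by omega)]

/-! ### translations -/

theorem infMv_shift {M : ℕ} (z : Pos d) (η : Tor d M → ℕ) (A : Set (Pos d))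
    (b : Lab (Tor d M) d) :
    infMv nbT tv (fun x => η (x + tv z)) {y | y + z ∈ A} (shB (-(tv z)) b) =
      {y | y + z ∈ infMv nbT tv η A b} := by
  obtain ⟨x, k, e⟩ := b
  cases k with
  | zero =>
    have h0 : x + -(tv z) + tv z = x := by abel
    have h1 : ∀ y : Pos d, (tv y : Tor d M) = x + -(tv z) ↔ tv (y + z) = x := by
      intro y
      rw [tv_add]
      constructor
      · intro h; rw [h]; abel
      · intro h; rw [← h]; abel
    ext y
    show (y + z ∈ A ∧ ((tv y : Tor d M) = x + -(tv z) → 2 ≤ η (x + -(tv z) + tv z))) ↔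
      (y + z ∈ A ∧ ((tv (y + z) : Tor d M) = x → 2 ≤ η x))
    rw [h0, h1]
  | succ k =>
    have h0 : x + -(tv z) + tv z = x := by abel
    have h1 : ∀ y : Pos d, (tv y : Tor d M) = x + -(tv z) ↔ tv (y + z) = x := by
      intro y
      rw [tv_add]
      constructor
      · intro h; rw [h]; abel
      · intro h; rw [← h]; abel
    have h2 := ZI.E4.infMv_shift z η A (x, k, e)
    have h3 := mv_shift (tv z) η (x, k + 1, e)
    ext y
    have h4 : y ∈ ZI.infMv nbT tv (fun x => η (x + tv z)) {y | y + z ∈ A} (x + -(tv z), k, e) ↔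
        y + z ∈ ZI.infMv nbT tv η A (x, k, e) := by
      have h5 := congrArg (fun S : Set (Pos d) => y ∈ S) h2
      exact iff_of_eq h5
    have h6 : mv nbT (fun x => η (x + tv z)) (x + -(tv z), k + 1, e) (tv y) =
        mv nbT η (x, k + 1, e) (tv (y + z)) := by
      rw [tv_add]
      exact congrFun h3 (tv y)
    show (y ∈ ZI.infMv nbT tv (fun x => η (x + tv z)) {y | y + z ∈ A} (x + -(tv z), k, e) ∧
        (k < η (x + -(tv z) + tv z) → (y + z ∈ A ∧ tv y ≠ x + -(tv z)) ∨
          Thr.θ ≤ mv nbT (fun x => η (x + tv z)) (x + -(tv z), k + 1, e) (tv y))) ↔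
      (y + z ∈ ZI.infMv nbT tv η A (x, k, e) ∧
        (k < η x → (y + z ∈ A ∧ tv (y + z) ≠ x) ∨ Thr.θ ≤ mv nbT η (x, k + 1, e) (tv (y + z))))
    rw [h4, h6, h0, ne_eq, ne_eq, h1]

theorem foldl_shift {M : ℕ} (z : Pos d) (G : Set (Pos d)) (L : List (Lab (Tor d M) d))
    (η : Tor d M → ℕ) (A : Set (Pos d)) :
    (L.map (shB (-(tv z)))).foldl (stepR nbT tv {y | y + z ∈ G})
      ((fun x => η (x + tv z)), {y | y + z ∈ A}) =
    ((fun x => (L.foldl (stepR nbT tv G) (η, A)).1 (x + tv z)),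
      {y | y + z ∈ (L.foldl (stepR nbT tv G) (η, A)).2}) := by
  induction L generalizing η A with
  | nil => rfl
  | cons b L ih =>
    rw [List.map_cons, List.foldl_cons, List.foldl_cons]
    have h1 : stepR nbT tv {y | y + z ∈ G} ((fun x => η (x + tv z)), {y | y + z ∈ A})
        (shB (-(tv z)) b) =
        ((fun x => mv nbT η b (x + tv z)), {y | y + z ∈ infMv nbT tv η A b ∩ G}) := by
      unfold stepR
      refine Prod.ext (mv_shift (tv z) η b) ?_
      show infMv nbT tv (fun x => η (x + tv z)) {y | y + z ∈ A} (shB (-(tv z)) b) ∩ {y | y + z ∈ G} = _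
      rw [infMv_shift]
      rfl
    rw [h1]
    exact ih _ _

section shift

variable {m : Model} {δ : ℝ} (q : Par d m δ) (η : Tor d q.M → ℕ) (l : List (Let d q.M (q.K + 1))) (z : Pos d) (s : ℕ)

theorem occ_shift (t : ℕ) (x : Pos d) :
    (envT q (η' q η l z s) (l' q l z s)).occ t x ↔ (envT q η l).occ (s + t) (x + z) := by
  show Thr.θ ≤ cfg nbT (η' q η l z s) (units q.N1 (l' q l z s)) t (tv x) ↔
    Thr.θ ≤ cfg nbT η (units q.N1 l) (s + t) (tv (x + z))
  rw [cfg_shift, tv_add]

theorem inf_shift (G : ℕ → Set (Pos d)) (s' : ℕ) (A : Set (Pos d)) (j : ℕ) :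
    inf nbT tv (η' q η l z s) (units q.N1 (l' q l z s)) (fun t => {y | y + z ∈ G (s + t)}) s'
      {y | y + z ∈ A} j = {y | y + z ∈ inf nbT tv η (units q.N1 l) G (s + s') A j} := by
  induction j with
  | zero =>
    ext y
    show (y + z ∈ A ∧ y + z ∈ G (s + s') ∧ Thr.θ ≤ cfg nbT (η' q η l z s) (units q.N1 (l' q l z s)) s' (tv y)) ↔
      (y + z ∈ A ∧ y + z ∈ G (s + s') ∧ Thr.θ ≤ cfg nbT η (units q.N1 l) (s + s') (tv (y + z)))
    rw [cfg_shift, tv_add]
  | succ j ih =>
    show ((units q.N1 (l' q l z s) (s' + j)).foldl (stepR nbT tv {y | y + z ∈ G (s + (s' + j))})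
      (cfg nbT (η' q η l z s) (units q.N1 (l' q l z s)) (s' + j),
        inf nbT tv (η' q η l z s) (units q.N1 (l' q l z s)) (fun t => {y | y + z ∈ G (s + t)}) s'
          {y | y + z ∈ A} j ∩ {y | y + z ∈ G (s + (s' + j))})).2 =
      {y | y + z ∈ ((units q.N1 l (s + s' + j)).foldl (stepR nbT tv (G (s + s' + j)))
        (cfg nbT η (units q.N1 l) (s + s' + j),
          inf nbT tv η (units q.N1 l) G (s + s') A j ∩ G (s + s' + j))).2}
    rw [ih, cfg_shift, l', units_shift, ← Nat.add_assoc s s' j]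
    have h1 := foldl_shift z (G (s + s' + j)) (units q.N1 l (s + s' + j))
      (cfg nbT η (units q.N1 l) (s + s' + j))
      (inf nbT tv η (units q.N1 l) G (s + s') A j ∩ G (s + s' + j))
    exact congrArg Prod.snd h1

theorem R_shift (G : ℕ → Set (Pos d)) (s' : ℕ) (x : Pos d) (t' : ℕ) (y : Pos d) :
    (envT q (η' q η l z s) (l' q l z s)).R (fun t => {y | y + z ∈ G (s + t)}) s' x t' y ↔
      (envT q η l).R G (s + s') (x + z) (s + t') (y + z) := by
  have hx : ({x} : Set (Pos d)) = {y | y + z ∈ ({x + z} : Set (Pos d))} := by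
    ext w
    simp
  constructor
  · rintro ⟨j, hj, hy⟩
    refine ⟨j, by omega, ?_⟩
    have h1 := inf_shift q η l z s G s' {x + z} j
    rw [← hx] at h1
    change y ∈ inf nbT tv (η' q η l z s) (units q.N1 (l' q l z s))
      (fun t => {y | y + z ∈ G (s + t)}) s' {x} j at hy
    rw [h1] at hy
    exact hy
  · rintro ⟨j, hj, hy⟩
    refine ⟨j, by omega, ?_⟩
    have h1 := inf_shift q η l z s G s' {x + z} j
    rw [← hx] at h1
    show y ∈ inf nbT tv (η' q η l z s) (units q.N1 (l' q l z s))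
      (fun t => {y | y + z ∈ G (s + t)}) s' {x} j
    rw [h1]
    exact hy

theorem ok_shift (κ s' : ℕ) (hs' : κ ≤ s') (x : Pos d) :
    (envT q (η' q η l z s) (l' q l z s)).ok κ s' x ↔ (envT q η l).ok κ (s + s') (x + z) := by
  have h1 : (envT q (η' q η l z s) (l' q l z s)).fg κ s' x ↔
      (envT q η l).fg κ (s + s') (x + z) := by
    unfold Env.fg
    rw [Ball_shift z x]
    constructor
    · rintro ⟨y, hy⟩
      refine ⟨y + z, ?_⟩
      rw [Nat.add_assoc]
      exact (R_shift q η l z s (fun _ => Ball (x + z) ((κ : ℝ) ^ 2)) s' x (s' + κ) y).1 hy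
    · rintro ⟨y, hy⟩
      refine ⟨y - z, ?_⟩
      refine (R_shift q η l z s (fun _ => Ball (x + z) ((κ : ℝ) ^ 2)) s' x (s' + κ) (y - z)).2 ?_
      rw [sub_add_cancel, ← Nat.add_assoc]
      exact hy
  have h2 : (envT q (η' q η l z s) (l' q l z s)).bg κ s' x ↔
      (envT q η l).bg κ (s + s') (x + z) := by
    unfold Env.bg
    rw [Ball_shift z x]
    constructor
    · rintro ⟨t, y, rfl, hy⟩
      refine ⟨s + t, y + z, by omega, ?_⟩
      exact (R_shift q η l z s (fun _ => Ball (x + z) ((κ : ℝ) ^ 2)) t y (t + κ) x).1 hy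
    · rintro ⟨t, y, ht, hy⟩
      obtain ⟨t', rfl⟩ : ∃ t', t = s + t' := ⟨t - s, by omega⟩
      obtain rfl : s' = t' + κ := by omega
      refine ⟨t', y - z, rfl, ?_⟩
      refine (R_shift q η l z s (fun _ => Ball (x + z) ((κ : ℝ) ^ 2)) t' (y - z) (t' + κ) x).2 ?_
      rw [sub_add_cancel]
      exact hy
  unfold Env.ok
  rw [h1, h2]

theorem near_shift (κ s' : ℕ) (hs' : κ ≤ s') (z' : Pos d) :
    (envT q (η' q η l z s) (l' q l z s)).near κ s' z' + z =
      (envT q η l).near κ (s + s') (z' + z) := by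
  have h1 : {v : Pos d | (envT q (η' q η l z s) (l' q l z s)).ok κ s' (z' + v)} =
      {v : Pos d | (envT q η l).ok κ (s + s') (z' + z + v)} := by
    ext v
    show (envT q (η' q η l z s) (l' q l z s)).ok κ s' (z' + v) ↔
      (envT q η l).ok κ (s + s') (z' + z + v)
    rw [ok_shift q η l z s κ s' hs']
    have : z' + v + z = z' + z + v := by abel
    rw [this]
  unfold Env.near
  by_cases h : {v : Pos d | (envT q η l).ok κ (s + s') (z' + z + v)}.Nonempty
  · have h' : {v : Pos d | (envT q (η' q η l z s) (l' q l z s)).ok κ s' (z' + v)}.Nonempty := by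
      rw [h1]; exact h
    rw [dif_pos h, dif_pos h']
    have h2 : Function.argminOn rk {v | (envT q (η' q η l z s) (l' q l z s)).ok κ s' (z' + v)} h' =
        Function.argminOn rk {v | (envT q η l).ok κ (s + s') (z' + z + v)} h := by
      congr 1
    rw [h2]
    abel
  · have h' : ¬ {v : Pos d | (envT q (η' q η l z s) (l' q l z s)).ok κ s' (z' + v)}.Nonempty := by
      rw [h1]; exact h
    rw [dif_neg h, dif_neg h']

theorem W_shift (P : BP) (u : Fin d → ℝ) (z' : Pos d) (s' t' : ℕ) (hs' : P.κ ≤ s') (y : Pos d) :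
    y ∈ (envT q (η' q η l z s) (l' q l z s)).W P u z' s' t' ↔
      y + z ∈ (envT q η l).W P u (z' + z) (s + s') (s + t') := by
  have hw : wall P u z' s' = fun t => {y | y + z ∈ wall P u (z' + z) (s + s') (s + t)} := by
    funext t
    ext w
    unfold wall
    show (-(P.mg : ℝ) + ((t : ℝ) - s') / (16 * P.κ) ≤ lev u (w - z') ∧ supn (w - z') ≤ P.Dw) ↔
      (-(P.mg : ℝ) + (((s + t : ℕ) : ℝ) - ((s + s' : ℕ) : ℝ)) / (16 * P.κ) ≤
        lev u (w + z - (z' + z)) ∧ supn (w + z - (z' + z)) ≤ P.Dw)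
    have h1 : w + z - (z' + z) = w - z' := by abel
    have h2 : ((s + t : ℕ) : ℝ) - ((s + s' : ℕ) : ℝ) = (t : ℝ) - s' := by push_cast; ring
    rw [h1, h2]
  show (envT q (η' q η l z s) (l' q l z s)).R (wall P u z' s') s'
      ((envT q (η' q η l z s) (l' q l z s)).near P.κ s' z') t' y ↔
    (envT q η l).R (wall P u (z' + z) (s + s')) (s + s') ((envT q η l).near P.κ (s + s') (z' + z))
      (s + t') (y + z)
  rw [hw, R_shift, near_shift q η l z s P.κ s' hs']

theorem bh_shift (P : BP) (u : Fin d → ℝ) (k : ℕ) (z' : Pos d) (s' : ℕ) (hs' : P.κ ≤ s') :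
    (envT q (η' q η l z s) (l' q l z s)).bh P u k z' s' =
      (envT q η l).bh P u k (z' + z) (s + s') := by
  unfold Env.bh
  congr 1
  ext h
  constructor
  · rintro ⟨y, hy, hk⟩
    refine ⟨y + z, ?_, ?_⟩
    · rw [Nat.add_assoc]; exact (W_shift q η l z s P u z' s' (s' + h) hs' y).mp hy
    · have : y + z - (z' + z) = y - z' := by abel
      rw [this]; exact hk
  · rintro ⟨y, hy, hk⟩
    refine ⟨y - z, ?_, ?_⟩
    · rw [W_shift q η l z s P u z' s' _ hs']
      have : y - z + z = y := by abel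
      rw [this, ← Nat.add_assoc]
      exact hy
    · have : y - z - z' = y - (z' + z) := by abel
      rw [this]; exact hk

theorem bx_shift (P : BP) (u : Fin d → ℝ) (k : ℕ) (z' : Pos d) (s' : ℕ) (hs' : P.κ ≤ s') :
    (envT q (η' q η l z s) (l' q l z s)).bx P u k z' s' =
      (envT q η l).bx P u k (z' + z) (s + s') := by
  have h1 : {v : Pos d | z' + v ∈ (envT q (η' q η l z s) (l' q l z s)).W P u z' s'
        (s' + (envT q (η' q η l z s) (l' q l z s)).bh P u k z' s') ∧ (k : ℝ) ≤ lev u v} =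
      {v : Pos d | z' + z + v ∈ (envT q η l).W P u (z' + z) (s + s')
        (s + s' + (envT q η l).bh P u k (z' + z) (s + s')) ∧ (k : ℝ) ≤ lev u v} := by
    ext v
    have h2 : z' + v + z = z' + z + v := by abel
    constructor
    · rintro ⟨h3, h4⟩
      refine ⟨?_, h4⟩
      rw [W_shift q η l z s P u z' s' _ hs', bh_shift q η l z s P u k z' s' hs', h2,
        ← Nat.add_assoc] at h3
      exact h3
    · rintro ⟨h3, h4⟩
      refine ⟨?_, h4⟩
      rw [W_shift q η l z s P u z' s' _ hs', bh_shift q η l z s P u k z' s' hs', h2,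
        ← Nat.add_assoc]
      exact h3
  unfold Env.bx
  by_cases h : {v : Pos d | z' + z + v ∈ (envT q η l).W P u (z' + z) (s + s')
        (s + s' + (envT q η l).bh P u k (z' + z) (s + s')) ∧ (k : ℝ) ≤ lev u v}.Nonempty
  · have h' : {v : Pos d | z' + v ∈ (envT q (η' q η l z s) (l' q l z s)).W P u z' s'
        (s' + (envT q (η' q η l z s) (l' q l z s)).bh P u k z' s') ∧ (k : ℝ) ≤ lev u v}.Nonempty := by
      rw [h1]; exact h
    rw [dif_pos h, dif_pos h']
    congr 1
  · have h' : ¬ {v : Pos d | z' + v ∈ (envT q (η' q η l z s) (l' q l z s)).W P u z' s'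
        (s' + (envT q (η' q η l z s) (l' q l z s)).bh P u k z' s') ∧ (k : ℝ) ≤ lev u v}.Nonempty := by
      rw [h1]; exact h
    rw [dif_neg h, dif_neg h']

theorem blk_shift (P : BP) (u : Fin d → ℝ) (k : ℕ) (z' : Pos d) (s' : ℕ) (hs' : P.κ ≤ s') :
    (envT q (η' q η l z s) (l' q l z s)).blk P u k z' s' =
      (envT q η l).blk P u k (z' + z) (s + s') := by
  unfold Env.blk
  rw [bh_shift q η l z s P u k z' s' hs', bx_shift q η l z s P u k z' s' hs']

theorem chain_shift' (P : BP) (u : Fin d → ℝ) (ms : List ℕ) (z' : Pos d) (s' : ℕ)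
    (hs' : P.κ ≤ s') :
    (envT q (η' q η l z s) (l' q l z s)).chain P u ms z' s' =
      (envT q η l).chain P u ms (z' + z) (s + s') := by
  induction ms generalizing z' s' with
  | nil => rfl
  | cons k ms ih =>
    show (envT q (η' q η l z s) (l' q l z s)).blk P u k z' s' ::
        (envT q (η' q η l z s) (l' q l z s)).chain P u ms
          (z' + ((envT q (η' q η l z s) (l' q l z s)).blk P u k z' s').2 + v0 P u)
          (s' + ((envT q (η' q η l z s) (l' q l z s)).blk P u k z' s').1 + P.Δ) =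
      (envT q η l).blk P u k (z' + z) (s + s') ::
        (envT q η l).chain P u ms
          (z' + z + ((envT q η l).blk P u k (z' + z) (s + s')).2 + v0 P u)
          (s + s' + ((envT q η l).blk P u k (z' + z) (s + s')).1 + P.Δ)
    rw [ih _ _ (by omega), blk_shift q η l z s P u k z' s' hs']
    congr 2
    · abel
    · omega

end shift

end ZQ.E4

namespace ZQ.Rows

open ZP hiding Agree AgreeW Base BlockFacts Env EqEnv GoodK IsGamma LowTail PastEv QK QT StepP Sys UpTail envT inf infMv muK pe stepI stepR visU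
open ZP.Rows hiding R_of_noRec R_toZI agree_take bh_chain cfg_toZI chain_eq chain_shift envT_toZI foldl_stepR_noRec foldl_stepR_toZI inf_noRec inf_toZI occ_toZI pe_path start_inv visU_noRec visU_toZI vis_of_noRec vis_toZI

variable [ZQ.Thr]

open ZP hiding Agree AgreeW Base BlockFacts Env EqEnv GoodK IsGamma LowTail PastEv QK QT StepP Sys UpTail envT inf infMv muK pe stepI stepR visU
open ZQ

variable {d : ℕ} {m : Model} {δ : ℝ}

theorem chain_shift (q : Par d m δ) (η : Tor d q.M → ℕ) (l : List (Let d q.M (q.K + 1))) (P : BP)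
    (u : Fin d → ℝ) (ms : List ℕ) (z : Pos d) (s : ℕ) :
    (envT q η l).chain P u ms z (s + P.κ) =
      (envT q (fun x => (l.take (s * q.N1)).foldl stepA η (x + tv z))
        ((l.drop (s * q.N1)).map (shL (-(tv z))))).chain P u ms 0 P.κ := by
  have h := E4.chain_shift' q η l z s P u ms 0 P.κ le_rfl
  rw [zero_add] at h
  exact h.symm

/-- words that agree up to the time `T` -/
theorem agree_take (q : Par d m δ) (η : Tor d q.M → ℕ) (l : List (Let d q.M (q.K + 1))) (T : ℕ)
    (Γ : ℕ → Set (Pos d)) : AgreeW (envT q η l) (envT q η (l.take (T * q.N1))) Γ T where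
  occ t ht x _ := by
    show Thr.θ ≤ cfg nbT η (units q.N1 l) t (tv x) ↔
      Thr.θ ≤ cfg nbT η (units q.N1 (l.take (T * q.N1))) t (tv x)
    rw [E4.cfg_congr nbT η (fun t ht => E4.units_take q.N1 l T t ht) t ht]
  R G _ s t x y ht := by
    constructor
    · rintro ⟨j, rfl, hy⟩
      refine ⟨j, rfl, ?_⟩
      show y ∈ inf nbT tv η (units q.N1 (l.take (T * q.N1))) G s {x} j
      rw [← E4.inf_congr nbT tv η (fun t ht => E4.units_take q.N1 l T t ht) G s {x} j ht]
      exact hy
    · rintro ⟨j, rfl, hy⟩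
      refine ⟨j, rfl, ?_⟩
      show y ∈ inf nbT tv η (units q.N1 l) G s {x} j
      rw [E4.inf_congr nbT tv η (fun t ht => E4.units_take q.N1 l T t ht) G s {x} j ht]
      exact hy

namespace E4

end E4

theorem start_inv {Cv a A r0 : ℕ} {c : ℝ} (hB : Base m δ d Cv a A r0 c) : ∃ r1 ≥ r0, ∀ r ≥ r1, ∀ n : ℕ,
    r ^ A ≤ n → n ≤ (2 * r) ^ A → ∀ q : Par d m δ, q.M = n ^ 4 → q.Tiny n →
    ∀ (u : Fin d → ℝ), ∑ j, u j ^ 2 = 1 → ∀ ms : List ℕ, (∀ m' ∈ ms, r ^ (7 * a) ≤ m') →
    ms.sum ≤ r * n → ∀ (z : Pos d) (s : ℕ), r ^ a ≤ s → 2 * s ≤ n ^ 2 →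
    ∀ G : List (ℕ × Pos d) → Prop,
    q.PP (n ^ 2 * q.N1) (fun η l => G ((envT q η l).chain (bp d a r n) u ms z s)) ≤
      q.PP (n ^ 2 * q.N1) (fun η l => G ((envT q η l).chain (bp d a r n) u ms 0 (r ^ a))) +
        ENNReal.ofReal (Real.exp (- c * r)) := by
  obtain ⟨r1, hr1, hchain⟩ := chain_eq hB
  refine ⟨r1, hr1, ?_⟩
  intro r hr n hn hn2 q hM hTy u hu ms hms hsum z s hks hs G
  have hr0 : r0 ≤ r := le_trans hr1 hr
  have hr10 : 10 ≤ r := le_trans hB.r0_big hr0
  set P := bp d a r n with hP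
  have hPκ : P.κ = r ^ a := rfl
  obtain ⟨s0, rfl⟩ : ∃ s0, s = s0 + r ^ a := ⟨s - r ^ a, by omega⟩
  set F : (Tor d q.M → ℕ) → List (Let d q.M (q.K + 1)) → ℝ≥0∞ :=
    fun η l => if G ((envT q η l).chain P u ms 0 (r ^ a)) then 1 else 0 with hF
  obtain ⟨T, hT⟩ : ∃ T, n ^ 2 = s0 + T := ⟨n ^ 2 - s0, by omega⟩
  have e1 : q.PP (n ^ 2 * q.N1) (fun η l => G ((envT q η l).chain P u ms z (s0 + r ^ a))) =
      q.EE (T * q.N1) F := by
    unfold Par.PP
    have h1 : (fun (η : Tor d q.M → ℕ) (l : List (Let d q.M (q.K + 1))) =>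
        (if G ((envT q η l).chain P u ms z (s0 + r ^ a)) then (1 : ℝ≥0∞) else 0)) =
        fun η l => (fun (η : Tor d q.M → ℕ) (l : List (Let d q.M (q.K + 1))) =>
          F (fun x => η (x - -(tv z))) (l.map (shL (-(tv z)))))
          ((l.take (s0 * q.N1)).foldl stepA η) (l.drop (s0 * q.N1)) := by
      funext η l
      simp only [hF, sub_neg_eq_add]
      have h2 := chain_shift q η l P u ms z s0
      rw [hPκ] at h2
      rw [h2]
    rw [h1, hT, Nat.add_mul]
    exact (stationary q hB.d_pos (s0 * q.N1) (T * q.N1)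
      (fun (η : Tor d q.M → ℕ) (l : List (Let d q.M (q.K + 1))) =>
          F (fun x => η (x - -(tv z))) (l.map (shL (-(tv z)))))).trans
      (translation q (-(tv z)) (T * q.N1) F)
  have e2 : q.EE (T * q.N1) F = q.EE (n ^ 2 * q.N1) (fun η l => F η (l.take (T * q.N1))) := by
    rw [hT, Nat.add_comm s0 T, Nat.add_mul, E4.EE_take q hB.d_pos]
  have hT2 : r ^ a + r ^ (2 * a) * ms.sum ≤ T ∧ 2 * r ^ a ≤ n ^ 2 := by
    have h2 : r ^ (2 * a + 2) ≤ n := by
      refine le_trans (Nat.pow_le_pow_right (by omega) ?_) hn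
      have := hB.A_big
      have := hB.a_big
      omega
    have h1 : 4 * r ^ a ≤ n ^ 2 := by
      calc 4 * r ^ a ≤ r * r ^ a := Nat.mul_le_mul_right _ (by omega)
        _ = r ^ (a + 1) := by ring
        _ ≤ r ^ (2 * a + 2) := Nat.pow_le_pow_right (by omega) (by omega)
        _ ≤ n := h2
        _ ≤ n ^ 2 := by
          rw [sq]
          exact Nat.le_mul_of_pos_left _ (lt_of_lt_of_le (pow_pos (by omega) _) h2)
    have h3 : 4 * (r ^ (2 * a) * ms.sum) ≤ n ^ 2 := by
      calc 4 * (r ^ (2 * a) * ms.sum) ≤ r * (r ^ (2 * a) * (r * n)) :=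
            Nat.mul_le_mul (by omega) (Nat.mul_le_mul_left _ hsum)
        _ = r ^ (2 * a + 2) * n := by ring
        _ ≤ n * n := Nat.mul_le_mul_right _ h2
        _ = n ^ 2 := by ring
    omega
  rw [e1, e2]
  have hle : q.EE (n ^ 2 * q.N1) (fun η l => F η (l.take (T * q.N1))) ≤
      q.EE (n ^ 2 * q.N1) (fun η l => F η l +
        (if ¬ (envT q η l).Good r (r ^ a) Cv (n ^ 2) (n ^ 2) then 1 else 0)) := by
    refine E4.EE_mono q _ fun η l => ?_
    by_cases hg : (envT q η l).Good r (r ^ a) Cv (n ^ 2) (n ^ 2)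
    · refine le_trans (le_of_eq ?_) le_self_add
      simp only [hF]
      rw [hchain r hr n hn (envT q η l) (envT q η (l.take (T * q.N1))) hg u hu ms hms hsum 0
        (r ^ a) T (-(2 * P.mg : ℝ) - ((r ^ a : ℕ) : ℝ) / (16 * P.κ)) le_rfl hT2.2 (by simp [supn])
        (by
          rw [← hP]
          have h0 : lev u (0 : Pos d) = 0 := by simp [lev]
          rw [h0]
          linarith)
        hT2.1 (by omega) (agree_take q η l T _)]
    · rw [if_pos hg]
      refine le_trans ?_ le_add_self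
      simp only [hF]
      split_ifs
      · exact le_rfl
      · exact zero_le
  refine le_trans hle ?_
  rw [E4.EE_add]
  refine add_le_add le_rfl ?_
  refine le_trans ?_ (hB.good r hr0 n hn hn2 q hM hTy)
  unfold Par.PP
  refine E4.EE_mono q _ fun η l => ?_
  by_cases hg : (envT q η l).Good r (r ^ a) Cv (n ^ 2) (n ^ 2)
  · rw [if_neg (not_not_intro hg)]
    exact zero_le
  · rw [if_pos hg, if_pos hg]

end ZQ.Rows
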