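import Pool.Agent.ZP.Proc
import Pool.Agent.ZQ.Defs
import Pool.Agent.ZI.Proc

/-! # The zero-range process with infection and recovery

* `Clocks m δ d P`: the graphical construction.  Independent Poisson clocks for the labels `(x, j, e)` (site `x`,
  mark `j`, direction `e`) and an independent initial configuration with the product law of fugacity `φ`.
  The label `(x, k + 1, e)` has the rate `(g (k + 1) - g k) / (2 d)`: at its rings one particle jumps from `x` to
  `x + e` iff more than `k` particles are at `x`; so a particle leaves `x` at the total rate `g (η x)`, in a uniform
  direction.  The labels `(x, 0, e)` have the rate `δ / (2 d)` each, the total rate `δ` per site: at their rings the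
  particle at `x` recovers if it is infected and the only particle at `x`.
* `st C R ω t`: configuration and infected sites at the time `t` of the finite system in the box `|x| ≤ R`,
  particles that leave the box are killed.
* the process in infinite volume is the increasing limit of the finite systems as `R → ∞`: `conf C ω t x` is the
  number of particles at `x` at the time `t`, `infd C ω t` the set of the infected sites.
* `Iset C ω t`: the sites that contain an infected particle at some time in `[0, t]`.
-/

set_option autoImplicit false

open scoped ENNReal BigOperators Classical
open MeasureTheory

noncomputable section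

namespace ZQ

open ZP ZQ

variable [Thr]

export ZI (supN ringSet ringList box nbB boxLab)

variable {d : ℕ} {m : Model} {δ : ℝ}

section

variable {Ω : Type} [MeasurableSpace Ω] {P : Measure Ω} (C : Clocks m δ d P)

/-- configuration and infected sites of the box `R` at the time `t`.  The rings of the marks `> tot` are never
effective; so finitely many rings are used. -/
def st (R : ℕ) (ω : Ω) (t : ℝ) : (Pos d → ℕ) × Set (Pos d) :=
  (ringList (C.ring ω) (boxLab d R (tot C R ω + 1)) 0 t).foldl (stepR (nbB R) id Set.univ)
    (ini C R ω, {z | z = 0 ∧ Thr.θ ≤ C.η0 ω 0})

/-- set of the infected sites at the time `t` (infinite volume) -/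
def infd (ω : Ω) (t : ℝ) : Set (Pos d) := {x | ∃ R : ℕ, x ∈ (st C R ω t).2}

/-- the sites that contain an infected particle at some time in `[0, t]` -/
def Iset (ω : Ω) (t : ℝ) : Set (Pos d) := {x | ∃ s : ℝ, 0 ≤ s ∧ s ≤ t ∧ x ∈ infd C ω s}

/-- survival: at every time there is an infected particle -/
def Surv : Set Ω := {ω | ∀ t : ℝ, 0 ≤ t → (infd C ω t).Nonempty}

end

end ZQ
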