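import Pool.Agent.ZP.ProcE
import Pool.Agent.ZQ.Proc
import Pool.Agent.ZQ.Sys
import Pool.Agent.ZQ.Dec
import Pool.Agent.ZI.ProcE

/-! # Environments given by the clocks: torus, killed boxes (with recovery) -/

set_option autoImplicit false

open scoped ENNReal BigOperators Classical
open MeasureTheory

noncomputable section

namespace ZQ

open ZP ZQ

variable [Thr]

export ZI (lft torLab tv1)

variable {d : ℕ} {m : Model} {δ : ℝ}

/-- the system in the box `supn ≤ R` derived from an environment: particles that leave the box are killed -/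
def kill (R : ℕ) (E : Env d) : Env d where
  V := Pos d
  nb := nbB R
  pr := id
  η0 := fun x => if supn x ≤ R then E.η0 (E.pr x) else 0
  U := fun t => (E.U t).filterMap (fun b =>
    if h : ∃ x : Pos d, supn x ≤ R ∧ E.pr x = b.1 then some (h.choose, b.2) else none)

/-- only the marks `≤ K` -/
def capE (K : ℕ) (E : Env d) : Env d :=
  { E with U := fun t => (E.U t).filter (fun b => decide (b.2.1 < K + 1)) }

section

variable {Ω : Type} [MeasurableSpace Ω] {P : Measure Ω} (C : Clocks m δ d P)

/-- torus of side `M`, marks `≤ K`, times up to `T` -/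
def envC (M K T : ℕ) (ω : Ω) : Env d where
  V := Tor d M
  nb := nbT
  pr := tv
  η0 := fun v => C.η0 ω (lft v)
  U := fun t => if t < T then
    (ringList (C.ring ω) (torLab d M (K + 1)) t (t + 1)).map (fun l => (tv l.1, l.2)) else []

/-- killed box, marks `≤ K`, times up to `T` -/
def envB (R K T : ℕ) (ω : Ω) : Env d where
  V := Pos d
  nb := nbB R
  pr := id
  η0 := fun x => if supn x ≤ R then C.η0 ω x else 0
  U := fun t => if t < T then ringList (C.ring ω) (boxLab d R (K + 1)) t (t + 1) else []

/-- the environment of the scale `k`: side `n ^ 4`, marks `≤ n`, times up to `n ^ 2`, `n = 2 ^ k` -/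
def EK (k : ℕ) (ω : Ω) : Env d := envC C ((2 ^ k) ^ 4) (2 ^ k) ((2 ^ k) ^ 2) ω

end

end ZQ
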