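import Pool.Agent.ZP.P2b
import Pool.Agent.ZQ.ProcE
import Pool.Agent.ZI.P2b

/-! # Row P2b: from the chain to the clocks (with recovery) -/

set_option autoImplicit false

open scoped ENNReal BigOperators Classical
open MeasureTheory

noncomputable section

namespace ZQ.P2b

open ZP hiding Agree AgreeW Base BlockFacts EK Env EqEnv GoodK Iset PastEv QK QT Surv Sys capE conf envB envC envT inf infMv infd kill pe st stepI stepR visU
open ZP.P2b hiding envC_cyl envC_eq envW env_ext good_eq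

variable [ZQ.Thr]

open ZP hiding Agree AgreeW Base BlockFacts EK Env EqEnv GoodK Iset PastEv QK QT Surv Sys capE conf envB envC envT inf infMv infd kill pe st stepI stepR visU
open ZQ

open ZI.P2b (ringList_append ringList_nil ringList_single tv_lft emb lft_inj emb_inj mem_torLab
  torLab_eq msh msh_mono vec EvE_fn sum_ofReal_div_le tv_V lam_nonneg g_nonneg msh_zero msh_succ
  msh_nonneg vec_inj)

variable {d : ℕ} {m : Model} {δ : ℝ}

/-- the environment of a word -/
def envW {M K : ℕ} (N1 : ℕ) (η : Tor d M → ℕ) (w : List (Let d M K)) : Env d where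
  V := Tor d M
  nb := nbT
  pr := tv
  η0 := η
  U := units N1 w

section

variable {Ω : Type} [MeasurableSpace Ω] {P : Measure Ω} (C : Clocks m δ d P)

theorem env_ext {V : Type} {nb : V → Dir d → Option V} {pr : Pos d → V} {η0 : V → ℕ}
    {U U' : ℕ → List (Lab V d)} (h : U = U') : Env.mk V nb pr η0 U = Env.mk V nb pr η0 U' := by
  rw [h]

theorem envC_eq {M K : ℕ} [NeZero M] (N1 : ℕ) (hN : 0 < N1) (T : ℕ) (ω : Ω)
    (w : List (Let d M (K + 1))) (hw : w.length = T * N1)
    (h : ∀ j (hj : j < w.length), ∀ x, cnt C N1 ω (emb x) j = vec (w[j]) x) :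
    envC C M K T ω = envW N1 (fun v => C.η0 ω (lft v)) w := by
  refine env_ext ?_
  funext t
  by_cases ht : t < T
  · rw [if_pos ht]
    have hN' : (N1 : ℝ) ≠ 0 := by positivity
    have e1 : (t : ℝ) = msh N1 (t * N1) := by
      unfold msh; push_cast; field_simp
    have e2 : (t : ℝ) + 1 = msh N1 (t * N1 + N1) := by
      unfold msh; push_cast; field_simp
    rw [e2]
    conv_lhs => rw [e1]
    rw [ringList_word C N1 ω w h (t * N1) N1 (by rw [hw]; nlinarith), List.map_filterMap]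
    unfold units
    congr 1
    funext a
    cases a with
    | none => rfl
    | some y =>
      simp only [Option.map_some, toLab, emb, tv_lft]
  · rw [if_neg ht]
    unfold units
    rw [List.drop_eq_nil_of_le]
    · simp
    · rw [hw]
      exact Nat.mul_le_mul_right _ (not_lt.1 ht)

end

/-! ### the rates -/

section

variable {Ω : Type} [MeasurableSpace Ω] {P : Measure Ω}

theorem envC_cyl (C : Clocks m δ d P) {M K : ℕ} [NeZero M] (N1 : ℕ) (hN : 0 < N1) (T : ℕ) (ω : Ω)
    (η : Tor d M → ℕ) (w : Fin (T * N1) → Let d M (K + 1)) (h1 : ∀ v, C.η0 ω (lft v) = η v)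
    (h2 : ∀ j : Fin (T * N1), ∀ x, cnt C N1 ω (emb x) j = vec (w j) x) :
    envC C M K T ω = envW N1 η (List.ofFn w) := by
  rw [envC_eq C N1 hN T ω (List.ofFn w) (by simp)
    (fun j hj x => by
      rw [List.length_ofFn] at hj
      rw [List.getElem_ofFn]
      exact h2 ⟨j, hj⟩ x)]
  congr 1
  funext v
  exact h1 v

/-- the event of the environment off the bad set -/
theorem good_eq (C : Clocks m δ d P) {M K : ℕ} [NeZero M] (N1 : ℕ) (hN : 0 < N1) (T : ℕ)
    (F : Env d → Prop) :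
    {ω | F (envC C M K T ω)} ∩ (Bad C M K T N1)ᶜ =
      ⋃ p : (Tor d M → ℕ) × (Fin (T * N1) → Let d M (K + 1)),
        {ω | F (envW N1 p.1 (List.ofFn p.2)) ∧ (∀ v, C.η0 ω (lft v) = p.1 v) ∧
          ∀ j : Fin (T * N1), ∀ x, cnt C N1 ω (emb x) j = vec (p.2 j) x} := by
  ext ω
  simp only [Set.mem_inter_iff, Set.mem_ofPred_eq, Set.mem_compl_iff, Set.mem_iUnion]
  constructor
  · rintro ⟨h1, h2⟩
    obtain ⟨w, hw⟩ := good_word C M K T N1 ω h2
    refine ⟨(fun v => C.η0 ω (lft v), w), ?_, fun v => rfl, hw⟩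
    rw [← envC_cyl C N1 hN T ω (fun v => C.η0 ω (lft v)) w (fun v => rfl) hw]
    exact h1
  · rintro ⟨⟨η, w⟩, h1, h2, h3⟩
    refine ⟨?_, ?_⟩
    · rw [envC_cyl C N1 hN T ω η w h2 h3]
      exact h1
    · unfold Bad
      rw [Set.mem_iUnion]
      rintro ⟨j, hj⟩
      exact hj ⟨w j, h3 j⟩

end

end ZQ.P2b

namespace ZQ.Rows

open ZP hiding Agree AgreeW Base BlockFacts EK Env EqEnv GoodK Iset PastEv QK QT Surv Sys capE conf envB envC envT inf infMv infd kill pe st stepI stepR visU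
open ZP.Rows hiding nullMeas transfer

variable [ZQ.Thr]

open ZP hiding Agree AgreeW Base BlockFacts EK Env EqEnv GoodK Iset PastEv QK QT Surv Sys capE conf envB envC envT inf infMv infd kill pe st stepI stepR visU
open ZP.P2b hiding envC_cyl envC_eq envW env_ext good_eq
open ZQ.P2b
open ZQ

open ZI.P2b (ringList_append ringList_nil ringList_single tv_lft emb lft_inj emb_inj mem_torLab
  torLab_eq msh msh_mono vec EvE_fn sum_ofReal_div_le tv_V lam_nonneg g_nonneg msh_zero msh_succ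
  msh_nonneg vec_inj)

variable {d : ℕ} {m : Model} {δ : ℝ}

section

variable {Ω : Type} [MeasurableSpace Ω] {P : Measure Ω}

theorem nullMeas [IsProbabilityMeasure P] (hd : 0 < d) (hδ : 0 ≤ δ) (C : Clocks m δ d P) (M K T : ℕ)
    (hM : 1 ≤ M) (F : Env d → Prop) : NullMeasurableSet {ω | F (envC C M K T ω)} P := by
  have : NeZero M := ⟨by omega⟩
  have h1 : ∀ N : ℕ, MeasurableSet ({ω | F (envC C M K T ω)} ∩ (Bad C M K T (N + 1))ᶜ) := by
    intro N
    rw [good_eq C (N + 1) (Nat.succ_pos N) T F]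
    refine MeasurableSet.iUnion (fun p => ?_)
    by_cases hp : F (envW (N + 1) p.1 (List.ofFn p.2))
    · simp only [hp, true_and]
      exact cyl_meas C (N + 1) p.1 p.2
    · simp only [hp, false_and]
      exact MeasurableSet.empty
  have h2 : {ω | F (envC C M K T ω)} = (⋃ N : ℕ, {ω | F (envC C M K T ω)} ∩
      (Bad C M K T (N + 1))ᶜ) ∪ ({ω | F (envC C M K T ω)} ∩ ⋂ N : ℕ, Bad C M K T (N + 1)) := by
    ext ω
    simp only [Set.mem_union, Set.mem_iUnion, Set.mem_inter_iff, Set.mem_compl_iff, Set.mem_iInter]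
    constructor
    · intro h
      by_cases hb : ∀ N, ω ∈ Bad C M K T (N + 1)
      · exact Or.inr ⟨h, hb⟩
      · push Not at hb
        obtain ⟨N, hN⟩ := hb
        exact Or.inl ⟨N, h, hN⟩
    · rintro (⟨N, h, -⟩ | ⟨h, -⟩) <;> exact h
  rw [h2]
  refine (MeasurableSet.iUnion h1).nullMeasurableSet.union ?_
  apply NullMeasurableSet.of_null
  have h3 : ∀ N : ℕ, P ({ω | F (envC C M K T ω)} ∩ ⋂ N : ℕ, Bad C M K T (N + 1)) ≤
      ENNReal.ofReal (T * Lam m δ d M K ^ 2 / (N + 1 : ℕ)) := fun N =>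
    (measure_mono (Set.inter_subset_right.trans (Set.iInter_subset _ N))).trans
      (Bad_prob C hd hδ M K T (N + 1) (Nat.succ_pos N))
  have h4 : Filter.Tendsto (fun N : ℕ => ENNReal.ofReal (T * Lam m δ d M K ^ 2 / (N + 1 : ℕ)))
      Filter.atTop (nhds 0) := by
    rw [← ENNReal.ofReal_zero]
    apply ENNReal.tendsto_ofReal
    have := (tendsto_const_div_atTop_nhds_zero_nat ((T : ℝ) * Lam m δ d M K ^ 2)).comp
      (Filter.tendsto_add_atTop_nat 1)
    exact this
  exact le_antisymm (ge_of_tendsto' h4 h3) bot_le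

theorem transfer [IsProbabilityMeasure P] (hd : 0 < d) (hδ : 0 ≤ δ) (C : Clocks m δ d P) (M K T : ℕ)
    (hM : 5 ≤ M) (hK : 2 ≤ K) (hK' : 2 * m.φ ≤ m.g K) (ε p0 : ℝ) (hε : 0 < ε) (hp0 : 0 < p0) :
    ∃ q : Par d m δ, q.M = M ∧ q.K = K ∧ q.p ≤ p0 ∧ ∀ F : Env d → Prop,
      P {ω | F (envC C M K T ω)} ≤ q.PP (T * q.N1) (fun η l => F (envT q η l)) +
        ENNReal.ofReal ε + (M : ℝ≥0∞) ^ d * tv1 m K := by
  obtain ⟨N1, hN, hδN, q, rfl, rfl, rfl, hqp, hp⟩ :=
    exists_par (m := m) (d := d) hδ M K T hM hK hK' ε p0 hε hp0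
  refine ⟨q, rfl, rfl, hqp, fun F => ?_⟩
  have hbad := (Bad_prob C hd hδ q.M q.K T q.N1 hN).trans (ENNReal.ofReal_le_ofReal hδN)
  have h1 : P {ω | F (envC C q.M q.K T ω)} ≤
      P ({ω | F (envC C q.M q.K T ω)} ∩ (Bad C q.M q.K T q.N1)ᶜ) + ENNReal.ofReal ε := by
    refine le_trans (measure_mono ?_) ((measure_union_le _ _).trans (add_le_add_right hbad _))
    intro ω hω
    by_cases hb : ω ∈ Bad C q.M q.K T q.N1
    · exact Or.inr hb
    · exact Or.inl ⟨hω, hb⟩
  have h2 : P ({ω | F (envC C q.M q.K T ω)} ∩ (Bad C q.M q.K T q.N1)ᶜ) ≤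
      ∑' η : Tor d q.M → ℕ, prw m.mu η *
        EvE q.w (T * q.N1) (fun l => if F (envT q η l) then 1 else 0) := by
    rw [good_eq C q.N1 hN T F]
    refine (measure_iUnion_le _).trans ?_
    rw [ENNReal.tsum_prod']
    refine ENNReal.tsum_le_tsum (fun η => ?_)
    rw [tsum_fintype, EvE_fn, Finset.mul_sum]
    refine Finset.sum_le_sum (fun w _ => ?_)
    by_cases hF : F (envT q η (List.ofFn w))
    · have hF' : F (envW q.N1 η (List.ofFn w)) := hF
      simp only [hF, hF', true_and, if_true, mul_one]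
      rw [cyl C hd lft lft_inj (fun j : Fin (T * q.N1) => (j : ℕ)) Fin.val_injective q.N1 η w]
      unfold prw
      gcongr with j _
      exact rho_le q hp (w j)
    · have hF' : ¬ F (envW q.N1 η (List.ofFn w)) := hF
      simp only [hF', false_and]
      have : {ω : Ω | False} = ∅ := by ext; simp
      rw [this, measure_empty]
      exact bot_le
  have h3 := tv_V (V := Tor d q.M) m.mu (m.m1 q.K)
    (sum_ofReal_div_le m.wt0 (fun k => div_nonneg (pow_nonneg m.φ_pos.le _)
      (Finset.prod_nonneg (fun i _ => g_nonneg m _))))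
    (sum_ofReal_div_le (m.wt q.K) (fun k => div_nonneg (pow_nonneg m.φ_pos.le _)
      (Finset.prod_nonneg (fun i _ => g_nonneg m _))))
    (fun η => EvE q.w (T * q.N1) (fun l => if F (envT q η l) then 1 else 0))
    (fun η => ZI.PrE_le_one q.w (sum_w' q hd) _ _)
  have h4 : (Fintype.card (Tor d q.M) : ℝ≥0∞) = (q.M : ℝ≥0∞) ^ d := by
    rw [Fintype.card_pi]
    simp only [ZMod.card, Finset.prod_const, Finset.card_univ, Fintype.card_fin]
    push_cast
    rfl
  rw [h4] at h3
  calc P {ω | F (envC C q.M q.K T ω)} ≤ _ := h1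
    _ ≤ (∑' η : Tor d q.M → ℕ, prw (m.m1 q.K) η *
        EvE q.w (T * q.N1) (fun l => if F (envT q η l) then 1 else 0) +
          (q.M : ℝ≥0∞) ^ d * ∑' k, (m.mu k - m.m1 q.K k)) + ENNReal.ofReal ε := by
        gcongr
        exact h2.trans h3
    _ = _ := by
        unfold Par.PP Par.EE tv1
        ring

end

end ZQ.Rows
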