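import Pool.Agent.ZP.Proj
import Pool.Agent.ZQ.Dec
import Pool.Agent.ZI.Dec

/-! # The projection to the system without recovery -/

set_option autoImplicit false

open scoped ENNReal BigOperators Classical

noncomputable section

namespace ZQ

open ZP ZQ

variable [Thr]

variable {d : ℕ} {V : Type}

/-- the environment without the recovery labels -/
def Env.toZI (E : Env d) : ZI.Env d where
  V := E.V
  nb := E.nb
  pr := E.pr
  η0 := E.η0
  U := fun t => (E.U t).filterMap pjL

/-- no recovery label at a site of the region `G` rings during `(s, t]` -/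
def Env.NoRec (E : Env d) (G : Set (Pos d)) (s t : ℕ) : Prop :=
  ∀ t', s ≤ t' → t' < t → ∀ l ∈ E.U t', l.2.1 = 0 → ∀ z ∈ G, E.pr z ≠ l.1

end ZQ
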