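import Pool.Agent.ZP.PJ
import Pool.Agent.ZQ.Proj

/-! # PJ: the projection to the system without recovery -/

set_option autoImplicit false

open scoped ENNReal BigOperators Classical Pointwise
open MeasureTheory

noncomputable section

namespace ZQ.Rows

open ZP hiding AgreeW Base BlockFacts Env EqEnv PastEv QT envT inf infMv pe stepI stepR visU
open ZP.Rows hiding R_of_noRec R_toZI cfg_toZI envT_toZI foldl_stepR_noRec foldl_stepR_toZI inf_noRec inf_toZI occ_toZI visU_noRec visU_toZI vis_of_noRec vis_toZI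

variable [ZQ.Thr]

open ZP hiding AgreeW Base BlockFacts Env EqEnv PastEv QT envT inf infMv pe stepI stepR visU
open ZQ

variable {d : ℕ} {V : Type}

/-! ### lists of labels -/

theorem foldl_stepR_toZI (nb : V → Dir d → Option V) (pr : Pos d → V) (G : Set (Pos d))
    (L : List (Lab V d)) : ∀ (η : V → ℕ) (A A' : Set (Pos d)), A ⊆ A' →
    (L.foldl (stepR nb pr G) (η, A)).1 = ((L.filterMap pjL).foldl (ZI.stepR nb pr G) (η, A')).1 ∧
    (L.foldl (stepR nb pr G) (η, A)).2 ⊆ ((L.filterMap pjL).foldl (ZI.stepR nb pr G) (η, A')).2 := by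
  induction L with
  | nil => intro η A A' h; exact ⟨rfl, h⟩
  | cons l L ih =>
    intro η A A' h
    obtain ⟨x, k, e⟩ := l
    cases k with
    | zero =>
      refine ih η (infMv nb pr η A (x, 0, e) ∩ G) A' ?_
      rintro z ⟨hz, -⟩
      exact h hz.1
    | succ k =>
      refine ih (ZI.mv nb η (x, k, e)) (infMv nb pr η A (x, k + 1, e) ∩ G)
        (ZI.infMv nb pr η A' (x, k, e) ∩ G) ?_
      rintro z ⟨⟨hz, -⟩, hz'⟩
      exact ⟨infMv_mono h _ hz, hz'⟩

section PJ

variable (E : Env d)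

theorem cfg_toZI (t : ℕ) : cfg E.nb E.η0 E.U t = ZI.cfg E.toZI.nb E.toZI.η0 E.toZI.U t := by
  induction t with
  | zero => rfl
  | succ t ih =>
    change (E.U t).foldl (mv E.nb) (cfg E.nb E.η0 E.U t) =
      ((E.U t).filterMap pjL).foldl (ZI.mv E.nb) (ZI.cfg E.toZI.nb E.toZI.η0 E.toZI.U t)
    rw [ih]
    exact foldl_mv_toZI E.nb (E.U t) _

theorem occ_toZI (t : ℕ) (x : Pos d) (h : E.occ t x) : E.toZI.occ t x := by
  unfold Env.occ at h
  rw [cfg_toZI] at h
  exact lt_of_lt_of_le Thr.pos h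

/-- the infected set is smaller than without recovery -/
theorem inf_toZI (G : ℕ → Set (Pos d)) (s : ℕ) (A : Set (Pos d)) (j : ℕ) :
    inf E.nb E.pr E.η0 E.U G s A j ⊆ ZI.inf E.toZI.nb E.toZI.pr E.toZI.η0 E.toZI.U G s A j := by
  induction j with
  | zero =>
    rintro z ⟨h1, h2, h3⟩
    refine ⟨h1, h2, ?_⟩
    rw [cfg_toZI] at h3
    exact lt_of_lt_of_le Thr.pos h3
  | succ j ih =>
    have h := (foldl_stepR_toZI E.nb E.pr (G (s + j)) (E.U (s + j)) (cfg E.nb E.η0 E.U (s + j))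
      (inf E.nb E.pr E.η0 E.U G s A j ∩ G (s + j))
      (ZI.inf E.toZI.nb E.toZI.pr E.toZI.η0 E.toZI.U G s A j ∩ G (s + j))
      (Set.inter_subset_inter_left _ ih)).2
    rw [cfg_toZI] at h
    change ((E.U (s + j)).foldl (stepR E.nb E.pr (G (s + j)))
      (cfg E.nb E.η0 E.U (s + j), inf E.nb E.pr E.η0 E.U G s A j ∩ G (s + j))).2 ⊆ _
    rw [cfg_toZI]
    exact h

theorem visU_toZI (G : ℕ → Set (Pos d)) (s : ℕ) (A : Set (Pos d)) (j : ℕ) :
    visU E.nb E.pr E.η0 E.U G s A j ⊆ ZI.visU E.toZI.nb E.toZI.pr E.toZI.η0 E.toZI.U G s A j := by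
  rintro z ⟨i, hi, hz⟩
  obtain ⟨i', hi', h'⟩ := filterMap_take_prefix pjL (E.U (s + j)) i
  refine ⟨i', hi', ?_⟩
  have h := (foldl_stepR_toZI E.nb E.pr (G (s + j)) ((E.U (s + j)).take i) (cfg E.nb E.η0 E.U (s + j))
      (inf E.nb E.pr E.η0 E.U G s A j ∩ G (s + j))
      (ZI.inf E.toZI.nb E.toZI.pr E.toZI.η0 E.toZI.U G s A j ∩ G (s + j))
      (Set.inter_subset_inter_left _ (inf_toZI E G s A j))).2 hz
  rw [cfg_toZI, h'] at h
  exact h

/-- recovery makes the infection smaller -/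
theorem R_toZI {G : ℕ → Set (Pos d)} {s t : ℕ} {x y : Pos d} (h : E.R G s x t y) :
    E.toZI.R G s x t y := by
  obtain ⟨j, hj, h⟩ := h
  exact ⟨j, hj, inf_toZI E G s {x} j h⟩

theorem vis_toZI {G : ℕ → Set (Pos d)} {s t : ℕ} {x y : Pos d} (h : E.vis G s x t y) :
    E.toZI.vis G s x t y := by
  obtain ⟨j, hj, h⟩ := h
  exact ⟨j, hj, visU_toZI E G s {x} j h⟩

variable {m : Model} {δ : ℝ} (q : Par d m δ)

theorem envT_toZI (η : Tor d q.M → ℕ) (l : List (Let d q.M (q.K + 1))) :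
    (envT q η l).toZI = ZI.envT q.toZI η (l.map prj) := by
  have h : (fun t => (units q.N1 l t).filterMap pjL) = units q.N1 (l.map prj) := by
    funext t
    exact units_prj q.N1 l t
  exact congrArg (fun U => (ZI.Env.mk (Tor d q.M) nbT tv η U : ZI.Env d)) h

/-! ### the law of the letters -/

end PJ

end ZQ.Rows
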