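import Pool.Agent.ZP.F1a
import Pool.Agent.ZQ.ProcE
import Pool.Agent.ZQ.E1
import Pool.Agent.ZQ.PJ
import Pool.Agent.ZQ.P2b
import Pool.Agent.ZI.F1a

/-! # Row F1a (with recovery): fields of the abstract system that concern one torus; port of ZI/F1a -/

set_option autoImplicit false

open scoped ENNReal BigOperators Classical Pointwise
open MeasureTheory

noncomputable section

namespace ZQ.F1a

open ZP hiding Agree AgreeW Base BlockFacts EK Env EqEnv GoodK Iset PastEv QK QT Surv Sys capE conf envB envC envT inf infMv infd kill pe st stepI stepR visU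
open ZP.F1a hiding R_shift core inf_eq law_tsum

variable [ZQ.Thr]

open ZP hiding Agree AgreeW Base BlockFacts EK Env EqEnv GoodK Iset PastEv QK QT Surv Sys capE conf envB envC envT inf infMv infd kill pe st stepI stepR visU
open ZP.Rows hiding R_of_noRec R_toZI cfg_toZI envT_toZI foldl_stepR_noRec foldl_stepR_toZI inf_noRec inf_toZI nullMeas occ_toZI pe_path sys_chain_of sys_good sys_shift sys_tsumQ transfer visU_noRec visU_toZI vis_of_noRec vis_toZI
open ZQ.Rows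
open ZQ
open ZI (EvE_const EvE_mul EvE_tsum EvE_append EvE_congr PrE_compl)
open ZI.F1a (growth_fact exp_lin scale_facts rr_large g_large)
open ZI.Rows (tv1_le)

variable {d : ℕ} {m : Model} {δ : ℝ}

/-! ### probabilities of the torus chain -/

section PPx

variable (q : Par d m δ)

end PPx

/-! ### the core -/

section PL

variable {Ω : Type} [MeasurableSpace Ω] {P : Measure Ω}

theorem core [IsProbabilityMeasure P] (hd : 0 < d) (hδ : 0 ≤ δ) (C : Clocks m δ d P) (A : ℕ) (hA : 1 ≤ A) :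
    ∃ k0 : ℕ, ∀ k ≥ k0, ∃ q : Par d m δ, q.M = (2 ^ k) ^ 4 ∧ q.Tiny (2 ^ k) ∧ ∃ ε : ℝ≥0∞,
      (((2 ^ k) ^ 2 + 1 : ℕ) : ℝ≥0∞) * ε ≤ ENNReal.ofReal (Real.exp (- Real.sqrt (rr A k)) / 2) ∧
      (∀ F : Env d → Prop, P {ω | F (EK C k ω)} ≤
        q.PP ((2 ^ k) ^ 2 * q.N1) (fun η l => F (envT q η l)) + ε) ∧
      (∀ F : Env d → Prop, q.PP ((2 ^ k) ^ 2 * q.N1) (fun η l => F (envT q η l)) ≤
        P {ω | F (EK C k ω)} + ε) := by
  obtain ⟨Ct, hCt⟩ := tv1_le m
  obtain ⟨n1, hn1⟩ := g_large m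
  obtain ⟨n2, hn2⟩ := growth_fact (Ct : ℝ) (4 * d + 3)
  obtain ⟨k0, hk0⟩ := rr_large A (n1 + n2 + 2) hA
  refine ⟨k0, fun k hk => ?_⟩
  obtain ⟨-, -, hn⟩ := hk0 k hk
  obtain ⟨-, -, hrn, -⟩ := scale_facts A k hA
  have hEK : ∀ ω, EK C k ω = envC C ((2 ^ k) ^ 4) (2 ^ k) ((2 ^ k) ^ 2) ω := fun ω => rfl
  generalize 2 ^ k = n at hn hrn hEK ⊢
  have hnpos : (2 : ℝ) ≤ n := by exact_mod_cast (by omega : 2 ≤ n)
  set x : ℝ := Real.exp (- Real.sqrt n) with hx
  have hxpos : 0 < x := Real.exp_pos _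
  have hxr : x ≤ Real.exp (- Real.sqrt (rr A k)) := by
    refine Real.exp_le_exp.2 (neg_le_neg (Real.sqrt_le_sqrt ?_))
    exact_mod_cast hrn
  set η0 : ℝ := x / (4 * ((n : ℝ) ^ 2 + 1)) with hη0
  have hη0pos : 0 < η0 := by positivity
  have hg0 : 0 ≤ m.g n := by
    have h1 := hn1 n (by omega)
    have h2 := m.φ_pos
    linarith
  set p0 : ℝ := Real.exp (-(n : ℝ)) / (((n : ℝ) ^ 4) ^ (2 * d) * (m.g n + δ + 1) ^ 2) with hp0
  have hden : 0 < ((n : ℝ) ^ 4) ^ (2 * d) * (m.g n + δ + 1) ^ 2 := by positivity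
  have hp0pos : 0 < p0 := by positivity
  obtain ⟨q, hqM, hqK, hqp, hq⟩ := transfer hd hδ C (n ^ 4) n (n ^ 2)
    (by calc 5 ≤ 2 ^ 4 := by norm_num
          _ ≤ n ^ 4 := Nat.pow_le_pow_left (by omega) 4) (by omega) (hn1 n (by omega)) η0 p0 hη0pos hp0pos
  have hTiny : q.Tiny n := by
    refine ⟨by rw [hqK], ?_⟩
    rw [hqM, hqK]
    push_cast
    calc ((n : ℝ) ^ 4) ^ (2 * d) * (m.g n + δ + 1) ^ 2 * q.p
        ≤ ((n : ℝ) ^ 4) ^ (2 * d) * (m.g n + δ + 1) ^ 2 * p0 :=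
          mul_le_mul_of_nonneg_left hqp hden.le
      _ = Real.exp (-(n : ℝ)) := by rw [hp0, mul_div_cancel₀ _ hden.ne']
  refine ⟨q, hqM, hTiny, ENNReal.ofReal η0 + ((n ^ 4 : ℕ) : ℝ≥0∞) ^ d * tv1 m n, ?_, ?_, ?_⟩
  · have h1 : ((n ^ 4 : ℕ) : ℝ≥0∞) ^ d * tv1 m n ≤
        ENNReal.ofReal ((n : ℝ) ^ (4 * d) * ((Ct : ℝ) ^ (n + 1) / n.factorial)) := by
      rw [ENNReal.ofReal_mul (by positivity)]
      refine mul_le_mul' (le_of_eq ?_) (hCt n (by omega) (hn1 n (by omega)))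
      rw [ENNReal.ofReal_pow (by positivity), ENNReal.ofReal_natCast, pow_mul]
      push_cast
      rfl
    calc ((n ^ 2 + 1 : ℕ) : ℝ≥0∞) * (ENNReal.ofReal η0 + ((n ^ 4 : ℕ) : ℝ≥0∞) ^ d * tv1 m n)
        ≤ ENNReal.ofReal ((n : ℝ) ^ 2 + 1) * (ENNReal.ofReal η0 +
          ENNReal.ofReal ((n : ℝ) ^ (4 * d) * ((Ct : ℝ) ^ (n + 1) / n.factorial))) := by
            refine mul_le_mul' (le_of_eq ?_) (add_le_add le_rfl h1)
            rw [← ENNReal.ofReal_natCast]
            push_cast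
            rfl
      _ = ENNReal.ofReal (((n : ℝ) ^ 2 + 1) * (η0 +
          (n : ℝ) ^ (4 * d) * ((Ct : ℝ) ^ (n + 1) / n.factorial))) := by
            rw [← ENNReal.ofReal_add hη0pos.le (by positivity), ← ENNReal.ofReal_mul (by positivity)]
      _ ≤ _ := by
            refine ENNReal.ofReal_le_ofReal ?_
            have h2 := hn2 n (by omega)
            have h3 : (n : ℝ) ^ 2 + 1 ≤ (n : ℝ) ^ 3 := by nlinarith
            have h4 : ((n : ℝ) ^ 2 + 1) * ((n : ℝ) ^ (4 * d) * ((Ct : ℝ) ^ (n + 1) / n.factorial)) ≤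
                (n : ℝ) ^ (4 * d + 3) * ((Ct : ℝ) ^ (n + 1) / n.factorial) := by
              rw [pow_add (n : ℝ) (4 * d) 3]
              calc ((n : ℝ) ^ 2 + 1) * ((n : ℝ) ^ (4 * d) * ((Ct : ℝ) ^ (n + 1) / n.factorial))
                  ≤ (n : ℝ) ^ 3 * ((n : ℝ) ^ (4 * d) * ((Ct : ℝ) ^ (n + 1) / n.factorial)) :=
                    mul_le_mul_of_nonneg_right h3 (by positivity)
                _ = _ := by ring
            have h5 : ((n : ℝ) ^ 2 + 1) * η0 = x / 4 := by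
              rw [hη0]
              field_simp
            calc ((n : ℝ) ^ 2 + 1) * (η0 + (n : ℝ) ^ (4 * d) * ((Ct : ℝ) ^ (n + 1) / n.factorial))
                ≤ x / 4 + x / 8 := by rw [mul_add, h5]; linarith
              _ ≤ Real.exp (- Real.sqrt (rr A k)) / 2 := by linarith
  · intro F
    have h1 := hq F
    simp only [hEK]
    rw [← add_assoc]
    exact h1
  · intro F
    have h1 := hq (fun E => ¬ F E)
    have hnm := nullMeas (P := P) hd hδ C (n ^ 4) n (n ^ 2) (Nat.one_le_pow _ _ (by omega)) F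
    have h2 : P {ω | F (EK C k ω)} + P {ω | ¬ F (EK C k ω)} = 1 := by
      simp only [hEK]
      have h3 := measure_add_measure_compl₀ (μ := P) hnm
      rw [measure_univ] at h3
      exact h3
    have h3 := PP_compl q hd (n ^ 2 * q.N1) (fun η l => F (envT q η l))
    have h4 : P {ω | ¬ F (EK C k ω)} ≤ q.PP (n ^ 2 * q.N1) (fun η l => ¬ F (envT q η l)) +
        (ENNReal.ofReal η0 + ((n ^ 4 : ℕ) : ℝ≥0∞) ^ d * tv1 m n) := by
      simp only [hEK]
      rw [← add_assoc]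
      exact h1
    have h5 : q.PP (n ^ 2 * q.N1) (fun η l => ¬ F (envT q η l)) ≠ ⊤ :=
      ne_top_of_le_ne_top ENNReal.one_ne_top (h3 ▸ le_add_self)
    have h6 : q.PP (n ^ 2 * q.N1) (fun η l => F (envT q η l)) +
        q.PP (n ^ 2 * q.N1) (fun η l => ¬ F (envT q η l)) ≤
        (P {ω | F (EK C k ω)} + (ENNReal.ofReal η0 + ((n ^ 4 : ℕ) : ℝ≥0∞) ^ d * tv1 m n)) +
        q.PP (n ^ 2 * q.N1) (fun η l => ¬ F (envT q η l)) := by
      rw [h3, ← h2]
      calc P {ω | F (EK C k ω)} + P {ω | ¬ F (EK C k ω)} ≤ P {ω | F (EK C k ω)} +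
            (q.PP (n ^ 2 * q.N1) (fun η l => ¬ F (envT q η l)) +
            (ENNReal.ofReal η0 + ((n ^ 4 : ℕ) : ℝ≥0∞) ^ d * tv1 m n)) := add_le_add le_rfl h4
        _ = _ := by ring
    exact (ENNReal.add_le_add_iff_right h5).1 h6

theorem law_tsum [IsProbabilityMeasure P] (hd : 0 < d) (hδ : 0 ≤ δ) (C : Clocks m δ d P) (k : ℕ) {Y : Type}
    [Countable Y] (f : Env d → Y) (B : Y → Prop) :
    P {ω | B (f (EK C k ω))} = ∑' y, if B y then P {ω | f (EK C k ω) = y} else 0 := by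
  have h1 : {ω | B (f (EK C k ω))} = ⋃ y, {ω | B y ∧ f (EK C k ω) = y} := by
    ext ω
    simp
  rw [h1, measure_iUnion₀]
  · refine tsum_congr fun y => ?_
    by_cases hy : B y
    · rw [if_pos hy]
      simp only [hy, true_and]
    · rw [if_neg hy]
      simp only [hy, false_and, Set.ofPred_false, measure_empty]
  · intro y y' hyy
    refine Disjoint.aedisjoint ?_
    rw [Set.disjoint_left]
    rintro ω ⟨-, h2⟩ ⟨-, h3⟩
    exact hyy (h2.symm.trans h3)
  · intro y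
    exact nullMeas (P := P) hd hδ C ((2 ^ k) ^ 4) (2 ^ k) ((2 ^ k) ^ 2) (Nat.one_le_pow _ _ (by positivity))
      (fun E => B y ∧ f E = y)

end PL

/-- the infection (constant restriction) at an integer time -/
theorem inf_eq {M K : ℕ} (N1 : ℕ) (η0 : Tor d M → ℕ) (w : List (Let d M K)) (G : Set (Pos d)) (s : ℕ)
    (A : Set (Pos d)) (j : ℕ) :
    (((w.drop (s * N1)).take (j * N1)).foldl (stepI G)
      ((w.take (s * N1)).foldl stepA η0, {z | z ∈ A ∧ z ∈ G ∧ Thr.θ ≤ (w.take (s * N1)).foldl stepA η0 (tv z)}))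
    = ((w.take ((s + j) * N1)).foldl stepA η0, inf nbT tv η0 (units N1 w) (fun _ => G) s A j) := by
  induction j with
  | zero =>
    simp [inf, E1.cfg_eq]
  | succ j ih =>
    rw [Nat.succ_mul, List.take_add, List.foldl_append, ih, inf, E1.cfg_eq, ZI.units, E1.foldl_filterMap]
    rw [List.drop_drop]
    have h1 : s * N1 + j * N1 = (s + j) * N1 := by ring
    rw [h1]
    have hsub : inf nbT tv η0 (units N1 w) (fun _ => G) s A j ⊆ G := by
      have h2 := E1.foldl_stepI_sub G ((w.drop (s * N1)).take (j * N1))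
        ((w.take (s * N1)).foldl stepA η0,
          {z | z ∈ A ∧ z ∈ G ∧ Thr.θ ≤ (w.take (s * N1)).foldl stepA η0 (tv z)}) (fun z hz => hz.2.1)
      rw [ih] at h2
      exact h2
    rw [Set.inter_eq_left.2 hsub]
    refine Prod.ext ?_ rfl
    rw [E1.foldl_stepI_fst]
    show _ = (w.take ((s + (j + 1)) * N1)).foldl stepA η0
    rw [← List.foldl_append]
    congr 1
    rw [← List.take_add]
    congr 1
    ring

/-- shift of the time, deterministic -/
theorem R_shift (q : Par d m δ) (η : Tor d q.M → ℕ) (l : List (Let d q.M (q.K + 1))) (s T t : ℕ) (ht : t ≤ T)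
    (x : Pos d) : (envT q η l).R (fun _ => Set.univ) s 0 (s + t) x ↔
      (envT q ((l.take (s * q.N1)).foldl stepA η) ((l.drop (s * q.N1)).take (T * q.N1))).R
        (fun _ => Set.univ) 0 0 t x := by
  have h1 := inf_eq q.N1 η l Set.univ s {(0 : Pos d)} t
  have h2 := inf_eq q.N1 ((l.take (s * q.N1)).foldl stepA η)
    ((l.drop (s * q.N1)).take (T * q.N1)) Set.univ 0 {(0 : Pos d)} t
  have h3 : ((l.drop (s * q.N1)).take (T * q.N1)).take (t * q.N1) =
      (l.drop (s * q.N1)).take (t * q.N1) := by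
    rw [List.take_take, min_eq_left (Nat.mul_le_mul_right _ ht)]
  rw [Nat.zero_mul, List.drop_zero, List.take_zero, List.foldl_nil, h3] at h2
  have h4 := (Prod.ext_iff.1 (h1.symm.trans h2)).2
  dsimp only at h4
  have e1 : (envT q η l).R (fun _ => Set.univ) s 0 (s + t) x ↔
      x ∈ inf nbT tv η (units q.N1 l) (fun _ => Set.univ) s {0} t := by
    constructor
    · rintro ⟨j, hj, hx⟩
      obtain rfl : t = j := by omega
      exact hx
    · intro hx
      exact ⟨t, rfl, hx⟩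
  have e2 : (envT q ((l.take (s * q.N1)).foldl stepA η) ((l.drop (s * q.N1)).take (T * q.N1))).R
        (fun _ => Set.univ) 0 0 t x ↔
      x ∈ inf nbT tv ((l.take (s * q.N1)).foldl stepA η)
        (units q.N1 ((l.drop (s * q.N1)).take (T * q.N1))) (fun _ => Set.univ) 0 {0} t := by
    constructor
    · rintro ⟨j, hj, hx⟩
      obtain rfl : t = j := by omega
      exact hx
    · intro hx
      exact ⟨t, by omega, hx⟩
  rw [e1, e2, h4]


end ZQ.F1a

namespace ZQ.Rows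

open ZP hiding Agree AgreeW Base BlockFacts EK Env EqEnv GoodK Iset PastEv QK QT Surv Sys capE conf envB envC envT inf infMv infd kill pe st stepI stepR visU
open ZP.Rows hiding R_of_noRec R_toZI cfg_toZI envT_toZI foldl_stepR_noRec foldl_stepR_toZI inf_noRec inf_toZI nullMeas occ_toZI pe_path sys_chain_of sys_good sys_shift sys_tsumQ transfer visU_noRec visU_toZI vis_of_noRec vis_toZI

variable [ZQ.Thr]

open ZP hiding Agree AgreeW Base BlockFacts EK Env EqEnv GoodK Iset PastEv QK QT Surv Sys capE conf envB envC envT inf infMv infd kill pe st stepI stepR visU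
open ZP.F1a hiding R_shift core inf_eq law_tsum
open ZQ.F1a
open ZQ
open ZI.F1a (growth_fact exp_lin scale_facts rr_large g_large)
open ZI.Rows (prodQ_tv)

variable {d : ℕ} {m : Model} {δ : ℝ} {Ω : Type} [MeasurableSpace Ω] {P : Measure Ω}

theorem sys_good [IsProbabilityMeasure P] (hδ : 0 ≤ δ) (C : Clocks m δ d P) {Cv a A r0 : ℕ} {c : ℝ}
    (hB : Base m δ d Cv a A r0 c) : ∃ k0 : ℕ, ∀ k ≥ k0,
    P {ω | ¬ GoodK a A Cv k (EK C k ω)} ≤ err (rr A k) := by
  have hA : 1 ≤ A := by have := hB.A_big; have := hB.a_big; omega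
  obtain ⟨k1, hk1⟩ := core hB.d_pos hδ C A hA
  obtain ⟨r1, hr1⟩ := exp_lin c hB.c_pos
  obtain ⟨k2, hk2⟩ := rr_large A (r0 + r1) hA
  refine ⟨max k1 k2, fun k hk => ?_⟩
  obtain ⟨q, hqM, hqT, ε, hε, hq, -⟩ := hk1 k (le_of_max_le_left hk)
  obtain ⟨hr, -, -⟩ := hk2 k (le_of_max_le_right hk)
  obtain ⟨hs1, hs2, hs3, hs4⟩ := scale_facts A k hA
  have h1 := hq (fun E => ¬ GoodK a A Cv k E)
  have h2 := hB.good (rr A k) (by omega) (2 ^ k) hs1 hs2 q hqM hqT
  have h3 := hr1 (rr A k) (by omega)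
  refine le_trans h1 ?_
  have h4 : ε ≤ ENNReal.ofReal (Real.exp (- Real.sqrt (rr A k)) / 2) := by
    refine le_trans ?_ hε
    calc ε = 1 * ε := (one_mul _).symm
      _ ≤ _ := by
        gcongr
        exact_mod_cast (by omega : 1 ≤ (2 ^ k) ^ 2 + 1)
  calc q.PP ((2 ^ k) ^ 2 * q.N1) (fun η l => ¬ GoodK a A Cv k (envT q η l)) + ε
      ≤ ENNReal.ofReal (Real.exp (- Real.sqrt (rr A k)) / 2) +
        ENNReal.ofReal (Real.exp (- Real.sqrt (rr A k)) / 2) :=
        add_le_add (le_trans h2 (ENNReal.ofReal_le_ofReal h3)) h4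
    _ = err (rr A k) := by
      rw [← ENNReal.ofReal_add (by positivity) (by positivity), add_halves]
      rfl

theorem sys_tsumQ [IsProbabilityMeasure P] (hd : 0 < d) (hδ : 0 ≤ δ) (C : Clocks m δ d P) (a A k : ℕ)
    (u : Fin d → ℝ) (m' : ℕ) : ∑' y, QK P (EK C) a A k u m' y = 1 := by
  have h1 := law_tsum (P := P) hd hδ C k (fun E => E.blk (PK d a A k) u m' 0 (kp a A k)) (fun _ => True)
  simp only [if_true, Set.ofPred_true, measure_univ] at h1
  exact h1.symm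

/-- `sys_chain`, from the statement of row E6 -/
theorem sys_chain_of [IsProbabilityMeasure P] (hδ : 0 ≤ δ) (C : Clocks m δ d P) {Cv a A r0 : ℕ} {c : ℝ}
    (hB : Base m δ d Cv a A r0 c)
    (hchain : ∃ r1 ≥ r0, ∀ r ≥ r1,
      ∀ n : ℕ, r ^ A ≤ n → n ≤ (2 * r) ^ A → ∀ q : Par d m δ, q.M = n ^ 4 → q.Tiny n →
      ∀ (u : Fin d → ℝ), ∑ j, u j ^ 2 = 1 → ∀ ms : List ℕ, (∀ m' ∈ ms, r ^ (7 * a) ≤ m') →
      ms.sum ≤ r * n → ∀ (z : Pos d) (s : ℕ), r ^ a ≤ s → 2 * s ≤ n ^ 2 → ∀ G : List (ℕ × Pos d) → Prop,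
      2 * q.PP (n ^ 2 * q.N1) (fun η l => G ((envT q η l).chain (bp d a r n) u ms z s)) ≤
        2 * prodQ (QT q (bp d a r n) u n) ms G + err r) : ∃ k0 : ℕ, ∀ k ≥ k0,
    ∀ u : Fin d → ℝ, ∑ j, u j ^ 2 = 1 → ∀ ms : List ℕ,
    (∀ m' ∈ ms, rr A k ^ (7 * a) ≤ m') → ms.sum ≤ rr A k * 2 ^ k → ∀ (z : Pos d) (s : ℕ),
    kp a A k ≤ s → 2 * s ≤ (2 ^ k) ^ 2 → ∀ G : List (ℕ × Pos d) → Prop,
    P {ω | G ((EK C k ω).chain (PK d a A k) u ms z s)} ≤
      prodQ (QK P (EK C) a A k u) ms G + err (rr A k) := by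
  have hA : 1 ≤ A := by have := hB.A_big; have := hB.a_big; omega
  obtain ⟨k1, hk1⟩ := core hB.d_pos hδ C A hA
  obtain ⟨r1, -, hr1⟩ := hchain
  obtain ⟨k2, hk2⟩ := rr_large A r1 hA
  refine ⟨max k1 k2, fun k hk u hu ms hms hsum z s hs0 hs G => ?_⟩
  obtain ⟨q, hqM, hqT, ε, hε, hq, hq'⟩ := hk1 k (le_of_max_le_left hk)
  obtain ⟨hr, -, -⟩ := hk2 k (le_of_max_le_right hk)
  obtain ⟨hs1, hs2, hs3, hs4⟩ := scale_facts A k hA
  have h1 := hq (fun E => G (E.chain (PK d a A k) u ms z s))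
  have h2 := hr1 (rr A k) hr (2 ^ k) hs1 hs2 q hqM hqT u hu ms hms hsum z s hs0 hs G
  have h3 := prodQ_tv (QT q (bp d a (rr A k) (2 ^ k)) u (2 ^ k)) (QK P (EK C) a A k u)
    (fun m' => by
      have h4 := PP_tsum q ((2 ^ k) ^ 2 * q.N1)
        (fun η l => (envT q η l).blk (bp d a (rr A k) (2 ^ k)) u m' 0 (kp a A k)) (fun _ => True)
      rw [PP_true q hB.d_pos] at h4
      simp only [if_true] at h4
      exact h4.symm)
    (fun m' => sys_tsumQ hB.d_pos hδ C a A k u m') ε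
    (fun m' B => by
      have h4 := PP_tsum q ((2 ^ k) ^ 2 * q.N1)
        (fun η l => (envT q η l).blk (bp d a (rr A k) (2 ^ k)) u m' 0 (kp a A k)) B
      have h5 := law_tsum (P := P) hB.d_pos hδ C k (fun E => E.blk (PK d a A k) u m' 0 (kp a A k)) B
      have h6 := hq' (fun E => B (E.blk (PK d a A k) u m' 0 (kp a A k)))
      exact (h4.symm.trans_le h6).trans (add_le_add (le_of_eq h5) le_rfl)) ms G
  have hlen : ms.length ≤ (2 ^ k) ^ 2 := by
    have h4 : ∀ l : List ℕ, (∀ m' ∈ l, 1 ≤ m') → l.length ≤ l.sum := by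
      intro l
      induction l with
      | nil => intro _; simp
      | cons b l ih =>
        intro h
        have h5 := ih (fun x hx => h x (List.mem_cons_of_mem _ hx))
        have h6 := h b List.mem_cons_self
        simp only [List.length_cons, List.sum_cons]
        omega
    have h5 := h4 ms (fun m' hm' => le_trans (Nat.one_le_pow _ _ (by omega)) (hms m' hm'))
    calc ms.length ≤ ms.sum := h5
      _ ≤ rr A k * 2 ^ k := hsum
      _ ≤ 2 ^ k * 2 ^ k := Nat.mul_le_mul_right _ hs3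
      _ = (2 ^ k) ^ 2 := by ring
  have h7 : (ms.length : ℝ≥0∞) * ε + ε ≤ ENNReal.ofReal (Real.exp (- Real.sqrt (rr A k)) / 2) := by
    refine le_trans ?_ hε
    calc (ms.length : ℝ≥0∞) * ε + ε = ((ms.length + 1 : ℕ) : ℝ≥0∞) * ε := by push_cast; ring
      _ ≤ _ := by
        gcongr
  have h8 : 2 * ENNReal.ofReal (Real.exp (- Real.sqrt (rr A k)) / 2) = err (rr A k) := by
    rw [two_mul, ← ENNReal.ofReal_add (by positivity) (by positivity), add_halves]
    rfl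
  have h9 : 2 * P {ω | G ((EK C k ω).chain (PK d a A k) u ms z s)} ≤
      2 * (prodQ (QK P (EK C) a A k u) ms G + err (rr A k)) := by
    calc 2 * P {ω | G ((EK C k ω).chain (PK d a A k) u ms z s)}
        ≤ 2 * (q.PP ((2 ^ k) ^ 2 * q.N1)
          (fun η l => G ((envT q η l).chain (PK d a A k) u ms z s)) + ε) := by gcongr
      _ = 2 * q.PP ((2 ^ k) ^ 2 * q.N1)
          (fun η l => G ((envT q η l).chain (PK d a A k) u ms z s)) + 2 * ε := by ring
      _ ≤ (2 * prodQ (QT q (bp d a (rr A k) (2 ^ k)) u (2 ^ k)) ms G + err (rr A k)) + 2 * ε := by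
          gcongr
          exact h2
      _ ≤ (2 * (prodQ (QK P (EK C) a A k u) ms G + ms.length * ε) + err (rr A k)) + 2 * ε := by
          gcongr
      _ = 2 * prodQ (QK P (EK C) a A k u) ms G + err (rr A k) +
          2 * ((ms.length : ℝ≥0∞) * ε + ε) := by ring
      _ ≤ 2 * prodQ (QK P (EK C) a A k u) ms G + err (rr A k) +
          2 * ENNReal.ofReal (Real.exp (- Real.sqrt (rr A k)) / 2) := by gcongr
      _ = 2 * (prodQ (QK P (EK C) a A k u) ms G + err (rr A k)) := by rw [h8]; ring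
  exact (ENNReal.mul_le_mul_iff_right (by norm_num) (by norm_num)).1 h9

theorem sys_shift [IsProbabilityMeasure P] (hd : 0 < d) (hδ : 0 ≤ δ) (C : Clocks m δ d P) (A : ℕ) (hA : 1 ≤ A) :
    ∃ k0 : ℕ, ∀ k ≥ k0, ∀ s0 T : ℕ, s0 + T ≤ (2 ^ k) ^ 2 → ∀ H : (ℕ → Set (Pos d)) → Prop,
    P {ω | H (fun t => {x | t ≤ T ∧ (EK C k ω).R (fun _ => Set.univ) 0 0 t x})} ≤
      P {ω | H (fun t => {x | t ≤ T ∧ (EK C k ω).R (fun _ => Set.univ) s0 0 (s0 + t) x})} +
        err (rr A k) := by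
  obtain ⟨k1, hk1⟩ := core hd hδ C A hA
  refine ⟨k1, fun k hk s0 T hT H => ?_⟩
  obtain ⟨q, hqM, hqT, ε, hε, hq, hq'⟩ := hk1 k hk
  have h1 := hq (fun E => H (fun t => {x | t ≤ T ∧ E.R (fun _ => Set.univ) 0 0 t x}))
  have h2 := hq' (fun E => H (fun t => {x | t ≤ T ∧ E.R (fun _ => Set.univ) s0 0 (s0 + t) x}))
  have key : ∀ s : ℕ, s + T ≤ (2 ^ k) ^ 2 → q.PP ((2 ^ k) ^ 2 * q.N1)
      (fun η l => H (fun t => {x | t ≤ T ∧ (envT q η l).R (fun _ => Set.univ) s 0 (s + t) x})) =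
      q.PP (T * q.N1)
        (fun η l => H (fun t => {x | t ≤ T ∧ (envT q η l).R (fun _ => Set.univ) 0 0 t x})) := by
    intro s hs
    rw [← PP_shift q hd ((2 ^ k) ^ 2) s T hs]
    congr 1
    funext η l
    congr 1
    funext t
    ext x
    simp only [Set.mem_ofPred_eq]
    constructor
    · rintro ⟨ht, hx⟩
      exact ⟨ht, (R_shift q η l s T t ht x).1 hx⟩
    · rintro ⟨ht, hx⟩
      exact ⟨ht, (R_shift q η l s T t ht x).2 hx⟩
  have h3 := key 0 (by omega)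
  have h4 := key s0 hT
  simp only [Nat.zero_add] at h3
  rw [← h4] at h3
  have h5 : ε + ε ≤ err (rr A k) := by
    have h6 : (ε + ε : ℝ≥0∞) ≤ (((2 ^ k) ^ 2 + 1 : ℕ) : ℝ≥0∞) * ε := by
      rw [← two_mul]
      gcongr
      have : 1 ≤ (2 ^ k) ^ 2 := Nat.one_le_pow _ _ (by positivity)
      exact_mod_cast (by omega : 2 ≤ (2 ^ k) ^ 2 + 1)
    refine le_trans h6 (le_trans hε ?_)
    unfold err
    refine ENNReal.ofReal_le_ofReal ?_
    have := Real.exp_pos (- Real.sqrt (rr A k))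
    linarith
  calc P {ω | H (fun t => {x | t ≤ T ∧ (EK C k ω).R (fun _ => Set.univ) 0 0 t x})}
      ≤ q.PP ((2 ^ k) ^ 2 * q.N1) (fun η l => H (fun t =>
          {x | t ≤ T ∧ (envT q η l).R (fun _ => Set.univ) 0 0 t x})) + ε := h1
    _ = q.PP ((2 ^ k) ^ 2 * q.N1) (fun η l => H (fun t =>
          {x | t ≤ T ∧ (envT q η l).R (fun _ => Set.univ) s0 0 (s0 + t) x})) + ε := by rw [h3]
    _ ≤ (P {ω | H (fun t => {x | t ≤ T ∧
          (EK C k ω).R (fun _ => Set.univ) s0 0 (s0 + t) x})} + ε) + ε := by gcongr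
    _ ≤ _ := by
      rw [add_assoc]
      gcongr

end ZQ.Rows
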