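import Pool.Agent.ZP.CK
import Pool.Agent.ZQ.ProcE
import Pool.Agent.ZQ.PJ
import Pool.Agent.ZQ.E1
import Pool.Agent.ZI.CK

/-! # Row CK: the level cap (with recovery); port of ZI/CK -/

set_option autoImplicit false

open scoped ENNReal BigOperators Classical

noncomputable section

namespace ZQ.CK

open ZP hiding Agree AgreeW Base BlockFacts EK Env EqEnv GoodK Iset PastEv QK QT Surv Sys capE conf envB envC envT inf infMv infd kill pe st stepI stepR visU
open ZP.CK hiding det eqEnv_cap filter_stepR filter_visL stepR_neff sub_visL visL visL_cons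

variable [ZQ.Thr]

open ZP hiding Agree AgreeW Base BlockFacts EK Env EqEnv GoodK Iset PastEv QK QT Surv Sys capE conf envB envC envT inf infMv infd kill pe st stepI stepR visU
open ZQ

variable {d : ℕ}

/-! ### labels that are dropped and never effective -/

section general

variable {V : Type}

theorem stepR_neff (nb : V → Dir d → Option V) (pr : Pos d → V) (G : Set (Pos d))
    (s : (V → ℕ) × Set (Pos d)) (hs : s.2 ⊆ G) (b : Lab V d) (h : NE s.1 b) :
    stepR nb pr G s b = s := by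
  obtain ⟨x, j, e⟩ := b
  obtain ⟨k, hk, h⟩ := h
  change j = k + 1 at hk
  subst hk
  have hk' : ¬ k < s.1 x := h
  have h0 : ZI.mv nb s.1 (x, k, e) = s.1 :=
    congrArg Prod.fst (ZI.CK.stepR_neff nb pr G s hs (x, k, e) h)
  refine Prod.ext h0 ?_
  show infMv nb pr s.1 s.2 (x, k + 1, e) ∩ G = s.2
  have h2 : infMv nb pr s.1 s.2 (x, k + 1, e) = s.2 := by
    ext z
    show (z ∈ ZI.infMv nb pr s.1 s.2 (x, k, e) ∧
        (k < s.1 x → (z ∈ s.2 ∧ pr z ≠ x) ∨ Thr.θ ≤ ZI.mv nb s.1 (x, k, e) (pr z))) ↔ z ∈ s.2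
    unfold ZI.infMv
    rw [if_neg hk']
    exact ⟨fun h => h.1, fun h => ⟨h, fun h' => absurd h' hk'⟩⟩
  rw [h2]
  exact Set.inter_eq_left.2 hs

theorem filter_stepR (nb : V → Dir d → Option V) (pr : Pos d → V) (Q : Lab V d → Bool)
    (G : Set (Pos d)) (L : List (Lab V d)) :
    ∀ s : (V → ℕ) × Set (Pos d), s.2 ⊆ G → OKL nb Q s.1 L →
      (L.filter Q).foldl (stepR nb pr G) s = L.foldl (stepR nb pr G) s := by
  induction L with
  | nil => exact fun _ _ _ => rfl
  | cons b L ih =>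
    intro s hs h
    by_cases hb : Q b = true
    · rw [List.filter_cons_of_pos hb, List.foldl_cons, List.foldl_cons]
      exact ih _ Set.inter_subset_right h.2
    · rw [List.filter_cons_of_neg hb, List.foldl_cons]
      rw [stepR_neff nb pr G s hs b (h.1 hb)]
      refine ih _ hs ?_
      have h2 := h.2
      rwa [mv_neff nb s.1 b (h.1 hb)] at h2

/-- the sites visited along a list -/
def visL (nb : V → Dir d → Option V) (pr : Pos d → V) (G : Set (Pos d))
    (s : (V → ℕ) × Set (Pos d)) (L : List (Lab V d)) : Set (Pos d) :=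
  {z | ∃ i ≤ L.length, z ∈ ((L.take i).foldl (stepR nb pr G) s).2}

theorem visL_cons (nb : V → Dir d → Option V) (pr : Pos d → V) (G : Set (Pos d))
    (s : (V → ℕ) × Set (Pos d)) (b : Lab V d) (L : List (Lab V d)) :
    visL nb pr G s (b :: L) = s.2 ∪ visL nb pr G (stepR nb pr G s b) L := by
  unfold visL
  ext z
  simp only [Set.mem_setOf_eq, Set.mem_union]
  constructor
  · rintro ⟨i, hi, hz⟩
    cases i with
    | zero =>
      left
      simpa using hz
    | succ i =>
      right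
      refine ⟨i, by simpa using hi, ?_⟩
      simpa using hz
  · rintro (hz | ⟨i, hi, hz⟩)
    · exact ⟨0, Nat.zero_le _, by simpa using hz⟩
    · exact ⟨i + 1, by simpa using hi, by simpa using hz⟩

theorem sub_visL (nb : V → Dir d → Option V) (pr : Pos d → V) (G : Set (Pos d))
    (s : (V → ℕ) × Set (Pos d)) (L : List (Lab V d)) : s.2 ⊆ visL nb pr G s L := by
  intro z hz
  exact ⟨0, Nat.zero_le _, by simpa using hz⟩

theorem filter_visL (nb : V → Dir d → Option V) (pr : Pos d → V) (Q : Lab V d → Bool)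
    (G : Set (Pos d)) (L : List (Lab V d)) :
    ∀ s : (V → ℕ) × Set (Pos d), s.2 ⊆ G → OKL nb Q s.1 L →
      visL nb pr G s (L.filter Q) = visL nb pr G s L := by
  induction L with
  | nil => exact fun _ _ _ => rfl
  | cons b L ih =>
    intro s hs h
    by_cases hb : Q b = true
    · rw [List.filter_cons_of_pos hb, visL_cons, visL_cons]
      rw [ih _ Set.inter_subset_right h.2]
    · rw [List.filter_cons_of_neg hb, visL_cons]
      rw [stepR_neff nb pr G s hs b (h.1 hb)]
      have h2 := h.2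
      rw [mv_neff nb s.1 b (h.1 hb)] at h2
      rw [ih s hs h2, Set.union_eq_self_of_subset_left (sub_visL nb pr G s L)]

end general

/-- dropping labels that are never effective changes nothing -/
theorem eqEnv_cap (E : Env d) (K : ℕ)
    (h : ∀ t, OKL E.nb (fun b => decide (b.2.1 < K + 1)) (cfg E.nb E.η0 E.U t) (E.U t)) :
    EqEnv E (capE K E) := by
  have hc : ∀ t, cfg E.nb E.η0 (capE K E).U t = cfg E.nb E.η0 E.U t := by
    intro t
    induction t with
    | zero => rfl
    | succ t ih =>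
      show ((E.U t).filter (fun b => decide (b.2.1 < K + 1))).foldl (mv E.nb)
        (cfg E.nb E.η0 (capE K E).U t) = (E.U t).foldl (mv E.nb) (cfg E.nb E.η0 E.U t)
      rw [ih]
      exact filter_mv E.nb (fun b => decide (b.2.1 < K + 1)) (E.U t) _ (h t)
  have hi : ∀ (G : ℕ → Set (Pos d)) (s : ℕ) (A : Set (Pos d)) (j : ℕ),
      inf E.nb E.pr E.η0 (capE K E).U G s A j = inf E.nb E.pr E.η0 E.U G s A j := by
    intro G s A j
    induction j with
    | zero =>
      show {z | z ∈ A ∧ z ∈ G s ∧ Thr.θ ≤ cfg E.nb E.η0 (capE K E).U s (E.pr z)} = _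
      rw [hc s]
      rfl
    | succ j ih =>
      show (((E.U (s + j)).filter (fun b => decide (b.2.1 < K + 1))).foldl
        (stepR E.nb E.pr (G (s + j)))
        (cfg E.nb E.η0 (capE K E).U (s + j), inf E.nb E.pr E.η0 (capE K E).U G s A j ∩ G (s + j))).2 =
        _
      rw [ih, hc]
      exact congrArg Prod.snd (filter_stepR E.nb E.pr (fun b => decide (b.2.1 < K + 1)) (G (s + j))
        (E.U (s + j))
        (cfg E.nb E.η0 E.U (s + j), inf E.nb E.pr E.η0 E.U G s A j ∩ G (s + j))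
        Set.inter_subset_right (h (s + j)))
  refine ⟨fun t x => ?_, fun G s A j => (hi G s A j).symm, fun G s A j => ?_⟩
  · show Thr.θ ≤ cfg E.nb E.η0 E.U t (E.pr x) ↔ Thr.θ ≤ cfg E.nb E.η0 (capE K E).U t (E.pr x)
    rw [hc]
  · show visL E.nb E.pr (G (s + j)) (cfg E.nb E.η0 E.U (s + j),
        inf E.nb E.pr E.η0 E.U G s A j ∩ G (s + j)) (E.U (s + j)) =
      visL E.nb E.pr (G (s + j)) (cfg E.nb E.η0 (capE K E).U (s + j),
        inf E.nb E.pr E.η0 (capE K E).U G s A j ∩ G (s + j))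
        ((E.U (s + j)).filter (fun b => decide (b.2.1 < K + 1)))
    rw [hi, hc]
    exact (filter_visL E.nb E.pr (fun b => decide (b.2.1 < K + 1)) (G (s + j)) (E.U (s + j))
        (cfg E.nb E.η0 E.U (s + j), inf E.nb E.pr E.η0 E.U G s A j ∩ G (s + j))
        Set.inter_subset_right (h (s + j))).symm

/-! ### the killed box is below the torus -/

open ZI.CK (Inv)

/-! ### the bad event -/

variable {m : Model} {δ : ℝ} (q : Par d m δ)

/-- without the bad event nothing changes -/
theorem det (K' : ℕ) (η : Tor d q.M → ℕ) (l : List (Let d q.M (q.K + 1)))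
    (h : ¬ ZI.CK.Bad K' η (l.map prj)) :
    EqEnv (envT q η l) (capE K' (envT q η l)) ∧
      ∀ R : ℕ, 2 * R + 2 ≤ q.M →
        EqEnv (kill R (envT q η l)) (kill R (capE K' (envT q η l))) := by
  have hO := okl_units q K' η l h
  refine ⟨eqEnv_cap _ _ hO, fun R hR => ?_⟩
  have h1 : kill R (capE K' (envT q η l)) = capE K' (kill R (envT q η l)) := by
    unfold kill capE
    congr 1
    funext t
    exact ZI.CK.filterMap_filter_comm R (K' + 1) (units q.N1 l t)
  rw [h1]
  refine eqEnv_cap _ _ fun t => ?_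
  have hM := q.M_ge
  exact kill_OKL (by omega) (by omega) K' η (units q.N1 l) hO t

end ZQ.CK

namespace ZQ.Rows

open ZP hiding Agree AgreeW Base BlockFacts EK Env EqEnv GoodK Iset PastEv QK QT Surv Sys capE conf envB envC envT inf infMv infd kill pe st stepI stepR visU
open ZP.Rows hiding R_of_noRec R_toZI cap_agree cfg_toZI envT_toZI foldl_stepR_noRec foldl_stepR_toZI inf_noRec inf_toZI occ_toZI pe_path visU_noRec visU_toZI vis_of_noRec vis_toZI

variable [ZQ.Thr]

open ZP hiding Agree AgreeW Base BlockFacts EK Env EqEnv GoodK Iset PastEv QK QT Surv Sys capE conf envB envC envT inf infMv infd kill pe st stepI stepR visU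
open ZQ

theorem cap_agree (m : Model) (δ : ℝ) (d : ℕ) (hd : 0 < d) : ∃ C : ℕ, ∀ q : Par d m δ, ∀ K' T : ℕ,
    2 * m.φ ≤ m.g K' →
    q.PP (T * q.N1) (fun η l => ¬ (EqEnv (envT q η l) (capE K' (envT q η l)) ∧
      ∀ R : ℕ, 2 * R + 2 ≤ q.M → EqEnv (kill R (envT q η l)) (kill R (capE K' (envT q η l))))) ≤
      ENNReal.ofReal (T * (q.M : ℝ) ^ d * (C : ℝ) ^ (K' + 1) / K'.factorial) := by
  obtain ⟨C, hC⟩ := exists_nat_ge (max (2 * m.φ) (m.φ / m.Gm))
  refine ⟨C, fun q K' T hK' => ?_⟩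
  have hφ := m.φ_pos
  have hG := m.Gm_pos
  have hp := q.p_pos
  have h1 : q.PP (T * q.N1) (fun η l => ¬ (EqEnv (envT q η l) (capE K' (envT q η l)) ∧
      ∀ R : ℕ, 2 * R + 2 ≤ q.M → EqEnv (kill R (envT q η l)) (kill R (capE K' (envT q η l))))) ≤
      q.PP (T * q.N1) (fun η l => ZI.CK.Bad K' η (l.map prj)) := by
    have key : ∀ (N : ℕ) (F G : (Tor d q.M → ℕ) → List (Let d q.M (q.K + 1)) → Prop),
        (∀ η l, F η l → G η l) → q.PP N F ≤ q.PP N G := by
      intro N F G h
      refine ENNReal.tsum_le_tsum fun η => mul_le_mul_right (ZI.EvE_mono q.w _ fun l _ => ?_) _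
      show (if F η l then (1 : ℝ≥0∞) else 0) ≤ (if G η l then 1 else 0)
      by_cases hF : F η l
      · rw [if_pos hF, if_pos (h η l hF)]
      · rw [if_neg hF]
        exact zero_le
    refine key _ _ _ fun η l h => ?_
    by_contra h3
    exact h (CK.det q K' η l h3)
  refine h1.trans ?_
  rw [PP_prj q hd]
  refine (ZI.CK.PP_bad q.toZI hd K' (T * q.N1)).trans ?_
  refine (mul_le_mul_right (ZI.CK.mean_D q.toZI hd K' hK') _).trans ?_
  show ((T * q.N1 : ℕ) : ℝ≥0∞) * ((q.M : ℝ≥0∞) ^ d * (ENNReal.ofReal q.p *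
      ENNReal.ofReal m.φ * (2 * ENNReal.ofReal ((m.φ / m.Gm) ^ K' / K'.factorial)))) ≤ _
  have h2 : ((T * q.N1 : ℕ) : ℝ≥0∞) * ((q.M : ℝ≥0∞) ^ d * (ENNReal.ofReal q.p *
      ENNReal.ofReal m.φ * (2 * ENNReal.ofReal ((m.φ / m.Gm) ^ K' / K'.factorial)))) =
      ENNReal.ofReal (((T * q.N1 : ℕ) : ℝ) * ((q.M : ℝ) ^ d * (q.p * m.φ *
        (2 * ((m.φ / m.Gm) ^ K' / K'.factorial))))) := by
    rw [ENNReal.ofReal_mul (by positivity), ENNReal.ofReal_natCast,
      ENNReal.ofReal_mul (by positivity), ENNReal.ofReal_pow (by positivity),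
      ENNReal.ofReal_natCast, ENNReal.ofReal_mul (by positivity),
      ENNReal.ofReal_mul (by positivity), ENNReal.ofReal_mul (by positivity),
      ENNReal.ofReal_ofNat]
  rw [h2]
  refine ENNReal.ofReal_le_ofReal ?_
  have h3 : 2 * m.φ ≤ C := (le_max_left _ _).trans hC
  have h4 : m.φ / m.Gm ≤ C := (le_max_right _ _).trans hC
  have h5 := q.p_ub
  have h6 : (m.φ / m.Gm) ^ K' ≤ (C : ℝ) ^ K' := pow_le_pow_left₀ (by positivity) h4 K'
  have hf : (0 : ℝ) < K'.factorial := by positivity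
  push_cast
  calc (T : ℝ) * q.N1 * ((q.M : ℝ) ^ d * (q.p * m.φ * (2 * ((m.φ / m.Gm) ^ K' / K'.factorial))))
      = (q.N1 * q.p) * (T * (q.M : ℝ) ^ d * ((2 * m.φ) * (m.φ / m.Gm) ^ K') / K'.factorial) := by
        ring
    _ ≤ 1 * (T * (q.M : ℝ) ^ d * ((2 * m.φ) * (m.φ / m.Gm) ^ K') / K'.factorial) := by
        exact mul_le_mul_of_nonneg_right h5 (by positivity)
    _ ≤ T * (q.M : ℝ) ^ d * (C : ℝ) ^ (K' + 1) / K'.factorial := by
        rw [one_mul, pow_succ, mul_comm ((C : ℝ) ^ K') C]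
        gcongr

end ZQ.Rows
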