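import Pool.Agent.ZP.LK
import Pool.Agent.ZQ.PJ
import Pool.Agent.ZQ.InfLem
import Pool.Agent.ZQ.ProcE
import Pool.Agent.ZI.LK

/-! # Row LK: the killed box inside the torus chain (with recovery)

The configurations do not see the recovery labels, so the probability estimate is the one of `ZI`.
-/

set_option autoImplicit false

open scoped ENNReal BigOperators Classical

noncomputable section

namespace ZQ.LK

open ZP hiding Agree AgreeW Base BlockFacts EK Env EqEnv GoodK Iset PastEv QK QT Surv Sys capE conf envB envC envT inf infMv infd kill pe st stepI stepR visU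
open ZP.LK hiding Low Same agree_of envT_U fold_same fold_stR fold_stR_fst foldl_stepR_fst_zp infMv_no inf_same kill_U low_fold low_inf low_step same_box stR stR_fst stR_sub vis_letters vis_same

variable [ZQ.Thr]

open ZP hiding Agree AgreeW Base BlockFacts EK Env EqEnv GoodK Iset PastEv QK QT Surv Sys capE conf envB envC envT inf infMv infd kill pe st stepI stepR visU
open ZP.Rows hiding R_of_noRec R_toZI cfg_toZI envT_toZI foldl_stepR_noRec foldl_stepR_toZI inf_noRec inf_toZI kill_R kill_vis killed_agree occ_toZI visU_noRec visU_toZI vis_of_noRec vis_toZI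
open ZQ.Rows
open ZQ
open ZI.LK (supn_le supN_eq supn_add_dv supn_sub_dv tv_add' tv_sub' tv_lft tv_inj lft_tv kf kf_eq OkN
  nbB_eq nbB_some nbT_some Inv ini0)

variable {d : ℕ}

theorem foldl_stepR_fst_zp {V : Type} {nb : V → Dir d → Option V} {pr : Pos d → V} (G : Set (Pos d))
    (l : List (Lab V d)) : ∀ (η : V → ℕ) (A : Set (Pos d)),
    (l.foldl (stepR nb pr G) (η, A)).1 = l.foldl (mv nb) η := by
  induction l with
  | nil => intro η A; rfl
  | cons b l ih => intro η A; exact ih _ _

section gen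

variable {α V W : Type} (f : α → Option (Lab V d)) (nb : V → Dir d → Option V) (pr : Pos d → V)

/-- a letter for the pair (configuration, infected set) -/
def stR (G : Set (Pos d)) (s : (V → ℕ) × Set (Pos d)) (a : α) : (V → ℕ) × Set (Pos d) :=
  match f a with
  | none => s
  | some b => stepR nb pr G s b

theorem fold_stR (G : Set (Pos d)) (L : List α) : ∀ s : (V → ℕ) × Set (Pos d),
    (L.filterMap f).foldl (stepR nb pr G) s = L.foldl (stR f nb pr G) s := by
  induction L with
  | nil => exact fun s => rfl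
  | cons a L ih =>
    intro s
    rw [List.foldl_cons, ← ih, List.filterMap_cons]
    unfold stR
    cases h : f a with
    | none => rfl
    | some l => rfl

theorem fold_stR_fst (G : Set (Pos d)) (L : List α) : ∀ s : (V → ℕ) × Set (Pos d),
    (L.foldl (stR f nb pr G) s).1 = L.foldl (stF f nb) s.1 := by
  intro s
  rw [← fold_stR, ← fold_stF]
  exact foldl_stepR_fst_zp G _ s.1 s.2

theorem vis_letters (G : Set (Pos d)) (L : List α) (s : (V → ℕ) × Set (Pos d)) (z : Pos d) :
    (∃ i ≤ (L.filterMap f).length,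
      z ∈ (((L.filterMap f).take i).foldl (stepR nb pr G) s).2) ↔
    ∃ i ≤ L.length, z ∈ ((L.take i).foldl (stR f nb pr G) s).2 := by
  constructor
  · rintro ⟨i, hi, hz⟩
    obtain ⟨i', hi', htake⟩ := ZI.C5.take_filterMap f L i hi
    rw [htake, fold_stR] at hz
    exact ⟨i', hi', hz⟩
  · rintro ⟨i, hi, hz⟩
    refine ⟨((L.take i).filterMap f).length, ?_, ?_⟩
    · conv_rhs => rw [← List.take_append_drop i L, List.filterMap_append, List.length_append]
      exact Nat.le_add_right _ _
    · have h1 : (L.filterMap f).take ((L.take i).filterMap f).length =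
          (L.take i).filterMap f := by
        conv_lhs => rw [← List.take_append_drop i L, List.filterMap_append]
        rw [List.take_append_drop i L]
        exact List.take_left
      rw [h1, fold_stR]
      exact hz

end gen

section compare

variable {α V W : Type} {f : α → Option (Lab V d)} {nb : V → Dir d → Option V} {pr : Pos d → V}
  {f' : α → Option (Lab W d)} {nb' : W → Dir d → Option W} {pr' : Pos d → W}
  {Γ : Set (Pos d)} {Ok : (V → ℕ) → (W → ℕ) → Prop}

/-- one letter gives the same infected set inside `Γ` if the configurations are related -/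
def Same (f : α → Option (Lab V d)) (nb : V → Dir d → Option V) (pr : Pos d → V)
    (f' : α → Option (Lab W d)) (nb' : W → Dir d → Option W) (pr' : Pos d → W)
    (Γ : Set (Pos d)) (Ok : (V → ℕ) → (W → ℕ) → Prop) : Prop :=
  ∀ η ζ a G A, Ok η ζ → Ok (stF f nb η a) (stF f' nb' ζ a) → G ⊆ Γ → A ⊆ G →
    (stR f nb pr G (η, A) a).2 = (stR f' nb' pr' G (ζ, A) a).2

theorem stR_sub (G : Set (Pos d)) (s : (V → ℕ) × Set (Pos d)) (a : α) (h : s.2 ⊆ G) :
    (stR f nb pr G s a).2 ⊆ G := by
  unfold stR
  cases f a with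
  | none => exact h
  | some b => exact Set.inter_subset_right

theorem stR_fst (G : Set (Pos d)) (s : (V → ℕ) × Set (Pos d)) (a : α) :
    (stR f nb pr G s a).1 = stF f nb s.1 a := by
  unfold stR stF
  cases f a with
  | none => rfl
  | some b => rfl

theorem fold_same (hS : Same f nb pr f' nb' pr' Γ Ok) {G : Set (Pos d)} (hG : G ⊆ Γ)
    (L : List α) : ∀ (η : V → ℕ) (ζ : W → ℕ) (A : Set (Pos d)), A ⊆ G →
      (∀ i, Ok ((L.take i).foldl (stF f nb) η) ((L.take i).foldl (stF f' nb') ζ)) →
      (L.foldl (stR f nb pr G) (η, A)).2 = (L.foldl (stR f' nb' pr' G) (ζ, A)).2 := by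
  induction L with
  | nil => intro η ζ A _ _; rfl
  | cons a L ih =>
    intro η ζ A hA h
    rw [List.foldl_cons, List.foldl_cons]
    have h1 := hS η ζ a G A (h 0) (h 1) hG hA
    have h2 : stR f nb pr G (η, A) a = (stF f nb η a, (stR f' nb' pr' G (ζ, A) a).2) :=
      Prod.ext (stR_fst G (η, A) a) h1
    have h3 : stR f' nb' pr' G (ζ, A) a = (stF f' nb' ζ a, (stR f' nb' pr' G (ζ, A) a).2) :=
      Prod.ext (stR_fst G (ζ, A) a) rfl
    rw [h2, h3]
    refine ih _ _ _ (stR_sub G (ζ, A) a hA) fun i => ?_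
    exact h (i + 1)

variable {N1 : ℕ} {w : List α} {η0 : V → ℕ} {ζ0 : W → ℕ}

theorem inf_same (hS : Same f nb pr f' nb' pr' Γ Ok)
    (hocc : ∀ η ζ, Ok η ζ → ∀ x ∈ Γ, (Thr.θ ≤ η (pr x) ↔ Thr.θ ≤ ζ (pr' x)))
    (h : ∀ i, Ok ((w.take i).foldl (stF f nb) η0) ((w.take i).foldl (stF f' nb') ζ0))
    {G : ℕ → Set (Pos d)} (hG : ∀ t, G t ⊆ Γ) (s : ℕ) (A : Set (Pos d)) (j : ℕ) :
    inf nb pr η0 (un f N1 w) G s A j = inf nb' pr' ζ0 (un f' N1 w) G s A j := by
  induction j with
  | zero =>
    ext z
    simp only [inf, Set.mem_ofPred_eq, cfg_un]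
    constructor
    · rintro ⟨h1, h2, h3⟩
      exact ⟨h1, h2, (hocc _ _ (h _) z (hG s h2)).1 h3⟩
    · rintro ⟨h1, h2, h3⟩
      exact ⟨h1, h2, (hocc _ _ (h _) z (hG s h2)).2 h3⟩
  | succ j ih =>
    rw [inf, inf, ← ih, cfg_un, cfg_un, un, un, fold_stR, fold_stR]
    exact fold_same hS (hG _) _ _ _ _ Set.inter_subset_right (take_ok h (s + j))

theorem vis_same (hS : Same f nb pr f' nb' pr' Γ Ok)
    (hocc : ∀ η ζ, Ok η ζ → ∀ x ∈ Γ, (Thr.θ ≤ η (pr x) ↔ Thr.θ ≤ ζ (pr' x)))
    (h : ∀ i, Ok ((w.take i).foldl (stF f nb) η0) ((w.take i).foldl (stF f' nb') ζ0))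
    {G : ℕ → Set (Pos d)} (hG : ∀ t, G t ⊆ Γ) (s : ℕ) (A : Set (Pos d)) (j : ℕ) :
    visU nb pr η0 (un f N1 w) G s A j = visU nb' pr' ζ0 (un f' N1 w) G s A j := by
  ext z
  unfold visU
  rw [Set.mem_ofPred_eq, Set.mem_ofPred_eq, ← inf_same hS hocc h hG, cfg_un, cfg_un]
  unfold un
  rw [vis_letters, vis_letters]
  refine exists_congr fun i => and_congr_right fun _ => ?_
  rw [fold_same hS (hG _) _ _ _ _ Set.inter_subset_right]
  intro k
  rw [List.take_take]
  exact take_ok h (s + j) _

end compare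

/-! ### the torus and the killed box -/

section box

variable {M K R N : ℕ}

theorem infMv_no {V : Type} {nb : V → Dir d → Option V} {pr : Pos d → V} {η : V → ℕ}
    {A : Set (Pos d)} {l : Lab V d} (h : ∀ z ∈ A, pr z ≠ l.1) : infMv nb pr η A l = A := by
  obtain ⟨v, k, e⟩ := l
  cases k with
  | zero =>
    ext z
    constructor
    · exact fun hz => hz.1
    · exact fun hz => ⟨hz, fun h2 => absurd h2 (h z hz)⟩
  | succ k =>
    have h1 : ZI.infMv nb pr η A (v, k, e) = A := ZI.LK.infMv_no (l := (v, k, e)) h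
    ext z
    constructor
    · intro hz
      have h2 : z ∈ ZI.infMv nb pr η A (v, k, e) := hz.1
      rwa [h1] at h2
    · intro hz
      refine ⟨?_, fun _ => Or.inl ⟨hz, h z hz⟩⟩
      rw [h1]
      exact hz

theorem same_box [NeZero M] (hR : 2 * R + 2 ≤ M) (hN : N + 1 ≤ R) :
    Same (toLab : Let d M K → _) nbT tv (gf R) (nbB R) id {x | supn x ≤ N} (OkN M N) := by
  intro η ζ a G A hok hok2 hG hA
  have hAG : A ∩ G = A := Set.inter_eq_left.2 hA
  have hAN : ∀ z ∈ A, supn z ≤ N := fun z hz => hG (hA hz)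
  unfold stF gf at hok2
  unfold stR gf
  cases h : toLab a with
  | none => rfl
  | some b =>
    obtain ⟨v, k, e⟩ := b
    rw [h, Option.bind_some] at hok2
    rw [Option.bind_some]
    unfold kf at hok2 ⊢
    by_cases hb : supn (lft v) ≤ R
    · rw [if_pos hb] at hok2 ⊢
      have hl : tv (lft v) = v := tv_lft v
      have hz : ∀ z ∈ A, (tv z = v ↔ z = lft v) := by
        intro z hz
        constructor
        · intro h1
          have h2 := lft_tv (M := M) hR (x := z) ((hAN z hz).trans (by omega))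
          rw [← h2, h1]
        · rintro rfl
          exact hl
      show infMv nbT tv η A (v, k, e) ∩ G = infMv (nbB R) id ζ A (lft v, k, e) ∩ G
      have hmv : ∀ z ∈ G, mv (nbB R) ζ (lft v, k, e) z = mv nbT η (v, k, e) (tv z) :=
        fun z hzG => hok2 z (hG hzG)
      by_cases hx : supn (lft v) ≤ N
      · have h1 := hok _ hx
        rw [hl] at h1
        cases k with
        | zero =>
          congr 1
          show {z | z ∈ A ∧ (tv z = v → 2 ≤ η v)} = {z | z ∈ A ∧ (z = lft v → 2 ≤ ζ (lft v))}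
          rw [h1]
          ext z
          exact and_congr_right fun hzA => by rw [hz z hzA]
        | succ k =>
          have hZI : ZI.infMv nbT tv η A (v, k, e) = ZI.infMv (nbB R) id ζ A (lft v, k, e) := ?zi
          · ext z
            constructor
            · rintro ⟨⟨h3, h4⟩, h5⟩
              refine ⟨⟨hZI ▸ h3, fun h6 => ?_⟩, h5⟩
              rcases h4 (show k < η v by rw [← h1]; exact h6) with ⟨h7, h8⟩ | h7
              · exact Or.inl ⟨h7, fun h9 => h8 ((hz z h7).2 h9)⟩
              · refine Or.inr ?_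
                show Thr.θ ≤ mv (nbB R) ζ (lft v, k + 1, e) z
                rw [hmv z h5]
                exact h7
            · rintro ⟨⟨h3, h4⟩, h5⟩
              refine ⟨⟨hZI ▸ h3, fun h6 => ?_⟩, h5⟩
              rcases h4 (show k < ζ (lft v) by rw [h1]; exact h6) with ⟨h7, h8⟩ | h7
              · exact Or.inl ⟨h7, fun h9 => h8 ((hz z h7).1 h9)⟩
              · refine Or.inr ?_
                show Thr.θ ≤ mv nbT η (v, k + 1, e) (tv z)
                rw [← hmv z h5]
                exact h7
          unfold ZI.infMv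
          simp only [h1]
          by_cases h2 : k < η v
          · rw [if_pos h2, if_pos h2]
            ext z
            constructor
            · rintro (⟨h3, h4⟩ | ⟨h3, h4, -⟩)
              · exact Or.inl ⟨h3, fun h5 => h4 ((hz z h3).2 h5)⟩
              · refine Or.inr ⟨h3, (hz _ h3).1 h4, ?_⟩
                have h6 : z - dv e = lft v := (hz _ h3).1 h4
                rw [nbB_eq _ _ (by omega), ← h6, sub_add_cancel]
                rfl
            · rintro (⟨h3, h4⟩ | ⟨h3, h4, -⟩)
              · exact Or.inl ⟨h3, fun h5 => h4 ((hz z h3).1 h5)⟩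
              · have h5 : z - dv e = lft v := h4
                refine Or.inr ⟨h3, (hz _ h3).2 h5, ?_⟩
                have h6 : tv (z - dv e) = v := (hz _ h3).2 h5
                rw [nbT_some, ← h6, ← tv_add']
                show tv z = tv (z - dv e + dv e)
                rw [sub_add_cancel]
          · rw [if_neg h2, if_neg h2]
      · rw [infMv_no, infMv_no]
        · intro z hzA h1
          have h2 : z = lft v := h1
          exact hx (h2 ▸ hAN z hzA)
        · intro z hzA h1
          exact hx ((hz z hzA).1 h1 ▸ hAN z hzA)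
    · rw [if_neg hb]
      show infMv nbT tv η A (v, k, e) ∩ G = A
      rw [infMv_no, hAG]
      intro z hzA h1
      apply hb
      have h2 : tv z = v := h1
      rw [← h2, lft_tv hR ((hAN z hzA).trans (by omega))]
      exact (hAN z hzA).trans (by omega)

end box

/-! ### environments -/

section env

variable {m : Model} {δ : ℝ} (q : Par d m δ)

theorem envT_U (η : Tor d q.M → ℕ) (l : List (Let d q.M (q.K + 1))) :
    (envT q η l).U = un toLab q.N1 l := rfl

theorem kill_U (R : ℕ) (hR : 2 * R + 2 ≤ q.M) (η : Tor d q.M → ℕ) (l : List (Let d q.M (q.K + 1))) :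
    (kill R (envT q η l)).U = un (gf R) q.N1 l := by
  funext t
  show (units q.N1 l t).filterMap (fun b =>
    if h : ∃ x : Pos d, supn x ≤ R ∧ tv x = b.1 then some (h.choose, b.2) else none) = _
  have h1 : (fun b : Lab (Tor d q.M) d =>
      if h : ∃ x : Pos d, supn x ≤ R ∧ tv x = b.1 then some (h.choose, b.2) else none) = kf R :=
    funext fun b => kf_eq hR b
  rw [h1]
  unfold ZI.units un
  rw [List.filterMap_filterMap]
  rfl

theorem agree_of (R N : ℕ) (hR : 2 * R + 2 ≤ q.M) (hN : 4 * N + 1 ≤ R) (η : Tor d q.M → ℕ)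
    (l : List (Let d q.M (q.K + 1)))
    (h : ∀ i, OkN q.M (4 * N) ((l.take i).foldl stepA η) ((l.take i).foldl (kst R) (ini0 R η))) :
    Agree N (envT q η l) (kill R (envT q η l)) := by
  have hS : Same (toLab : Let d q.M (q.K + 1) → _) nbT tv (gf R) (nbB R) id {x | supn x ≤ 4 * N}
      (OkN q.M (4 * N)) := same_box hR hN
  have hocc : ∀ (η : Tor d q.M → ℕ) (ζ : Pos d → ℕ), OkN q.M (4 * N) η ζ →
      ∀ x ∈ {x | supn x ≤ 4 * N}, (Thr.θ ≤ η (tv x) ↔ Thr.θ ≤ ζ (id x)) := by
    intro η ζ h1 x hx
    show Thr.θ ≤ η (tv x) ↔ Thr.θ ≤ ζ x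
    rw [h1 x hx]
  have h' : ∀ i, OkN q.M (4 * N) ((l.take i).foldl (stF toLab nbT) η)
      ((l.take i).foldl (stF (gf R) (nbB R)) (ini0 R η)) := by
    intro i
    have h1 : (stF toLab nbT : (Tor d q.M → ℕ) → Let d q.M (q.K + 1) → _) = stepA := by
      funext η a
      exact stF_toLab η a
    rw [h1]
    exact h i
  have hinf : ∀ (G : ℕ → Set (Pos d)), (∀ t, G t ⊆ {x | supn x ≤ 4 * N}) → ∀ s A j,
      inf (envT q η l).nb (envT q η l).pr (envT q η l).η0 (envT q η l).U G s A j =
      inf (kill R (envT q η l)).nb (kill R (envT q η l)).pr (kill R (envT q η l)).η0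
        (kill R (envT q η l)).U G s A j := by
    intro G hG s A j
    rw [kill_U q R hR]
    exact inf_same hS hocc h' hG s A j
  have hvis : ∀ (G : ℕ → Set (Pos d)), (∀ t, G t ⊆ {x | supn x ≤ 4 * N}) → ∀ s A j,
      visU (envT q η l).nb (envT q η l).pr (envT q η l).η0 (envT q η l).U G s A j =
      visU (kill R (envT q η l)).nb (kill R (envT q η l)).pr (kill R (envT q η l)).η0
        (kill R (envT q η l)).U G s A j := by
    intro G hG s A j
    rw [kill_U q R hR]
    exact vis_same hS hocc h' hG s A j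
  refine ⟨fun t _ x hx => ?_, fun G hG s t x y _ => ?_, fun G hG s t x y _ => ?_⟩
  · show Thr.θ ≤ cfg nbT η (un toLab q.N1 l) t (tv x) ↔
      Thr.θ ≤ cfg (nbB R) (ini0 R η) (kill R (envT q η l)).U t x
    rw [kill_U q R hR, cfg_un, cfg_un]
    exact hocc _ _ (h' _) x hx
  · unfold Env.R
    refine exists_congr fun j => and_congr_right fun _ => ?_
    rw [hinf G hG s {x} j]
  · unfold Env.vis
    refine exists_congr fun j => and_congr_right fun _ => ?_
    rw [hvis G hG s {x} j]

end env

/-! ### the killed box is below the torus -/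

section below

variable {M K R : ℕ}

/-- order between the pairs (configuration, infected set) -/
def Low (M R : ℕ) (s : (Tor d M → ℕ) × Set (Pos d)) (s' : (Pos d → ℕ) × Set (Pos d)) : Prop :=
  ZI.LK.Inv M R s.1 s'.1 ∧ s'.2 ⊆ s.2 ∧ (∀ z ∈ s'.2, supn z ≤ R ∧ Thr.θ ≤ s'.1 z)

theorem low_step [NeZero M] (hR : 2 * R + 2 ≤ M) {s : (Tor d M → ℕ) × Set (Pos d)}
    {s' : (Pos d → ℕ) × Set (Pos d)} (h : Low M R s s') (a : Let d M (K + 1)) :
    Low M R (stR toLab nbT tv Set.univ s a) (stR (gf R) (nbB R) id Set.univ s' a) := by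
  obtain ⟨η, A⟩ := s
  obtain ⟨ζ, A'⟩ := s'
  obtain ⟨hI, hsub, hA⟩ := h
  simp only at hI hsub hA
  have hIa : ∀ x, supn x ≤ R → stF (gf R) (nbB R) ζ a x ≤ stF toLab nbT η a (tv x) := by
    intro x hx
    rw [stF_toLab]
    have h1 := (ZI.LK.gain_le hR η ζ hI (prj a) x hx).1
    rw [← stepA_prj, ← kst_prj] at h1
    exact h1
  refine ⟨?_, ?_⟩
  · intro x hx
    rw [stR_fst, stR_fst]
    exact hIa x hx
  · unfold stF gf at hIa
    unfold stR gf
    cases h : toLab a with
    | none => exact ⟨hsub, hA⟩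
    | some b =>
      obtain ⟨v, k, e⟩ := b
      rw [h, Option.bind_some] at hIa
      rw [Option.bind_some]
      unfold kf at hIa ⊢
      have hl : tv (lft v) = v := tv_lft v
      by_cases hb : supn (lft v) ≤ R
      · rw [if_pos hb] at hIa ⊢
        have hI2 := hI _ hb
        rw [hl] at hI2
        have e1 : ∀ z ∈ A', (tv z = v ↔ z = lft v) := by
          intro z hz
          constructor
          · intro h1
            rw [← h1, lft_tv hR (hA z hz).1]
          · rintro rfl
            exact hl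
        show infMv (nbB R) id ζ A' (lft v, k, e) ∩ Set.univ ⊆ infMv nbT tv η A (v, k, e) ∩ Set.univ ∧
          ∀ z ∈ infMv (nbB R) id ζ A' (lft v, k, e) ∩ Set.univ, supn z ≤ R ∧
            Thr.θ ≤ mv (nbB R) ζ (lft v, k, e) z
        rw [Set.inter_univ, Set.inter_univ]
        cases k with
        | zero =>
          refine ⟨?_, ?_⟩
          · rintro z ⟨h1, h2⟩
            exact ⟨hsub h1, fun h3 => le_trans (h2 ((e1 z h1).1 h3)) hI2⟩
          · rintro z ⟨h1, h2⟩
            exact hA z h1
        | succ k =>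
          have hpos := (Thr.pos : 1 ≤ Thr.θ)
          have hK : ∀ z ∈ ZI.infMv (nbB R) id ζ A' (lft v, k, e), supn z ≤ R := by
            intro z hz
            unfold ZI.infMv at hz
            split_ifs at hz
            · rcases hz with ⟨h3, -⟩ | ⟨-, -, h3⟩
              · exact (hA z h3).1
              · exact (nbB_some.1 h3).2
            · exact (hA z hz).1
          refine ⟨?_, ?_⟩
          · rintro z ⟨hz, hz2⟩
            refine ⟨?_, fun hk => ?_⟩
            swap
            · by_cases h1 : k < ζ (lft v)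
              · rcases hz2 h1 with ⟨h3, h4⟩ | h3
                · exact Or.inl ⟨hsub h3, fun h5 => h4 ((e1 z h3).1 h5)⟩
                · exact Or.inr (le_trans h3 (hIa z (hK z hz)))
              · have h3 : z ∈ A' := by
                  unfold ZI.infMv at hz
                  rwa [if_neg (show ¬ ((lft v, k, e) : Lab (Pos d) d).2.1 < ζ (lft v) from h1)] at hz
                refine Or.inr (le_trans (hA z h3).2 (le_trans (le_of_eq ?_) (hIa z (hK z hz))))
                show ζ z = ZI.mv (nbB R) ζ (lft v, k, e) z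
                unfold ZI.mv
                rw [if_neg (show ¬ ((lft v, k, e) : Lab (Pos d) d).2.1 < ζ (lft v) from h1)]
            unfold ZI.infMv at hz ⊢
            by_cases h1 : k < ζ (lft v)
            · rw [if_pos (show ((lft v, k, e) : Lab (Pos d) d).2.1 < ζ (lft v) from h1)] at hz
              rw [if_pos (show ((v, k, e) : Lab (Tor d M) d).2.1 < η v from lt_of_lt_of_le h1 hI2)]
              rcases hz with ⟨h3, h4⟩ | ⟨h3, h4, -⟩
              · refine Or.inl ⟨hsub h3, fun h5 => ?_⟩
                have h6 : 2 ≤ ζ (lft v) := h4 ((e1 z h3).1 h5)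
                exact h6.trans hI2
              · have h5 : z - dv e = lft v := h4
                have h7 : tv (z - dv e) = v := (e1 _ h3).2 h5
                refine Or.inr ⟨hsub h3, h7, ?_⟩
                rw [nbT_some]
                show tv z = v + tv (dv e)
                rw [← h7, ← tv_add', sub_add_cancel]
            · rw [if_neg (show ¬ ((lft v, k, e) : Lab (Pos d) d).2.1 < ζ (lft v) from h1)] at hz
              by_cases h2 : k < η v
              · rw [if_pos (show ((v, k, e) : Lab (Tor d M) d).2.1 < η v from h2)]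
                refine Or.inl ⟨hsub hz, fun h5 => ?_⟩
                have h6 := (hA z hz).2
                rw [(e1 z hz).1 h5] at h6
                show 2 ≤ η v
                have h7 : 1 ≤ Thr.θ := Thr.pos
                omega
              · rw [if_neg (show ¬ ((v, k, e) : Lab (Tor d M) d).2.1 < η v from h2)]
                exact hsub hz
          · intro z hz
            exact ⟨hK z hz.1, infMv_occ (fun z hz => (hA z hz).2) hz⟩
      · rw [if_neg hb]
        refine ⟨?_, hA⟩
        show A' ⊆ infMv nbT tv η A (v, k, e) ∩ Set.univ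
        rw [Set.inter_univ]
        intro z hz
        have e1 : ¬ tv z = v := by
          intro h1
          apply hb
          rw [← h1, lft_tv hR (hA z hz).1]
          exact (hA z hz).1
        cases k with
        | zero => exact ⟨hsub hz, fun h5 => absurd h5 e1⟩
        | succ k =>
          refine ⟨?_, fun _ => Or.inl ⟨hsub hz, e1⟩⟩
          unfold ZI.infMv
          split_ifs
          · exact Or.inl ⟨hsub hz, fun h5 => absurd h5 e1⟩
          · exact hsub hz

theorem low_fold [NeZero M] (hR : 2 * R + 2 ≤ M) (L : List (Let d M (K + 1))) :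
    ∀ (s : (Tor d M → ℕ) × Set (Pos d)) (s' : (Pos d → ℕ) × Set (Pos d)), Low M R s s' →
      Low M R (L.foldl (stR toLab nbT tv Set.univ) s) (L.foldl (stR (gf R) (nbB R) id Set.univ) s') := by
  induction L with
  | nil => exact fun s s' h => h
  | cons a L ih => exact fun s s' h => ih _ _ (low_step hR h a)

theorem low_inf [NeZero M] (hR : 2 * R + 2 ≤ M) (N1 : ℕ) (w : List (Let d M (K + 1)))
    (η : Tor d M → ℕ) (j : ℕ) :
    Low M R (cfg nbT η (un toLab N1 w) (0 + j),
        inf nbT tv η (un toLab N1 w) (fun _ => Set.univ) 0 {0} j)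
      (cfg (nbB R) (ini0 R η) (un (gf R) N1 w) (0 + j),
        inf (nbB R) id (ini0 R η) (un (gf R) N1 w) (fun _ => Set.univ) 0 {0} j) := by
  have h0 : supn (0 : Pos d) ≤ R := by
    rw [supn_le]
    intro j
    simp
  induction j with
  | zero =>
    refine ⟨ZI.LK.inv_ini η, ?_, ?_⟩
    · rintro z ⟨h1, h2, h3⟩
      refine ⟨h1, h2, ?_⟩
      have h4 : z = 0 := h1
      have h5 : Thr.θ ≤ ini0 R η z := h3
      subst h4
      unfold ini0 at h5
      rw [if_pos h0] at h5
      exact h5
    · rintro z ⟨h1, h2, h3⟩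
      have h4 : z = 0 := h1
      exact ⟨h4 ▸ h0, h3⟩
  | succ j ih =>
    have h1 := low_fold hR ((w.drop ((0 + j) * N1)).take N1) _ _ ih
    have h2 : (cfg nbT η (un toLab N1 w) (0 + (j + 1)),
        inf nbT tv η (un toLab N1 w) (fun _ => Set.univ) 0 {0} (j + 1)) =
        ((w.drop ((0 + j) * N1)).take N1).foldl (stR toLab nbT tv Set.univ)
          (cfg nbT η (un toLab N1 w) (0 + j),
            inf nbT tv η (un toLab N1 w) (fun _ => Set.univ) 0 {0} j) := by
      rw [inf, ← add_assoc, cfg, Set.inter_univ]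
      refine Prod.ext ?_ ?_
      · rw [fold_stR_fst, un, fold_stF]
      · rw [un, fold_stR]
    have h3 : (cfg (nbB R) (ini0 R η) (un (gf R) N1 w) (0 + (j + 1)),
        inf (nbB R) id (ini0 R η) (un (gf R) N1 w) (fun _ => Set.univ) 0 {0} (j + 1)) =
        ((w.drop ((0 + j) * N1)).take N1).foldl (stR (gf R) (nbB R) id Set.univ)
          (cfg (nbB R) (ini0 R η) (un (gf R) N1 w) (0 + j),
            inf (nbB R) id (ini0 R η) (un (gf R) N1 w) (fun _ => Set.univ) 0 {0} j) := by
      rw [inf, ← add_assoc, cfg, Set.inter_univ]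
      refine Prod.ext ?_ ?_
      · rw [fold_stR_fst, un, fold_stF]
      · rw [un, fold_stR]
    rw [h2, h3]
    exact h1

end below

end ZQ.LK

namespace ZQ.Rows

open ZP hiding Agree AgreeW Base BlockFacts EK Env EqEnv GoodK Iset PastEv QK QT Surv Sys capE conf envB envC envT inf infMv infd kill pe st stepI stepR visU
open ZP.Rows hiding R_of_noRec R_toZI cfg_toZI envT_toZI foldl_stepR_noRec foldl_stepR_toZI inf_noRec inf_toZI kill_R kill_vis killed_agree occ_toZI visU_noRec visU_toZI vis_of_noRec vis_toZI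

variable [ZQ.Thr]

open ZP hiding Agree AgreeW Base BlockFacts EK Env EqEnv GoodK Iset PastEv QK QT Surv Sys capE conf envB envC envT inf infMv infd kill pe st stepI stepR visU
open ZP.LK hiding Low Same agree_of envT_U fold_same fold_stR fold_stR_fst foldl_stepR_fst_zp infMv_no inf_same kill_U low_fold low_inf low_step same_box stR stR_fst stR_sub vis_letters vis_same
open ZQ.LK
open ZQ
open ZI.LK (supn_le ini0)

variable {d : ℕ} {m : Model} {δ : ℝ}

/-- the killed system is below the torus system (deterministic) -/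
theorem kill_vis (q : Par d m δ) (R : ℕ) (hR : 2 * R + 2 ≤ q.M) (η : Tor d q.M → ℕ)
    (l : List (Let d q.M (q.K + 1))) (t : ℕ) (b : Pos d)
    (h : (kill R (envT q η l)).vis (fun _ => Set.univ) 0 0 t b) :
    (envT q η l).vis (fun _ => Set.univ) 0 0 t b := by
  obtain ⟨j, hj, hb⟩ := h
  refine ⟨j, hj, ?_⟩
  rw [kill_U q R hR] at hb
  have hb' : b ∈ visU (nbB R) id (ini0 R η) (un (gf R) q.N1 l) (fun _ => Set.univ) 0 {0} j := hb
  show b ∈ visU nbT tv η (un toLab q.N1 l) (fun _ => Set.univ) 0 {0} j
  unfold visU at hb' ⊢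
  rw [Set.mem_ofPred_eq] at hb' ⊢
  unfold un at hb' ⊢
  rw [vis_letters] at hb' ⊢
  obtain ⟨i, hi, hz⟩ := hb'
  refine ⟨i, hi, ?_⟩
  rw [Set.inter_univ] at hz ⊢
  exact (low_fold hR _ _ _ (low_inf hR q.N1 l η j)).2.1 hz

theorem kill_R (q : Par d m δ) (R : ℕ) (hR : 2 * R + 2 ≤ q.M) (η : Tor d q.M → ℕ)
    (l : List (Let d q.M (q.K + 1))) (t : ℕ) (b : Pos d)
    (h : (kill R (envT q η l)).R (fun _ => Set.univ) 0 0 t b) :
    (envT q η l).R (fun _ => Set.univ) 0 0 t b := by
  obtain ⟨j, hj, hb⟩ := h
  refine ⟨j, hj, ?_⟩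
  rw [kill_U q R hR] at hb
  have hb' : b ∈ inf (nbB R) id (ini0 R η) (un (gf R) q.N1 l) (fun _ => Set.univ) 0 {0} j := hb
  show b ∈ inf nbT tv η (un toLab q.N1 l) (fun _ => Set.univ) 0 {0} j
  exact (low_inf hR q.N1 l η j).2.1 hb'


theorem killed_agree (m : Model) (δ : ℝ) (d : ℕ) (hd : 0 < d) : ∃ C : ℕ, ∀ q : Par d m δ, ∀ R N : ℕ,
    2 * R + 2 ≤ q.M → 16 * N + 4 ≤ R →
    q.PP (N * q.N1) (fun η l => ¬ Agree N (envT q η l) (kill R (envT q η l))) ≤
      ENNReal.ofReal (C * (R + 1 : ℝ) ^ C * Real.exp (C * N - R / 4)) := by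
  obtain ⟨C1, hC1⟩ := exists_nat_ge (m.φ * 2 ^ d)
  obtain ⟨C2, hC2⟩ := exists_nat_ge (Real.exp 1 * m.Gp + 5)
  refine ⟨C1 + C2 + d, fun q R N hR hN => ?_⟩
  have h0 : q.PP (N * q.N1) (fun η l => ¬ Agree N (envT q η l) (kill R (envT q η l))) ≤
      q.toZI.PP (N * q.N1) (fun η l => ∃ i, ZI.LK.Bad q.toZI (4 * N) ((l.take i).foldl ZI.stepA η)
        ((l.take i).foldl (ZI.LK.kst R) (ini0 R η))) := by
    refine le_trans ?_ (le_of_eq (PP_prj q hd (N * q.N1) (fun η l => ∃ i,
      ZI.LK.Bad q.toZI (4 * N) ((l.take i).foldl ZI.stepA η)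
        ((l.take i).foldl (ZI.LK.kst R) (ini0 R η)))))
    unfold Par.PP Par.EE
    refine ENNReal.tsum_le_tsum fun η => mul_le_mul' le_rfl ?_
    refine ZI.PrE_mono q.w _ fun l _ h => ?_
    by_contra hc
    push Not at hc
    refine h (agree_of q R N hR (by omega) η l fun i x hx => ?_)
    by_contra hne
    refine hc i ⟨x, hx, ?_⟩
    intro hcon
    apply hne
    rw [fold_stepA_prj, fold_kst_prj, List.map_take]
    exact hcon
  exact h0.trans (bad_le hd C1 C2 hC1 hC2 q.toZI R N hR hN)

end ZQ.Rows
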