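import Pool.Agent.ZP.P1
import Pool.Agent.ZQ.ProcE
import Pool.Agent.ZI.P1

/-! # Row P1: identities between the environments given by the clocks (with recovery) -/

set_option autoImplicit false

open scoped ENNReal BigOperators Classical
open MeasureTheory

noncomputable section

namespace ZQ.Rows

open ZP hiding Agree AgreeW Base BlockFacts EK Env EqEnv GoodK Iset PastEv QK QT Surv Sys capE conf envB envC envT inf infMv infd kill pe st stepI stepR visU
open ZP.Rows hiding capE_envC kill_envC

variable [ZQ.Thr]

open ZI.P1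
open ZP hiding Agree AgreeW Base BlockFacts EK Env EqEnv GoodK Iset PastEv QK QT Surv Sys capE conf envB envC envT inf infMv infd kill pe st stepI stepR visU
open ZQ

variable {d : ℕ} {m : Model} {δ : ℝ}

variable {Ω : Type} [MeasurableSpace Ω] {P : Measure Ω}

theorem capE_envC (C : Clocks m δ d P) (M K K' T : ℕ) (hK : K' ≤ K) (ω : Ω) :
    capE K' (envC C M K T ω) = envC C M K' T ω := by
  have h : ∀ t : ℕ, ((envC C M K T ω).U t).filter (fun b => decide (b.2.1 < K' + 1)) =
      (envC C M K' T ω).U t := fun t => by
    simp only [envC]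
    by_cases ht : t < T
    · rw [if_pos ht, if_pos ht, List.filter_map]
      congr 1
      rw [ringList_filter (C.ring ω) (torLab d M (K + 1)) (torLab d M (K' + 1)) t (t + 1) (C.ring_fin ω)
        (fun l => l.2.1 < K' + 1)]
      · refine List.filter_congr fun l _ => ?_
        simp
      · intro l
        rw [mem_torLab, mem_torLab]
        constructor
        · rintro ⟨h1, h2⟩
          exact ⟨⟨h1, by omega⟩, h2⟩
        · rintro ⟨⟨h1, h2⟩, h3⟩
          exact ⟨h1, h3⟩
    · rw [if_neg ht, if_neg ht]
      rfl
  unfold capE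
  rw [show (fun t => ((envC C M K T ω).U t).filter (fun b => decide (b.2.1 < K' + 1))) =
    (envC C M K' T ω).U from funext h]
  rfl

theorem kill_envC (C : Clocks m δ d P) (M R K T : ℕ) (hR : 2 * R + 2 ≤ M) (ω : Ω) :
    kill R (envC C M K T ω) = envB C R K T ω := by
  have hbox : ∀ x : Pos d, supn x ≤ R → ∀ j, -(M : ℤ) < 2 * x j ∧ 2 * x j ≤ M := fun x hx j => by
    have := (supn_le x R).mp hx j
    omega
  have h0 : (fun x : Pos d => if supn x ≤ R then (envC C M K T ω).η0 ((envC C M K T ω).pr x) else 0) =
      fun x => if supn x ≤ R then C.η0 ω x else 0 := by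
    funext x
    by_cases hx : supn x ≤ R
    · rw [if_pos hx, if_pos hx]
      show C.η0 ω (lft (tv x : Tor d M)) = _
      rw [lft_tv M (by omega) x (hbox x hx)]
    · rw [if_neg hx, if_neg hx]
  have h : ∀ t : ℕ, ((envC C M K T ω).U t).filterMap (fun b =>
      if h : ∃ x : Pos d, supn x ≤ R ∧ (envC C M K T ω).pr x = b.1 then some (h.choose, b.2)
        else none) = (envB C R K T ω).U t := fun t => by
    simp only [envC, envB]
    by_cases ht : t < T
    · rw [if_pos ht, if_pos ht, List.filterMap_map]
      rw [ringList_filter (C.ring ω) (torLab d M (K + 1)) (boxLab d R (K + 1)) t (t + 1) (C.ring_fin ω)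
        (fun l => supn l.1 ≤ R)]
      · rw [← List.filterMap_eq_filter]
        refine List.filterMap_congr fun l hl => ?_
        have hl' := (mem_torLab M (K + 1) l).mp (mem_ringList _ _ _ _ (C.ring_fin ω) l hl)
        simp only [Function.comp_apply]
        by_cases hx : supn l.1 ≤ R
        · have hex : ∃ x : Pos d, supn x ≤ R ∧ (tv x : Tor d M) = tv l.1 := ⟨l.1, hx, rfl⟩
          refine Eq.trans (dif_pos hex) ?_
          have h1 : hex.choose = l.1 := tv_inj M _ _ (hbox _ hex.choose_spec.1) hl'.1
            hex.choose_spec.2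
          simp [Option.guard, hx, h1]
        · have hex : ¬ ∃ x : Pos d, supn x ≤ R ∧ (tv x : Tor d M) = tv l.1 := by
            rintro ⟨x, hx1, hx2⟩
            have h1 := tv_inj M _ _ (hbox _ hx1) hl'.1 hx2
            exact hx (h1 ▸ hx1)
          refine Eq.trans (dif_neg hex) ?_
          simp [Option.guard, hx]
      · intro l
        rw [mem_torLab, mem_boxLab]
        constructor
        · rintro ⟨h1, h2⟩
          exact ⟨⟨hbox _ h1, h2⟩, h1⟩
        · rintro ⟨⟨h1, h2⟩, h3⟩
          exact ⟨h3, h2⟩
    · rw [if_neg ht, if_neg ht]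
      rfl
  unfold kill
  rw [h0, funext h]
  rfl

end ZQ.Rows
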