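import Pool.Agent.ZP.P1b
import Pool.Agent.ZQ.ProcE
import Pool.Agent.ZQ.InfLem
import Pool.Agent.ZI.P1b

/-! # Row P1b: the real killed systems, monotonicity and the environment `envB` (with recovery);
port of ZI/P1b -/

set_option autoImplicit false

open scoped ENNReal BigOperators Classical Pointwise
open MeasureTheory

noncomputable section

namespace ZQ.P1b

open ZP hiding Agree AgreeW Base BlockFacts EK Env EqEnv GoodK Iset PastEv QK QT Surv Sys capE conf envB envC envT foldl_stepR_fst foldl_stepR_inter foldl_stepR_mono foldl_stepR_occ foldl_stepR_region inf infMv infMv_mono infMv_occ inf_comp inf_inter inf_mono_univ inf_occ inf_pred infd kill mem_foldl_stepR mem_infMv pe st stepI stepR visU visU_mono_univ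
open ZP.P1b hiding env_state foldl_empty foldl_filter st_eq st_split step_noeff

variable [ZQ.Thr]

open ZP hiding Agree AgreeW Base BlockFacts EK Env EqEnv GoodK Iset PastEv QK QT Surv Sys capE conf envB envC envT foldl_stepR_fst foldl_stepR_inter foldl_stepR_mono foldl_stepR_occ foldl_stepR_region inf infMv infMv_mono infMv_occ inf_comp inf_inter inf_mono_univ inf_occ inf_pred infd kill mem_foldl_stepR mem_infMv pe st stepI stepR visU visU_mono_univ
open ZQ
open ZI.P1b (ringList_self ringList_append ringList_take supN_eq nbB_some nbB_iff mem_box supn_zero)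

variable {d : ℕ} {m : Model} {δ : ℝ}

/-! ### the systems in boxes -/

/-- `Fin' R K η` is used from `ZI` -/
theorem step_noeff {V : Type} {nb : V → Dir d → Option V} {pr : Pos d → V}
    {s : (V → ℕ) × Set (Pos d)} {l : Lab V d} (hocc : ∀ z ∈ s.2, 0 < s.1 (pr z))
    (h : s.1 l.1 ≤ l.2.1 - 1) (h0 : l.2.1 = 0 → s.1 l.1 = 0) :
    stepR nb pr Set.univ s l = s := by
  obtain ⟨x, j, e⟩ := l
  obtain ⟨η, A⟩ := s
  cases j with
  | zero =>
    have hx : η x = 0 := h0 rfl
    refine Prod.ext rfl ?_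
    show {z | z ∈ A ∧ (pr z = x → 2 ≤ η x)} ∩ Set.univ = A
    rw [Set.inter_univ]
    ext z
    constructor
    · exact fun hz => hz.1
    · intro hz
      refine ⟨hz, fun h2 => ?_⟩
      have h1 : 0 < η (pr z) := hocc z hz
      rw [h2, hx] at h1
      exact absurd h1 (lt_irrefl _)
  | succ k =>
    have hk : ¬ k < η x := not_lt.mpr h
    have h1 : mv nb η (x, k + 1, e) = η := by
      show ZI.mv nb η (x, k, e) = η
      unfold ZI.mv
      rw [if_neg hk]
    refine Prod.ext h1 ?_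
    show {z | z ∈ ZI.infMv nb pr η A (x, k, e) ∧
      (k < η x → (z ∈ A ∧ pr z ≠ x) ∨ Thr.θ ≤ mv nb η (x, k + 1, e) (pr z))} ∩ Set.univ = A
    rw [Set.inter_univ]
    have h2 : ZI.infMv nb pr η A (x, k, e) = A := by
      unfold ZI.infMv
      rw [if_neg hk]
    rw [h2]
    ext z
    exact ⟨fun hz => hz.1, fun hz => ⟨hz, fun h' => absurd h' hk⟩⟩

theorem foldl_filter {R K : ℕ} (p : Lab (Pos d) d → Prop)
    (hp : ∀ l, ¬ p l → l ∉ boxLab d R (K + 1)) (L : List (Lab (Pos d) d)) :
    ∀ s : (Pos d → ℕ) × Set (Pos d), ZI.P1b.Fin' R K s.1 → (∀ z ∈ s.2, Thr.θ ≤ s.1 z) →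
      (L.filter (fun l => decide (p l))).foldl (stepR (nbB R) id Set.univ) s =
        L.foldl (stepR (nbB R) id Set.univ) s := by
  induction L with
  | nil => intro s _ _; rfl
  | cons l L ih =>
    intro s hs ho
    by_cases hl : p l
    · rw [List.filter_cons_of_pos (by simpa using hl), List.foldl_cons, List.foldl_cons]
      exact ih _ (finStep hs l) (fun z hz => infMv_occ (pr := id) ho hz.1)
    · rw [List.filter_cons_of_neg (by simpa using hl), List.foldl_cons,
        step_noeff (pr := id) (fun z hz => lt_of_lt_of_le Thr.pos (ho z hz))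
          (low hs (hp l hl)).1 (low hs (hp l hl)).2]
      exact ih _ hs ho

/-- the coupling of two killed systems; the infected sites of the smaller one hold at least `Thr.θ` particles -/
structure InvQ (R K : ℕ) (s s' : (Pos d → ℕ) × Set (Pos d)) : Prop where
  fin : ZI.P1b.Fin' R K s.1
  le : ∀ x, s.1 x ≤ s'.1 x
  sub : s.2 ⊆ s'.2
  occ : ∀ z ∈ s.2, Thr.θ ≤ s.1 z

theorem InvQ.toInv {R K : ℕ} {s s' : (Pos d → ℕ) × Set (Pos d)} (h : InvQ R K s s') :
    ZI.P1b.Inv R K s s' :=
  ⟨h.fin, h.le, h.sub, fun z hz => lt_of_lt_of_le Thr.pos (h.occ z hz)⟩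

theorem Inv.step {R R' K : ℕ} (hR : R ≤ R') {s s' : (Pos d → ℕ) × Set (Pos d)}
    (h : InvQ R K s s') (l : Lab (Pos d) d) :
    InvQ R K (stepR (nbB R) id Set.univ s l) (stepR (nbB R') id Set.univ s' l) := by
  have hocc : ∀ z ∈ infMv (nbB R) id s.1 s.2 l, Thr.θ ≤ mv (nbB R) s.1 l z :=
    fun z hz => infMv_occ (pr := id) h.occ hz
  obtain ⟨x, j, e⟩ := l
  cases j with
  | zero =>
    refine ⟨h.fin, h.le, ?_, fun z hz => h.occ z hz.1.1⟩
    rintro z ⟨⟨h1, h2⟩, h3⟩
    exact ⟨⟨h.sub h1, fun h4 => (h2 h4).trans (h.le _)⟩, h3⟩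
  | succ k =>
    have h' := ZI.P1b.Inv.step hR h.toInv (x, k, e)
    refine ⟨h'.fin, h'.le, ?_, fun z hz => hocc z hz.1⟩
    rintro z ⟨h1, h3⟩
    exact ⟨⟨(h'.sub ⟨h1.1, h3⟩).1, fun _ => Or.inr ((hocc z h1).trans (h'.le z))⟩, h3⟩

theorem Inv.foldl {R R' K : ℕ} (hR : R ≤ R') (L : List (Lab (Pos d) d)) :
    ∀ s s' : (Pos d → ℕ) × Set (Pos d), InvQ R K s s' →
      InvQ R K (L.foldl (stepR (nbB R) id Set.univ) s)
        (L.foldl (stepR (nbB R') id Set.univ) s') := by
  induction L with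
  | nil => intro s s' h; exact h
  | cons l L ih =>
    intro s s' h
    exact ih _ _ (Inv.step hR h l)

section

variable {Ω : Type} [MeasurableSpace Ω] {P : Measure Ω}

theorem ini_occQ (C : Clocks m δ d P) (R : ℕ) (ω : Ω) :
    ∀ z ∈ ({z | z = 0 ∧ Thr.θ ≤ C.η0 ω 0} : Set (Pos d)), Thr.θ ≤ ini C R ω z := by
  rintro z ⟨h1, h2⟩
  subst h1
  unfold ini
  rw [if_pos]
  · exact h2
  · rw [supN_eq, supn_zero]
    exact Nat.zero_le _

/-- the killed system with a larger set of labels -/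
theorem st_eq (C : Clocks m δ d P) (R R' K : ℕ) (hR : R ≤ R') (ω : Ω) (hK : tot C R ω ≤ K)
    (t : ℝ) :
    st C R ω t = (ringList (C.ring ω) (boxLab d R' (K + 1)) 0 t).foldl
      (stepR (nbB R) id Set.univ) (ini C R ω, {z | z = 0 ∧ Thr.θ ≤ C.η0 ω 0}) := by
  unfold st
  rw [ZI.P1.ringList_filter (C.ring ω) (boxLab d R' (K + 1)) (boxLab d R (tot C R ω + 1)) 0 t
    (C.ring_fin ω) (fun l => l ∈ boxLab d R (tot C R ω + 1))]
  · exact foldl_filter _ (fun l h => h) _ (ini C R ω, {z | z = 0 ∧ Thr.θ ≤ C.η0 ω 0})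
      (ini_fin C R ω) (ini_occQ C R ω)
  · intro l
    constructor
    · intro h
      refine ⟨?_, h⟩
      rw [ZI.P1.mem_boxLab] at h ⊢
      exact ⟨h.1.trans hR, lt_of_lt_of_le h.2 (by omega)⟩
    · exact fun h => h.2

/-- the state of the environment `envB` at integer times -/
theorem env_state (C : Clocks m δ d P) (R K T : ℕ) (ω : Ω) (hK : tot C R ω ≤ K) (j : ℕ)
    (hj : j ≤ T) :
    (cfg (envB C R K T ω).nb (envB C R K T ω).η0 (envB C R K T ω).U j,
      inf (envB C R K T ω).nb (envB C R K T ω).pr (envB C R K T ω).η0 (envB C R K T ω).U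
        (fun _ => Set.univ) 0 {0} j) = st C R ω j := by
  induction j with
  | zero =>
    rw [st_eq C R R K le_rfl ω hK, Nat.cast_zero, ringList_self]
    refine Prod.ext rfl ?_
    show {z : Pos d | z ∈ ({0} : Set (Pos d)) ∧ z ∈ Set.univ ∧
      Thr.θ ≤ (if supn z ≤ R then C.η0 ω z else 0)} = {z | z = 0 ∧ Thr.θ ≤ C.η0 ω 0}
    ext z
    simp only [Set.mem_ofPred_eq, Set.mem_singleton_iff, Set.mem_univ, true_and]
    constructor
    · rintro ⟨h1, h2⟩
      subst h1
      rw [if_pos (by rw [supn_zero]; exact Nat.zero_le _)] at h2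
      exact ⟨rfl, h2⟩
    · rintro ⟨h1, h2⟩
      subst h1
      rw [if_pos (by rw [supn_zero]; exact Nat.zero_le _)]
      exact ⟨rfl, h2⟩
  | succ j ih =>
    have ih' := ih (by omega)
    have hU : (envB C R K T ω).U j =
        ringList (C.ring ω) (boxLab d R (K + 1)) j (j + 1) := by
      show (if j < T then ringList (C.ring ω) (boxLab d R (K + 1)) j (j + 1) else []) = _
      rw [if_pos (by omega)]
    rw [st_eq C R R K le_rfl ω hK, Nat.cast_succ,
      ringList_append (C.ring ω) (boxLab d R (K + 1))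
      (b := (j : ℝ)) (Nat.cast_nonneg j) (by linarith) (C.ring_fin ω), List.foldl_append,
      ← st_eq C R R K le_rfl ω hK, ← ih', ← hU]
    refine Prod.ext ?_ ?_
    · show _ = (((envB C R K T ω).U j).foldl
        (stepR (envB C R K T ω).nb (envB C R K T ω).pr Set.univ) _).1
      rw [foldl_stepR_fst]
      rfl
    · show (((envB C R K T ω).U (0 + j)).foldl
        (stepR (envB C R K T ω).nb (envB C R K T ω).pr Set.univ)
        (cfg _ _ _ (0 + j), inf _ _ _ _ _ 0 {0} j ∩ Set.univ)).2 = _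
      rw [zero_add, Set.inter_univ]
      rfl

/-- the killed system from the time `a` to the time `s` -/
theorem st_split (C : Clocks m δ d P) (R K : ℕ) (ω : Ω) (hK : tot C R ω ≤ K) (a s : ℝ)
    (ha : 0 ≤ a) (hs : a ≤ s) :
    st C R ω s = (ringList (C.ring ω) (boxLab d R (K + 1)) a s).foldl
      (stepR (nbB R) id Set.univ) (st C R ω a) := by
  rw [st_eq C R R K le_rfl ω hK s, ringList_append (C.ring ω) (boxLab d R (K + 1))
    (b := a) ha hs (C.ring_fin ω), List.foldl_append,
    ← st_eq C R R K le_rfl ω hK]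

theorem foldl_empty {R : ℕ} (L : List (Lab (Pos d) d)) (η : Pos d → ℕ) :
    (L.foldl (stepR (nbB R) id Set.univ) (η, ∅)).2 = ∅ := by
  rw [Set.eq_empty_iff_forall_notMem]
  intro z hz
  obtain ⟨y, hy, -⟩ := mem_foldl_stepR L η ∅ z hz
  exact hy

end

end ZQ.P1b

namespace ZQ.Rows

open ZP hiding Agree AgreeW Base BlockFacts EK Env EqEnv GoodK Iset PastEv QK QT Surv Sys capE conf envB envC envT foldl_stepR_fst foldl_stepR_inter foldl_stepR_mono foldl_stepR_occ foldl_stepR_region inf infMv infMv_mono infMv_occ inf_comp inf_inter inf_mono_univ inf_occ inf_pred infd kill mem_foldl_stepR mem_infMv pe st stepI stepR visU visU_mono_univ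
open ZP.Rows hiding st_R st_mono st_vis surv_int

variable [ZQ.Thr]

open ZP hiding Agree AgreeW Base BlockFacts EK Env EqEnv GoodK Iset PastEv QK QT Surv Sys capE conf envB envC envT foldl_stepR_fst foldl_stepR_inter foldl_stepR_mono foldl_stepR_occ foldl_stepR_region inf infMv infMv_mono infMv_occ inf_comp inf_inter inf_mono_univ inf_occ inf_pred infd kill mem_foldl_stepR mem_infMv pe st stepI stepR visU visU_mono_univ
open ZQ
open ZI.P1b (ringList_self ringList_append ringList_take supN_eq mem_box supn_zero)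

variable {d : ℕ} {m : Model} {δ : ℝ} {Ω : Type} [MeasurableSpace Ω] {P : Measure Ω}

set_option linter.unusedVariables false in
theorem st_mono (C : Clocks m δ d P) (R R' : ℕ) (hR : R ≤ R') (ω : Ω) (hω : NoTies C ω) (t : ℝ) :
    (st C R ω t).1 ≤ (st C R' ω t).1 ∧ (st C R ω t).2 ⊆ (st C R' ω t).2 := by
  rw [P1b.st_eq C R R' (tot C R' ω) hR ω (P1b.tot_mono C hR ω)]
  have h := P1b.Inv.foldl hR (K := tot C R ω)
    (ringList (C.ring ω) (boxLab d R' (tot C R' ω + 1)) 0 t)
    (ini C R ω, {z | z = 0 ∧ Thr.θ ≤ C.η0 ω 0}) (ini C R' ω, {z | z = 0 ∧ Thr.θ ≤ C.η0 ω 0})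
    ⟨P1b.ini_fin C R ω, fun x => ?_, subset_rfl, P1b.ini_occQ C R ω⟩
  · exact ⟨h.le, h.sub⟩
  · show ini C R ω x ≤ ini C R' ω x
    unfold ini
    by_cases h1 : supN x ≤ R
    · rw [if_pos h1, if_pos (h1.trans hR)]
    · rw [if_neg h1]
      exact Nat.zero_le _

/-- the real killed system and the environment `envB` -/
theorem st_vis (C : Clocks m δ d P) (R K T : ℕ) (ω : Ω) (hω : NoTies C ω) (hK : tot C R ω ≤ K) (t : ℕ)
    (ht : 1 ≤ t) (htT : t ≤ T) (b : Pos d) :
    (∃ s : ℝ, 0 ≤ s ∧ s ≤ t ∧ b ∈ (st C R ω s).2) ↔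
      (envB C R K T ω).vis (fun _ => Set.univ) 0 0 t b := by
  have key : ∀ j : ℕ, j < T → ∀ s : ℝ, (j : ℝ) ≤ s →
      st C R ω s = (ringList (C.ring ω) (boxLab d R (K + 1)) j s).foldl
        (stepR (nbB R) id Set.univ) (st C R ω j) := fun j _ s hs =>
    P1b.st_split C R K ω hK j s (Nat.cast_nonneg j) hs
  have hU : ∀ j : ℕ, j < T → (envB C R K T ω).U j =
      ringList (C.ring ω) (boxLab d R (K + 1)) j (j + 1) := by
    intro j hj
    show (if j < T then ringList (C.ring ω) (boxLab d R (K + 1)) j (j + 1) else []) = _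
    rw [if_pos hj]
  have hvis : ∀ j : ℕ, j < T → ∀ b : Pos d,
      (b ∈ visU (envB C R K T ω).nb (envB C R K T ω).pr (envB C R K T ω).η0 (envB C R K T ω).U
        (fun _ => Set.univ) 0 {0} j ↔
      ∃ i ≤ (ringList (C.ring ω) (boxLab d R (K + 1)) j (j + 1)).length,
        b ∈ (((ringList (C.ring ω) (boxLab d R (K + 1)) j (j + 1)).take i).foldl
          (stepR (nbB R) id Set.univ) (st C R ω j)).2) := by
    intro j hj b
    rw [← hU j hj, ← P1b.env_state C R K T ω hK j hj.le]
    unfold visU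
    rw [zero_add, Set.inter_univ]
    rfl
  unfold Env.vis
  constructor
  · rintro ⟨s, hs0, hst, hb⟩
    obtain ⟨j, hjt, hj1, hj2⟩ : ∃ j : ℕ, j < t ∧ (j : ℝ) ≤ s ∧ s ≤ j + 1 := by
      rcases eq_or_lt_of_le hst with h1 | h1
      · refine ⟨t - 1, by omega, ?_, ?_⟩
        · rw [h1, Nat.cast_sub ht]
          simp
        · rw [h1, Nat.cast_sub ht]
          simp
      · refine ⟨⌊s⌋₊, ?_, Nat.floor_le hs0, (Nat.lt_floor_add_one s).le⟩
        exact (Nat.floor_lt hs0).mpr h1
    refine ⟨j, by omega, ?_⟩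
    rw [hvis j (by omega)]
    have hsplit := ringList_append (C.ring ω) (boxLab d R (K + 1)) hj1 hj2 (C.ring_fin ω)
    refine ⟨(ringList (C.ring ω) (boxLab d R (K + 1)) j s).length, ?_, ?_⟩
    · rw [hsplit, List.length_append]
      exact Nat.le_add_right _ _
    · rw [hsplit, List.take_left', ← key j (by omega) s hj1]
      · exact hb
      · rfl
  · rintro ⟨j, hj, hb⟩
    have hjT : j < T := by omega
    rw [hvis j hjT] at hb
    obtain ⟨i, hi, hb⟩ := hb
    obtain ⟨s, hs1, hs2, hs3⟩ := ringList_take (C.ring ω) (boxLab d R (K + 1))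
      (Nat.cast_nonneg j) (show (j : ℝ) ≤ j + 1 by linarith) (C.ring_fin ω) hω i hi
    rw [hs3, ← key j hjT s hs1] at hb
    refine ⟨s, (Nat.cast_nonneg j).trans hs1, hs2.trans ?_, hb⟩
    have : j + 1 ≤ t := by omega
    exact_mod_cast this

set_option linter.unusedVariables false in
theorem st_R (C : Clocks m δ d P) (R K T : ℕ) (ω : Ω) (hω : NoTies C ω) (hK : tot C R ω ≤ K) (t : ℕ)
    (htT : t ≤ T) (b : Pos d) :
    b ∈ (st C R ω t).2 ↔ (envB C R K T ω).R (fun _ => Set.univ) 0 0 t b := by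
  have h := congrArg Prod.snd (P1b.env_state C R K T ω hK t htT)
  rw [← h]
  unfold Env.R
  simp

set_option linter.unusedVariables false in
/-- if the infected set is nonempty at all integer times, it is nonempty at all times -/
theorem surv_int (C : Clocks m δ d P) (ω : Ω) (hω : NoTies C ω)
    (h : ∀ t : ℕ, (infd C ω t).Nonempty) : ω ∈ Surv C := by
  intro t ht
  obtain ⟨x, R, hx⟩ := h ⌈t⌉₊
  rw [P1b.st_split C R (tot C R ω) ω le_rfl t ⌈t⌉₊ ht (Nat.le_ceil t)] at hx
  by_contra hne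
  rw [Set.not_nonempty_iff_eq_empty] at hne
  have h1 : (st C R ω t).2 = ∅ := by
    rw [Set.eq_empty_iff_forall_notMem]
    intro z hz
    have : z ∈ infd C ω t := ⟨R, hz⟩
    rw [hne] at this
    exact this
  have h2 := P1b.foldl_empty (R := R) (ringList (C.ring ω) (boxLab d R (tot C R ω + 1)) t ⌈t⌉₊)
    (st C R ω t).1
  rw [show ((st C R ω t).1, (∅ : Set (Pos d))) = st C R ω t from Prod.ext rfl h1.symm] at h2
  rw [h2] at hx
  exact hx

end ZQ.Rows
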