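import Pool.Agent.ZP.F1c
import Pool.Agent.ZQ.PJ
import Pool.Agent.ZQ.D0
import Pool.Agent.ZQ.LK
import Pool.Agent.ZQ.CK
import Pool.Agent.ZQ.P1b
import Pool.Agent.ZQ.P1
import Pool.Agent.ZP.P2a
import Pool.Agent.ZQ.P2b
import Pool.Agent.ZI.F1c

/-! # Row F1c: the real process and the scales (with recovery) -/

set_option autoImplicit false

open scoped ENNReal BigOperators Classical Pointwise
open MeasureTheory

noncomputable section

namespace ZQ.F1c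

open ZP hiding Agree AgreeW Base BlockFacts EK Env EqEnv GoodK Iset PastEv QK QT Surv Sys capE conf envB envC envT foldl_stepR_fst foldl_stepR_inter foldl_stepR_mono foldl_stepR_occ foldl_stepR_region inf infMv infMv_mono infMv_occ inf_comp inf_inter inf_mono_univ inf_occ inf_pred infd kill mem_foldl_stepR mem_infMv pe st stepI stepR visU visU_mono_univ
open ZP.F1c hiding EqEnv_R EqEnv_vis Fast R_bl chainA chainAR chainB chainBR envC_R_T envC_U envC_vis_T finite_speed inf_congr link_both link_bound region_of_slow tr visU_bl visU_congr vis_bl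

variable [ZQ.Thr]

open ZP hiding Agree AgreeW Base BlockFacts EK Env EqEnv GoodK Iset PastEv QK QT Surv Sys capE conf envB envC envT foldl_stepR_fst foldl_stepR_inter foldl_stepR_mono foldl_stepR_occ foldl_stepR_region inf infMv infMv_mono infMv_occ inf_comp inf_inter inf_mono_univ inf_occ inf_pred infd kill mem_foldl_stepR mem_infMv pe st stepI stepR visU visU_mono_univ
open ZP.Rows hiding R_mono R_occ R_of_noRec R_restrict R_route R_self R_split R_start R_toZI R_trans R_vis capE_envC cap_agree cfg_toZI envT_toZI foldl_stepR_noRec foldl_stepR_toZI inf_mono inf_noRec inf_split inf_start inf_toZI kill_R kill_envC kill_vis killed_agree mem_inf_iff nullMeas occ_toZI pe_path st_R st_mono st_vis surv_int sys_link sys_linkR transfer visU_mono visU_noRec visU_split visU_toZI vis_mono vis_mono_time vis_of_R vis_of_R' vis_of_noRec vis_restrict vis_toZI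
open ZQ.Rows
open ZQ

variable {d : ℕ} {m : Model} {δ : ℝ}

section det

variable {V : Type} (nb : V → Dir d → Option V) (pr : Pos d → V) (η0 : V → ℕ)

theorem inf_congr {U U' : ℕ → List (Lab V d)} {T : ℕ} (h : ∀ t < T, U t = U' t)
    (G : ℕ → Set (Pos d)) (s : ℕ) (A : Set (Pos d)) :
    ∀ j, s + j ≤ T → inf nb pr η0 U G s A j = inf nb pr η0 U' G s A j := by
  intro j
  induction j with
  | zero =>
    intro hj
    show {z | z ∈ A ∧ z ∈ G s ∧ Thr.θ ≤ cfg nb η0 U s (pr z)} =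
      {z | z ∈ A ∧ z ∈ G s ∧ Thr.θ ≤ cfg nb η0 U' s (pr z)}
    rw [cfg_congr nb η0 h s (by omega)]
  | succ j ih =>
    intro hj
    show ((U (s + j)).foldl (stepR nb pr (G (s + j)))
      (cfg nb η0 U (s + j), inf nb pr η0 U G s A j ∩ G (s + j))).2 =
      ((U' (s + j)).foldl (stepR nb pr (G (s + j)))
      (cfg nb η0 U' (s + j), inf nb pr η0 U' G s A j ∩ G (s + j))).2
    rw [ih (by omega), cfg_congr nb η0 h (s + j) (by omega), h (s + j) (by omega)]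

theorem visU_congr {U U' : ℕ → List (Lab V d)} {T : ℕ} (h : ∀ t < T, U t = U' t)
    (G : ℕ → Set (Pos d)) (s : ℕ) (A : Set (Pos d)) (j : ℕ) (hj : s + j < T) :
    visU nb pr η0 U G s A j = visU nb pr η0 U' G s A j := by
  unfold visU
  rw [inf_congr nb pr η0 h G s A j (by omega), cfg_congr nb η0 h (s + j) (by omega), h (s + j) hj]

end det

theorem EqEnv_vis {E E' : Env d} (h : EqEnv E E') {G : ℕ → Set (Pos d)} {s t : ℕ} {x b : Pos d} :
    E.vis G s x t b ↔ E'.vis G s x t b := by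
  unfold Env.vis
  constructor
  · rintro ⟨j, hj, hb⟩
    exact ⟨j, hj, by rw [← h.vis]; exact hb⟩
  · rintro ⟨j, hj, hb⟩
    exact ⟨j, hj, by rw [h.vis]; exact hb⟩

theorem EqEnv_R {E E' : Env d} (h : EqEnv E E') {G : ℕ → Set (Pos d)} {s t : ℕ} {x b : Pos d} :
    E.R G s x t b ↔ E'.R G s x t b := by
  unfold Env.R
  constructor
  · rintro ⟨j, hj, hb⟩
    exact ⟨j, hj, by rw [← h.inf]; exact hb⟩
  · rintro ⟨j, hj, hb⟩
    exact ⟨j, hj, by rw [h.inf]; exact hb⟩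

section clocks

variable {Ω : Type} [MeasurableSpace Ω] {P : Measure Ω} (C : Clocks m δ d P)

theorem envC_U (M K T T' : ℕ) (h : T ≤ T') (ω : Ω) :
    ∀ t < T, (envC C M K T ω).U t = (envC C M K T' ω).U t := by
  intro t ht
  have h1 : (envC C M K T ω).U t =
      (ringList (C.ring ω) (torLab d M (K + 1)) t (t + 1)).map (fun l => (tv l.1, l.2)) := if_pos ht
  have h2 : (envC C M K T' ω).U t =
      (ringList (C.ring ω) (torLab d M (K + 1)) t (t + 1)).map (fun l => (tv l.1, l.2)) :=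
    if_pos (lt_of_lt_of_le ht h)
  exact h1.trans h2.symm

theorem envC_vis_T (M K T T' : ℕ) (h : T ≤ T') (ω : Ω) {G : ℕ → Set (Pos d)} {s t : ℕ} {x b : Pos d}
    (ht : t ≤ T) : (envC C M K T ω).vis G s x t b ↔ (envC C M K T' ω).vis G s x t b := by
  have hU := envC_U C M K T T' h ω
  constructor
  · rintro ⟨j, hj, hb⟩
    refine ⟨j, hj, ?_⟩
    have := visU_congr (nbT (d := d) (M := M)) tv (fun v => C.η0 ω (lft v)) hU G s {x} j (by omega)
    exact this ▸ hb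
  · rintro ⟨j, hj, hb⟩
    refine ⟨j, hj, ?_⟩
    have := visU_congr (nbT (d := d) (M := M)) tv (fun v => C.η0 ω (lft v)) hU G s {x} j (by omega)
    exact this ▸ hb

theorem envC_R_T (M K T T' : ℕ) (h : T ≤ T') (ω : Ω) {G : ℕ → Set (Pos d)} {s t : ℕ} {x b : Pos d}
    (ht : t ≤ T) : (envC C M K T ω).R G s x t b ↔ (envC C M K T' ω).R G s x t b := by
  have hU := envC_U C M K T T' h ω
  constructor
  · rintro ⟨j, hj, hb⟩
    refine ⟨j, hj, ?_⟩
    have := inf_congr (nbT (d := d) (M := M)) tv (fun v => C.η0 ω (lft v)) hU G s {x} j (by omega)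
    exact this ▸ hb
  · rintro ⟨j, hj, hb⟩
    refine ⟨j, hj, ?_⟩
    have := inf_congr (nbT (d := d) (M := M)) tv (fun v => C.η0 ω (lft v)) hU G s {x} j (by omega)
    exact this ▸ hb

end clocks

/-- the infection from the origin is fast -/
def Fast (Cv r : ℕ) (T : ℕ) (E : Env d) : Prop :=
  ∃ y, E.vis (fun _ => Set.univ) 0 0 T y ∧ (Cv : ℝ) * T + r < nrm (y - 0)

theorem region_of_slow {E : Env d} {Cv r T N : ℕ} (h : ¬ Fast Cv r T E) (hN : Cv * T + r ≤ 4 * N)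
    (y : Pos d) (hy : E.vis (fun _ => Set.univ) 0 0 T y) : y ∈ bl d N := by
  have h1 : nrm y ≤ (4 * N : ℕ) := by
    by_contra h2
    push Not at h2
    refine h ⟨y, hy, ?_⟩
    rw [sub_zero]
    refine lt_of_le_of_lt ?_ h2
    exact_mod_cast hN
  exact ZI.F1c.supn_le_of_nrm h1

section clocks

variable {Ω : Type} [MeasurableSpace Ω] {P : Measure Ω} (C : Clocks m δ d P)

theorem visU_bl {M K T N Cv r : ℕ} {ω : Ω} (hTN : T ≤ N) (h : ¬ Fast Cv r T (envC C M K T ω))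
    (hN : Cv * T + r ≤ 4 * N) {t : ℕ} (ht : t ≤ T) :
    ∀ j, 0 + j < t → ∀ b ∈ visU (envC C M K N ω).nb (envC C M K N ω).pr (envC C M K N ω).η0
      (envC C M K N ω).U (fun _ => Set.univ) 0 {0} j, b ∈ bl d N := by
  intro j hj b hb
  refine region_of_slow h hN b ?_
  refine (envC_vis_T C M K T N hTN ω le_rfl).2 ?_
  exact ⟨j, by omega, hb⟩

/-- the infection in the torus is confined to the ball -/
theorem vis_bl {M K T N Cv r : ℕ} {ω : Ω} (hTN : T ≤ N) (h : ¬ Fast Cv r T (envC C M K T ω))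
    (hN : Cv * T + r ≤ 4 * N) {t : ℕ} (ht : t ≤ T) {b : Pos d}
    (hb : (envC C M K N ω).vis (fun _ => Set.univ) 0 0 t b) :
    (envC C M K N ω).vis (fun _ => bl d N) 0 0 t b := by
  have h1 := vis_restrict (envC C M K N ω) (G' := fun _ => bl d N) hb (visU_bl C hTN h hN ht)
  simpa only [Set.univ_inter] using h1

theorem R_bl {M K T N Cv r : ℕ} {ω : Ω} (hTN : T ≤ N) (h : ¬ Fast Cv r T (envC C M K T ω))
    (hN : Cv * T + r ≤ 4 * N) {t : ℕ} (ht : t ≤ T) {b : Pos d}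
    (hb : (envC C M K N ω).R (fun _ => Set.univ) 0 0 t b) :
    (envC C M K N ω).R (fun _ => bl d N) 0 0 t b := by
  have h1 := R_restrict (envC C M K N ω) (G' := fun _ => bl d N) hb (zero_mem_bl d N)
    (visU_bl C hTN h hN ht)
  simpa only [Set.univ_inter] using h1

end clocks

section clocks

variable {Ω : Type} [MeasurableSpace Ω] {P : Measure Ω}

end clocks

/-! ### the chain -/

/-- finite speed, by the projection to the chain without recovery -/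
theorem finite_speed (m : Model) (δ : ℝ) (d : ℕ) (hd : 0 < d) : ∃ Cv : ℕ, ∀ (q : Par d m δ)
    (x : Pos d) (t r : ℕ), 2 * (Cv * t + r + 2) < q.M →
    q.PP (t * q.N1) (fun η l => ∃ y, (envT q η l).vis (fun _ => Set.univ) 0 x t y ∧
      (Cv : ℝ) * t + r < nrm (y - x)) ≤ ENNReal.ofReal (Cv * Real.exp (- (r : ℝ))) := by
  obtain ⟨Cv, hCv⟩ := ZI.Rows.finite_speed m d
  refine ⟨Cv, fun q x t r h => ?_⟩
  refine le_trans ?_ (hCv q.toZI x t r h)
  refine le_trans ?_ (le_of_eq (PP_prj q hd (t * q.N1) (fun η l => ∃ y,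
    (ZI.envT q.toZI η l).vis (fun _ => Set.univ) 0 x t y ∧ (Cv : ℝ) * t + r < nrm (y - x))))
  refine PP_mono q _ fun η l => ?_
  rintro ⟨y, h1, h2⟩
  refine ⟨y, ?_, h2⟩
  have h3 := vis_toZI (envT q η l) h1
  rw [envT_toZI] at h3
  exact h3

section chain

variable {Ω : Type} [MeasurableSpace Ω] {P : Measure Ω} (C : Clocks m δ d P)

theorem chainA {R Rk M' Mk K K' N T Cv r : ℕ} {ω : Ω} (hR : 2 * R + 2 ≤ M') (hRk : 2 * Rk + 2 ≤ M')
    (hMk : 2 * Rk + 2 ≤ Mk) (hK : K ≤ K') (hTN : T ≤ N) (hN : Cv * T + r ≤ 4 * N)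
    (hω : NoTies C ω) (htot : tot C R ω ≤ K')
    (h1 : ∀ t b, (kill R (envC C M' K' N ω)).vis (fun _ => Set.univ) 0 0 t b →
      (envC C M' K' N ω).vis (fun _ => Set.univ) 0 0 t b)
    (h2 : ¬ Fast Cv r T (envC C M' K' T ω))
    (h3 : Agree N (envC C M' K' N ω) (kill Rk (envC C M' K' N ω)))
    (h4 : EqEnv (kill Rk (envC C Mk K' N ω)) (kill Rk (capE K (envC C Mk K' N ω))))
    (h5 : Agree N (envC C Mk K N ω) (kill Rk (envC C Mk K N ω)))
    {t : ℕ} (ht : 1 ≤ t) (htT : t ≤ T) {b : Pos d}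
    (hb : ∃ s : ℝ, 0 ≤ s ∧ s ≤ t ∧ b ∈ (st C R ω s).2) :
    (envC C Mk K T ω).vis (fun _ => Set.univ) 0 0 t b := by
  have e1 := (st_vis C R K' N ω hω htot t ht (htT.trans hTN) b).1 hb
  rw [← kill_envC C M' R K' N hR ω] at e1
  have e2 := vis_bl C hTN h2 hN htT (h1 t b e1)
  have e3 := (h3.vis (fun _ => bl d N) (fun _ => le_rfl) 0 t 0 b (htT.trans hTN)).1 e2
  rw [kill_envC C M' Rk K' N hRk ω, ← kill_envC C Mk Rk K' N hMk ω] at e3
  have e4 := (EqEnv_vis h4).1 e3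
  rw [capE_envC C Mk K' K N hK ω] at e4
  have e5 := (h5.vis (fun _ => bl d N) (fun _ => le_rfl) 0 t 0 b (htT.trans hTN)).2 e4
  exact (envC_vis_T C Mk K T N hTN ω htT).2
    (vis_mono (envC C Mk K N ω) (fun _ => Set.subset_univ _) e5)

theorem chainAR {R Rk M' Mk K K' N T Cv r : ℕ} {ω : Ω} (hR : 2 * R + 2 ≤ M') (hRk : 2 * Rk + 2 ≤ M')
    (hMk : 2 * Rk + 2 ≤ Mk) (hK : K ≤ K') (hTN : T ≤ N) (hN : Cv * T + r ≤ 4 * N)
    (hω : NoTies C ω) (htot : tot C R ω ≤ K')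
    (h1 : ∀ t b, (kill R (envC C M' K' N ω)).R (fun _ => Set.univ) 0 0 t b →
      (envC C M' K' N ω).R (fun _ => Set.univ) 0 0 t b)
    (h2 : ¬ Fast Cv r T (envC C M' K' T ω))
    (h3 : Agree N (envC C M' K' N ω) (kill Rk (envC C M' K' N ω)))
    (h4 : EqEnv (kill Rk (envC C Mk K' N ω)) (kill Rk (capE K (envC C Mk K' N ω))))
    (h5 : Agree N (envC C Mk K N ω) (kill Rk (envC C Mk K N ω)))
    {t : ℕ} (htT : t ≤ T) {b : Pos d} (hb : b ∈ (st C R ω t).2) :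
    (envC C Mk K T ω).R (fun _ => Set.univ) 0 0 t b := by
  have e1 := (st_R C R K' N ω hω htot t (htT.trans hTN) b).1 hb
  rw [← kill_envC C M' R K' N hR ω] at e1
  have e2 := R_bl C hTN h2 hN htT (h1 t b e1)
  have e3 := (h3.R (fun _ => bl d N) (fun _ => le_rfl) 0 t 0 b (htT.trans hTN)).1 e2
  rw [kill_envC C M' Rk K' N hRk ω, ← kill_envC C Mk Rk K' N hMk ω] at e3
  have e4 := (EqEnv_R h4).1 e3
  rw [capE_envC C Mk K' K N hK ω] at e4
  have e5 := (h5.R (fun _ => bl d N) (fun _ => le_rfl) 0 t 0 b (htT.trans hTN)).2 e4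
  exact (envC_R_T C Mk K T N hTN ω htT).2
    (R_mono (envC C Mk K N ω) (fun _ => Set.subset_univ _) e5)

theorem chainB {Rk Mk K K' N T Cv r : ℕ} {ω : Ω}
    (hMk : 2 * Rk + 2 ≤ Mk) (hK : K ≤ K') (hTN : T ≤ N) (hN : Cv * T + r ≤ 4 * N)
    (hω : NoTies C ω) (htot : tot C Rk ω ≤ K')
    (h2 : ¬ Fast Cv r T (envC C Mk K T ω))
    (h4 : EqEnv (kill Rk (envC C Mk K' N ω)) (kill Rk (capE K (envC C Mk K' N ω))))
    (h5 : Agree N (envC C Mk K N ω) (kill Rk (envC C Mk K N ω)))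
    {t : ℕ} (ht : 1 ≤ t) (htT : t ≤ T) {b : Pos d}
    (hb : (envC C Mk K T ω).vis (fun _ => Set.univ) 0 0 t b) :
    ∃ s : ℝ, 0 ≤ s ∧ s ≤ t ∧ b ∈ (st C Rk ω s).2 := by
  refine (st_vis C Rk K' N ω hω htot t ht (htT.trans hTN) b).2 ?_
  have e1 := vis_bl C hTN h2 hN htT ((envC_vis_T C Mk K T N hTN ω htT).1 hb)
  have e2 := (h5.vis (fun _ => bl d N) (fun _ => le_rfl) 0 t 0 b (htT.trans hTN)).1 e1
  rw [← capE_envC C Mk K' K N hK ω] at e2
  have e3 := vis_mono _ (G' := fun _ => Set.univ) (fun _ => Set.subset_univ _) ((EqEnv_vis h4).2 e2)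
  rw [kill_envC C Mk Rk K' N hMk ω] at e3
  exact e3

theorem chainBR {Rk Mk K K' N T Cv r : ℕ} {ω : Ω}
    (hMk : 2 * Rk + 2 ≤ Mk) (hK : K ≤ K') (hTN : T ≤ N) (hN : Cv * T + r ≤ 4 * N)
    (hω : NoTies C ω) (htot : tot C Rk ω ≤ K')
    (h2 : ¬ Fast Cv r T (envC C Mk K T ω))
    (h4 : EqEnv (kill Rk (envC C Mk K' N ω)) (kill Rk (capE K (envC C Mk K' N ω))))
    (h5 : Agree N (envC C Mk K N ω) (kill Rk (envC C Mk K N ω)))
    {t : ℕ} (htT : t ≤ T) {b : Pos d}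
    (hb : (envC C Mk K T ω).R (fun _ => Set.univ) 0 0 t b) : b ∈ (st C Rk ω t).2 := by
  refine (st_R C Rk K' N ω hω htot t (htT.trans hTN) b).2 ?_
  have e1 := R_bl C hTN h2 hN htT ((envC_R_T C Mk K T N hTN ω htT).1 hb)
  have e2 := (h5.R (fun _ => bl d N) (fun _ => le_rfl) 0 t 0 b (htT.trans hTN)).1 e1
  rw [← capE_envC C Mk K' K N hK ω] at e2
  have e3 := R_mono _ (G' := fun _ => Set.univ) (fun _ => Set.subset_univ _) ((EqEnv_R h4).2 e2)
  rw [kill_envC C Mk Rk K' N hMk ω] at e3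
  exact e3

end chain

section clocks

variable {Ω : Type} [MeasurableSpace Ω] {P : Measure Ω}

/-- transfer of an estimate from the chains to the clocks -/
theorem tr [IsProbabilityMeasure P] (hd : 0 < d) (hδ : 0 ≤ δ) (C : Clocks m δ d P) (M K T : ℕ)
    (hM : 5 ≤ M) (hK : 2 ≤ K) (hK' : 2 * m.φ ≤ m.g K) (e : ℝ) (he : 0 < e) (F : Env d → Prop)
    (b : ℝ≥0∞)
    (hb : ∀ q : Par d m δ, q.M = M → q.K = K → q.PP (T * q.N1) (fun η l => F (envT q η l)) ≤ b)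
    (htv : (M : ℝ≥0∞) ^ d * tv1 m K ≤ ENNReal.ofReal e) :
    P {ω | F (envC C M K T ω)} ≤ b + ENNReal.ofReal e + ENNReal.ofReal e := by
  obtain ⟨q, h1, h2, -, h3⟩ := transfer hd hδ C M K T hM hK hK' e 1 he one_pos
  refine (h3 F).trans ?_
  gcongr
  exact hb q h1 h2

/-- the union bound for the boxes `R` -/
theorem link_bound [IsProbabilityMeasure P] (hd : 0 < d) (hδ : 0 ≤ δ) (C : Clocks m δ d P)
    (Cv C1 C2 : ℕ)
    (hCv : ∀ (q : Par d m δ) (x : Pos d) (t r : ℕ), 2 * (Cv * t + r + 2) < q.M →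
      q.PP (t * q.N1) (fun η l => ∃ y, (envT q η l).vis (fun _ => Set.univ) 0 x t y ∧
      (Cv : ℝ) * t + r < nrm (y - x)) ≤ ENNReal.ofReal (Cv * Real.exp (- (r : ℝ))))
    (hC1 : ∀ q : Par d m δ, ∀ R N : ℕ, 2 * R + 2 ≤ q.M → 16 * N + 4 ≤ R →
      q.PP (N * q.N1) (fun η l => ¬ Agree N (envT q η l) (kill R (envT q η l))) ≤
      ENNReal.ofReal (C1 * (R + 1 : ℝ) ^ C1 * Real.exp (C1 * N - R / 4)))
    (hC2 : ∀ q : Par d m δ, ∀ K' T : ℕ, 2 * m.φ ≤ m.g K' →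
      q.PP (T * q.N1) (fun η l => ¬ (EqEnv (envT q η l) (capE K' (envT q η l)) ∧
      ∀ R : ℕ, 2 * R + 2 ≤ q.M → EqEnv (kill R (envT q η l)) (kill R (capE K' (envT q η l))))) ≤
      ENNReal.ofReal (T * (q.M : ℝ) ^ d * (C2 : ℝ) ^ (K' + 1) / K'.factorial))
    (n N T Rk Mk : ℕ) (hn : 2 ≤ n) (hMk5 : 5 ≤ Mk) (hMk : 2 * Rk + 2 ≤ Mk) (hRk : 16 * N + 4 ≤ Rk)
    (hTN : T ≤ N) (hN : Cv * T + n ≤ 4 * N) (hsp : 2 * (Cv * T + n + 2) < 2 * Rk + 2)
    (hφ : ∀ K ≥ n, 2 * m.φ ≤ m.g K)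
    (e1 : (C1 : ℝ) * ((Rk : ℝ) + 1) ^ C1 * Real.exp (C1 * N - (Rk : ℝ) / 4) ≤ Real.exp (-n))
    (e2 : (N : ℝ) * (Mk : ℝ) ^ d * (C2 : ℝ) ^ (n + 1) / n.factorial ≤ Real.exp (-n))
    (e3 : (Mk : ℝ≥0∞) ^ d * tv1 m n ≤ ENNReal.ofReal (Real.exp (-n))) :
    P {ω | ¬ ∀ t : ℕ, t ≤ T → ∀ b,
      (1 ≤ t → (b ∈ Iset C ω t ↔ (envC C Mk n T ω).vis (fun _ => Set.univ) 0 0 t b)) ∧
      (b ∈ infd C ω t ↔ (envC C Mk n T ω).R (fun _ => Set.univ) 0 0 t b)} ≤
      ((2 * Cv + 23 : ℕ) : ℝ≥0∞) * ENNReal.ofReal (Real.exp (-n)) := by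
  set e : ℝ≥0∞ := ENNReal.ofReal (Real.exp (-(n : ℝ))) with he
  have he0 : 0 < e := ENNReal.ofReal_pos.2 (Real.exp_pos _)
  have hexp : (0 : ℝ) < Real.exp (-(n : ℝ)) := Real.exp_pos _
  -- the single estimates
  have kSpeed : ∀ M K : ℕ, 2 * Rk + 2 ≤ M → n ≤ K → (M : ℝ≥0∞) ^ d * tv1 m K ≤ e →
      P {ω | Fast Cv n T (envC C M K T ω)} ≤ (Cv : ℝ≥0∞) * e + e + e := by
    intro M K hM hK htv
    refine tr hd hδ C M K T (by omega) (by omega) (hφ K hK) _ hexp (Fast Cv n T) _ ?_ htv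
    intro q h1 h2
    refine (hCv q 0 T n (by omega)).trans (le_of_eq ?_)
    rw [ENNReal.ofReal_mul (Nat.cast_nonneg Cv), ENNReal.ofReal_natCast]
  have kAgree : ∀ M K : ℕ, 2 * Rk + 2 ≤ M → n ≤ K → (M : ℝ≥0∞) ^ d * tv1 m K ≤ e →
      P {ω | ¬ Agree N (envC C M K N ω) (kill Rk (envC C M K N ω))} ≤ e + e + e := by
    intro M K hM hK htv
    refine tr hd hδ C M K N (by omega) (by omega) (hφ K hK) _ hexp
      (fun E => ¬ Agree N E (kill Rk E)) _ ?_ htv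
    intro q h1 h2
    refine (hC1 q Rk N (by omega) hRk).trans ?_
    exact ENNReal.ofReal_le_ofReal e1
  have kCap : ∀ K : ℕ, n ≤ K → (Mk : ℝ≥0∞) ^ d * tv1 m K ≤ e →
      P {ω | ¬ EqEnv (kill Rk (envC C Mk K N ω)) (kill Rk (capE n (envC C Mk K N ω)))} ≤
        e + e + e := by
    intro K hK htv
    refine tr hd hδ C Mk K N (by omega) (by omega) (hφ K hK) _ hexp
      (fun E => ¬ EqEnv (kill Rk E) (kill Rk (capE n E))) _ ?_ htv
    intro q h1 h2
    refine le_trans (PP_mono q _ ?_) ((hC2 q n N (hφ n le_rfl)).trans ?_)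
    · intro η l h h'
      exact h (h'.2 Rk (by omega))
    · rw [h1]
      exact ENNReal.ofReal_le_ofReal e2
  have kKill : ∀ R M K : ℕ, 2 * R + 2 ≤ M → 2 * Rk + 2 ≤ M → n ≤ K →
      (M : ℝ≥0∞) ^ d * tv1 m K ≤ e →
      P {ω | ¬ ∀ t b, ((kill R (envC C M K N ω)).vis (fun _ => Set.univ) 0 0 t b →
        (envC C M K N ω).vis (fun _ => Set.univ) 0 0 t b) ∧
        ((kill R (envC C M K N ω)).R (fun _ => Set.univ) 0 0 t b →
        (envC C M K N ω).R (fun _ => Set.univ) 0 0 t b)} ≤ 0 + e + e := by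
    intro R M K hR hM hK htv
    refine tr hd hδ C M K N (by omega) (by omega) (hφ K hK) _ hexp
      (fun E => ¬ ∀ t b, ((kill R E).vis (fun _ => Set.univ) 0 0 t b →
        E.vis (fun _ => Set.univ) 0 0 t b) ∧ ((kill R E).R (fun _ => Set.univ) 0 0 t b →
        E.R (fun _ => Set.univ) 0 0 t b)) _ ?_ htv
    intro q h1 h2
    refine le_of_eq (PP_zero q _ fun η l hl => hl fun t b => ⟨fun h => ?_, fun h => ?_⟩)
    · exact kill_vis q R (by omega) η l t b h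
    · exact kill_R q R (by omega) η l t b h
  -- boxes
  let vb : ℕ → Ω → ℕ → Pos d → Prop := fun R ω t b => ∃ s : ℝ, 0 ≤ s ∧ s ≤ t ∧ b ∈ (st C R ω s).2
  let AR : ℕ → Set Ω := fun R => {ω | NoTies C ω ∧ ∃ t : ℕ, t ≤ T ∧ ∃ b,
    (1 ≤ t ∧ vb R ω t b ∧ ¬ (envC C Mk n T ω).vis (fun _ => Set.univ) 0 0 t b) ∨
    (b ∈ (st C R ω t).2 ∧ ¬ (envC C Mk n T ω).R (fun _ => Set.univ) 0 0 t b)}
  let B : Set Ω := {ω | NoTies C ω ∧ ∃ t : ℕ, t ≤ T ∧ ∃ b,
    (1 ≤ t ∧ ¬ vb Rk ω t b ∧ (envC C Mk n T ω).vis (fun _ => Set.univ) 0 0 t b) ∨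
    (b ∉ (st C Rk ω t).2 ∧ (envC C Mk n T ω).R (fun _ => Set.univ) 0 0 t b)}
  have hmono : Monotone AR := by
    intro R R' hRR ω hω
    obtain ⟨h1, t, h3, b, h⟩ := hω
    refine ⟨h1, t, h3, b, ?_⟩
    rcases h with ⟨h2, ⟨s, h4, h5, h6⟩, h7⟩ | ⟨h6, h7⟩
    · exact Or.inl ⟨h2, ⟨s, h4, h5, (st_mono C R R' hRR ω h1 s).2 h6⟩, h7⟩
    · exact Or.inr ⟨(st_mono C R R' hRR ω h1 t).2 h6, h7⟩
  have hAR : ∀ R, Rk ≤ R → P (AR R) ≤ ((Cv + 14 : ℕ) : ℝ≥0∞) * e := by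
    intro R hR
    obtain ⟨K0, hK0⟩ := tot_small C R e he0
    obtain ⟨K1, hK1⟩ := ZI.F1c.tv_small m ((2 * R + 2 + Mk) ^ d) e he0
    set K : ℕ := max n (max K0 K1) with hKdef
    have b1 : n ≤ K := le_max_left _ _
    have b2 := hK0 K (le_trans (le_max_left _ _) (le_max_right _ _))
    have b3 := hK1 K (le_trans (le_max_right _ _) (le_max_right _ _))
    rw [Nat.cast_pow] at b3
    have b4 : ((2 * R + 2 : ℕ) : ℝ≥0∞) ^ d * tv1 m K ≤ e :=
      le_trans (mul_le_mul_left (pow_le_pow_left' (Nat.cast_le.2 (by omega)) d) _) b3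
    have b5 : ((Mk : ℕ) : ℝ≥0∞) ^ d * tv1 m K ≤ e :=
      le_trans (mul_le_mul_left (pow_le_pow_left' (Nat.cast_le.2 (by omega)) d) _) b3
    have hsub : AR R ⊆ {ω | K < tot C R ω} ∪
        ({ω | ¬ ∀ t b, ((kill R (envC C (2 * R + 2) K N ω)).vis (fun _ => Set.univ) 0 0 t b →
          (envC C (2 * R + 2) K N ω).vis (fun _ => Set.univ) 0 0 t b) ∧
          ((kill R (envC C (2 * R + 2) K N ω)).R (fun _ => Set.univ) 0 0 t b →
          (envC C (2 * R + 2) K N ω).R (fun _ => Set.univ) 0 0 t b)} ∪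
        ({ω | Fast Cv n T (envC C (2 * R + 2) K T ω)} ∪
        ({ω | ¬ Agree N (envC C (2 * R + 2) K N ω) (kill Rk (envC C (2 * R + 2) K N ω))} ∪
        ({ω | ¬ EqEnv (kill Rk (envC C Mk K N ω)) (kill Rk (capE n (envC C Mk K N ω)))} ∪
        {ω | ¬ Agree N (envC C Mk n N ω) (kill Rk (envC C Mk n N ω))})))) := by
      rintro ω ⟨h1, t, h3, b, h⟩
      by_contra hc
      simp only [Set.mem_union, Set.mem_ofPred_eq, not_or, not_not, not_lt] at hc
      obtain ⟨c1, c2, c3, c4, c5, c6⟩ := hc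
      rcases h with ⟨h2, h4, h5⟩ | ⟨h4, h5⟩
      · exact h5 (chainA C (le_refl (2 * R + 2)) (by omega) hMk b1 hTN hN h1 c1
          (fun t b => (c2 t b).1) c3 c4 c5 c6 h2 h3 h4)
      · exact h5 (chainAR C (le_refl (2 * R + 2)) (by omega) hMk b1 hTN hN h1 c1
          (fun t b => (c2 t b).2) c3 c4 c5 c6 h3 h4)
    refine (measure_mono hsub).trans ?_
    refine le_trans (measure_union_le _ _) ?_
    refine le_trans (add_le_add b2 (le_trans (measure_union_le _ _)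
      (add_le_add (kKill R (2 * R + 2) K le_rfl (by omega) b1 b4) (le_trans (measure_union_le _ _)
      (add_le_add (kSpeed (2 * R + 2) K (by omega) b1 b4) (le_trans (measure_union_le _ _)
      (add_le_add (kAgree (2 * R + 2) K (by omega) b1 b4) (le_trans (measure_union_le _ _)
      (add_le_add (kCap K b1 b5) (kAgree Mk n hMk le_rfl e3)))))))))) (le_of_eq ?_)
    push_cast
    ring
  have hB : P B ≤ ((Cv + 9 : ℕ) : ℝ≥0∞) * e := by
    obtain ⟨K0, hK0⟩ := tot_small C Rk e he0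
    obtain ⟨K1, hK1⟩ := ZI.F1c.tv_small m (Mk ^ d) e he0
    set K : ℕ := max n (max K0 K1) with hKdef
    have b1 : n ≤ K := le_max_left _ _
    have b2 := hK0 K (le_trans (le_max_left _ _) (le_max_right _ _))
    have b3 := hK1 K (le_trans (le_max_right _ _) (le_max_right _ _))
    rw [Nat.cast_pow] at b3
    have hsub : B ⊆ {ω | K < tot C Rk ω} ∪
        ({ω | Fast Cv n T (envC C Mk n T ω)} ∪
        ({ω | ¬ EqEnv (kill Rk (envC C Mk K N ω)) (kill Rk (capE n (envC C Mk K N ω)))} ∪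
        {ω | ¬ Agree N (envC C Mk n N ω) (kill Rk (envC C Mk n N ω))})) := by
      rintro ω ⟨h1, t, h3, b, h⟩
      by_contra hc
      simp only [Set.mem_union, Set.mem_ofPred_eq, not_or, not_not, not_lt] at hc
      obtain ⟨c1, c2, c3, c4⟩ := hc
      rcases h with ⟨h2, h4, h5⟩ | ⟨h4, h5⟩
      · exact h4 (chainB C hMk b1 hTN hN h1 c1 c2 c3 c4 h2 h3 h5)
      · exact h4 (chainBR C hMk b1 hTN hN h1 c1 c2 c3 c4 h3 h5)
    refine (measure_mono hsub).trans ?_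
    refine le_trans (measure_union_le _ _) ?_
    refine le_trans (add_le_add b2 (le_trans (measure_union_le _ _)
      (add_le_add (kSpeed Mk n hMk le_rfl e3) (le_trans (measure_union_le _ _)
      (add_le_add (kCap K b1 b3) (kAgree Mk n hMk le_rfl e3)))))) (le_of_eq ?_)
    push_cast
    ring
  have hU : P (⋃ R, AR R) ≤ ((Cv + 14 : ℕ) : ℝ≥0∞) * e := by
    rw [hmono.measure_iUnion]
    refine iSup_le fun R => ?_
    exact (measure_mono (hmono (le_max_left R Rk))).trans (hAR _ (le_max_right R Rk))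
  have hNT : P {ω | ¬ NoTies C ω} = 0 := no_ties hδ C
  have hsub : {ω | ¬ ∀ t : ℕ, t ≤ T → ∀ b,
      (1 ≤ t → (b ∈ Iset C ω t ↔ (envC C Mk n T ω).vis (fun _ => Set.univ) 0 0 t b)) ∧
      (b ∈ infd C ω t ↔ (envC C Mk n T ω).R (fun _ => Set.univ) 0 0 t b)} ⊆
      {ω | ¬ NoTies C ω} ∪ ((⋃ R, AR R) ∪ B) := by
    intro ω hω
    by_contra hc
    simp only [Set.mem_union, not_or] at hc
    obtain ⟨c1, c2, c3⟩ := hc
    have c1' : NoTies C ω := by
      by_contra h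
      exact c1 h
    refine hω fun t htT b => ⟨fun ht => ⟨fun hb => ?_, fun hb => ?_⟩, fun hb => ?_, fun hb => ?_⟩
    · by_contra h
      obtain ⟨s, h1, h2, R, h3⟩ := hb
      exact c2 (Set.mem_iUnion.2 ⟨R, c1', t, htT, b, Or.inl ⟨ht, ⟨s, h1, h2, h3⟩, h⟩⟩)
    · by_contra h
      refine c3 ⟨c1', t, htT, b, Or.inl ⟨ht, fun hv => h ?_, hb⟩⟩
      obtain ⟨s, h1, h2, h3⟩ := hv
      exact ⟨s, h1, h2, Rk, h3⟩
    · by_contra h
      obtain ⟨R, h3⟩ := hb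
      exact c2 (Set.mem_iUnion.2 ⟨R, c1', t, htT, b, Or.inr ⟨h3, h⟩⟩)
    · by_contra h
      exact c3 ⟨c1', t, htT, b, Or.inr ⟨fun hv => h ⟨Rk, hv⟩, hb⟩⟩
  refine (measure_mono hsub).trans ?_
  refine le_trans (measure_union_le _ _) ?_
  rw [hNT, zero_add]
  refine le_trans (measure_union_le _ _) (le_trans (add_le_add hU hB) (le_of_eq ?_))
  push_cast
  ring

/-- both links together -/
theorem link_both [IsProbabilityMeasure P] (hd : 0 < d) (hδ : 0 ≤ δ) (C : Clocks m δ d P) (A : ℕ) :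
    ∃ k0 : ℕ, ∀ k ≥ k0,
    P {ω | ¬ ∀ t : ℕ, t ≤ (2 ^ k) ^ 2 → ∀ b,
      (1 ≤ t → (b ∈ Iset C ω t ↔ (EK C k ω).vis (fun _ => Set.univ) 0 0 t b)) ∧
      (b ∈ infd C ω t ↔ (EK C k ω).R (fun _ => Set.univ) 0 0 t b)} ≤ err (rr A k) := by
  obtain ⟨Cv, hCv⟩ := finite_speed m δ d hd
  obtain ⟨C1, hC1⟩ := killed_agree m δ d hd
  obtain ⟨C2, hC2⟩ := cap_agree m δ d hd
  obtain ⟨C3, hC3⟩ := ZI.Rows.tv1_le m
  obtain ⟨n1, hn1⟩ := ZI.F1c.g_big m
  obtain ⟨n2, hn2⟩ := ZI.F1c.kill_small C1 (Cv + 2)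
  obtain ⟨n3, hn3⟩ := ZI.F1c.small (Cv + 2) (4 * d + 2) C2
  obtain ⟨n4, hn4⟩ := ZI.F1c.small 1 (4 * d) C3
  obtain ⟨n5, hn5⟩ := ZI.F1c.err_big A (2 * Cv + 23)
  refine ⟨n1 + n2 + n3 + n4 + n5 + 64 * (Cv + 2) + 8, fun k hk => ?_⟩
  have hkn : k < 2 ^ k := Nat.lt_two_pow_self
  set n : ℕ := 2 ^ k with hn
  have hbig : n1 + n2 + n3 + n4 + n5 + 64 * (Cv + 2) + 8 ≤ n := by omega
  have hn64 : 64 * (Cv + 2) + 8 ≤ n := by omega
  have q1 : n * n = n ^ 2 := by ring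
  have q2 : n ^ 2 * n ^ 2 = n ^ 4 := by ring
  have q3 : n ≤ n ^ 2 := by nlinarith
  have q4 : (64 * (Cv + 2) + 8) * n ^ 2 ≤ n ^ 4 := by
    rw [← q2]
    exact Nat.mul_le_mul_right _ (le_trans hn64 q3)
  have q5 : 64 ≤ n ^ 2 := by nlinarith
  have hRk : 16 * ((Cv + 2) * n ^ 2) + 4 ≤ n ^ 4 / 4 := by
    rw [Nat.le_div_iff_mul_le (by norm_num)]
    nlinarith
  refine le_trans ?_ (hn5 k (by omega))
  refine link_bound hd hδ C Cv C1 C2 hCv hC1 hC2 n ((Cv + 2) * n ^ 2) (n ^ 2) (n ^ 4 / 4) (n ^ 4)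
    (by omega) (by omega) (by omega) hRk (by nlinarith) (by nlinarith) ?_ ?_ ?_ ?_ ?_
  · nlinarith
  · intro K hK
    exact hn1 K (by omega)
  · exact hn2 n (by omega)
  · refine le_trans (le_of_eq ?_) (hn3 n (by omega))
    push_cast
    ring
  · refine le_trans (mul_le_mul_right (hC3 n (by omega) (hn1 n (by omega))) _) ?_
    rw [show ((n ^ 4 : ℕ) : ℝ≥0∞) ^ d = ENNReal.ofReal (((n : ℝ) ^ 4) ^ d) by
      rw [ENNReal.ofReal_pow (by positivity), ENNReal.ofReal_pow (by positivity),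
        ENNReal.ofReal_natCast]
      push_cast
      rfl, ← ENNReal.ofReal_mul (by positivity)]
    refine ENNReal.ofReal_le_ofReal (le_trans (le_of_eq ?_) (hn4 n (by omega)))
    rw [← pow_mul]
    push_cast
    ring

end clocks

end ZQ.F1c

namespace ZQ.Rows

open ZP hiding Agree AgreeW Base BlockFacts EK Env EqEnv GoodK Iset PastEv QK QT Surv Sys capE conf envB envC envT foldl_stepR_fst foldl_stepR_inter foldl_stepR_mono foldl_stepR_occ foldl_stepR_region inf infMv infMv_mono infMv_occ inf_comp inf_inter inf_mono_univ inf_occ inf_pred infd kill mem_foldl_stepR mem_infMv pe st stepI stepR visU visU_mono_univ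
open ZP.Rows hiding R_mono R_occ R_of_noRec R_restrict R_route R_self R_split R_start R_toZI R_trans R_vis capE_envC cap_agree cfg_toZI envT_toZI foldl_stepR_noRec foldl_stepR_toZI inf_mono inf_noRec inf_split inf_start inf_toZI kill_R kill_envC kill_vis killed_agree mem_inf_iff nullMeas occ_toZI pe_path st_R st_mono st_vis surv_int sys_link sys_linkR transfer visU_mono visU_noRec visU_split visU_toZI vis_mono vis_mono_time vis_of_R vis_of_R' vis_of_noRec vis_restrict vis_toZI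

variable [ZQ.Thr]

open ZP hiding Agree AgreeW Base BlockFacts EK Env EqEnv GoodK Iset PastEv QK QT Surv Sys capE conf envB envC envT foldl_stepR_fst foldl_stepR_inter foldl_stepR_mono foldl_stepR_occ foldl_stepR_region inf infMv infMv_mono infMv_occ inf_comp inf_inter inf_mono_univ inf_occ inf_pred infd kill mem_foldl_stepR mem_infMv pe st stepI stepR visU visU_mono_univ
open ZP.F1c hiding EqEnv_R EqEnv_vis Fast R_bl chainA chainAR chainB chainBR envC_R_T envC_U envC_vis_T finite_speed inf_congr link_both link_bound region_of_slow tr visU_bl visU_congr vis_bl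
open ZQ.F1c
open ZQ

variable {d : ℕ} {m : Model} {δ : ℝ} {Ω : Type} [MeasurableSpace Ω] {P : Measure Ω}

theorem sys_link [IsProbabilityMeasure P] (hd : 0 < d) (hδ : 0 ≤ δ) (C : Clocks m δ d P) (A : ℕ)
    (hA : 1 ≤ A) :
    ∃ k0 : ℕ, ∀ k ≥ k0,
    P {ω | ¬ ∀ t : ℕ, 1 ≤ t → t ≤ (2 ^ k) ^ 2 → ∀ b,
      (b ∈ Iset C ω t ↔ (EK C k ω).vis (fun _ => Set.univ) 0 0 t b)} ≤ err (rr A k) := by
  obtain ⟨k0, h⟩ := link_both hd hδ C A
  refine ⟨k0, fun k hk => (measure_mono ?_).trans (h k hk)⟩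
  intro ω hω hall
  exact hω fun t h1 h2 b => (hall t h2 b).1 h1

/-- the same for the infected set at the integer times -/
theorem sys_linkR [IsProbabilityMeasure P] (hd : 0 < d) (hδ : 0 ≤ δ) (C : Clocks m δ d P) (A : ℕ)
    (hA : 1 ≤ A) :
    ∃ k0 : ℕ, ∀ k ≥ k0,
    P {ω | ¬ ∀ t : ℕ, t ≤ (2 ^ k) ^ 2 → ∀ b,
      (b ∈ infd C ω t ↔ (EK C k ω).R (fun _ => Set.univ) 0 0 t b)} ≤ err (rr A k) := by
  obtain ⟨k0, h⟩ := link_both hd hδ C A
  refine ⟨k0, fun k hk => (measure_mono ?_).trans (h k hk)⟩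
  intro ω hω hall
  exact hω fun t h2 b => (hall t h2 b).2

end ZQ.Rows
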