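import Pool.Agent.ZP.POS
import Pool.Agent.ZQ.Sys2
import Pool.Agent.ZQ.ProcE
import Pool.Agent.ZQ.D0
import Pool.Agent.ZQ.D0b
import Pool.Agent.ZQ.F1a
import Pool.Agent.ZP.R2
import Pool.Agent.ZQ.P1b
import Pool.Agent.ZP.P2a
import Pool.Agent.ZQ.E4
import Pool.Agent.ZQ.F1c

/-! # POS: survival has positive probability -/

set_option autoImplicit false

open scoped ENNReal BigOperators Classical Pointwise
open MeasureTheory

noncomputable section

namespace ZQ.POS

open ZP hiding Agree AgreeW Base BlockFacts EK Env EqEnv GoodK IsGamma Iset LowTail PastEv QK QT StepP Surv Sys UpTail capE conf envB envC envT foldl_stepR_fst foldl_stepR_inter foldl_stepR_mono foldl_stepR_occ foldl_stepR_region inf infMv infMv_mono infMv_occ inf_comp inf_inter inf_mono_univ inf_occ inf_pred infd kill mem_foldl_stepR mem_infMv muK pe st stepI stepR visU visU_mono_univ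
open ZP.POS hiding Al Al_take PP_alive R_shiftU alive_shift surv_pos_of

variable [ZQ.Thr]

open ZP hiding Agree AgreeW Base BlockFacts EK Env EqEnv GoodK IsGamma Iset LowTail PastEv QK QT StepP Surv Sys UpTail capE conf envB envC envT foldl_stepR_fst foldl_stepR_inter foldl_stepR_mono foldl_stepR_occ foldl_stepR_region inf infMv infMv_mono infMv_occ inf_comp inf_inter inf_mono_univ inf_occ inf_pred infd kill mem_foldl_stepR mem_infMv muK pe st stepI stepR visU visU_mono_univ
open ZQ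

section

variable {d : ℕ} {m : Model} {δ : ℝ} {Ω : Type} [MeasurableSpace Ω] {P : Measure Ω}

theorem surv_pos_of [IsProbabilityMeasure P] (C : Clocks m δ d P)
    {Cv a A : ℕ} (ha : 10 ≤ a) (haA : 1000 * a ≤ A)
    (hsplit : ∀ (E : Env d) (G : ℕ → Set (Pos d)) (s t : ℕ) (x y : Pos d), E.R G s x t y →
      ∀ τ : ℕ, s ≤ τ → τ < t → ∃ z, z ∈ G τ ∧ E.R G s x τ z ∧ E.R G τ z t y)
    (htrans : ∀ (E : Env d) (G : ℕ → Set (Pos d)) (s t t' : ℕ) (x y y' : Pos d), E.R G s x t y →
      E.R G t y t' y' → E.R G s x t' y')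
    (hfg : ∀ (E : Env d) (r κ S Dm : ℕ), E.Good r κ Cv S Dm → Cv * κ + r ≤ κ ^ 2 →
      ∀ (t t' : ℕ) (x y : Pos d), t + κ ≤ t' → t' ≤ S → E.R (fun _ => Set.univ) t x t' y → E.fg κ t x)
    (hpers : ∀ (E : Env d) (r κ S Dm : ℕ), E.Good r κ Cv S Dm → Cv * κ + r ≤ κ ^ 2 →
      4 * d * κ ≤ Dm → ∀ (t : ℕ) (x : Pos d), κ ≤ t → E.fg κ t x → ∀ t' : ℕ, t ≤ t' →
      t' + 4 * d * κ ^ 2 ≤ S → ∃ y, E.R (fun _ => Set.univ) t x t' y ∧ E.fg κ t' y)
    (hgood : ∃ k0 : ℕ, ∀ k ≥ k0, P {ω | ¬ GoodK a A Cv k (EK C k ω)} ≤ err (rr A k))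
    (hlink : ∃ k0 : ℕ, ∀ k ≥ k0, P {ω | ¬ ∀ t : ℕ, t ≤ (2 ^ k) ^ 2 → ∀ b,
      (b ∈ infd C ω t ↔ (EK C k ω).R (fun _ => Set.univ) 0 0 t b)} ≤ err (rr A k))
    (hshift : ∃ k0 : ℕ, ∀ k ≥ k0, ∀ s0 T : ℕ, s0 + T ≤ (2 ^ k) ^ 2 → ∀ z : Pos d,
      P {ω | ∃ y, (EK C k ω).R (fun _ => Set.univ) s0 z (s0 + T) y} ≤
        P {ω | ∃ y, (EK C k ω).R (fun _ => Set.univ) 0 0 T y} + err (rr A k))
    (hint : ∀ ω, NoTies C ω → (∀ t : ℕ, (infd C ω t).Nonempty) → ω ∈ Surv C)
    (hties : ∀ᵐ ω ∂P, NoTies C ω) : 0 < P (Surv C) := by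
  obtain ⟨k1, hk1⟩ := hgood
  obtain ⟨k2, hk2⟩ := hlink
  obtain ⟨k3, hk3⟩ := hshift
  obtain ⟨k4, hk4⟩ := scale d a A Cv ha haA
  obtain ⟨k5, hk5⟩ := small d A a (by omega) (by omega)
  set k := k1 + k2 + k3 + k4 + k5 with hk
  -- the events
  let L : ℕ → Set Ω := fun j => {ω | ∀ t : ℕ, t ≤ (2 ^ j) ^ 2 → ∀ b,
      (b ∈ infd C ω t ↔ (EK C j ω).R (fun _ => Set.univ) 0 0 t b)}
  let X : ℕ → Set Ω := fun j => {ω | ω ∈ L j ∧
      ∃ y, (EK C j ω).R (fun _ => Set.univ) 0 0 (TT d a A j) y}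
  -- facts on TT
  have hTT : ∀ j ≥ k4, TT d a A j + 4 * d * kp a A j ^ 2 + kp a A j = (2 ^ j) ^ 2 := by
    intro j hj
    have := (hk4 j hj).2.2.2
    unfold TT
    omega
  have hTT2 : ∀ j ≥ k4, 2 * kp a A (j + 1) + 1 + j ≤ TT d a A j := by
    intro j hj
    have := (hk4 j hj).2.2.2
    unfold TT
    omega
  -- step 1
  have step1 : (1 : ℝ≥0∞) ≤ err (rr A k) + (((2 * kp a A k + 1) ^ d : ℕ) : ℝ≥0∞) *
      (P (X k) + err (rr A k) + err (rr A k)) := by
    have hB0 : P {ω | ∃ y, (EK C k ω).R (fun _ => Set.univ) 0 0 (TT d a A k) y} ≤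
        P (X k) + err (rr A k) := by
      refine (measure_mono (t := X k ∪ {ω | ¬ ∀ t : ℕ, t ≤ (2 ^ k) ^ 2 → ∀ b,
        (b ∈ infd C ω t ↔ (EK C k ω).R (fun _ => Set.univ) 0 0 t b)}) ?_).trans
        ((measure_union_le _ _).trans (add_le_add le_rfl (hk2 k (by omega))))
      intro ω hω
      by_cases h : ∀ t : ℕ, t ≤ (2 ^ k) ^ 2 → ∀ b,
        (b ∈ infd C ω t ↔ (EK C k ω).R (fun _ => Set.univ) 0 0 t b)
      · exact Or.inl ⟨h, hω⟩
      · exact Or.inr h
    have hBv : ∀ v : Pos d, P {ω | ∃ y, (EK C k ω).R (fun _ => Set.univ) (kp a A k) v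
        (kp a A k + TT d a A k) y} ≤ P (X k) + err (rr A k) + err (rr A k) := by
      intro v
      have h1 := hTT k (by omega)
      exact (hk3 k (by omega) (kp a A k) (TT d a A k) (by omega) v).trans (add_le_add hB0 le_rfl)
    have hcov : (Set.univ : Set Ω) ⊆ {ω | ¬ GoodK a A Cv k (EK C k ω)} ∪
        ⋃ v ∈ box d (kp a A k), {ω | ∃ y, (EK C k ω).R (fun _ => Set.univ) (kp a A k) v
        (kp a A k + TT d a A k) y} := by
      intro ω _
      by_cases hG : GoodK a A Cv k (EK C k ω)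
      · right
        obtain ⟨hκ1, hκ2, hκ3, hκ4⟩ := hk4 k (by omega)
        have h1 := hTT k (by omega)
        have h2 := hTT2 k (by omega)
        have hG' : (EK C k ω).Good (rr A k) (kp a A k) Cv ((2 ^ k) ^ 2) ((2 ^ k) ^ 2) := hG
        have hle : kp a A k + kp a A k ≤ (2 ^ k) ^ 2 := by
          by_cases hd0 : d = 0
          · subst hd0
            have h3 : kp a A k ≤ 2 ^ (k / 1000) := kp_le a A k haA
            have h4 : 2 ^ (k / 1000) ≤ 2 ^ k := Nat.pow_le_pow_right (by norm_num) (Nat.div_le_self _ _)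
            have h5 : 2 * 2 ^ k ≤ (2 ^ k) ^ 2 ∨ k = 0 := by
              by_cases hk0 : k = 0
              · exact Or.inr hk0
              · left
                have : 2 ≤ 2 ^ k := Nat.le_self_pow hk0 2
                nlinarith
            rcases h5 with h5 | h5
            · omega
            · have : kp a A k ≤ 1 := by simpa [h5] using h3
              have h6 : 2 * kp a A (k + 1) + 1 + k ≤ TT 0 a A k := h2
              omega
          · have h3 : kp a A k ≤ kp a A k ^ 2 := Nat.le_self_pow (by norm_num) _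
            have h4 : kp a A k ^ 2 ≤ 4 * d * kp a A k ^ 2 := Nat.le_mul_of_pos_left _ (by omega)
            omega
        obtain ⟨v, -, hv, hok⟩ := hG'.g1 (kp a A k) le_rfl hle 0
        rw [zero_add] at hok
        obtain ⟨y, hy, -⟩ := hpers (EK C k ω) _ _ _ _ hG' hκ2 hκ3 (kp a A k) v le_rfl hok.1
          (kp a A k + TT d a A k) (by omega) (by omega)
        exact Set.mem_biUnion (mem_box hv) ⟨y, hy⟩
      · exact Or.inl hG
    calc (1 : ℝ≥0∞) = P Set.univ := measure_univ.symm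
      _ ≤ P {ω | ¬ GoodK a A Cv k (EK C k ω)} +
          ∑ v ∈ box d (kp a A k), P {ω | ∃ y, (EK C k ω).R (fun _ => Set.univ) (kp a A k) v
          (kp a A k + TT d a A k) y} :=
          (measure_mono hcov).trans ((measure_union_le _ _).trans
            (add_le_add le_rfl (measure_biUnion_finset_le _ _)))
      _ ≤ err (rr A k) + ∑ _v ∈ box d (kp a A k), (P (X k) + err (rr A k) + err (rr A k)) :=
          add_le_add (hk1 k (by omega)) (Finset.sum_le_sum fun v _ => hBv v)
      _ = _ := by rw [Finset.sum_const, card_box, nsmul_eq_mul]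
  -- step 2
  have step2 : P (X k) ≤ P (⋂ i : ℕ, X (k + i)) + 2 * ∑' i : ℕ, err (rr A (k + (i + 1))) := by
    have hcov : X k ⊆ (⋂ i : ℕ, X (k + i)) ∪ ⋃ i : ℕ,
        ({ω | ¬ GoodK a A Cv (k + (i + 1)) (EK C (k + (i + 1)) ω)} ∪ (L (k + (i + 1)))ᶜ) := by
      intro ω hω
      by_cases hbad : ∃ i : ℕ, ω ∈ ({ω | ¬ GoodK a A Cv (k + (i + 1)) (EK C (k + (i + 1)) ω)} ∪
          (L (k + (i + 1)))ᶜ : Set Ω)
      · exact Or.inr (Set.mem_iUnion.2 hbad)
      · left
        push Not at hbad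
        rw [Set.mem_iInter]
        intro i
        induction i with
        | zero => exact hω
        | succ i ih =>
          have h0 := hbad i
          rw [Set.mem_union, not_or] at h0
          obtain ⟨hG, hL⟩ := h0
          have hG' : (EK C (k + (i + 1)) ω).Good (rr A (k + (i + 1))) (kp a A (k + (i + 1))) Cv
              ((2 ^ (k + (i + 1))) ^ 2) ((2 ^ (k + (i + 1))) ^ 2) := by
            by_contra hcon
            exact hG hcon
          have hL' : ω ∈ L (k + (i + 1)) := by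
            by_contra hcon
            exact hL hcon
          obtain ⟨hLi, y, hy⟩ := ih
          have e1 := hTT (k + i) (by omega)
          have e2 := hTT2 (k + i) (by omega)
          have e3 := hTT (k + (i + 1)) (by omega)
          have e4 := hTT2 (k + (i + 1)) (by omega)
          have e5 : k + i + 1 = k + (i + 1) := by omega
          have e6 := kp_mono a A (k + (i + 1))
          rw [e5] at e2
          obtain ⟨hκ1, hκ2, hκ3, -⟩ := hk4 (k + (i + 1)) (by omega)
          have hpow : (2 ^ (k + i)) ^ 2 ≤ (2 ^ (k + (i + 1))) ^ 2 :=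
            Nat.pow_le_pow_left (Nat.pow_le_pow_right (by norm_num) (by omega)) 2
          have hinf : y ∈ infd C ω ((TT d a A (k + i) : ℕ) : ℝ) :=
            (hLi (TT d a A (k + i)) (by omega) y).2 hy
          have hy' := (hL' (TT d a A (k + i)) (by omega) y).1 hinf
          obtain ⟨x, -, hx1, hx2⟩ := hsplit _ _ _ _ _ _ hy' (kp a A (k + (i + 1))) (Nat.zero_le _)
            (by omega)
          have hf := hfg _ _ _ _ _ hG' hκ2 _ _ _ _ (by omega) (by omega) hx2
          obtain ⟨y2, hy2, -⟩ := hpers _ _ _ _ _ hG' hκ2 hκ3 _ _ le_rfl hf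
            (TT d a A (k + (i + 1))) (by omega) (by omega)
          exact ⟨hL', y2, htrans _ _ _ _ _ _ _ _ hx1 hy2⟩
    calc P (X k) ≤ P (⋂ i : ℕ, X (k + i)) + ∑' i : ℕ,
          P ({ω | ¬ GoodK a A Cv (k + (i + 1)) (EK C (k + (i + 1)) ω)} ∪ (L (k + (i + 1)))ᶜ) :=
          (measure_mono hcov).trans ((measure_union_le _ _).trans
            (add_le_add le_rfl (measure_iUnion_le _)))
      _ ≤ P (⋂ i : ℕ, X (k + i)) + ∑' i : ℕ, 2 * err (rr A (k + (i + 1))) := by
          refine add_le_add le_rfl (ENNReal.tsum_le_tsum fun i => ?_)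
          rw [two_mul]
          exact (measure_union_le _ _).trans (add_le_add (hk1 _ (by omega)) (hk2 _ (by omega)))
      _ = _ := by rw [ENNReal.tsum_mul_left]
  -- step 3
  have step3 : P (⋂ i : ℕ, X (k + i)) ≤ P (Surv C) := by
    have hn : P {ω | ¬ NoTies C ω} = 0 := hties
    calc P (⋂ i : ℕ, X (k + i)) ≤ P (Surv C ∪ {ω | ¬ NoTies C ω}) := by
          refine measure_mono fun ω hω => ?_
          by_cases hnt : NoTies C ω
          · left
            refine hint ω hnt fun t => ?_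
            have h1 := Set.mem_iInter.1 hω t
            obtain ⟨hL, y, hy⟩ := h1
            have e1 := hTT (k + t) (by omega)
            have e2 := hTT2 (k + t) (by omega)
            obtain ⟨x, -, hx1, -⟩ := hsplit _ _ _ _ _ _ hy t (Nat.zero_le _) (by omega)
            exact ⟨x, (hL t (by omega) x).2 hx1⟩
          · exact Or.inr hnt
      _ ≤ P (Surv C) + P {ω | ¬ NoTies C ω} := measure_union_le _ _
      _ = P (Surv C) := by rw [hn, add_zero]
  by_contra hcon
  have h0 : P (Surv C) = 0 := le_antisymm (not_lt.1 hcon) zero_le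
  have h1 : ∑' i : ℕ, err (rr A (k + i)) = err (rr A k) + ∑' i : ℕ, err (rr A (k + (i + 1))) := by
    have := tsum_eq_zero_add' (f := fun i : ℕ => err (rr A (k + i))) ENNReal.summable
    simpa using this
  have h2 : P (X k) + err (rr A k) + err (rr A k) ≤ 2 * ∑' i : ℕ, err (rr A (k + i)) := by
    rw [h0] at step3
    have h3 : P (X k) ≤ 2 * ∑' i : ℕ, err (rr A (k + (i + 1))) := by
      refine step2.trans ?_
      have : P (⋂ i : ℕ, X (k + i)) = 0 := le_antisymm step3 zero_le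
      rw [this, zero_add]
    rw [h1, mul_add, two_mul (err (rr A k))]
    calc P (X k) + err (rr A k) + err (rr A k)
        ≤ 2 * ∑' i : ℕ, err (rr A (k + (i + 1))) + err (rr A k) + err (rr A k) := by gcongr
      _ = _ := by ring
  have h4 := hk5 k (by omega)
  have h5 : (1 : ℝ≥0∞) ≤ err (rr A k) + (((2 * kp a A k + 1) ^ d : ℕ) : ℝ≥0∞) *
      (2 * ∑' i : ℕ, err (rr A (k + i))) :=
    step1.trans (add_le_add le_rfl (mul_le_mul' le_rfl h2))
  exact absurd h4 (not_lt.2 h5)

end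

/-! ### shift in space and time -/

open ZP.Rows hiding R_mono R_occ R_of_noRec R_restrict R_route R_self R_split R_start R_toZI R_trans R_vis agree_take bg_of_R bh_chain block_facts capE_envC cap_agree cfg_toZI chain_eq chain_shift envT_toZI fg_R fg_of_R foldl_stepR_noRec foldl_stepR_toZI inf_mono inf_noRec inf_split inf_start inf_toZI kill_R kill_envC kill_vis killed_agree mem_inf_iff near_ok nullMeas occ_toZI ok_occ pe_path persist persist_steps st_R st_mono st_vis start_inv surv_int surv_pos sys_chain_of sys_good sys_link sys_linkR sys_shift sys_tsumQ transfer visU_mono visU_noRec visU_split visU_toZI vis_mono vis_mono_time vis_of_R vis_of_R' vis_of_noRec vis_restrict vis_toZI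
open ZQ.Rows
open ZP.F1a (PP_shift)
open ZQ.F1a (core)

theorem R_shiftU {d : ℕ} {m : Model} {δ : ℝ} (q : Par d m δ) (η : Tor d q.M → ℕ)
    (l : List (Let d q.M (q.K + 1))) (z : Pos d) (s : ℕ) (x : Pos d) (t' : ℕ) (y : Pos d) :
    (envT q (fun v => (l.take (s * q.N1)).foldl stepA η (v + tv z))
      ((l.drop (s * q.N1)).map (shL (-(tv z))))).R (fun _ => Set.univ) 0 x t' y ↔
    (envT q η l).R (fun _ => Set.univ) s (x + z) (s + t') (y + z) :=
  E4.R_shift q η l z s (fun _ => Set.univ) 0 x t' y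

section AS

variable {d : ℕ} {m : Model} {δ : ℝ}

/-- the infection from the origin is alive at the time `T` -/
def Al (q : Par d m δ) (T : ℕ) (η : Tor d q.M → ℕ) (l : List (Let d q.M (q.K + 1))) : Prop :=
  ∃ y, (envT q η l).R (fun _ => Set.univ) 0 0 T y

theorem Al_take (q : Par d m δ) (T : ℕ) (η : Tor d q.M → ℕ) (l : List (Let d q.M (q.K + 1))) :
    Al q T η l ↔ Al q T η (l.take (T * q.N1)) := by
  have h := agree_take q η l T (fun _ => Set.univ)
  unfold Al
  exact exists_congr fun y => h.R (fun _ => Set.univ) (fun _ _ => subset_rfl) 0 T 0 y le_rfl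

theorem PP_alive (q : Par d m δ) (hd : 0 < d) (S s0 T : ℕ) (h : s0 + T ≤ S) (z : Pos d) :
    q.PP (S * q.N1) (fun η l => ∃ y, (envT q η l).R (fun _ => Set.univ) s0 z (s0 + T) y) =
      q.PP (T * q.N1) (Al q T) := by
  have h1 : ∀ (η : Tor d q.M → ℕ) (l : List (Let d q.M (q.K + 1))),
      (∃ y, (envT q η l).R (fun _ => Set.univ) s0 z (s0 + T) y) ↔
      Al q T (fun v => (l.take (s0 * q.N1)).foldl stepA η (v + tv z))
        (((l.drop (s0 * q.N1)).take (T * q.N1)).map (shL (-(tv z)))) := by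
    intro η l
    rw [List.map_take, ← Al_take]
    constructor
    · rintro ⟨y, hy⟩
      refine ⟨y - z, (R_shiftU q η l z s0 0 T (y - z)).2 ?_⟩
      rw [zero_add, sub_add_cancel]
      exact hy
    · rintro ⟨y, hy⟩
      refine ⟨y + z, ?_⟩
      have h2 := (R_shiftU q η l z s0 0 T y).1 hy
      rw [zero_add] at h2
      exact h2
  have h2 := PP_shift q hd S s0 T h
    (fun η l => Al q T (fun v => η (v + tv z)) (l.map (shL (-(tv z)))))
  have h3 : q.PP (S * q.N1) (fun η l => ∃ y, (envT q η l).R (fun _ => Set.univ) s0 z (s0 + T) y) =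
      q.PP (S * q.N1) (fun η l => Al q T (fun v => (l.take (s0 * q.N1)).foldl stepA η (v + tv z))
        (((l.drop (s0 * q.N1)).take (T * q.N1)).map (shL (-(tv z))))) := by
    congr 1
    funext η l
    exact propext (h1 η l)
  rw [h3, h2]
  have h4 := translation q (-(tv z)) (T * q.N1) (fun η l => if Al q T η l then 1 else 0)
  simp only [sub_neg_eq_add] at h4
  exact h4

variable {Ω : Type} [MeasurableSpace Ω] {P : Measure Ω}

theorem alive_shift [IsProbabilityMeasure P] (hd : 0 < d) (hδ : 0 ≤ δ) (C : Clocks m δ d P) (A : ℕ)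
    (hA : 1 ≤ A) :
    ∃ k0 : ℕ, ∀ k ≥ k0, ∀ s0 T : ℕ, s0 + T ≤ (2 ^ k) ^ 2 → ∀ z : Pos d,
      P {ω | ∃ y, (EK C k ω).R (fun _ => Set.univ) s0 z (s0 + T) y} ≤
        P {ω | ∃ y, (EK C k ω).R (fun _ => Set.univ) 0 0 T y} + err (rr A k) := by
  obtain ⟨k1, hk1⟩ := core hd hδ C A hA
  refine ⟨k1, fun k hk s0 T hT z => ?_⟩
  obtain ⟨q, hqM, -, ε, hε, hq, hq'⟩ := hk1 k hk
  have h1 := hq (fun E => ∃ y, E.R (fun _ => Set.univ) s0 z (s0 + T) y)
  have h2 := hq' (fun E => ∃ y, E.R (fun _ => Set.univ) 0 0 T y)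
  have h3 := PP_alive q hd ((2 ^ k) ^ 2) s0 T hT z
  have h4 := PP_alive q hd ((2 ^ k) ^ 2) 0 T (by omega) 0
  simp only [Nat.zero_add] at h4
  have h5 : ε + ε ≤ err (rr A k) := by
    have h6 : (ε + ε : ℝ≥0∞) ≤ (((2 ^ k) ^ 2 + 1 : ℕ) : ℝ≥0∞) * ε := by
      rw [← two_mul]
      gcongr
      have : 1 ≤ (2 ^ k) ^ 2 := Nat.one_le_pow _ _ (by positivity)
      exact_mod_cast (by omega : 2 ≤ (2 ^ k) ^ 2 + 1)
    refine le_trans h6 (le_trans hε ?_)
    unfold ZI.err
    refine ENNReal.ofReal_le_ofReal ?_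
    have := Real.exp_pos (- Real.sqrt (rr A k))
    linarith
  calc P {ω | ∃ y, (EK C k ω).R (fun _ => Set.univ) s0 z (s0 + T) y}
      ≤ q.PP ((2 ^ k) ^ 2 * q.N1) (fun η l =>
          ∃ y, (envT q η l).R (fun _ => Set.univ) s0 z (s0 + T) y) + ε := h1
    _ = q.PP ((2 ^ k) ^ 2 * q.N1) (fun η l =>
          ∃ y, (envT q η l).R (fun _ => Set.univ) 0 0 T y) + ε := by rw [h3, h4]
    _ ≤ (P {ω | ∃ y, (EK C k ω).R (fun _ => Set.univ) 0 0 T y} + ε) + ε := by gcongr
    _ ≤ _ := by
      rw [add_assoc]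
      gcongr

end AS


end ZQ.POS

namespace ZQ.Rows

open ZP hiding Agree AgreeW Base BlockFacts EK Env EqEnv GoodK IsGamma Iset LowTail PastEv QK QT StepP Surv Sys UpTail capE conf envB envC envT foldl_stepR_fst foldl_stepR_inter foldl_stepR_mono foldl_stepR_occ foldl_stepR_region inf infMv infMv_mono infMv_occ inf_comp inf_inter inf_mono_univ inf_occ inf_pred infd kill mem_foldl_stepR mem_infMv muK pe st stepI stepR visU visU_mono_univ
open ZP.Rows hiding R_mono R_occ R_of_noRec R_restrict R_route R_self R_split R_start R_toZI R_trans R_vis agree_take bg_of_R bh_chain block_facts capE_envC cap_agree cfg_toZI chain_eq chain_shift envT_toZI fg_R fg_of_R foldl_stepR_noRec foldl_stepR_toZI inf_mono inf_noRec inf_split inf_start inf_toZI kill_R kill_envC kill_vis killed_agree mem_inf_iff near_ok nullMeas occ_toZI ok_occ pe_path persist persist_steps st_R st_mono st_vis start_inv surv_int surv_pos sys_chain_of sys_good sys_link sys_linkR sys_shift sys_tsumQ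 transfer visU_mono visU_noRec visU_split visU_toZI vis_mono vis_mono_time vis_of_R vis_of_R' vis_of_noRec vis_restrict vis_toZI

variable [ZQ.Thr]

open ZP hiding Agree AgreeW Base BlockFacts EK Env EqEnv GoodK IsGamma Iset LowTail PastEv QK QT StepP Surv Sys UpTail capE conf envB envC envT foldl_stepR_fst foldl_stepR_inter foldl_stepR_mono foldl_stepR_occ foldl_stepR_region inf infMv infMv_mono infMv_occ inf_comp inf_inter inf_mono_univ inf_occ inf_pred infd kill mem_foldl_stepR mem_infMv muK pe st stepI stepR visU visU_mono_univ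
open ZQ

variable {d : ℕ} {m : Model} {δ : ℝ} {Ω : Type} [MeasurableSpace Ω] {P : Measure Ω}

/-- survival has positive probability -/
theorem surv_pos [IsProbabilityMeasure P] (hd : 0 < d) (hδ : 0 ≤ δ) (C : Clocks m δ d P)
    {Cv a A r0 : ℕ} {c : ℝ} (hB : Base m δ d Cv a A r0 c) : 0 < P (Surv C) := by
  have hA : 1 ≤ A := by have := hB.a_big; have := hB.A_big; omega
  exact ZQ.POS.surv_pos_of C hB.a_big hB.A_big
    (fun E G s t x y h τ h1 h2 => R_split E h τ h1 h2)
    (fun E G s t t' x y y' h h' => R_trans E h h')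
    (fun E r κ S Dm hE hκ t t' x y h1 h2 h => fg_of_R hE hκ h1 h2 h)
    (fun E r κ S Dm hE hκ hκ' t x h1 h2 t' h3 h4 => persist hd hE hκ hκ' h1 h2 h3 h4)
    (sys_good hδ C hB) (sys_linkR hd hδ C A hA) (ZQ.POS.alive_shift hd hδ C A hA)
    (surv_int C) (no_ties hδ C)

end ZQ.Rows
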