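import Pool.Agent.ZQ.Proj
import Pool.Agent.ZP.M0

/-! # Multi-scale events: definitions, infection with a threshold -/

set_option autoImplicit false

open scoped ENNReal BigOperators Classical

noncomputable section

namespace ZQ

open ZP ZQ

variable [Thr]

variable {d : ℕ}

/-- at least `θ` particles at `x` -/
def occ1 {M : ℕ} (η : Tor d M → ℕ) (x : Tor d M) : Tor d M → ℕ := Function.update η x (max Thr.θ (η x))

/-- the infection from `{x}` of the process with the labels in `Λ`, started from the particles in `Λ` and `θ` at `x` -/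
def lin {M K : ℕ} (Λ : Set (Tor d M)) (η : Tor d M → ℕ) (x : Pos d) (w : List (Let d M (K + 1))) :
    Set (Pos d) :=
  ((w.map (res Λ)).foldl (stepI Set.univ) (occ1 (cut Λ η) (tv x), {x})).2

/-- the level `0` event (letters version), increasing -/
def Opn {M K : ℕ} (N1 L τ : ℕ) : Ev d M K := fun η w =>
  (∃ x ∈ cell (d := d) L 0, Thr.θ ≤ η (tv x)) ∧
  (∀ x ∈ cell (d := d) L 0, ∀ z' : Pos d, l1 z' ≤ 1 → ∃ y ∈ cell L z',
    y ∈ lin (Bt 0 (L ^ 2)) η x (w.take (τ * N1))) ∧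
  (∀ x ∈ cell (d := d) L 0, ∀ b ∈ cell (d := d) L 0, ∃ i ≤ τ * N1,
    b ∈ lin (Bt 0 (L ^ 2)) η x (w.take i))

/-- the infection from `{x}` restricted to the box `|z| ≤ ρ` -/
def rin {M K : ℕ} (ρ : ℕ) (η : Tor d M → ℕ) (x : Pos d) (w : List (Let d M (K + 1))) : Set (Pos d) :=
  (w.foldl (stepI {z | supn z ≤ ρ}) (η, {x})).2

/-- the level `0` event (path version) -/
def POpn {M K : ℕ} (N1 L τ : ℕ) : Ev d M K := fun η w =>
  (∃ x ∈ cell (d := d) L 0, Thr.θ ≤ η (tv x)) ∧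
  (∀ x ∈ cell (d := d) L 0, Thr.θ ≤ η (tv x) → ∀ z' : Pos d, l1 z' ≤ 1 → ∃ y ∈ cell L z',
    y ∈ rin (L ^ 2) η x (w.take (τ * N1))) ∧
  (∀ x ∈ cell (d := d) L 0, Thr.θ ≤ η (tv x) → ∀ b ∈ cell (d := d) L 0, ∃ i ≤ τ * N1,
    b ∈ rin (L ^ 2) η x (w.take i))

/-- the meeting cell: every position of the cell with `θ` particles is connected to every position of the cell that
has `θ` particles at the time `τ` -/
def FOpn {M K : ℕ} (N1 L τ : ℕ) : Ev d M K := fun η w =>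
  ∀ x ∈ cell (d := d) L 0, Thr.θ ≤ η (tv x) → ∀ b ∈ cell (d := d) L 0, Thr.θ ≤ stt η w (τ * N1) (tv b) →
    b ∈ rin (L ^ 2) η x (w.take (τ * N1))

/-- bad blocks, decreasing part, letters version -/
def BadM {M K : ℕ} (N1 : ℕ) (A : Prm) : ℕ → Ev d M K
  | 0 => sft N1 0 (2 * A.τ) (fun η w => ¬ Opn N1 A.L A.τ η w)
  | k + 1 => RecE N1 A k (BadM N1 A k)

/-- bad blocks, decreasing part, path version -/
def PBadM {M K : ℕ} (N1 : ℕ) (A : Prm) : ℕ → Ev d M K
  | 0 => sft N1 0 (2 * A.τ) (fun η w => ¬ POpn N1 A.L A.τ η w)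
  | k + 1 => RecE N1 A k (PBadM N1 A k)

/-- bad blocks of the two signs, path version -/
def PBad {M K : ℕ} (N1 : ℕ) (A : Prm) (b : Bool) (k : ℕ) : Ev d M K :=
  if b then BadP N1 A k else PBadM N1 A k

end ZQ
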