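import Pool.Agent.ZP.BE
import Pool.Agent.ZP.SF1
import Pool.Agent.ZQ.PJ
import Pool.Agent.ZQ.E1
import Pool.Agent.ZQ.InfLem
import Pool.Agent.ZQ.M0
import Pool.Agent.ZI.C8

/-! # Row BE: the basic events are local, monotone, path events (deterministic) -/

set_option autoImplicit false

open scoped ENNReal BigOperators Classical

noncomputable section

namespace ZQ.BE

open ZP hiding Agree AgreeW BadM Base BlockFacts Env EqEnv FOpn GoodK IsGamma LowTail Opn PBad PBadM POpn PastEv QK QT StepP Sys UpTail envT foldl_stepR_fst foldl_stepR_inter foldl_stepR_mono foldl_stepR_occ foldl_stepR_region inf infMv infMv_mono infMv_occ inf_comp inf_inter inf_mono_univ inf_occ inf_pred lin mem_foldl_stepR mem_infMv muK pe rin stepI stepR visU visU_mono_univ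
open ZP.BE hiding fold_mono fold_mono_same fold_pth lin_mono lin_rin lin_sub_rin rin_mono rin_pth stepI_eq_none stepI_eq_some stepI_mono stepI_occ stepI_stay step_pth zp_mono zp_src zp_stay

variable [ZQ.Thr]

open ZP hiding Agree AgreeW BadM Base BlockFacts Env EqEnv FOpn GoodK IsGamma LowTail Opn PBad PBadM POpn PastEv QK QT StepP Sys UpTail envT foldl_stepR_fst foldl_stepR_inter foldl_stepR_mono foldl_stepR_occ foldl_stepR_region inf infMv infMv_mono infMv_occ inf_comp inf_inter inf_mono_univ inf_occ inf_pred lin mem_foldl_stepR mem_infMv muK pe rin stepI stepR visU visU_mono_univ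
open ZQ

variable {d : ℕ} {M K : ℕ}

/-! ### one label -/

/-- the threshold part of a ring: comparison -/
theorem zp_up {η η' : Tor d M → ℕ} {x : Tor d M} (_hx : η x ≤ η' x) (k : ℕ) (e : Dir d)
    {A A' : Set (Pos d)} {z : Pos d} (hA : z ∈ A → z ∈ A') (hocc : z ∈ A → Thr.θ ≤ η (tv z))
    (hm : mv nbT η (x, k + 1, e) (tv z) ≤ mv nbT η' (x, k + 1, e) (tv z))
    (h1 : z ∈ ZI.infMv nbT tv η' A' (x, k, e)) (hz : z ∈ infMv nbT tv η A (x, k + 1, e)) :
    z ∈ infMv nbT tv η' A' (x, k + 1, e) := by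
  refine ⟨h1, fun hk' => ?_⟩
  by_cases hk : k < η x
  · rcases hz.2 hk with h | h
    · exact Or.inl ⟨hA h.1, h.2⟩
    · exact Or.inr (h.trans hm)
  · have h2 : z ∈ A := by
      have h3 := hz.1
      unfold ZI.infMv at h3
      rwa [if_neg hk] at h3
    by_cases hzx : (tv z : Tor d M) = x
    · right
      have h3 := hocc h2
      rw [hzx] at h3 ⊢
      change Thr.θ ≤ ZI.mv nbT η' (x, k, e) x
      change k < η' x at hk'
      rw [mv_app _ _ _ _ _ hk', if_pos rfl]
      omega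
    · exact Or.inl ⟨hA h2, hzx⟩

theorem zp_mono {η η' : Tor d M → ℕ} {x : Tor d M} (hx : η x ≤ η' x) (k : ℕ) (e : Dir d)
    {A A' : Set (Pos d)} (hAA' : A ⊆ A') (hocc : ∀ z ∈ A, Thr.θ ≤ η (tv z)) {z : Pos d}
    (hm : mv nbT η (x, k, e) (tv z) ≤ mv nbT η' (x, k, e) (tv z))
    (hz : z ∈ infMv nbT tv η A (x, k, e)) : z ∈ infMv nbT tv η' A' (x, k, e) := by
  cases k with
  | zero => exact ⟨hAA' hz.1, fun h => (hz.2 h).trans hx⟩
  | succ k =>
    exact zp_up hx k e (fun h => hAA' h) (fun h => hocc z h) hm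
      (zi_mono hx k e hAA' (fun z hz => lt_of_lt_of_le Thr.pos (hocc z hz)) hz.1) hz

theorem zp_stay {η : Tor d M → ℕ} {x : Tor d M} (k : ℕ) (e : Dir d) {A : Set (Pos d)} {z : Pos d}
    (hz : z ∈ A) (hzx : (tv z : Tor d M) ≠ x) : z ∈ infMv nbT tv η A (x, k, e) := by
  cases k with
  | zero => exact ⟨hz, fun h4 => absurd h4 hzx⟩
  | succ k => exact ⟨zi_stay k e hz hzx, fun _ => Or.inl ⟨hz, hzx⟩⟩

theorem zp_src {η : Tor d M → ℕ} {x : Tor d M} {k : ℕ} {e : Dir d} {A : Set (Pos d)} {z : Pos d}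
    (hz : z ∈ infMv nbT tv η A (x, k, e)) (hA : ∀ y ∈ A, (tv y : Tor d M) ≠ x) : z ∈ A := by
  cases k with
  | zero => exact hz.1
  | succ k => exact zi_src hz.1 hA

/-! ### one letter -/

theorem stepI_eq_none (G : Set (Pos d)) (s : (Tor d M → ℕ) × Set (Pos d)) :
    stepI G s (none : Let d M K) = s := rfl

theorem stepI_eq_some (G : Set (Pos d)) (s : (Tor d M → ℕ) × Set (Pos d)) (x : Tor d M) (k : Fin K)
    (e : Dir d) : stepI G s (some (x, k, e) : Let d M K) =
      (mv nbT s.1 (x, (k : ℕ), e), infMv nbT tv s.1 s.2 (x, (k : ℕ), e) ∩ G) := rfl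

/-- one letter keeps the infected positions whose sites are not touched -/
theorem stepI_stay {G : Set (Pos d)} {Λ : Set (Tor d M)} {η : Tor d M → ℕ} {a : Let d M K}
    (ha : res Λ a = none) {A : Set (Pos d)} {z : Pos d} (hz : z ∈ A) (hzG : z ∈ G)
    (hzΛ : tv z ∈ Λ) : z ∈ (stepI G (η, A) a).2 := by
  rcases a with _ | ⟨x, k, e⟩
  · exact hz
  · rw [stepI_eq_some]
    refine ⟨zp_stay _ _ hz ?_, hzG⟩
    rintro rfl
    rw [res_some, if_pos hzΛ] at ha
    exact Option.some_ne_none _ ha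

theorem stepI_mono {G : Set (Pos d)} {Λ : Set (Tor d M)} (hG : ∀ z ∈ G, tv z ∈ Λ)
    {η η' : Tor d M → ℕ} (hη : ∀ v ∈ Λ, η v ≤ η' v) {a a' : Let d M K} (ha : res Λ a = res Λ a')
    {A A' : Set (Pos d)} (hA : A ⊆ G) (hAA' : A ⊆ A') (hocc : ∀ z ∈ A, Thr.θ ≤ η (tv z)) :
    (stepI G (η, A) a).2 ⊆ (stepI G (η', A') a').2 := by
  intro z hz
  rcases a with _ | ⟨x, k, e⟩
  · have hz' : z ∈ A := hz
    exact stepI_stay (Λ := Λ) (by rw [← ha]; rfl) (hAA' hz') (hA hz') (hG z (hA hz'))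
  · rw [stepI_eq_some] at hz
    by_cases hx : x ∈ Λ
    · rw [res_some, if_pos hx] at ha
      rcases a' with _ | ⟨x', k', e'⟩
      · exact absurd ha (Option.some_ne_none _)
      · rw [res_some] at ha
        split_ifs at ha
        have h1 := Option.some.inj ha
        rw [← h1, stepI_eq_some]
        exact ⟨zp_mono (hη x hx) _ _ hAA' hocc (mv_local hη hx _ _ _ (hG z hz.2)) hz.1, hz.2⟩
    · rw [res_some, if_neg hx] at ha
      have hz' : z ∈ A := zp_src hz.1 fun y hy h => hx (h ▸ hG y (hA hy))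
      exact stepI_stay (Λ := Λ) ha.symm (hAA' hz') (hA hz') (hG z (hA hz'))

theorem stepI_occ {G : Set (Pos d)} {η : Tor d M → ℕ} (a : Let d M K) {A : Set (Pos d)}
    (hocc : ∀ z ∈ A, Thr.θ ≤ η (tv z)) : ∀ z ∈ (stepI G (η, A) a).2, Thr.θ ≤ stepA η a (tv z) := by
  intro z hz
  rcases a with _ | ⟨x, k, e⟩
  · exact hocc z hz
  · exact infMv_occ hocc hz.1

/-! ### words -/

theorem fold_mono {G : Set (Pos d)} {Λ : Set (Tor d M)} (hG : ∀ z ∈ G, tv z ∈ Λ) : ∀ (n : ℕ)
    (w w' : List (Let d M K)) (η η' : Tor d M → ℕ) (A A' : Set (Pos d)), n ≤ w.length →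
    n ≤ w'.length → (∀ i ≤ n, ∀ v ∈ Λ, stt η w i v ≤ stt η' w' i v) →
    (∀ i < n, res Λ (w.getD i none) = res Λ (w'.getD i none)) → A ⊆ G → A ⊆ A' →
    (∀ z ∈ A, Thr.θ ≤ η (tv z)) →
    ((w.take n).foldl (stepI G) (η, A)).2 ⊆ ((w'.take n).foldl (stepI G) (η', A')).2 := by
  intro n
  induction n with
  | zero => exact fun _ _ _ _ _ _ _ _ _ _ _ h _ => h
  | succ n ih =>
    intro w w' η η' A A' hw hw' hη hl hA hAA' hocc
    rcases w with _ | ⟨a, w⟩
    · simp at hw
    rcases w' with _ | ⟨a', w'⟩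
    · simp at hw'
    rw [List.take_succ_cons, List.take_succ_cons, List.foldl_cons, List.foldl_cons]
    have e1 : stepI G (η, A) a = (stepA η a, (stepI G (η, A) a).2) :=
      Prod.ext (E1.stepI_fst G (η, A) a) rfl
    have e2 : stepI G (η', A') a' = (stepA η' a', (stepI G (η', A') a').2) :=
      Prod.ext (E1.stepI_fst G (η', A') a') rfl
    rw [e1, e2]
    refine ih w w' _ _ _ _ (by simpa using hw) (by simpa using hw') ?_ ?_ ?_ ?_ ?_
    · intro i hi v hv
      exact hη (i + 1) (by omega) v hv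
    · intro i hi
      exact hl (i + 1) (by omega)
    · exact E1.foldl_stepI_sub G [a] (η, A) hA
    · exact stepI_mono hG (fun v hv => hη 0 (by omega) v hv) (hl 0 (by omega)) hA hAA' hocc
    · exact stepI_occ a hocc

/-- monotonicity in the configuration for the same word -/
theorem fold_mono_same (G : Set (Pos d)) (w : List (Let d M (K + 1))) : ∀ (η η' : Tor d M → ℕ)
    (A A' : Set (Pos d)), η ≤ η' → A ⊆ A' → (∀ z ∈ A, Thr.θ ≤ η (tv z)) →
    (w.foldl (stepI G) (η, A)).2 ⊆ (w.foldl (stepI G) (η', A')).2 := by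
  induction w with
  | nil => exact fun _ _ _ _ _ h _ => h
  | cons a w ih =>
    intro η η' A A' hη hAA' hocc
    rw [List.foldl_cons, List.foldl_cons]
    have e1 : stepI G (η, A) a = (stepA η a, (stepI G (η, A) a).2) :=
      Prod.ext (E1.stepI_fst G (η, A) a) rfl
    have e2 : stepI G (η', A') a = (stepA η' a, (stepI G (η', A') a).2) :=
      Prod.ext (E1.stepI_fst G (η', A') a) rfl
    rw [e1, e2]
    refine ih _ _ _ _ ?_ ?_ (stepI_occ a hocc)
    · rw [Rows.stepA_prj, Rows.stepA_prj]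
      exact ZI.Rows.stepA_mono hη (prj a)
    · rcases a with _ | ⟨x, k, e⟩
      · exact hAA'
      · exact fun z hz => ⟨zp_mono (hη x) _ _ hAA' hocc
          (mv_local (Λ := Set.univ) (fun v _ => hη v) trivial _ _ _ trivial) hz.1, hz.2⟩

/-! ### words, infection without recovery -/

/-! ### the sets -/

theorem occ1_mono {η η' : Tor d M → ℕ} (h : η ≤ η') (x : Tor d M) : occ1 η x ≤ occ1 η' x := by
  intro v
  unfold occ1
  by_cases hv : v = x
  · subst hv
    rw [Function.update_self, Function.update_self]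
    exact max_le_max_left _ (h v)
  · rw [Function.update_of_ne hv, Function.update_of_ne hv]
    exact h v

/-! ### the restricted infection is local -/

theorem rin_mono {N1 : ℕ} {Λ : Set (Tor d M)} {u ρ : ℕ} {η η' : Tor d M → ℕ}
    {w w' : List (Let d M (K + 1))} (hR : Rel N1 Λ 0 u η w η' w') (hρ : Bt 0 ρ ⊆ Λ)
    {x : Pos d} (hx : supn x ≤ ρ) (h0 : Thr.θ ≤ η (tv x)) {i : ℕ} (hi : i ≤ u * N1) :
    rin ρ η x (w.take i) ⊆ rin ρ η' x (w'.take i) := by
  have h1 := hR.len
  have h2 := hR.len'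
  refine fold_mono (Λ := Λ) (fun z hz => hρ (tv_mem_Bt hz)) i w w' η η' {x} {x} (by omega)
    (by omega) (fun j hj => Rel.stt_le hR j (by omega)) ?_ ?_ subset_rfl ?_
  · intro j hj
    exact hR.lets j (by rw [Nat.zero_mul]; exact Nat.zero_le _) (by omega)
  · rintro _ rfl
    exact hx
  · rintro _ rfl
    exact h0

theorem lin_mono {N1 : ℕ} {Λ : Set (Tor d M)} {u : ℕ} {η η' : Tor d M → ℕ}
    {w w' : List (Let d M (K + 1))} (hR : Rel N1 Λ 0 u η w η' w') (x : Pos d) {i : ℕ}
    (hi : i ≤ u * N1) : lin Λ η x (w.take i) ⊆ lin Λ η' x (w'.take i) := by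
  unfold lin
  rw [map_res_eq hR hi]
  refine fold_mono_same _ _ _ _ _ _ (occ1_mono ?_ _) subset_rfl ?_
  · intro v
    unfold cut
    by_cases hv : v ∈ Λ
    · rw [if_pos hv, if_pos hv]
      exact Rel.stt_le hR 0 (Nat.zero_le _) v hv
    · rw [if_neg hv, if_neg hv]
  · rintro _ rfl
    unfold occ1
    rw [Function.update_self]
    exact le_max_left _ _

/-! ### the letters version implies the path version -/

theorem lin_sub_rin {ρ : ℕ} (hM : 2 * ρ + 2 ≤ M) : ∀ (w : List (Let d M (K + 1)))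
    (ξ η : Tor d M → ℕ) (B A : Set (Pos d)), (∀ v ∈ Bt (0 : Tor d M) ρ, ξ v ≤ η v) →
    (∀ z ∈ B, supn z ≤ ρ + 1) → (∀ z ∈ B, supn z ≤ ρ → z ∈ A) → (∀ z ∈ B, Thr.θ ≤ ξ (tv z)) →
    ∀ z ∈ ((w.map (res (Bt 0 ρ))).foldl (stepI Set.univ) (ξ, B)).2, supn z ≤ ρ →
      z ∈ (w.foldl (stepI {z | supn z ≤ ρ}) (η, A)).2 := by
  intro w
  induction w with
  | nil => exact fun ξ η B A _ _ h _ => h
  | cons a w ih =>
    intro ξ η B A h1 h2 h3 h4
    rw [List.map_cons, List.foldl_cons, List.foldl_cons]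
    have e1 : stepI Set.univ (ξ, B) (res (Bt 0 ρ) a) =
        (stepA ξ (res (Bt 0 ρ) a), (stepI Set.univ (ξ, B) (res (Bt 0 ρ) a)).2) :=
      Prod.ext (E1.stepI_fst _ (ξ, B) _) rfl
    have e2 : stepI {z | supn z ≤ ρ} (η, A) a = (stepA η a, (stepI {z | supn z ≤ ρ} (η, A) a).2) :=
      Prod.ext (E1.stepI_fst _ (η, A) a) rfl
    rw [e1, e2]
    refine ih _ _ _ _ ?_ ?_ ?_ (stepI_occ _ h4)
    · intro v hv
      rcases a with _ | ⟨x, k, e⟩
      · exact h1 v hv
      · rw [res_some]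
        by_cases hx : x ∈ Bt (0 : Tor d M) ρ
        · rw [if_pos hx]
          exact mv_local h1 hx (k : ℕ) e v hv
        · rw [if_neg hx]
          refine (h1 v hv).trans (mv_out ?_ (k : ℕ) e)
          rintro rfl
          exact hx hv
    · intro z hz
      rcases a with _ | ⟨x, k, e⟩
      · exact h2 z hz
      · rw [res_some] at hz
        by_cases hx : x ∈ Bt (0 : Tor d M) ρ
        · rw [if_pos hx, stepI_eq_some] at hz
          have hz1 : z ∈ infMv nbT tv ξ B (x, (k : ℕ), e) := hz.1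
          obtain ⟨k, hk⟩ := k
          cases k with
          | zero => exact h2 z hz1.1
          | succ k =>
            replace hz1 : z ∈ ZI.infMv nbT tv ξ B (x, k, e) := hz1.1
            unfold ZI.infMv at hz1
            split_ifs at hz1 with h5
            · rcases hz1 with ⟨h6, -⟩ | ⟨h6, h7, -⟩
              · exact h2 z h6
              · have h8 := supn_of_tv hM (h2 _ h6) (by
                  have h7' : (tv (z - dv e) : Tor d M) = x := h7
                  rw [h7']; exact hx)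
                have h9 := E3.supn_add (z - dv e) (dv e)
                rw [sub_add_cancel] at h9
                have h10 := supn_dv e
                have h8' : supn (z - dv e) ≤ ρ := h8
                omega
            · exact h2 z hz1
        · rw [if_neg hx] at hz
          exact h2 z hz
    · intro z hz hzρ
      rcases a with _ | ⟨x, k, e⟩
      · exact h3 z hz hzρ
      · rw [res_some] at hz
        by_cases hx : x ∈ Bt (0 : Tor d M) ρ
        · rw [if_pos hx, stepI_eq_some] at hz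
          rw [stepI_eq_some]
          refine ⟨?_, hzρ⟩
          have hz1 : z ∈ infMv nbT tv ξ B (x, (k : ℕ), e) := hz.1
          show z ∈ infMv nbT tv η A (x, (k : ℕ), e)
          have hxξ := h1 x hx
          obtain ⟨k, hk⟩ := k
          cases k with
          | zero => exact ⟨h3 z hz1.1 hzρ, fun h => (hz1.2 h).trans hxξ⟩
          | succ k =>
            refine zp_up hxξ k e (fun h => h3 z h hzρ) (fun h => h4 z h)
              (mv_local h1 hx (k + 1) e _ (tv_mem_Bt hzρ)) ?_ hz1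
            replace hz1 : z ∈ ZI.infMv nbT tv ξ B (x, k, e) := hz1.1
            unfold ZI.infMv at hz1 ⊢
            by_cases h5 : k < ξ x
            · rw [if_pos h5] at hz1
              rw [if_pos (lt_of_lt_of_le h5 hxξ)]
              rcases hz1 with ⟨h6, h7⟩ | ⟨h6, h7, h8⟩
              · exact Or.inl ⟨h3 z h6 hzρ, fun h => (h7 h).trans hxξ⟩
              · refine Or.inr ⟨h3 _ h6 ?_, h7, h8⟩
                refine supn_of_tv hM (h2 _ h6) ?_
                have h7' : (tv (z - dv e) : Tor d M) = x := h7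
                rw [h7']; exact hx
            · rw [if_neg h5] at hz1
              by_cases h6 : k < η x
              · rw [if_pos h6]
                refine Or.inl ⟨h3 z hz1 hzρ, fun h => ?_⟩
                have h7 : (tv z : Tor d M) = x := h
                have h8 := lt_of_lt_of_le Thr.pos (h4 z hz1)
                rw [h7] at h8
                show 2 ≤ η x
                omega
              · rw [if_neg h6]
                exact h3 z hz1 hzρ
        · rw [if_neg hx] at hz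
          refine stepI_stay (Λ := Bt 0 ρ) ?_ (h3 z hz hzρ) hzρ (tv_mem_Bt hzρ)
          rw [res_some, if_neg hx]

theorem lin_rin {ρ : ℕ} (hM : 2 * ρ + 2 ≤ M) (η : Tor d M → ℕ) (w : List (Let d M (K + 1)))
    (x : Pos d) (hx : supn x ≤ ρ) (h0 : Thr.θ ≤ η (tv x)) (z : Pos d) (hz : z ∈ lin (Bt 0 ρ) η x w)
    (hzρ : supn z ≤ ρ) : z ∈ rin ρ η x w := by
  refine lin_sub_rin hM w _ η {x} {x} ?_ ?_ (fun z hz _ => hz) ?_ z hz hzρ
  · intro v hv
    unfold occ1
    by_cases h : v = tv x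
    · subst h
      rw [Function.update_self]
      unfold cut
      rw [if_pos hv]
      exact max_le h0 le_rfl
    · rw [Function.update_of_ne h]
      unfold cut
      rw [if_pos hv]
  · rintro _ rfl
    omega
  · rintro _ rfl
    unfold occ1
    rw [Function.update_self]
    exact le_max_left _ _

/-! ### path events -/

theorem step_pth (hM : 3 ≤ M) {G A : Set (Pos d)} (hA : A ⊆ G) {η : Tor d M → ℕ}
    {a a' : Let d M (K + 1)} (h1 : stepA η a = stepA η a') (h2 : mark a = mark a') :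
    stepI G (η, A) a = stepI G (η, A) a' := by
  rcases Nat.eq_zero_or_pos d with hd | hd
  · subst hd
    rcases a with _ | ⟨x, k, e⟩
    · rcases a' with _ | ⟨x', k', e'⟩
      · rfl
      · exact e'.1.elim0
    · exact e.1.elim0
  · rcases Nat.eq_zero_or_pos K with hK | hK
    · subst hK
      rcases a with _ | ⟨x, ⟨k, hk⟩, e⟩
      · rcases a' with _ | ⟨x', ⟨k', hk'⟩, e'⟩
        · rfl
        · obtain rfl : k' = 0 := by omega
          exact absurd h2 (Option.some_ne_none _).symm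
      · obtain rfl : k = 0 := by omega
        rcases a' with _ | ⟨x', ⟨k', hk'⟩, e'⟩
        · exact absurd h2 (Option.some_ne_none _)
        · obtain rfl : k' = 0 := by omega
          have h3 : x = x' := Option.some.inj h2
          subst h3
          rfl
    · rw [← E1.stepI_can hd hM hK G A η a hA, ← E1.stepI_can hd hM hK G A η a' hA, h1, h2]

theorem fold_pth (hM : 3 ≤ M) (G : Set (Pos d)) : ∀ (w w' : List (Let d M (K + 1)))
    (η : Tor d M → ℕ) (A : Set (Pos d)), A ⊆ G → path η w = path η w' →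
    w.map mark = w'.map mark → w.foldl (stepI G) (η, A) = w'.foldl (stepI G) (η, A) := by
  intro w
  induction w with
  | nil =>
    intro w' η A _ hp _
    have hl := congrArg List.length hp
    rw [SF1.path_length, SF1.path_length, List.length_nil] at hl
    have : w' = [] := List.length_eq_zero_iff.mp (by omega)
    rw [this]
  | cons a w ih =>
    intro w' η A hA hp hm
    have hl := congrArg List.length hp
    rw [SF1.path_length, SF1.path_length, List.length_cons] at hl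
    rcases w' with _ | ⟨a', w'⟩
    · simp at hl
    rw [List.map_cons, List.map_cons] at hm
    have hm1 : mark a = mark a' := (List.cons.inj hm).1
    have hm2 : w.map mark = w'.map mark := (List.cons.inj hm).2
    have hp2 : path (stepA η a) w = path (stepA η a') w' := (List.cons.inj hp).2
    have hs : stepA η a = stepA η a' := by
      obtain ⟨L, hL⟩ := E1.path_head (stepA η a) w
      obtain ⟨L', hL'⟩ := E1.path_head (stepA η a') w'
      rw [hL, hL'] at hp2
      exact (List.cons.inj hp2).1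
    rw [List.foldl_cons, List.foldl_cons, step_pth hM hA hs hm1]
    have e1 : stepI G (η, A) a' = (stepA η a', (stepI G (η, A) a').2) :=
      Prod.ext (E1.stepI_fst G (η, A) a') rfl
    rw [e1]
    refine ih w' _ _ (E1.foldl_stepI_sub G [a'] (η, A) hA) ?_ hm2
    rw [← hp2, hs]

theorem rin_pth (hM : 3 ≤ M) {ρ : ℕ} {η : Tor d M → ℕ} {w w' : List (Let d M (K + 1))}
    (hp : path η w = path η w') (hm : w.map mark = w'.map mark) {x : Pos d} (hx : supn x ≤ ρ)
    (i : ℕ) : rin ρ η x (w.take i) = rin ρ η x (w'.take i) := by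
  unfold rin
  rw [fold_pth hM {z | supn z ≤ ρ} (w.take i) (w'.take i) η {x}]
  · rintro _ rfl
    exact hx
  · rw [path_take, path_take, hp]
  · rw [List.map_take, List.map_take, hm]

end ZQ.BE

namespace ZQ.Rows

open ZP hiding Agree AgreeW BadM Base BlockFacts Env EqEnv FOpn GoodK IsGamma LowTail Opn PBad PBadM POpn PastEv QK QT StepP Sys UpTail envT foldl_stepR_fst foldl_stepR_inter foldl_stepR_mono foldl_stepR_occ foldl_stepR_region inf infMv infMv_mono infMv_occ inf_comp inf_inter inf_mono_univ inf_occ inf_pred lin mem_foldl_stepR mem_infMv muK pe rin stepI stepR visU visU_mono_univ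
open ZP.Rows hiding R_of_noRec R_toZI agree_take bh_chain cfg_toZI chain_eq chain_shift envT_toZI foldl_stepR_noRec foldl_stepR_toZI fopn_loc fopn_pth inf_noRec inf_toZI occ_toZI opn_inc pe_path popn_loc popn_of_opn popn_pth start_inv visU_noRec visU_toZI vis_of_noRec vis_toZI

variable [ZQ.Thr]

open ZP hiding Agree AgreeW BadM Base BlockFacts Env EqEnv FOpn GoodK IsGamma LowTail Opn PBad PBadM POpn PastEv QK QT StepP Sys UpTail envT foldl_stepR_fst foldl_stepR_inter foldl_stepR_mono foldl_stepR_occ foldl_stepR_region inf infMv infMv_mono infMv_occ inf_comp inf_inter inf_mono_univ inf_occ inf_pred lin mem_foldl_stepR mem_infMv muK pe rin stepI stepR visU visU_mono_univ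
open ZQ

variable {d : ℕ}

section BE

variable {M K : ℕ} (N1 : ℕ) (A : Prm)

theorem opn_inc (hL : 1 ≤ A.L) (hM : 2 * A.L ^ 2 + 4 ≤ M) :
    IncE N1 (Bt (0 : Tor d M) (A.L ^ 2)) 0 A.τ (Opn (K := K) N1 A.L A.τ) := by
  rintro η w η' w' hR ⟨⟨x, hx, hx0⟩, h2, h3⟩
  refine ⟨⟨x, hx, ?_⟩, ?_, ?_⟩
  · exact le_trans hx0 (BE.Rel.stt_le hR 0 (Nat.zero_le _) _
      (BE.tv_mem_Bt (BE.cell_supn hL hx)))
  · intro x hx z' hz'
    obtain ⟨y, hy, hy2⟩ := h2 x hx z' hz'
    exact ⟨y, hy, BE.lin_mono hR x le_rfl hy2⟩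
  · intro x hx b hb
    obtain ⟨i, hi, hy2⟩ := h3 x hx b hb
    exact ⟨i, hi, BE.lin_mono hR x hi hy2⟩

theorem popn_loc (hL : 1 ≤ A.L) (hM : 2 * A.L ^ 2 + 4 ≤ M) :
    LocE N1 (Bt (0 : Tor d M) (A.L ^ 2 + 1)) 0 A.τ (POpn (K := K) N1 A.L A.τ) := by
  rintro η w η' w' hR hR' ⟨⟨x, hx, hx0⟩, h2, h3⟩
  have hsub : Bt (0 : Tor d M) (A.L ^ 2) ⊆ Bt 0 (A.L ^ 2 + 1) := by
    rintro v ⟨y, hy, rfl⟩
    exact ⟨y, by omega, rfl⟩
  have hcfg : ∀ x ∈ cell (d := d) A.L 0, (Thr.θ ≤ η (tv x) ↔ Thr.θ ≤ η' (tv x)) := by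
    intro x hx
    have h4 := BE.tv_mem_Bt (M := M) (BE.cell_supn hL hx)
    exact ⟨fun h => le_trans h (BE.Rel.stt_le hR 0 (Nat.zero_le _) _ (hsub h4)),
      fun h => le_trans h (BE.Rel.stt_le hR' 0 (Nat.zero_le _) _ (hsub h4))⟩
  refine ⟨⟨x, hx, (hcfg x hx).1 hx0⟩, ?_, ?_⟩
  · intro x hx hx0 z' hz'
    obtain ⟨y, hy, hy2⟩ := h2 x hx ((hcfg x hx).2 hx0) z' hz'
    exact ⟨y, hy, BE.rin_mono hR hsub (BE.cell_supn hL hx) ((hcfg x hx).2 hx0) le_rfl hy2⟩
  · intro x hx hx0 b hb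
    obtain ⟨i, hi, hy2⟩ := h3 x hx ((hcfg x hx).2 hx0) b hb
    exact ⟨i, hi, BE.rin_mono hR hsub (BE.cell_supn hL hx) ((hcfg x hx).2 hx0) hi hy2⟩

theorem fopn_loc (hL : 1 ≤ A.L) (hM : 2 * A.L ^ 2 + 4 ≤ M) :
    LocE N1 (Bt (0 : Tor d M) (A.L ^ 2 + 1)) 0 A.τ (FOpn (K := K) N1 A.L A.τ) := by
  intro η w η' w' hR hR' h x hx hx0 b hb hb0
  have hsub : Bt (0 : Tor d M) (A.L ^ 2) ⊆ Bt 0 (A.L ^ 2 + 1) := by
    rintro v ⟨y, hy, rfl⟩
    exact ⟨y, by omega, rfl⟩
  have hx0' : Thr.θ ≤ η (tv x) := le_trans hx0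
    (BE.Rel.stt_le hR' 0 (Nat.zero_le _) _ (hsub (BE.tv_mem_Bt (BE.cell_supn hL hx))))
  have hb0' : Thr.θ ≤ stt η w (A.τ * N1) (tv b) := le_trans hb0
    (BE.Rel.stt_le hR' _ le_rfl _ (hsub (BE.tv_mem_Bt (BE.cell_supn hL hb))))
  exact BE.rin_mono hR hsub (BE.cell_supn hL hx) hx0' le_rfl (h x hx hx0' b hb hb0')

theorem popn_of_opn (hL : 2 ≤ A.L) (hM : 2 * A.L ^ 2 + 4 ≤ M) (η : Tor d M → ℕ)
    (w : List (Let d M (K + 1))) (h : Opn N1 A.L A.τ η w) : POpn N1 A.L A.τ η w := by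
  obtain ⟨h1, h2, h3⟩ := h
  have hL1 : 1 ≤ A.L := by omega
  refine ⟨h1, ?_, ?_⟩
  · intro x hx hx0 z' hz'
    obtain ⟨y, hy, hy2⟩ := h2 x hx z' hz'
    exact ⟨y, hy, BE.lin_rin (by omega) η _ x (BE.cell_supn hL1 hx) hx0 y hy2
      (BE.cell_supn' hL hz' hy)⟩
  · intro x hx hx0 b hb
    obtain ⟨i, hi, hy2⟩ := h3 x hx b hb
    exact ⟨i, hi, BE.lin_rin (by omega) η _ x (BE.cell_supn hL1 hx) hx0 b hy2
      (BE.cell_supn hL1 hb)⟩

theorem popn_pth (hM : 5 ≤ M) : PthE (POpn (d := d) (M := M) (K := K) N1 A.L A.τ) := by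
  rintro η w w' hp hm ⟨h1, h2, h3⟩
  refine ⟨h1, ?_, ?_⟩
  · intro x hx hx0 z' hz'
    obtain ⟨y, hy, hy2⟩ := h2 x hx hx0 z' hz'
    refine ⟨y, hy, ?_⟩
    rw [← BE.rin_pth (by omega) hp hm (BE.cell_supn0 hx)]
    exact hy2
  · intro x hx hx0 b hb
    obtain ⟨i, hi, hy2⟩ := h3 x hx hx0 b hb
    refine ⟨i, hi, ?_⟩
    rw [← BE.rin_pth (by omega) hp hm (BE.cell_supn0 hx)]
    exact hy2

theorem fopn_pth (hM : 5 ≤ M) : PthE (FOpn (d := d) (M := M) (K := K) N1 A.L A.τ) := by
  intro η w w' hp hm h x hx hx0 b hb hb0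
  rw [← SF1.stt_of_path hp] at hb0
  rw [← BE.rin_pth (by omega) hp hm (BE.cell_supn0 hx)]
  exact h x hx hx0 b hb hb0

end BE

end ZQ.Rows
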