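import Pool.Agent.ZP.SPR
import Pool.Agent.ZQ.InfLem
import Pool.Agent.ZQ.Core
import Pool.Agent.ZI.C5

/-! # Row SPR: spreading inside a box in which every site has at least two particles (deterministic) -/

set_option autoImplicit false

open scoped ENNReal BigOperators Classical Pointwise

noncomputable section

namespace ZQ.Rows

open ZP hiding AgreeW BG BadM Base BlockFacts CoreE Env EqEnv FG FOpn Meet MeetL MembE NMemb Opn PBad PBadM POpn PastEv QT Route Speed badA badW envT inf infMv lin pe rin stepI stepR visU
open ZP.Rows hiding spread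

variable [ZQ.Thr]

open ZP hiding AgreeW BG BadM Base BlockFacts CoreE Env EqEnv FG FOpn Meet MeetL MembE NMemb Opn PBad PBadM POpn PastEv QT Route Speed badA badW envT inf infMv lin pe rin stepI stepR visU
open ZQ

variable {d : ℕ}

namespace SPR

/-- the state after `i` letters -/
def sta {M K : ℕ} (G : Set (Pos d)) (η : Tor d M → ℕ) (x : Pos d) (w : List (Let d M (K + 1)))
    (i : ℕ) : (Tor d M → ℕ) × Set (Pos d) := (w.take i).foldl (stepI G) (η, {x})

theorem stepI_fst {M K : ℕ} (G : Set (Pos d)) (s : (Tor d M → ℕ) × Set (Pos d)) (a : Let d M K) :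
    (stepI G s a).1 = stepA s.1 a := by
  unfold stepI stepA
  rcases h : toLab a with _ | l
  · rfl
  · rfl

theorem sta_fst {M K : ℕ} (G : Set (Pos d)) (η : Tor d M → ℕ) (x : Pos d)
    (w : List (Let d M (K + 1))) (i : ℕ) : (sta G η x w i).1 = stt η w i := by
  unfold sta stt
  generalize w.take i = v
  have : ∀ (v : List (Let d M (K + 1))) (s : (Tor d M → ℕ) × Set (Pos d)),
      (v.foldl (stepI G) s).1 = v.foldl stepA s.1 := by
    intro v
    induction v with
    | nil => intro s; rfl
    | cons a v ih =>
      intro s
      rw [List.foldl_cons, List.foldl_cons, ih, stepI_fst]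
  exact this v (η, {x})

/-- a site loses at most one particle by one ring -/
theorem mv_ge' {V : Type} {nb : V → Dir d → Option V} (η : V → ℕ) (l : Lab V d) (v : V) :
    η v ≤ mv nb η l v + 1 := by
  by_cases hv : v = l.1
  · obtain ⟨x, j, e⟩ := l
    cases j with
    | zero => exact Nat.le_succ _
    | succ k =>
      change v = x at hv
      subst hv
      show η v ≤ ZI.mv nb η (v, k, e) v + 1
      unfold ZI.mv
      split
      · dsimp only
        cases nb v e with
        | none =>
          dsimp only
          rw [Function.update_self]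
          omega
        | some y =>
          dsimp only
          by_cases hw : v = y
          · subst hw
            rw [Function.update_self, Function.update_self]
            omega
          · rw [Function.update_of_ne hw, Function.update_self]
            omega
      · omega
  · exact (mv_ne η l hv).trans (Nat.le_succ _)

/-- a site with at least `θ + 1` particles has at least `θ` particles after one letter -/
theorem mv_ge {V : Type} {nb : V → Dir d → Option V} (η : V → ℕ) (l : Lab V d) (v : V)
    (h2 : Thr.θ + 1 ≤ η v) : Thr.θ ≤ mv nb η l v := by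
  have := mv_ge' (nb := nb) η l v
  omega

/-- an infected position with at least `θ + 1` particles stays infected -/
theorem stay {M K : ℕ} (G : Set (Pos d)) (s : (Tor d M → ℕ) × Set (Pos d)) (a : Let d M (K + 1))
    (z : Pos d) (hz : z ∈ s.2) (hzG : z ∈ G) (h2 : Thr.θ + 1 ≤ s.1 (tv z)) : z ∈ (stepI G s a).2 := by
  have h2' : 2 ≤ s.1 (tv z) := by
    have := Thr.pos
    omega
  unfold stepI
  rcases h : toLab a with _ | l
  · exact hz
  · obtain ⟨v, k, e⟩ := l
    refine ⟨?_, hzG⟩
    unfold infMv
    rcases k with _ | k
    · refine ⟨hz, ?_⟩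
      intro hv
      have hv' : tv z = v := hv
      show 2 ≤ s.1 v
      rw [← hv']
      exact h2'
    · refine ⟨?_, fun _ => Or.inr (mv_ge s.1 (v, k + 1, e) (tv z) h2)⟩
      show z ∈ ZI.infMv nbT tv s.1 s.2 (v, k, e)
      unfold ZI.infMv
      split_ifs with hk
      · left
        refine ⟨hz, ?_⟩
        intro hv
        have hv' : tv z = v := hv
        show 2 ≤ s.1 v
        rw [← hv']
        exact h2'
      · exact hz

/-- an infected position infects its neighbour when the label of level `0` rings -/
theorem jump {M K : ℕ} (hK : 2 ≤ K) (G : Set (Pos d)) (s : (Tor d M → ℕ) × Set (Pos d))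
    (z : Pos d) (e : Dir d) (hz : z ∈ s.2) (hzG : z + dv e ∈ G) (h2 : Thr.θ + 1 ≤ s.1 (tv z))
    (h3 : Thr.θ + 1 ≤ s.1 (tv (z + dv e))) :
    z + dv e ∈ (stepI G s (some (tv z, (⟨1, by omega⟩ : Fin (K + 1)), e))).2 := by
  have hl : toLab (some (tv z, (⟨1, by omega⟩ : Fin (K + 1)), e) : Let d M (K + 1)) =
      some (tv z, 1, e) := rfl
  unfold stepI
  rw [hl]
  refine ⟨⟨?_, fun _ => Or.inr (mv_ge s.1 (tv z, 1, e) (tv (z + dv e)) h3)⟩, hzG⟩
  show z + dv e ∈ ZI.infMv nbT tv s.1 s.2 (tv z, 0, e)
  unfold ZI.infMv
  have h0 : (0 : ℕ) < s.1 (tv z) := by omega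
  rw [if_pos h0]
  right
  refine ⟨?_, ?_, ?_⟩
  · simpa using hz
  · simp
  · show nbT (tv z) e = some (tv (z + dv e))
    rw [ZP.Rows.SPR.tv_add']
    rfl

end SPR

/-- SPR: the spreading (deterministic). -/
theorem spread {M K : ℕ} (N1 : ℕ) (hK : 2 ≤ K) (ρ s n : ℕ) (hM : 2 * ρ + 2 < M) (η : Tor d M → ℕ)
    (w : List (Let d M (K + 1))) (G : Set (Pos d)) (hG : ∀ z : Pos d, supn z ≤ ρ → z ∈ G)
    (h2 : ∀ i ≤ w.length, ∀ z : Pos d, supn z ≤ ρ → Thr.θ + 1 ≤ stt η w i (tv z))
    (hr : ∀ j < n, ∀ z : Pos d, supn z ≤ ρ → ∀ e : Dir d, ∃ i, j * s * N1 ≤ i ∧ i < (j + 1) * s * N1 ∧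
      w.getD i none = some (tv z, ⟨1, by omega⟩, e))
    (hw : n * s * N1 ≤ w.length) (x y : Pos d) (hx : supn x ≤ ρ) (hy : supn y ≤ ρ)
    (hxy : l1 (y - x) ≤ n) :
    y ∈ (w.foldl (stepI G) (η, {x})).2 := by
  have hmono : ∀ z : Pos d, supn z ≤ ρ → ∀ i k : ℕ, i + k ≤ w.length →
      z ∈ (SPR.sta G η x w i).2 → z ∈ (SPR.sta G η x w (i + k)).2 := by
    intro z hz i k
    induction k with
    | zero => intro _ h; exact h
    | succ k ih =>
      intro hk h
      have h1 := ih (by omega) h
      have e : SPR.sta G η x w (i + (k + 1)) =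
          stepI G (SPR.sta G η x w (i + k)) (w.getD (i + k) none) :=
        SPR.take_succ_foldl (stepI G) (η, {x}) w (i + k) (by omega)
      rw [e]
      refine SPR.stay G _ _ z h1 (hG z hz) ?_
      rw [SPR.sta_fst]
      exact h2 _ (by omega) z hz
  have key : ∀ j ≤ n, ∀ z : Pos d, supn z ≤ ρ → l1 (z - x) ≤ j → ∀ i, j * s * N1 ≤ i →
      i ≤ w.length → z ∈ (SPR.sta G η x w i).2 := by
    intro j
    induction j with
    | zero =>
      intro _ z hz hl i _ hi
      have hzx : z = x := by
        funext t
        have h3 : ((z - x) t).natAbs ≤ l1 (z - x) :=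
          Finset.single_le_sum (f := fun t => ((z - x) t).natAbs) (fun _ _ => Nat.zero_le _)
            (Finset.mem_univ t)
        have h4 : ((z - x) t).natAbs = 0 := by omega
        have h5 : z t - x t = 0 := by simpa using h4
        omega
      have h0 : z ∈ (SPR.sta G η x w 0).2 := by
        rw [hzx]
        exact Set.mem_singleton x
      simpa using hmono z hz 0 i (by omega) h0
    | succ j ih =>
      intro hj z hz hl i hi hiw
      have hjs : j * s * N1 ≤ (j + 1) * s * N1 :=
        Nat.mul_le_mul_right _ (Nat.mul_le_mul_right _ (Nat.le_succ j))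
      by_cases hlj : l1 (z - x) ≤ j
      · exact ih (by omega) z hz hlj i (by omega) hiw
      · -- a coordinate in which `z` and `x` differ
        have hne : ∃ t, z t ≠ x t := by
          by_contra hcon
          push Not at hcon
          apply hlj
          have : z - x = 0 := by
            funext t
            simp [hcon t]
          rw [this]
          simp [ZP.l1]
        obtain ⟨t, ht⟩ := hne
        -- the direction
        set b : Bool := decide (x t < z t) with hb
        set e : Dir d := (t, b) with he
        have hdv : dv e t = if b then 1 else -1 := by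
          simp [ZI.dv, he]
        have hdv' : ∀ u, u ≠ t → dv e u = 0 := by
          intro u hu
          simp [ZI.dv, he, Pi.single_eq_of_ne hu]
        set z' : Pos d := z - dv e with hz'
        have hz't : z' t = z t - (if b then 1 else -1) := by
          rw [hz', Pi.sub_apply, hdv]
        have hz'u : ∀ u, u ≠ t → z' u = z u := by
          intro u hu
          rw [hz', Pi.sub_apply, hdv' u hu, sub_zero]
        have hxt := (SPR.supn_le.1 hx) t
        have hzt := (SPR.supn_le.1 hz) t
        have hbt : (b = true ∧ x t < z t) ∨ (b = false ∧ z t < x t) := by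
          rcases lt_or_gt_of_ne ht with h | h
          · right
            exact ⟨by simp [hb]; omega, h⟩
          · left
            exact ⟨by simp [hb]; omega, h⟩
        have hsup : supn z' ≤ ρ := by
          rw [SPR.supn_le]
          intro u
          by_cases hu : u = t
          · subst hu
            rw [hz't]
            rcases hbt with ⟨hb1, hb2⟩ | ⟨hb1, hb2⟩
            · rw [hb1]
              simp only [if_true]
              omega
            · rw [hb1]
              simp only [Bool.false_eq_true, if_false]
              omega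
          · rw [hz'u u hu]
            exact (SPR.supn_le.1 hz) u
        have hl1 : l1 (z' - x) + 1 = l1 (z - x) := by
          unfold ZP.l1
          rw [← Finset.add_sum_erase _ _ (Finset.mem_univ t),
            ← Finset.add_sum_erase _ (fun j => ((z - x) j).natAbs) (Finset.mem_univ t)]
          have e1 : ∑ j ∈ Finset.univ.erase t, ((z' - x) j).natAbs =
              ∑ j ∈ Finset.univ.erase t, ((z - x) j).natAbs := by
            refine Finset.sum_congr rfl ?_
            intro u hu
            have hu' : u ≠ t := Finset.ne_of_mem_erase hu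
            simp only [Pi.sub_apply]
            rw [hz'u u hu']
          rw [e1]
          simp only [Pi.sub_apply]
          rw [hz't]
          rcases hbt with ⟨hb1, hb2⟩ | ⟨hb1, hb2⟩
          · rw [hb1]
            simp only [if_true]
            omega
          · rw [hb1]
            simp only [Bool.false_eq_true, if_false]
            omega
        obtain ⟨i0, hi1, hi2, hi3⟩ := hr j (by omega) z' hsup e
        have hn1 : (j + 1) * s * N1 ≤ n * s * N1 :=
          Nat.mul_le_mul_right _ (Nat.mul_le_mul_right _ hj)
        have hz'm := ih (by omega) z' hsup (by omega) i0 hi1 (by omega)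
        have hstep : z ∈ (SPR.sta G η x w (i0 + 1)).2 := by
          have e2 : SPR.sta G η x w (i0 + 1) =
              stepI G (SPR.sta G η x w i0) (w.getD i0 none) :=
            SPR.take_succ_foldl (stepI G) (η, {x}) w i0 (by omega)
          rw [e2, hi3]
          have hzz : z = z' + dv e := by rw [hz']; abel
          have h3 := SPR.jump hK G (SPR.sta G η x w i0) z' e hz'm (by rw [← hzz]; exact hG z hz)
            (by rw [SPR.sta_fst]; exact h2 _ (by omega) z' hsup)
            (by rw [SPR.sta_fst, ← hzz]; exact h2 _ (by omega) z hz)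
          rw [← hzz] at h3
          exact h3
        obtain ⟨k, rfl⟩ := Nat.exists_eq_add_of_le (show i0 + 1 ≤ i by omega)
        exact hmono z hz (i0 + 1) k hiw hstep
  have hfin := key n le_rfl y hy hxy w.length hw le_rfl
  unfold SPR.sta at hfin
  rwa [List.take_length] at hfin

end ZQ.Rows
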