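import Pool.Agent.ZP.BBa
import Pool.Agent.ZQ.Core
import Pool.Agent.ZP.SF2
import Pool.Agent.ZQ.PJ
import Pool.Agent.ZQ.BE
import Pool.Agent.ZP.LO
import Pool.Agent.ZP.LU
import Pool.Agent.ZP.LOW
import Pool.Agent.ZP.RNG
import Pool.Agent.ZQ.SPR

/-! # Row BB: the base for large fugacities, deterministic part and union bound -/

set_option autoImplicit false

open scoped ENNReal BigOperators Classical Pointwise

noncomputable section

namespace ZQ.BB

open ZP hiding Agree AgreeW BG BadM Base BlockFacts CoreE Env EqEnv FG FOpn GoodK IsGamma LowTail Meet MeetL MembE NMemb Opn PBad PBadM POpn PastEv QK QT Route Speed StepP Sys UpTail badA badW envT foldl_stepR_fst foldl_stepR_inter foldl_stepR_mono foldl_stepR_occ foldl_stepR_region inf infMv infMv_mono infMv_occ inf_comp inf_inter inf_mono_univ inf_occ inf_pred lin mem_foldl_stepR mem_infMv muK pe rin stepI stepR visU visU_mono_univ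
open ZP.BB hiding fopn_det fopn_un opn_det opn_un

variable [ZQ.Thr]

open ZP hiding Agree AgreeW BG BadM Base BlockFacts CoreE Env EqEnv FG FOpn GoodK IsGamma LowTail Meet MeetL MembE NMemb Opn PBad PBadM POpn PastEv QK QT Route Speed StepP Sys UpTail badA badW envT foldl_stepR_fst foldl_stepR_inter foldl_stepR_mono foldl_stepR_occ foldl_stepR_region inf infMv infMv_mono infMv_occ inf_comp inf_inter inf_mono_univ inf_occ inf_pred lin mem_foldl_stepR mem_infMv muK pe rin stepI stepR visU visU_mono_univ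
open ZP.Rows hiding R_of_noRec R_toZI agree_take bh_chain cfg_toZI chain_eq chain_shift envT_toZI foldl_stepR_noRec foldl_stepR_toZI fopn_loc fopn_pth inf_noRec inf_toZI occ_toZI opn_inc pe_path popn_loc popn_of_opn popn_pth spread start_inv visU_noRec visU_toZI vis_of_noRec vis_toZI
open ZQ.Rows
open ZP.BE hiding fold_mono fold_mono_same fold_pth lin_mono lin_rin lin_sub_rin rin_mono rin_pth stepI_eq_none stepI_eq_some stepI_mono stepI_occ stepI_stay step_pth zp_mono zp_src zp_stay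
open ZQ.BE
open ZQ

variable {d : ℕ}

section det

variable {M K : ℕ} (N1 L s n : ℕ) (hK : 2 ≤ K) (η : Tor d M → ℕ) (w : List (Let d M (K + 1)))

/-- the meeting cell -/
theorem fopn_det (hL : 1 ≤ L) (hn : 2 * d * L ≤ n) (hM : 2 * L + 2 < M)
    (hw : w.length = n * s * N1) (h2 : ∀ i ≤ n * s * N1, ∀ v ∈ Bt (0 : Tor d M) L, Thr.θ + 1 ≤ stt η w i v)
    (hr : Ring N1 L s n hK w) : FOpn N1 L (n * s) η w := by
  intro x hx _ b hb _
  have hwt : w.take (n * s * N1) = w := by rw [← hw, List.take_length]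
  unfold rin
  rw [hwt]
  refine spread N1 hK L s n hM η w {z | supn z ≤ L ^ 2} ?_ ?_ ?_ hw.ge x b (cell0_supn hx)
    (cell0_supn hb) ((l1_sub_le (cell0_supn hx) (cell0_supn hb)).trans hn)
  · intro z hz
    exact hz.trans (Nat.le_self_pow (by norm_num) L)
  · intro i hi z hz
    exact h2 i (by omega) _ (tv_mem_Bt hz)
  · intro j hj z hz e
    exact hr j hj _ (tv_mem_Bt hz) e

/-- the level `0` event -/
theorem opn_det (hL : 1 ≤ L) (hn : 2 * d * L ≤ n) (hM : 2 * L + 2 < M)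
    (hw : w.length = n * s * N1) (h2 : ∀ i ≤ n * s * N1, ∀ v ∈ Bt (0 : Tor d M) L,
      Thr.θ + 1 ≤ ((w.map (res (Bt 0 (L ^ 2)))).take i).foldl stepA (cut (Bt 0 (L ^ 2)) η) v)
    (hr : Ring N1 L s n hK w) : Opn N1 L (n * s) η w := by
  have hLL : L ≤ L ^ 2 := Nat.le_self_pow (by norm_num) L
  have hwt : w.take (n * s * N1) = w := by rw [← hw, List.take_length]
  have hmem : ∀ z : Pos d, supn z ≤ L → (tv z : Tor d M) ∈ Bt 0 (L ^ 2) :=
    fun z hz => tv_mem_Bt (hz.trans hLL)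
  have hcut : ∀ z : Pos d, supn z ≤ L → Thr.θ + 1 ≤ cut (Bt 0 (L ^ 2)) η (tv z) := by
    intro z hz
    have := h2 0 (Nat.zero_le _) _ (tv_mem_Bt hz)
    rwa [List.take_zero, List.foldl_nil] at this
  have hη : ∀ z : Pos d, supn z ≤ L → Thr.θ + 1 ≤ η (tv z) := by
    intro z hz
    have := hcut z hz
    unfold cut at this
    rwa [if_pos (hmem z hz)] at this
  have hkey : ∀ x y : Pos d, supn x ≤ L → supn y ≤ L →
      y ∈ lin (Bt 0 (L ^ 2)) η x (w.take (n * s * N1)) := by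
    intro x y hx hy
    have hocc : occ1 (cut (Bt 0 (L ^ 2)) η) (tv x) = cut (Bt 0 (L ^ 2)) η := by
      unfold occ1
      have h3 := hcut x hx
      rw [max_eq_right (by omega), Function.update_eq_self]
    unfold lin
    rw [hwt, hocc]
    refine spread N1 hK L s n hM _ (w.map (res (Bt 0 (L ^ 2)))) Set.univ (fun _ _ => Set.mem_univ _)
      ?_ ?_ (by rw [List.length_map]; exact hw.ge) x y hx hy ((l1_sub_le hx hy).trans hn)
    · intro i hi z hz
      rw [List.length_map, hw] at hi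
      exact h2 i hi _ (tv_mem_Bt hz)
    · intro j hj z hz e
      obtain ⟨i, hi1, hi2, hi3⟩ := hr j hj _ (tv_mem_Bt hz) e
      exact ⟨i, hi1, hi2, res_getD w _ i _ (hmem z hz) _ e hi3⟩
  refine ⟨⟨0, ?_, ?_⟩, ?_, ?_⟩
  · intro j
    simp only [Pi.zero_apply, mul_zero, zero_add]
    omega
  · have := hη 0 (supn_le fun j => by simp)
    omega
  · intro x hx z' hz'
    obtain ⟨h3, h4⟩ := corner hL z' hz'
    exact ⟨sm L z', h3, hkey x _ (cell0_supn hx) h4⟩
  · intro x hx b hb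
    exact ⟨n * s * N1, le_rfl, hkey x b (cell0_supn hx) (cell0_supn hb)⟩

end det

/-! ### union bounds -/

section prob

variable {m : Model} {δ : ℝ} (q : Par d m δ)

theorem fopn_un (L s n : ℕ) (hL : 1 ≤ L) (hn : 2 * d * L ≤ n)
    (hM : 2 * L + 2 < q.M) :
    q.PP (n * s * q.N1) (fun η w => ¬ FOpn q.N1 L (n * s) η w) ≤
      q.PP (n * s * q.N1) (fun η w => ∃ i ≤ n * s * q.N1, ∃ v ∈ bl q.M L, stt η w i v ≤ Thr.θ) +
      q.PP (n * s * q.N1) (fun η w => ∃ j < n, ∃ v ∈ bl q.M L, ∃ e : Dir d,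
      ¬ ∃ i, j * s * q.N1 ≤ i ∧ i < (j + 1) * s * q.N1 ∧
        w.getD i none = some (v, ⟨1, by have := q.K_ge; omega⟩, e)) := by
  refine le_trans (PP_mono q _ ?_) (PP_or q _ _ _)
  intro η w hw h
  by_contra hcon
  rw [not_or] at hcon
  obtain ⟨h1, h2⟩ := hcon
  push Not at h1 h2
  refine h (fopn_det q.N1 L s n q.K_ge η w hL hn hM hw ?_ ?_)
  · intro i hi v hv
    have := h1 i hi v (Finset.mem_filter.2 ⟨Finset.mem_univ _, hv⟩)
    omega
  · intro j hj v hv e
    exact h2 j hj v (Finset.mem_filter.2 ⟨Finset.mem_univ _, hv⟩) e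

theorem opn_un (hd : 0 < d) (L s n : ℕ) (hL : 1 ≤ L) (hn : 2 * d * L ≤ n)
    (hM : 2 * L + 2 < q.M) :
    q.PP (n * s * q.N1) (fun η w => ¬ Opn q.N1 L (n * s) η w) ≤
      q.PP (n * s * q.N1) (fun η w => ∃ i ≤ n * s * q.N1, ∃ v ∈ bl q.M L, stt η w i v ≤ Thr.θ) +
      q.PP (n * s * q.N1) (fun η w => ∃ j < n, ∃ v ∈ bl q.M L, ∃ e : Dir d,
      ¬ ∃ i, j * s * q.N1 ≤ i ∧ i < (j + 1) * s * q.N1 ∧
        w.getD i none = some (v, ⟨1, by have := q.K_ge; omega⟩, e)) +
      q.toZI.PP (n * s * q.N1) (Dis L (n * s * q.N1)) := by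
  have h0 := PP_prj q hd (n * s * q.N1) (Dis L (n * s * q.N1))
  refine le_trans ?_ (add_le_add le_rfl (le_of_eq h0))
  refine le_trans (PP_mono q _ ?_) (le_trans (PP_or q _ _ _) (add_le_add (PP_or q _ _ _) le_rfl))
  intro η w hw h
  by_contra hcon
  rw [not_or, not_or] at hcon
  obtain ⟨⟨h1, h2⟩, h3⟩ := hcon
  unfold Dis at h3
  push Not at h1 h2 h3
  refine h (opn_det q.N1 L s n q.K_ge η w hL hn hM hw ?_ ?_)
  · intro i hi v hv
    have h4 := h1 i hi v (Finset.mem_filter.2 ⟨Finset.mem_univ _, hv⟩)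
    have h5 := h3 i hi v hv
    unfold stt at h4
    rw [stt_prj] at h4 ⊢
    rw [List.map_take] at h4 ⊢
    have h6 : (w.map (res (Bt 0 (L ^ 2)))).map prj = (w.map prj).map (res (Bt 0 (L ^ 2))) := by
      rw [List.map_map, List.map_map]
      refine List.map_congr_left fun a _ => ?_
      exact (res_prj a).symm
    rw [h6, ← h5]
    omega
  · intro j hj v hv e
    exact h2 j hj v (Finset.mem_filter.2 ⟨Finset.mem_univ _, hv⟩) e

end prob

end ZQ.BB
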