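import Pool.Agent.ZP.BB
import Pool.Agent.ZQ.BBa

/-! # Row BB: the base for large fugacities and all recovery rates -/

set_option autoImplicit false

open scoped ENNReal BigOperators Classical Pointwise

noncomputable section

namespace ZQ.BB

open ZP hiding Agree AgreeW BG BadM Base BlockFacts CoreE Env EqEnv FG FOpn GoodK IsGamma LowTail Meet MeetL MembE NMemb Opn PBad PBadM POpn PastEv QK QT Route Speed StepP Sys UpTail badA badW envT foldl_stepR_fst foldl_stepR_inter foldl_stepR_mono foldl_stepR_occ foldl_stepR_region inf infMv infMv_mono infMv_occ inf_comp inf_inter inf_mono_univ inf_occ inf_pred lin mem_foldl_stepR mem_infMv muK pe rin stepI stepR visU visU_mono_univ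
open ZP.BB hiding fopn_det fopn_un opn_det opn_un

variable [ZQ.Thr]

open ZP hiding Agree AgreeW BG BadM Base BlockFacts CoreE Env EqEnv FG FOpn GoodK IsGamma LowTail Meet MeetL MembE NMemb Opn PBad PBadM POpn PastEv QK QT Route Speed StepP Sys UpTail badA badW envT foldl_stepR_fst foldl_stepR_inter foldl_stepR_mono foldl_stepR_occ foldl_stepR_region inf infMv infMv_mono infMv_occ inf_comp inf_inter inf_mono_univ inf_occ inf_pred lin mem_foldl_stepR mem_infMv muK pe rin stepI stepR visU visU_mono_univ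
open ZP.Rows hiding R_of_noRec R_toZI agree_take base_big bh_chain cfg_toZI chain_eq chain_shift envT_toZI foldl_stepR_noRec foldl_stepR_toZI fopn_loc fopn_pth inf_noRec inf_toZI occ_toZI opn_inc pe_path popn_loc popn_of_opn popn_pth spread start_inv visU_noRec visU_toZI vis_of_noRec vis_toZI
open ZQ.Rows
open ZP.BE hiding fold_mono fold_mono_same fold_pth lin_mono lin_rin lin_sub_rin rin_mono rin_pth stepI_eq_none stepI_eq_some stepI_mono stepI_occ stepI_stay step_pth zp_mono zp_src zp_stay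
open ZQ.BE
open ZQ

variable {d : ℕ}

end ZQ.BB

namespace ZQ.Rows

open ZP hiding Agree AgreeW BG BadM Base BlockFacts CoreE Env EqEnv FG FOpn GoodK IsGamma LowTail Meet MeetL MembE NMemb Opn PBad PBadM POpn PastEv QK QT Route Speed StepP Sys UpTail badA badW envT foldl_stepR_fst foldl_stepR_inter foldl_stepR_mono foldl_stepR_occ foldl_stepR_region inf infMv infMv_mono infMv_occ inf_comp inf_inter inf_mono_univ inf_occ inf_pred lin mem_foldl_stepR mem_infMv muK pe rin stepI stepR visU visU_mono_univ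
open ZP.Rows hiding R_of_noRec R_toZI agree_take base_big bh_chain cfg_toZI chain_eq chain_shift envT_toZI foldl_stepR_noRec foldl_stepR_toZI fopn_loc fopn_pth inf_noRec inf_toZI occ_toZI opn_inc pe_path popn_loc popn_of_opn popn_pth spread start_inv visU_noRec visU_toZI vis_of_noRec vis_toZI

variable [ZQ.Thr]

open ZP hiding Agree AgreeW BG BadM Base BlockFacts CoreE Env EqEnv FG FOpn GoodK IsGamma LowTail Meet MeetL MembE NMemb Opn PBad PBadM POpn PastEv QK QT Route Speed StepP Sys UpTail badA badW envT foldl_stepR_fst foldl_stepR_inter foldl_stepR_mono foldl_stepR_occ foldl_stepR_region inf infMv infMv_mono infMv_occ inf_comp inf_inter inf_mono_univ inf_occ inf_pred lin mem_foldl_stepR mem_infMv muK pe rin stepI stepR visU visU_mono_univ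
open ZP.BB hiding fopn_det fopn_un opn_det opn_un
open ZQ.BB
open ZQ

theorem base_big (m : Model) (d : ℕ) (hd : 0 < d) (Cp C0 : ℕ) : ∃ φ1 : ℝ, 2 ≤ φ1 ∧
    ∀ (φ0 : ℝ) (h0 : 0 < φ0), φ1 ≤ φ0 → ∃ L τ : ℕ, C0 * φ0 ^ C0 ≤ (L : ℝ) ∧ C0 ≤ L ∧ L ≤ τ ∧
    τ ≤ L ^ 2 ∧ ∀ (δ : ℝ) (q : Par d (wf m φ0 h0) δ) (n : ℕ), q.Tiny n → L ^ 5 ≤ n →
    4 * φ0 ≤ m.g q.K → 4 * L ^ 5 ≤ q.M →
    (∀ (hφ : 0 < φ0 / 2) (hK : 2 * (φ0 / 2) ≤ m.g q.K),
      (q.wf (φ0 / 2) hφ hK).PP (τ * q.N1) (fun η w => ¬ Opn q.N1 L τ η w) ≤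
        ENNReal.ofReal (1 / (L : ℝ) ^ Cp)) ∧
    q.PP (τ * q.N1) (fun η w => ¬ FOpn q.N1 L τ η w) ≤ ENNReal.ofReal (1 / 32) := by
  obtain ⟨CL, hCL⟩ := local_ball_u m d hd
  obtain ⟨c1, hc1, C1, hC1, hlow⟩ := low_prob m d hd Thr.θ
  obtain ⟨c2, hc2, hring⟩ := ring_prob m d hd
  obtain ⟨a, ha⟩ : ∃ a, a = C0 + 8 * CL * d + 8 * d + 8 + Thr.θ := ⟨_, rfl⟩
  obtain ⟨b, hb⟩ : ∃ b, b = C0 + 1 := ⟨_, rfl⟩
  obtain ⟨B, hB⟩ : ∃ B : ℝ, B = a * 2 ^ b := ⟨_, rfl⟩
  obtain ⟨x1, hx1⟩ := poly_exp (96 * C1 * 3 ^ d * 8 * d * B ^ (Cp + d + 1))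
    (b * (Cp + d + 1) + 1) (c1 / 2) (by positivity)
  obtain ⟨x2, hx2⟩ := poly_exp (96 * 4 * d ^ 2 * 3 ^ d * B ^ (Cp + d + 1))
    (b * (Cp + d + 1)) c2 hc2
  obtain ⟨x3, hx3⟩ := poly_exp (96 * CL * 2 * 2 ^ CL * B ^ (Cp + 2 * CL))
    (b * (Cp + 2 * CL) + 1) 1 one_pos
  refine ⟨max 2 (max x1 (max x2 x3)), le_max_left _ _, ?_⟩
  intro φ0 h0 hφ1
  have hx2' : 2 ≤ φ0 := (le_max_left _ _).trans hφ1
  have hX1 : x1 ≤ φ0 := ((le_max_left _ _).trans (le_max_right _ _)).trans hφ1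
  have hX2 : x2 ≤ φ0 :=
    (((le_max_left _ _).trans (le_max_right _ _)).trans (le_max_right _ _)).trans hφ1
  have hX3 : x3 ≤ φ0 :=
    (((le_max_right _ _).trans (le_max_right _ _)).trans (le_max_right _ _)).trans hφ1
  obtain ⟨f, hf⟩ : ∃ f, f = ⌈φ0⌉₊ := ⟨_, rfl⟩
  have hf1 : φ0 ≤ f := by rw [hf]; exact Nat.le_ceil φ0
  have hf2 : (f : ℝ) ≤ 2 * φ0 := by
    have := Nat.ceil_lt_add_one h0.le
    rw [← hf] at this
    linarith
  have hf3 : 2 ≤ f := by exact_mod_cast hx2'.trans hf1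
  obtain ⟨L, hL⟩ : ∃ L, L = a * f ^ b := ⟨_, rfl⟩
  obtain ⟨n, hn⟩ : ∃ n, n = 2 * d * L := ⟨_, rfl⟩
  have ha8 : 8 ≤ a := by omega
  have hfb : f ≤ f ^ b := Nat.le_self_pow (by omega) f
  have hfb1 : 1 ≤ f ^ b := Nat.one_le_pow _ _ (by omega)
  have hLf : a * f ≤ L := by rw [hL]; exact Nat.mul_le_mul_left _ hfb
  have hLa : a ≤ L := by rw [hL]; exact Nat.le_mul_of_pos_right _ hfb1
  have hL8 : 8 ≤ L := by omega
  have hLr : (8 : ℝ) ≤ L := by exact_mod_cast hL8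
  have hLB : (L : ℝ) ≤ B * φ0 ^ b := by
    rw [hL, hB]
    push_cast
    rw [mul_assoc, ← mul_pow]
    exact mul_le_mul_of_nonneg_left (pow_le_pow_left₀ (Nat.cast_nonneg _) hf2 _)
      (Nat.cast_nonneg _)
  have hφL : φ0 ≤ L := by
    have h1 : (f : ℝ) ≤ L := by
      have : f ≤ L := (Nat.le_mul_of_pos_left _ (by omega)).trans hLf
      exact_mod_cast this
    exact hf1.trans h1
  have hns : n * f ≤ L ^ 2 := by
    rw [hn, sq]
    calc 2 * d * L * f = (2 * d * f) * L := by ring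
      _ ≤ L * L := by
        refine Nat.mul_le_mul_right _ (le_trans ?_ hLf)
        exact Nat.mul_le_mul_right _ (by omega)
  have hLns : L ≤ n * f := by
    rw [hn]
    calc L = 1 * L := (one_mul L).symm
      _ ≤ (2 * d * f) * L := Nat.mul_le_mul_right _ (by
          have : 1 * 1 ≤ (2 * d) * f := Nat.mul_le_mul (by omega) (by omega)
          omega)
      _ = 2 * d * L * f := by ring
  refine ⟨L, n * f, ?_, ?_, hLns, hns, ?_⟩
  · have h1 : φ0 ^ C0 ≤ (f : ℝ) ^ b := by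
      calc φ0 ^ C0 ≤ (f : ℝ) ^ C0 := pow_le_pow_left₀ h0.le hf1 _
        _ ≤ (f : ℝ) ^ b := pow_le_pow_right₀ (by linarith) (by omega)
    rw [hL]
    push_cast
    exact mul_le_mul (by exact_mod_cast (by omega : C0 ≤ a)) h1 (pow_nonneg h0.le _)
      (Nat.cast_nonneg _)
  · omega
  intro δ q n' hT hn' hgK hM
  have hL2 : L ^ 2 ≤ L ^ 5 := Nat.pow_le_pow_right (by omega) (by norm_num)
  have hLL : L ≤ L ^ 2 := Nat.le_self_pow (by norm_num) L
  have hL8' : 8 * L ≤ L ^ 2 := by rw [sq]; exact Nat.mul_le_mul_right _ hL8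
  have hK3 : Thr.θ + 2 ≤ q.K := by have := hT.1; omega
  have hM1 : 2 * L + 2 < q.M := by omega
  have hLpos : (0 : ℝ) < L := by linarith
  have hXpos : (0 : ℝ) < (L : ℝ) ^ Cp := pow_pos hLpos _
  have hX1' : (1 : ℝ) ≤ (L : ℝ) ^ Cp := one_le_pow₀ (by linarith)
  have hBpos : 0 < B := by
    rw [hB]
    have : (0 : ℝ) < a := by exact_mod_cast (by omega : 0 < a)
    positivity
  have hpw : ∀ j : ℕ, (L : ℝ) ^ j ≤ B ^ j * φ0 ^ (b * j) := by
    intro j
    rw [pow_mul, ← mul_pow]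
    exact pow_le_pow_left₀ hLpos.le hLB j
  have hcard : ((bl (d := d) q.M L).card : ℝ) ≤ 3 ^ d * (L : ℝ) ^ d := by
    have h1 : (bl (d := d) q.M L).card ≤ (2 * L + 1) ^ d := ZI.LO.card_Bt 0 L
    have h2 : ((bl (d := d) q.M L).card : ℝ) ≤ ((2 * L + 1 : ℕ) : ℝ) ^ d := by exact_mod_cast h1
    refine h2.trans ?_
    rw [← mul_pow]
    refine pow_le_pow_left₀ (Nat.cast_nonneg _) ?_ _
    push_cast
    linarith
  have hnr : (n : ℝ) = 2 * d * L := by rw [hn]; push_cast; ring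
  have hdr : (1 : ℝ) ≤ d := by exact_mod_cast hd
  -- low
  have hP1 : ∀ (φ : ℝ), φ0 / 2 ≤ φ → C1 * (bl (d := d) q.M L).card * ((n * f : ℕ) + 1) *
      Real.exp (-(c1 * φ)) ≤ 1 / (96 * (L : ℝ) ^ Cp) := by
    intro φ hφ
    refine le_of_mul hXpos (le_trans ?_ (hx1 φ0 hX1))
    have h1 : Real.exp (-(c1 * φ)) ≤ Real.exp (-(c1 / 2 * φ0)) := by
      apply Real.exp_le_exp.mpr
      nlinarith
    have h2 : (((n * f : ℕ) : ℝ) + 1) ≤ 8 * d * L * φ0 := by
      push_cast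
      rw [hnr]
      have h3 : (1 : ℝ) ≤ 4 * d * L * φ0 := by
        have h4 : (1 : ℝ) ≤ d * L := by nlinarith
        nlinarith
      have h5 : 2 * (d : ℝ) * L * f ≤ 2 * d * L * (2 * φ0) :=
        mul_le_mul_of_nonneg_left hf2 (by positivity)
      linarith
    calc C1 * (bl (d := d) q.M L).card * ((n * f : ℕ) + 1) * Real.exp (-(c1 * φ)) *
          (96 * (L : ℝ) ^ Cp)
        ≤ C1 * (3 ^ d * (L : ℝ) ^ d) * (8 * d * L * φ0) * Real.exp (-(c1 / 2 * φ0)) *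
          (96 * (L : ℝ) ^ Cp) := by
          gcongr
      _ = 96 * C1 * 3 ^ d * 8 * d * ((L : ℝ) ^ (Cp + d + 1)) * φ0 *
          Real.exp (-(c1 / 2 * φ0)) := by
          rw [pow_add, pow_add]; ring
      _ ≤ 96 * C1 * 3 ^ d * 8 * d * (B ^ (Cp + d + 1) * φ0 ^ (b * (Cp + d + 1))) * φ0 *
          Real.exp (-(c1 / 2 * φ0)) := by
          have := hpw (Cp + d + 1)
          gcongr
      _ = 96 * C1 * 3 ^ d * 8 * d * B ^ (Cp + d + 1) * φ0 ^ (b * (Cp + d + 1) + 1) *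
          Real.exp (-(c1 / 2 * φ0)) := by
          rw [pow_succ φ0]; ring
  -- ring
  have hP2 : 2 * d * (bl (d := d) q.M L).card * n * Real.exp (-(c2 * f)) ≤
      1 / (96 * (L : ℝ) ^ Cp) := by
    refine le_of_mul hXpos (le_trans ?_ (hx2 φ0 hX2))
    have h1 : Real.exp (-(c2 * f)) ≤ Real.exp (-(c2 * φ0)) := by
      apply Real.exp_le_exp.mpr
      nlinarith
    rw [hnr]
    calc 2 * d * (bl (d := d) q.M L).card * (2 * d * L) * Real.exp (-(c2 * f)) *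
          (96 * (L : ℝ) ^ Cp)
        ≤ 2 * d * (3 ^ d * (L : ℝ) ^ d) * (2 * d * L) * Real.exp (-(c2 * φ0)) *
          (96 * (L : ℝ) ^ Cp) := by
          gcongr
      _ = 96 * 4 * d ^ 2 * 3 ^ d * ((L : ℝ) ^ (Cp + d + 1)) * Real.exp (-(c2 * φ0)) := by
          rw [pow_add, pow_add]; ring
      _ ≤ 96 * 4 * d ^ 2 * 3 ^ d * (B ^ (Cp + d + 1) * φ0 ^ (b * (Cp + d + 1))) *
          Real.exp (-(c2 * φ0)) := by
          have := hpw (Cp + d + 1)
          gcongr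
      _ = 96 * 4 * d ^ 2 * 3 ^ d * B ^ (Cp + d + 1) * φ0 ^ (b * (Cp + d + 1)) *
          Real.exp (-(c2 * φ0)) := by ring
  -- local
  have hP3 : CL * (1 + φ0 / 2) * ((L : ℝ) + (L ^ 2 - L : ℕ) + 1) ^ CL *
      Real.exp (CL * (n * f : ℕ) - (L ^ 2 - L : ℕ)) ≤ 1 / (96 * (L : ℝ) ^ Cp) := by
    refine le_of_mul hXpos (le_trans ?_ (hx3 φ0 hX3))
    have h1 : (L : ℝ) + (L ^ 2 - L : ℕ) = (L : ℝ) ^ 2 := by
      rw [Nat.cast_sub hLL]
      push_cast
      ring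
    rw [h1]
    have h2 : (L : ℝ) ^ 2 + 1 ≤ 2 * (L : ℝ) ^ 2 := by nlinarith
    have h3 : CL * ((n * f : ℕ) : ℝ) ≤ (L : ℝ) ^ 2 / 4 := by
      have h4 : 4 * (CL * (n * f)) ≤ L ^ 2 := by
        rw [hn, sq]
        calc 4 * (CL * (2 * d * L * f)) = (8 * CL * d * f) * L := by ring
          _ ≤ L * L := by
            refine Nat.mul_le_mul_right _ (le_trans ?_ hLf)
            exact Nat.mul_le_mul_right _ (by omega)
      have h5 : (4 : ℝ) * (CL * ((n * f : ℕ) : ℝ)) ≤ (L : ℝ) ^ 2 := by exact_mod_cast h4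
      linarith
    have h4 : Real.exp (CL * (n * f : ℕ) - (L ^ 2 - L : ℕ)) ≤ Real.exp (-(1 * φ0)) := by
      apply Real.exp_le_exp.mpr
      have h5 : ((L ^ 2 - L : ℕ) : ℝ) = (L : ℝ) ^ 2 - L := by
        rw [Nat.cast_sub hLL]
        push_cast
        ring
      rw [h5]
      nlinarith
    have h6 : 1 + φ0 / 2 ≤ 2 * φ0 := by linarith
    calc CL * (1 + φ0 / 2) * ((L : ℝ) ^ 2 + 1) ^ CL *
          Real.exp (CL * (n * f : ℕ) - (L ^ 2 - L : ℕ)) * (96 * (L : ℝ) ^ Cp)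
        ≤ CL * (2 * φ0) * (2 * (L : ℝ) ^ 2) ^ CL * Real.exp (-(1 * φ0)) *
          (96 * (L : ℝ) ^ Cp) := by
          gcongr
      _ = 96 * CL * 2 * 2 ^ CL * ((L : ℝ) ^ (Cp + 2 * CL)) * φ0 * Real.exp (-(1 * φ0)) := by
          rw [mul_pow, ← pow_mul, pow_add]; ring
      _ ≤ 96 * CL * 2 * 2 ^ CL * (B ^ (Cp + 2 * CL) * φ0 ^ (b * (Cp + 2 * CL))) * φ0 *
          Real.exp (-(1 * φ0)) := by
          have := hpw (Cp + 2 * CL)
          gcongr
      _ = 96 * CL * 2 * 2 ^ CL * B ^ (Cp + 2 * CL) * φ0 ^ (b * (Cp + 2 * CL) + 1) *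
          Real.exp (-(1 * φ0)) := by
          rw [pow_succ φ0]; ring
  constructor
  · intro hφ hK
    refine (opn_un (q.wf (φ0 / 2) hφ hK) hd L f n (by omega) (by omega) hM1).trans ?_
    have h1 := hlow (φ0 / 2) hφ (by linarith) δ (q.wf (φ0 / 2) hφ hK) hK3 (bl q.M L) (n * f)
    have h2 := hring (φ0 / 2) hφ δ (q.wf (φ0 / 2) hφ hK) (bl q.M L) f n
    have h3 := hCL (φ0 / 2) hφ (q.wf (φ0 / 2) hφ hK).toZI 0 L (L ^ 2 - L) (n * f)
      (by show 2 * (L + (L ^ 2 - L)) + 4 ≤ q.M; omega)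
    have h4 : L + (L ^ 2 - L) = L ^ 2 := by omega
    rw [h4] at h3
    have h5 : ENNReal.ofReal (1 / (96 * (L : ℝ) ^ Cp)) + ENNReal.ofReal (1 / (96 * (L : ℝ) ^ Cp)) +
        ENNReal.ofReal (1 / (96 * (L : ℝ) ^ Cp)) ≤ ENNReal.ofReal (1 / (L : ℝ) ^ Cp) := by
      rw [← ENNReal.ofReal_add (by positivity) (by positivity),
        ← ENNReal.ofReal_add (by positivity) (by positivity)]
      refine ENNReal.ofReal_le_ofReal ?_
      have h6 : 1 / (96 * (L : ℝ) ^ Cp) = 1 / 96 * (1 / (L : ℝ) ^ Cp) := by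
        field_simp
      rw [h6]
      have h7 : 0 ≤ 1 / (L : ℝ) ^ Cp := by positivity
      linarith
    refine le_trans (add_le_add (add_le_add (h1.trans ?_) (h2.trans ?_)) (h3.trans ?_)) h5
    · exact ENNReal.ofReal_le_ofReal (hP1 _ le_rfl)
    · exact ENNReal.ofReal_le_ofReal hP2
    · exact ENNReal.ofReal_le_ofReal hP3
  · refine (fopn_un q L f n (by omega) (by omega) hM1).trans ?_
    have h1 := hlow φ0 h0 (by linarith) δ q hK3 (bl q.M L) (n * f)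
    have h2 := hring φ0 h0 δ q (bl q.M L) f n
    have h5 : ENNReal.ofReal (1 / (96 * (L : ℝ) ^ Cp)) + ENNReal.ofReal (1 / (96 * (L : ℝ) ^ Cp)) ≤
        ENNReal.ofReal (1 / 32) := by
      rw [← ENNReal.ofReal_add (by positivity) (by positivity)]
      refine ENNReal.ofReal_le_ofReal ?_
      have h6 : 1 / (96 * (L : ℝ) ^ Cp) ≤ 1 / 96 := by
        apply one_div_le_one_div_of_le (by norm_num)
        linarith
      linarith
    refine le_trans (add_le_add (h1.trans ?_) (h2.trans ?_)) h5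
    · exact ENNReal.ofReal_le_ofReal (hP1 _ (by linarith))
    · exact ENNReal.ofReal_le_ofReal hP2

end ZQ.Rows
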