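import Pool.Agent.ZP.BKa
import Pool.Agent.ZP.SF1
import Pool.Agent.ZP.BKaux
import Pool.Agent.ZQ.BE

/-! # Row BKa: the bad events are local and monotone -/

set_option autoImplicit false

open scoped ENNReal BigOperators Classical Pointwise

noncomputable section

namespace ZQ.Rows

open ZP hiding Agree AgreeW BadM Base BlockFacts Env EqEnv FOpn GoodK IsGamma LowTail Opn PBad PBadM POpn PastEv QK QT StepP Sys UpTail envT foldl_stepR_fst foldl_stepR_inter foldl_stepR_mono foldl_stepR_occ foldl_stepR_region inf infMv infMv_mono infMv_occ inf_comp inf_inter inf_mono_univ inf_occ inf_pred lin mem_foldl_stepR mem_infMv muK pe rin stepI stepR visU visU_mono_univ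
open ZP.Rows hiding R_of_noRec R_toZI agree_take badM_dec badM_of_pbadM bh_chain cfg_toZI chain_eq chain_shift envT_toZI foldl_stepR_noRec foldl_stepR_toZI fopn_loc fopn_pth inf_noRec inf_toZI occ_toZI opn_inc pbadM_loc pbadM_pth pbad_pth pe_path popn_loc popn_of_opn popn_pth start_inv visU_noRec visU_toZI vis_of_noRec vis_toZI

variable [ZQ.Thr]

open ZP hiding Agree AgreeW BadM Base BlockFacts Env EqEnv FOpn GoodK IsGamma LowTail Opn PBad PBadM POpn PastEv QK QT StepP Sys UpTail envT foldl_stepR_fst foldl_stepR_inter foldl_stepR_mono foldl_stepR_occ foldl_stepR_region inf infMv infMv_mono infMv_occ inf_comp inf_inter inf_mono_univ inf_occ inf_pred lin mem_foldl_stepR mem_infMv muK pe rin stepI stepR visU visU_mono_univ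
open ZQ

variable {d : ℕ}

open BKaux

section BK

variable {M K : ℕ} (N1 : ℕ) (A : Prm)

theorem badM_dec (hL : 1000 * (d + 1) ≤ A.L) (hγ : A.α + 12 ≤ A.γ) (k : ℕ)
    (hM : 12 * A.S k + 4 * A.L ^ 2 + 10 ≤ M) :
    DecE N1 (Bt (0 : Tor d M) (6 * A.S k + A.L ^ 2 + 1)) 0 (6 * A.T d k) (BadM (K := K) N1 A k) := by
  induction k with
  | zero =>
    have h1 : IncE N1 (Bt (0 : Tor d M) (A.L ^ 2)) 0 A.τ (Opn (K := K) N1 A.L A.τ) :=
      opn_inc N1 A (by omega) (by omega)
    have h2 := DecE.sft N1 (IncE.not N1 h1) (0 : Pos d) (2 * A.τ)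
    refine DecE.mono N1 h2 ?_ (Nat.zero_le _) ?_
    · refine Bt_shift (a := 0) 0 ?_ (by omega)
      rw [supn_le_iff]
      intro j
      simp
    · unfold Prm.T Prm.ix
      omega
  | succ k ih =>
    have hS := S_le_succ A hL hγ k
    have ih' := ih (by omega)
    intro η w η' w' hR hE
    obtain ⟨f, h1, h2, h3⟩ := hE
    refine ⟨f, h1, h2, fun i => ?_⟩
    have h4 := DecE.sft N1 ih' (sm (A.S k) (f i).1) ((A.nt d k - 2 + (f i).2) * A.T d k)
    have h5 := DecE.mono N1 h4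
      (Bt_shift (ρ' := 6 * A.S (k + 1) + A.L ^ 2 + 1) _ (supn_sm_le (A.S k) (f i).1 (h1 i).1)
        (space_fit A hL hγ k)) (Nat.zero_le _) (time_ub A hL hγ k _ (h1 i).2)
    exact h5 η w η' w' hR (h3 i)

theorem pbadM_loc (hL : 1000 * (d + 1) ≤ A.L) (hγ : A.α + 12 ≤ A.γ) (k : ℕ)
    (hM : 12 * A.S k + 4 * A.L ^ 2 + 10 ≤ M) :
    LocE N1 (Bt (0 : Tor d M) (6 * A.S k + A.L ^ 2 + 1)) 0 (6 * A.T d k)
      (PBadM (K := K) N1 A k) := by
  induction k with
  | zero =>
    have h1 : LocE N1 (Bt (0 : Tor d M) (A.L ^ 2 + 1)) 0 A.τ (POpn (K := K) N1 A.L A.τ) :=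
      popn_loc N1 A (by omega) (by omega)
    have h2 := LocE.sft N1 (LocE.not N1 h1) (0 : Pos d) (2 * A.τ)
    refine LocE.mono N1 h2 ?_ (Nat.zero_le _) ?_
    · refine Bt_shift (a := 0) 0 ?_ (by omega)
      rw [supn_le_iff]
      intro j
      simp
    · unfold Prm.T Prm.ix
      omega
  | succ k ih =>
    have hS := S_le_succ A hL hγ k
    have ih' := ih (by omega)
    intro η w η' w' hR hR' hE
    obtain ⟨f, h1, h2, h3⟩ := hE
    refine ⟨f, h1, h2, fun i => ?_⟩
    have h4 := LocE.sft N1 ih' (sm (A.S k) (f i).1) ((A.nt d k - 2 + (f i).2) * A.T d k)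
    have h5 := LocE.mono N1 h4
      (Bt_shift (ρ' := 6 * A.S (k + 1) + A.L ^ 2 + 1) _ (supn_sm_le (A.S k) (f i).1 (h1 i).1)
        (space_fit A hL hγ k)) (Nat.zero_le _) (time_ub A hL hγ k _ (h1 i).2)
    exact h5 η w η' w' hR hR' (h3 i)

theorem pbadM_pth (hM : 5 ≤ M) (k : ℕ) : PthE (PBadM (d := d) (M := M) (K := K) N1 A k) := by
  induction k with
  | zero => exact PthE.sft N1 (PthE.not (popn_pth N1 A hM)) _ _
  | succ k ih => exact PthE.rec N1 A ih k

theorem pbad_pth (hM : 5 ≤ M) (b : Bool) (k : ℕ) :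
    PthE (PBad (d := d) (M := M) (K := K) N1 A b k) := by
  unfold PBad
  cases b
  · simpa using pbadM_pth N1 A hM k
  · simpa using badP_pth N1 A hM k

theorem badM_of_pbadM (hL : 2 ≤ A.L) (hM : 2 * A.L ^ 2 + 4 ≤ M) (k : ℕ) (η : Tor d M → ℕ)
    (w : List (Let d M (K + 1))) (h : PBadM N1 A k η w) : BadM N1 A k η w := by
  induction k generalizing η w with
  | zero =>
    intro h'
    exact h (popn_of_opn N1 A hL hM _ _ h')
  | succ k ih => exact RecE_mono A ih h

end BK

end ZQ.Rows
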