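import Pool.Agent.ZP.E6
import Pool.Agent.ZQ.Dec
import Pool.Agent.ZI.E6

/-! # Row E6: the chain of blocks against the product law (with recovery) -/

set_option autoImplicit false

open scoped ENNReal BigOperators Classical

noncomputable section

namespace ZQ

open ZP hiding AgreeW Base BlockFacts Env EqEnv PastEv QT envT inf infMv pe stepI stepR visU

variable [ZQ.Thr]

variable {d : ℕ} {m : Model} {δ : ℝ}

namespace E6

open ZP.E6 hiding block_chain_of core sum_QT_le

export ZI.E6 (ind ind_pos ind_neg ind_le_one ind_mono ind_or exp_beats box mem_box card_box pb_succ pb_four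
  pb_two pb_mul pb_add poly_bd)

open ZI (EvE_mono EvE_add EvE_mul EvE_congr EvE_const)

section PP

variable (q : Par d m δ)

theorem sum_QT_le (hw : ∑ a, q.w a = 1) (P : BP) (u : Fin d → ℝ) (n m' : ℕ) (s : Finset (ℕ × Pos d)) :
    ∑ y ∈ s, QT q P u n m' y ≤ 1 := by
  have h : ∀ s : Finset (ℕ × Pos d), ∑ y ∈ s, QT q P u n m' y =
      q.PP (n ^ 2 * q.N1) (fun η l => (envT q η l).blk P u m' 0 P.κ ∈ s) := by
    intro s
    induction s using Finset.induction_on with
    | empty =>
        rw [Finset.sum_empty, PP_congr q _ (E' := fun _ _ => False) (fun η l => by simp), PP_false]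
    | insert a s ha ih =>
        rw [Finset.sum_insert ha, ih]
        unfold QT
        rw [PP_def, PP_def, PP_def, ← ENNReal.tsum_add]
        refine tsum_congr fun η => ?_
        rw [← mul_add, ← EvE_add]
        congr 1
        refine EvE_congr q.w _ fun l _ => ?_
        by_cases h1 : (envT q η l).blk P u m' 0 P.κ = a
        · have h2 : (envT q η l).blk P u m' 0 P.κ ∈ insert a s := by
            rw [h1]; exact Finset.mem_insert_self a s
          have h3 : ¬ (envT q η l).blk P u m' 0 P.κ ∈ s := by rw [h1]; exact ha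
          rw [ind_pos h1, ind_pos h2, ind_neg h3, add_zero]
        · rw [ind_neg h1, zero_add]
          by_cases h2 : (envT q η l).blk P u m' 0 P.κ ∈ s
          · rw [ind_pos h2, ind_pos (Finset.mem_insert_of_mem h2)]
          · have h3 : ¬ (envT q η l).blk P u m' 0 P.κ ∈ insert a s := by
              intro h3
              rcases Finset.mem_insert.mp h3 with h3 | h3
              · exact h1 h3
              · exact h2 h3
            rw [ind_neg h2, ind_neg h3]
  rw [h]
  exact PP_one_le q hw _ _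

end PP

/-- the induction -/
theorem core (q : Par d m δ) (hw : ∑ a, q.w a = 1) (P : BP) (u : Fin d → ℝ) (n lo hi : ℕ)
    (GoodE : (Tor d q.M → ℕ) → List (Let d q.M (q.K + 1)) → Prop)
    (A : ℕ → (ℕ × Pos d) → Prop) (B : Finset (ℕ × Pos d)) (ε0 ε1 : ℝ≥0∞)
    (hgood : q.PP (n ^ 2 * q.N1) (fun η l => ¬ GoodE η l) ≤ ε0)
    (hadm : ∀ m', lo ≤ m' → m' ≤ hi → ∀ η l, GoodE η l → A m' ((envT q η l).blk P u m' 0 P.κ))
    (hAB : ∀ m', m' ≤ hi → ∀ y, A m' y → y ∈ B)
    (hstep : ∀ m', lo ≤ m' → m' ≤ hi → ∀ y, A m' y → ∀ ms : List ℕ, (∀ m'' ∈ ms, lo ≤ m'') →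
      m' + ms.sum ≤ hi → ∀ G : List (ℕ × Pos d) → Prop,
      q.PP (n ^ 2 * q.N1) (fun η l => GoodE η l ∧ (envT q η l).blk P u m' 0 P.κ = y ∧
        G ((envT q η l).chain P u ms (y.2 + v0 P u) (P.κ + y.1 + P.Δ))) ≤
      QT q P u n m' y * q.PP (n ^ 2 * q.N1) (fun η l => G ((envT q η l).chain P u ms 0 P.κ)) + ε1) :
    ∀ ms : List ℕ, (∀ m' ∈ ms, lo ≤ m') → ms.sum ≤ hi → ∀ G : List (ℕ × Pos d) → Prop,
      q.PP (n ^ 2 * q.N1) (fun η l => G ((envT q η l).chain P u ms 0 P.κ)) ≤
        prodQ (QT q P u n) ms G + ms.length * (ε0 + B.card * ε1) := by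
  intro ms
  induction ms with
  | nil =>
      intro _ _ G
      rw [prodQ_nil]
      simp only [List.length_nil, Nat.cast_zero, zero_mul, add_zero]
      by_cases hG : G []
      · rw [if_pos hG]; exact PP_one_le q hw _ _
      · rw [if_neg hG, PP_congr q _ (E' := fun _ _ => False) (fun η l => by
          simp only [Env.chain, hG]), PP_false]
  | cons m' ms ih =>
      intro hlo hsum G
      have hlo' : lo ≤ m' := hlo m' (List.mem_cons_self)
      have hlos : ∀ m'' ∈ ms, lo ≤ m'' := fun m'' h => hlo m'' (List.mem_cons_of_mem _ h)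
      have hsum' : m' + ms.sum ≤ hi := by rw [List.sum_cons] at hsum; exact hsum
      have hhi : m' ≤ hi := by omega
      have hsums : ms.sum ≤ hi := by omega
      set N := n ^ 2 * q.N1 with hN
      have h1 : q.PP N (fun η l => G ((envT q η l).chain P u (m' :: ms) 0 P.κ)) ≤
          q.PP N (fun η l => ¬ GoodE η l) + ∑ y ∈ B, q.PP N (fun η l => GoodE η l ∧
            (envT q η l).blk P u m' 0 P.κ = y ∧
            G (y :: (envT q η l).chain P u ms (y.2 + v0 P u) (P.κ + y.1 + P.Δ))) := by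
        refine le_trans ?_ (add_le_add_right (PP_finset q B N _) _)
        refine le_trans (PP_mono q N ?_) (PP_or q N _ _)
        intro η l hG
        by_cases hg : GoodE η l
        · refine Or.inr ⟨(envT q η l).blk P u m' 0 P.κ, hAB m' hhi _ (hadm m' hlo' hhi η l hg), hg,
            rfl, ?_⟩
          have : (envT q η l).chain P u (m' :: ms) 0 P.κ = (envT q η l).blk P u m' 0 P.κ ::
              (envT q η l).chain P u ms (0 + ((envT q η l).blk P u m' 0 P.κ).2 + v0 P u)
                (P.κ + ((envT q η l).blk P u m' 0 P.κ).1 + P.Δ) := rfl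
          rw [this, zero_add] at hG
          exact hG
        · exact Or.inl hg
      have h2 : ∀ y ∈ B, q.PP N (fun η l => GoodE η l ∧ (envT q η l).blk P u m' 0 P.κ = y ∧
            G (y :: (envT q η l).chain P u ms (y.2 + v0 P u) (P.κ + y.1 + P.Δ))) ≤
          QT q P u n m' y * (prodQ (QT q P u n) ms (fun l => G (y :: l)) +
            ms.length * (ε0 + B.card * ε1)) + ε1 := by
        intro y _
        by_cases hA : A m' y
        · refine (hstep m' hlo' hhi y hA ms hlos hsum' (fun l => G (y :: l))).trans ?_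
          exact add_le_add_left (mul_le_mul_right (ih hlos hsums (fun l => G (y :: l))) _) _
        · rw [PP_congr q N (E' := fun _ _ => False) (fun η l => ⟨fun h => hA ?_, False.elim⟩),
            PP_false]
          · exact zero_le
          · rw [← h.2.1]; exact hadm m' hlo' hhi η l h.1
      have h3 : ∑ y ∈ B, (QT q P u n m' y * (prodQ (QT q P u n) ms (fun l => G (y :: l)) +
            ms.length * (ε0 + B.card * ε1)) + ε1) ≤
          prodQ (QT q P u n) (m' :: ms) G + ms.length * (ε0 + B.card * ε1) + B.card * ε1 := by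
        rw [Finset.sum_add_distrib, Finset.sum_const, nsmul_eq_mul]
        refine add_le_add_left ?_ _
        calc ∑ y ∈ B, QT q P u n m' y * (prodQ (QT q P u n) ms (fun l => G (y :: l)) +
              ms.length * (ε0 + B.card * ε1))
            = ∑ y ∈ B, QT q P u n m' y * prodQ (QT q P u n) ms (fun l => G (y :: l)) +
              (∑ y ∈ B, QT q P u n m' y) * (ms.length * (ε0 + B.card * ε1)) := by
              rw [Finset.sum_mul, ← Finset.sum_add_distrib]
              exact Finset.sum_congr rfl fun y _ => mul_add _ _ _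
          _ ≤ prodQ (QT q P u n) (m' :: ms) G + 1 * (ms.length * (ε0 + B.card * ε1)) := by
              refine add_le_add ?_ (mul_le_mul_left (sum_QT_le q hw P u n m' B) _)
              rw [prodQ_cons]
              exact ENNReal.sum_le_tsum B
          _ = prodQ (QT q P u n) (m' :: ms) G + ms.length * (ε0 + B.card * ε1) := by
              rw [one_mul]
      calc q.PP N (fun η l => G ((envT q η l).chain P u (m' :: ms) 0 P.κ))
          ≤ ε0 + (prodQ (QT q P u n) (m' :: ms) G + ms.length * (ε0 + B.card * ε1) +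
              B.card * ε1) :=
            h1.trans (add_le_add hgood ((Finset.sum_le_sum h2).trans h3))
        _ = prodQ (QT q P u n) (m' :: ms) G +
              ((m' :: ms).length : ℝ≥0∞) * (ε0 + B.card * ε1) := by
            rw [List.length_cons]
            push_cast
            ring

/-- E6 from the statements of E4, E5a, E5d -/
theorem block_chain_of {Cv a A r0 : ℕ} {c : ℝ} (hB : Base m δ d Cv a A r0 c)
    (hw : ∀ q : Par d m δ, ∑ a, q.w a = 1)
    (hadm : ∃ r1 ≥ r0, ∀ r ≥ r1,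
      ∀ n : ℕ, r ^ A ≤ n → ∀ q : Par d m δ, q.M = n ^ 4 → ∀ (u : Fin d → ℝ), ∑ j, u j ^ 2 = 1 →
      ∀ m' : ℕ, r ^ (7 * a) ≤ m' → m' ≤ r * n → ∀ (η : Tor d q.M → ℕ) (l : List (Let d q.M (q.K + 1))),
      (envT q η l).Good r (r ^ a) Cv (n ^ 2) (n ^ 2) →
      Adm (bp d a r n) u r Cv m' n ((envT q η l).blk (bp d a r n) u m' 0 (r ^ a)))
    (hstart : ∃ r1 ≥ r0, ∀ r ≥ r1, ∀ n : ℕ,
      r ^ A ≤ n → n ≤ (2 * r) ^ A → ∀ q : Par d m δ, q.M = n ^ 4 → q.Tiny n →
      ∀ (u : Fin d → ℝ), ∑ j, u j ^ 2 = 1 → ∀ ms : List ℕ, (∀ m' ∈ ms, r ^ (7 * a) ≤ m') →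
      ms.sum ≤ r * n → ∀ (z : Pos d) (s : ℕ), r ^ a ≤ s → 2 * s ≤ n ^ 2 → ∀ G : List (ℕ × Pos d) → Prop,
      q.PP (n ^ 2 * q.N1) (fun η l => G ((envT q η l).chain (bp d a r n) u ms z s)) ≤
        q.PP (n ^ 2 * q.N1) (fun η l => G ((envT q η l).chain (bp d a r n) u ms 0 (r ^ a))) +
          ENNReal.ofReal (Real.exp (- c * r)))
    (hstep : ∃ c' : ℝ, 0 < c' ∧
      ∃ r1 ≥ r0, ∀ r ≥ r1, ∀ n : ℕ, r ^ A ≤ n → n ≤ (2 * r) ^ A → ∀ q : Par d m δ, q.M = n ^ 4 → q.Tiny n →
      ∀ (u : Fin d → ℝ), ∑ j, u j ^ 2 = 1 → ∀ m' : ℕ, r ^ (7 * a) ≤ m' → m' ≤ r * n →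
      ∀ y : ℕ × Pos d, Adm (bp d a r n) u r Cv m' n y →
      ∀ ms : List ℕ, (∀ m'' ∈ ms, r ^ (7 * a) ≤ m'') → m' + ms.sum ≤ r * n →
      ∀ G : List (ℕ × Pos d) → Prop,
      q.PP (n ^ 2 * q.N1) (fun η l => (envT q η l).Good r (r ^ a) Cv (n ^ 2) (n ^ 2) ∧
        (envT q η l).blk (bp d a r n) u m' 0 (r ^ a) = y ∧
        G ((envT q η l).chain (bp d a r n) u ms (y.2 + v0 (bp d a r n) u)
          (r ^ a + y.1 + (bp d a r n).Δ))) ≤
      QT q (bp d a r n) u n m' y *
        q.PP (n ^ 2 * q.N1) (fun η l => G ((envT q η l).chain (bp d a r n) u ms 0 (r ^ a))) +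
        ENNReal.ofReal (Real.exp (- c' * r))) :
    ∃ r1 ≥ r0, ∀ r ≥ r1,
    ∀ n : ℕ, r ^ A ≤ n → n ≤ (2 * r) ^ A → ∀ q : Par d m δ, q.M = n ^ 4 → q.Tiny n →
    ∀ (u : Fin d → ℝ), ∑ j, u j ^ 2 = 1 → ∀ ms : List ℕ, (∀ m' ∈ ms, r ^ (7 * a) ≤ m') →
    ms.sum ≤ r * n → ∀ (z : Pos d) (s : ℕ), r ^ a ≤ s → 2 * s ≤ n ^ 2 → ∀ G : List (ℕ × Pos d) → Prop,
    2 * q.PP (n ^ 2 * q.N1) (fun η l => G ((envT q η l).chain (bp d a r n) u ms z s)) ≤
      2 * prodQ (QT q (bp d a r n) u n) ms G + err r := by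
  obtain ⟨ra, hra, hadm⟩ := hadm
  obtain ⟨rs, hrs, hstart⟩ := hstart
  obtain ⟨c', hc', rt, hrt, hstep⟩ := hstep
  obtain ⟨B, hPB⟩ := poly_bd d a A
  have hcpos := hB.c_pos
  set c0 := min c c' with hc0
  have hc0pos : 0 < c0 := lt_min hcpos hc'
  obtain ⟨re, _, hre⟩ := exp_beats c0 hc0pos B
  refine ⟨max (max ra rs) (max (max rt re) (max r0 10)), ?_, ?_⟩
  · exact le_trans hra (le_trans (le_max_left _ _) (le_max_left _ _))
  intro r hr n hn hn2 q hqM hqT u hu ms hms hsum z s hs0 hs G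
  have hr_a : ra ≤ r := le_trans (le_trans (le_max_left _ _) (le_max_left _ _)) hr
  have hr_s : rs ≤ r := le_trans (le_trans (le_max_right _ _) (le_max_left _ _)) hr
  have hr_t : rt ≤ r :=
    le_trans (le_trans (le_trans (le_max_left _ _) (le_max_left _ _)) (le_max_right _ _)) hr
  have hr_e : re ≤ r :=
    le_trans (le_trans (le_trans (le_max_right _ _) (le_max_left _ _)) (le_max_right _ _)) hr
  have hr_0 : r0 ≤ r :=
    le_trans (le_trans (le_trans (le_max_left _ _) (le_max_right _ _)) (le_max_right _ _)) hr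
  have hr_10 : 10 ≤ r :=
    le_trans (le_trans (le_trans (le_max_right _ _) (le_max_right _ _)) (le_max_right _ _)) hr
  set e0 : ℝ≥0∞ := ENNReal.ofReal (Real.exp (- c0 * r)) with he0
  have hec : ENNReal.ofReal (Real.exp (- c * r)) ≤ e0 := by
    refine ENNReal.ofReal_le_ofReal (Real.exp_le_exp.mpr ?_)
    have : c0 * r ≤ c * r := mul_le_mul_of_nonneg_right (min_le_left _ _) (Nat.cast_nonneg r)
    linarith
  have hec' : ENNReal.ofReal (Real.exp (- c' * r)) ≤ e0 := by
    refine ENNReal.ofReal_le_ofReal (Real.exp_le_exp.mpr ?_)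
    have : c0 * r ≤ c' * r := mul_le_mul_of_nonneg_right (min_le_right _ _) (Nat.cast_nonneg r)
    linarith
  set H := 4 * r ^ a * (r * n + 2 * r ^ (3 * a)) with hH
  have hcore := core q (hw q) (bp d a r n) u n (r ^ (7 * a)) (r * n)
    (fun η l => (envT q η l).Good r (r ^ a) Cv (n ^ 2) (n ^ 2))
    (fun m' y => Adm (bp d a r n) u r Cv m' n y) (box d H (n ^ 2)) e0 e0
    ((hB.good r hr_0 n hn hn2 q hqM hqT).trans hec)
    (fun m' h1 h2 η l hg => hadm r hr_a n hn q hqM u hu m' h1 h2 η l hg)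
    (by
      intro m' h2 y hy
      refine mem_box ?_ hy.2.2.2.2
      have h3 := hy.2.1
      have h4 : ((y.1 : ℕ) : ℝ) ≤ ((4 * r ^ a * (m' + 2 * r ^ (3 * a)) : ℕ) : ℝ) := by
        have h5 : (bp d a r n).κ = r ^ a := rfl
        have h6 : (bp d a r n).mg = r ^ (3 * a) := rfl
        rw [h5, h6] at h3
        push_cast
        push_cast at h3
        exact h3
      have h5 : y.1 ≤ 4 * r ^ a * (m' + 2 * r ^ (3 * a)) := by exact_mod_cast h4
      refine h5.trans ?_
      rw [hH]
      exact Nat.mul_le_mul_left _ (by omega))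
    (fun m' h1 h2 y hy ms' hms' hsum' G' =>
      (hstep r hr_t n hn hn2 q hqM hqT u hu m' h1 h2 y hy ms' hms' hsum' G').trans
        (add_le_add_right hec' _))
    ms hms hsum G
  have hlen : ms.length ≤ r * n := by
    refine le_trans ?_ hsum
    have : ∀ l : List ℕ, (∀ x ∈ l, 1 ≤ x) → l.length ≤ l.sum := by
      intro l
      induction l with
      | nil => intro _; simp
      | cons x l ih =>
          intro h
          rw [List.length_cons, List.sum_cons]
          have := h x List.mem_cons_self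
          have := ih fun y hy => h y (List.mem_cons_of_mem _ hy)
          omega
    exact this ms fun x hx => le_trans (Nat.one_le_pow _ _ (by omega)) (hms x hx)
  have hfin : 2 * (e0 + ms.length * (e0 + (box d H (n ^ 2)).card * e0)) ≤ err r := by
    have h1 : 2 * (e0 + ms.length * (e0 + (box d H (n ^ 2)).card * e0)) ≤
        ((r ^ B : ℕ) : ℝ≥0∞) * e0 := by
      have h2 : 2 * (e0 + ms.length * (e0 + (box d H (n ^ 2)).card * e0)) =
          ((2 * (ms.length * ((box d H (n ^ 2)).card + 1) + 1) : ℕ) : ℝ≥0∞) * e0 := by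
        push_cast; ring
      rw [h2]
      refine mul_le_mul_left ?_ _
      have h3 : 2 * (ms.length * ((box d H (n ^ 2)).card + 1) + 1) ≤ r ^ B := by
        refine le_trans ?_ (hPB r hr_10 n hn2)
        rw [card_box]
        refine Nat.mul_le_mul_left _ (Nat.add_le_add_right ?_ _)
        exact Nat.mul_le_mul_right _ hlen
      exact_mod_cast h3
    refine h1.trans ?_
    have h4 := hre r hr_e
    rw [he0, err, ← ENNReal.ofReal_natCast, ← ENNReal.ofReal_mul (Nat.cast_nonneg _)]
    refine ENNReal.ofReal_le_ofReal ?_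
    push_cast
    exact h4
  calc 2 * q.PP (n ^ 2 * q.N1) (fun η l => G ((envT q η l).chain (bp d a r n) u ms z s))
      ≤ 2 * (q.PP (n ^ 2 * q.N1) (fun η l => G ((envT q η l).chain (bp d a r n) u ms 0 (r ^ a))) +
          e0) :=
        mul_le_mul_right ((hstart r hr_s n hn hn2 q hqM hqT u hu ms hms hsum z s hs0 hs G).trans
          (add_le_add_right hec _)) _
    _ ≤ 2 * (prodQ (QT q (bp d a r n) u n) ms G +
          ms.length * (e0 + (box d H (n ^ 2)).card * e0) + e0) :=
        mul_le_mul_right (add_le_add_left hcore _) _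
    _ = 2 * prodQ (QT q (bp d a r n) u n) ms G +
          2 * (e0 + ms.length * (e0 + (box d H (n ^ 2)).card * e0)) := by ring
    _ ≤ 2 * prodQ (QT q (bp d a r n) u n) ms G + err r := add_le_add_right hfin _

end E6

end ZQ
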