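import Pool.Agent.ZP.BP
import Pool.Agent.ZQ.Core
import Pool.Agent.ZQ.E6
import Pool.Agent.ZP.RC
import Pool.Agent.ZP.FA
import Pool.Agent.ZP.MF
import Pool.Agent.ZQ.BE
import Pool.Agent.ZQ.BKa
import Pool.Agent.ZI.C8

/-! # Row BP: probabilities of the bad blocks (text M4)

Induction on the level along the fugacities `φ (7/8 - 3/8 2^{-k})` (increasing) for the decreasing bad events and
`φ (9/8 + 1/4 2^{-k})` (decreasing) for the increasing ones. -/

set_option autoImplicit false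

open scoped ENNReal BigOperators Classical Pointwise

noncomputable section

namespace ZQ

open ZP hiding Agree AgreeW BG BadM Base BlockFacts CoreE Env EqEnv FG FOpn GoodK IsGamma LowTail Meet MeetL MembE NMemb Opn PBad PBadM POpn PastEv QK QT Route Speed StepP Sys UpTail badA badW envT foldl_stepR_fst foldl_stepR_inter foldl_stepR_mono foldl_stepR_occ foldl_stepR_region inf infMv infMv_mono infMv_occ inf_comp inf_inter inf_mono_univ inf_occ inf_pred lin mem_foldl_stepR mem_infMv muK pe rin stepI stepR visU visU_mono_univ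

variable [ZQ.Thr]

namespace BP

open ZP.BP hiding BadProp badM_zero bad_prob_of opn_fug opn_mono

variable {d : ℕ}

/-! ### monotonicity of the configuration chain -/

/-! ### numbers -/

/-! ### the level `0` -/

section zero

variable {m : Model} {δ : ℝ} (q : Par d m δ) (A : Prm)

theorem opn_mono (hL : 1 ≤ A.L) (hM : 2 * A.L ^ 2 + 4 ≤ q.M) (w : List (Let d q.M (q.K + 1)))
    (hw : A.τ * q.N1 ≤ w.length) (η η' : Tor d q.M → ℕ) (h : η ≤ η')
    (ho : Opn q.N1 A.L A.τ η w) : Opn q.N1 A.L A.τ η' w :=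
  Rows.opn_inc (K := q.K) q.N1 A hL hM η w η' w
    ⟨hw, hw, fun i _ _ v _ => stt_mono w h i v, fun _ _ _ => rfl⟩ ho

theorem opn_fug (hL : 1 ≤ A.L) (hM : 2 * A.L ^ 2 + 4 ≤ q.M) (φ1 φ2 : ℝ) (h1 : 0 < φ1) (h2 : 0 < φ2)
    (hK1 : 2 * φ1 ≤ m.g q.K) (hK2 : 2 * φ2 ≤ m.g q.K) (h12 : φ1 ≤ φ2) :
    (q.wf φ2 h2 hK2).PP (A.τ * q.N1) (fun η w => ¬ Opn q.N1 A.L A.τ η w) ≤
      (q.wf φ1 h1 hK1).PP (A.τ * q.N1) (fun η w => ¬ Opn q.N1 A.L A.τ η w) := by
  have h3 := Rows.mono_fug_dec m d δ q φ1 φ2 h1 h2 hK1 hK2 h12 (A.τ * q.N1)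
    (fun η w => w.length = A.τ * q.N1 ∧ ¬ Opn q.N1 A.L A.τ η w)
    (fun w η η' hη hE => ⟨hE.1, fun ho => hE.2 (opn_mono q A hL hM w hE.1.ge η η' hη ho)⟩)
  refine (Rows.PP_mono (q.wf φ2 h2 hK2) (A.τ * q.N1) (fun η w hw hE => ?_)).trans (h3.trans ?_)
  · exact ⟨hw, hE⟩
  · exact Rows.PP_mono (q.wf φ1 h1 hK1) (A.τ * q.N1) (fun η w _ hE => hE.2)

theorem badM_zero (hd : 0 < d) (hL : 1 ≤ A.L) (hM : 2 * A.L ^ 2 + 4 ≤ q.M) :
    q.PP (6 * A.T d 0 * q.N1) (BadM q.N1 A 0) =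
      q.PP (A.τ * q.N1) (fun η w => ¬ Opn q.N1 A.L A.τ η w) := by
  have h1 : 6 * A.T d 0 * q.N1 = 2 * A.τ * q.N1 + 4 * A.τ * q.N1 := by
    rw [T_zero]
    ring
  have h2 : LocE q.N1 (Bt (0 : Tor d q.M) (A.L ^ 2)) 0 A.τ
      (fun η w => ¬ Opn q.N1 A.L A.τ η w) :=
    Rows.LocE.not q.N1 (Rows.IncE.loc q.N1 (Rows.opn_inc (K := q.K) q.N1 A hL hM))
  rw [h1]
  show q.PP (2 * A.τ * q.N1 + 4 * A.τ * q.N1)
    (sft q.N1 0 (2 * A.τ) (fun η w => ¬ Opn q.N1 A.L A.τ η w)) = _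
  rw [Rows.PP_sft q hd]
  exact Rows.PP_loc q hd h2 _ (Nat.mul_le_mul_right _ (by omega))

end zero

/-! ### the induction -/

/-! ### the statements with explicit constants -/

/-- the bounds for the bad blocks with the threshold `L0` -/
def BadProp (m : Model) (d α γ L0 : ℕ) : Prop :=
  ∀ A : Prm, A.α = α → A.γ = γ → L0 ≤ A.L → A.L ≤ A.τ → A.τ ≤ A.L ^ 2 → ∀ (δ : ℝ) (q : Par d m δ)
    (n : ℕ), q.Tiny n → 4 * m.φ ≤ m.g q.K → ∀ p0 : ℝ, 0 ≤ p0 → (A.L : ℝ) ^ (Rows.Cst d A) * p0 ≤ 1 →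
    (∀ (hφ : 0 < m.φ / 2) (hK : 2 * (m.φ / 2) ≤ m.g q.K),
      (q.wf (m.φ / 2) hφ hK).PP (A.τ * q.N1) (fun η w => ¬ Opn q.N1 A.L A.τ η w) ≤
        ENNReal.ofReal p0) →
    ∀ k : ℕ, A.S k ≤ n → 100 * A.S k + 10 * A.L ^ 2 ≤ q.M →
    ∀ (φ' : ℝ) (h' : 0 < φ') (hK' : 2 * φ' ≤ m.g q.K), 7 / 8 * m.φ ≤ φ' → φ' ≤ 9 / 8 * m.φ →
    (q.wf φ' h' hK').PP (6 * A.T d k * q.N1) (BadM q.N1 A k) ≤
      ENNReal.ofReal (if k = 0 then p0 + Real.exp (-(A.L : ℝ)) else Real.exp (-(A.S (k - 1) : ℝ))) ∧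
    (q.wf φ' h' hK').PP (6 * A.T d k * q.N1) (BadP q.N1 A k) ≤
      ENNReal.ofReal (if k = 0 then 0 else Real.exp (-(A.S (k - 1) : ℝ)))

/-- the induction, with explicit constants -/
theorem bad_prob_of (m : Model) (d : ℕ) (hd : 0 < d) (α γ L1 C x0 c1 : ℕ) (hγ : γ ≥ α + 20)
    (hC1 : 1 ≤ C) (hL1 : RecProp m d α γ L1) (hfast : FastProp m d (3 / 2 * m.φ) C)
    (hx0 : ∀ x : ℕ, x0 ≤ x → (x : ℝ) ^ (γ * (3 * (d + 1) * (γ + 1))) * Real.exp (-(x : ℝ)) ≤ 1)
    (hc1 : 16 / m.φ ≤ c1) : BadProp m d α γ (L1 + x0 + 1000 * (d + 1) + 2 * C + c1) := by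
  intro A hAα hAγ hAL hLτ hτL δ q n hTiny h4 p0 hp0 hp0L hbase
  have hφ := m.φ_pos
  have hγ2 : 2 ≤ A.γ := by omega
  have hL2 : 2 ≤ A.L := by omega
  have hLc : 16 / m.φ ≤ (A.L : ℝ) := hc1.trans (by exact_mod_cast (by omega : c1 ≤ A.L))
  have hLc' : 16 ≤ m.φ * A.L := by
    rw [div_le_iff₀ hφ] at hLc
    linarith
  have hfit1 : 1000 * (d + 1) ≤ A.L := by omega
  have hfit2 : A.α + 12 ≤ A.γ := by omega
  -- the numerical condition of the recursion step
  have hnum : ∀ k, (A.S (k + 1) : ℝ) ^ (Rows.Cst d A) * Real.exp (-(A.S k : ℝ)) ≤ 1 := by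
    intro k
    have h1 : x0 ≤ A.S k := le_trans (by omega) (L_le_S A (by omega) k)
    have h2 := hx0 _ h1
    have h3 : (A.S (k + 1) : ℝ) ^ (Rows.Cst d A) = (A.S k : ℝ) ^ (γ * (3 * (d + 1) * (γ + 1))) := by
      rw [S_succ, Nat.cast_pow, ← pow_mul, Rows.Cst, hAγ]
    rw [h3]
    exact h2
  have hSM : ∀ k, 100 * A.S (k + 1) + 10 * A.L ^ 2 ≤ q.M → 100 * A.S k + 10 * A.L ^ 2 ≤ q.M :=
    fun k h => by
      have := S_le_succ A (by omega) k
      omega
  have hM1 : ∀ k, 100 * A.S k + 10 * A.L ^ 2 ≤ q.M → 12 * A.S k + 4 * A.L ^ 2 + 10 ≤ q.M :=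
    fun k h => by
      have := L_le_S A (by omega) k
      omega
  have hM2 : ∀ k, 100 * A.S k + 10 * A.L ^ 2 ≤ q.M → 2 * A.L ^ 2 + 4 ≤ q.M :=
    fun k h => by
      have := L_le_S A (by omega) k
      omega
  -- the decreasing events
  have hminus : ∀ k, A.S k ≤ n → 100 * A.S k + 10 * A.L ^ 2 ≤ q.M → ∀ (φ' : ℝ) (h' : 0 < φ')
      (hK' : 2 * φ' ≤ m.g q.K), fm m k ≤ φ' → φ' ≤ 3 / 2 * m.φ →
      (q.wf φ' h' hK').PP (6 * A.T d k * q.N1) (BadM q.N1 A k) ≤ ENNReal.ofReal (pm A p0 k) := by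
    intro k
    induction k with
    | zero =>
      intro hn hM φ' h' hK' h1 h2
      rw [fm_zero] at h1
      refine (badM_zero (q.wf φ' h' hK') A hd (by omega) (hM2 0 hM)).le.trans ?_
      exact (opn_fug q A (by omega) (hM2 0 hM) (m.φ / 2) φ' (by linarith) h' (by linarith) hK'
        h1).trans (hbase (by linarith) (by linarith))
    | succ k ih =>
      intro hn hM φ' h' hK' h1 h2
      have hb := fm_bd m k
      have hb' := fm_bd m (k + 1)
      have hg := fm_gap m k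
      have hp := (half_pow k).1
      have hlt : fm m k < φ' := by nlinarith
      have hMk := hSM k hM
      have hnk : A.S k ≤ n := (S_le_succ A (by omega) k).trans hn
      have ha : 0 < fm m k := by linarith
      have hKa : 2 * fm m k ≤ m.g q.K := by linarith
      have hstep := hL1 A hAα hAγ (by omega) hLτ hτL δ q n hTiny h4 k hn hM (fm m k) φ' ha h' hKa hK'
        hb.1 (by linarith) (by linarith) h2 ?_ (BadM q.N1 A k) (pm A p0 k) ?_ ?_
        (ih hnk hMk (fm m k) ha hKa le_rfl (by linarith))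
        (Or.inl ⟨hlt, Rows.badM_dec (K := q.K) q.N1 A hfit1 hfit2 k (hM1 k hMk)⟩)
      · exact hstep
      · rw [abs_of_pos (by linarith)]
        refine gap A hL2 hγ2 k (m.φ * 3 / 16) _ (by positivity) (by linarith) (by linarith)
      · cases k with
        | zero => exact hp0
        | succ k => exact (Real.exp_pos _).le
      · cases k with
        | zero => rw [S_zero]; exact hp0L
        | succ k =>
          have h3 := hnum k
          have h4 : Real.exp (-(2 * A.S k : ℝ)) ≤ Real.exp (-(A.S k : ℝ)) := by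
            refine Real.exp_le_exp.mpr ?_
            have : (0 : ℝ) ≤ A.S k := Nat.cast_nonneg _
            linarith
          exact (mul_le_mul_of_nonneg_left h4 (by positivity)).trans h3
  -- the increasing events
  have hplus : ∀ k, A.S k ≤ n → 100 * A.S k + 10 * A.L ^ 2 ≤ q.M → ∀ (φ' : ℝ) (h' : 0 < φ')
      (hK' : 2 * φ' ≤ m.g q.K), φ' ≤ fp m k → m.φ / 2 ≤ φ' →
      (q.wf φ' h' hK').PP (6 * A.T d k * q.N1) (BadP q.N1 A k) ≤ ENNReal.ofReal (pp A k) := by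
    intro k
    induction k with
    | zero =>
      intro hn hM φ' h' hK' h1 h2
      have h3 : (q.wf φ' h' hK').PP (6 * A.T d 0 * q.N1) (BadP q.N1 A 0) = 0 :=
        PP_false (q.wf φ' h' hK') _
      rw [h3]
      exact zero_le
    | succ k ih =>
      intro hn hM φ' h' hK' h1 h2
      have hb := fp_bd m k
      have hb' := fp_bd m (k + 1)
      have hg := fp_gap m k
      have hp := (half_pow k).1
      have hlt : φ' < fp m k := by nlinarith
      have hMk := hSM k hM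
      have hnk : A.S k ≤ n := (S_le_succ A (by omega) k).trans hn
      have ha : 0 < fp m k := by linarith
      have hKa : 2 * fp m k ≤ m.g q.K := by linarith
      have hSk : A.L ≤ A.S k := L_le_S A (by omega) k
      have hSk1 : A.S k ≤ A.S (k + 1) := S_le_succ A (by omega) k
      have hstep : (q.wf φ' h' hK').PP (6 * A.T d (k + 1) * q.N1) (RecE q.N1 A k (BadP q.N1 A k)) ≤
          ENNReal.ofReal (Real.exp (-(2 * A.S k : ℝ))) := by
        refine hL1 A hAα hAγ (by omega) hLτ hτL δ q n hTiny h4 k hn hM (fp m k) φ' ha h' hKa hK'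
          (by linarith) (by linarith) h2 (by linarith) ?_ (BadP q.N1 A k) (pp A k) ?_ ?_
          (ih hnk hMk (fp m k) ha hKa le_rfl (by linarith))
          (Or.inr ⟨hlt, Rows.badP_inc (K := q.K) q.N1 A hfit1 hfit2 k (hM1 k hMk)⟩)
        · rw [abs_sub_comm, abs_of_pos (by linarith)]
          refine gap A hL2 hγ2 k (m.φ / 8) _ (by positivity) (by linarith) (by linarith)
        · cases k with
          | zero => exact le_rfl
          | succ k => exact (Real.exp_pos _).le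
        · cases k with
          | zero =>
            show (A.S 0 : ℝ) ^ (Rows.Cst d A) * 0 ≤ 1
            rw [mul_zero]
            exact zero_le_one
          | succ k => exact hnum k
      have hF : (q.wf φ' h' hK').PP (6 * A.T d (k + 1) * q.N1)
          (sft q.N1 0 (2 * A.T d (k + 1)) (Fast q.N1 (A.S (k + 1)) (A.U d (k + 1)))) ≤
          ENNReal.ofReal (Real.exp (-(A.S (k + 1) : ℝ) / C)) := by
        refine (fast_sft (q.wf φ' h' hK') A hd (by omega) (by omega) k ?_).le.trans ?_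
        · show 6 * A.S (k + 1) + 10 ≤ q.M
          omega
        · refine hfast φ' h' (by linarith) δ (q.wf φ' h' hK') (A.S (k + 1)) (A.U d (k + 1)) ?_ ?_ ?_
          · exact U_le A (by omega) (by omega) hτL C k (by omega)
          · omega
          · show 20 * A.S (k + 1) + 10 ≤ q.M
            omega
      refine (Rows.PP_or (q.wf φ' h' hK') (6 * A.T d (k + 1) * q.N1)
        (sft q.N1 0 (2 * A.T d (k + 1)) (Fast q.N1 (A.S (k + 1)) (A.U d (k + 1))))
        (RecE q.N1 A k (BadP q.N1 A k))).trans ?_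
      refine (add_le_add hF hstep).trans ?_
      rw [← ENNReal.ofReal_add (Real.exp_pos _).le (Real.exp_pos _).le]
      refine ENNReal.ofReal_le_ofReal ?_
      have hs1 : (1 : ℝ) ≤ A.S k := by exact_mod_cast (by omega : 1 ≤ A.S k)
      have hC0 : (0 : ℝ) < C := by exact_mod_cast hC1
      refine sum_exp (A.S k) (A.S (k + 1)) C hs1 hC0 ?_
      have h5 : C * (2 * A.S k) ≤ A.S (k + 1) := by
        rw [S_succ]
        calc C * (2 * A.S k) = 2 * C * A.S k := by ring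
          _ ≤ A.S k * A.S k := Nat.mul_le_mul_right _ (by omega)
          _ = A.S k ^ 2 := by ring
          _ ≤ A.S k ^ A.γ := Nat.pow_le_pow_right (by omega) hγ2
      exact_mod_cast h5
  intro k hn hM φ' h' hK' h1 h2
  have hbm := fm_bd m k
  have hbp := fp_bd m k
  have r1 := hminus k hn hM φ' h' hK' (by linarith) (by linarith)
  have r2 := hplus k hn hM φ' h' hK' (by linarith) (by linarith)
  refine ⟨r1.trans (ENNReal.ofReal_le_ofReal ?_), r2.trans (ENNReal.ofReal_le_ofReal ?_)⟩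
  · cases k with
    | zero =>
      rw [if_pos rfl]
      have := Real.exp_pos (-(A.L : ℝ))
      show p0 ≤ _
      linarith
    | succ k =>
      rw [if_neg (Nat.succ_ne_zero k), Nat.add_sub_cancel]
      refine Real.exp_le_exp.mpr ?_
      have : (0 : ℝ) ≤ A.S k := Nat.cast_nonneg _
      linarith
  · cases k with
    | zero => rw [if_pos rfl]; exact le_rfl
    | succ k => rw [if_neg (Nat.succ_ne_zero k), Nat.add_sub_cancel]; exact le_rfl

end BP

namespace Rows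

open ZP.Rows hiding R_of_noRec R_toZI agree_take badM_dec badM_of_pbadM bad_prob bh_chain cfg_toZI chain_eq chain_shift envT_toZI foldl_stepR_noRec foldl_stepR_toZI fopn_loc fopn_pth inf_noRec inf_toZI occ_toZI opn_inc pbadM_loc pbadM_pth pbad_pth pe_path popn_loc popn_of_opn popn_pth start_inv visU_noRec visU_toZI vis_of_noRec vis_toZI

open BP

theorem bad_prob (m : Model) (d : ℕ) (hd : 0 < d) : ∃ α0 : ℕ, ∀ α ≥ α0, ∀ γ ≥ α + 20, ∃ L0 : ℕ,
    ∀ A : Prm, A.α = α → A.γ = γ → L0 ≤ A.L → A.L ≤ A.τ → A.τ ≤ A.L ^ 2 → ∀ (δ : ℝ) (q : Par d m δ)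
    (n : ℕ), q.Tiny n → 4 * m.φ ≤ m.g q.K → ∀ p0 : ℝ, 0 ≤ p0 → (A.L : ℝ) ^ (Cst d A) * p0 ≤ 1 →
    (∀ (hφ : 0 < m.φ / 2) (hK : 2 * (m.φ / 2) ≤ m.g q.K),
      (q.wf (m.φ / 2) hφ hK).PP (A.τ * q.N1) (fun η w => ¬ Opn q.N1 A.L A.τ η w) ≤
        ENNReal.ofReal p0) →
    ∀ k : ℕ, A.S k ≤ n → 100 * A.S k + 10 * A.L ^ 2 ≤ q.M →
    ∀ (φ' : ℝ) (h' : 0 < φ') (hK' : 2 * φ' ≤ m.g q.K), 7 / 8 * m.φ ≤ φ' → φ' ≤ 9 / 8 * m.φ →
    (q.wf φ' h' hK').PP (6 * A.T d k * q.N1) (BadM q.N1 A k) ≤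
      ENNReal.ofReal (if k = 0 then p0 + Real.exp (-(A.L : ℝ)) else Real.exp (-(A.S (k - 1) : ℝ))) ∧
    (q.wf φ' h' hK').PP (6 * A.T d k * q.N1) (BadP q.N1 A k) ≤
      ENNReal.ofReal (if k = 0 then 0 else Real.exp (-(A.S (k - 1) : ℝ))) := by
  obtain ⟨α0, hrec⟩ := rec_step m d hd
  obtain ⟨C, hC1, hfast⟩ := fast_prob m d hd (3 / 2 * m.φ)
  refine ⟨α0, fun α hα γ hγ => ?_⟩
  obtain ⟨L1, hL1⟩ := hrec α hα γ hγ
  obtain ⟨x0, _, hx0⟩ := exists_pow_exp (γ * (3 * (d + 1) * (γ + 1)))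
  obtain ⟨c1, hc1⟩ := exists_nat_ge (16 / m.φ)
  exact ⟨_, bad_prob_of m d hd α γ L1 C x0 c1 hγ hC1 hL1 hfast hx0 hc1⟩

end Rows

end ZQ
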