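import Pool.Agent.ZP.BU
import Pool.Agent.ZQ.BP
import Pool.Agent.ZP.RU
import Pool.Agent.ZP.FA

/-! # Row BU: probabilities of the bad blocks, constants polynomial in the fugacity -/

set_option autoImplicit false

open scoped ENNReal BigOperators Classical Pointwise

noncomputable section

namespace ZQ.Rows

open ZP hiding Agree AgreeW BG BadM Base BlockFacts CoreE Env EqEnv FG FOpn GoodK IsGamma LowTail Meet MeetL MembE NMemb Opn PBad PBadM POpn PastEv QK QT Route Speed StepP Sys UpTail badA badW envT foldl_stepR_fst foldl_stepR_inter foldl_stepR_mono foldl_stepR_occ foldl_stepR_region inf infMv infMv_mono infMv_occ inf_comp inf_inter inf_mono_univ inf_occ inf_pred lin mem_foldl_stepR mem_infMv muK pe rin stepI stepR visU visU_mono_univ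
open ZP.Rows hiding R_of_noRec R_toZI agree_take badM_dec badM_of_pbadM bad_prob bad_prob_u bh_chain cfg_toZI chain_eq chain_shift envT_toZI foldl_stepR_noRec foldl_stepR_toZI fopn_loc fopn_pth inf_noRec inf_toZI occ_toZI opn_inc pbadM_loc pbadM_pth pbad_pth pe_path popn_loc popn_of_opn popn_pth start_inv visU_noRec visU_toZI vis_of_noRec vis_toZI

variable [ZQ.Thr]

open ZP hiding Agree AgreeW BG BadM Base BlockFacts CoreE Env EqEnv FG FOpn GoodK IsGamma LowTail Meet MeetL MembE NMemb Opn PBad PBadM POpn PastEv QK QT Route Speed StepP Sys UpTail badA badW envT foldl_stepR_fst foldl_stepR_inter foldl_stepR_mono foldl_stepR_occ foldl_stepR_region inf infMv infMv_mono infMv_occ inf_comp inf_inter inf_mono_univ inf_occ inf_pred lin mem_foldl_stepR mem_infMv muK pe rin stepI stepR visU visU_mono_univ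
open ZQ

theorem bad_prob_u (m : Model) (d : ℕ) (hd : 0 < d) : ∃ α0 : ℕ, ∀ α ≥ α0, ∀ γ ≥ α + 20, ∃ C0 : ℕ,
    ∀ A : Prm, A.α = α → A.γ = γ → A.L ≤ A.τ → A.τ ≤ A.L ^ 2 → ∀ (φ0 : ℝ) (h0 : 0 < φ0), 2 ≤ φ0 →
    C0 * φ0 ^ C0 ≤ (A.L : ℝ) → ∀ (δ : ℝ) (q : Par d (wf m φ0 h0) δ)
    (n : ℕ), q.Tiny n → 4 * φ0 ≤ m.g q.K → ∀ p0 : ℝ, 0 ≤ p0 → (A.L : ℝ) ^ (CstU d A) * p0 ≤ 1 →
    (∀ (hφ : 0 < φ0 / 2) (hK : 2 * (φ0 / 2) ≤ m.g q.K),
      (q.wf (φ0 / 2) hφ hK).PP (A.τ * q.N1) (fun η w => ¬ Opn q.N1 A.L A.τ η w) ≤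
        ENNReal.ofReal p0) →
    ∀ k : ℕ, A.S k ≤ n → 100 * A.S k + 10 * A.L ^ 2 ≤ q.M →
    ∀ (φ' : ℝ) (h' : 0 < φ') (hK' : 2 * φ' ≤ m.g q.K), 7 / 8 * φ0 ≤ φ' → φ' ≤ 9 / 8 * φ0 →
    (q.wf φ' h' hK').PP (6 * A.T d k * q.N1) (BadM q.N1 A k) ≤
      ENNReal.ofReal (if k = 0 then p0 + Real.exp (-(A.L : ℝ)) else Real.exp (-(A.S (k - 1) : ℝ))) ∧
    (q.wf φ' h' hK').PP (6 * A.T d k * q.N1) (BadP q.N1 A k) ≤
      ENNReal.ofReal (if k = 0 then 0 else Real.exp (-(A.S (k - 1) : ℝ))) := by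
  obtain ⟨α0, hrec⟩ := rec_step_u m d hd
  obtain ⟨C, hC1, hfast⟩ := fast_prob_u m d hd
  refine ⟨α0, fun α hα γ hγ => ?_⟩
  obtain ⟨C0, hC0⟩ := hrec α hα γ hγ
  obtain ⟨x0, _, hx0⟩ := BP.exists_pow_exp (γ * (3 * (d + 1) * (γ + 1)))
  refine ⟨C0 + x0 + 1000 * (d + 1) + 4 * C + 11, ?_⟩
  intro A hAα hAγ hLτ hτL φ0 h0 hφ2 hAL
  set N : ℕ := C0 + x0 + 1000 * (d + 1) + 4 * C + 11 with hN
  have hφ1 : (1 : ℝ) ≤ φ0 := by linarith
  have hC1' : (1 : ℝ) ≤ C := by exact_mod_cast hC1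
  -- the constants for the fugacity
  obtain ⟨L1, hL1a, hL1b⟩ : ∃ L1 : ℕ, C0 * φ0 ^ C0 ≤ (L1 : ℝ) ∧ (L1 : ℝ) ≤ C0 * φ0 ^ C0 + 1 :=
    ⟨⌈C0 * φ0 ^ C0⌉₊, Nat.le_ceil _, (Nat.ceil_lt_add_one (by positivity)).le⟩
  obtain ⟨C', hC'a, hC'b⟩ : ∃ C' : ℕ, C * (2 * φ0) ≤ (C' : ℝ) ∧ (C' : ℝ) ≤ C * (2 * φ0) + 1 :=
    ⟨⌈C * (2 * φ0)⌉₊, Nat.le_ceil _, (Nat.ceil_lt_add_one (by positivity)).le⟩
  have hCC : (C : ℝ) ≤ C' := by nlinarith
  have hC'1 : 1 ≤ C' := by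
    have : (1 : ℝ) ≤ C' := hC1'.trans hCC
    exact_mod_cast this
  have hRec : BP.RecProp (wf m φ0 h0) d α γ L1 := by
    intro B hBα hBγ hBL hBτ hBτ2 δ q n hT h4
    refine hC0 B hBα hBγ hBτ hBτ2 φ0 h0 hφ2 ?_ δ q n hT h4
    exact hL1a.trans (by exact_mod_cast hBL)
  have hFast : BP.FastProp (wf m φ0 h0) d (3 / 2 * (wf m φ0 h0).φ) C' := by
    intro φ h hφ δ q S U h1 h2 h3
    have hφ' : φ ≤ 3 / 2 * φ0 := hφ
    have h4 : (C : ℝ) * (1 + φ) ≤ C' := by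
      refine le_trans ?_ hC'a
      refine mul_le_mul_of_nonneg_left ?_ (by linarith)
      linarith
    have h5 := hfast φ h δ q S U ?_ ?_ h3
    · refine h5.trans (ENNReal.ofReal_le_ofReal (Real.exp_le_exp.mpr ?_))
      rw [neg_div, neg_div, neg_le_neg_iff]
      exact div_le_div_of_nonneg_left (Nat.cast_nonneg _) (by linarith) hCC
    · calc (C : ℝ) * (1 + φ) * U ≤ C' * U := by gcongr
        _ ≤ S := by exact_mod_cast h1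
    · exact h4.trans (by exact_mod_cast h2)
  have hc1 : 16 / (wf m φ0 h0).φ ≤ ((8 : ℕ) : ℝ) := by
    show 16 / φ0 ≤ _
    rw [div_le_iff₀ h0]
    push_cast
    linarith
  have hthr : L1 + x0 + 1000 * (d + 1) + 2 * C' + 8 ≤ A.L := by
    have h1 : ((L1 + x0 + 1000 * (d + 1) + 2 * C' + 8 : ℕ) : ℝ) ≤ N * φ0 ^ N := by
      have hp1 : (1 : ℝ) ≤ φ0 ^ N := one_le_pow₀ hφ1
      have hp2 : φ0 ^ C0 ≤ φ0 ^ N := pow_le_pow_right₀ hφ1 (by omega)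
      have hp3 : φ0 ≤ φ0 ^ N := le_self_pow₀ hφ1 (by omega)
      have h2 : (C0 : ℝ) * φ0 ^ C0 ≤ C0 * φ0 ^ N := mul_le_mul_of_nonneg_left hp2 (Nat.cast_nonneg _)
      have h3 : (C : ℝ) * φ0 ≤ C * φ0 ^ N := mul_le_mul_of_nonneg_left hp3 (Nat.cast_nonneg _)
      have h4 : ((x0 : ℝ) + 1000 * (d + 1) + 11) * 1 ≤ (x0 + 1000 * (d + 1) + 11) * φ0 ^ N :=
        mul_le_mul_of_nonneg_left hp1 (by positivity)
      rw [hN]
      push_cast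
      rw [hN] at hp1 hp2 hp3 h2 h3 h4
      linarith
    exact_mod_cast h1.trans hAL
  exact BP.bad_prob_of (wf m φ0 h0) d hd α γ L1 C' x0 8 hγ hC'1 hRec hFast hx0 hc1 A hAα hAγ hthr
    hLτ hτL

end ZQ.Rows
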