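import Pool.Agent.ZP.NMOf
import Pool.Agent.ZQ.Core
import Pool.Agent.ZQ.E4
import Pool.Agent.ZP.SF1
import Pool.Agent.ZP.SF2

/-! # Row NM: not being in a hub, letters version (over the statements of BP and BK) -/

set_option autoImplicit false

open scoped ENNReal BigOperators Classical Pointwise

noncomputable section

namespace ZQ.NM

open ZP hiding Agree AgreeW BG BadM Base BlockFacts CoreE Env EqEnv FG FOpn GoodK IsGamma LowTail Meet MeetL MembE NMemb Opn PBad PBadM POpn PastEv QK QT Route Speed StepP Sys UpTail badA badW envT inf infMv lin muK pe rin stepI stepR visU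
open ZP.NM hiding nmemb_le nmemb_prob_of

variable [ZQ.Thr]

open ZP hiding Agree AgreeW BG BadM Base BlockFacts CoreE Env EqEnv FG FOpn GoodK IsGamma LowTail Meet MeetL MembE NMemb Opn PBad PBadM POpn PastEv QK QT Route Speed StepP Sys UpTail badA badW envT inf infMv lin muK pe rin stepI stepR visU
open ZP.Rows hiding R_of_noRec R_toZI agree_take bh_chain cfg_toZI chain_eq chain_shift envT_toZI foldl_stepR_noRec foldl_stepR_toZI inf_noRec inf_toZI occ_toZI pe_path start_inv visU_noRec visU_toZI vis_of_noRec vis_toZI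
open ZQ.Rows
open ZQ

variable {d : ℕ}

/-! ### scales -/

/-! ### blocks near a block -/

/-! ### the union bound -/

theorem nmemb_le {m : Model} {δ : ℝ} (q : Par d m δ) (hd : 0 < d) (A : Prm) (hL : 1000 ≤ A.L)
    (hγ : A.α + 12 ≤ A.γ) (k : ℕ) (b : Bool) (c : Pos d) (X : ℕ → Ev d q.M q.K)
    (hX : ∀ l, X l = if b then BadP q.N1 A l else BadM q.N1 A l)
    (Λ : ℕ → Set (Tor d q.M)) (hloc : ∀ l < k, LocE q.N1 (Λ l) 0 (6 * A.T d l) (X l))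
    (p : ℕ → ℝ≥0∞) (hp : ∀ l < k, q.PP (6 * A.T d l * q.N1) (X l) ≤ p l) :
    q.PP (8 * A.T d k * q.N1) (NMemb q.N1 A b k c) ≤
      ∑ l ∈ Finset.range k, ((2 * A.D l + 1) ^ (d + 1) : ℕ) * p l := by
  have h1 : q.PP (8 * A.T d k * q.N1) (NMemb q.N1 A b k c) ≤ q.PP (8 * A.T d k * q.N1)
      (fun η w => ∃ l ∈ Finset.range k, ∃ Q ∈ (nearB (anc A l c, 3 * (A.ix d k / A.ix d l))
        (A.D l)).filter (fun Q => 2 ≤ Q.2),
        sft q.N1 (sm (A.S l) Q.1) ((Q.2 - 2) * A.T d l) (X l) η w) := by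
    refine PP_mono q _ ?_
    rintro η w _ ⟨l, hl, Q, -, h2, h3, h4⟩
    refine ⟨l, Finset.mem_range.2 hl, Q, Finset.mem_filter.2 ⟨mem_nearB _ _ _ h2, h3⟩, ?_⟩
    rw [hX]
    exact h4
  refine h1.trans ((PP_finset q _ _ _).trans (Finset.sum_le_sum fun l hl => ?_))
  rw [Finset.mem_range] at hl
  refine (PP_finset q _ _ _).trans ?_
  have h2 : ∀ Q ∈ (nearB (anc A l c, 3 * (A.ix d k / A.ix d l)) (A.D l)).filter
      (fun Q => 2 ≤ Q.2),
      q.PP (8 * A.T d k * q.N1) (sft q.N1 (sm (A.S l) Q.1) ((Q.2 - 2) * A.T d l) (X l)) ≤ p l := by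
    intro Q hQ
    rw [Finset.mem_filter] at hQ
    have h3 : Q.2 ≤ 3 * (A.ix d k / A.ix d l) + A.D l := by
      have := (Finset.mem_product.1 hQ.1).2
      rw [Finset.mem_Icc] at this
      exact this.2
    have h4 : (Q.2 - 2) * A.T d l + 6 * A.T d l ≤ 8 * A.T d k := by
      have h5 := D_T_le (d := d) A hL hγ hl
      have h6 := T_div (d := d) A (by omega) hl.le
      have h7 : (Q.2 - 2) * A.T d l + 6 * A.T d l = (Q.2 + 4) * A.T d l := by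
        rw [← add_mul]
        congr 1
        omega
      rw [h7]
      calc (Q.2 + 4) * A.T d l ≤ (3 * (A.ix d k / A.ix d l) + A.D l + 4) * A.T d l :=
            Nat.mul_le_mul_right _ (by omega)
        _ = 3 * (A.ix d k / A.ix d l * A.T d l) + (A.D l + 4) * A.T d l := by ring
        _ ≤ 3 * A.T d k + 5 * A.T d k := by rw [h6]; omega
        _ = 8 * A.T d k := by ring
    have h8 : 8 * A.T d k * q.N1 = (Q.2 - 2) * A.T d l * q.N1 +
        (8 * A.T d k - (Q.2 - 2) * A.T d l) * q.N1 := by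
      rw [← add_mul]
      congr 1
      omega
    rw [h8, PP_sft q hd, PP_loc q hd (hloc l hl) _ (Nat.mul_le_mul_right _ (by omega))]
    exact hp l hl
  refine (Finset.sum_le_card_nsmul _ _ _ h2).trans ?_
  rw [nsmul_eq_mul]
  refine mul_le_mul_left ?_ _
  exact_mod_cast (Finset.card_filter_le _ _).trans (card_nearB _ _)

/-! ### numbers -/

/-- the row NM over the statements of the rows BP and BK -/
theorem nmemb_prob_of (m : Model) (d : ℕ) (hd : 0 < d)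
    (bad_prob : ∃ α0 : ℕ, ∀ α ≥ α0, ∀ γ ≥ α + 20, ∃ L0 : ℕ,
    ∀ A : Prm, A.α = α → A.γ = γ → L0 ≤ A.L → A.L ≤ A.τ → A.τ ≤ A.L ^ 2 → ∀ (δ : ℝ) (q : Par d m δ)
    (n : ℕ), q.Tiny n → 4 * m.φ ≤ m.g q.K → ∀ p0 : ℝ, 0 ≤ p0 → (A.L : ℝ) ^ (CstV d A) * p0 ≤ 1 →
    (∀ (hφ : 0 < m.φ / 2) (hK : 2 * (m.φ / 2) ≤ m.g q.K),
      (q.wf (m.φ / 2) hφ hK).PP (A.τ * q.N1) (fun η w => ¬ Opn q.N1 A.L A.τ η w) ≤
        ENNReal.ofReal p0) →
    ∀ k : ℕ, A.S k ≤ n → 100 * A.S k + 10 * A.L ^ 2 ≤ q.M →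
    ∀ (φ' : ℝ) (h' : 0 < φ') (hK' : 2 * φ' ≤ m.g q.K), 7 / 8 * m.φ ≤ φ' → φ' ≤ 9 / 8 * m.φ →
    (q.wf φ' h' hK').PP (6 * A.T d k * q.N1) (BadM q.N1 A k) ≤
      ENNReal.ofReal (if k = 0 then p0 + Real.exp (-(A.L : ℝ)) else Real.exp (-(A.S (k - 1) : ℝ))) ∧
    (q.wf φ' h' hK').PP (6 * A.T d k * q.N1) (BadP q.N1 A k) ≤
      ENNReal.ofReal (if k = 0 then 0 else Real.exp (-(A.S (k - 1) : ℝ))))
    (badM_dec : ∀ (M K N1 : ℕ) (A : Prm), 1000 * (d + 1) ≤ A.L → A.α + 12 ≤ A.γ → ∀ k : ℕ,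
      12 * A.S k + 4 * A.L ^ 2 + 10 ≤ M →
      DecE N1 (Bt (0 : Tor d M) (6 * A.S k + A.L ^ 2 + 1)) 0 (6 * A.T d k) (BadM (K := K) N1 A k))
    (badP_inc : ∀ (M K N1 : ℕ) (A : Prm), 1000 * (d + 1) ≤ A.L → A.α + 12 ≤ A.γ → ∀ k : ℕ,
      12 * A.S k + 4 * A.L ^ 2 + 10 ≤ M →
      IncE N1 (Bt (0 : Tor d M) (6 * A.S k + A.L ^ 2 + 1)) 0 (6 * A.T d k) (BadP (K := K) N1 A k)) :
    ∃ α0 : ℕ, ∀ α ≥ α0, ∀ γ ≥ α + 20, ∃ L0 : ℕ,
    ∀ A : Prm, A.α = α → A.γ = γ → L0 ≤ A.L → A.L ≤ A.τ → A.τ ≤ A.L ^ 2 → ∀ (δ : ℝ) (q : Par d m δ)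
    (n : ℕ), q.Tiny n → 4 * m.φ ≤ m.g q.K → ∀ p0 : ℝ, 0 ≤ p0 → (A.L : ℝ) ^ (CstV d A) * p0 ≤ 1 →
    (∀ (hφ : 0 < m.φ / 2) (hK : 2 * (m.φ / 2) ≤ m.g q.K),
      (q.wf (m.φ / 2) hφ hK).PP (A.τ * q.N1) (fun η w => ¬ Opn q.N1 A.L A.τ η w) ≤
        ENNReal.ofReal p0) →
    ∀ k : ℕ, A.S k ≤ n → 100 * A.S k + 10 * A.L ^ 2 ≤ q.M →
    ∀ (φ' : ℝ) (h' : 0 < φ') (hK' : 2 * φ' ≤ m.g q.K), 7 / 8 * m.φ ≤ φ' → φ' ≤ 9 / 8 * m.φ →
    ∀ (b : Bool) (c : Pos d),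
    (q.wf φ' h' hK').PP (8 * A.T d k * q.N1) (NMemb q.N1 A b k c) ≤ ENNReal.ofReal (1 / 64) := by
  obtain ⟨α0, hα0⟩ := bad_prob
  refine ⟨α0, fun α hα γ hγ => ?_⟩
  obtain ⟨L1, hL1⟩ := hα0 α hα γ hγ
  obtain ⟨L2, hL2, hsum⟩ := sum_le d α γ (by omega)
  refine ⟨max L1 L2, ?_⟩
  intro A hAα hAγ hL hτ hτ2 δ q n hT hg p0 hp0 hp1 hopn k hk hM φ' h' hK' h7 h9 b c
  have hLd : 1000 * (d + 1) ≤ A.L := hL2.trans ((le_max_right _ _).trans hL)
  have hγ12 : A.α + 12 ≤ A.γ := by omega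
  have hSk : ∀ l < k, A.S l ≤ A.S k := fun l hl => S_mono A (by omega) (by omega) hl.le
  have hLL : 10 ≤ A.L ^ 2 := by nlinarith
  have hMl : ∀ l < k, 12 * A.S l + 4 * A.L ^ 2 + 10 ≤ q.M := by
    intro l hl
    have := hSk l hl
    omega
  have hbad : ∀ l < k, (q.wf φ' h' hK').PP (6 * A.T d l * q.N1)
      (if b then BadP q.N1 A l else BadM q.N1 A l) ≤
      ENNReal.ofReal (if l = 0 then p0 + Real.exp (-(A.L : ℝ)) else Real.exp (-(A.S (l - 1) : ℝ))) := by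
    intro l hl
    obtain ⟨h1, h2⟩ := hL1 A hAα hAγ ((le_max_left _ _).trans hL) hτ hτ2 δ q n hT hg p0 hp0 hp1 hopn
      l ((hSk l hl).trans hk) (by have := hSk l hl; omega) φ' h' hK' h7 h9
    cases b with
    | false => simpa using h1
    | true =>
      refine le_trans (by simpa using h2) (ENNReal.ofReal_le_ofReal ?_)
      split_ifs with h0
      · positivity
      · exact le_rfl
  have hmain := nmemb_le (q.wf φ' h' hK') hd A (by omega) hγ12 k b c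
    (fun l => if b then BadP q.N1 A l else BadM q.N1 A l) (fun l => rfl)
    (fun l => Bt (0 : Tor d q.M) (6 * A.S l + A.L ^ 2 + 1))
    (fun l hl => by
      cases b with
      | false =>
        exact DecE.loc _ (badM_dec q.M q.K q.N1 A hLd hγ12 l (hMl l hl))
      | true =>
        exact IncE.loc _ (badP_inc q.M q.K q.N1 A hLd hγ12 l (hMl l hl)))
    (fun l => ENNReal.ofReal (if l = 0 then p0 + Real.exp (-(A.L : ℝ)) else
      Real.exp (-(A.S (l - 1) : ℝ)))) hbad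
  refine le_trans hmain ?_
  have hnn : ∀ l : ℕ, 0 ≤ (if l = 0 then p0 + Real.exp (-(A.L : ℝ)) else
      Real.exp (-(A.S (l - 1) : ℝ))) := by
    intro l
    split_ifs <;> positivity
  have h3 : ∑ l ∈ Finset.range k, ((2 * A.D l + 1) ^ (d + 1) : ℕ) *
      ENNReal.ofReal (if l = 0 then p0 + Real.exp (-(A.L : ℝ)) else
        Real.exp (-(A.S (l - 1) : ℝ))) =
      ENNReal.ofReal (∑ l ∈ Finset.range k, (((2 * A.D l + 1) ^ (d + 1) : ℕ) : ℝ) *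
        (if l = 0 then p0 + Real.exp (-(A.L : ℝ)) else Real.exp (-(A.S (l - 1) : ℝ)))) := by
    rw [ENNReal.ofReal_sum_of_nonneg fun l _ => mul_nonneg (Nat.cast_nonneg _) (hnn l)]
    refine Finset.sum_congr rfl fun l _ => ?_
    rw [ENNReal.ofReal_mul (Nat.cast_nonneg _), ENNReal.ofReal_natCast]
  rw [h3]
  exact ENNReal.ofReal_le_ofReal (hsum A hAα hAγ ((le_max_right _ _).trans hL) p0 hp0 hp1 k)

end ZQ.NM
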