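import Pool.Agent.ZP.NU
import Pool.Agent.ZQ.NMOf
import Pool.Agent.ZQ.BU
import Pool.Agent.ZQ.BKa

/-! # Row NU: not being in a hub, constants polynomial in the fugacity -/

set_option autoImplicit false

open scoped ENNReal BigOperators Classical Pointwise

noncomputable section

namespace ZQ.Rows

open ZP hiding Agree AgreeW BG BadM Base BlockFacts CoreE Env EqEnv FG FOpn GoodK IsGamma LowTail Meet MeetL MembE NMemb Opn PBad PBadM POpn PastEv QK QT Route Speed StepP Sys UpTail badA badW envT foldl_stepR_fst foldl_stepR_inter foldl_stepR_mono foldl_stepR_occ foldl_stepR_region inf infMv infMv_mono infMv_occ inf_comp inf_inter inf_mono_univ inf_occ inf_pred lin mem_foldl_stepR mem_infMv muK pe rin stepI stepR visU visU_mono_univ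
open ZP.Rows hiding R_of_noRec R_toZI agree_take badM_dec badM_of_pbadM bad_prob bad_prob_u bh_chain cfg_toZI chain_eq chain_shift envT_toZI foldl_stepR_noRec foldl_stepR_toZI fopn_loc fopn_pth inf_noRec inf_toZI nmemb_prob_u occ_toZI opn_inc pbadM_loc pbadM_pth pbad_pth pe_path popn_loc popn_of_opn popn_pth start_inv visU_noRec visU_toZI vis_of_noRec vis_toZI

variable [ZQ.Thr]

open ZP hiding Agree AgreeW BG BadM Base BlockFacts CoreE Env EqEnv FG FOpn GoodK IsGamma LowTail Meet MeetL MembE NMemb Opn PBad PBadM POpn PastEv QK QT Route Speed StepP Sys UpTail badA badW envT foldl_stepR_fst foldl_stepR_inter foldl_stepR_mono foldl_stepR_occ foldl_stepR_region inf infMv infMv_mono infMv_occ inf_comp inf_inter inf_mono_univ inf_occ inf_pred lin mem_foldl_stepR mem_infMv muK pe rin stepI stepR visU visU_mono_univ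
open ZP.NM hiding nmemb_le nmemb_prob_of
open ZQ.NM
open ZQ

/-- not being in a hub, letters version, at nearby fugacities; constants polynomial in the fugacity -/
theorem nmemb_prob_u (m : Model) (d : ℕ) (hd : 0 < d) : ∃ α0 : ℕ, ∀ α ≥ α0, ∀ γ ≥ α + 20, ∃ C0 : ℕ,
    ∀ A : Prm, A.α = α → A.γ = γ → A.L ≤ A.τ → A.τ ≤ A.L ^ 2 → ∀ (φ0 : ℝ) (h0 : 0 < φ0), 2 ≤ φ0 →
    C0 * φ0 ^ C0 ≤ (A.L : ℝ) → ∀ (δ : ℝ) (q : Par d (wf m φ0 h0) δ)
    (n : ℕ), q.Tiny n → 4 * φ0 ≤ m.g q.K → ∀ p0 : ℝ, 0 ≤ p0 → (A.L : ℝ) ^ (CstU d A) * p0 ≤ 1 →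
    (∀ (hφ : 0 < φ0 / 2) (hK : 2 * (φ0 / 2) ≤ m.g q.K),
      (q.wf (φ0 / 2) hφ hK).PP (A.τ * q.N1) (fun η w => ¬ Opn q.N1 A.L A.τ η w) ≤
        ENNReal.ofReal p0) →
    ∀ k : ℕ, A.S k ≤ n → 100 * A.S k + 10 * A.L ^ 2 ≤ q.M →
    ∀ (φ' : ℝ) (h' : 0 < φ') (hK' : 2 * φ' ≤ m.g q.K), 7 / 8 * φ0 ≤ φ' → φ' ≤ 9 / 8 * φ0 →
    ∀ (b : Bool) (c : Pos d),
    (q.wf φ' h' hK').PP (8 * A.T d k * q.N1) (NMemb q.N1 A b k c) ≤ ENNReal.ofReal (1 / 64) := by
  obtain ⟨α0, hα0⟩ := bad_prob_u m d hd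
  refine ⟨α0, fun α hα γ hγ => ?_⟩
  obtain ⟨C1, hL1⟩ := hα0 α hα γ hγ
  obtain ⟨L2, hL2, hsum⟩ := sum_le d α γ (by omega)
  refine ⟨max C1 L2, ?_⟩
  intro A hAα hAγ hτ hτ2 φ0 h0 h20 hL δ q n hT hg p0 hp0 hp1 hopn k hk hM φ' h' hK' h7 h9 b c
  have hmx : ∀ C : ℕ, C ≤ max C1 L2 → C * φ0 ^ C ≤ (A.L : ℝ) := by
    intro C hC
    refine le_trans ?_ hL
    have h1 : (C : ℝ) ≤ ((max C1 L2 : ℕ) : ℝ) := by exact_mod_cast hC
    have h2 : φ0 ^ C ≤ φ0 ^ (max C1 L2) := pow_le_pow_right₀ (by linarith) hC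
    exact mul_le_mul h1 h2 (by positivity) (by positivity)
  have hLC1 := hmx C1 (le_max_left _ _)
  have hL2' : L2 ≤ A.L := by
    have h1 := hmx L2 (le_max_right _ _)
    have h2 : (1 : ℝ) ≤ φ0 ^ L2 := one_le_pow₀ (by linarith)
    have h3 : (L2 : ℝ) ≤ L2 * φ0 ^ L2 := le_mul_of_one_le_right (by positivity) h2
    exact_mod_cast h3.trans h1
  have hLd : 1000 * (d + 1) ≤ A.L := hL2.trans hL2'
  have hγ12 : A.α + 12 ≤ A.γ := by omega
  have hSk : ∀ l < k, A.S l ≤ A.S k := fun l hl => S_mono A (by omega) (by omega) hl.le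
  have hLL : 10 ≤ A.L ^ 2 := by nlinarith
  have hMl : ∀ l < k, 12 * A.S l + 4 * A.L ^ 2 + 10 ≤ q.M := by
    intro l hl
    have := hSk l hl
    omega
  have hbad : ∀ l < k, (q.wf φ' h' hK').PP (6 * A.T d l * q.N1)
      (if b then BadP q.N1 A l else BadM q.N1 A l) ≤
      ENNReal.ofReal (if l = 0 then p0 + Real.exp (-(A.L : ℝ)) else Real.exp (-(A.S (l - 1) : ℝ))) := by
    intro l hl
    obtain ⟨h1, h2⟩ := hL1 A hAα hAγ hτ hτ2 φ0 h0 h20 hLC1 δ q n hT hg p0 hp0 hp1 hopn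
      l ((hSk l hl).trans hk) (by have := hSk l hl; omega) φ' h' hK' h7 h9
    cases b with
    | false => simpa using h1
    | true =>
      refine le_trans (by simpa using h2) (ENNReal.ofReal_le_ofReal ?_)
      split_ifs with h0
      · positivity
      · exact le_rfl
  have hmain := nmemb_le (q.wf φ' h' hK') hd A (by omega) hγ12 k b c
    (fun l => if b then BadP q.N1 A l else BadM q.N1 A l) (fun l => rfl)
    (fun l => Bt (0 : Tor d q.M) (6 * A.S l + A.L ^ 2 + 1))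
    (fun l hl => by
      cases b with
      | false =>
        exact DecE.loc _ (badM_dec (M := q.M) (K := q.K) q.N1 A hLd hγ12 l (hMl l hl))
      | true =>
        exact IncE.loc _ (badP_inc (M := q.M) (K := q.K) q.N1 A hLd hγ12 l (hMl l hl)))
    (fun l => ENNReal.ofReal (if l = 0 then p0 + Real.exp (-(A.L : ℝ)) else
      Real.exp (-(A.S (l - 1) : ℝ)))) hbad
  refine le_trans hmain ?_
  have hnn : ∀ l : ℕ, 0 ≤ (if l = 0 then p0 + Real.exp (-(A.L : ℝ)) else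
      Real.exp (-(A.S (l - 1) : ℝ))) := by
    intro l
    split_ifs <;> positivity
  have h3 : ∑ l ∈ Finset.range k, ((2 * A.D l + 1) ^ (d + 1) : ℕ) *
      ENNReal.ofReal (if l = 0 then p0 + Real.exp (-(A.L : ℝ)) else
        Real.exp (-(A.S (l - 1) : ℝ))) =
      ENNReal.ofReal (∑ l ∈ Finset.range k, (((2 * A.D l + 1) ^ (d + 1) : ℕ) : ℝ) *
        (if l = 0 then p0 + Real.exp (-(A.L : ℝ)) else Real.exp (-(A.S (l - 1) : ℝ)))) := by
    rw [ENNReal.ofReal_sum_of_nonneg fun l _ => mul_nonneg (Nat.cast_nonneg _) (hnn l)]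
    refine Finset.sum_congr rfl fun l _ => ?_
    rw [ENNReal.ofReal_mul (Nat.cast_nonneg _), ENNReal.ofReal_natCast]
  rw [h3]
  exact ENNReal.ofReal_le_ofReal (hsum A hAα hAγ hL2' p0 hp0 hp1 k)

end ZQ.Rows
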