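import Pool.Agent.ZP.SF3
import Pool.Agent.ZQ.Core
import Pool.Agent.ZQ.E1
import Pool.Agent.ZP.R2
import Pool.Agent.ZQ.InfLem

/-! # Row SF3: reversed words, reversed events, reversed routes -/

set_option autoImplicit false

open scoped ENNReal BigOperators Classical Pointwise

noncomputable section

namespace ZQ.SF3

open ZP hiding AgreeW BG BadM Base BlockFacts CoreE Env EqEnv FG FOpn Meet MeetL MembE NMemb Opn PBad PBadM POpn PastEv QT Route Speed badA badW envT foldl_stepR_fst foldl_stepR_inter foldl_stepR_mono foldl_stepR_occ foldl_stepR_region inf infMv infMv_mono infMv_occ inf_comp inf_inter inf_mono_univ inf_occ inf_pred lin mem_foldl_stepR mem_infMv pe rin stepI stepR visU visU_mono_univ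
open ZP.SF3 hiding Rch Rch_append Rch_nil Rch_one Rch_rev foldI_eq foldI_mono foldI_occ foldl_rword inf_iff mem_foldI path_cw

variable [ZQ.Thr]

open ZP hiding AgreeW BG BadM Base BlockFacts CoreE Env EqEnv FG FOpn Meet MeetL MembE NMemb Opn PBad PBadM POpn PastEv QT Route Speed badA badW envT foldl_stepR_fst foldl_stepR_inter foldl_stepR_mono foldl_stepR_occ foldl_stepR_region inf infMv infMv_mono infMv_occ inf_comp inf_inter inf_mono_univ inf_occ inf_pred lin mem_foldl_stepR mem_infMv pe rin stepI stepR visU visU_mono_univ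
open ZQ

variable {d : ℕ}

section words

variable {M K : ℕ}

/-- route along a word, restricted to `G` -/
def Rch (G : Set (Pos d)) (η : Tor d M → ℕ) (w : List (Let d M K)) (x y : Pos d) : Prop :=
  x ∈ G ∧ Thr.θ ≤ η (tv x) ∧ y ∈ (w.foldl (stepI G) (η, {x})).2

theorem foldI_eq (G : Set (Pos d)) (w : List (Let d M K)) (η : Tor d M → ℕ) (A : Set (Pos d)) :
    w.foldl (stepI G) (η, A) = (w.foldl stepA η, (w.foldl (stepI G) (η, A)).2) :=
  Prod.ext (E1.foldl_stepI_fst G w (η, A)) rfl

theorem foldI_mono (G : Set (Pos d)) (w : List (Let d M K)) (η : Tor d M → ℕ) {A A' : Set (Pos d)}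
    (h : A ⊆ A') : (w.foldl (stepI G) (η, A)).2 ⊆ (w.foldl (stepI G) (η, A')).2 := by
  rw [← E1.foldl_filterMap, ← E1.foldl_filterMap]
  exact foldl_stepR_mono subset_rfl _ _ h

theorem mem_foldI (G : Set (Pos d)) (w : List (Let d M K)) (η : Tor d M → ℕ) (A : Set (Pos d))
    {z : Pos d} (h : z ∈ (w.foldl (stepI G) (η, A)).2) :
    ∃ y ∈ A, z ∈ (w.foldl (stepI G) (η, {y})).2 := by
  rw [← E1.foldl_filterMap] at h
  obtain ⟨y, hy, hz⟩ := mem_foldl_stepR _ _ _ z h
  rw [E1.foldl_filterMap] at hz
  exact ⟨y, hy, hz⟩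

theorem foldI_occ (G : Set (Pos d)) (w : List (Let d M K)) (η : Tor d M → ℕ) (A : Set (Pos d))
    (hA : ∀ z ∈ A, Thr.θ ≤ η (tv z)) {z : Pos d} (h : z ∈ (w.foldl (stepI G) (η, A)).2) :
    Thr.θ ≤ w.foldl stepA η (tv z) := by
  rw [← E1.foldl_filterMap] at h
  have := foldl_stepR_occ _ _ _ hA z h
  rwa [E1.foldl_filterMap_mv] at this

theorem Rch_append (G : Set (Pos d)) (η : Tor d M → ℕ) (w w' : List (Let d M K)) (x y : Pos d) :
    Rch G η (w ++ w') x y ↔ ∃ z, Rch G η w x z ∧ Rch G (w.foldl stepA η) w' z y := by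
  unfold Rch
  rw [List.foldl_append, foldI_eq G w η {x}]
  constructor
  · rintro ⟨h1, h2, h3⟩
    obtain ⟨z, hz, hy⟩ := mem_foldI G w' _ _ h3
    have hocc : ∀ a ∈ ({x} : Set (Pos d)), Thr.θ ≤ η (tv a) := by
      rintro a rfl
      exact h2
    exact ⟨z, ⟨h1, h2, hz⟩, E1.foldl_stepI_sub G w (η, {x}) (Set.singleton_subset_iff.2 h1) hz,
      foldI_occ G w η {x} hocc hz, hy⟩
  · rintro ⟨z, ⟨h1, h2, hz⟩, -, -, hy⟩
    exact ⟨h1, h2, foldI_mono G w' _ (Set.singleton_subset_iff.2 hz) hy⟩

theorem Rch_nil (G : Set (Pos d)) (η : Tor d M → ℕ) (x y : Pos d) :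
    Rch G η ([] : List (Let d M K)) x y ↔ x ∈ G ∧ Thr.θ ≤ η (tv x) ∧ y = x := Iff.rfl

theorem Rch_one (hd : 0 < d) (hM : 3 ≤ M) (hK : 0 < K) (G : Set (Pos d)) (η : Tor d M → ℕ)
    (a : Let d M (K + 1)) (x y : Pos d) :
    Rch G η [a] x y ↔ Rch G (stepA η a) [(canL (mark a) (stepA η a) η : Let d M (K + 1))] y x := by
  have hM2 : 2 ≤ M := by omega
  cases h : toLab a with
  | none =>
    rw [E1.stepA_none _ _ h, E1.mark_none a h, E1.canL_stay hM2]
    unfold Rch
    rw [List.foldl_cons, List.foldl_cons, List.foldl_nil, List.foldl_nil, E1.stepI_none _ _ a h,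
      E1.stepI_none _ _ _ rfl]
    constructor
    · rintro ⟨h1, h2, h3⟩
      obtain rfl : y = x := h3
      exact ⟨h1, h2, rfl⟩
    · rintro ⟨h1, h2, h3⟩
      obtain rfl : x = y := h3
      exact ⟨h1, h2, rfl⟩
  | some b =>
    obtain ⟨v, j, e⟩ := b
    cases j with
    | zero =>
      have hs : stepA η a = η := E1.stepA_some η a _ h
      rw [hs, E1.mark_zero a v e h]
      obtain ⟨e', he'⟩ := E1.canL_rec (K := K) hd v η η
      unfold Rch
      rw [List.foldl_cons, List.foldl_cons, List.foldl_nil, List.foldl_nil, E1.stepI_some _ _ a _ h,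
        E1.stepI_some _ _ _ _ he']
      constructor
      · rintro ⟨h1, h2, ⟨h3, h4⟩, h5⟩
        obtain rfl : y = x := h3
        exact ⟨h1, h2, ⟨rfl, h4⟩, h5⟩
      · rintro ⟨h1, h2, ⟨h3, h4⟩, h5⟩
        obtain rfl : x = y := h3
        exact ⟨h1, h2, ⟨rfl, h4⟩, h5⟩
    | succ k =>
      have hs : stepA η a = ZI.mv nbT η (v, k, e) := E1.stepA_some η a _ h
      rw [E1.mark_succ a v k e h]
      by_cases hk : k < η v
      · have hv : 0 < η v := lt_of_le_of_lt (Nat.zero_le _) hk
        have hmv : ZI.mv nbT η (v, k, e) = ZI.R2aux.add (ZI.R2aux.rem η v) (v + tv (dv e)) :=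
          ZI.C5.mv_add η (v, k, e) hk
        obtain ⟨a1, a2, a3⟩ := ZI.C5.jump_vals hM2 η v e hv
        have hneb : v + tv (dv e) ≠ v := ZI.Rows.add_tv_ne hM2 v e
        -- the reversed jump
        have hback : ZI.mv nbT (ZI.mv nbT η (v, k, e)) (v + tv (dv e), 0, ZI.R2aux.ng e) = η := by
          have h1 : 0 < ZI.mv nbT η (v, k, e) (v + tv (dv e)) := by
            rw [hmv, a2]
            omega
          rw [ZI.C5.mv_add _ (v + tv (dv e), 0, ZI.R2aux.ng e) h1]
          show ZI.R2aux.add (ZI.R2aux.rem (ZI.mv nbT η (v, k, e)) (v + tv (dv e)))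
            (v + tv (dv e) + tv (dv (ZI.R2aux.ng e))) = η
          rw [hmv, ZI.R2aux.rem_add, ZI.R2aux.tv_ng, add_neg_cancel_right, ZI.R2aux.add_rem η v hv]
        have hcan : toLab (canL none (ZI.mv nbT η (v, k, e)) η : Let d M (K + 1)) =
            some (v + tv (dv e), 1, ZI.R2aux.ng e) := by
          have h1 : 0 < ZI.mv nbT η (v, k, e) (v + tv (dv e)) := by
            rw [hmv, a2]
            omega
          have h2 := E1.canL_jump hM hK (ZI.mv nbT η (v, k, e)) (v + tv (dv e)) 0 (ZI.R2aux.ng e) h1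
          rw [hback] at h2
          exact h2
        have hZP : (x ∈ G ∧ 0 < η (tv x) ∧ y ∈ ZI.infMv nbT tv η {x} (v, k, e) ∩ G) ↔
            (y ∈ G ∧ 0 < ZI.mv nbT η (v, k, e) (tv y) ∧
              x ∈ ZI.infMv nbT tv (ZI.mv nbT η (v, k, e)) {y} (v + tv (dv e), 0, ZI.R2aux.ng e) ∩
                G) := by
          have h0 := ZP.SF3.Rch_one hd hM hK G η a x y
          rw [E1.mark_succ a v k e h, hs] at h0
          unfold ZP.SF3.Rch at h0
          rw [List.foldl_cons, List.foldl_cons, List.foldl_nil, List.foldl_nil,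
            ZP.E1.stepI_some _ _ a _ h, ZP.E1.stepI_some _ _ _ _ hcan] at h0
          exact h0
        rw [hs]
        unfold Rch
        rw [List.foldl_cons, List.foldl_cons, List.foldl_nil, List.foldl_nil,
          E1.stepI_some _ _ a _ h, E1.stepI_some _ _ _ _ hcan]
        constructor
        · rintro ⟨g1, g2, ⟨g3, g4⟩, g5⟩
          have h5 := hZP.1 ⟨g1, lt_of_lt_of_le Thr.pos g2, g3, g5⟩
          refine ⟨h5.1, ?_, ⟨h5.2.2.1, fun _ => Or.inr ?_⟩, h5.2.2.2⟩
          · rcases g4 hk with ⟨g6, g7⟩ | g6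
            · obtain rfl : y = x := g6
              exact g2.trans (mv_ne (nb := nbT) η (v, k + 1, e) g7)
            · exact g6
          · show Thr.θ ≤ ZI.mv nbT (ZI.mv nbT η (v, k, e)) (v + tv (dv e), 0, ZI.R2aux.ng e) (tv x)
            rw [hback]
            exact g2
        · rintro ⟨g1, g2, ⟨g3, g4⟩, g5⟩
          have h5 := hZP.2 ⟨g1, lt_of_lt_of_le Thr.pos g2, g3, g5⟩
          have h1 : 0 < ZI.mv nbT η (v, k, e) (v + tv (dv e)) := by
            rw [hmv, a2]
            omega
          refine ⟨h5.1, ?_, ⟨h5.2.2.1, fun _ => Or.inr g2⟩, h5.2.2.2⟩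
          have g4' : (x ∈ ({y} : Set (Pos d)) ∧ tv x ≠ v + tv (dv e)) ∨
              Thr.θ ≤ ZI.mv nbT (ZI.mv nbT η (v, k, e)) (v + tv (dv e), 0, ZI.R2aux.ng e) (tv x) :=
            g4 h1
          rw [hback] at g4'
          rcases g4' with ⟨g6, g7⟩ | g6
          · obtain rfl : x = y := g6
            have h6 := mv_ne (nb := nbT) (ZI.mv nbT η (v, k, e))
              (v + tv (dv e), 0 + 1, ZI.R2aux.ng e) g7
            have h7 : ZI.mv nbT η (v, k, e) (tv x) ≤ η (tv x) := by
              have h8 : mv nbT (ZI.mv nbT η (v, k, e)) (v + tv (dv e), 0 + 1, ZI.R2aux.ng e) = η :=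
                hback
              rw [h8] at h6
              exact h6
            exact g2.trans h7
          · exact g6
      · rw [hs, ZI.C5.mv_stay _ _ hk, E1.canL_stay hM2]
        unfold Rch
        rw [List.foldl_cons, List.foldl_cons, List.foldl_nil, List.foldl_nil,
          E1.stepI_some _ _ a _ h, E1.stepI_none _ _ _ rfl]
        have h9 : infMv nbT tv η {x} (v, k + 1, e) = {x} := by
          ext z
          show (z ∈ ZI.infMv nbT tv η {x} (v, k, e) ∧
            (k < η v → (z ∈ ({x} : Set (Pos d)) ∧ tv z ≠ v) ∨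
              Thr.θ ≤ ZI.mv nbT η (v, k, e) (tv z))) ↔ z ∈ ({x} : Set (Pos d))
          unfold ZI.infMv
          rw [if_neg hk]
          exact ⟨fun h => h.1, fun h => ⟨h, fun h' => absurd h' hk⟩⟩
        change (x ∈ G ∧ Thr.θ ≤ η (tv x) ∧ y ∈ infMv nbT tv η {x} (v, k + 1, e) ∩ G) ↔ _
        rw [h9]
        constructor
        · rintro ⟨h1, h2, h3, h4⟩
          obtain rfl : y = x := h3
          exact ⟨h1, h2, rfl⟩
        · rintro ⟨h1, h2, h3⟩
          obtain rfl : x = y := h3
          exact ⟨h1, h2, rfl, h1⟩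

theorem path_cw (hd : 0 < d) (hM : 3 ≤ M) (hK : 0 < K) (w : List (Let d M (K + 1))) :
    ∀ η : Tor d M → ℕ, path η (E1.cw η w) = path η w := by
  induction w with
  | nil => exact fun η => rfl
  | cons a w ih =>
    intro η
    have h1 : stepA η (canL (mark a) η (stepA η a) : Let d M (K + 1)) = stepA η a := by
      have h2 := congrArg Prod.fst
        (E1.stepI_can hd hM hK Set.univ ∅ η a (Set.empty_subset _))
      rw [E1.stepI_fst, E1.stepI_fst] at h2
      exact h2
    rw [E1.cw, path, path, h1, ih]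

end words

section par

variable {m : Model} {δ : ℝ} (q : Par d m δ)

theorem foldl_rword (hd : 0 < d) (η : Tor d q.M → ℕ) (w : List (Let d q.M (q.K + 1))) :
    (rword η w).foldl stepA (w.foldl stepA η) = η := by
  have hM : 3 ≤ q.M := by have := q.M_ge; omega
  have hK : 0 < q.K := by have := q.K_ge; omega
  obtain ⟨w', h1, h2, h3⟩ := rword_eq q hd η w
  rw [h1, E1.cw_foldA hd hM hK]
  obtain ⟨L, hL⟩ := E1.path_rev_head (w.foldl stepA η) w'
  obtain ⟨L', hL'⟩ := E1.path_head η w
  rw [← h2, List.reverse_reverse, hL'] at hL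
  exact (List.cons.inj hL).1.symm

theorem Rch_rev (hd : 0 < d) (G : Set (Pos d)) (w : List (Let d q.M (q.K + 1))) :
    ∀ (η : Tor d q.M → ℕ) (x y : Pos d),
      Rch G η w x y ↔ Rch G (w.foldl stepA η) (rword η w) y x := by
  have hM : 3 ≤ q.M := by have := q.M_ge; omega
  have hK : 0 < q.K := by have := q.K_ge; omega
  induction w with
  | nil =>
    intro η x y
    show Rch G η [] x y ↔ Rch G η [] y x
    rw [Rch_nil, Rch_nil]
    constructor
    · rintro ⟨h1, h2, rfl⟩
      exact ⟨h1, h2, rfl⟩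
    · rintro ⟨h1, h2, rfl⟩
      exact ⟨h1, h2, rfl⟩
  | cons a w ih =>
    intro η x y
    have h1 : a :: w = [a] ++ w := rfl
    rw [h1, Rch_append, ← h1, rword_cons, Rch_append]
    have h2 : (rword (stepA η a) w).foldl stepA ((a :: w).foldl stepA η) = stepA η a :=
      foldl_rword q hd (stepA η a) w
    rw [h2]
    refine exists_congr fun z => ?_
    rw [Rch_one hd hM hK G η a x z]
    have h3 : Rch G ([a].foldl stepA η) w z y ↔
        Rch G ((a :: w).foldl stepA η) (rword (stepA η a) w) y z := ih (stepA η a) z y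
    rw [h3]
    exact and_comm

/-- routes of the environment as routes along the word -/
theorem inf_iff (η : Tor d q.M → ℕ) (w : List (Let d q.M (q.K + 1))) (G : Set (Pos d)) (s : ℕ)
    (x : Pos d) (j : ℕ) : ∀ y : Pos d,
    y ∈ inf nbT tv η (units q.N1 w) (fun _ => G) s {x} j ↔
      Rch G (stt η w (s * q.N1)) ((w.drop (s * q.N1)).take (j * q.N1)) x y := by
  induction j with
  | zero =>
    intro y
    rw [Nat.zero_mul, List.take_zero, Rch_nil]
    change (y ∈ ({x} : Set (Pos d)) ∧ y ∈ G ∧ Thr.θ ≤ cfg nbT η (units q.N1 w) s (tv y)) ↔ _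
    rw [E1.cfg_eq]
    constructor
    · rintro ⟨h1, h2, h3⟩
      obtain rfl : y = x := h1
      exact ⟨h2, h3, rfl⟩
    · rintro ⟨h1, h2, rfl⟩
      exact ⟨rfl, h1, h2⟩
  | succ j ih =>
    intro y
    have hw : (w.drop (s * q.N1)).take ((j + 1) * q.N1) =
        (w.drop (s * q.N1)).take (j * q.N1) ++ (w.drop ((s + j) * q.N1)).take q.N1 := by
      rw [Nat.succ_mul, List.take_add, List.drop_drop, ← Nat.add_mul]
    have hst : ((w.drop (s * q.N1)).take (j * q.N1)).foldl stepA (stt η w (s * q.N1)) =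
        cfg nbT η (units q.N1 w) (s + j) := by
      unfold stt
      rw [E1.cfg_eq, ← List.foldl_append, Nat.add_mul, List.take_add]
    rw [hw, Rch_append, hst]
    change y ∈ ((units q.N1 w (s + j)).foldl (stepR nbT tv G)
      (cfg nbT η (units q.N1 w) (s + j), inf nbT tv η (units q.N1 w) (fun _ => G) s {x} j ∩ G)).2 ↔ _
    have hu : units q.N1 w (s + j) = ((w.drop ((s + j) * q.N1)).take q.N1).filterMap toLab := rfl
    rw [hu, E1.foldl_filterMap]
    constructor
    · intro h
      obtain ⟨z, hz, hy⟩ := mem_foldI _ _ _ _ h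
      exact ⟨z, (ih z).1 hz.1, hz.2, inf_occ j z hz.1, hy⟩
    · rintro ⟨z, h1, h2, h3, h4⟩
      have h5 : z ∈ inf nbT tv η (units q.N1 w) (fun _ => G) s {x} j ∩ G := ⟨(ih z).2 h1, h2⟩
      exact foldI_mono G _ _ (Set.singleton_subset_iff.2 h5) h4

end par

end ZQ.SF3

namespace ZQ.Rows

open ZP hiding AgreeW BG BadM Base BlockFacts CoreE Env EqEnv FG FOpn Meet MeetL MembE NMemb Opn PBad PBadM POpn PastEv QT Route Speed badA badW envT foldl_stepR_fst foldl_stepR_inter foldl_stepR_mono foldl_stepR_occ foldl_stepR_region inf infMv infMv_mono infMv_occ inf_comp inf_inter inf_mono_univ inf_occ inf_pred lin mem_foldl_stepR mem_infMv pe rin stepI stepR visU visU_mono_univ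
open ZP.Rows hiding PP_rev R_of_noRec R_rev R_toZI cfg_toZI envT_toZI foldl_stepR_noRec foldl_stepR_toZI inf_noRec inf_toZI occ_toZI pe_path rword_path visU_noRec visU_toZI vis_of_noRec vis_toZI

variable [ZQ.Thr]

open ZP hiding AgreeW BG BadM Base BlockFacts CoreE Env EqEnv FG FOpn Meet MeetL MembE NMemb Opn PBad PBadM POpn PastEv QT Route Speed badA badW envT foldl_stepR_fst foldl_stepR_inter foldl_stepR_mono foldl_stepR_occ foldl_stepR_region inf infMv infMv_mono infMv_occ inf_comp inf_inter inf_mono_univ inf_occ inf_pred lin mem_foldl_stepR mem_infMv pe rin stepI stepR visU visU_mono_univ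
open ZP.SF3 hiding Rch Rch_append Rch_nil Rch_one Rch_rev foldI_eq foldI_mono foldI_occ foldl_rword inf_iff mem_foldI path_cw
open ZQ.SF3
open ZQ

variable {d : ℕ} {m : Model} {δ : ℝ} (q : Par d m δ)

/-- path and marks of the reversed word -/
theorem rword_path (hd : 0 < d) (hM : 5 ≤ q.M) (η : Tor d q.M → ℕ) (w : List (Let d q.M (q.K + 1))) :
    path (stt η w w.length) (rword η w) = (path η w).reverse ∧
      (rword η w).map mark = (w.map mark).reverse ∧ (rword η w).length = w.length := by
  have hM' : 3 ≤ q.M := by omega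
  have hK : 0 < q.K := by have := q.K_ge; omega
  obtain ⟨w', h1, h2, h3⟩ := rword_eq q hd η w
  refine ⟨?_, ?_, rword_length q hd η w⟩
  · unfold stt
    rw [List.take_length, h1, path_cw hd hM' hK, h2]
  · rw [h1, E1.cw_mark hd hM' hK, h3]

/-- the reversed event has the same probability -/
theorem PP_rev (hd : 0 < d) (N : ℕ) (E : Ev d q.M q.K) (h : PthE E) : q.PP N (revE E) = q.PP N E := by
  have hM' : 3 ≤ q.M := by have := q.M_ge; omega
  have hK : 0 < q.K := by have := q.K_ge; omega
  have h1 := reversal q hd N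
    (fun p o => if E (p.headD (fun _ => 0)) (canP p o) then 1 else 0)
  have h2 : q.PP N E = q.EE N (fun η l => if E ((path η l).headD (fun _ => 0))
      (canP (path η l) (l.map mark)) then 1 else 0) := by
    unfold Par.PP
    congr 1
    funext η l
    obtain ⟨L, hL⟩ := E1.path_head η l
    have h3 : (path η l).headD (fun _ => 0) = η := by
      rw [hL]
      rfl
    have h4 : E η l ↔ E ((path η l).headD (fun _ => 0)) (canP (path η l) (l.map mark)) := by
      rw [h3, E1.canP_path]
      constructor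
      · exact h η l (E1.cw η l) (path_cw hd hM' hK l η).symm (E1.cw_mark hd hM' hK l η).symm
      · exact h η (E1.cw η l) l (path_cw hd hM' hK l η) (E1.cw_mark hd hM' hK l η)
    by_cases h5 : E η l
    · rw [if_pos h5, if_pos (h4.1 h5)]
    · rw [if_neg h5, if_neg (fun h6 => h5 (h4.2 h6))]
  rw [h2, h1]
  unfold Par.PP
  congr 1
  funext η l
  obtain ⟨L, hL⟩ := E1.path_rev_head η l
  have h3 : (path η l).reverse.headD (fun _ => 0) = stt η l l.length := by
    rw [hL]
    unfold stt
    rw [List.take_length]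
    rfl
  rw [h3]
  rfl

/-- routes and reversed routes -/
theorem R_rev (hd : 0 < d) (η : Tor d q.M → ℕ) (w : List (Let d q.M (q.K + 1))) (H : ℕ)
    (hw : w.length = H * q.N1) (G : Set (Pos d)) (s t : ℕ) (hst : s ≤ t) (ht : t ≤ H) (x y : Pos d) :
    (envT q η w).R (fun _ => G) s x t y ↔
      (envT q (stt η w w.length) (rword η w)).R (fun _ => G) (H - t) y (H - s) x := by
  obtain ⟨j, rfl⟩ := Nat.exists_eq_add_of_le hst
  obtain ⟨i, rfl⟩ := Nat.exists_eq_add_of_le ht
  have e1 : s + j + i - (s + j) = i := by omega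
  have e2 : s + j + i - s = i + j := by omega
  rw [e1, e2]
  -- the three pieces of the word
  have hw1 : w = w.take (s * q.N1) ++ ((w.drop (s * q.N1)).take (j * q.N1) ++
      w.drop ((s + j) * q.N1)) := by
    conv_lhs => rw [← List.take_append_drop (s * q.N1) w,
      ← List.take_append_drop (j * q.N1) (w.drop (s * q.N1))]
    rw [List.drop_drop, ← Nat.add_mul]
  set w1 := w.take (s * q.N1) with hd1
  set w2 := (w.drop (s * q.N1)).take (j * q.N1) with hd2
  set w3 := w.drop ((s + j) * q.N1) with hd3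
  have hr : rword η w = (rword (w2.foldl stepA (w1.foldl stepA η)) w3 ++
      rword (w1.foldl stepA η) w2) ++ rword η w1 := by
    conv_lhs => rw [hw1]
    rw [rword_append, rword_append]
  have hl3 : (rword (w2.foldl stepA (w1.foldl stepA η)) w3).length = i * q.N1 := by
    rw [rword_length q hd, hd3, List.length_drop, hw, ← Nat.sub_mul, e1]
  have hl2 : (rword (w1.foldl stepA η) w2).length = j * q.N1 := by
    rw [rword_length q hd, hd2, List.length_take, List.length_drop, hw, ← Nat.sub_mul]
    apply min_eq_left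
    exact Nat.mul_le_mul_right _ (by omega)
  have hfold : stt η w w.length = w3.foldl stepA (w2.foldl stepA (w1.foldl stepA η)) := by
    unfold stt
    rw [List.take_length, ← List.foldl_append, ← List.foldl_append, ← List.append_assoc] 
    conv_lhs => rw [hw1]
    rw [List.append_assoc]
  have hL : (envT q η w).R (fun _ => G) s x (s + j) y ↔ Rch G (w1.foldl stepA η) w2 x y := by
    constructor
    · rintro ⟨j', hj', h⟩
      obtain rfl : j' = j := by omega
      exact (inf_iff q η w G s x j' y).1 h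
    · intro h
      exact ⟨j, rfl, (inf_iff q η w G s x j y).2 h⟩
  have hR : (envT q (stt η w w.length) (rword η w)).R (fun _ => G) i y (i + j) x ↔
      Rch G (w2.foldl stepA (w1.foldl stepA η)) (rword (w1.foldl stepA η) w2) y x := by
    have h1 : stt (stt η w w.length) (rword η w) (i * q.N1) =
        w2.foldl stepA (w1.foldl stepA η) := by
      rw [hfold]
      unfold stt
      rw [hr, List.append_assoc, List.take_left' hl3]
      exact foldl_rword q hd _ w3
    have h2 : ((rword η w).drop (i * q.N1)).take (j * q.N1) = rword (w1.foldl stepA η) w2 := by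
      rw [hr, List.append_assoc, List.drop_left' hl3, List.take_left' hl2]
    constructor
    · rintro ⟨j', hj', h⟩
      obtain rfl : j' = j := by omega
      have h3 := (inf_iff q (stt η w w.length) (rword η w) G i y j' x).1 h
      rw [h1, h2] at h3
      exact h3
    · intro h
      refine ⟨j, rfl, (inf_iff q (stt η w w.length) (rword η w) G i y j x).2 ?_⟩
      rw [h1, h2]
      exact h
  rw [hL, hR]
  exact Rch_rev q hd G w2 (w1.foldl stepA η) x y

end ZQ.Rows
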