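import Pool.Agent.ZP.CF
import Pool.Agent.ZP.SF1
import Pool.Agent.ZP.SF2
import Pool.Agent.ZQ.SF3
import Pool.Agent.ZQ.BKa

/-! # ZP, row CF: bad blocks of the level `k` anywhere, forwards and backwards -/

set_option autoImplicit false

open scoped ENNReal BigOperators Classical Pointwise

noncomputable section

namespace ZQ.Rows

open ZP hiding Agree AgreeW BG BadM Base BlockFacts CoreE Env EqEnv FG FOpn GoodK IsGamma LowTail Meet MeetL MembE NMemb Opn PBad PBadM POpn PastEv QK QT Route Speed StepP Sys UpTail badA badW envT foldl_stepR_fst foldl_stepR_inter foldl_stepR_mono foldl_stepR_occ foldl_stepR_region inf infMv infMv_mono infMv_occ inf_comp inf_inter inf_mono_univ inf_occ inf_pred lin mem_foldl_stepR mem_infMv muK pe rin stepI stepR visU visU_mono_univ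
open ZP.Rows hiding PP_rev R_of_noRec R_rev R_toZI agree_take badM_dec badM_of_pbadM bh_chain cfg_toZI chain_eq chain_shift core_fwd envT_toZI foldl_stepR_noRec foldl_stepR_toZI fopn_loc fopn_pth inf_noRec inf_toZI occ_toZI opn_inc pbadM_loc pbadM_pth pbad_pth pe_path popn_loc popn_of_opn popn_pth rword_path start_inv visU_noRec visU_toZI vis_of_noRec vis_toZI

variable [ZQ.Thr]

open ZP hiding Agree AgreeW BG BadM Base BlockFacts CoreE Env EqEnv FG FOpn GoodK IsGamma LowTail Meet MeetL MembE NMemb Opn PBad PBadM POpn PastEv QK QT Route Speed StepP Sys UpTail badA badW envT foldl_stepR_fst foldl_stepR_inter foldl_stepR_mono foldl_stepR_occ foldl_stepR_region inf infMv infMv_mono infMv_occ inf_comp inf_inter inf_mono_univ inf_occ inf_pred lin mem_foldl_stepR mem_infMv muK pe rin stepI stepR visU visU_mono_univ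
open ZQ

variable {d : ℕ}

theorem core_fwd (m : Model) (d : ℕ) (hd : 0 < d) {δ : ℝ} (q : Par d m δ) (A : Prm) (k r H : ℕ) (p : ℝ≥0∞)
    (hL : 1000 * (d + 1) ≤ A.L) (hγ : A.α + 12 ≤ A.γ)
    (hM : 12 * A.S k + 4 * A.L ^ 2 + 10 ≤ q.M)
    (h1 : q.PP (6 * A.T d k * q.N1) (BadM q.N1 A k) ≤ p)
    (h2 : q.PP (6 * A.T d k * q.N1) (BadP q.N1 A k) ≤ p) :
    q.PP (H * q.N1) (fun η w => ¬ ((∀ (x : Pos d) (t : ℕ), t + 6 * A.T d k ≤ H → ∀ b,
        ¬ sft q.N1 x t (PBad q.N1 A b k) η w) ∧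
      ∀ (x : Pos d) (t : ℕ), t + 6 * A.T d k ≤ H → ∀ b,
        ¬ sft q.N1 x t (PBad q.N1 A b k) (stt η w w.length) (rword η w))) ≤
      4 * (H + 1) * (q.M : ℝ≥0∞) ^ d * p := by
  have hL2 : 2 ≤ A.L := by omega
  have hM2 : 2 * A.L ^ 2 + 4 ≤ q.M := by omega
  set U := 6 * A.T d k with hU
  -- the two signs
  have hb : ∀ b : Bool, q.PP (H * q.N1) (fun η w => ∃ (x : Pos d) (t : ℕ), t + U ≤ H ∧
      sft q.N1 x t (PBad q.N1 A b k) η w) ≤ (H + 1) * (q.M : ℝ≥0∞) ^ d * p := by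
    intro b
    cases b with
    | false =>
        have e : PBad (d := d) (M := q.M) (K := q.K) q.N1 A false k = PBadM q.N1 A k :=
          if_neg Bool.false_ne_true
        rw [e]
        refine (PP_union q hd H U (PBadM q.N1 A k) (pbadM_loc q.N1 A hL hγ k hM)).trans ?_
        refine mul_le_mul_right ?_ _
        exact (PP_mono q _ fun η w _ h => badM_of_pbadM q.N1 A hL2 hM2 k η w h).trans h1
    | true =>
        have e : PBad (d := d) (M := q.M) (K := q.K) q.N1 A true k = BadP q.N1 A k := if_pos rfl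
        rw [e]
        refine (PP_union q hd H U (BadP q.N1 A k) (ZP.Rows.IncE.loc q.N1 (badP_inc q.N1 A hL hγ k hM))).trans ?_
        exact mul_le_mul_right h2 _
  -- the event of one direction
  set E : Ev d q.M q.K := fun η w => ∃ (x : Pos d) (t : ℕ), t + U ≤ H ∧ ∃ b,
    sft q.N1 x t (PBad q.N1 A b k) η w with hE
  have hE1 : q.PP (H * q.N1) E ≤ 2 * ((H + 1) * (q.M : ℝ≥0∞) ^ d * p) := by
    rw [two_mul]
    refine (PP_mono q _ (E' := fun η w => (∃ (x : Pos d) (t : ℕ), t + U ≤ H ∧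
      sft q.N1 x t (PBad q.N1 A false k) η w) ∨ (∃ (x : Pos d) (t : ℕ), t + U ≤ H ∧
      sft q.N1 x t (PBad q.N1 A true k) η w)) ?_).trans
      ((PP_or q _ _ _).trans (add_le_add (hb false) (hb true)))
    rintro η w - ⟨x, t, ht, b, h⟩
    cases b with
    | false => exact Or.inl ⟨x, t, ht, h⟩
    | true => exact Or.inr ⟨x, t, ht, h⟩
  have hEp : PthE E := by
    rintro η w w' hp hm ⟨x, t, ht, b, h⟩
    exact ⟨x, t, ht, b, (ZP.Rows.PthE.sft q.N1 (pbad_pth q.N1 A q.M_ge b k) x t) η w w' hp hm h⟩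
  have hE2 : q.PP (H * q.N1) (revE E) ≤ 2 * ((H + 1) * (q.M : ℝ≥0∞) ^ d * p) :=
    (PP_rev q hd _ E hEp).le.trans hE1
  refine (PP_mono q _ (E' := fun η w => E η w ∨ revE E η w) ?_).trans
    ((PP_or q _ _ _).trans ((add_le_add hE1 hE2).trans (le_of_eq ?_)))
  · intro η w _ h
    by_contra hn
    rw [not_or] at hn
    exact h ⟨fun x t ht b hs => hn.1 ⟨x, t, ht, b, hs⟩, fun x t ht b hs => hn.2 ⟨x, t, ht, b, hs⟩⟩
  · ring

end ZQ.Rows
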