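import Pool.Agent.ZP.BKb1
import Pool.Agent.ZP.SF1
import Pool.Agent.ZQ.Core

/-! # Row BKb, first part: scales, level data, bad blocks and hubs of shifted words (deterministic) -/

set_option autoImplicit false

open scoped ENNReal BigOperators Classical

noncomputable section

namespace ZQ.BK

open ZP hiding Agree AgreeW BG BadM Base BlockFacts CoreE Env EqEnv FG FOpn GoodK IsGamma LowTail Meet MeetL MembE NMemb Opn PBad PBadM POpn PastEv QK QT Route Speed StepP Sys UpTail badA badW envT inf infMv lin muK pe rin stepI stepR visU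
open ZP.BK

variable [ZQ.Thr]

open ZP hiding Agree AgreeW BG BadM Base BlockFacts CoreE Env EqEnv FG FOpn GoodK IsGamma LowTail Meet MeetL MembE NMemb Opn PBad PBadM POpn PastEv QK QT Route Speed StepP Sys UpTail badA badW envT inf infMv lin muK pe rin stepI stepR visU
open ZQ

variable {d : ℕ}

/-! ### scales -/

/-! ### shifts of recursive events -/

end ZQ.BK

namespace ZQ.Rows

open ZP hiding Agree AgreeW BG BadM Base BlockFacts CoreE Env EqEnv FG FOpn GoodK IsGamma LowTail Meet MeetL MembE NMemb Opn PBad PBadM POpn PastEv QK QT Route Speed StepP Sys UpTail badA badW envT inf infMv lin muK pe rin stepI stepR visU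
open ZP.Rows hiding R_of_noRec R_toZI agree_take badW_sft bh_chain cfg_toZI chain_eq chain_shift envT_toZI foldl_stepR_noRec foldl_stepR_toZI hier_badW inf_noRec inf_toZI memb_sft occ_toZI pe_path start_inv visU_noRec visU_toZI vis_of_noRec vis_toZI

variable [ZQ.Thr]

open ZP hiding Agree AgreeW BG BadM Base BlockFacts CoreE Env EqEnv FG FOpn GoodK IsGamma LowTail Meet MeetL MembE NMemb Opn PBad PBadM POpn PastEv QK QT Route Speed StepP Sys UpTail badA badW envT inf infMv lin muK pe rin stepI stepR visU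
open ZP.BK
open ZQ

variable {d : ℕ}

section BK

variable {M K : ℕ} (N1 : ℕ) (A : Prm)

/-- the bad blocks of a word with an anchor satisfy the hypothesis of the hub theory -/
theorem hier_badW (hL : 1000 * (d + 1) * 3 ^ d ≤ A.L) (hγ : A.α + 12 ≤ A.γ)
    (η : Tor d M → ℕ) (w : List (Let d M (K + 1))) (a : ℕ) :
    Hier (A.lvl d) (badW N1 A η w a false) (badW N1 A η w a true) := by
  have h3 : 1 ≤ 3 ^ d := Nat.one_le_pow _ _ (by norm_num)
  have hL1 : 1 ≤ A.L := by
    calc 1 ≤ 1000 * (d + 1) * 1 := by omega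
      _ ≤ 1000 * (d + 1) * 3 ^ d := Nat.mul_le_mul_left _ h3
      _ ≤ A.L := hL
  refine ⟨fun k v hv hM => hv ?_, fun k v hv hM => hv ?_⟩
  · by_cases h2 : v.2 < 2
    · exact Or.inl h2
    · right
      exact rec_of_many N1 A hL1 (by omega) k (PBadM N1 A k) η w a _ (fun u => Iff.rfl) v
        (by omega) hM
  · by_cases h2 : v.2 < 2
    · exact Or.inl h2
    · right
      have := rec_of_many N1 A hL1 (by omega) k (BadP N1 A k) η w a _ (fun u => Iff.rfl) v
        (by omega) hM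
      exact Or.inr this

/-- shifted words -/
theorem badW_sft (η : Tor d M → ℕ) (w : List (Let d M (K + 1))) (hL : 2 ≤ A.L) (hγ : 1 ≤ A.γ)
    (hτ : 1 ≤ A.τ) (u l k : ℕ) (hl : l ≤ k) (b : Bool) (v : Blk d) (hi : 2 ≤ v.2) :
    badW N1 A (stt η w (u * N1)) (w.drop (u * N1)) 0 b l v ↔
      badW N1 A η w (u % A.T d k) b l (v.1, v.2 + (u / A.T d k) * (A.ix d k / A.ix d l)) := by
  unfold badW
  have h1 : ¬ v.2 < 2 := by omega
  have h2 : ¬ v.2 + (u / A.T d k) * (A.ix d k / A.ix d l) < 2 := by omega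
  simp only [h1, h2, false_or]
  have h4 := sft_time N1 u (sft N1 (sm (A.S l) v.1) (0 + (v.2 - 2) * A.T d l) (PBad N1 A b l)) η w
  rw [← h4, Rows.sft_sft, zero_add]
  have e : u + (0 + (v.2 - 2) * A.T d l) = u % A.T d k +
      (v.2 + (u / A.T d k) * (A.ix d k / A.ix d l) - 2) * A.T d l := by
    have e1 : v.2 + (u / A.T d k) * (A.ix d k / A.ix d l) - 2 =
        (v.2 - 2) + (u / A.T d k) * (A.ix d k / A.ix d l) := by omega
    rw [e1, add_mul, mul_assoc, ix_div_T A l k hl]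
    have e2 := Nat.mod_add_div u (A.T d k)
    rw [mul_comm (A.T d k)] at e2
    omega
  rw [e]

/-- membership in a hub, shifted words: `(c, u + 3 T k)` is in the hub of its ancestor -/
theorem memb_sft (hd : 0 < d) (hL : 1000 * (d + 1) * 3 ^ d ≤ A.L) (hγ : A.α + 12 ≤ A.γ) (hτ : 1 ≤ A.τ)
    (η : Tor d M → ℕ) (w : List (Let d M (K + 1))) (u k : ℕ) (c : Pos d)
    (h : sft N1 0 u (MembE N1 A k c) η w) :
    (c, (3 + u / A.T d k) * A.ix d k) ∈ Hub (A.lvl d) (badA N1 A η w (u % A.T d k)) k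
      (anc A k c, 3 + u / A.T d k) := by
  have h3 : 1 ≤ 3 ^ d := Nat.one_le_pow _ _ (by norm_num)
  have hL1 : 2 ≤ A.L := by
    calc 2 ≤ 1000 * (d + 1) * 1 := by omega
      _ ≤ 1000 * (d + 1) * 3 ^ d := Nat.mul_le_mul_left _ h3
      _ ≤ A.L := hL
  rw [sft_time] at h
  obtain ⟨v, hv⟩ : ∃ v, v = u / A.T d k := ⟨_, rfl⟩
  rw [← hv]
  refine memb_hub A (by omega) _ k c _ fun l hl Q hQ hb hbad => ?_
  obtain ⟨g1, g2, g3⟩ := rg_time A (by omega) l k hl _ _ (by omega) Q hQ
  set z := A.ix d k / A.ix d l with hz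
  have hz1 : 1 ≤ z := ix_div_pos A (by omega) l k hl.le
  have hsucc := ix_div_succ (d := d) A (by omega) l k hl
  rw [← hz] at hsucc
  have h8 := nt_ge (d := d) A (by omega) l
  have hzz : 8 ≤ z := by
    rw [hsucc]
    exact le_trans h8 (Nat.le_mul_of_pos_right _ (ix_div_pos A (by omega) (l + 1) k hl))
  have hq : v * z + 2 ≤ Q.2 := by
    have : (3 + v - 1) * z = v * z + 2 * z := by
      rw [show 3 + v - 1 = v + 2 by omega]; ring
    omega
  obtain ⟨Q1, hQ1⟩ : ∃ Q1 : Blk d, Q1 = (Q.1, Q.2 - v * z) := ⟨_, rfl⟩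
  have hQ2 : Q = (Q1.1, Q1.2 + v * z) := by
    rw [hQ1]
    ext1
    · rfl
    · show Q.2 = Q.2 - v * z + v * z
      omega
  have hi : 2 ≤ Q1.2 := by rw [hQ1]; show 2 ≤ Q.2 - v * z; omega
  have hbW : ∀ b, badW N1 A η w (u % A.T d k) b l Q →
      badW N1 A (stt η w (u * N1)) (w.drop (u * N1)) 0 b l Q1 := by
    intro b hb
    rw [badW_sft N1 A η w hL1 (by omega) hτ u l k hl.le b Q1 hi, ← hv, ← hz]
    rwa [hQ2] at hb
  refine h l hl Q1 ?_ ?_ (hbad.imp (hbW false) (hbW true))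
  · obtain ⟨r1, r2, r3⟩ := hQ
    rw [hQ1]
    refine ⟨r1, ?_, ?_⟩
    · show (8 * d + 8) * A.n l * (3 * (A.ix d k / A.ix d (l + 1))) ≤ Q.2 - v * z + (8 * d + 8) * A.n l
      have r2' : (8 * d + 8) * A.n l * ((3 + v) * (A.ix d k / A.ix d (l + 1))) ≤
        Q.2 + (8 * d + 8) * A.n l := r2
      have e : (8 * d + 8) * A.n l * ((3 + v) * (A.ix d k / A.ix d (l + 1))) =
          (8 * d + 8) * A.n l * (3 * (A.ix d k / A.ix d (l + 1))) + v * z := by
        rw [hsucc]; unfold Prm.nt; ring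
      omega
    · show Q.2 - v * z < (8 * d + 8) * A.n l * (3 * (A.ix d k / A.ix d (l + 1)) + 3)
      have r3' : Q.2 < (8 * d + 8) * A.n l * ((3 + v) * (A.ix d k / A.ix d (l + 1)) + 3) := r3
      have e : (8 * d + 8) * A.n l * ((3 + v) * (A.ix d k / A.ix d (l + 1)) + 3) =
          (8 * d + 8) * A.n l * (3 * (A.ix d k / A.ix d (l + 1)) + 3) + v * z := by
        rw [hsucc]; unfold Prm.nt; ring
      omega
  · rw [bd_comm_shift (d := d) Q1 (anc A l c, 3 * (A.ix d k / A.ix d l)) Q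
      (anc A l c, (3 + v) * z)]
    · exact hb
    · rw [hQ1]
    · rw [hQ1]
      show ((Q.2 - v * z : ℕ) : ℤ) - ((3 * z : ℕ) : ℤ) = (Q.2 : ℤ) - (((3 + v) * z : ℕ) : ℤ)
      rw [Nat.cast_sub (by omega)]
      push_cast
      ring

end BK

end ZQ.Rows
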