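import Pool.Agent.ZP.CO1a
import Pool.Agent.ZQ.Core
import Pool.Agent.ZP.Hub
import Pool.Agent.ZP.SF1
import Pool.Agent.ZQ.E4
import Pool.Agent.ZQ.D0
import Pool.Agent.ZQ.PJ

/-! # The basic events and the routes of the environment (deterministic; for row CO1) -/

set_option autoImplicit false

open scoped ENNReal BigOperators Classical Pointwise

noncomputable section

namespace ZQ.CO1

open ZP hiding Agree AgreeW BG BadM Base BlockFacts CoreE Env EqEnv FG FOpn GoodK IsGamma LowTail Meet MeetL MembE NMemb Opn PBad PBadM POpn PastEv QK QT Route Speed StepP Sys UpTail badA badW envT foldl_stepR_fst foldl_stepR_inter foldl_stepR_mono foldl_stepR_occ foldl_stepR_region inf infMv infMv_mono infMv_occ inf_comp inf_inter inf_mono_univ inf_occ inf_pred lin mem_foldl_stepR mem_infMv muK pe rin stepI stepR visU visU_mono_univ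
open ZP.CO1 hiding R_envS R_fold R_univ envS fold_inf fopn_facts occ_envS popn_facts slow_facts slow_fold stepI_step visU_envS vis_envS vis_fold vis_univ

variable [ZQ.Thr]

open ZP hiding Agree AgreeW BG BadM Base BlockFacts CoreE Env EqEnv FG FOpn GoodK IsGamma LowTail Meet MeetL MembE NMemb Opn PBad PBadM POpn PastEv QK QT Route Speed StepP Sys UpTail badA badW envT foldl_stepR_fst foldl_stepR_inter foldl_stepR_mono foldl_stepR_occ foldl_stepR_region inf infMv infMv_mono infMv_occ inf_comp inf_inter inf_mono_univ inf_occ inf_pred lin mem_foldl_stepR mem_infMv muK pe rin stepI stepR visU visU_mono_univ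
open ZQ

variable {d : ℕ} {m : Model} {δ : ℝ} (q : Par d m δ)

/-- the infection along the letters is the infection of the environment -/
theorem fold_inf (η : Tor d q.M → ℕ) (w : List (Let d q.M (q.K + 1))) (G : Set (Pos d)) (x : Pos d)
    (hx : x ∈ G) (h0 : Thr.θ ≤ η (tv x)) (t : ℕ) :
    (w.take (t * q.N1)).foldl (stepI G) (η, {x}) =
      (cfg nbT η (units q.N1 w) t, inf nbT tv η (units q.N1 w) (fun _ => G) 0 {x} t) := by
  induction t with
  | zero =>
    rw [Nat.zero_mul, List.take_zero]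
    refine Prod.ext rfl ?_
    show ({x} : Set (Pos d)) = {z | z ∈ ({x} : Set (Pos d)) ∧ z ∈ G ∧ Thr.θ ≤ η (tv z)}
    ext z
    constructor
    · rintro rfl
      exact ⟨rfl, hx, h0⟩
    · exact fun h => h.1
  | succ t ih =>
    have hsub : inf nbT tv η (units q.N1 w) (fun _ => G) 0 {x} t ⊆ G := by
      have h1 := E1.foldl_stepI_sub G (w.take (t * q.N1)) (η, {x}) (by rintro _ rfl; exact hx)
      rw [ih] at h1
      exact h1
    rw [Nat.succ_mul, List.take_add, List.foldl_append, ih]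
    have h2 : (List.take q.N1 (List.drop (t * q.N1) w)).foldl (stepI G)
        (cfg nbT η (units q.N1 w) t, inf nbT tv η (units q.N1 w) (fun _ => G) 0 {x} t) =
        (units q.N1 w t).foldl (stepR nbT tv G)
        (cfg nbT η (units q.N1 w) t, inf nbT tv η (units q.N1 w) (fun _ => G) 0 {x} t) :=
      (E1.foldl_filterMap G _ _).symm
    rw [h2]
    refine Prod.ext (foldl_stepR_fst _ _ _ _) ?_
    show _ = ((units q.N1 w (0 + t)).foldl (stepR nbT tv G) (cfg nbT η (units q.N1 w) (0 + t),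
      inf nbT tv η (units q.N1 w) (fun _ => G) 0 {x} t ∩ G)).2
    rw [Nat.zero_add, Set.inter_eq_left.mpr hsub]

theorem R_fold (η : Tor d q.M → ℕ) (w : List (Let d q.M (q.K + 1))) (G : Set (Pos d)) (x : Pos d)
    (hx : x ∈ G) (h0 : Thr.θ ≤ η (tv x)) (t : ℕ) (y : Pos d) :
    y ∈ ((w.take (t * q.N1)).foldl (stepI G) (η, {x})).2 ↔
      (envT q η w).R (fun _ => G) 0 x t y := by
  rw [fold_inf q η w G x hx h0 t]
  constructor
  · intro h
    exact ⟨t, by omega, h⟩
  · rintro ⟨j, hj, h⟩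
    obtain rfl : t = j := by omega
    exact h

theorem vis_fold (η : Tor d q.M → ℕ) (w : List (Let d q.M (q.K + 1))) (G : Set (Pos d)) (x : Pos d)
    (hx : x ∈ G) (h0 : Thr.θ ≤ η (tv x)) (t i : ℕ) (ht : 1 ≤ t) (hi : i ≤ t * q.N1) (b : Pos d)
    (hb : b ∈ ((w.take i).foldl (stepI G) (η, {x})).2) :
    (envT q η w).vis (fun _ => G) 0 x t b := by
  obtain ⟨j, i', hj, hi', hij⟩ : ∃ j i', j < t ∧ i' ≤ q.N1 ∧ i = j * q.N1 + i' := by
    have hN := q.N1_pos
    rcases Nat.lt_or_ge i (t * q.N1) with h | h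
    · refine ⟨i / q.N1, i % q.N1, (Nat.div_lt_iff_lt_mul hN).mpr h, (Nat.mod_lt _ hN).le, ?_⟩
      rw [Nat.mul_comm]
      exact (Nat.div_add_mod i q.N1).symm
    · refine ⟨t - 1, q.N1, by omega, le_rfl, ?_⟩
      have h1 : i = t * q.N1 := le_antisymm hi h
      rw [h1]
      obtain ⟨t', rfl⟩ : ∃ t', t = t' + 1 := ⟨t - 1, by omega⟩
      rw [Nat.add_sub_cancel, Nat.succ_mul]
  have hsub : inf nbT tv η (units q.N1 w) (fun _ => G) 0 {x} j ⊆ G := by
    have h1 := E1.foldl_stepI_sub G (w.take (j * q.N1)) (η, {x}) (by rintro _ rfl; exact hx)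
    rw [fold_inf q η w G x hx h0 j] at h1
    exact h1
  rw [hij, List.take_add, List.foldl_append, fold_inf q η w G x hx h0 j] at hb
  refine ⟨j, by omega, ?_⟩
  show ∃ i ≤ (units q.N1 w (0 + j)).length, b ∈ (((units q.N1 w (0 + j)).take i).foldl
    (stepR nbT tv G) (cfg nbT η (units q.N1 w) (0 + j),
      inf nbT tv η (units q.N1 w) (fun _ => G) 0 {x} j ∩ G)).2
  rw [Nat.zero_add, Set.inter_eq_left.mpr hsub]
  refine (E1.vis_letters G ((w.drop (j * q.N1)).take q.N1) _ b).mpr ?_
  refine ⟨min i' ((w.drop (j * q.N1)).take q.N1).length, min_le_right _ _, ?_⟩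
  have h3 : ((w.drop (j * q.N1)).take q.N1).take (min i' ((w.drop (j * q.N1)).take q.N1).length) =
      (w.drop (j * q.N1)).take i' := by
    rw [List.take_take, List.length_take]
    have h4 : min (min i' (min q.N1 (w.drop (j * q.N1)).length)) q.N1 =
        min i' (w.drop (j * q.N1)).length := by omega
    rw [h4]
    rcases Nat.le_total i' (w.drop (j * q.N1)).length with h5 | h5
    · rw [Nat.min_eq_left h5]
    · rw [Nat.min_eq_right h5, List.take_length, List.take_of_length_le h5]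
  rw [h3]
  exact hb

/-! ### shifts -/

section shift

variable (η : Tor d q.M → ℕ) (w : List (Let d q.M (q.K + 1))) (z : Pos d) (u : ℕ)

/-- the shifted environment -/
def envS : Env d := envT q (fun v => stt η w (u * q.N1) (v + tv z))
  ((w.drop (u * q.N1)).map (shL (-(tv z))))

theorem R_envS (s : ℕ) (x : Pos d) (t : ℕ) (y : Pos d) :
    (envS q η w z u).R (fun _ => Set.univ) s x t y ↔
      (envT q η w).R (fun _ => Set.univ) (u + s) (x + z) (u + t) (y + z) :=
  E4.R_shift q η w z u (fun _ => Set.univ) s x t y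

theorem occ_envS (t : ℕ) (x : Pos d) :
    (envS q η w z u).occ t x ↔ (envT q η w).occ (u + t) (x + z) :=
  E4.occ_shift q η w z u t x

theorem visU_envS (s : ℕ) (x : Pos d) (j : ℕ) (b : Pos d)
    (h : b ∈ visU (envS q η w z u).nb (envS q η w z u).pr (envS q η w z u).η0 (envS q η w z u).U
      (fun _ => Set.univ) s {x} j) :
    b + z ∈ visU (envT q η w).nb (envT q η w).pr (envT q η w).η0 (envT q η w).U
      (fun _ => Set.univ) (u + s) {x + z} j := by
  obtain ⟨i, hi, hb⟩ := h
  have hx : ({x} : Set (Pos d)) = {y | y + z ∈ ({x + z} : Set (Pos d))} := by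
    ext w
    simp
  have h1 : inf nbT tv (E4.η' q η w z u) (units q.N1 (E4.l' q w z u)) (fun _ => Set.univ) s {x} j =
      {y | y + z ∈ inf nbT tv η (units q.N1 w) (fun _ => Set.univ) (u + s) {x + z} j} := by
    have h2 := E4.inf_shift q η w z u (fun _ => Set.univ) s {x + z} j
    rw [← hx] at h2
    exact h2
  have h3 : units q.N1 (E4.l' q w z u) (s + j) =
      (units q.N1 w (u + (s + j))).map (E4.shB (-(tv z))) := E4.units_shift _ _ _ _ _
  change i ≤ (units q.N1 (E4.l' q w z u) (s + j)).length at hi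
  change b ∈ (((units q.N1 (E4.l' q w z u) (s + j)).take i).foldl (stepR nbT tv Set.univ)
    (cfg nbT (E4.η' q η w z u) (units q.N1 (E4.l' q w z u)) (s + j),
      inf nbT tv (E4.η' q η w z u) (units q.N1 (E4.l' q w z u)) (fun _ => Set.univ) s {x} j ∩
        Set.univ)).2 at hb
  rw [h1, E4.cfg_shift, h3, ← List.map_take] at hb
  rw [h3, List.length_map] at hi
  have h4 := E4.foldl_shift z Set.univ ((units q.N1 w (u + (s + j))).take i)
    (cfg nbT η (units q.N1 w) (u + (s + j)))
    (inf nbT tv η (units q.N1 w) (fun _ => Set.univ) (u + s) {x + z} j ∩ Set.univ)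
  have h5 := congrArg Prod.snd h4
  refine ⟨i, ?_, ?_⟩
  · show i ≤ (units q.N1 w (u + s + j)).length
    rw [Nat.add_assoc]
    exact hi
  · show b + z ∈ (((units q.N1 w (u + s + j)).take i).foldl (stepR nbT tv Set.univ)
      (cfg nbT η (units q.N1 w) (u + s + j),
        inf nbT tv η (units q.N1 w) (fun _ => Set.univ) (u + s) {x + z} j ∩ Set.univ)).2
    rw [Nat.add_assoc]
    have h6 : b ∈ {y : Pos d | y + z ∈ (((units q.N1 w (u + (s + j))).take i).foldl
        (stepR nbT tv Set.univ) (cfg nbT η (units q.N1 w) (u + (s + j)),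
        inf nbT tv η (units q.N1 w) (fun _ => Set.univ) (u + s) {x + z} j ∩ Set.univ)).2} :=
      (Set.ext_iff.mp h5 b).mp hb
    exact h6

theorem vis_envS (s : ℕ) (x : Pos d) (t : ℕ) (b : Pos d)
    (h : (envS q η w z u).vis (fun _ => Set.univ) s x t b) :
    (envT q η w).vis (fun _ => Set.univ) (u + s) (x + z) (u + t) (b + z) := by
  obtain ⟨j, hj, hb⟩ := h
  exact ⟨j, by omega, visU_envS q η w z u s x j b hb⟩

end shift

/-! ### the level `0` events -/

section lvl0

variable (η : Tor d q.M → ℕ) (w : List (Let d q.M (q.K + 1))) (z : Pos d) (u L τ : ℕ)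

theorem R_univ {E : Env d} {G : ℕ → Set (Pos d)} {s t : ℕ} {x y : Pos d} (h : E.R G s x t y) :
    E.R (fun _ => Set.univ) s x t y := Rows.R_mono E (fun _ => Set.subset_univ _) h

theorem vis_univ {E : Env d} {G : ℕ → Set (Pos d)} {s t : ℕ} {x y : Pos d} (h : E.vis G s x t y) :
    E.vis (fun _ => Set.univ) s x t y := Rows.vis_mono E (fun _ => Set.subset_univ _) h

theorem popn_facts (hτ : 1 ≤ τ) (h : sft q.N1 (sm L z) u (POpn q.N1 L τ) η w) :
    (∃ x ∈ cell L z, (envT q η w).occ u x) ∧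
    (∀ x ∈ cell L z, (envT q η w).occ u x → ∀ z' : Pos d, n1 (z' - z) ≤ 1 →
      ∃ y ∈ cell L z', (envT q η w).R (fun _ => Set.univ) u x (u + τ) y) ∧
    (∀ x ∈ cell L z, (envT q η w).occ u x → ∀ b ∈ cell L z,
      (envT q η w).vis (fun _ => Set.univ) u x (u + τ) b) := by
  obtain ⟨h1, h2, h3⟩ := h
  have hocc : ∀ x, Thr.θ ≤ (fun v => stt η w (u * q.N1) (v + tv (sm L z))) (tv x) ↔
      (envT q η w).occ u (x + sm L z) := fun x => by
    have := occ_envS q η w (sm L z) u 0 x
    exact this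
  have hLL : L ≤ L ^ 2 := Nat.le_self_pow (by norm_num) L
  refine ⟨?_, ?_, ?_⟩
  · obtain ⟨x, hx, hx0⟩ := h1
    refine ⟨x + sm L z, ?_, (hocc x).mp hx0⟩
    rw [mem_cell_sm, add_sub_cancel_right]
    exact hx
  · intro x hx hx0 z' hz'
    rw [mem_cell_sm] at hx
    have hx1 : Thr.θ ≤ (fun v => stt η w (u * q.N1) (v + tv (sm L z))) (tv (x - sm L z)) := by
      rw [hocc, sub_add_cancel]
      exact hx0
    obtain ⟨y, hy, hy1⟩ := h2 (x - sm L z) hx hx1 (z' - z) hz'
    refine ⟨y + sm L z, ?_, ?_⟩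
    · have := cell_add z L (z' - z) y hy
      rwa [sub_add_cancel] at this
    · have h4 := (R_fold q _ _ _ (x - sm L z) ((cell_supn L hx).trans hLL) hx1 τ y).mp hy1
      have h5 := (R_envS q η w (sm L z) u 0 (x - sm L z) τ y).mp (R_univ h4)
      rwa [sub_add_cancel] at h5
  · intro x hx hx0 b hb
    rw [mem_cell_sm] at hx hb
    have hx1 : Thr.θ ≤ (fun v => stt η w (u * q.N1) (v + tv (sm L z))) (tv (x - sm L z)) := by
      rw [hocc, sub_add_cancel]
      exact hx0
    obtain ⟨i, hi, hbi⟩ := h3 (x - sm L z) hx hx1 (b - sm L z) hb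
    have h4 := vis_fold q _ _ _ (x - sm L z) ((cell_supn L hx).trans hLL) hx1 τ i hτ hi _ hbi
    have h5 := vis_envS q η w (sm L z) u 0 (x - sm L z) τ (b - sm L z) (vis_univ h4)
    rwa [sub_add_cancel, sub_add_cancel] at h5

theorem fopn_facts (h : sft q.N1 (sm L z) u (FOpn q.N1 L τ) η w) :
    ∀ x ∈ cell L z, (envT q η w).occ u x → ∀ b ∈ cell L z, (envT q η w).occ (u + τ) b →
      (envT q η w).R (fun _ => Set.univ) u x (u + τ) b := by
  have hLL : L ≤ L ^ 2 := Nat.le_self_pow (by norm_num) L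
  intro x hx hx0 b hb hb0
  rw [mem_cell_sm] at hx hb
  have hx1 : Thr.θ ≤ (fun v => stt η w (u * q.N1) (v + tv (sm L z))) (tv (x - sm L z)) := by
    have := (occ_envS q η w (sm L z) u 0 (x - sm L z)).mpr (by rwa [sub_add_cancel])
    exact this
  have hb1 : Thr.θ ≤ stt (fun v => stt η w (u * q.N1) (v + tv (sm L z)))
      ((w.drop (u * q.N1)).map (shL (-(tv (sm L z))))) (τ * q.N1) (tv (b - sm L z)) := by
    have h1 := (occ_envS q η w (sm L z) u τ (b - sm L z)).mpr (by rwa [sub_add_cancel])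
    have h2 := E1.cfg_eq q.N1 (fun v => stt η w (u * q.N1) (v + tv (sm L z)))
      ((w.drop (u * q.N1)).map (shL (-(tv (sm L z))))) τ
    have h3 : Thr.θ ≤ (cfg nbT (fun v => stt η w (u * q.N1) (v + tv (sm L z)))
      (units q.N1 ((w.drop (u * q.N1)).map (shL (-(tv (sm L z)))))) τ) (tv (b - sm L z)) := h1
    rw [h2] at h3
    exact h3
  have h2 := h (x - sm L z) hx hx1 (b - sm L z) hb hb1
  have h4 := (R_fold q _ _ _ (x - sm L z) ((cell_supn L hx).trans hLL) hx1 τ _).mp h2
  have h5 := (R_envS q η w (sm L z) u 0 (x - sm L z) τ _).mp (R_univ h4)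
  rwa [sub_add_cancel, sub_add_cancel] at h5

end lvl0

/-! ### slow blocks -/

section slow

theorem stepI_step {M K : ℕ} (G : Set (Pos d)) (s s' : (Tor d M → ℕ) × Set (Pos d))
    (h1 : s.1 = s'.1) (h2 : s.2 ⊆ s'.2) (hG : ∀ y ∈ s'.2, y ∈ G ∧ ∀ e : Dir d, y + dv e ∈ G)
    (a : Let d M (K + 1)) :
    (stepI Set.univ s a).1 = (stepI0 G s' a).1 ∧ (stepI Set.univ s a).2 ⊆ (stepI0 G s' a).2 := by
  obtain ⟨η, A⟩ := s
  obtain ⟨η', B⟩ := s'
  obtain rfl : η = η' := h1
  change A ⊆ B at h2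
  unfold stepI stepI0
  rw [← Rows.toLab_prj]
  cases hb : toLab a with
  | none => exact ⟨rfl, h2⟩
  | some l =>
    obtain ⟨x, j, e⟩ := l
    cases j with
    | zero =>
      refine ⟨rfl, ?_⟩
      rintro z ⟨hz, -⟩
      exact h2 hz.1
    | succ k =>
      refine ⟨rfl, ?_⟩
      rintro z ⟨hz, -⟩
      have hz' : z ∈ ZI.infMv nbT tv η B (x, k, e) := ZI.infMv_mono η (x, k, e) h2 hz.1
      refine ⟨hz', ?_⟩
      unfold ZI.infMv at hz'
      split_ifs at hz' with hk
      · rcases hz' with h | h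
        · exact (hG z h.1).1
        · have := (hG _ h.1).2 e
          change z - dv e + dv e ∈ G at this
          rwa [sub_add_cancel] at this
      · exact (hG z hz').1

theorem slow_fold {M K : ℕ} (S : ℕ) (hS : 2 ≤ S) (η : Tor d M → ℕ) (x : Pos d)
    (w : List (Let d M (K + 1))) (N : ℕ)
    (h : ∀ i ≤ N, ∀ y ∈ ((w.take i).foldl (stepI0 {z | supn (z - x) ≤ S}) (η, {x})).2,
      2 * supn (y - x) ≤ S) : ∀ i ≤ N,
    ((w.take i).foldl (stepI Set.univ) (η, {x})).1 =
        ((w.take i).foldl (stepI0 {z | supn (z - x) ≤ S}) (η, {x})).1 ∧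
      ((w.take i).foldl (stepI Set.univ) (η, {x})).2 ⊆
        ((w.take i).foldl (stepI0 {z | supn (z - x) ≤ S}) (η, {x})).2 := by
  intro i
  induction i with
  | zero => intro _; exact ⟨rfl, subset_rfl⟩
  | succ i ih =>
    intro hi
    obtain ⟨h1, h2⟩ := ih (by omega)
    rcases Nat.lt_or_ge i w.length with h3 | h3
    · rw [← List.take_concat_get' w i h3, List.foldl_append, List.foldl_append]
      refine stepI_step _ _ _ h1 h2 ?_ _
      intro y hy
      have h4 := h i (by omega) y hy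
      refine ⟨?_, fun e => ?_⟩
      · show supn (y - x) ≤ S
        omega
      · show supn (y + dv e - x) ≤ S
        have h5 : y + dv e - x = (y - x) + dv e := by abel
        rw [h5, supn_le_iff]
        intro j
        have h6 := (supn_le_iff (y - x) (S / 2)).mp (by omega) j
        have h7 := (supn_le_iff (dv e) 1).mp (supn_dv_le e) j
        have h8 : ((y - x) + dv e) j = (y - x) j + dv e j := rfl
        rw [h8]
        omega
    · have h4 : w.take (i + 1) = w.take i := by
        rw [List.take_of_length_le h3, List.take_of_length_le (by omega)]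
      rw [h4]
      exact ⟨h1, h2⟩

theorem slow_facts (η : Tor d q.M → ℕ) (w : List (Let d q.M (q.K + 1))) (z : Pos d) (u S U : ℕ)
    (hS : 2 ≤ S) (h : ¬ sft q.N1 (sm S z) u (Fast q.N1 S U) η w) (x : Pos d) (hx : x ∈ cell S z)
    (t : ℕ) (ht : t ≤ U) (y : Pos d) (hR : (envT q η w).R (fun _ => Set.univ) u x (u + t) y) :
    2 * supn (y - x) ≤ S := by
  rw [mem_cell_sm] at hx
  have hocc : (envT q η w).occ u x := (Rows.R_start _ hR).1
  have hx1 : Thr.θ ≤ (fun v => stt η w (u * q.N1) (v + tv (sm S z))) (tv (x - sm S z)) := by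
    have := (occ_envS q η w (sm S z) u 0 (x - sm S z)).mpr (by rwa [sub_add_cancel])
    exact this
  have h1 : (envS q η w (sm S z) u).R (fun _ => Set.univ) 0 (x - sm S z) t (y - sm S z) := by
    rw [R_envS, sub_add_cancel, sub_add_cancel]
    exact hR
  have h2 := (R_fold q _ _ Set.univ (x - sm S z) (Set.mem_univ _) hx1 t (y - sm S z)).mpr h1
  have h3 : ∀ i ≤ U * q.N1, ∀ y' ∈ ((((w.drop (u * q.N1)).map (shL (-(tv (sm S z))))).take i).foldl
      (stepI0 {z' | supn (z' - (x - sm S z)) ≤ S})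
      ((fun v => stt η w (u * q.N1) (v + tv (sm S z))), {x - sm S z})).2,
      2 * supn (y' - (x - sm S z)) ≤ S := by
    intro i hi y' hy'
    by_contra hcon
    refine h ⟨x - sm S z, ?_, lt_of_lt_of_le Thr.pos hx1, i, hi, y', by omega, hy'⟩
    have := cell_supn S hx
    omega
  have h4 := slow_fold S hS _ (x - sm S z) _ (U * q.N1) h3 (t * q.N1)
    (Nat.mul_le_mul_right _ ht)
  have h5 := h3 (t * q.N1) (Nat.mul_le_mul_right _ ht) _ (h4.2 h2)
  have h6 : y - sm S z - (x - sm S z) = y - x := by abel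
  rwa [h6] at h5

end slow

end ZQ.CO1
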