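import Pool.Agent.ZP.CO1b
import Pool.Agent.ZQ.CO1a
import Pool.Agent.ZQ.BKb1
import Pool.Agent.ZP.HB
import Pool.Agent.ZQ.SF3

/-! # Routes through the hubs (deterministic; for row CO1) -/

set_option autoImplicit false

open scoped ENNReal BigOperators Classical Pointwise

noncomputable section

namespace ZQ.CO1

open ZP hiding Agree AgreeW BG BadM Base BlockFacts CoreE Env EqEnv FG FOpn GoodK IsGamma LowTail Meet MeetL MembE NMemb Opn PBad PBadM POpn PastEv QK QT Route Speed StepP Sys UpTail badA badW envT foldl_stepR_fst foldl_stepR_inter foldl_stepR_mono foldl_stepR_occ foldl_stepR_region inf infMv infMv_mono infMv_occ inf_comp inf_inter inf_mono_univ inf_occ inf_pred lin mem_foldl_stepR mem_infMv muK pe rin stepI stepR visU visU_mono_univ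
open ZP.CO1 hiding Fwd R_envS R_fold R_univ entry envS fold_inf fopn_facts good_zero not_fast occ_envS opath_route popn_facts route_pts slow_facts slow_fold stepI_step visU_envS vis_envS vis_fold vis_univ

variable [ZQ.Thr]

open ZP hiding Agree AgreeW BG BadM Base BlockFacts CoreE Env EqEnv FG FOpn GoodK IsGamma LowTail Meet MeetL MembE NMemb Opn PBad PBadM POpn PastEv QK QT Route Speed StepP Sys UpTail badA badW envT foldl_stepR_fst foldl_stepR_inter foldl_stepR_mono foldl_stepR_occ foldl_stepR_region inf infMv infMv_mono infMv_occ inf_comp inf_inter inf_mono_univ inf_occ inf_pred lin mem_foldl_stepR mem_infMv muK pe rin stepI stepR visU visU_mono_univ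
open ZP.Rows hiding PP_rev R_mono R_occ R_of_noRec R_restrict R_rev R_route R_self R_split R_start R_toZI R_trans R_vis agree_take badW_sft bh_chain cfg_toZI chain_eq chain_shift envT_toZI foldl_stepR_noRec foldl_stepR_toZI hier_badW inf_mono inf_noRec inf_split inf_start inf_toZI mem_inf_iff memb_sft occ_toZI pe_path rword_path start_inv visU_mono visU_noRec visU_split visU_toZI vis_mono vis_mono_time vis_of_R vis_of_R' vis_of_noRec vis_restrict vis_toZI
open ZQ.Rows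
open ZQ

variable {d : ℕ}

/-! ### numbers -/

section num

variable (A : Prm)

end num

section rt

variable {m : Model} {δ : ℝ} (q : Par d m δ) (A : Prm)
variable (η : Tor d q.M → ℕ) (w : List (Let d q.M (q.K + 1)))

/-- the blocks of the level `k` are not bad -/
def Fwd (k H : ℕ) : Prop := ∀ (x : Pos d) (t : ℕ), t + 6 * A.T d k ≤ H → ∀ b,
  ¬ sft q.N1 x t (PBad q.N1 A b k) η w

variable {q A η w}

theorem Fwd.good {k H : ℕ} (h : Fwd q A η w k H) {a i : ℕ} (z : Pos d) (hi : 2 ≤ i)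
    (hH : a + (i + 4) * A.T d k ≤ H) : ¬ badA q.N1 A η w a k (z, i) := by
  have h1 : a + (i - 2) * A.T d k + 6 * A.T d k ≤ H := by
    obtain ⟨i, rfl⟩ : ∃ i', i = i' + 2 := ⟨i - 2, by omega⟩
    rw [Nat.add_sub_cancel]
    nlinarith [hH]
  rintro (h2 | h2)
  · rcases h2 with h2 | h2
    · simp only at h2; omega
    · exact h _ _ h1 _ h2
  · rcases h2 with h2 | h2
    · simp only at h2; omega
    · exact h _ _ h1 _ h2

theorem good_zero {a : ℕ} {P : Blk d} (h : ¬ badA q.N1 A η w a 0 P) :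
    sft q.N1 (sm A.L P.1) (a + P.2 * A.τ) (POpn q.N1 A.L A.τ) η w := by
  unfold badA Bad at h
  push Not at h
  have h1 := h.1
  unfold badW at h1
  push Not at h1
  obtain ⟨h2, h3⟩ := h1
  rw [S_zero, T_zero] at h3
  have h4 : PBad (d := d) (M := q.M) (K := q.K) q.N1 A false 0 =
      sft q.N1 0 (2 * A.τ) (fun η w => ¬ POpn q.N1 A.L A.τ η w) := rfl
  rw [h4, sft_sft, add_zero] at h3
  have h5 : a + (P.2 - 2) * A.τ + 2 * A.τ = a + P.2 * A.τ := by
    obtain ⟨i, hi⟩ : ∃ i', P.2 = i' + 2 := ⟨P.2 - 2, by omega⟩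
    rw [hi, Nat.add_sub_cancel]
    ring
  rw [h5] at h3
  exact not_not.mp h3

theorem not_fast {a k : ℕ} {v : Blk d} (h : ¬ badA q.N1 A η w a (k + 1) v) :
    ¬ sft q.N1 (sm (A.S (k + 1)) v.1) (a + v.2 * A.T d (k + 1))
      (Fast q.N1 (A.S (k + 1)) (A.U d (k + 1))) η w := by
  unfold badA Bad at h
  push Not at h
  have h1 := h.2
  unfold badW at h1
  push Not at h1
  obtain ⟨h2, h3⟩ := h1
  intro h4
  apply h3
  have h5 : a + v.2 * A.T d (k + 1) = a + (v.2 - 2) * A.T d (k + 1) + 2 * A.T d (k + 1) := by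
    obtain ⟨i, hi⟩ : ∃ i', v.2 = i' + 2 := ⟨v.2 - 2, by omega⟩
    rw [hi, Nat.add_sub_cancel]
    ring
  rw [h5, ← add_zero (sm (A.S (k + 1)) v.1), ← sft_sft] at h4
  exact Or.inl h4

/-- open paths are followed by routes -/
theorem opath_route (hτ : 1 ≤ A.τ) {a : ℕ} {P P' : Blk d} (h : OPath (badA q.N1 A η w a) P P') :
    ∀ x ∈ cell A.L P.1, (envT q η w).occ (a + P.2 * A.τ) x → ∃ y ∈ cell A.L P'.1,
      (envT q η w).R (fun _ => Set.univ) (a + P.2 * A.τ) x (a + P'.2 * A.τ) y := by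
  intro x hx h0
  induction h with
  | refl => exact ⟨x, hx, R_self _ h0 (Set.mem_univ _)⟩
  | tail h1 h2 ih =>
    rename_i Q Q'
    obtain ⟨y, hy, hR⟩ := ih
    obtain ⟨h3, h4, h5⟩ := h2
    obtain ⟨-, h6, -⟩ := popn_facts q η w Q.1 (a + Q.2 * A.τ) A.L A.τ hτ (good_zero h3)
    obtain ⟨y', hy', hR'⟩ := h6 y hy (R_occ _ hR) Q'.1 h5
    refine ⟨y', hy', R_trans _ hR ?_⟩
    have h7 : a + Q'.2 * A.τ = a + Q.2 * A.τ + A.τ := by rw [h4]; ring
    rw [h7]
    exact hR'

theorem route_pts {E : Env d} {s t : ℕ} {x y : Pos d} (h : E.R (fun _ => Set.univ) s x t y) :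
    ∃ Z : ℕ → Pos d, Z s = x ∧ Z t = y ∧ ∀ t1 t2, s ≤ t1 → t1 ≤ t2 → t2 ≤ t →
      E.R (fun _ => Set.univ) t1 (Z t1) t2 (Z t2) := by
  obtain ⟨Z, h1, h2, h3⟩ := R_route E h
  refine ⟨Z, h1, h2, ?_⟩
  have hocc : ∀ t1, s ≤ t1 → t1 ≤ t → E.occ t1 (Z t1) := by
    intro t1 h4 h5
    rcases Nat.lt_or_ge t1 t with h6 | h6
    · exact R_occ _ (h3 t1 h4 h6).2.1
    · obtain rfl : t1 = t := le_antisymm h5 h6
      rw [h2]
      exact R_occ _ h
  intro t1 t2 h4 h5
  induction t2, h5 using Nat.le_induction with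
  | base => intro h6; exact R_self _ (hocc t1 h4 h6) (Set.mem_univ _)
  | succ t2 h5 ih =>
    intro h6
    exact R_trans _ (ih (by omega)) (h3 t2 (by omega) (by omega)).2.2.1

/-- entrance of a route -/
theorem entry (hd : 0 < d) (hL : 1000 * (d + 1) * 3 ^ d ≤ A.L) (hγ : A.α + 12 ≤ A.γ)
    (hτ : 1 ≤ A.τ) {k H : ℕ} (hf : Fwd q A η w k H) {a j t : ℕ} {x y : Pos d}
    (hj : 2 ≤ j) (hjH : a + (j + 4) * A.T d k ≤ H) (ht : a + j * A.T d k + A.U d k ≤ t)
    (hR : (envT q η w).R (fun _ => Set.univ) (a + j * A.T d k) x t y) :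
    ∃ z : Pos d, supn (z - ci (A.S k) x) ≤ 1 ∧ ∃ P ∈ Hub (A.lvl d) (badA q.N1 A η w a) k (z, j),
      a + P.2 * A.τ ≤ t ∧ ∃ p ∈ cell A.L P.1,
        (envT q η w).R (fun _ => Set.univ) (a + j * A.T d k) x (a + P.2 * A.τ) p := by
  have hL1 : 1 ≤ A.L := by
    have : 1 ≤ 3 ^ d := Nat.one_le_pow _ _ (by norm_num)
    nlinarith [Nat.zero_le d]
  have hL8 : 8 ≤ A.L := by
    have : 1 ≤ 3 ^ d := Nat.one_le_pow _ _ (by norm_num)
    nlinarith [Nat.zero_le d]
  obtain ⟨Z, hZ1, hZ2, hZ⟩ := route_pts hR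
  have hSk : 1 ≤ A.S k := hL1.trans (L_le_S A hL1 (by omega) k)
  obtain ⟨z, hz, P, hP, hP1, hP2, hP3⟩ := hub_entry hd (fit_lvl A hd hL hγ)
    (hier_badW q.N1 A hL hγ η w a) A.S (A.T d) (A.U d) (by rw [S_zero]; exact hL1)
    (by rw [T_zero]; exact hτ) (fun k => S_succ A (by omega) k) (fun k => T_succ A k) rfl
    (fun k => A.S k ^ (A.α + 4)) (fun k => rfl) (nn_le A hL1 hγ) (U_le_T A hL1 hγ)
    (fun k => hL8.trans (n_ge A hL1 (by omega) k)) (fun k => cnt_le A hL (by omega) k)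
    (fun i => Z (a + i)) k (ci (A.S k) x, j) (fun z _ => hf.good z hj hjH)
    (by
      intro k' v' hv' h1 h2 h3 t' ht'
      simp only at h1 h2
      have h4 := hZ (a + v'.2 * A.T d (k' + 1)) (a + v'.2 * A.T d (k' + 1) + t') (by omega)
        (by omega) (by omega)
      have h5 := slow_facts q η w v'.1 (a + v'.2 * A.T d (k' + 1)) (A.S (k' + 1))
        (A.U d (k' + 1)) (by have := L_le_S A hL1 (by omega) (k' + 1); omega) (not_fast hv')
        _ h3 t' ht' _ h4
      rw [Nat.add_assoc a] at h5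
      exact h5)
    (by
      show Z (a + j * A.T d k) ∈ cell (A.S k) (ci (A.S k) x)
      rw [hZ1]
      exact mem_ci hSk x)
  rw [T_zero] at hP1 hP2 hP3
  simp only at hP1 hP2
  rw [S_zero] at hP3
  refine ⟨z, hz, P, hP, by omega, Z (a + P.2 * A.τ), hP3, ?_⟩
  have := hZ (a + j * A.T d k) (a + P.2 * A.τ) (by omega) (by omega) (by omega)
  rwa [hZ1] at this

end rt

end ZQ.CO1
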