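import Pool.Agent.ZP.CO1
import Pool.Agent.ZQ.CO1b

/-! # Row CO1: from the core event to the properties of routes (deterministic, text M7) -/

set_option autoImplicit false

open scoped ENNReal BigOperators Classical Pointwise

noncomputable section

namespace ZQ.CO1

open ZP hiding Agree AgreeW BG BadM Base BlockFacts CoreE Env EqEnv FG FOpn GoodK IsGamma LowTail Meet MeetL MembE NMemb Opn PBad PBadM POpn PastEv QK QT Route Speed StepP Sys UpTail badA badW envT foldl_stepR_fst foldl_stepR_inter foldl_stepR_mono foldl_stepR_occ foldl_stepR_region inf infMv infMv_mono infMv_occ inf_comp inf_inter inf_mono_univ inf_occ inf_pred lin mem_foldl_stepR mem_infMv muK pe rin stepI stepR visU visU_mono_univ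
open ZP.CO1 hiding Fwd R_envS R_fold R_univ alive entry envS fold_inf fopn_facts good_zero not_fast occ_envS opath_route popn_facts reach route_pts slow_facts slow_fold stepI_step visU_envS vis_envS vis_fold vis_univ

variable [ZQ.Thr]

open ZP hiding Agree AgreeW BG BadM Base BlockFacts CoreE Env EqEnv FG FOpn GoodK IsGamma LowTail Meet MeetL MembE NMemb Opn PBad PBadM POpn PastEv QK QT Route Speed StepP Sys UpTail badA badW envT foldl_stepR_fst foldl_stepR_inter foldl_stepR_mono foldl_stepR_occ foldl_stepR_region inf infMv infMv_mono infMv_occ inf_comp inf_inter inf_mono_univ inf_occ inf_pred lin mem_foldl_stepR mem_infMv muK pe rin stepI stepR visU visU_mono_univ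
open ZP.Rows hiding PP_rev R_mono R_occ R_of_noRec R_restrict R_rev R_route R_self R_split R_start R_toZI R_trans R_vis agree_take badW_sft bh_chain cfg_toZI chain_eq chain_shift core_route envT_toZI foldl_stepR_noRec foldl_stepR_toZI hier_badW inf_mono inf_noRec inf_split inf_start inf_toZI mem_inf_iff memb_sft occ_toZI pe_path rword_path start_inv visU_mono visU_noRec visU_split visU_toZI vis_mono vis_mono_time vis_of_R vis_of_R' vis_of_noRec vis_restrict vis_toZI
open ZQ.Rows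
open ZQ

variable {d : ℕ}

/-! ### indices of cells -/

section rt

variable {m : Model} {δ : ℝ} {q : Par d m δ} {A : Prm}
variable {η : Tor d q.M → ℕ} {w : List (Let d q.M (q.K + 1))}

/-- alive at all times -/
theorem alive (hd : 0 < d) (hL : 1000 * (d + 1) * 3 ^ d ≤ A.L) (hγ : A.α + 12 ≤ A.γ)
    (hτ : 1 ≤ A.τ) {k H : ℕ} (hf : Fwd q A η w k H) {s : ℕ} {x : Pos d} (hs : 3 * A.T d k ≤ s)
    (h : FG (envT q η w) (16 * A.T d k) s x) (t : ℕ) (hst : s ≤ t) (htH : t + 6 * A.T d k ≤ H) :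
    ∃ y, (envT q η w).R (fun _ => Set.univ) s x t y := by
  have hL1 : 1 ≤ A.L := by
    have : 1 ≤ 3 ^ d := Nat.one_le_pow _ _ (by norm_num)
    nlinarith [Nat.zero_le d]
  have hT : 1 ≤ A.T d k := T_pos A hL1 (by omega) hτ k
  obtain ⟨y16, h16⟩ := h
  rcases Nat.lt_or_ge t (s + 16 * A.T d k) with h1 | h1
  · obtain ⟨z, -, hz, -⟩ := R_split _ h16 t hst h1
    exact ⟨z, hz⟩
  · have hsT : s % A.T d k + s / A.T d k * A.T d k = s := by
      rw [Nat.mul_comm]; exact Nat.mod_add_div s _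
    obtain ⟨a, ha⟩ : ∃ a, a = s % A.T d k := ⟨_, rfl⟩
    obtain ⟨j, hj⟩ : ∃ j, j = s / A.T d k := ⟨_, rfl⟩
    rw [← ha, ← hj] at hsT
    have hj3 : 3 ≤ j := by
      rw [hj]
      exact (Nat.le_div_iff_mul_le (by omega)).mpr hs
    have hU := U_le_T (d := d) A hL1 hγ k
    have hjH : a + (j + 4) * A.T d k ≤ H := by
      have : a + (j + 4) * A.T d k = s + 4 * A.T d k := by rw [← hsT]; ring
      omega
    have h16' : (envT q η w).R (fun _ => Set.univ) (a + j * A.T d k) x (s + 16 * A.T d k) y16 := by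
      rw [hsT]; exact h16
    obtain ⟨z, -, P, hP, hPt, p, hp, hRp⟩ := entry hd hL hγ hτ hf (by omega : 2 ≤ j) hjH
      (by omega) h16'
    obtain ⟨J, hJ⟩ : ∃ J, J = (t - a) / A.T d k + 1 := ⟨_, rfl⟩
    have hta : a ≤ t := by omega
    have hJ1 : t < a + J * A.T d k := by
      have h2 := Nat.lt_div_mul_add (a := t - a) (b := A.T d k) (by omega)
      have h3 : J * A.T d k = (t - a) / A.T d k * A.T d k + A.T d k := by rw [hJ]; ring
      omega
    have hJ2 : a + J * A.T d k ≤ t + A.T d k := by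
      have h2 := Nat.div_mul_le_self (t - a) (A.T d k)
      have h3 : J * A.T d k = (t - a) / A.T d k * A.T d k + A.T d k := by rw [hJ]; ring
      omega
    have hjJ : j < J := by
      by_contra hcon
      have : J * A.T d k ≤ j * A.T d k := Nat.mul_le_mul_right _ (by omega)
      omega
    have hgood : ∀ z i, j ≤ i → i ≤ J → ¬ badA q.N1 A η w a k (z, i) := by
      intro z i hi1 hi2
      refine hf.good z (by omega) ?_
      have : (i + 4) * A.T d k ≤ (J + 4) * A.T d k := Nat.mul_le_mul_right _ (by omega)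
      have h3 : (J + 4) * A.T d k = J * A.T d k + 4 * A.T d k := by ring
      omega
    obtain ⟨P', hP', hP't⟩ := Hub_nonempty (fit_lvl A hd hL hγ) (hier_badW q.N1 A hL hγ η w a) k
      (z, J) (hgood z J (by omega) le_rfl)
    have hO := hub_chain (fit_lvl A hd hL hγ) (hier_badW q.N1 A hL hγ η w a) k (z, j) (z, J) hjJ
      (by simp [n1_zero]) hgood P P' hP hP'
    obtain ⟨y, -, hy⟩ := opath_route hτ hO p hp (R_occ _ hRp)
    rw [hsT] at hRp
    have hR := R_trans _ hRp hy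
    have h4 : P'.2 * A.τ = J * A.T d k := by
      rw [hP't, t_eq, Prm.T]
      ring
    rw [h4] at hR
    obtain ⟨y', -, hy', -⟩ := R_split _ hR t hst hJ1
    exact ⟨y', hy'⟩

/-- a route from a forward good point to the cell of a block in a hub -/
theorem reach (hd : 0 < d) (hL : 1000 * (d + 1) * 3 ^ d ≤ A.L) (hγ : A.α + 12 ≤ A.γ)
    (hτ : 1 ≤ A.τ) {k H Cv r : ℕ} (hf : Fwd q A η w k H)
    (hsp : ∀ s t x y, s ≤ t → t ≤ H → (envT q η w).R (fun _ => Set.univ) s x t y →
      nrm (y - x) ≤ Cv * ((t : ℝ) - s) + r)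
    {s : ℕ} {x : Pos d} (hs : 3 * A.T d k ≤ s) (hsH : s + 16 * A.T d k ≤ H)
    (h : FG (envT q η w) (16 * A.T d k) s x) (a j' : ℕ) (ha : a < A.T d k) (c : Pos d)
    (hc : (c, j' * A.ix d k) ∈ Hub (A.lvl d) (badA q.N1 A η w a) k (anc A k c, j'))
    (hj' : a + (j' + 4) * A.T d k ≤ H) (D0 X : ℕ) (hD0 : supn (sm A.L c - x) ≤ D0)
    (hX : D0 + (Cv * A.T d k + r) ≤ X * A.S k)
    (hnum : s + (d * (X + 1) + 2) * A.T d k ≤ a + j' * A.T d k) :
    ∃ y ∈ cell A.L c, (envT q η w).R (fun _ => Set.univ) s x (a + j' * A.T d k) y := by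
  have hL1 : 1 ≤ A.L := by
    have : 1 ≤ 3 ^ d := Nat.one_le_pow _ _ (by norm_num)
    nlinarith [Nat.zero_le d]
  have hT : 1 ≤ A.T d k := T_pos A hL1 (by omega) hτ k
  have hSk : 1 ≤ A.S k := hL1.trans (L_le_S A hL1 (by omega) k)
  have hU := U_le_T (d := d) A hL1 hγ k
  obtain ⟨y16, h16⟩ := h
  obtain ⟨j1, hj1⟩ : ∃ J, J = (s - a) / A.T d k + 1 := ⟨_, rfl⟩
  have h3 : j1 * A.T d k = (s - a) / A.T d k * A.T d k + A.T d k := by rw [hj1]; ring
  have h4 : s < a + j1 * A.T d k := by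
    have h2 := Nat.lt_div_mul_add (a := s - a) (b := A.T d k) (by omega)
    omega
  have h5 : a + j1 * A.T d k ≤ s + A.T d k := by
    have h2 := Nat.div_mul_le_self (s - a) (A.T d k)
    omega
  have h6 : 2 ≤ j1 := by
    by_contra hcon
    have : j1 * A.T d k ≤ 1 * A.T d k := Nat.mul_le_mul_right _ (by omega)
    omega
  obtain ⟨x1, -, hx1, hx1'⟩ := R_split _ h16 (a + j1 * A.T d k) h4.le (by omega)
  have h7 : supn (x1 - x) ≤ Cv * A.T d k + r := by
    refine supn_of_nrm ((hsp _ _ _ _ h4.le (by omega) hx1).trans ?_)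
    push_cast
    have h8 : ((a + j1 * A.T d k : ℕ) : ℝ) ≤ ((s + A.T d k : ℕ) : ℝ) := by exact_mod_cast h5
    push_cast at h8
    have h9 : (0 : ℝ) ≤ Cv := Nat.cast_nonneg _
    nlinarith [mul_le_mul_of_nonneg_left (show (a : ℝ) + j1 * A.T d k - s ≤ A.T d k by linarith) h9]
  have h8 : (j' + 4) * A.T d k = j' * A.T d k + 4 * A.T d k := by ring
  have h8' : (j1 + 4) * A.T d k = j1 * A.T d k + 4 * A.T d k := by ring
  have h9 : (d * (X + 1) + 2) * A.T d k = d * (X + 1) * A.T d k + 2 * A.T d k := by ring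
  have h10 : j1 + d * (X + 1) < j' := by
    by_contra hcon
    have h11 : j' * A.T d k ≤ (j1 + d * (X + 1)) * A.T d k := Nat.mul_le_mul_right _ (by omega)
    have h12 : (j1 + d * (X + 1)) * A.T d k = j1 * A.T d k + d * (X + 1) * A.T d k := by ring
    omega
  obtain ⟨z, hz, P, hP, hPt, p, hp, hRp⟩ := entry hd hL hγ hτ hf h6 (by omega) (by omega) hx1'
  have h11 : supn (anc A k c - z) ≤ X + 1 := by
    rw [anc_eq A hL1 (by omega)]
    have h12 : supn (sm A.L c - x1) ≤ X * A.S k :=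
      (supn_tri hD0 (supn_symm h7)).trans hX
    exact supn_tri (ci_dist hSk h12) (supn_symm hz)
  have hgood : ∀ z i, j1 ≤ i → i ≤ j' → ¬ badA q.N1 A η w a k (z, i) := by
    intro z i hi1 hi2
    refine hf.good z (by omega) ?_
    have : (i + 4) * A.T d k ≤ (j' + 4) * A.T d k := Nat.mul_le_mul_right _ (by omega)
    omega
  have hO := hub_chain (fit_lvl A hd hL hγ) (hier_badW q.N1 A hL hγ η w a) k (z, j1)
    (anc A k c, j') (by show j1 < j'; omega)
    (by
      show n1 (anc A k c - z) ≤ j' - j1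
      have := n1_le h11
      omega) hgood P _ hP hc
  obtain ⟨y, hy, hRy⟩ := opath_route hτ hO p hp (R_occ _ hRp)
  refine ⟨y, hy, ?_⟩
  have hR := R_trans _ (R_trans _ hx1 hRp) hRy
  have h13 : j' * A.ix d k * A.τ = j' * A.T d k := by
    rw [Prm.T]; ring
  simp only [h13] at hR
  exact hR

/-! ### the numbers of `reach` -/

end rt

end ZQ.CO1

namespace ZQ.Rows

open ZP hiding Agree AgreeW BG BadM Base BlockFacts CoreE Env EqEnv FG FOpn GoodK IsGamma LowTail Meet MeetL MembE NMemb Opn PBad PBadM POpn PastEv QK QT Route Speed StepP Sys UpTail badA badW envT foldl_stepR_fst foldl_stepR_inter foldl_stepR_mono foldl_stepR_occ foldl_stepR_region inf infMv infMv_mono infMv_occ inf_comp inf_inter inf_mono_univ inf_occ inf_pred lin mem_foldl_stepR mem_infMv muK pe rin stepI stepR visU visU_mono_univ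
open ZP.Rows hiding PP_rev R_mono R_occ R_of_noRec R_restrict R_rev R_route R_self R_split R_start R_toZI R_trans R_vis agree_take badW_sft bh_chain cfg_toZI chain_eq chain_shift core_route envT_toZI foldl_stepR_noRec foldl_stepR_toZI hier_badW inf_mono inf_noRec inf_split inf_start inf_toZI mem_inf_iff memb_sft occ_toZI pe_path rword_path start_inv visU_mono visU_noRec visU_split visU_toZI vis_mono vis_mono_time vis_of_R vis_of_R' vis_of_noRec vis_restrict vis_toZI

variable [ZQ.Thr]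

open ZP hiding Agree AgreeW BG BadM Base BlockFacts CoreE Env EqEnv FG FOpn GoodK IsGamma LowTail Meet MeetL MembE NMemb Opn PBad PBadM POpn PastEv QK QT Route Speed StepP Sys UpTail badA badW envT foldl_stepR_fst foldl_stepR_inter foldl_stepR_mono foldl_stepR_occ foldl_stepR_region inf infMv infMv_mono infMv_occ inf_comp inf_inter inf_mono_univ inf_occ inf_pred lin mem_foldl_stepR mem_infMv muK pe rin stepI stepR visU visU_mono_univ
open ZP.CO1 hiding Fwd R_envS R_fold R_univ alive entry envS fold_inf fopn_facts good_zero not_fast occ_envS opath_route popn_facts reach route_pts slow_facts slow_fold stepI_step visU_envS vis_envS vis_fold vis_univ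
open ZQ.CO1
open ZQ

variable {d : ℕ}

theorem core_route (d : ℕ) (hd : 0 < d) (Cv : ℕ) : ∃ T0 : ℕ, ∀ (A : Prm),
    1000 * (d + 1) * 3 ^ d ≤ A.L → A.α + 12 ≤ A.γ → A.L ≤ A.τ → A.τ ≤ A.L ^ 2 →
    ∀ (m : Model) (δ : ℝ) (q : Par d m δ) (η : Tor d q.M → ℕ) (w : List (Let d q.M (q.K + 1)))
      (k r H Θ : ℕ), 1 ≤ k → T0 ≤ A.T d k → 8 * r ≤ A.S k → A.T d k ∣ Θ → 8 * A.T d k ≤ Θ →
      16 * A.T d k ^ 4 ≤ q.M → CoreE q.N1 A k r H Θ η w → Speed (envT q η w) Cv r H →
      Route (envT q η w) (A.T d k) (A.T d k ^ 4 + (4 * r + 2) * Θ) H := by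
  refine ⟨16 * (d + 1) * (Cv + 6), ?_⟩
  intro A hL hγ hτL _ m δ q η w k r H Θ hk hT0 hr _ hΘ _ hC hsp
  have hL1 : 1000 ≤ A.L := by
    have : 1 ≤ 3 ^ d := Nat.one_le_pow _ _ (by norm_num)
    nlinarith [Nat.zero_le d]
  have hτ : 1 ≤ A.τ := by omega
  have hT : 1 ≤ A.T d k := T_pos A (by omega) (by omega) hτ k
  have hSk : A.L ≤ A.S k := L_le_S A (by omega) (by omega) k
  have hST : A.S k ≤ A.T d k := S_le_T A (by omega) hτL k
  have hLT : 8 * (d + 1) * A.L ≤ A.T d k := L_le_T A (by omega) (by omega) hτL k hk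
  have hτT : A.τ ≤ A.T d k := by
    unfold Prm.T
    exact Nat.le_mul_of_pos_left _ (ix_pos A (by omega) (by omega) k)
  have hf : Fwd q A η w k H := hC.fwd
  obtain ⟨η', hη'⟩ : ∃ η', η' = stt η w w.length := ⟨_, rfl⟩
  obtain ⟨w', hw'⟩ : ∃ w', w' = rword η w := ⟨_, rfl⟩
  have hb : Fwd q A η' w' k H := by rw [hη', hw']; exact hC.bwd
  have hrev : ∀ s t x y, s ≤ t → t ≤ H → ((envT q η w).R (fun _ => Set.univ) s x t y ↔
      (envT q η' w').R (fun _ => Set.univ) (H - t) y (H - s) x) := by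
    intro s t x y hst ht
    rw [hη', hw']
    exact R_rev q hd η w H hC.len Set.univ s t hst ht x y
  have hsp1 : ∀ s t x y, s ≤ t → t ≤ H → (envT q η w).R (fun _ => Set.univ) s x t y →
      nrm (y - x) ≤ Cv * ((t : ℝ) - s) + r := hsp.1
  have hsp2 : ∀ s t x y, s ≤ t → t ≤ H → (envT q η' w').R (fun _ => Set.univ) s x t y →
      nrm (y - x) ≤ Cv * ((t : ℝ) - s) + r := by
    intro s t x y hst ht hR
    have h1 := (hrev (H - t) (H - s) y x (by omega) (by omega)).mpr (by
      rw [Nat.sub_sub_self (by omega : s ≤ H), Nat.sub_sub_self ht]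
      exact hR)
    have h2 := hsp1 _ _ _ _ (by omega) (by omega) h1
    rw [nrm_sub_comm, Nat.cast_sub (by omega : s ≤ H), Nat.cast_sub ht] at h2
    have h3 : ((H : ℝ) - s) - ((H : ℝ) - t) = (t : ℝ) - s := by ring
    rwa [h3] at h2
  have hFB : ∀ t y, t ≤ H → BG (envT q η w) (16 * A.T d k) t y →
      FG (envT q η' w') (16 * A.T d k) (H - t) y ∧ H - t + 16 * A.T d k ≤ H := by
    rintro t y htH ⟨s, x, hts, hR⟩
    have h1 := (hrev s t x y (by omega) htH).mp hR
    have h2 : H - s = H - t + 16 * A.T d k := by omega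
    rw [h2] at h1
    exact ⟨⟨x, h1⟩, by omega⟩
  have hmod : ∀ u, u % A.T d k + (3 + u / A.T d k) * A.T d k = u + 3 * A.T d k := by
    intro u
    have := Nat.mod_add_div u (A.T d k)
    have h2 : (3 + u / A.T d k) * A.T d k = 3 * A.T d k + A.T d k * (u / A.T d k) := by ring
    omega
  have hmodH : ∀ u, u + 7 * A.T d k ≤ H →
      u % A.T d k + (3 + u / A.T d k + 4) * A.T d k ≤ H := by
    intro u hu
    have h1 := hmod u
    have h2 : (3 + u / A.T d k + 4) * A.T d k = (3 + u / A.T d k) * A.T d k + 4 * A.T d k := by ring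
    omega
  have hT4 : A.T d k ^ 4 = A.T d k * A.T d k ^ 3 := by ring
  have hT3 : 1000 ≤ A.T d k ^ 3 :=
    (by omega : 1000 ≤ A.T d k).trans (Nat.le_self_pow (by norm_num) _)
  have hT4' : 1000 * A.T d k ≤ A.T d k ^ 4 := by
    rw [hT4, Nat.mul_comm]
    exact Nat.mul_le_mul_left _ hT3
  refine ⟨?_, ?_, ?_, ?_, ?_⟩
  · -- p1
    intro s x hs h t hst htH
    exact alive hd hL hγ hτ hf hs h t hst htH
  · -- p1'
    intro t y ht hB s hst hs
    obtain ⟨hF, -⟩ := hFB t y (by omega) hB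
    obtain ⟨x, hx⟩ := alive hd hL hγ hτ hb (by omega) hF (H - s) (by omega) (by omega)
    exact ⟨x, (hrev s t x y hst (by omega)).mpr hx⟩
  · -- p2
    intro s hs hsH x
    have hsT : s % A.T d k + s / A.T d k * A.T d k = s := by
      rw [Nat.mul_comm]; exact Nat.mod_add_div s _
    obtain ⟨a, ha⟩ : ∃ a, a = s % A.T d k := ⟨_, rfl⟩
    obtain ⟨j, hj⟩ : ∃ j, j = s / A.T d k := ⟨_, rfl⟩
    rw [← ha, ← hj] at hsT
    have hj3 : 3 ≤ j := by
      rw [hj]
      exact (Nat.le_div_iff_mul_le (by omega)).mpr hs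
    have hgood : ∀ z i, j ≤ i → i ≤ j + 32 → ¬ badA q.N1 A η w a k (z, i) := by
      intro z i hi1 hi2
      refine hf.good z (by omega) ?_
      have : (i + 4) * A.T d k ≤ (j + 36) * A.T d k := Nat.mul_le_mul_right _ (by omega)
      have h3 : (j + 36) * A.T d k = j * A.T d k + 36 * A.T d k := by ring
      omega
    obtain ⟨P, hP, hPt⟩ := Hub_nonempty (fit_lvl A hd hL hγ) (hier_badW q.N1 A hL hγ η w a) k
      (ci (A.S k) x, j) (hgood _ j le_rfl (by omega))
    obtain ⟨P', hP', hP't⟩ := Hub_nonempty (fit_lvl A hd hL hγ) (hier_badW q.N1 A hL hγ η w a) k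
      (ci (A.S k) x, j + 32) (hgood _ _ (by omega) le_rfl)
    have h0 := hub_good (fit_lvl A hd hL hγ) (badA q.N1 A η w a) k _ P
      (hgood (ci (A.S k) x) j le_rfl (by omega)) hP
    obtain ⟨h1, -, -⟩ := popn_facts q η w P.1 (a + P.2 * A.τ) A.L A.τ hτ (good_zero h0)
    obtain ⟨y, hy, hy0⟩ := h1
    have hO := hub_chain (fit_lvl A hd hL hγ) (hier_badW q.N1 A hL hγ η w a) k
      (ci (A.S k) x, j) (ci (A.S k) x, j + 32) (by simp) (by simp [n1_zero]) hgood P P' hP hP'
    obtain ⟨z, -, hz⟩ := opath_route hτ hO y hy hy0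
    have h4 : P.2 * A.τ = j * A.T d k := by
      rw [hPt, t_eq, Prm.T]
      ring
    have h5 : P'.2 * A.τ = j * A.T d k + 32 * A.T d k := by
      rw [hP't, t_eq, Prm.T]
      ring
    refine ⟨y, ?_, z, ?_⟩
    · rw [supn_le_iff]
      intro i
      have h6 := ((hub_cell (fit_lvl A hd hL hγ) _ k _ P hP).1 i)
      rw [nxL_eq] at h6
      have h7 := hy i
      have h8 := mem_ci (S := A.S k) (by omega) x i
      have h9 : (A.S k : ℤ) = A.nx k * A.L := by exact_mod_cast S_nx A (by omega) k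
      have h10 : (A.L : ℤ) * P.1 i + A.L ≤ A.S k * ci (A.S k) x i + A.S k := by
        have h11 : P.1 i + 1 ≤ (A.nx k : ℤ) * ci (A.S k) x i + A.nx k := by
          have := h6.2
          simp only at this
          omega
        have h12 : (A.L : ℤ) * (P.1 i + 1) ≤ A.L * ((A.nx k : ℤ) * ci (A.S k) x i + A.nx k) :=
          mul_le_mul_of_nonneg_left h11 (Nat.cast_nonneg _)
        rw [h9]
        linarith
      have h13 : (A.S k : ℤ) * ci (A.S k) x i ≤ (A.L : ℤ) * P.1 i := by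
        have h12 : (A.L : ℤ) * ((A.nx k : ℤ) * ci (A.S k) x i) ≤ A.L * P.1 i :=
          mul_le_mul_of_nonneg_left h6.1 (Nat.cast_nonneg _)
        rw [h9]
        linarith
      have h14 : (A.S k : ℤ) ≤ A.T d k := by exact_mod_cast hST
      show (y i - x i).natAbs ≤ 2 * A.T d k
      omega
    · have h6 : a + P.2 * A.τ = s := by omega
      have h7 : a + P'.2 * A.τ = s + 32 * A.T d k := by omega
      rw [h6, h7] at hz
      exact hz
  · -- p3
    intro s t x y hs htH hF hB hxy hst1 hst2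
    obtain ⟨s', hs'⟩ : ∃ s', s' = s + A.T d k ^ 4 + 5 * A.T d k := ⟨_, rfl⟩
    obtain ⟨i, hi, hm1, hm2, hm3⟩ := hC.meet s' (ci A.L x) (by omega) (by omega)
    obtain ⟨c, hc⟩ : ∃ c, c = dg (ci A.L x) (i * A.T d k ^ 2) := ⟨_, rfl⟩
    rw [← hc] at hm1 hm2 hm3
    rw [← hη', ← hw'] at hm3
    have hc1 : supn (sm A.L c - x) ≤ A.L + 3 * r * A.T d k ^ 2 * A.L := by
      have h1 : supn (sm A.L c - sm A.L (ci A.L x)) ≤ 3 * r * A.T d k ^ 2 * A.L := by
        rw [supn_le_iff]
        intro l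
        have h2 : (sm A.L c - sm A.L (ci A.L x)) l = ((i * A.T d k ^ 2 * A.L : ℕ) : ℤ) := by
          rw [hc]
          show (A.L : ℤ) * (ci A.L x l + ((i * A.T d k ^ 2 : ℕ) : ℤ)) - A.L * ci A.L x l = _
          push_cast
          ring
        rw [h2, Int.natAbs_natCast]
        exact Nat.mul_le_mul_right _ (Nat.mul_le_mul_right _ (by omega))
      have h2 := supn_tri h1 (sm_ci (by omega : 1 ≤ A.L) x)
      omega
    have hc2 : supn (sm A.L c - y) ≤ A.L + 3 * r * A.T d k ^ 2 * A.L + A.T d k ^ 2 :=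
      supn_tri hc1 (supn_of_nrm (by push_cast; exact hxy))
    obtain ⟨hX1, hX2⟩ := num_reach (Cv := Cv) hr hSk hT hLT hT0 (le_refl _) (by omega)
    have hX3 : (A.L + 3 * r * A.T d k ^ 2 * A.L) + (Cv * A.T d k + r) ≤
      (A.T d k ^ 2 * A.L + A.T d k ^ 2 + Cv * A.T d k + 2) * A.S k := by omega
    have hm1' := memb_sft q.N1 A hd hL hγ hτ η w _ k c hm1
    have hu1 := hmod (s' - 3 * A.T d k)
    have hu1' : s' - 3 * A.T d k + 3 * A.T d k = s' := by omega
    rw [hu1'] at hu1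
    obtain ⟨y1, hy1, hR1⟩ := reach hd hL hγ hτ hf hsp1 (by omega) (by omega) hF _ _
      (Nat.mod_lt _ (by omega)) c hm1' (hmodH _ (by omega)) _ _ hc1 hX3 (by rw [hu1]; omega)
    rw [hu1] at hR1
    obtain ⟨hF', hF'H⟩ := hFB t y (by omega) hB
    have hm3' := memb_sft q.N1 A hd hL hγ hτ η' w' _ k c hm3
    have hu2 := hmod (H - (s' + A.τ) - 3 * A.T d k)
    have hu2' : H - (s' + A.τ) - 3 * A.T d k + 3 * A.T d k = H - (s' + A.τ) := by omega
    rw [hu2'] at hu2
    obtain ⟨b, hb1, hR2⟩ := reach hd hL hγ hτ hb hsp2 (by omega) (by omega) hF' _ _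
      (Nat.mod_lt _ (by omega)) c hm3' (hmodH _ (by omega)) _ _ hc2 hX1 (by rw [hu2]; omega)
    rw [hu2] at hR2
    have hR3 := (hrev (s' + A.τ) t b y (by omega) (by omega)).mpr hR2
    have hR4 := fopn_facts q η w c s' A.L A.τ hm2 y1 hy1 (R_occ _ hR1) b hb1 (R_start _ hR3).1
    exact R_trans _ (R_trans _ hR1 hR4) hR3
  · -- p4
    intro s x b hs hsH hF hxb
    obtain ⟨i, hi, hm⟩ := hC.visit s (ci A.L b) hs (by
      have : (4 * r + 1) * Θ ≤ (4 * r + 2) * Θ := Nat.mul_le_mul_right _ (by omega)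
      omega)
    have hiΘ : i * Θ + Θ ≤ (4 * r) * Θ := by
      have : (i + 1) * Θ ≤ 4 * r * Θ := Nat.mul_le_mul_right _ (by omega)
      have h2 : (i + 1) * Θ = i * Θ + Θ := by ring
      omega
    have hΘ2 : (4 * r + 2) * Θ = 4 * r * Θ + 2 * Θ := by ring
    obtain ⟨s', hs'⟩ : ∃ s', s' = s + A.T d k ^ 4 + i * Θ := ⟨_, rfl⟩
    rw [← hs'] at hm
    have hc1 : supn (sm A.L (ci A.L b) - x) ≤ A.L + A.T d k ^ 2 := by
      refine supn_tri (sm_ci (by omega : 1 ≤ A.L) b) (supn_symm (supn_of_nrm ?_))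
      push_cast
      exact hxb
    obtain ⟨hX1, hX2⟩ := num_reach (Cv := Cv) (D0 := A.L + A.T d k ^ 2) hr hSk hT hLT hT0
      (by omega) (by omega)
    have hm' := memb_sft q.N1 A hd hL hγ hτ η w _ k _ hm
    have hu1 := hmod (s' - 3 * A.T d k)
    have hu1' : s' - 3 * A.T d k + 3 * A.T d k = s' := by omega
    rw [hu1'] at hu1
    have hmH := hmodH (s' - 3 * A.T d k) (by omega)
    obtain ⟨y1, hy1, hR1⟩ := reach hd hL hγ hτ hf hsp1 (by omega) (by omega) hF _ _
      (Nat.mod_lt _ (by omega)) _ hm' hmH _ _ hc1 hX1 (by rw [hu1]; omega)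
    have h0 := hub_good (fit_lvl A hd hL hγ) (badA q.N1 A η w ((s' - 3 * A.T d k) % A.T d k)) k _ _
      (hf.good _ (le_trans (by norm_num) (Nat.le_add_right 3 _)) hmH) hm'
    obtain ⟨-, -, h1⟩ := popn_facts q η w (ci A.L b) _ A.L A.τ hτ (good_zero h0)
    have h2 : (3 + (s' - 3 * A.T d k) / A.T d k) * A.ix d k * A.τ =
        (3 + (s' - 3 * A.T d k) / A.T d k) * A.T d k := by
      rw [Prm.T]; ring
    simp only [h2] at h1
    rw [hu1] at h1 hR1
    have h3 := h1 y1 hy1 (R_occ _ hR1) b (mem_ci (by omega) b)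
    exact vis_mono_time _ (by omega) (R_vis _ hR1 h3)

end ZQ.Rows
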