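import Pool.Agent.ZP.SHa
import Pool.Agent.ZQ.Core
import Pool.Agent.ZQ.D0
import Pool.Agent.ZQ.E4

/-! # SH: shifted environments (the deterministic part) -/

set_option autoImplicit false

open scoped ENNReal BigOperators Classical

noncomputable section

namespace ZQ.Rows

open ZP hiding Agree AgreeW BG BadM Base BlockFacts CoreE Env EqEnv FG FOpn GoodK IsGamma LowTail Meet MeetL MembE NMemb Opn PBad PBadM POpn PastEv QK QT Route Speed StepP Sys UpTail badA badW envT foldl_stepR_fst foldl_stepR_inter foldl_stepR_mono foldl_stepR_occ foldl_stepR_region inf infMv infMv_mono infMv_occ inf_comp inf_inter inf_mono_univ inf_occ inf_pred lin mem_foldl_stepR mem_infMv muK pe rin stepI stepR visU visU_mono_univ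
open ZP.Rows hiding R_mono R_occ R_of_noRec R_restrict R_route R_self R_split R_start R_toZI R_trans R_vis agree_take bh_chain cfg_toZI chain_eq chain_shift envT_shift envT_toZI foldl_stepR_noRec foldl_stepR_toZI good_take inf_mono inf_noRec inf_split inf_start inf_toZI mem_inf_iff occ_toZI pe_path shift_R shift_occ shift_vis start_inv visU_mono visU_noRec visU_split visU_toZI vis_mono vis_mono_time vis_of_R vis_of_R' vis_of_noRec vis_restrict vis_toZI

variable [ZQ.Thr]

open ZP hiding Agree AgreeW BG BadM Base BlockFacts CoreE Env EqEnv FG FOpn GoodK IsGamma LowTail Meet MeetL MembE NMemb Opn PBad PBadM POpn PastEv QK QT Route Speed StepP Sys UpTail badA badW envT foldl_stepR_fst foldl_stepR_inter foldl_stepR_mono foldl_stepR_occ foldl_stepR_region inf infMv infMv_mono infMv_occ inf_comp inf_inter inf_mono_univ inf_occ inf_pred lin mem_foldl_stepR mem_infMv muK pe rin stepI stepR visU visU_mono_univ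
open ZQ

variable {d : ℕ}

namespace SHa

open ZP.Rows.SHa hiding inf_shift visU_shift

variable {V : Type} (nb : V → Dir d → Option V) (pr : Pos d → V) (η0 : V → ℕ)
  (U : ℕ → List (Lab V d))

theorem inf_shift (u : ℕ) (G : ℕ → Set (Pos d)) (s : ℕ) (A : Set (Pos d)) : ∀ j : ℕ,
    inf nb pr (cfg nb η0 U u) (fun t => U (u + t)) G s A j =
      inf nb pr η0 U (fun τ => G (τ - u)) (u + s) A j := by
  intro j
  induction j with
  | zero =>
    show {z | z ∈ A ∧ z ∈ G s ∧ Thr.θ ≤ cfg nb (cfg nb η0 U u) (fun t => U (u + t)) s (pr z)} =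
      {z | z ∈ A ∧ z ∈ G (u + s - u) ∧ Thr.θ ≤ cfg nb η0 U (u + s) (pr z)}
    rw [ZP.Rows.SHa.cfg_shift, Nat.add_sub_cancel_left]
  | succ j ih =>
    show ((U (u + (s + j))).foldl (stepR nb pr (G (s + j)))
      (cfg nb (cfg nb η0 U u) (fun t => U (u + t)) (s + j),
        inf nb pr (cfg nb η0 U u) (fun t => U (u + t)) G s A j ∩ G (s + j))).2 =
      ((U (u + s + j)).foldl (stepR nb pr (G (u + s + j - u)))
      (cfg nb η0 U (u + s + j), inf nb pr η0 U (fun τ => G (τ - u)) (u + s) A j ∩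
        G (u + s + j - u))).2
    rw [ih, ZP.Rows.SHa.cfg_shift, show u + (s + j) = u + s + j by ring,
      show u + s + j - u = s + j by omega]

theorem visU_shift (u : ℕ) (G : ℕ → Set (Pos d)) (s : ℕ) (A : Set (Pos d)) (j : ℕ) :
    visU nb pr (cfg nb η0 U u) (fun t => U (u + t)) G s A j =
      visU nb pr η0 U (fun τ => G (τ - u)) (u + s) A j := by
  show {z | ∃ i ≤ (U (u + (s + j))).length, z ∈ (((U (u + (s + j))).take i).foldl
      (stepR nb pr (G (s + j))) (cfg nb (cfg nb η0 U u) (fun t => U (u + t)) (s + j),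
        inf nb pr (cfg nb η0 U u) (fun t => U (u + t)) G s A j ∩ G (s + j))).2} =
    {z | ∃ i ≤ (U (u + s + j)).length, z ∈ (((U (u + s + j)).take i).foldl
      (stepR nb pr (G (u + s + j - u))) (cfg nb η0 U (u + s + j),
        inf nb pr η0 U (fun τ => G (τ - u)) (u + s) A j ∩ G (u + s + j - u))).2}
  rw [inf_shift, ZP.Rows.SHa.cfg_shift, show u + (s + j) = u + s + j by ring,
    show u + s + j - u = s + j by omega]

end SHa

section SH

variable (E : Env d)

theorem shift_occ (u t : ℕ) (x : Pos d) : (E.shift u).occ t x ↔ E.occ (u + t) x := by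
  unfold Env.occ
  show Thr.θ ≤ cfg E.nb (cfg E.nb E.η0 E.U u) (fun t => E.U (u + t)) t (E.pr x) ↔ _
  rw [ZP.Rows.SHa.cfg_shift]

theorem shift_R (u : ℕ) (G : ℕ → Set (Pos d)) (s t : ℕ) (x y : Pos d) :
    (E.shift u).R G s x t y ↔ E.R (fun τ => G (τ - u)) (u + s) x (u + t) y := by
  unfold Env.R
  refine exists_congr fun j => ?_
  have h : inf (E.shift u).nb (E.shift u).pr (E.shift u).η0 (E.shift u).U G s {x} j =
      inf E.nb E.pr E.η0 E.U (fun τ => G (τ - u)) (u + s) {x} j :=
    SHa.inf_shift E.nb E.pr E.η0 E.U u G s {x} j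
  rw [h]
  refine and_congr ?_ Iff.rfl
  omega

theorem shift_vis (u : ℕ) (G : ℕ → Set (Pos d)) (s t : ℕ) (x y : Pos d) :
    (E.shift u).vis G s x t y ↔ E.vis (fun τ => G (τ - u)) (u + s) x (u + t) y := by
  unfold Env.vis
  refine exists_congr fun j => ?_
  have h : visU (E.shift u).nb (E.shift u).pr (E.shift u).η0 (E.shift u).U G s {x} j =
      visU E.nb E.pr E.η0 E.U (fun τ => G (τ - u)) (u + s) {x} j :=
    SHa.visU_shift E.nb E.pr E.η0 E.U u G s {x} j
  rw [h]
  refine and_congr ?_ Iff.rfl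
  omega

variable {m : Model} {δ : ℝ} (q : Par d m δ)

theorem envT_shift (η : Tor d q.M → ℕ) (w : List (Let d q.M (q.K + 1))) (u : ℕ) :
    (envT q η w).shift u = envT q (stt η w (u * q.N1)) (w.drop (u * q.N1)) := by
  have h1 : cfg nbT η (units q.N1 w) u = stt η w (u * q.N1) := E1.cfg_eq q.N1 η w u
  have h2 : (fun t => units q.N1 w (u + t)) = units q.N1 (w.drop (u * q.N1)) := by
    funext t
    unfold ZI.units
    rw [List.drop_drop, add_mul]
  show (⟨Tor d q.M, nbT, tv, cfg nbT η (units q.N1 w) u, fun t => units q.N1 w (u + t)⟩ : Env d) =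
    ⟨Tor d q.M, nbT, tv, stt η w (u * q.N1), units q.N1 (w.drop (u * q.N1))⟩
  rw [h1, h2]

end SH

namespace SHa

/-- two environments with the same routes, visits and occupied positions up to the time `S` -/
theorem good_congr {E E' : Env d} {r κ Cv S Dm : ℕ}
    (hR : ∀ G s x t y, t ≤ S → (E.R G s x t y ↔ E'.R G s x t y))
    (hv : ∀ G s x t y, t ≤ S → (E.vis G s x t y ↔ E'.vis G s x t y))
    (h : E.Good r κ Cv S Dm) : E'.Good r κ Cv S Dm := by
  have hfg : ∀ t x, t + κ ≤ S → (E.fg κ t x ↔ E'.fg κ t x) := fun t x ht =>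
    exists_congr fun y => hR _ _ _ _ _ ht
  have hbg : ∀ t x, t ≤ S → (E.bg κ t x ↔ E'.bg κ t x) := fun t x ht =>
    exists_congr fun s => exists_congr fun y => and_congr Iff.rfl (hR _ _ _ _ _ ht)
  refine ⟨?_, ?_, ?_, ?_, ?_⟩
  · intro t h1 h2 x
    obtain ⟨v, h3, h4, h5, h6⟩ := h.g1 t h1 h2 x
    exact ⟨v, h3, h4, (hfg t _ h2).1 h5, (hbg t _ (by omega)).1 h6⟩
  · intro s t x y h1 h2 h3 h4 h5 h6 h7
    exact (hR _ _ _ _ _ (by omega)).1 (h.g3 s t x y h1 h2 h3 ((hfg s x (by omega)).2 h4)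
      ((hbg t y (by omega)).2 h5) h6 h7)
  · intro s t x b h1 h2 h3 h4 h5 h6
    exact (hv _ _ _ _ _ (by omega)).1 (h.g3' s t x b h1 h2 h3 ((hfg s x (by omega)).2 h4) h5 h6)
  · intro s t x y h1 h2 h3
    exact h.g4 s t x y h1 h2 ((hR _ _ _ _ _ h2).2 h3)
  · intro s t x y h1 h2 h3
    exact h.g4' s t x y h1 h2 ((hv _ _ _ _ _ h2).2 h3)

theorem vis_take {m : Model} {δ : ℝ} (q : Par d m δ) (η : Tor d q.M → ℕ)
    (l : List (Let d q.M (q.K + 1))) (T : ℕ) (G : ℕ → Set (Pos d)) (s : ℕ) (x : Pos d) (t : ℕ)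
    (y : Pos d) (ht : t ≤ T) :
    (envT q η l).vis G s x t y ↔ (envT q η (l.take (T * q.N1))).vis G s x t y := by
  have hU : ∀ t < T, units q.N1 l t = units q.N1 (l.take (T * q.N1)) t := fun t ht =>
    E4.units_take q.N1 l T t ht
  refine exists_congr fun j => ?_
  by_cases hj : s + j < t
  · refine and_congr Iff.rfl ?_
    have h1 : cfg nbT η (units q.N1 l) (s + j) =
        cfg nbT η (units q.N1 (l.take (T * q.N1))) (s + j) := E4.cfg_congr nbT η hU _ (by omega)
    have h2 : inf nbT tv η (units q.N1 l) G s {x} j =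
        inf nbT tv η (units q.N1 (l.take (T * q.N1))) G s {x} j :=
      E4.inf_congr nbT tv η hU G s {x} j (by omega)
    show y ∈ visU nbT tv η (units q.N1 l) G s {x} j ↔
      y ∈ visU nbT tv η (units q.N1 (l.take (T * q.N1))) G s {x} j
    unfold visU
    rw [h1, h2, hU (s + j) (by omega)]
  · exact ⟨fun h => absurd h.1 hj, fun h => absurd h.1 hj⟩

end SHa

section SH

variable {m : Model} {δ : ℝ} (q : Par d m δ)

/-- the good event depends on the word up to the horizon only -/
theorem good_take (η : Tor d q.M → ℕ) (w : List (Let d q.M (q.K + 1))) (r κ Cv S Dm : ℕ) :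
    (envT q η (w.take (S * q.N1))).Good r κ Cv S Dm ↔ (envT q η w).Good r κ Cv S Dm := by
  have hA := agree_take q η w S (fun _ => Set.univ)
  have h1 : ∀ G s x t y, t ≤ S → ((envT q η w).R G s x t y ↔
      (envT q η (w.take (S * q.N1))).R G s x t y) := fun G s x t y ht =>
    hA.R G (fun _ _ => Set.subset_univ _) s t x y ht
  have h2 : ∀ G s x t y, t ≤ S → ((envT q η w).vis G s x t y ↔
      (envT q η (w.take (S * q.N1))).vis G s x t y) := fun G s x t y ht =>
    SHa.vis_take q η w S G s x t y ht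
  exact ⟨SHa.good_congr (fun G s x t y ht => (h1 G s x t y ht).symm)
    (fun G s x t y ht => (h2 G s x t y ht).symm), SHa.good_congr h1 h2⟩

end SH

end ZQ.Rows
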