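import Pool.Agent.ZP.CO2
import Pool.Agent.ZQ.SHa
import Pool.Agent.ZI.Geo

/-! # CO2: from the properties of routes to the good event -/

set_option autoImplicit false

open scoped ENNReal BigOperators Classical

noncomputable section

namespace ZQ.Rows

open ZP hiding Agree AgreeW BG BadM Base BlockFacts CoreE Env EqEnv FG FOpn GoodK IsGamma LowTail Meet MeetL MembE NMemb Opn PBad PBadM POpn PastEv QK QT Route Speed StepP Sys UpTail badA badW envT foldl_stepR_fst foldl_stepR_inter foldl_stepR_mono foldl_stepR_occ foldl_stepR_region inf infMv infMv_mono infMv_occ inf_comp inf_inter inf_mono_univ inf_occ inf_pred lin mem_foldl_stepR mem_infMv muK pe rin stepI stepR visU visU_mono_univ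
open ZP.Rows hiding R_mono R_occ R_of_noRec R_restrict R_route R_self R_split R_start R_toZI R_trans R_vis agree_take bh_chain cfg_toZI chain_eq chain_shift envT_shift envT_toZI foldl_stepR_noRec foldl_stepR_toZI good_of_route good_take inf_mono inf_noRec inf_split inf_start inf_toZI mem_inf_iff occ_toZI pe_path shift_R shift_occ shift_vis start_inv visU_mono visU_noRec visU_split visU_toZI vis_mono vis_mono_time vis_of_R vis_of_R' vis_of_noRec vis_restrict vis_toZI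

variable [ZQ.Thr]

open ZP hiding Agree AgreeW BG BadM Base BlockFacts CoreE Env EqEnv FG FOpn GoodK IsGamma LowTail Meet MeetL MembE NMemb Opn PBad PBadM POpn PastEv QK QT Route Speed StepP Sys UpTail badA badW envT foldl_stepR_fst foldl_stepR_inter foldl_stepR_mono foldl_stepR_occ foldl_stepR_region inf infMv infMv_mono infMv_occ inf_comp inf_inter inf_mono_univ inf_occ inf_pred lin mem_foldl_stepR mem_infMv muK pe rin stepI stepR visU visU_mono_univ
open ZQ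

variable {d : ℕ}

namespace CO2

open ZP.Rows.CO2 hiding BG_of_R FG_of_R conf conf_vis hop okp reach

open ZI.Geo

variable {E : Env d} {Cv r T Θ' H : ℕ}

/-- a route stays near its start -/
theorem conf (hS : Speed E Cv r H) {s t : ℕ} {x y : Pos d} (h : E.R (fun _ => Set.univ) s x t y)
    (ht : t ≤ H) {c : Pos d} {ρ : ℝ} (hρ : nrm (x - c) + (Cv * ((t : ℝ) - s) + r) ≤ ρ) :
    E.R (fun _ => Ball c ρ) s x t y := by
  have hst : s ≤ t := (R_start E h).2.2
  have hst' : (s : ℝ) ≤ t := by exact_mod_cast hst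
  have h0 : 0 ≤ (Cv : ℝ) * ((t : ℝ) - s) := by
    have : (0 : ℝ) ≤ Cv := Nat.cast_nonneg _
    nlinarith
  have hr0 : (0 : ℝ) ≤ r := Nat.cast_nonneg _
  have h1 := R_restrict E h (G' := fun _ => Ball c ρ) (by
    show nrm (x - c) ≤ ρ
    linarith) (by
    intro j hj b hb
    have h2 := hS.2 s (s + j + 1) x b (by omega) (by omega) ⟨j, by omega, hb⟩
    have h3 := nrm_sub_le b x c
    have h4 : ((s + j + 1 : ℕ) : ℝ) - s ≤ (t : ℝ) - s := by
      have : ((s + j + 1 : ℕ) : ℝ) ≤ t := by exact_mod_cast hj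
      linarith
    have h5 : (Cv : ℝ) * (((s + j + 1 : ℕ) : ℝ) - s) ≤ Cv * ((t : ℝ) - s) :=
      mul_le_mul_of_nonneg_left h4 (Nat.cast_nonneg _)
    show nrm (b - c) ≤ ρ
    linarith)
  simpa only [Set.univ_inter] using h1

theorem conf_vis (hS : Speed E Cv r H) {s t : ℕ} {x b : Pos d}
    (h : E.vis (fun _ => Set.univ) s x t b)
    (ht : t ≤ H) {c : Pos d} {ρ : ℝ} (hρ : nrm (x - c) + (Cv * ((t : ℝ) - s) + r) ≤ ρ) :
    E.vis (fun _ => Ball c ρ) s x t b := by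
  have h1 := vis_restrict E h (G' := fun _ => Ball c ρ) (by
    intro j hj b hb
    have h2 := hS.2 s (s + j + 1) x b (by omega) (by omega) ⟨j, by omega, hb⟩
    have h3 := nrm_sub_le b x c
    have h4 : ((s + j + 1 : ℕ) : ℝ) - s ≤ (t : ℝ) - s := by
      have : ((s + j + 1 : ℕ) : ℝ) ≤ t := by exact_mod_cast hj
      linarith
    have h5 : (Cv : ℝ) * (((s + j + 1 : ℕ) : ℝ) - s) ≤ Cv * ((t : ℝ) - s) :=
      mul_le_mul_of_nonneg_left h4 (Nat.cast_nonneg _)
    show nrm (b - c) ≤ ρ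
    linarith)
  simpa only [Set.univ_inter] using h1

/-- positions that are alive and have been reached, near any position -/
theorem okp (hR : Route E T Θ' H) (hS : Speed E Cv r H) (hr : r ≤ T) (hT : 1 ≤ T) {t : ℕ}
    (h1 : 19 * T ≤ t) (h2 : t + 24 * T ≤ H) (w : Pos d) :
    ∃ p, nrm (p - w) ≤ (2 * d + 16 * Cv + 1 : ℕ) * (T : ℝ) ∧ FG E (16 * T) t p ∧
      BG E (16 * T) t p := by
  obtain ⟨y, hy, z, hz⟩ := hR.p2 (t - 16 * T) (by omega) (by omega) w
  obtain ⟨p, -, hp1, hp2⟩ := R_split E hz t (by omega) (by omega)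
  refine ⟨p, ?_, ⟨z, ?_⟩, ⟨t - 16 * T, y, by omega, hp1⟩⟩
  · have h3 := hS.1 _ _ _ _ (by omega) (by omega) hp1
    have h4 : (t : ℝ) - ((t - 16 * T : ℕ) : ℝ) = 16 * T := by
      rw [Nat.cast_sub (by omega)]
      push_cast
      ring
    rw [h4] at h3
    have h5 := nrm_sub_le p y w
    have h6 : nrm (y - w) ≤ d * (2 * T) := by
      refine (nrm_le_supn _).trans ?_
      have : (supn (y - w) : ℝ) ≤ 2 * T := by exact_mod_cast hy
      exact mul_le_mul_of_nonneg_left this (Nat.cast_nonneg _)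
    have h7 : (r : ℝ) ≤ T := by exact_mod_cast hr
    push_cast
    nlinarith
  · have : t - 16 * T + 32 * T = t + 16 * T := by omega
    rw [← this]
    exact hp2

/-- one hop -/
theorem hop (hR : Route E T Θ' H) (hS : Speed E Cv r H) {s t : ℕ} {x y c : Pos d}
    (hx : FG E (16 * T) s x) (hy : BG E (16 * T) t y) (h1 : 10 * T ≤ s) (h2 : t + 10 * T ≤ H)
    (h3 : nrm (x - y) ≤ (T : ℝ) ^ 2) (h4 : s + 2 * T ^ 4 + 10 * T ≤ t)
    (h5 : t ≤ s + 4 * T ^ 4 + 10 * T) {ρ : ℝ}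
    (hρ : nrm (x - c) + (Cv * (4 * (T : ℝ) ^ 4 + 10 * T) + r) ≤ ρ) :
    E.R (fun _ => Ball c ρ) s x t y := by
  refine conf hS (hR.p3 s t x y h1 h2 hx hy h3 h4 h5) (by omega) ?_
  have h6 : (t : ℝ) - s ≤ 4 * (T : ℝ) ^ 4 + 10 * T := by
    have : (t : ℝ) ≤ (s + 4 * T ^ 4 + 10 * T : ℕ) := by exact_mod_cast h5
    push_cast at this
    linarith
  have h7 : (Cv : ℝ) * ((t : ℝ) - s) ≤ Cv * (4 * (T : ℝ) ^ 4 + 10 * T) :=
    mul_le_mul_of_nonneg_left h6 (Nat.cast_nonneg _)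
  linarith

theorem reach (hR : Route E T Θ' H) (hS : Speed E Cv r H) (hN : Nm d Cv r T) {t : ℕ} {y : Pos d}
    (hy : BG E (16 * T) t y) (ht : t + 24 * T ≤ H) : ∀ n s : ℕ, ∀ x : Pos d, t = s + n →
    19 * T ≤ s → FG E (16 * T) s x →
    ((nrm (x - y) ≤ (T : ℝ) ^ 2 / 2 ∧ 4 * T ^ 4 + 20 * T ≤ n) ∨
      (nrm (x - y) + 1) * (6 * (T : ℝ) ^ 4 + 30 * T) ≤ n) → ∀ ρ : ℝ,
    nrm (x - y) + (Cv * (4 * (T : ℝ) ^ 4 + 10 * T) + r) ≤ ρ →
    (T : ℝ) ^ 2 / 2 + (Cv * (4 * (T : ℝ) ^ 4 + 10 * T) + r) ≤ ρ →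
    E.R (fun _ => Ball y ρ) s x t y := by
  intro n
  induction n using Nat.strong_induction_on with
  | _ n ih =>
  intro s x hts hs hx hc ρ hρ1 hρ2
  have hT1 := hN.T1
  have hTr : (10 : ℝ) ≤ T := by exact_mod_cast hT1
  have hCT := hN.CT
  have hd0 : (0 : ℝ) ≤ d := Nat.cast_nonneg _
  have hT4 : 1000 * T ≤ T ^ 4 := by
    have h1 : T ^ 4 = T ^ 3 * T := by ring
    have h2 : 10 ^ 3 ≤ T ^ 3 := Nat.pow_le_pow_left hT1 3
    rw [h1]
    exact Nat.mul_le_mul_right T (by omega)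
  have hT4r : (1000 : ℝ) * T ≤ (T : ℝ) ^ 4 := by exact_mod_cast hT4
  have hC0 : 0 ≤ ((2 * d + 16 * Cv + 1 : ℕ) : ℝ) * (T : ℝ) := by positivity
  by_cases hnear : nrm (x - y) ≤ (T : ℝ) ^ 2 / 2
  · have hn : 4 * T ^ 4 + 20 * T ≤ n := by
      rcases hc with hc | hc
      · exact hc.2
      · have h1 : (0 : ℝ) ≤ nrm (x - y) := nrm_nonneg _
        have h2 : (6 * (T : ℝ) ^ 4 + 30 * T) ≤ n := by nlinarith
        have h3 : 6 * T ^ 4 + 30 * T ≤ n := by exact_mod_cast h2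
        omega
    by_cases hn2 : n ≤ 8 * T ^ 4 + 20 * T
    · obtain ⟨p, hp1, hp2, hp3⟩ := okp hR hS hN.hr (by omega) (t := s + n / 2) (by omega) (by omega) y
      have h1 : E.R (fun _ => Ball y ρ) s x (s + n / 2) p := by
        refine hop hR hS hx hp3 (by omega) (by omega) ?_ (by omega) (by omega) hρ1
        have h2 := nrm_sub_le x y p
        rw [nrm_sub_comm y p] at h2
        nlinarith
      have h2 : E.R (fun _ => Ball y ρ) (s + n / 2) p t y := by
        refine hop hR hS hp2 hy (by omega) (by omega) ?_ (by omega) (by omega) ?_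
        · nlinarith
        · linarith
      exact R_trans E h1 h2
    · obtain ⟨p, hp1, hp2, hp3⟩ := okp hR hS hN.hr (by omega) (t := s + (2 * T ^ 4 + 10 * T))
        (by omega) (by omega) y
      have h1 : E.R (fun _ => Ball y ρ) s x (s + (2 * T ^ 4 + 10 * T)) p := by
        refine hop hR hS hx hp3 (by omega) (by omega) ?_ (by omega) (by omega) hρ1
        have h2 := nrm_sub_le x y p
        rw [nrm_sub_comm y p] at h2
        nlinarith
      refine R_trans E h1 (ih (n - (2 * T ^ 4 + 10 * T)) (by omega) _ p (by omega) (by omega) hp2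
        (Or.inl ⟨by linarith, by omega⟩) ρ (by linarith) hρ2)
  · rw [not_le] at hnear
    have hc' : (nrm (x - y) + 1) * (6 * (T : ℝ) ^ 4 + 30 * T) ≤ n := by
      rcases hc with hc | hc
      · exact absurd hc.1 (not_le.2 hnear)
      · exact hc
    have hn : 6 * T ^ 4 + 30 * T ≤ n := by
      have h1 : (0 : ℝ) ≤ nrm (x - y) := nrm_nonneg _
      have h2 : (6 * (T : ℝ) ^ 4 + 30 * T) ≤ n := by nlinarith
      exact_mod_cast h2
    obtain ⟨w, hw1, hw2⟩ := exists_between x y ((T : ℝ) ^ 2 / 2) (by positivity) hnear.le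
    obtain ⟨p, hp1, hp2, hp3⟩ := okp hR hS hN.hr (by omega) (t := s + (2 * T ^ 4 + 10 * T))
        (by omega) (by omega) w
    have h1 : E.R (fun _ => Ball y ρ) s x (s + (2 * T ^ 4 + 10 * T)) p := by
      refine hop hR hS hx hp3 (by omega) (by omega) ?_ (by omega) (by omega) hρ1
      have h2 := nrm_sub_le x w p
      rw [nrm_sub_comm w p, nrm_sub_comm x w] at h2
      nlinarith
    have h3 := nrm_sub_le p w y
    have h4 : nrm (p - y) ≤ nrm (x - y) - 1 := by nlinarith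
    refine R_trans E h1 (ih (n - (2 * T ^ 4 + 10 * T)) (by omega) _ p (by omega) (by omega) hp2
      (Or.inr ?_) ρ (by linarith) hρ2)
    rw [Nat.cast_sub (by omega)]
    push_cast
    have h5 : (0 : ℝ) ≤ nrm (p - y) := nrm_nonneg _
    have h6 : (nrm (p - y) + 1) * (6 * (T : ℝ) ^ 4 + 30 * T) ≤
        nrm (x - y) * (6 * (T : ℝ) ^ 4 + 30 * T) :=
      mul_le_mul_of_nonneg_right (by linarith) (by positivity)
    nlinarith

theorem FG_of_R {s t : ℕ} {x y : Pos d} (h : E.R (fun _ => Set.univ) s x t y)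
    (hst : s + 16 * T < t) : FG E (16 * T) s x := by
  obtain ⟨z, -, h1, -⟩ := R_split E h (s + 16 * T) (by omega) hst
  exact ⟨z, h1⟩

theorem BG_of_R {s t : ℕ} {x y : Pos d} (h : E.R (fun _ => Set.univ) s x t y)
    (hst : s + 16 * T ≤ t) (hT : 1 ≤ T) : BG E (16 * T) t y := by
  obtain ⟨z, -, -, h1⟩ := R_split E h (t - 16 * T) (by omega) (by omega)
  exact ⟨t - 16 * T, z, by omega, h1⟩

end CO2

open CO2 ZI.Geo in
theorem good_of_route (d : ℕ) (hd : 0 < d) (Cv : ℕ) : ∃ C0 : ℕ, ∀ (E : Env d)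
    (T Θ' H r κ Dm u S : ℕ), Route E T Θ' H → Speed E Cv r H → C0 ≤ T → r ≤ T →
    C0 * (T ^ 6 + Θ') ≤ κ → 100 * T ≤ u → u + S + 100 * T ≤ H →
    (E.shift u).Good r κ Cv S Dm := by
  refine ⟨1000 * (Cv + d + 1), ?_⟩
  intro E T Θ' H r κ Dm u S hR hS hC0 hrT hκ hu hH
  have hN : Nm d Cv r T := ⟨hrT, by omega⟩
  have hT1 : 1000 ≤ T := by nlinarith
  have hTr : (1000 : ℝ) ≤ T := by exact_mod_cast hT1
  have hCT := hN.CT
  have hd0 : (0 : ℝ) ≤ d := Nat.cast_nonneg _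
  have hCv0 : (0 : ℝ) ≤ Cv := Nat.cast_nonneg _
  have hd1 : (1 : ℝ) ≤ d := by exact_mod_cast hd
  have hr : (r : ℝ) ≤ T := by exact_mod_cast hrT
  have hr0 : (0 : ℝ) ≤ r := Nat.cast_nonneg _
  have hΘ0 : (0 : ℝ) ≤ Θ' := Nat.cast_nonneg _
  have hκr : 1000 * ((Cv : ℝ) + d + 1) * ((T : ℝ) ^ 6 + Θ') ≤ κ := by exact_mod_cast hκ
  -- numerical facts
  have hT4 : (T : ℝ) ^ 4 ≤ (T : ℝ) ^ 6 := pow_le_pow_right₀ (by linarith) (by norm_num)
  have hT2 : (T : ℝ) ^ 2 ≤ (T : ℝ) ^ 4 := pow_le_pow_right₀ (by linarith) (by norm_num)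
  have hT1' : (1000 : ℝ) * T ≤ (T : ℝ) ^ 2 := by nlinarith
  have hT1p : (T : ℝ) ≤ (T : ℝ) ^ 2 := by nlinarith
  have hT6p : (0 : ℝ) ≤ (T : ℝ) ^ 6 := by positivity
  obtain ⟨K1, hK1⟩ : ∃ K1 : ℝ, K1 = Cv * (4 * (T : ℝ) ^ 4 + 10 * T) + r := ⟨_, rfl⟩
  obtain ⟨CT, hCTd⟩ : ∃ CT : ℝ, CT = ((2 * d + 16 * Cv + 1 : ℕ) : ℝ) * (T : ℝ) := ⟨_, rfl⟩
  have hCT0 : 0 ≤ CT := by rw [hCTd]; positivity
  have hCT8 : CT + d + 1 ≤ (T : ℝ) ^ 2 / 8 := by rw [hCTd]; exact hCT
  have hK1b : K1 ≤ 5 * (Cv + 1) * (T : ℝ) ^ 6 := by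
    rw [hK1]
    have h1 : (Cv : ℝ) * (4 * (T : ℝ) ^ 4 + 10 * T) ≤ Cv * (5 * (T : ℝ) ^ 6) :=
      mul_le_mul_of_nonneg_left (by linarith) hCv0
    nlinarith
  have hK10 : 0 ≤ K1 := by rw [hK1]; positivity
  have hκ1 : 1000 * (Cv + 1) * (T : ℝ) ^ 6 + 1000 * (Cv + 1) * Θ' ≤ κ := by
    refine le_trans ?_ hκr
    nlinarith [mul_nonneg hd0 hT6p, mul_nonneg hd0 hΘ0]
  have hCvT6 : 0 ≤ (Cv : ℝ) * (T : ℝ) ^ 6 := by positivity
  have hCvΘ : 0 ≤ (Cv : ℝ) * Θ' := by positivity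
  have hκT : 1000 * (T : ℝ) ^ 6 ≤ κ := by nlinarith
  have hκT1 : 1000 * (T : ℝ) ≤ κ := by nlinarith
  have hκTn : 1000 * T ≤ κ := by exact_mod_cast hκT1
  have hκCv : 1000 * ((Cv : ℝ) + 1) ≤ κ := by
    have h1 : (1 : ℝ) ≤ (T : ℝ) ^ 6 := one_le_pow₀ (by linarith)
    nlinarith
  have hκ0 : (0 : ℝ) ≤ κ := Nat.cast_nonneg _
  have hκsq : 2 * (Cv * (κ : ℝ) + r) ≤ (κ : ℝ) ^ 2 := by nlinarith
  have hκΘ : 1000 * (Θ' : ℝ) ≤ κ := by nlinarith
  have hκΘn : 1000 * Θ' ≤ κ := by exact_mod_cast hκΘ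
  have hCvΘκ : 1000 * ((Cv : ℝ) * Θ') + 1000 * (T : ℝ) ^ 6 ≤ κ := by nlinarith
  -- the positions that are alive
  have hFG : ∀ s x, κ ≤ s → s + κ ≤ S → (E.shift u).fg κ s x → FG E (16 * T) (u + s) x := by
    rintro s x - hs ⟨y, hy⟩
    rw [shift_R] at hy
    exact FG_of_R (R_mono E (fun _ => Set.subset_univ _) hy) (by omega)
  have hBG : ∀ t y, κ ≤ t → t ≤ S → (E.shift u).bg κ t y → BG E (16 * T) (u + t) y := by
    rintro t y - ht ⟨s, z, hts, hz⟩
    rw [shift_R] at hz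
    exact BG_of_R (R_mono E (fun _ => Set.subset_univ _) hz) (by omega) (by omega)
  refine ⟨?_, ?_, ?_, ?_, ?_⟩
  · -- density
    intro t h1 h2 x
    obtain ⟨k, hk⟩ : ∃ k : ℕ, k = (2 * d + 16 * Cv + 1) * T + 1 := ⟨_, rfl⟩
    have hkr : (k : ℝ) = CT + 1 := by rw [hk, hCTd]; push_cast; ring
    set j0 : Fin d := ⟨0, hd⟩ with hj0
    set w : Pos d := x + Pi.single j0 (k : ℤ) with hw
    obtain ⟨p, hp1, hp2, hp3⟩ := okp hR hS hN.hr (by omega) (t := u + t) (by omega) (by omega) w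
    rw [← hCTd] at hp1
    have hwx : nrm (w - x) ≤ k := by
      refine (nrm_le_sum _).trans ?_
      rw [Finset.sum_eq_single j0]
      · rw [hw]
        simp
      · intro j _ hj
        rw [hw]
        simp [hj]
      · intro h
        exact absurd (Finset.mem_univ _) h
    have hwx' : (k : ℝ) ≤ nrm (w - x) := by
      have h3 := abs_coord_le (w - x) j0
      rw [hw] at h3
      simp only [add_sub_cancel_left, Pi.single_eq_same, Int.cast_natCast, Nat.abs_cast] at h3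
      rw [hw, add_sub_cancel_left]
      exact h3
    have hpx : x + (p - x) = p := by abel
    refine ⟨p - x, ?_, ?_, ?_, ?_⟩
    · intro h0
      have h3 : p = x := sub_eq_zero.1 h0
      rw [h3, nrm_sub_comm] at hp1
      linarith
    · apply supn_le_of_nrm
      have h3 := nrm_sub_le p w x
      nlinarith
    · rw [hpx]
      obtain ⟨y, hy⟩ := hR.p1 (u + t) p (by omega) hp2 (u + (t + κ)) (by omega) (by omega)
      refine ⟨y, ?_⟩
      rw [shift_R]
      refine conf hS hy (by omega) ?_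
      rw [sub_self, CO2.nrm_zero']
      have h3 : (((u + (t + κ) : ℕ) : ℝ) - ((u + t : ℕ) : ℝ)) = κ := by push_cast; ring
      rw [h3]
      nlinarith
    · rw [hpx]
      obtain ⟨y, hy⟩ := hR.p1' (u + t) p (by omega) hp3 (u + (t - κ)) (by omega) (by omega)
      refine ⟨t - κ, y, by omega, ?_⟩
      rw [shift_R]
      refine conf hS hy (by omega) ?_
      have h3 : (((u + t : ℕ) : ℝ) - ((u + (t - κ) : ℕ) : ℝ)) = κ := by
        push_cast
        rw [Nat.cast_sub h1]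
        ring
      have h4 := hS.1 _ _ _ _ (by omega) (by omega) hy
      rw [nrm_sub_comm] at h4
      rw [h3] at h4 ⊢
      linarith
  · -- reaching
    intro s t x y h1 h2 h3 hx hy hxy hT
    rw [shift_R]
    have hn : nrm (x - y) + (Cv * (4 * (T : ℝ) ^ 4 + 10 * T) + r) ≤ nrm (x - y) + κ := by
      rw [← hK1]
      nlinarith
    have h0 : 0 ≤ nrm (x - y) := nrm_nonneg _
    refine reach hR hS hN (hBG t y (by omega) (by omega) hy) (by omega) (t - s) (u + s) x (by omega)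
      (by omega) (hFG s x h1 (by omega) hx) (Or.inr ?_) _ hn ?_
    · rw [Nat.cast_sub h2]
      refine le_trans ?_ hT
      refine mul_le_mul_of_nonneg_left ?_ (by linarith)
      nlinarith
    · rw [← hK1]
      nlinarith
  · -- visiting
    intro s t x b h1 h2 h3 hx hxb hT
    rw [shift_vis]
    have h0 : 0 ≤ nrm (x - b) := nrm_nonneg _
    have hts : (κ : ℝ) ≤ (t : ℝ) - s := le_trans (by nlinarith) hT
    have htsn : s + κ ≤ t := by
      have : ((s + κ : ℕ) : ℝ) ≤ t := by push_cast; linarith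
      exact_mod_cast this
    obtain ⟨p, hp1, hp2, hp3⟩ := okp hR hS hN.hr (by omega) (t := u + (t - Θ')) (by omega)
      (by omega) b
    rw [← hCTd] at hp1
    have hxp : nrm (x - p) ≤ nrm (x - b) + CT := by
      have h4 := nrm_sub_le x b p
      rw [nrm_sub_comm b p] at h4
      linarith
    have hxp0 : 0 ≤ nrm (x - p) := nrm_nonneg _
    have hpb : nrm (p - b) ≤ (T : ℝ) ^ 2 := by nlinarith
    have hvis := hR.p4 (u + (t - Θ')) p b (by omega) (by omega) hp2 hpb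
    rw [show u + (t - Θ') + Θ' = u + t by omega] at hvis
    have hvis2 : E.vis (fun _ => Ball b (nrm (x - b) + κ)) (u + (t - Θ')) p (u + t) b := by
      refine conf_vis hS hvis (by omega) ?_
      have h5 : (((u + t : ℕ) : ℝ) - ((u + (t - Θ') : ℕ) : ℝ)) = Θ' := by
        push_cast
        rw [Nat.cast_sub (by omega)]
        ring
      rw [h5]
      nlinarith
    refine R_vis E ?_ hvis2
    have hreach := reach hR hS hN hp3 (by omega) (t - Θ' - s) (u + s) x (by omega)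
      (by omega) (hFG s x h1 (by omega) hx) (Or.inr ?_) (nrm (x - p) + K1 + (T : ℝ) ^ 2 / 2) ?_ ?_
    · refine R_mono E ?_ hreach
      intro _ z hz
      have h5 : nrm (z - p) ≤ nrm (x - p) + K1 + (T : ℝ) ^ 2 / 2 := hz
      have h6 := nrm_sub_le z p b
      show nrm (z - b) ≤ nrm (x - b) + κ
      nlinarith
    · rw [Nat.cast_sub (by omega), Nat.cast_sub (by omega)]
      have h5 : (nrm (x - p) + 1) * (6 * (T : ℝ) ^ 4 + 30 * T) ≤
          (nrm (x - b) + 1 + CT) * (7 * (T : ℝ) ^ 4) := by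
        refine mul_le_mul (by linarith) (by linarith) (by positivity) (by linarith)
      have h6 : (nrm (x - b) + 1 + CT) * (7 * (T : ℝ) ^ 4) ≤
          (nrm (x - b) + 1) * (14 * (T : ℝ) ^ 6) := by
        have h7 : nrm (x - b) + 1 + CT ≤ (nrm (x - b) + 1) * (2 * (T : ℝ) ^ 2) := by nlinarith
        calc (nrm (x - b) + 1 + CT) * (7 * (T : ℝ) ^ 4) ≤
            ((nrm (x - b) + 1) * (2 * (T : ℝ) ^ 2)) * (7 * (T : ℝ) ^ 4) :=
              mul_le_mul_of_nonneg_right h7 (by positivity)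
          _ = _ := by ring
      have h8 : (nrm (x - b) + 1) * (14 * (T : ℝ) ^ 6 + Θ') ≤ (nrm (x - b) + 1) * κ :=
        mul_le_mul_of_nonneg_left (by linarith) (by linarith)
      nlinarith
    · rw [← hK1]
      nlinarith
    · rw [← hK1]
      nlinarith
  · intro s t x y h1 h2 h
    rw [shift_R] at h
    have h3 := hS.1 _ _ _ _ (by omega) (by omega) h
    push_cast at h3
    rwa [add_sub_add_left_eq_sub] at h3
  · intro s t x y h1 h2 h
    rw [shift_vis] at h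
    have h3 := hS.2 _ _ _ _ (by omega) (by omega) h
    push_cast at h3
    rwa [add_sub_add_left_eq_sub] at h3

end ZQ.Rows
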