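import Pool.Agent.ZP.BKb
import Pool.Agent.ZQ.BKa
import Pool.Agent.ZQ.BKb1

/-! # Row BKb: the events of the level `k` (deterministic) -/

set_option autoImplicit false

open scoped ENNReal BigOperators Classical

noncomputable section

namespace ZQ.Rows

open ZP hiding Agree AgreeW BG BadM Base BlockFacts CoreE Env EqEnv FG FOpn GoodK IsGamma LowTail Meet MeetL MembE NMemb Opn PBad PBadM POpn PastEv QK QT Route Speed StepP Sys UpTail badA badW envT foldl_stepR_fst foldl_stepR_inter foldl_stepR_mono foldl_stepR_occ foldl_stepR_region inf infMv infMv_mono infMv_occ inf_comp inf_inter inf_mono_univ inf_occ inf_pred lin mem_foldl_stepR mem_infMv muK pe rin stepI stepR visU visU_mono_univ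
open ZP.Rows hiding R_of_noRec R_toZI agree_take badM_dec badM_of_pbadM badW_sft bh_chain cfg_toZI chain_eq chain_shift envT_toZI foldl_stepR_noRec foldl_stepR_toZI fopn_loc fopn_pth hier_badW inf_noRec inf_toZI membE_loc membE_pth memb_sft nmemb_dec nmemb_inc not_membE occ_toZI opn_inc pbadM_loc pbadM_pth pbad_pth pe_path popn_loc popn_of_opn popn_pth start_inv visU_noRec visU_toZI vis_of_noRec vis_toZI

variable [ZQ.Thr]

open ZP hiding Agree AgreeW BG BadM Base BlockFacts CoreE Env EqEnv FG FOpn GoodK IsGamma LowTail Meet MeetL MembE NMemb Opn PBad PBadM POpn PastEv QK QT Route Speed StepP Sys UpTail badA badW envT foldl_stepR_fst foldl_stepR_inter foldl_stepR_mono foldl_stepR_occ foldl_stepR_region inf infMv infMv_mono infMv_occ inf_comp inf_inter inf_mono_univ inf_occ inf_pred lin mem_foldl_stepR mem_infMv muK pe rin stepI stepR visU visU_mono_univ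
open ZP.BK
open ZQ

variable {d : ℕ}

section BK

variable {M K : ℕ} (N1 : ℕ) (A : Prm)

theorem not_membE (η : Tor d M → ℕ) (w : List (Let d M (K + 1))) (hL : 1000 * (d + 1) ≤ A.L)
    (hγ : A.α + 12 ≤ A.γ) (hM : 2 * A.L ^ 2 + 4 ≤ M) (k : ℕ) (c : Pos d)
    (h : ¬ MembE N1 A k c η w) : NMemb N1 A true k c η w ∨ NMemb N1 A false k c η w := by
  unfold MembE Memb at h
  push Not at h
  obtain ⟨l, hl, Q, hQ, hb, hbad⟩ := h
  obtain ⟨g1, g2, g3⟩ := rg_time A (by omega) l k hl _ 3 le_rfl Q hQ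
  have h2 : ¬ Q.2 < 2 := by omega
  rcases hbad with hbad | hbad
  · right
    rcases hbad with hbad | hbad
    · exact absurd hbad h2
    · refine ⟨l, hl, Q, hQ, hb, by omega, ?_⟩
      rw [zero_add] at hbad
      exact badM_of_pbadM N1 A (by omega) hM l _ _ hbad
  · left
    rcases hbad with hbad | hbad
    · exact absurd hbad h2
    · refine ⟨l, hl, Q, hQ, hb, by omega, ?_⟩
      rw [zero_add] at hbad
      exact hbad

theorem membE_loc (hL : 1000 * (d + 1) ≤ A.L) (hγ : A.α + 12 ≤ A.γ) (k : ℕ) (c : Pos d)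
    (hM : 12 * A.S k + 4 * A.L ^ 2 + 10 ≤ M) :
    LocE N1 (Bt (tv (sm A.L c) : Tor d M) (6 * A.S k + A.L ^ 2 + 1)) 0 (8 * A.T d k)
      (MembE (K := K) N1 A k c) := by
  intro η w η' w' h1 h2 hE l hl Q hQ hb hbad
  refine hE l hl Q hQ hb ?_
  have hSk := S_mono A (by omega) (by omega) l k hl.le
  have hX : ∀ X : Ev d M K, LocE N1 (Bt (0 : Tor d M) (6 * A.S l + A.L ^ 2 + 1)) 0 (6 * A.T d l) X →
      sft N1 (sm (A.S l) Q.1) (0 + (Q.2 - 2) * A.T d l) X η' w' →
      sft N1 (sm (A.S l) Q.1) (0 + (Q.2 - 2) * A.T d l) X η w := by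
    intro X hX hs
    refine LocE.mono N1 (LocE.sft N1 hX _ _) (bt_sub _ _ _ _ (rg_place A (by omega) (by omega)
      l k hl c _ Q hQ)) (Nat.zero_le _) ?_ η' w' η w h2 h1 hs
    rw [zero_add]
    exact rg_window A (by omega) l k hl _ Q hQ
  refine hbad.imp (fun h => h.imp id (hX _ ?_)) (fun h => h.imp id (hX _ ?_))
  · exact pbadM_loc N1 A hL hγ l (by omega)
  · exact IncE.loc N1 (badP_inc N1 A hL hγ l (by omega))

theorem membE_pth (hM : 5 ≤ M) (k : ℕ) (c : Pos d) :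
    PthE (MembE (M := M) (K := K) N1 A k c) := by
  intro η w w' hp hm hE l hl Q hQ hb hbad
  refine hE l hl Q hQ hb ?_
  have hX : ∀ b, badW N1 A η w' 0 b l Q → badW N1 A η w 0 b l Q := fun b h =>
    h.imp id (fun h => PthE.sft N1 (pbad_pth N1 A hM b l) _ _ η w' w hp.symm hm.symm h)
  exact hbad.imp (hX _) (hX _)

theorem nmemb_dec (hL : 1000 * (d + 1) ≤ A.L) (hγ : A.α + 12 ≤ A.γ) (k : ℕ) (c : Pos d)
    (hM : 12 * A.S k + 4 * A.L ^ 2 + 10 ≤ M) :
    DecE N1 (Bt (tv (sm A.L c) : Tor d M) (6 * A.S k + A.L ^ 2 + 1)) 0 (8 * A.T d k)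
      (NMemb (K := K) N1 A false k c) := by
  rintro η w η' w' h1 ⟨l, hl, Q, hQ, hb, h2, hE⟩
  refine ⟨l, hl, Q, hQ, hb, h2, ?_⟩
  have hSk := S_mono A (by omega) (by omega) l k hl.le
  refine DecE.mono N1 (DecE.sft N1 (badM_dec N1 A hL hγ l (by omega)) _ _)
    (bt_sub _ _ _ _ (rg_place A (by omega) (by omega) l k hl c _ Q hQ)) (Nat.zero_le _)
    (rg_window A (by omega) l k hl _ Q hQ) η w η' w' h1 hE

theorem nmemb_inc (hL : 1000 * (d + 1) ≤ A.L) (hγ : A.α + 12 ≤ A.γ) (k : ℕ) (c : Pos d)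
    (hM : 12 * A.S k + 4 * A.L ^ 2 + 10 ≤ M) :
    IncE N1 (Bt (tv (sm A.L c) : Tor d M) (6 * A.S k + A.L ^ 2 + 1)) 0 (8 * A.T d k)
      (NMemb (K := K) N1 A true k c) := by
  rintro η w η' w' h1 ⟨l, hl, Q, hQ, hb, h2, hE⟩
  refine ⟨l, hl, Q, hQ, hb, h2, ?_⟩
  have hSk := S_mono A (by omega) (by omega) l k hl.le
  refine IncE.mono N1 (IncE.sft N1 (badP_inc N1 A hL hγ l (by omega)) _ _)
    (bt_sub _ _ _ _ (rg_place A (by omega) (by omega) l k hl c _ Q hQ)) (Nat.zero_le _)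
    (rg_window A (by omega) l k hl _ Q hQ) η w η' w' h1 hE

end BK

end ZQ.Rows
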