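import Pool.Agent.ZP.ML
import Pool.Agent.ZP.SF1
import Pool.Agent.ZP.SF2
import Pool.Agent.ZQ.SF3
import Pool.Agent.ZQ.BE
import Pool.Agent.ZQ.BKb

/-! # Row ML: the meeting property in a window (deterministic part and probability) -/

set_option autoImplicit false

open scoped ENNReal BigOperators Classical Pointwise

noncomputable section

namespace ZQ.ML

open ZP hiding Agree AgreeW BG BadM Base BlockFacts CoreE Env EqEnv FG FOpn GoodK IsGamma LowTail Meet MeetL MembE NMemb Opn PBad PBadM POpn PastEv QK QT Route Speed StepP Sys UpTail badA badW envT foldl_stepR_fst foldl_stepR_inter foldl_stepR_mono foldl_stepR_occ foldl_stepR_region inf infMv infMv_mono infMv_occ inf_comp inf_inter inf_mono_univ inf_occ inf_pred lin mem_foldl_stepR mem_infMv muK pe rin stepI stepR visU visU_mono_univ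
open ZP.ML hiding rel_rev stt_rword tm_fopn tm_membE tm_pbad tm_popn

variable [ZQ.Thr]

open ZP hiding Agree AgreeW BG BadM Base BlockFacts CoreE Env EqEnv FG FOpn GoodK IsGamma LowTail Meet MeetL MembE NMemb Opn PBad PBadM POpn PastEv QK QT Route Speed StepP Sys UpTail badA badW envT foldl_stepR_fst foldl_stepR_inter foldl_stepR_mono foldl_stepR_occ foldl_stepR_region inf infMv infMv_mono infMv_occ inf_comp inf_inter inf_mono_univ inf_occ inf_pred lin mem_foldl_stepR mem_infMv muK pe rin stepI stepR visU visU_mono_univ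
open ZP.Rows hiding PP_rev R_of_noRec R_rev R_toZI agree_take badM_dec badM_of_pbadM badW_sft bh_chain cfg_toZI chain_eq chain_shift envT_toZI foldl_stepR_noRec foldl_stepR_toZI fopn_loc fopn_pth hier_badW inf_noRec inf_toZI meetL_loc meetL_prob meet_local membE_loc membE_pth memb_sft nmemb_dec nmemb_inc not_membE occ_toZI opn_inc pbadM_loc pbadM_pth pbad_pth pe_path popn_loc popn_of_opn popn_pth rword_path start_inv visU_noRec visU_toZI vis_of_noRec vis_toZI
open ZQ.Rows
open ZQ

variable {d : ℕ}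

/-! ### the scales -/

section scales

variable (A : Prm)

end scales

/-! ### events that depend on an initial piece of the word only -/

section time

variable {M K : ℕ} {N1 : ℕ}

theorem tm_popn (L τ : ℕ) : Tm (d := d) (M := M) (K := K) N1 τ (POpn N1 L τ) := by
  intro η w
  have h2 : ∀ i ≤ τ * N1, (w.take (τ * N1)).take i = w.take i := by
    intro i hi
    rw [List.take_take, min_eq_left hi]
  unfold POpn
  rw [h2 _ le_rfl]
  refine and_congr Iff.rfl (and_congr Iff.rfl ?_)
  refine forall_congr' fun x => forall_congr' fun _ => forall_congr' fun _ => forall_congr' fun b =>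
    forall_congr' fun _ => exists_congr fun i => and_congr_right fun hi => ?_
  rw [h2 i hi]

theorem tm_fopn (L τ : ℕ) : Tm (d := d) (M := M) (K := K) N1 τ (FOpn N1 L τ) := by
  intro η w
  unfold FOpn
  rw [List.take_take, min_self, SF2.stt_take η w _ _ le_rfl]

theorem tm_pbad (A : Prm) (hL : 1 ≤ A.L) (hγ : A.α + 12 ≤ A.γ) (b : Bool) (k : ℕ) :
    Tm (d := d) (M := M) (K := K) N1 (6 * A.T d k) (PBad N1 A b k) := by
  cases b with
  | true =>
    show Tm N1 (6 * A.T d k) (BadP N1 A k)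
    induction k with
    | zero => exact fun _ _ => Iff.rfl
    | succ k ih =>
      intro η w
      refine or_congr ?_ (tm_rec A hL k ih η w)
      refine (((tm_fast _ _).sft _ _).mono ?_) η w
      have := U_le A d hL hγ k
      omega
  | false =>
    show Tm N1 (6 * A.T d k) (PBadM N1 A k)
    induction k with
    | zero =>
      refine ((tm_popn _ _).not.sft _ _).mono ?_
      have := tau_le_T A d hL 0
      omega
    | succ k ih => exact tm_rec A hL k ih

theorem tm_membE (A : Prm) (hL : 1 ≤ A.L) (hγ : A.α + 12 ≤ A.γ) (k : ℕ) (c : Pos d) :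
    Tm (M := M) (K := K) N1 (8 * A.T d k) (MembE N1 A k c) := by
  intro η w
  unfold MembE Memb
  refine forall_congr' fun l => forall_congr' fun hl => forall_congr' fun Q => forall_congr' fun hQ =>
    forall_congr' fun _ => not_congr ?_
  have key : ∀ b : Bool, badW N1 A η (w.take (8 * A.T d k * N1)) 0 b l Q ↔ badW N1 A η w 0 b l Q := by
    intro b
    unfold badW
    by_cases h2 : Q.2 < 2
    · simp [h2]
    refine or_congr Iff.rfl ?_
    refine (((tm_pbad A hL hγ b l).sft _ _).mono ?_) η w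
    have h3 := blk_time A d hL hl hQ.2.2
    have h4 : (Q.2 - 2) * A.T d l + 2 * A.T d l = Q.2 * A.T d l := by
      rw [← Nat.add_mul]
      congr 1
      omega
    omega
  exact or_congr (key false) (key true)

end time

/-! ### reversed words -/

section rev

variable {M K : ℕ}

end rev

section par

variable {m : Model} {δ : ℝ} (q : Par d m δ)

/-- the configuration of the reversed word -/
theorem stt_rword (hd : 0 < d) (η : Tor d q.M → ℕ) (w : List (Let d q.M (q.K + 1))) (i : ℕ)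
    (hi : i ≤ w.length) :
    stt (stt η w w.length) (rword η w) i = stt η w (w.length - i) := by
  have hw : w = w.take (w.length - i) ++ w.drop (w.length - i) := (List.take_append_drop _ _).symm
  have hl : (rword (stt η w (w.length - i)) (w.drop (w.length - i))).length = i := by
    rw [SF3.rword_length q hd, List.length_drop]
    omega
  have hr : rword η w = rword (stt η w (w.length - i)) (w.drop (w.length - i)) ++
      rword η (w.take (w.length - i)) := by
    conv_lhs => rw [hw]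
    rw [SF3.rword_append]
    rfl
  have hf : stt η w w.length = (w.drop (w.length - i)).foldl stepA (stt η w (w.length - i)) := by
    unfold stt
    rw [List.take_length, ← List.foldl_append, ← hw]
  rw [hf]
  conv_lhs => unfold stt
  rw [hr, List.take_left' hl]
  exact SF3.foldl_rword q hd _ _

/-- the relation of the reversed words -/
theorem rel_rev (hd : 0 < d) {Λ Λ' : Set (Tor d q.M)} (h0 : Λ' ⊆ Λ)
    (h1 : ∀ x ∈ Λ', ∀ e : Dir d, x - tv (dv e) ∈ Λ) (U : ℕ) (η η' : Tor d q.M → ℕ)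
    (w w' : List (Let d q.M (q.K + 1))) (hw : w.length = U * q.N1) (hw' : w'.length = U * q.N1)
    (hR : Rel q.N1 Λ 0 U η w η' w') (hR' : Rel q.N1 Λ 0 U η' w' η w) :
    Rel q.N1 Λ' 0 U (stt η w w.length) (rword η w) (stt η' w' w'.length) (rword η' w') := by
  have hM : 3 ≤ q.M := by have := q.M_ge; omega
  have hK : 0 < q.K := by have := q.K_ge; omega
  have heq : ∀ i ≤ U * q.N1, ∀ v ∈ Λ, stt η w i v = stt η' w' i v := fun i hi v hv =>
    le_antisymm (hR.cfg i (by simp) hi v hv) (hR'.cfg i (by simp) hi v hv)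
  refine ⟨?_, ?_, ?_, ?_⟩
  · rw [SF3.rword_length q hd, hw]
  · rw [SF3.rword_length q hd, hw']
  · intro i _ hi v hv
    rw [stt_rword q hd η w i (by omega), stt_rword q hd η' w' i (by omega), hw, hw']
    exact (heq _ (by omega) v (h0 hv)).le
  · intro i _ hi
    rw [getD_rword q hd η w i (by omega), getD_rword q hd η' w' i (by omega), hw, hw']
    obtain ⟨j, hj⟩ : ∃ j, j = U * q.N1 - 1 - i := ⟨_, rfl⟩
    rw [← hj]
    have hj' : j < U * q.N1 := by omega
    have hl := hR.lets j (by simp) hj'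
    exact res_eq_of
      (fun l e1 e2 => canL_back_loc hd hM hK h0 h1 _ _ _ _ (heq j hj'.le) hl l e1 e2)
      (fun l e1 e2 => canL_back_loc hd hM hK h0 h1 _ _ _ _ (fun v hv => (heq j hj'.le v hv).symm)
        hl.symm l e1 e2)

end par

end ZQ.ML

namespace ZQ.Rows

open ZP hiding Agree AgreeW BG BadM Base BlockFacts CoreE Env EqEnv FG FOpn GoodK IsGamma LowTail Meet MeetL MembE NMemb Opn PBad PBadM POpn PastEv QK QT Route Speed StepP Sys UpTail badA badW envT foldl_stepR_fst foldl_stepR_inter foldl_stepR_mono foldl_stepR_occ foldl_stepR_region inf infMv infMv_mono infMv_occ inf_comp inf_inter inf_mono_univ inf_occ inf_pred lin mem_foldl_stepR mem_infMv muK pe rin stepI stepR visU visU_mono_univ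
open ZP.Rows hiding PP_rev R_of_noRec R_rev R_toZI agree_take badM_dec badM_of_pbadM badW_sft bh_chain cfg_toZI chain_eq chain_shift envT_toZI foldl_stepR_noRec foldl_stepR_toZI fopn_loc fopn_pth hier_badW inf_noRec inf_toZI meetL_loc meetL_prob meet_local membE_loc membE_pth memb_sft nmemb_dec nmemb_inc not_membE occ_toZI opn_inc pbadM_loc pbadM_pth pbad_pth pe_path popn_loc popn_of_opn popn_pth rword_path start_inv visU_noRec visU_toZI vis_of_noRec vis_toZI

variable [ZQ.Thr]

open ZP hiding Agree AgreeW BG BadM Base BlockFacts CoreE Env EqEnv FG FOpn GoodK IsGamma LowTail Meet MeetL MembE NMemb Opn PBad PBadM POpn PastEv QK QT Route Speed StepP Sys UpTail badA badW envT foldl_stepR_fst foldl_stepR_inter foldl_stepR_mono foldl_stepR_occ foldl_stepR_region inf infMv infMv_mono infMv_occ inf_comp inf_inter inf_mono_univ inf_occ inf_pred lin mem_foldl_stepR mem_infMv muK pe rin stepI stepR visU visU_mono_univ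
open ZP.ML hiding rel_rev stt_rword tm_fopn tm_membE tm_pbad tm_popn
open ZQ.ML
open ZQ

variable {d : ℕ}

section ML

variable {m : Model} {δ : ℝ} (q : Par d m δ) (A : Prm)

theorem meet_local (hd : 0 < d) (hL : 1000 * (d + 1) ≤ A.L) (hγ : A.α + 12 ≤ A.γ)
    (hτ : A.τ ≤ A.L ^ 2) (hτ1 : 1 ≤ A.τ) (k : ℕ) (hk : 1 ≤ k) (c : Pos d) (H s' : ℕ)
    (η : Tor d q.M → ℕ) (w : List (Let d q.M (q.K + 1))) (hw : w.length = H * q.N1)
    (h1 : 8 * A.T d k ≤ s') (h2 : s' + 8 * A.T d k ≤ H) :
    sft q.N1 0 (s' - 8 * A.T d k) (MeetL q.N1 A k c) η w → Meet q.N1 A k H s' c η w := by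
  have hL1 : 1 ≤ A.L := by omega
  have hτT := tau_le_T A d hL1 k
  have hM1 := tm_membE (M := q.M) (K := q.K) (N1 := q.N1) A hL1 hγ k c
  intro h
  rw [sft0_iff] at h
  unfold MeetL Meet at h
  unfold Meet
  obtain ⟨T, hT⟩ : ∃ T, T = A.T d k := ⟨_, rfl⟩
  rw [← hT] at h1 h2 hτT h hM1 ⊢
  obtain ⟨u, rfl⟩ := Nat.exists_eq_add_of_le' h1
  obtain ⟨v, rfl⟩ := Nat.exists_eq_add_of_le h2
  rw [Nat.add_sub_cancel] at h
  obtain ⟨g1, g2, g3⟩ := h
  refine ⟨?_, ?_, ?_⟩
  · -- the membership at the time `s'`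
    have e : u + 8 * T - 3 * T = u + (8 * T - 3 * T) := by omega
    rw [e]
    refine sft_of ?_
    exact (((hM1.sft 0 (8 * T - 3 * T)).mono (by omega)) _ _).1 g1
  · -- the meeting cell
    refine sft_of ?_
    exact ((((tm_fopn A.L A.τ).sft (sm A.L c) (8 * T)).mono (by omega)) _ _).1 g2
  · -- the reversed membership
    set ξ1 := stt η w (u * q.N1) with hξ1
    set w0 := w.take (u * q.N1) with hw0
    set w1 := (w.drop (u * q.N1)).take (16 * T * q.N1) with hw1
    set w2 := w.drop ((u + 16 * T) * q.N1) with hw2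
    have hww : w = w0 ++ (w1 ++ w2) := by
      conv_lhs => rw [← List.take_append_drop (u * q.N1) w,
        ← List.take_append_drop (16 * T * q.N1) (w.drop (u * q.N1))]
      rw [List.drop_drop, ← Nat.add_mul]
    have hl1 : w1.length = 16 * T * q.N1 := by
      rw [hw1, List.length_take, List.length_drop, hw, ← Nat.sub_mul]
      exact min_eq_left (Nat.mul_le_mul_right _ (by omega))
    have hl2 : w2.length = v * q.N1 := by
      rw [hw2, List.length_drop, hw, ← Nat.sub_mul]
      congr 1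
      omega
    have hr : rword η w = rword (w1.foldl stepA ξ1) w2 ++ (rword ξ1 w1 ++ rword η w0) := by
      conv_lhs => rw [hww]
      rw [SF3.rword_append, SF3.rword_append, List.append_assoc]
      rfl
    have hf : stt η w w.length = w2.foldl stepA (w1.foldl stepA ξ1) := by
      unfold stt at hξ1 ⊢
      rw [List.take_length, hξ1, ← List.foldl_append, ← List.foldl_append, ← hw0, ← hww]
    have hlr : (rword (w1.foldl stepA ξ1) w2).length = v * q.N1 := by
      rw [SF3.rword_length q hd, hl2]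
    have hst : stt (stt η w w.length) (rword η w) (v * q.N1) = stt ξ1 w1 w1.length := by
      rw [hf]
      unfold stt
      rw [hr, List.take_left' hlr, List.take_length]
      exact SF3.foldl_rword q hd _ w2
    have hdr : (rword η w).drop (v * q.N1) = rword ξ1 w1 ++ rword η w0 := by
      rw [hr, List.drop_left' hlr]
    have e : u + 8 * T + 8 * T + v - (u + 8 * T + A.τ) - 3 * T =
        v + (16 * T - (8 * T + A.τ) - 3 * T) := by omega
    rw [e]
    refine sft_of ?_
    rw [hst, hdr]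
    have ht := (hM1.sft 0 (16 * T - (8 * T + A.τ) - 3 * T)).mono
      (show 16 * T - (8 * T + A.τ) - 3 * T + 8 * T ≤ 16 * T by omega)
    rw [← ht, List.take_left' (by rw [SF3.rword_length q hd, hl1])]
    exact g3

theorem meetL_loc (hd : 0 < d) (hL : 1000 * (d + 1) ≤ A.L) (hγ : A.α + 12 ≤ A.γ)
    (hτ : A.τ ≤ A.L ^ 2) (hτ1 : 1 ≤ A.τ) (k : ℕ) (hk : 1 ≤ k) (c : Pos d)
    (hM : 12 * A.S k + 4 * A.L ^ 2 + 20 ≤ q.M) :
    LocE q.N1 (Bt (tv (sm A.L c) : Tor d q.M) (6 * A.S k + A.L ^ 2 + 3)) 0 (16 * A.T d k)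
      (MeetL (K := q.K) q.N1 A k c) := by
  have hL1 : 1 ≤ A.L := by omega
  have hτT := tau_le_T A d hL1 k
  have hmem := membE_loc (K := q.K) q.N1 A hL hγ k c (show 12 * A.S k + 4 * A.L ^ 2 + 10 ≤ q.M by omega)
  have hfo := fopn_loc (d := d) (K := q.K) q.N1 A hL1 (show 2 * A.L ^ 2 + 4 ≤ q.M by omega)
  intro η w η' w' hR hR' h
  have hRt := rel_take hR
  have hRt' := rel_take hR'
  unfold MeetL at h ⊢
  have hlw : (w.take (16 * A.T d k * q.N1)).length = 16 * A.T d k * q.N1 := by
    rw [List.length_take, min_eq_left hR.len]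
  have hlw' : (w'.take (16 * A.T d k * q.N1)).length = 16 * A.T d k * q.N1 := by
    rw [List.length_take, min_eq_left hR.len']
  generalize w.take (16 * A.T d k * q.N1) = w1 at h hRt hRt' hlw
  generalize w'.take (16 * A.T d k * q.N1) = w1' at hRt hRt' hlw' ⊢
  obtain ⟨T, hT⟩ : ∃ T, T = A.T d k := ⟨_, rfl⟩
  unfold Meet at h ⊢
  rw [← hT] at h hRt hRt' hlw hlw' hmem hτT ⊢
  obtain ⟨g1, g2, g3⟩ := h
  have sub0 : ∀ (Λ : Set (Tor d q.M)), {v : Tor d q.M | v - tv (0 : Pos d) ∈ Λ} = Λ := by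
    intro Λ
    ext v
    show v - tv (0 : Pos d) ∈ Λ ↔ _
    rw [SF1.tv_zero, sub_zero]
  refine ⟨?_, ?_, ?_⟩
  · have h1 := LocE.sft q.N1 hmem 0 (8 * T - 3 * T)
    rw [sub0] at h1
    exact LocE.mono q.N1 h1 (bt_mono (by omega)) (by omega) (show _ ≤ 16 * T by omega)
      _ _ _ _ hRt hRt' g1
  · have h1 := LocE.sft q.N1 hfo (sm A.L c) (8 * T)
    refine LocE.mono q.N1 h1 ?_ (by omega) (show _ ≤ 16 * T by omega) _ _ _ _ hRt hRt' g2
    rintro v ⟨y, hy, hv⟩
    refine ⟨y, hy.trans (by omega), ?_⟩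
    rw [zero_add] at hv
    rw [← hv]
    abel
  · have h1 := LocE.sft q.N1 hmem 0 (16 * T - (8 * T + A.τ) - 3 * T)
    rw [sub0] at h1
    have h2 := LocE.mono q.N1 h1 subset_rfl (show 0 ≤ _ by omega) (show _ ≤ 16 * T by omega)
    have hsub : ∀ x ∈ Bt (tv (sm A.L c) : Tor d q.M) (6 * A.S k + A.L ^ 2 + 1), ∀ e : Dir d,
        x - tv (dv e) ∈ Bt (tv (sm A.L c) : Tor d q.M) (6 * A.S k + A.L ^ 2 + 3) :=
      fun x hx e => bt_mono (by omega) (sub_tv_mem hx e)
    exact h2 _ _ _ _ (rel_rev q hd (bt_mono (by omega)) hsub (16 * T) _ _ _ _ hlw hlw' hRt hRt')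
      (rel_rev q hd (bt_mono (by omega)) hsub (16 * T) _ _ _ _ hlw' hlw hRt' hRt) g3

/-- probability that the meeting property fails -/
theorem meetL_prob (hd : 0 < d) (hL : 1000 * (d + 1) ≤ A.L) (hγ : A.α + 12 ≤ A.γ)
    (hτ : A.τ ≤ A.L ^ 2) (hτ1 : 1 ≤ A.τ) (k : ℕ) (hk : 1 ≤ k) (c : Pos d)
    (hM : 12 * A.S k + 4 * A.L ^ 2 + 20 ≤ q.M)
    (h1 : ∀ (b : Bool) (c : Pos d), q.PP (8 * A.T d k * q.N1) (NMemb q.N1 A b k c) ≤
      ENNReal.ofReal (1 / 64))
    (h2 : q.PP (A.τ * q.N1) (fun η w => ¬ FOpn q.N1 A.L A.τ η w) ≤ ENNReal.ofReal (1 / 32)) :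
    q.PP (16 * A.T d k * q.N1) (fun η w => ¬ MeetL q.N1 A k c η w) ≤ ENNReal.ofReal (3 / 32) := by
  have hL1 : 1 ≤ A.L := by omega
  have hτT := tau_le_T A d hL1 k
  have hM1 : 12 * A.S k + 4 * A.L ^ 2 + 10 ≤ q.M := by omega
  have hM2 : 2 * A.L ^ 2 + 4 ≤ q.M := by omega
  have hM5 : 5 ≤ q.M := q.M_ge
  have hinc := nmemb_inc (K := q.K) q.N1 A hL hγ k c hM1
  have hdec := nmemb_dec (K := q.K) q.N1 A hL hγ k c hM1
  have hmem := membE_loc (K := q.K) q.N1 A hL hγ k c hM1
  have hfo := fopn_loc (d := d) (K := q.K) q.N1 A hL1 hM2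
  have hpth := membE_pth (K := q.K) q.N1 A hM5 k c
  have hnm := fun η w => not_membE (K := q.K) q.N1 A η w hL hγ hM2 k c
  have h1c := fun b => h1 b c
  unfold MeetL Meet
  obtain ⟨T, hT⟩ : ∃ T, T = A.T d k := ⟨_, rfl⟩
  rw [← hT] at hinc hdec hmem hτT h1c ⊢
  -- not being in a hub
  have key : q.PP (8 * T * q.N1) (fun η w => ¬ MembE q.N1 A k c η w) ≤ ENNReal.ofReal (1 / 32) := by
    have h3 : q.PP (8 * T * q.N1) (fun η w => ¬ MembE q.N1 A k c η w) ≤
        q.PP (8 * T * q.N1) (NMemb q.N1 A true k c) + q.PP (8 * T * q.N1) (NMemb q.N1 A false k c) :=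
      (PP_mono q _ (fun η w _ h => hnm η w h)).trans (PP_or q _ _ _)
    refine h3.trans ((add_le_add (h1c true) (h1c false)).trans ?_)
    rw [← ENNReal.ofReal_add (by norm_num) (by norm_num)]
    exact ENNReal.ofReal_le_ofReal (by norm_num)
  have key2 : ∀ t : ℕ, t + 8 * T ≤ 16 * T →
      q.PP (16 * T * q.N1) (fun η w => ¬ sft q.N1 0 t (MembE q.N1 A k c) η w) ≤
        ENNReal.ofReal (1 / 32) := by
    intro t ht
    obtain ⟨v, hv⟩ := Nat.exists_eq_add_of_le ht
    have e : 16 * T * q.N1 = t * q.N1 + (8 * T + v) * q.N1 := by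
      rw [← Nat.add_mul]
      congr 1
      omega
    have e2 : (fun (η : Tor d q.M → ℕ) (w : List (Let d q.M (q.K + 1))) =>
        ¬ sft q.N1 0 t (MembE q.N1 A k c) η w) =
        sft q.N1 0 t (fun η w => ¬ MembE q.N1 A k c η w) := rfl
    rw [e, e2, PP_sft q hd, PP_loc q hd (LocE.not q.N1 hmem) _ (Nat.mul_le_mul_right _ (by omega))]
    exact key
  have key3 : q.PP (16 * T * q.N1)
      (fun η w => ¬ sft q.N1 (sm A.L c) (8 * T) (FOpn q.N1 A.L A.τ) η w) ≤ ENNReal.ofReal (1 / 32) := by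
    have e : 16 * T * q.N1 = 8 * T * q.N1 + 8 * T * q.N1 := by
      rw [← Nat.add_mul]
      congr 1
      omega
    have e2 : (fun (η : Tor d q.M → ℕ) (w : List (Let d q.M (q.K + 1))) =>
        ¬ sft q.N1 (sm A.L c) (8 * T) (FOpn q.N1 A.L A.τ) η w) =
        sft q.N1 (sm A.L c) (8 * T) (fun η w => ¬ FOpn q.N1 A.L A.τ η w) := rfl
    rw [e, e2, PP_sft q hd, PP_loc q hd (LocE.not q.N1 hfo) _ (Nat.mul_le_mul_right _ (by omega))]
    exact h2
  have key4 : q.PP (16 * T * q.N1)
      (fun η w => ¬ sft q.N1 0 (16 * T - (8 * T + A.τ) - 3 * T) (MembE q.N1 A k c)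
        (stt η w w.length) (rword η w)) ≤ ENNReal.ofReal (1 / 32) := by
    have h3 := PP_rev q hd (16 * T * q.N1)
      (fun η w => ¬ sft q.N1 0 (16 * T - (8 * T + A.τ) - 3 * T) (MembE q.N1 A k c) η w) (by
        intro η w w' hp hm hE hE'
        exact hE (PthE.sft q.N1 hpth 0 _ η w' w hp.symm hm.symm hE'))
    have h4 := key2 (16 * T - (8 * T + A.τ) - 3 * T) (by omega)
    rw [← h3] at h4
    exact h4
  have h5 : q.PP (16 * T * q.N1) (fun η w => ¬
      (sft q.N1 0 (8 * T - 3 * T) (MembE q.N1 A k c) η (w.take (16 * T * q.N1)) ∧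
      sft q.N1 (sm A.L c) (8 * T) (FOpn q.N1 A.L A.τ) η (w.take (16 * T * q.N1)) ∧
      sft q.N1 0 (16 * T - (8 * T + A.τ) - 3 * T) (MembE q.N1 A k c)
        (stt η (w.take (16 * T * q.N1)) (w.take (16 * T * q.N1)).length)
        (rword η (w.take (16 * T * q.N1))))) ≤
      q.PP (16 * T * q.N1) (fun η w => (¬ sft q.N1 0 (8 * T - 3 * T) (MembE q.N1 A k c) η w) ∨
        ((¬ sft q.N1 (sm A.L c) (8 * T) (FOpn q.N1 A.L A.τ) η w) ∨
        ¬ sft q.N1 0 (16 * T - (8 * T + A.τ) - 3 * T) (MembE q.N1 A k c)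
          (stt η w w.length) (rword η w))) := by
    refine PP_mono q _ (fun η w hw h => ?_)
    rw [List.take_of_length_le hw.le] at h
    tauto
  refine h5.trans ((PP_or q _ _ _).trans ?_)
  refine (add_le_add (key2 _ (by omega)) ((PP_or q _ _ _).trans (add_le_add key3 key4))).trans ?_
  rw [← ENNReal.ofReal_add (by norm_num) (by norm_num), ← ENNReal.ofReal_add (by norm_num) (by norm_num)]
  exact ENNReal.ofReal_le_ofReal (by norm_num)

end ML

end ZQ.Rows
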