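import Pool.Agent.ZP.P2
import Pool.Agent.ZP.SF1
import Pool.Agent.ZP.SF2
import Pool.Agent.ZQ.ML
import Pool.Agent.ZP.SI
import Pool.Agent.ZI.PPc

/-! # Row P2: meeting cells exist -/

set_option autoImplicit false

open scoped ENNReal BigOperators Classical Pointwise

noncomputable section

namespace ZQ.P2

open ZP hiding Agree AgreeW BG BadM Base BlockFacts CoreE Env EqEnv FG FOpn GoodK IsGamma LowTail Meet MeetL MembE NMemb Opn PBad PBadM POpn PastEv QK QT Route Speed StepP Sys UpTail badA badW envT foldl_stepR_fst foldl_stepR_inter foldl_stepR_mono foldl_stepR_occ foldl_stepR_region inf infMv infMv_mono infMv_occ inf_comp inf_inter inf_mono_univ inf_occ inf_pred lin mem_foldl_stepR mem_infMv muK pe rin stepI stepR visU visU_mono_univ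
open ZP.P2 hiding badA_shift badW_shift meet_shift memb_shift one_pair

variable [ZQ.Thr]

open ZP hiding Agree AgreeW BG BadM Base BlockFacts CoreE Env EqEnv FG FOpn GoodK IsGamma LowTail Meet MeetL MembE NMemb Opn PBad PBadM POpn PastEv QK QT Route Speed StepP Sys UpTail badA badW envT foldl_stepR_fst foldl_stepR_inter foldl_stepR_mono foldl_stepR_occ foldl_stepR_region inf infMv infMv_mono infMv_occ inf_comp inf_inter inf_mono_univ inf_occ inf_pred lin mem_foldl_stepR mem_infMv muK pe rin stepI stepR visU visU_mono_univ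
open ZP.Rows hiding PP_rev R_of_noRec R_rev R_toZI agree_take badM_dec badM_of_pbadM badW_sft bh_chain cfg_toZI chain_eq chain_shift envT_toZI foldl_stepR_noRec foldl_stepR_toZI fopn_loc fopn_pth hier_badW inf_noRec inf_toZI meetL_loc meetL_prob meet_local meet_prob membE_loc membE_pth memb_sft nmemb_dec nmemb_inc not_membE occ_toZI opn_inc pbadM_loc pbadM_pth pbad_pth pe_path popn_loc popn_of_opn popn_pth rword_path start_inv visU_noRec visU_toZI vis_of_noRec vis_toZI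
open ZQ.Rows
open ZQ

variable {d : ℕ}

/-! ### the scales -/

/-! ### periodicity -/

section per

variable {M K : ℕ} (N1 : ℕ) (A : Prm)

theorem badW_shift (η : Tor d M → ℕ) (w : List (Let d M (K + 1))) (a : ℕ) (b : Bool) (l e : ℕ)
    (x v : Pos d) (i : ℕ) :
    badW N1 A η w a b l (x + sm (M * e) v, i) ↔ badW N1 A η w a b l (x, i) := by
  unfold badW
  rw [SF2.sft_tv N1 (sm (A.S l) (x + sm (M * e) v)) (sm (A.S l) x) (tv_sm_shift M _ e x v)]

theorem badA_shift (η : Tor d M → ℕ) (w : List (Let d M (K + 1))) (a : ℕ) (l e : ℕ)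
    (x v : Pos d) (i : ℕ) :
    badA N1 A η w a l (x + sm (M * e) v, i) ↔ badA N1 A η w a l (x, i) := by
  unfold badA Bad
  rw [badW_shift, badW_shift]

theorem memb_shift (hL : 1 ≤ A.L) (η : Tor d M → ℕ) (w : List (Let d M (K + 1))) (a k : ℕ)
    (c v : Pos d) (j : ℕ) (h : Memb A (badA N1 A η w a) k c j) :
    Memb A (badA N1 A η w a) k (c + sm (M * A.nx k) v) j := by
  intro l hl Q hQ hbd hbad
  rw [anc_shift A hL hl.le] at hbd
  rw [anc_shift A hL (by omega : l + 1 ≤ k)] at hQ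
  set e := A.nx k / A.nx l with he
  have hne : A.n l * (A.nx k / A.nx (l + 1)) = e := by
    obtain ⟨f, hf⟩ := nx_dvd A (by omega : l + 1 ≤ k)
    have hp : 0 < A.nx l := nx_pos A hL l
    have hp' : 0 < A.nx (l + 1) := nx_pos A hL (l + 1)
    rw [he, hf, Nat.mul_div_cancel_left f hp', nx_succ]
    rw [show A.n l * A.nx l * f = A.nx l * (A.n l * f) by ring, Nat.mul_div_cancel_left _ hp]
  obtain ⟨x, i⟩ := Q
  have hx : x = (x - sm (M * e) v) + sm (M * e) v := by rw [sub_add_cancel]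
  rw [hx] at hbad
  rw [badA_shift] at hbad
  refine h l hl (x - sm (M * e) v, i) ?_ ?_ hbad
  · obtain ⟨h1, h2, h3⟩ := hQ
    refine ⟨fun t => ?_, h2, h3⟩
    have h4 := h1 t
    have h5 : ((A.n l : ℕ) : ℤ) * ((anc A (l + 1) c + sm (M * (A.nx k / A.nx (l + 1))) v) t) =
        (A.n l : ℤ) * anc A (l + 1) c t + sm (M * e) v t := by
      unfold sm
      change (A.n l : ℤ) * (anc A (l + 1) c t + ((M * (A.nx k / A.nx (l + 1)) : ℕ) : ℤ) * v t) =
        (A.n l : ℤ) * anc A (l + 1) c t + ((M * e : ℕ) : ℤ) * v t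
      rw [← hne]
      push_cast
      ring
    rw [h5] at h4
    change (A.n l : ℤ) * anc A (l + 1) c t - 4 * (A.n l : ℤ) ≤ x t - sm (M * e) v t ∧
      x t - sm (M * e) v t ≤ (A.n l : ℤ) * anc A (l + 1) c t + 4 * (A.n l : ℤ)
    constructor
    · linarith [h4.1]
    · linarith [h4.2]
  · have h6 : bd (x - sm (M * e) v, i) (anc A l c, j * (A.ix d k / A.ix d l)) =
        bd (x, i) (anc A l c + sm (M * e) v, j * (A.ix d k / A.ix d l)) := by
      unfold bd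
      have h7 : x - sm (M * e) v - anc A l c = x - (anc A l c + sm (M * e) v) := by abel
      rw [h7]
    rw [h6]
    exact hbd

theorem meet_shift (hL : 1 ≤ A.L) (k H s' : ℕ) (c v : Pos d) (η : Tor d M → ℕ)
    (w : List (Let d M (K + 1))) (h : Meet N1 A k H s' c η w) :
    Meet N1 A k H s' (c + sm (M * A.nx k) v) η w := by
  obtain ⟨h1, h2, h3⟩ := h
  refine ⟨memb_shift N1 A hL _ _ 0 k c v 3 h1, ?_, memb_shift N1 A hL _ _ 0 k c v 3 h3⟩
  rw [SF2.sft_tv N1 (sm A.L (c + sm (M * A.nx k) v)) (sm A.L c) (tv_sm_shift M _ _ c v)]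
  exact h2

end per

/-! ### numerical facts -/

/-- one time and one place -/
theorem one_pair (m : Model) (d : ℕ) (hd : 0 < d) : ∃ T0 : ℕ, ∀ (A : Prm),
    1000 * (d + 1) ≤ A.L → A.α + 12 ≤ A.γ → A.L ≤ A.τ → A.τ ≤ A.L ^ 2 → ∀ (δ : ℝ) (q : Par d m δ)
    (k r n H : ℕ), 1 ≤ k → 8 * r ≤ A.S k → T0 ≤ A.T d k → A.L ^ 4 ≤ A.T d k → q.Tiny n →
    A.T d k ^ 4 ≤ n → A.T d k ^ 6 ≤ q.M →
    (∀ (b : Bool) (c : Pos d), q.PP (8 * A.T d k * q.N1) (NMemb q.N1 A b k c) ≤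
      ENNReal.ofReal (1 / 64)) →
    q.PP (A.τ * q.N1) (fun η w => ¬ FOpn q.N1 A.L A.τ η w) ≤ ENNReal.ofReal (1 / 32) →
    ∀ (s' : ℕ) (c : Pos d), 10 * A.T d k ≤ s' → s' + 10 * A.T d k ≤ H →
    q.PP (H * q.N1) (fun η w => ¬ ∃ i < 3 * r, Meet q.N1 A k H s' (dg c (i * A.T d k ^ 2)) η w) ≤
      (ENNReal.ofReal (3 / 32) + ENNReal.ofReal (Real.exp (-(A.T d k : ℝ)))) ^ (3 * r) +
        (((3 * r : ℕ) : ℝ≥0∞) + ((3 * r : ℕ) : ℝ≥0∞) ^ 2) * ENNReal.ofReal (Real.exp (-(A.T d k : ℝ))) := by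
  obtain ⟨C, hC⟩ := spatial m d hd m.φ
  obtain ⟨T0, hT0⟩ := growthT C
  refine ⟨T0 + 1000, fun A hL hγ hτ hτ2 δ q k r n H hk hr hT hLT hq hTn hTM h1 h2 s' c hs1 hs2 => ?_⟩
  have hL1 : 1 ≤ A.L := by omega
  have hτ1 : 1 ≤ A.τ := by omega
  have hST : A.S k ≤ A.T d k := S_le_T A (by omega) hτ k
  generalize hTdef : A.T d k = T at *
  have hT1000 : 1000 ≤ T := by omega
  have hLT1 : A.L ≤ T := by
    calc A.L = A.L ^ 1 := (pow_one _).symm
      _ ≤ A.L ^ 4 := Nat.pow_le_pow_right hL1 (by norm_num)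
      _ ≤ T := hLT
  have hL2T : A.L ^ 2 ≤ T := (Nat.pow_le_pow_right hL1 (by norm_num)).trans hLT
  have hT2 : 1000 * T ≤ T ^ 2 := by
    rw [pow_two]
    exact Nat.mul_le_mul_right T hT1000
  have hT6 : 1000 * T ^ 4 ≤ T ^ 6 := by
    calc 1000 * T ^ 4 ≤ T ^ 2 * T ^ 4 := Nat.mul_le_mul_right _ (hT1000.trans (by nlinarith))
      _ = T ^ 6 := by ring
  have hT42 : T ^ 2 ≤ T ^ 4 := Nat.pow_le_pow_right (by omega) (by norm_num)
  have hM : 12 * A.S k + 4 * A.L ^ 2 + 20 ≤ q.M := by omega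
  set ρ : ℕ := 6 * A.S k + A.L ^ 2 + 3 with hρ
  have hρT : ρ ≤ 8 * T := by omega
  set x : Fin (3 * r) → Pos d := fun i => sm A.L (dg c (i * T ^ 2)) with hx
  set E : Fin (3 * r) → Ev d q.M q.K := fun i η w => ¬ MeetL q.N1 A k (dg c (i * T ^ 2)) η w with hE
  have hloc : ∀ i, LocE q.N1 (Bt (tv (x i)) ρ) 0 (16 * T) (E i) := by
    intro i
    have h3 := meetL_loc q A hd hL hγ hτ2 hτ1 k hk (dg c (i * T ^ 2)) hM
    rw [hTdef] at h3
    exact LocE.not q.N1 h3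
  -- first step: the shifted window
  have e1 : q.PP (H * q.N1) (fun η w => ¬ ∃ i < 3 * r, Meet q.N1 A k H s' (dg c (i * T ^ 2)) η w) ≤
      q.PP (H * q.N1) (sft q.N1 0 (s' - 8 * T) (fun η w => ∀ i, E i η w)) := by
    refine PP_mono q _ fun η w hw h3 i hi => h3 ⟨i, i.2, ?_⟩
    have h4 := meet_local q A hd hL hγ hτ2 hτ1 k hk (dg c (i * T ^ 2)) H s' η w hw
      (by rw [hTdef]; omega) (by rw [hTdef]; omega)
    rw [hTdef] at h4
    exact h4 hi
  have e2 : q.PP (H * q.N1) (sft q.N1 0 (s' - 8 * T) (fun η w => ∀ i, E i η w)) =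
      q.PP ((H - (s' - 8 * T)) * q.N1) (fun η w => ∀ i, E i η w) := by
    rw [← PP_sft q hd 0 (s' - 8 * T) ((H - (s' - 8 * T)) * q.N1), ← add_mul]
    congr 2
    omega
  have hlocA : LocE q.N1 (Set.univ : Set (Tor d q.M)) 0 (16 * T) (fun η w => ∀ i, E i η w) := by
    intro η w η' w' ha hb h3 i
    exact (LocE.mono q.N1 (hloc i) (Set.subset_univ _) le_rfl le_rfl) η w η' w' ha hb (h3 i)
  have e3 : q.PP ((H - (s' - 8 * T)) * q.N1) (fun η w => ∀ i, E i η w) =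
      q.PP (16 * T * q.N1) (fun η w => ∀ i, E i η w) :=
    PP_loc q hd hlocA _ (Nat.mul_le_mul_right _ (by omega))
  have hdisj : ∀ i j, i ≠ j → Disjoint (Bt (tv (x i) : Tor d q.M) (ρ + T ^ 2))
      (Bt (tv (x j)) (ρ + T ^ 2)) := by
    intro i j hij
    rw [Set.disjoint_left]
    rintro u ⟨y, hy, rfl⟩ ⟨y', hy', he⟩
    have h3 := congrFun he ⟨0, hd⟩
    set t : Fin d := ⟨0, hd⟩ with ht
    have h4 : ((x j t + y' t : ℤ) : ZMod q.M) = ((x i t + y t : ℤ) : ZMod q.M) := by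
      rw [Int.cast_add, Int.cast_add]
      exact h3.symm
    rw [ZMod.intCast_eq_intCast_iff_dvd_sub] at h4
    have h5 : (y t).natAbs ≤ ρ + T ^ 2 :=
      (Finset.le_sup (f := fun j => (y j).natAbs) (Finset.mem_univ t)).trans hy
    have h6 : (y' t).natAbs ≤ ρ + T ^ 2 :=
      (Finset.le_sup (f := fun j => (y' j).natAbs) (Finset.mem_univ t)).trans hy'
    have h7 : x i t + y t - (x j t + y' t) = (A.L : ℤ) * T ^ 2 * ((i : ℕ) - (j : ℕ) : ℤ) +
        (y t - y' t) := by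
      rw [hx]
      change (A.L : ℤ) * (c t + ((i * T ^ 2 : ℕ) : ℤ)) + y t -
        ((A.L : ℤ) * (c t + ((j * T ^ 2 : ℕ) : ℤ)) + y' t) = _
      push_cast
      ring
    rw [h7] at h4
    have hij' : ((i : ℕ) : ℤ) - (j : ℕ) ≠ 0 := by
      intro h8
      apply hij
      apply Fin.ext
      omega
    have hi := i.2
    have hj := j.2
    have h8 : 3 * r ≤ T := by omega
    have h9 : |((i : ℕ) : ℤ) - (j : ℕ)| ≤ T := by
      rw [abs_le]
      constructor <;> omega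
    have h10 : 1 ≤ |((i : ℕ) : ℤ) - (j : ℕ)| := Int.one_le_abs hij'
    have h11 : |y t - y' t| ≤ 3 * (T : ℤ) ^ 2 := by
      have h12 : (2 * (ρ + T ^ 2) : ℕ) ≤ 3 * T ^ 2 := by omega
      have h13 : (2 * (ρ + T ^ 2) : ℤ) ≤ 3 * (T : ℤ) ^ 2 := by exact_mod_cast h12
      rw [abs_le]
      constructor
      · have : ((ρ + T ^ 2 : ℕ) : ℤ) = (ρ : ℤ) + (T : ℤ) ^ 2 := by push_cast; ring
        omega
      · have : ((ρ + T ^ 2 : ℕ) : ℤ) = (ρ : ℤ) + (T : ℤ) ^ 2 := by push_cast; ring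
        omega
    have hLZ : (1000 : ℤ) ≤ A.L := by exact_mod_cast (by omega : 1000 ≤ A.L)
    have hLTZ : (A.L : ℤ) ≤ T := by exact_mod_cast hLT1
    have hTZ : (1000 : ℤ) ≤ T := by exact_mod_cast hT1000
    have hMZ : (T : ℤ) ^ 6 ≤ q.M := by exact_mod_cast hTM
    have hT2pos : (0 : ℤ) < (T : ℤ) ^ 2 := by positivity
    have h14 : |(A.L : ℤ) * T ^ 2 * (((i : ℕ) : ℤ) - (j : ℕ))| =
        (A.L : ℤ) * T ^ 2 * |((i : ℕ) : ℤ) - (j : ℕ)| := by
      rw [abs_mul, abs_of_nonneg (by positivity : (0 : ℤ) ≤ (A.L : ℤ) * T ^ 2)]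
    have h15 : (A.L : ℤ) * T ^ 2 * |((i : ℕ) : ℤ) - (j : ℕ)| ≤ (T : ℤ) ^ 4 := by
      calc (A.L : ℤ) * T ^ 2 * |((i : ℕ) : ℤ) - (j : ℕ)| ≤ (T : ℤ) * T ^ 2 * T := by gcongr
        _ = (T : ℤ) ^ 4 := by ring
    have h16 : 1000 * (T : ℤ) ^ 2 ≤ (A.L : ℤ) * T ^ 2 * |((i : ℕ) : ℤ) - (j : ℕ)| := by
      calc 1000 * (T : ℤ) ^ 2 = 1000 * (T : ℤ) ^ 2 * 1 := by ring
        _ ≤ (A.L : ℤ) * T ^ 2 * |((i : ℕ) : ℤ) - (j : ℕ)| := by gcongr
    have h17 : |(A.L : ℤ) * T ^ 2 * (((i : ℕ) : ℤ) - (j : ℕ)) + (y t - y' t)| < q.M := by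
      refine lt_of_le_of_lt (abs_add_le _ _) ?_
      rw [h14]
      have h18 : (T : ℤ) ^ 2 ≤ (T : ℤ) ^ 4 := by exact_mod_cast hT42
      have h19 : 1000 * (T : ℤ) ^ 4 ≤ (T : ℤ) ^ 6 := by exact_mod_cast hT6
      have h20 : (0 : ℤ) < (T : ℤ) ^ 4 := by positivity
      linarith
    have h18 := Int.eq_zero_of_abs_lt_dvd h4 h17
    have h19 : (A.L : ℤ) * T ^ 2 * (((i : ℕ) : ℤ) - (j : ℕ)) = -(y t - y' t) := by linarith
    rw [h19, abs_neg] at h14
    linarith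
  have e4 := hC δ m.φ m.φ_pos le_rfl q (3 * r) ρ (T ^ 2) (16 * T) x E (by omega) hdisj hloc
    (ENNReal.ofReal (Real.exp (-(T : ℝ)))) ?_ (tiny_bound q (by omega) hTn hq)
  · refine (e1.trans_eq (e2.trans e3)).trans (e4.trans ?_)
    refine add_le_add ?_ le_rfl
    calc ∏ i, (q.PP (16 * T * q.N1) (E i) + ENNReal.ofReal (Real.exp (-(T : ℝ))))
        ≤ ∏ _i : Fin (3 * r), (ENNReal.ofReal (3 / 32) + ENNReal.ofReal (Real.exp (-(T : ℝ)))) := by
          refine Finset.prod_le_prod' fun i _ => ?_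
          refine add_le_add ?_ le_rfl
          have h3 := meetL_prob q A hd hL hγ hτ2 hτ1 k hk (dg c (i * T ^ 2)) hM
            (by rw [hTdef]; exact h1) h2
          rw [hTdef] at h3
          exact h3
      _ = _ := by rw [Finset.prod_const, Finset.card_univ, Fintype.card_fin]
  · refine ENNReal.ofReal_le_ofReal ?_
    have h3 := hT0 T (by omega) ((ρ : ℝ) + ((T ^ 2 : ℕ) : ℝ) + 1) (by positivity) (by
      have h4 : ρ + T ^ 2 + 1 ≤ 2 * T ^ 2 := by omega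
      exact_mod_cast h4)
    refine le_trans (le_of_eq ?_) h3
    push_cast
    ring_nf

end ZQ.P2

namespace ZQ.Rows

open ZP hiding Agree AgreeW BG BadM Base BlockFacts CoreE Env EqEnv FG FOpn GoodK IsGamma LowTail Meet MeetL MembE NMemb Opn PBad PBadM POpn PastEv QK QT Route Speed StepP Sys UpTail badA badW envT foldl_stepR_fst foldl_stepR_inter foldl_stepR_mono foldl_stepR_occ foldl_stepR_region inf infMv infMv_mono infMv_occ inf_comp inf_inter inf_mono_univ inf_occ inf_pred lin mem_foldl_stepR mem_infMv muK pe rin stepI stepR visU visU_mono_univ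
open ZP.Rows hiding PP_rev R_of_noRec R_rev R_toZI agree_take badM_dec badM_of_pbadM badW_sft bh_chain cfg_toZI chain_eq chain_shift envT_toZI foldl_stepR_noRec foldl_stepR_toZI fopn_loc fopn_pth hier_badW inf_noRec inf_toZI meetL_loc meetL_prob meet_local meet_prob membE_loc membE_pth memb_sft nmemb_dec nmemb_inc not_membE occ_toZI opn_inc pbadM_loc pbadM_pth pbad_pth pe_path popn_loc popn_of_opn popn_pth rword_path start_inv visU_noRec visU_toZI vis_of_noRec vis_toZI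

variable [ZQ.Thr]

open ZP hiding Agree AgreeW BG BadM Base BlockFacts CoreE Env EqEnv FG FOpn GoodK IsGamma LowTail Meet MeetL MembE NMemb Opn PBad PBadM POpn PastEv QK QT Route Speed StepP Sys UpTail badA badW envT foldl_stepR_fst foldl_stepR_inter foldl_stepR_mono foldl_stepR_occ foldl_stepR_region inf infMv infMv_mono infMv_occ inf_comp inf_inter inf_mono_univ inf_occ inf_pred lin mem_foldl_stepR mem_infMv muK pe rin stepI stepR visU visU_mono_univ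
open ZP.P2 hiding badA_shift badW_shift meet_shift memb_shift one_pair
open ZQ.P2
open ZQ

variable {d : ℕ}

theorem meet_prob (m : Model) (d : ℕ) (hd : 0 < d) : ∃ r0 : ℕ, ∀ r ≥ r0, ∀ (A : Prm),
    1000 * (d + 1) ≤ A.L → A.α + 12 ≤ A.γ → A.L ≤ A.τ → A.τ ≤ A.L ^ 2 → ∀ (δ : ℝ) (q : Par d m δ)
    (k n H : ℕ), 1 ≤ k → 8 * r ≤ A.S k → r0 * A.L ^ 4 ≤ A.T d k → q.Tiny n → A.T d k ^ 4 ≤ n →
    A.T d k ^ 6 ≤ q.M →
    (∀ (b : Bool) (c : Pos d), q.PP (8 * A.T d k * q.N1) (NMemb q.N1 A b k c) ≤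
      ENNReal.ofReal (1 / 64)) →
    q.PP (A.τ * q.N1) (fun η w => ¬ FOpn q.N1 A.L A.τ η w) ≤ ENNReal.ofReal (1 / 32) →
    q.PP (H * q.N1) (fun η w => ¬ ∀ (s' : ℕ) (c : Pos d), 10 * A.T d k ≤ s' →
        s' + 10 * A.T d k ≤ H → ∃ i < 3 * r, Meet q.N1 A k H s' (dg c (i * A.T d k ^ 2)) η w) ≤
      (H + 1) * (q.M : ℝ≥0∞) ^ (2 * d) * ENNReal.ofReal (Real.exp (-(6 * r : ℝ))) := by
  obtain ⟨T0, hT0⟩ := one_pair m d hd
  obtain ⟨r1, hr1⟩ := final_num
  refine ⟨T0 + r1 + 1, fun r hr A hL hγ hτ hτ2 δ q k n H hk hrS hT hq hTn hTM h1 h2 => ?_⟩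
  have hL1 : 1 ≤ A.L := by omega
  have hτ1 : 1 ≤ A.τ := by omega
  have hL4 : 1 ≤ A.L ^ 4 := Nat.one_le_pow _ _ hL1
  have hTT0 : T0 ≤ A.T d k := by
    calc T0 ≤ (T0 + r1 + 1) * 1 := by omega
      _ ≤ (T0 + r1 + 1) * A.L ^ 4 := Nat.mul_le_mul_left _ hL4
      _ ≤ A.T d k := hT
  have hTL : A.L ^ 4 ≤ A.T d k := (Nat.le_mul_of_pos_left _ (by omega)).trans hT
  have hST : A.S k ≤ A.T d k := S_le_T A (by omega) hτ k
  set P : ℕ := q.M * A.nx k with hP
  have hPpos : 0 < P := Nat.mul_pos (by have := q.M_ge; omega) (nx_pos A hL1 k)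
  have hTpos : 1 ≤ A.T d k := by omega
  have hnxM : A.nx k ≤ q.M := by
    refine (nx_le_T (d := d) A hτ1 k).trans (le_trans ?_ hTM)
    exact Nat.le_self_pow (by norm_num) _
  have hP2 : P ^ d ≤ q.M ^ (2 * d) := by
    rw [pow_mul]
    refine Nat.pow_le_pow_left ?_ d
    rw [hP, pow_two]
    exact Nat.mul_le_mul_left _ hnxM
  have hx := hr1 r (by omega) (Real.exp (-(A.T d k : ℝ))) (Real.exp_pos _).le (by
    refine Real.exp_le_exp.2 ?_
    have : (8 * r : ℝ) ≤ A.T d k := by exact_mod_cast hrS.trans hST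
    linarith)
  have hone : ∀ (s' : ℕ) (c : Pos d), 10 * A.T d k ≤ s' → s' + 10 * A.T d k ≤ H →
      q.PP (H * q.N1) (fun η w => ¬ ∃ i < 3 * r, Meet q.N1 A k H s' (dg c (i * A.T d k ^ 2)) η w) ≤
        ENNReal.ofReal (Real.exp (-(6 * r : ℝ))) := by
    intro s' c hs1 hs2
    refine (hT0 A hL hγ hτ hτ2 δ q k r n H hk hrS hTT0 hTL hq hTn hTM h1 h2 s' c hs1 hs2).trans ?_
    refine le_trans (le_of_eq ?_) (ENNReal.ofReal_le_ofReal hx)
    have e1 : ((3 * r : ℕ) : ℝ≥0∞) = ENNReal.ofReal (3 * r) := by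
      rw [← ENNReal.ofReal_natCast]
      push_cast
      rfl
    rw [e1, ← ENNReal.ofReal_add (by norm_num) (Real.exp_pos _).le, ← ENNReal.ofReal_pow (by positivity),
      ← ENNReal.ofReal_pow (by positivity), ← ENNReal.ofReal_add (by positivity) (by positivity),
      ← ENNReal.ofReal_mul (by positivity), ← ENNReal.ofReal_add (by positivity) (by positivity)]
  set I : Finset (ℕ × (Fin d → Fin P)) := ((Finset.range (H + 1)).filter
    (fun s' => 10 * A.T d k ≤ s' ∧ s' + 10 * A.T d k ≤ H)) ×ˢ Finset.univ with hI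
  have hmain : q.PP (H * q.N1) (fun η w => ¬ ∀ (s' : ℕ) (c : Pos d), 10 * A.T d k ≤ s' →
        s' + 10 * A.T d k ≤ H → ∃ i < 3 * r, Meet q.N1 A k H s' (dg c (i * A.T d k ^ 2)) η w) ≤
      q.PP (H * q.N1) (fun η w => ∃ a ∈ I, ¬ ∃ i < 3 * r, Meet q.N1 A k H a.1
        (dg (fun j => ((a.2 j : ℕ) : ℤ)) (i * A.T d k ^ 2)) η w) := by
    refine PP_mono q _ fun η w _ h => ?_
    push Not at h
    obtain ⟨s', c, hs1, hs2, h3⟩ := h
    obtain ⟨a, v, hav⟩ := reduce P hPpos c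
    refine ⟨(s', a), ?_, ?_⟩
    · rw [hI, Finset.mem_product, Finset.mem_filter, Finset.mem_range]
      exact ⟨⟨by omega, hs1, hs2⟩, Finset.mem_univ _⟩
    · rintro ⟨i, hi, h4⟩
      refine h3 i hi ?_
      rw [hav, dg_shift]
      exact meet_shift q.N1 A hL1 k H s' _ v η w h4
  refine hmain.trans ((PP_finset q _ I _).trans ?_)
  calc ∑ a ∈ I, q.PP (H * q.N1) (fun η w => ¬ ∃ i < 3 * r, Meet q.N1 A k H a.1
        (dg (fun j => ((a.2 j : ℕ) : ℤ)) (i * A.T d k ^ 2)) η w)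
      ≤ ∑ _a ∈ I, ENNReal.ofReal (Real.exp (-(6 * r : ℝ))) := by
        refine Finset.sum_le_sum fun a ha => ?_
        rw [hI, Finset.mem_product, Finset.mem_filter] at ha
        exact hone a.1 _ ha.1.2.1 ha.1.2.2
    _ = (I.card : ℝ≥0∞) * ENNReal.ofReal (Real.exp (-(6 * r : ℝ))) := by
        rw [Finset.sum_const, nsmul_eq_mul]
    _ ≤ (H + 1) * (q.M : ℝ≥0∞) ^ (2 * d) * ENNReal.ofReal (Real.exp (-(6 * r : ℝ))) := by
        refine mul_le_mul' ?_ le_rfl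
        have hc : I.card ≤ (H + 1) * q.M ^ (2 * d) := by
          rw [hI, Finset.card_product, Finset.card_univ, Fintype.card_fun, Fintype.card_fin,
            Fintype.card_fin]
          refine Nat.mul_le_mul ?_ hP2
          refine (Finset.card_filter_le _ _).trans ?_
          rw [Finset.card_range]
        exact_mod_cast hc

end ZQ.Rows
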