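import Pool.Agent.ZP.P3c
import Pool.Agent.ZQ.Core
import Pool.Agent.ZQ.E4
import Pool.Agent.ZP.P3b

/-! # Row P3, part c: periodicity in the index, union bound -/

set_option autoImplicit false

open scoped ENNReal BigOperators Classical

noncomputable section

namespace ZQ.P3

open ZP hiding Agree AgreeW BG BadM Base BlockFacts CoreE Env EqEnv FG FOpn GoodK IsGamma LowTail Meet MeetL MembE NMemb Opn PBad PBadM POpn PastEv QK QT Route Speed StepP Sys UpTail badA badW envT inf infMv lin muK pe rin stepI stepR visU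
open ZP.P3 hiding membE_period

variable [ZQ.Thr]

open ZP hiding Agree AgreeW BG BadM Base BlockFacts CoreE Env EqEnv FG FOpn GoodK IsGamma LowTail Meet MeetL MembE NMemb Opn PBad PBadM POpn PastEv QK QT Route Speed StepP Sys UpTail badA badW envT inf infMv lin muK pe rin stepI stepR visU
open ZP.Rows hiding R_of_noRec R_toZI agree_take bh_chain cfg_toZI chain_eq chain_shift envT_toZI foldl_stepR_noRec foldl_stepR_toZI inf_noRec inf_toZI occ_toZI pe_path start_inv visU_noRec visU_toZI vis_of_noRec vis_toZI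
open ZQ.Rows
open ZQ

variable {d : ℕ}

theorem membE_period {M K : ℕ} (N1 : ℕ) (A : Prm) (hL : 1 ≤ A.L) (k : ℕ) (c z : Pos d)
    (η : Tor d M → ℕ) (w : List (Let d M (K + 1))) (h : MembE N1 A k c η w) :
    MembE N1 A k (fun t => c t + (A.nx k : ℤ) * ((M : ℤ) * z t)) η w := by
  intro l hl Q hQ hbd
  set x : Pos d := fun t => (M : ℤ) * z t with hx
  have e1 := anc_add A hL l k hl.le c x
  have e2 := anc_add A hL (l + 1) k hl c x
  change Q ∈ Rg (A.n l) (8 * d + 8) (anc A (l + 1) (fun t => c t + (A.nx k : ℤ) * x t), _) at hQ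
  change bd Q (anc A l (fun t => c t + (A.nx k : ℤ) * x t), _) ≤ A.D l at hbd
  rw [e2] at hQ
  rw [e1] at hbd
  set v : Pos d := fun t => ((A.nx k / A.nx l : ℕ) : ℤ) * x t with hv
  have hdiv : ((A.nx k / A.nx l : ℕ) : ℤ) = (A.n l : ℤ) * ((A.nx k / A.nx (l + 1) : ℕ) : ℤ) := by
    obtain ⟨e, he⟩ := nx_dvd A (l + 1) k hl
    have hp := nx_pos A hL l
    have hp1 := nx_pos A hL (l + 1)
    have h1 : A.nx k / A.nx (l + 1) = e := by rw [he, Nat.mul_div_cancel_left _ hp1]
    have h2 : A.nx k / A.nx l = A.n l * e := by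
      rw [he]
      show A.n l * A.nx l * e / A.nx l = A.n l * e
      rw [mul_comm (A.n l), mul_assoc, Nat.mul_div_cancel_left _ hp]
    rw [h1, h2]
    push_cast
    ring
  set Q0 : Blk d := (fun t => Q.1 t - v t, Q.2) with hQ0
  have hR : Q0 ∈ Rg (A.n l) (8 * d + 8) (anc A (l + 1) c, 3 * (A.ix d k / A.ix d (l + 1))) := by
    obtain ⟨h1, h2, h3⟩ := hQ
    refine ⟨fun j => ?_, h2, h3⟩
    have h4 := h1 j
    simp only [hQ0, hv] at h4 ⊢
    rw [hdiv]
    constructor
    · linarith [h4.1]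
    · linarith [h4.2]
  have hb : bd Q0 (anc A l c, 3 * (A.ix d k / A.ix d l)) ≤ A.D l := by
    have h1 : Q0.1 - anc A l c = Q.1 - (fun t => anc A l c t + v t) := by
      funext t
      simp only [hQ0, Pi.sub_apply]
      ring
    have h2 : bd Q0 (anc A l c, 3 * (A.ix d k / A.ix d l)) =
        bd Q ((fun t => anc A l c t + v t), 3 * (A.ix d k / A.ix d l)) := by
      unfold bd
      rw [show (anc A l c, 3 * (A.ix d k / A.ix d l)).1 = anc A l c from rfl, h1]
    rw [h2]
    exact hbd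
  have h5 := h l hl Q0 hR hb
  have htv : (tv (sm (A.S l) Q0.1) : Tor d M) = tv (sm (A.S l) Q.1) := by
    funext j
    show (((A.S l : ℤ) * (Q.1 j - ((A.nx k / A.nx l : ℕ) : ℤ) * ((M : ℤ) * z j)) : ℤ) : ZMod M) =
      (((A.S l : ℤ) * Q.1 j : ℤ) : ZMod M)
    push_cast
    rw [ZMod.natCast_self]
    ring
  intro h6
  apply h5
  unfold badA Bad badW at h6 ⊢
  rw [SF2.sft_tv N1 _ _ htv, SF2.sft_tv N1 _ _ htv]
  exact h6

variable {m : Model} {δ : ℝ}

end ZQ.P3
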