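import Pool.Agent.ZP.P3
import Pool.Agent.ZQ.P3c
import Pool.Agent.ZP.P3n
import Pool.Agent.ZQ.BKb
import Pool.Agent.ZP.DC

/-! # Row P3: visits -/

set_option autoImplicit false

open scoped ENNReal BigOperators Classical

noncomputable section

namespace ZQ.P3

open ZP hiding Agree AgreeW BG BadM Base BlockFacts CoreE Env EqEnv FG FOpn GoodK IsGamma LowTail Meet MeetL MembE NMemb Opn PBad PBadM POpn PastEv QK QT Route Speed StepP Sys UpTail badA badW envT foldl_stepR_fst foldl_stepR_inter foldl_stepR_mono foldl_stepR_occ foldl_stepR_region inf infMv infMv_mono infMv_occ inf_comp inf_inter inf_mono_univ inf_occ inf_pred lin mem_foldl_stepR mem_infMv muK pe rin stepI stepR visU visU_mono_univ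
open ZP.P3 hiding membE_period

variable [ZQ.Thr]

open ZP hiding Agree AgreeW BG BadM Base BlockFacts CoreE Env EqEnv FG FOpn GoodK IsGamma LowTail Meet MeetL MembE NMemb Opn PBad PBadM POpn PastEv QK QT Route Speed StepP Sys UpTail badA badW envT foldl_stepR_fst foldl_stepR_inter foldl_stepR_mono foldl_stepR_occ foldl_stepR_region inf infMv infMv_mono infMv_occ inf_comp inf_inter inf_mono_univ inf_occ inf_pred lin mem_foldl_stepR mem_infMv muK pe rin stepI stepR visU visU_mono_univ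
open ZP.Rows hiding R_of_noRec R_toZI agree_take badM_dec badM_of_pbadM badW_sft bh_chain cfg_toZI chain_eq chain_shift envT_toZI foldl_stepR_noRec foldl_stepR_toZI fopn_loc fopn_pth hier_badW inf_noRec inf_toZI membE_loc membE_pth memb_sft nmemb_dec nmemb_inc not_membE occ_toZI opn_inc pbadM_loc pbadM_pth pbad_pth pe_path popn_loc popn_of_opn popn_pth start_inv visU_noRec visU_toZI vis_of_noRec vis_toZI visit_prob
open ZQ.Rows
open ZQ

variable {d : ℕ} {m : Model} {δ : ℝ}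

end ZQ.P3

namespace ZQ.Rows

open ZP hiding Agree AgreeW BG BadM Base BlockFacts CoreE Env EqEnv FG FOpn GoodK IsGamma LowTail Meet MeetL MembE NMemb Opn PBad PBadM POpn PastEv QK QT Route Speed StepP Sys UpTail badA badW envT foldl_stepR_fst foldl_stepR_inter foldl_stepR_mono foldl_stepR_occ foldl_stepR_region inf infMv infMv_mono infMv_occ inf_comp inf_inter inf_mono_univ inf_occ inf_pred lin mem_foldl_stepR mem_infMv muK pe rin stepI stepR visU visU_mono_univ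
open ZP.Rows hiding R_of_noRec R_toZI agree_take badM_dec badM_of_pbadM badW_sft bh_chain cfg_toZI chain_eq chain_shift envT_toZI foldl_stepR_noRec foldl_stepR_toZI fopn_loc fopn_pth hier_badW inf_noRec inf_toZI membE_loc membE_pth memb_sft nmemb_dec nmemb_inc not_membE occ_toZI opn_inc pbadM_loc pbadM_pth pbad_pth pe_path popn_loc popn_of_opn popn_pth start_inv visU_noRec visU_toZI vis_of_noRec vis_toZI visit_prob

variable [ZQ.Thr]

open ZP hiding Agree AgreeW BG BadM Base BlockFacts CoreE Env EqEnv FG FOpn GoodK IsGamma LowTail Meet MeetL MembE NMemb Opn PBad PBadM POpn PastEv QK QT Route Speed StepP Sys UpTail badA badW envT foldl_stepR_fst foldl_stepR_inter foldl_stepR_mono foldl_stepR_occ foldl_stepR_region inf infMv infMv_mono infMv_occ inf_comp inf_inter inf_mono_univ inf_occ inf_pred lin mem_foldl_stepR mem_infMv muK pe rin stepI stepR visU visU_mono_univ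
open ZP.P3 hiding membE_period
open ZQ.P3
open ZQ

theorem visit_prob (m : Model) (d : ℕ) (hd : 0 < d) : ∃ Cs : ℕ, ∀ γ α : ℕ, ∃ r0 : ℕ, ∀ r ≥ r0,
    ∀ (A : Prm), A.γ = γ → A.α = α →
    1000 * (d + 1) ≤ A.L → A.α + 12 ≤ A.γ → A.L ≤ A.τ → A.τ ≤ A.L ^ 2 → ∀ (δ : ℝ) (q : Par d m δ)
    (k n H Θ : ℕ), 1 ≤ k → 8 * r ≤ A.S k → A.T d k ≤ r ^ A.γ ^ 3 → r ^ Cs + 8 * A.T d k ≤ Θ →
    q.Tiny n → A.T d k ^ 4 ≤ n → r ^ Cs ≤ n → A.T d k ^ 6 ≤ q.M → r ^ Cs ≤ q.M →
    4 * m.φ ≤ m.g q.K →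
    (∀ (φ' : ℝ) (h' : 0 < φ') (hK' : 2 * φ' ≤ m.g q.K), 7 / 8 * m.φ ≤ φ' → φ' ≤ 9 / 8 * m.φ →
      ∀ (b : Bool) (c : Pos d),
      (q.wf φ' h' hK').PP (8 * A.T d k * q.N1) (NMemb q.N1 A b k c) ≤ ENNReal.ofReal (1 / 64)) →
    q.PP (H * q.N1) (fun η w => ¬ ∀ (s : ℕ) (c : Pos d), 10 * A.T d k ≤ s →
        s + A.T d k ^ 4 + (4 * r + 1) * Θ ≤ H →
        ∃ i < 4 * r, sft q.N1 0 (s + A.T d k ^ 4 + i * Θ - 3 * A.T d k) (MembE q.N1 A k c) η w) ≤
      (H + 1) * (q.M : ℝ≥0∞) ^ (2 * d) * ENNReal.ofReal (Real.exp (-(5 * r : ℝ))) := by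
  have hφ := m.φ_pos
  obtain ⟨Cs, l0, hdc⟩ := decouple m d hd (7 / 8 * m.φ) (9 / 8 * m.φ) (by positivity) (by positivity)
  refine ⟨4 * Cs + 12, fun γ α => ?_⟩
  obtain ⟨r0, hnum⟩ := num (γ ^ 3 * (3 * d + 2)) l0 m.φ hφ
  refine ⟨r0, ?_⟩
  intro r hr A hAγ hAα hL hγ hτ1 hτ2 δ q k n H Θ hk hrS hTr hΘ hTiny hTn hrn hTM hrM hgK hNM
  obtain ⟨hr1, hl0, hgap, hfin⟩ := hnum r hr
  set T := A.T d k with hT
  have hL1 : 1 ≤ A.L := by omega
  have hγ1 : 1 ≤ A.γ := by omega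
  have hST : A.S k ≤ T := S_le_T A hL1 hγ1 hτ1 k
  have hLS : A.L ≤ A.S k := L_le_S A hL1 hγ1 k
  have hT1000 : 1000 ≤ T := by
    have : 1000 * 1 ≤ 1000 * (d + 1) := Nat.mul_le_mul_left _ (by omega)
    omega
  have hLT : A.L ≤ T := hLS.trans hST
  have hLT2 : A.L ^ 2 ≤ T ^ 2 := Nat.pow_le_pow_left hLT 2
  set ρ := 6 * A.S k + A.L ^ 2 + 1 with hρ
  have hT2 : 1000 * T ≤ T ^ 2 := by nlinarith
  have hT3 : 1000 * T ^ 2 ≤ T ^ 3 := by
    have : T ^ 3 = T * T ^ 2 := by ring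
    rw [this]
    exact Nat.mul_le_mul_right _ hT1000
  have hT36 : T ^ 3 ≤ T ^ 6 := Nat.pow_le_pow_right (by omega) (by norm_num)
  have hT4 : 3 * T ≤ T ^ 4 := by
    have : T ^ 3 ≤ T ^ 4 := Nat.pow_le_pow_right (by omega) (by norm_num)
    omega
  have hρ3 : 2 * ρ + 1 ≤ T ^ 3 := by omega
  have hMk : 12 * A.S k + 4 * A.L ^ 2 + 10 ≤ q.M := by omega
  -- the gap
  set G := r ^ (4 * Cs) with hG
  have hG12 : G ≤ r ^ (4 * Cs + 12) := Nat.pow_le_pow_right hr1 (by omega)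
  have hl3M : (r ^ 4) ^ 3 ≤ q.M := by
    rw [← pow_mul]
    exact (Nat.pow_le_pow_right hr1 (by omega)).trans hrM
  have hlK : r ^ 4 ≤ q.K := (Nat.pow_le_pow_right hr1 (by omega)).trans (hrn.trans hTiny.1)
  have hlCs : (r ^ 4) ^ Cs ≤ G := by rw [← pow_mul]
  have hK0 : 2 * m.φ ≤ m.g q.K := by linarith
  have hK1 : 2 * (7 / 8 * m.φ) ≤ m.g q.K := by linarith
  have hK2 : 2 * (9 / 8 * m.φ) ≤ m.g q.K := by linarith
  -- the error
  set e : ℝ≥0∞ := (2 * (ρ : ℝ≥0∞) + 1) ^ d * (((G + 8 * T : ℕ) : ℝ≥0∞) - (G : ℝ≥0∞) + 1) *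
    ENNReal.ofReal (Real.exp (-Real.sqrt ((r ^ 4 : ℕ) : ℝ))) with he
  set p : ℝ≥0∞ := ENNReal.ofReal (1 / 64) with hp
  have hp1 : p ≤ 1 := by
    rw [hp]
    exact ENNReal.ofReal_le_one.mpr (by norm_num)
  -- one step of decoupling
  have hdec : ∀ (c : Pos d) (b : Bool) (s : ℕ) (A' : Ev d q.M q.K),
      (∀ η w, A' η w ↔ A' η (w.take (s * q.N1))) →
      q.PP ((s + (G + 8 * T)) * q.N1)
        (fun η w => A' η w ∧ sft q.N1 0 s (sft q.N1 0 G (NMemb q.N1 A b k c)) η w) ≤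
        q.PP (s * q.N1) A' * p + e := by
    intro c b s A' hA'
    have hset : {v : Tor d q.M | v - tv (0 : Pos d) ∈ Bt (tv (sm A.L c) : Tor d q.M) ρ} =
        Bt (tv (sm A.L c)) ρ := by
      ext v
      rw [Set.mem_setOf_eq, SF1.tv_zero, sub_zero]
    cases b with
    | false =>
      have h1 := nmemb_dec (d := d) (M := q.M) (K := q.K) q.N1 A hL hγ k c hMk
      have h2 := DecE.sft q.N1 h1 0 G
      rw [hset, zero_add, add_comm (8 * A.T d k) G] at h2
      have h3 := (hdc (r ^ 4) hl0 (7 / 8 * m.φ) m.φ (by positivity) hφ le_rfl (by linarith)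
        (by linarith) (by
          have : m.φ - 7 / 8 * m.φ = m.φ / 8 := by ring
          rw [this]
          exact hgap) δ q hK1 hK0 hK2 hl3M hlK s G (G + 8 * T) ρ (sm A.L c) hlCs (by omega)
        (by omega) A' hA' _).1 h2
      rw [PP_wf_self, PP_wf_self] at h3
      have h4 := PP_sft (q.wf (7 / 8 * m.φ) (by positivity) hK1) hd 0 G (8 * A.T d k * q.N1)
        (NMemb q.N1 A false k c)
      have h5 := hNM (7 / 8 * m.φ) (by positivity) hK1 le_rfl (by linarith) false c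
      have h6 : (q.wf (7 / 8 * m.φ) (by positivity) hK1).PP ((G + 8 * T) * q.N1)
          (sft q.N1 0 G (NMemb q.N1 A false k c)) ≤ p := by
        rw [add_mul]
        exact h4.le.trans h5
      exact h3.trans (add_le_add (by gcongr; exact h6) (le_of_eq (by rw [he])))
    | true =>
      have h1 := nmemb_inc (d := d) (M := q.M) (K := q.K) q.N1 A hL hγ k c hMk
      have h2 := IncE.sft q.N1 h1 0 G
      rw [hset, zero_add, add_comm (8 * A.T d k) G] at h2
      have h3 := (hdc (r ^ 4) hl0 m.φ (9 / 8 * m.φ) hφ (by positivity) (by linarith) le_rfl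
        (by linarith) (by
          have : 9 / 8 * m.φ - m.φ = m.φ / 8 := by ring
          rw [this]
          exact hgap) δ q hK0 hK2 hK2 hl3M hlK s G (G + 8 * T) ρ (sm A.L c) hlCs (by omega)
        (by omega) A' hA' _).2 h2
      rw [PP_wf_self, PP_wf_self] at h3
      have h4 := PP_sft (q.wf (9 / 8 * m.φ) (by positivity) hK2) hd 0 G (8 * A.T d k * q.N1)
        (NMemb q.N1 A true k c)
      have h5 := hNM (9 / 8 * m.φ) (by positivity) hK2 (by linarith) le_rfl true c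
      have h6 : (q.wf (9 / 8 * m.φ) (by positivity) hK2).PP ((G + 8 * T) * q.N1)
          (sft q.N1 0 G (NMemb q.N1 A true k c)) ≤ p := by
        rw [add_mul]
        exact h4.le.trans h5
      exact h3.trans (add_le_add (by gcongr; exact h6) (le_of_eq (by rw [he])))
  -- the numerical bound
  have hbound : 2 * 2 ^ (4 * r) * (p ^ (2 * r) + (4 * r : ℕ) * e) ≤
      ENNReal.ofReal (Real.exp (-(5 * r : ℝ))) := by
    have hsqrt : Real.sqrt ((r ^ 4 : ℕ) : ℝ) = (r : ℝ) ^ 2 := by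
      push_cast
      rw [show (r : ℝ) ^ 4 = ((r : ℝ) ^ 2) ^ 2 by ring]
      exact Real.sqrt_sq (by positivity)
    have hnat : (2 * ρ + 1) ^ d * (8 * T + 1) ≤ r ^ (γ ^ 3 * (3 * d + 2)) := by
      have h1 : (2 * ρ + 1) ^ d ≤ T ^ (3 * d) := by
        rw [pow_mul]
        exact Nat.pow_le_pow_left hρ3 d
      have h2 : 8 * T + 1 ≤ T ^ 2 := by omega
      calc (2 * ρ + 1) ^ d * (8 * T + 1) ≤ T ^ (3 * d) * T ^ 2 := Nat.mul_le_mul h1 h2
        _ = T ^ (3 * d + 2) := by rw [pow_add]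
        _ ≤ (r ^ γ ^ 3) ^ (3 * d + 2) := Nat.pow_le_pow_left (by rw [← hAγ]; exact hTr) _
        _ = r ^ (γ ^ 3 * (3 * d + 2)) := by rw [← pow_mul]
    have he2 : e ≤ ((r ^ (γ ^ 3 * (3 * d + 2)) : ℕ) : ℝ≥0∞) *
        ENNReal.ofReal (Real.exp (-((r : ℝ) ^ 2))) := by
      rw [he, hsqrt]
      have h1 : ((G + 8 * T : ℕ) : ℝ≥0∞) - (G : ℝ≥0∞) + 1 = ((8 * T + 1 : ℕ) : ℝ≥0∞) := by
        rw [← ENNReal.natCast_sub, show G + 8 * T - G = 8 * T by omega]
        push_cast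
        rfl
      have h2 : (2 * (ρ : ℝ≥0∞) + 1) ^ d = (((2 * ρ + 1) ^ d : ℕ) : ℝ≥0∞) := by
        push_cast
        rfl
      rw [h1, h2, ← Nat.cast_mul]
      gcongr
    have hx : 0 ≤ Real.exp (-((r : ℝ) ^ 2)) := (Real.exp_pos _).le
    have h3 : 2 * 2 ^ (4 * r) * (p ^ (2 * r) + (4 * r : ℕ) * (((r ^ (γ ^ 3 * (3 * d + 2)) : ℕ) :
        ℝ≥0∞) * ENNReal.ofReal (Real.exp (-((r : ℝ) ^ 2))))) =
        ENNReal.ofReal (2 * 2 ^ (4 * r) * ((1 / 64 : ℝ) ^ (2 * r) + (4 * r : ℝ) *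
          ((r : ℝ) ^ (γ ^ 3 * (3 * d + 2)) * Real.exp (-((r : ℝ) ^ 2))))) := by
      rw [ENNReal.ofReal_mul (by positivity), ENNReal.ofReal_add (by positivity) (by positivity),
        ENNReal.ofReal_mul (by positivity), ENNReal.ofReal_mul (by positivity),
        ENNReal.ofReal_mul (by positivity), ENNReal.ofReal_mul (by positivity),
        ENNReal.ofReal_pow (by norm_num), ENNReal.ofReal_pow (by norm_num),
        ENNReal.ofReal_pow (by positivity), ENNReal.ofReal_natCast]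
      have h4 : ENNReal.ofReal 2 = 2 := by simp
      have h5 : ENNReal.ofReal 4 = 4 := by simp
      rw [h4, h5]
      push_cast
      rfl
    calc 2 * 2 ^ (4 * r) * (p ^ (2 * r) + (4 * r : ℕ) * e) ≤
        2 * 2 ^ (4 * r) * (p ^ (2 * r) + (4 * r : ℕ) * (((r ^ (γ ^ 3 * (3 * d + 2)) : ℕ) :
        ℝ≥0∞) * ENNReal.ofReal (Real.exp (-((r : ℝ) ^ 2))))) := by gcongr
      _ ≤ _ := by
        rw [h3]
        exact ENNReal.ofReal_le_ofReal hfin
  -- one pair (s, c)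
  have hΘG : G + 8 * T ≤ Θ := by omega
  have hLM : 2 * A.L ^ 2 + 4 ≤ q.M := by omega
  have hone : ∀ s c, (10 * T ≤ s ∧ s + T ^ 4 + (4 * r + 1) * Θ ≤ H) →
      q.PP (H * q.N1) (fun η w => ∀ i < 4 * r,
        ¬ sft q.N1 0 (s + T ^ 4 + i * Θ - 3 * T) (MembE q.N1 A k c) η w) ≤
        ENNReal.ofReal (Real.exp (-(5 * r : ℝ))) := by
    intro s c hs
    refine le_trans ?_ hbound
    refine two_signs q hd p e hp1 G (8 * T) (MembE q.N1 A k c) (fun b => NMemb q.N1 A b k c)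
      (Bt (tv (sm A.L c)) ρ) ?_ (hdec c) (fun η w h => not_membE q.N1 A η w hL hγ hLM k c h) ?_
      (fun i => s + T ^ 4 + i * Θ - 3 * T) ?_ r H ?_
    · intro b
      cases b with
      | false => exact DecE.loc q.N1 (nmemb_dec (d := d) (M := q.M) (K := q.K) q.N1 A hL hγ k c hMk)
      | true => exact IncE.loc q.N1 (nmemb_inc (d := d) (M := q.M) (K := q.K) q.N1 A hL hγ k c hMk)
    · intro b
      have h1 := hNM m.φ hφ hK0 (by linarith) (by linarith) b c
      rw [PP_wf_self] at h1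
      exact h1
    · intro i
      have h1 : (i + 1) * Θ = i * Θ + Θ := by ring
      show s + T ^ 4 + i * Θ - 3 * T + 8 * T + G ≤ s + T ^ 4 + (i + 1) * Θ - 3 * T
      omega
    · have h1 : (4 * r + 1) * Θ = 4 * r * Θ + Θ := by ring
      show s + T ^ 4 + 4 * r * Θ - 3 * T ≤ H
      omega
  -- the union
  have hnxT : A.nx k ≤ q.M := by
    have h1 : A.nx k ≤ A.ix d k := nx_le_ix A k
    have h2 : A.ix d k ≤ T := by
      rw [hT]
      show A.ix d k ≤ A.ix d k * A.τ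
      exact Nat.le_mul_of_pos_right _ (by omega)
    have h3 : T ≤ T ^ 6 := Nat.le_self_pow (by norm_num) T
    omega
  refine le_trans (PP_mono q _ fun η w _ h => ?_)
    (union_sc q (A.nx k) H (nx_pos A hL1 k) hnxT
      (fun s => 10 * T ≤ s ∧ s + T ^ 4 + (4 * r + 1) * Θ ≤ H) (fun s hs => by omega)
      (fun s c η w => ∀ i < 4 * r,
        ¬ sft q.N1 0 (s + T ^ 4 + i * Θ - 3 * T) (MembE q.N1 A k c) η w)
      (ENNReal.ofReal (Real.exp (-(5 * r : ℝ)))) ?_ hone)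
  · push Not at h
    obtain ⟨s, c, h1, h2, h3⟩ := h
    exact ⟨s, c, ⟨h1, h2⟩, h3⟩
  · intro s c z η w h i hi h2
    exact h i hi (membE_period q.N1 A hL1 k c z _ _ h2)

end ZQ.Rows
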