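import Pool.Agent.ZP.SH
import Pool.Agent.ZQ.SHa
import Pool.Agent.ZQ.PJ
import Pool.Agent.ZI.C5
import Pool.Agent.ZI.T1

/-! # SH: finite speed for the words of the chain -/

set_option autoImplicit false

open scoped ENNReal BigOperators Classical

noncomputable section

namespace ZQ.Rows

open ZP hiding Agree AgreeW BG BadM Base BlockFacts CoreE Env EqEnv FG FOpn GoodK IsGamma LowTail Meet MeetL MembE NMemb Opn PBad PBadM POpn PastEv QK QT Route Speed StepP Sys UpTail badA badW envT foldl_stepR_fst foldl_stepR_inter foldl_stepR_mono foldl_stepR_occ foldl_stepR_region inf infMv infMv_mono infMv_occ inf_comp inf_inter inf_mono_univ inf_occ inf_pred lin mem_foldl_stepR mem_infMv muK pe rin stepI stepR visU visU_mono_univ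
open ZP.Rows hiding R_mono R_occ R_of_noRec R_restrict R_route R_self R_split R_start R_toZI R_trans R_vis agree_take bh_chain cfg_toZI chain_eq chain_shift envT_shift envT_toZI foldl_stepR_noRec foldl_stepR_toZI good_take inf_mono inf_noRec inf_split inf_start inf_toZI mem_inf_iff occ_toZI pe_path shift_R shift_occ shift_vis speed_prob start_inv visU_mono visU_noRec visU_split visU_toZI vis_mono vis_mono_time vis_of_R vis_of_R' vis_of_noRec vis_restrict vis_toZI

variable [ZQ.Thr]

open ZP hiding Agree AgreeW BG BadM Base BlockFacts CoreE Env EqEnv FG FOpn GoodK IsGamma LowTail Meet MeetL MembE NMemb Opn PBad PBadM POpn PastEv QK QT Route Speed StepP Sys UpTail badA badW envT foldl_stepR_fst foldl_stepR_inter foldl_stepR_mono foldl_stepR_occ foldl_stepR_region inf infMv infMv_mono infMv_occ inf_comp inf_inter inf_mono_univ inf_occ inf_pred lin mem_foldl_stepR mem_infMv muK pe rin stepI stepR visU visU_mono_univ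
open ZQ

variable {d : ℕ}

namespace SHa

open ZI.Rows ZI.Rows.T1

end SHa

open ZI.Rows ZI.Rows.T1 in
/-- finite speed for the words of the chain (from ZI.C5, PJ; compare ZI/T1) -/
theorem speed_prob (m : Model) (d : ℕ) (hd : 0 < d) : ∃ Cv : ℕ, ∀ (δ : ℝ) (q : Par d m δ) (r H : ℕ),
    4 * (Cv * H + r + 2) < q.M →
    q.PP (H * q.N1) (fun η w => ¬ Speed (envT q η w) Cv r H) ≤
      (H + 1 : ℝ≥0∞) ^ 2 * (q.M : ℝ≥0∞) ^ d * ENNReal.ofReal (Cv * Real.exp (-(r : ℝ))) := by
  obtain ⟨Cv, hf⟩ := ZI.Rows.finite_speed m d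
  refine ⟨Cv, fun δ q r H hM => ?_⟩
  obtain ⟨q0, hq0⟩ : ∃ q0 : ZI.Par d m, q0 = q.toZI := ⟨_, rfl⟩
  -- the event in the chain without recovery
  have h1 : q.PP (H * q.N1) (fun η w => ¬ Speed (envT q η w) Cv r H) ≤
      q0.PP (H * q0.N1) (fun η l =>
        ∃ sT ∈ Finset.range (H + 1) ×ˢ Finset.range (H + 1), ((1 ≤ sT.2 ∧ sT.1 + sT.2 ≤ H) ∧
          B4 q0 r Cv sT.2 ((l.take (sT.1 * q0.N1)).foldl ZI.stepA η)
            ((l.drop (sT.1 * q0.N1)).take (sT.2 * q0.N1)))) := by
    subst hq0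
    show _ ≤ q.toZI.PP (H * q.N1) _
    rw [← PP_prj q hd]
    unfold Par.PP
    refine E4.EE_mono q _ fun η w => ?_
    by_cases h : Speed (envT q η w) Cv r H
    · rw [if_neg (not_not.2 h)]
      exact zero_le
    · rw [if_pos h, if_pos]
      by_contra hcon
      apply h
      have h2 := SHa.speed_of q.toZI η (w.map prj) r Cv H (by
        intro s T hT hsT hB
        exact hcon ⟨(s, T), Finset.mem_product.2 ⟨Finset.mem_range.2 (by simp only; omega),
          Finset.mem_range.2 (by simp only; omega)⟩, ⟨hT, hsT⟩, hB⟩)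
      have h3 : (envT q η w).toZI = ZI.envT q.toZI η (w.map prj) := envT_toZI q η w
      constructor
      · intro s t x y hst ht hR
        refine h2.1 s t x y hst ht ?_
        rw [← h3]
        exact R_toZI _ hR
      · intro s t x y hst ht hR
        refine h2.2 s t x y hst ht ?_
        rw [← h3]
        exact vis_toZI _ hR
  refine h1.trans ?_
  have h2 := ZI.Rows.T1.PP_finset_le q0 (H * q0.N1) (Finset.range (H + 1) ×ˢ Finset.range (H + 1))
    (fun sT η l => (1 ≤ sT.2 ∧ sT.1 + sT.2 ≤ H) ∧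
          B4 q0 r Cv sT.2 ((l.take (sT.1 * q0.N1)).foldl ZI.stepA η)
            ((l.drop (sT.1 * q0.N1)).take (sT.2 * q0.N1)))
    (((Fd d q0.M).card : ℝ≥0∞) * ENNReal.ofReal (Cv * Real.exp (- (r : ℝ)))) ?_
  · refine h2.trans (le_of_eq ?_)
    rw [Finset.card_product, Finset.card_range, card_Fd]
    push_cast
    rw [hq0]
    show _ = _ * (q.toZI.M : ℝ≥0∞) ^ d * _
    ring
  · rintro ⟨s, T⟩ -
    by_cases hsT : 1 ≤ T ∧ s + T ≤ H
    · refine le_trans (ZI.Rows.T1.PP_mono q0 _ fun η l _ h => h.2) ?_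
      have h3 := ZI.Rows.T1.PP_shift q0 hd H s T hsT.2 (B4 q0 r Cv T)
      rw [h3]
      refine PP_B4 q0 Cv r T hsT.1 fun x => hf q0 x T r ?_
      have h4 : q0.M = q.M := by rw [hq0]; rfl
      have : Cv * T ≤ Cv * H := Nat.mul_le_mul_left _ (by omega)
      omega
    · have h0 : q0.PP (H * q0.N1) (fun η l => (1 ≤ T ∧ s + T ≤ H) ∧
            B4 q0 r Cv T ((l.take (s * q0.N1)).foldl ZI.stepA η)
            ((l.drop (s * q0.N1)).take (T * q0.N1))) ≤ 0 := by
        refine ZI.Rows.T1.PP_le q0 _ _ _ fun η => ?_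
        rw [ZI.Rows.T1.PrE_zero_of]
        intro l hl
        exact hsT hl.1
      exact le_trans h0 zero_le

end ZQ.Rows
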