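import Pool.Agent.ZP.T1c
import Pool.Agent.ZP.T1b
import Pool.Agent.ZQ.SH
import Pool.Agent.ZQ.P2
import Pool.Agent.ZQ.P3
import Pool.Agent.ZQ.CO1
import Pool.Agent.ZQ.CO2
import Pool.Agent.ZQ.CF
import Pool.Agent.ZP.SF2
import Pool.Agent.ZQ.D2
import Pool.Agent.ZI.F1cA

/-! # Row T1, part c: the good event from the bounds of the multi-scale analysis -/

set_option autoImplicit false

open scoped ENNReal BigOperators Classical

noncomputable section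

namespace ZQ.T1

open ZP hiding Agree AgreeW BG BadM Base BlockFacts CoreE Env EqEnv FG FOpn GoodK IsGamma LowTail Meet MeetL MembE NMemb Opn PBad PBadM POpn PastEv QK QT Route Speed StepP Sys UpTail badA badW envT foldl_stepR_fst foldl_stepR_inter foldl_stepR_mono foldl_stepR_occ foldl_stepR_region inf infMv infMv_mono infMv_occ inf_comp inf_inter inf_mono_univ inf_occ inf_pred lin mem_foldl_stepR mem_infMv muK pe rin stepI stepR visU visU_mono_univ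
open ZP.T1 hiding BadB NmB good_core loc_good sft_good

variable [ZQ.Thr]

open ZP hiding Agree AgreeW BG BadM Base BlockFacts CoreE Env EqEnv FG FOpn GoodK IsGamma LowTail Meet MeetL MembE NMemb Opn PBad PBadM POpn PastEv QK QT Route Speed StepP Sys UpTail badA badW envT foldl_stepR_fst foldl_stepR_inter foldl_stepR_mono foldl_stepR_occ foldl_stepR_region inf infMv infMv_mono infMv_occ inf_comp inf_inter inf_mono_univ inf_occ inf_pred lin mem_foldl_stepR mem_infMv muK pe rin stepI stepR visU visU_mono_univ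
open ZQ

variable {d : ℕ}

theorem sft_good {m : Model} {δ : ℝ} (q : Par d m δ) (η : Tor d q.M → ℕ)
    (w : List (Let d q.M (q.K + 1))) (u r κ Cv S Dm : ℕ) :
    sft q.N1 0 u (fun η w => ¬ (envT q η w).Good r κ Cv S Dm) η w ↔
      ¬ ((envT q η w).shift u).Good r κ Cv S Dm := by
  have h0 : (tv (0 : Pos d) : Tor d q.M) = 0 := by
    funext j
    simp [ZI.tv]
  have h1 : ∀ l : List (Let d q.M (q.K + 1)), l.map (shL (-(0 : Tor d q.M))) = l := by
    intro l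
    have : (shL (-(0 : Tor d q.M)) : Let d q.M (q.K + 1) → _) = id := by
      funext a
      cases a with
      | none => rfl
      | some b => simp [ZI.shL]
    rw [this, List.map_id]
  unfold sft
  rw [h0, h1]
  simp only [add_zero]
  rw [Rows.envT_shift]


/-- the failure of the good event is local -/
theorem loc_good {m : Model} {δ : ℝ} (q : Par d m δ) (r κ Cv S Dm : ℕ) :
    LocE q.N1 (Set.univ : Set (Tor d q.M)) 0 S
      (fun η w => ¬ (envT q η w).Good r κ Cv S Dm) := by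
  intro η w η' w' h h' hE hE'
  apply hE
  have h1 : η = η' := by
    funext v
    refine le_antisymm ?_ ?_
    · simpa [stt] using h.cfg 0 (by omega) (by omega) v (Set.mem_univ _)
    · simpa [stt] using h'.cfg 0 (by omega) (by omega) v (Set.mem_univ _)
  have hres : ∀ a : Let d q.M (q.K + 1), res (Set.univ : Set (Tor d q.M)) a = a := by
    intro a
    cases a with
    | none => rfl
    | some b => simp [res]
  have h2 : w.take (S * q.N1) = w'.take (S * q.N1) := by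
    refine List.ext_getElem? fun i => ?_
    rw [List.getElem?_take, List.getElem?_take]
    split_ifs with hi
    · have h3 := h.lets i (by omega) hi
      rw [hres, hres] at h3
      have hl := h.len
      have hl' := h.len'
      rw [List.getD_eq_getElem?_getD, List.getD_eq_getElem?_getD,
        List.getElem?_eq_getElem (by omega), List.getElem?_eq_getElem (by omega)] at h3
      simp only [Option.getD_some] at h3
      rw [List.getElem?_eq_getElem (by omega), List.getElem?_eq_getElem (by omega), h3]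
    · rfl
  rw [← Rows.good_take, h1, h2]
  exact (Rows.good_take q η' w' r κ Cv S Dm).2 hE'

/-- the two bounds for the bad blocks and the hubs at the level `k` -/
def BadB {m : Model} {δ : ℝ} (q : Par d m δ) (A : Prm) (k : ℕ) : Prop :=
  (q.PP (6 * A.T d k * q.N1) (BadM q.N1 A k) ≤ ENNReal.ofReal (Real.exp (-(A.S (k - 1) : ℝ)))) ∧
  (q.PP (6 * A.T d k * q.N1) (BadP q.N1 A k) ≤ ENNReal.ofReal (Real.exp (-(A.S (k - 1) : ℝ))))

def NmB {m : Model} {δ : ℝ} (q : Par d m δ) (A : Prm) (k : ℕ) : Prop :=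
  ∀ (φ' : ℝ) (h' : 0 < φ') (hK' : 2 * φ' ≤ m.g q.K), 7 / 8 * m.φ ≤ φ' → φ' ≤ 9 / 8 * m.φ →
    ∀ (b : Bool) (c : Pos d),
    (q.wf φ' h' hK').PP (8 * A.T d k * q.N1) (NMemb q.N1 A b k c) ≤ ENNReal.ofReal (1 / 64)

set_option maxHeartbeats 4000000 in
/-- the good event, from the bounds of the multi-scale analysis -/
theorem good_core (m : Model) (d : ℕ) (hd : 0 < d) (A : Prm) (Δ : Set ℝ) (hL3 : 1000 * (d + 1) * 3 ^ d ≤ A.L)
    (hγ : A.γ = A.α + 20) (hτ1 : A.L ≤ A.τ) (hτ2 : A.τ ≤ A.L ^ 2)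
    (hyp : ∀ δ ∈ Δ, ∀ (q : Par d m δ) (n : ℕ), q.Tiny n → A.L ^ 5 ≤ n → 4 * m.φ ≤ m.g q.K →
      4 * A.L ^ 5 ≤ q.M →
      (∀ k, 1 ≤ k → A.S k ≤ n → 100 * A.S k + 10 * A.L ^ 2 ≤ q.M → BadB q A k ∧ NmB q A k) ∧
      q.PP (A.τ * q.N1) (fun η w => ¬ FOpn q.N1 A.L A.τ η w) ≤ ENNReal.ofReal (1 / 32)) :
    ∃ Cv a0 : ℕ, ∀ δ ∈ Δ, ∀ a ≥ a0, ∀ A' : ℕ, 4 * a ≤ A' → ∃ r0 : ℕ, ∀ r ≥ r0, ∀ n : ℕ,
    r ^ A' ≤ n → n ≤ (2 * r) ^ A' → ∀ q : Par d m δ, q.M = n ^ 4 → q.Tiny n →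
    q.PP (n ^ 2 * q.N1) (fun η l => ¬ (envT q η l).Good r (r ^ a) Cv (n ^ 2) (n ^ 2)) ≤
      ENNReal.ofReal (Real.exp (- (1 / 2) * r)) := by
  obtain ⟨Cv, hspeed⟩ := Rows.speed_prob m d hd
  obtain ⟨Cs, hvisit⟩ := Rows.visit_prob m d hd
  obtain ⟨C0, hgood⟩ := Rows.good_of_route d hd Cv
  obtain ⟨T0, hcore⟩ := Rows.core_route d hd Cv
  obtain ⟨r1, hmeet⟩ := Rows.meet_prob m d hd
  obtain ⟨r2, hvisit⟩ := hvisit A.γ A.α
  obtain ⟨L, hLd⟩ : ∃ L, L = A.L := ⟨_, rfl⟩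
  obtain ⟨γ, hγd⟩ : ∃ γ, γ = A.γ := ⟨_, rfl⟩
  have hAL : A.L = L := hLd.symm
  have hAγ : A.γ = γ := hγd.symm
  have hL4 : 1000 * (d + 1) ≤ L := by
    rw [hLd]
    exact le_trans (Nat.le_mul_of_pos_right _ (by positivity)) hL3
  have hγα : A.α + 12 ≤ A.γ := by rw [hγ]; omega
  refine ⟨Cv, 36 * γ ^ 2 + Cs + 10, ?_⟩
  intro δ hδ a ha A' hA'
  obtain ⟨r3, hr3⟩ := poly_exp (A' * (8 * d + 10)) (64 * (Cv + 1))
  refine ⟨max r1 r2 + r3 + r1 * L ^ 4 + T0 + 10 * C0 + 10 * L + 100 * (Cv + 10) +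
    Nat.ceil (4 * m.φ / m.Gm) + L ^ 5 + 1000, ?_⟩
  intro r hr n hn1 hn2 q hM hT
  have hLpos : 1 ≤ L := by omega
  have hL45 : L ^ 4 ≤ L ^ 5 := Nat.pow_le_pow_right hLpos (by norm_num)
  have hL25 : L ^ 2 ≤ L ^ 5 := Nat.pow_le_pow_right hLpos (by norm_num)
  have hrr1 : r1 ≤ r := by have := le_max_left r1 r2; omega
  have hrr2 : r2 ≤ r := by have := le_max_right r1 r2; omega
  have hrr3 : r3 ≤ r := by omega
  have hrL : L ≤ r := by omega
  have hr8 : 1000 ≤ r := by omega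
  have hrpos : 1 ≤ r := by omega
  obtain ⟨k, hk1, hk2, hk3⟩ := level (d := d) A (by rw [hAL]; omega) (by rw [hγ]; omega)
    hτ2 r (by rw [hAL]; exact hrL)
  obtain ⟨T, hTdef⟩ : ∃ T, T = A.T d k := ⟨_, rfl⟩
  have hST : A.S k ≤ T := by rw [hTdef]; exact T_ge A (by rw [hγ]; omega) hτ1 k
  have hSk : 8 * r ≤ A.S k := by
    obtain ⟨i, rfl⟩ : ∃ i, k = i + 1 := ⟨k - 1, by omega⟩
    exact hk2.trans (by
      simpa using S_mono_succ A (by rw [hAL]; omega) (by rw [hγ]; omega) i)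
  have hT8 : 8 * r ≤ T := hSk.trans hST
  -- T is a power of r
  have hr2 : 8 * r ≤ r ^ 2 := by nlinarith
  have hTb : T ≤ r ^ (6 * γ ^ 2) := by
    rw [hTdef]
    calc A.T d k ≤ (8 * r) ^ (3 * A.γ ^ 2) := hk3
      _ ≤ (r ^ 2) ^ (3 * A.γ ^ 2) := Nat.pow_le_pow_left hr2 _
      _ = r ^ (6 * γ ^ 2) := by rw [← pow_mul, hAγ]; ring_nf
  obtain ⟨Θ, hΘ⟩ : ∃ Θ, Θ = T * (r ^ Cs + 8) := ⟨_, rfl⟩
  have hTpos : 1 ≤ T := by omega
  have ha36 : 36 * γ ^ 2 + 10 ≤ a := by omega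
  obtain ⟨hT6n, hT4n, hTn, hrn, hT16, hT6M, hH3, hnn4⟩ :=
    num_n γ T r a A' n hr8 hTb hTpos ha36 hA' hn1
  have hκ := num_kappa C0 Cs γ T r a Θ (by omega) (by omega) hTb hΘ hTpos (by omega)
  obtain ⟨H, hH⟩ : ∃ H, H = n ^ 2 + 200 * T := ⟨_, rfl⟩
  rw [← hH] at hH3
  have hvel : 4 * (Cv * H + r + 2) < q.M := num_vel Cv H r n q.M hM (by omega) hrn hH3
  have hφK : 4 * m.φ ≤ m.g q.K := by
    have h1 := ZI.F1c.g_lb m q.K
    have h2 : ((Nat.ceil (4 * m.φ / m.Gm) : ℕ) : ℝ) ≤ q.K := by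
      have := hT.1
      exact_mod_cast (show Nat.ceil (4 * m.φ / m.Gm) ≤ q.K by omega)
    have h3 := (Nat.le_ceil (4 * m.φ / m.Gm)).trans h2
    rw [div_le_iff₀ m.Gm_pos] at h3
    linarith
  have hMn : 1000 * n ≤ q.M := by rw [hM]; exact hnn4
  have hSn : A.S k ≤ n := hST.trans hTn
  have hL2n : L ^ 2 ≤ n := by omega
  have hL5n : L ^ 5 ≤ n := by omega
  -- the multi-scale bounds
  obtain ⟨hyp1, hyp2⟩ := hyp δ hδ q n hT (by rw [hAL]; exact hL5n) hφK (by rw [hAL]; omega)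
  have hMk : 100 * A.S k + 10 * A.L ^ 2 ≤ q.M := by rw [hAL]; omega
  obtain ⟨hbadk', hnmk'⟩ := hyp1 k hk1 hSn hMk
  have hnmk0 : ∀ (b : Bool) (c : Pos d), q.PP (8 * A.T d k * q.N1) (NMemb q.N1 A b k c) ≤
      ENNReal.ofReal (1 / 64) := fun b c =>
    hnmk' m.φ m.φ_pos q.K_big (by linarith [m.φ_pos]) (by linarith [m.φ_pos]) b c
  have hT' : A.T d k = T := hTdef.symm
  -- the four bounds
  have b1 := Rows.core_fwd m d hd q A k r H (ENNReal.ofReal (Real.exp (-(A.S (k - 1) : ℝ))))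
    (by rw [hAL]; exact hL4) hγα (by rw [hAL]; omega) hbadk'.1 hbadk'.2
  have b2 := hmeet r hrr1 A (by rw [hAL]; exact hL4) hγα hτ1 hτ2 δ q k n H hk1 hSk
    (by rw [hAL, hT']; omega) hT (by rw [hT']; exact hT4n) (by rw [hT', hM]; exact hT6M) hnmk0 hyp2
  have b3 := hvisit r hrr2 A rfl rfl (by rw [hAL]; exact hL4) hγα hτ1 hτ2 δ q k n H Θ hk1 hSk
    (by
      rw [hT', hAγ]
      refine hTb.trans (Nat.pow_le_pow_right hrpos ?_)
      have : γ ^ 3 = γ * γ ^ 2 := by ring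
      rw [this]
      exact Nat.mul_le_mul_right _ (by omega))
    (by
      rw [hT', hΘ, Nat.mul_add]
      have : r ^ Cs ≤ T * r ^ Cs := Nat.le_mul_of_pos_left _ hTpos
      omega)
    hT (by rw [hT']; exact hT4n) ((Nat.pow_le_pow_right hrpos (by omega)).trans hn1)
    (by rw [hT', hM]; exact hT6M)
    (((Nat.pow_le_pow_right hrpos (by omega)).trans hn1).trans (by omega)) hφK hnmk'
  have b4 := hspeed δ q r H hvel
  -- shift of the event
  have hA1 : n ^ 2 * q.N1 ≤ (n ^ 2 + 100 * T) * q.N1 := Nat.mul_le_mul_right _ (by omega)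
  have e1 : q.PP (n ^ 2 * q.N1) (fun η l => ¬ (envT q η l).Good r (r ^ a) Cv (n ^ 2) (n ^ 2)) =
      q.PP (H * q.N1) (sft q.N1 0 (100 * T)
        (fun η l => ¬ (envT q η l).Good r (r ^ a) Cv (n ^ 2) (n ^ 2))) := by
    have h1 : H * q.N1 = 100 * T * q.N1 + (n ^ 2 + 100 * T) * q.N1 := by rw [hH]; ring
    rw [h1, Rows.PP_sft q hd, Rows.PP_loc q hd (loc_good q r (r ^ a) Cv (n ^ 2) (n ^ 2)) _ hA1]
  rw [e1]
  refine le_trans (Rows.PP_mono q (H * q.N1) (E' := fun η w =>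
    (¬ ((∀ (x : Pos d) (t : ℕ), t + 6 * A.T d k ≤ H → ∀ b,
        ¬ sft q.N1 x t (PBad q.N1 A b k) η w) ∧
      ∀ (x : Pos d) (t : ℕ), t + 6 * A.T d k ≤ H → ∀ b,
        ¬ sft q.N1 x t (PBad q.N1 A b k) (stt η w w.length) (rword η w))) ∨
    ((¬ ∀ (s' : ℕ) (c : Pos d), 10 * A.T d k ≤ s' →
        s' + 10 * A.T d k ≤ H → ∃ i < 3 * r, Meet q.N1 A k H s' (dg c (i * A.T d k ^ 2)) η w) ∨
    ((¬ ∀ (s : ℕ) (c : Pos d), 10 * A.T d k ≤ s →
        s + A.T d k ^ 4 + (4 * r + 1) * Θ ≤ H →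
        ∃ i < 4 * r, sft q.N1 0 (s + A.T d k ^ 4 + i * Θ - 3 * A.T d k) (MembE q.N1 A k c) η w) ∨
    ¬ Speed (envT q η w) Cv r H))) ?_) ?_
  · intro η w hw hE
    by_contra hcon
    simp only [not_or, not_not] at hcon
    obtain ⟨⟨c1, c2⟩, c3, c4, c5⟩ := hcon
    have hcoreE : CoreE q.N1 A k r H Θ η w := ⟨hw, c1, c2, c3, c4⟩
    have hroute := hcore A hL3 hγα hτ1 hτ2 m δ q η w k r H Θ hk1
      (by rw [hT']; omega) hSk (by rw [hT', hΘ]; exact Dvd.intro _ rfl)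
      (by rw [hT', hΘ, Nat.mul_add]; omega) (by rw [hT', hM]; exact hT16) hcoreE c5
    rw [hT'] at hroute
    rw [sft_good] at hE
    exact hE (hgood (envT q η w) T (T ^ 4 + (4 * r + 2) * Θ) H r (r ^ a) (n ^ 2) (100 * T) (n ^ 2)
      hroute c5 (by omega) (by omega) hκ le_rfl (by rw [hH]; omega))
  · refine le_trans (Rows.PP_or q _ _ _) ?_
    refine le_trans (add_le_add b1 ((Rows.PP_or q _ _ _).trans (add_le_add b2
      ((Rows.PP_or q _ _ _).trans (add_le_add b3 b4))))) ?_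
    have hs : (8 * r : ℝ) ≤ (A.S (k - 1) : ℝ) := by exact_mod_cast hk2
    have := num_sum Cv d n r A' H q.M hM hH3 (by omega) hrpos hn2 (A.S (k - 1) : ℝ) hs (hr3 r hrr3)
    exact this

end ZQ.T1
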