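import Pool.Agent.ZP.T1U
import Pool.Agent.ZQ.T1c
import Pool.Agent.ZQ.BU
import Pool.Agent.ZQ.NU
import Pool.Agent.ZQ.BB
import Pool.Agent.ZQ.D2
import Pool.Agent.ZI.P3

/-! # Row T1U: the good event for large densities and all recovery rates; the constants -/

set_option autoImplicit false

open scoped ENNReal BigOperators Classical

noncomputable section

namespace ZQ.Rows

open ZP hiding Agree AgreeW BG BadM Base BlockFacts CoreE EK Env EqEnv FG FOpn GoodK IsGamma Iset LowTail Meet MeetL MembE NMemb Opn PBad PBadM POpn PastEv QK QT Route Speed StepP Surv Sys UpTail badA badW capE conf envB envC envT foldl_stepR_fst foldl_stepR_inter foldl_stepR_mono foldl_stepR_occ foldl_stepR_region inf infMv infMv_mono infMv_occ inf_comp inf_inter inf_mono_univ inf_occ inf_pred infd kill lin mem_foldl_stepR mem_infMv muK pe rin st stepI stepR visU visU_mono_univ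
open ZP.Rows hiding PP_rev R_mono R_occ R_of_noRec R_restrict R_rev R_route R_self R_split R_start R_toZI R_trans R_vis agree_take badM_dec badM_of_pbadM badW_sft bad_prob bad_prob_u base_big base_exists base_exists_u base_opn bh_chain block_facts cfg_toZI chain_eq chain_shift core_fwd core_route envT_shift envT_toZI foldl_stepR_noRec foldl_stepR_toZI fopn_loc fopn_pth good_Cv good_of_route good_take good_whp good_whp_u hier_badW inf_mono inf_noRec inf_split inf_start inf_toZI kill_R kill_vis killed_agree meetL_loc meetL_prob meet_local meet_prob mem_inf_iff membE_loc membE_pth memb_sft nmemb_dec nmemb_inc nmemb_prob nmemb_prob_u not_membE occ_toZI opn_inc pbadM_loc pbadM_pth pbad_pth pe_path popn_loc popn_of_opn popn_pth rword_path shift_R shift_occ shift_vis speed_prob spread start_inv visU_mono visU_noRec visU_split visU_toZI vis_mono vis_mono_time vis_of_R vis_of_R' vis_of_noRec vis_restrict vis_toZI visit_prob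

variable [ZQ.Thr]

open ZP hiding Agree AgreeW BG BadM Base BlockFacts CoreE EK Env EqEnv FG FOpn GoodK IsGamma Iset LowTail Meet MeetL MembE NMemb Opn PBad PBadM POpn PastEv QK QT Route Speed StepP Surv Sys UpTail badA badW capE conf envB envC envT foldl_stepR_fst foldl_stepR_inter foldl_stepR_mono foldl_stepR_occ foldl_stepR_region inf infMv infMv_mono infMv_occ inf_comp inf_inter inf_mono_univ inf_occ inf_pred infd kill lin mem_foldl_stepR mem_infMv muK pe rin st stepI stepR visU visU_mono_univ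
open ZP.T1 hiding BadB NmB good_core loc_good sft_good
open ZQ.T1
open ZQ

theorem good_Cv {d : ℕ} {E : Env d} {r κ Cv Cv' S Dm : ℕ} (h : Cv ≤ Cv')
    (hE : E.Good r κ Cv S Dm) : E.Good r κ Cv' S Dm := by
  obtain ⟨g1, g3, g3', g4, g4'⟩ := hE
  have h' : (Cv : ℝ) ≤ Cv' := by exact_mod_cast h
  refine ⟨g1, g3, g3', ?_, ?_⟩
  · intro s t x y hst ht hR
    have h1 : (0 : ℝ) ≤ (t : ℝ) - s := sub_nonneg.2 (by exact_mod_cast hst)
    have h2 := g4 s t x y hst ht hR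
    nlinarith
  · intro s t x y hst ht hR
    have h1 : (0 : ℝ) ≤ (t : ℝ) - s := sub_nonneg.2 (by exact_mod_cast hst)
    have h2 := g4' s t x y hst ht hR
    nlinarith

theorem good_whp_u (m : Model) (d : ℕ) (hd : 0 < d) : ∃ φ1 : ℝ, 0 < φ1 ∧ ∀ (φ0 : ℝ) (h0 : 0 < φ0), φ1 ≤ φ0 →
    ∃ Cv a0 : ℕ, ∃ c : ℝ, 0 < c ∧
    ∀ δ : ℝ, ∀ a ≥ a0, ∀ A : ℕ, 4 * a ≤ A → ∃ r0 : ℕ, ∀ r ≥ r0, ∀ n : ℕ,
    r ^ A ≤ n → n ≤ (2 * r) ^ A → ∀ q : Par d (wf m φ0 h0) δ, q.M = n ^ 4 → q.Tiny n →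
    q.PP (n ^ 2 * q.N1) (fun η l => ¬ (envT q η l).Good r (r ^ a) Cv (n ^ 2) (n ^ 2)) ≤
      ENNReal.ofReal (Real.exp (- c * r)) := by
  obtain ⟨α1, hbad⟩ := bad_prob_u m d hd
  obtain ⟨α2, hnm⟩ := nmemb_prob_u m d hd
  obtain ⟨C1, hbad⟩ := hbad (max α1 α2) (le_max_left _ _) (max α1 α2 + 20) le_rfl
  obtain ⟨C2, hnm⟩ := hnm (max α1 α2) (le_max_right _ _) (max α1 α2 + 20) le_rfl
  obtain ⟨φ1, hφ1, hbase⟩ := base_big m d hd (3 * (d + 1) * (max α1 α2 + 20 + 1))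
    (max (max C1 C2) (1000 * (d + 1) * 3 ^ d))
  refine ⟨φ1, by linarith, fun φ0 h0 hφ0 => ?_⟩
  obtain ⟨L, τ, hL, hL3', hτ1, hτ2, hbase⟩ := hbase φ0 h0 hφ0
  have hL3 : 1000 * (d + 1) * 3 ^ d ≤ L := (le_max_right _ _).trans hL3'
  have h20 : 2 ≤ φ0 := hφ1.trans hφ0
  have hmono : ∀ C : ℕ, C ≤ max (max C1 C2) (1000 * (d + 1) * 3 ^ d) → C * φ0 ^ C ≤ (L : ℝ) := by
    intro C hC
    refine le_trans ?_ hL
    have h1 : (C : ℝ) ≤ ((max (max C1 C2) (1000 * (d + 1) * 3 ^ d) : ℕ) : ℝ) := by exact_mod_cast hC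
    have h2 : φ0 ^ C ≤ φ0 ^ (max (max C1 C2) (1000 * (d + 1) * 3 ^ d)) :=
      pow_le_pow_right₀ (by linarith) hC
    exact mul_le_mul h1 h2 (by positivity) (by positivity)
  have hLC1 := hmono C1 ((le_max_left _ _).trans (le_max_left _ _))
  have hLC2 := hmono C2 ((le_max_right _ _).trans (le_max_left _ _))
  set A : Prm := ⟨L, τ, max α1 α2 + 20, max α1 α2⟩ with hA
  have hcore := good_core (wf m φ0 h0) d hd A Set.univ hL3 rfl hτ1 hτ2 (by
    intro δ _ q n hT hn hφK hM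
    have hbs := hbase δ q n hT hn hφK hM
    have hp0 : (A.L : ℝ) ^ (CstU d A) * (1 / (L : ℝ) ^ (3 * (d + 1) * (max α1 α2 + 20 + 1))) ≤ 1 := by
      have h1 : CstU d A = 3 * (d + 1) * (max α1 α2 + 20 + 1) := rfl
      have h2 : (0 : ℝ) < (L : ℝ) ^ (3 * (d + 1) * (max α1 α2 + 20 + 1)) := by
        have h3 : 0 < 1000 * (d + 1) * 3 ^ d := by positivity
        have : (0 : ℝ) < L := by exact_mod_cast (show 0 < L by omega)
        positivity
      rw [h1, mul_one_div, div_self h2.ne']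
    have hp00 : (0 : ℝ) ≤ 1 / (L : ℝ) ^ (3 * (d + 1) * (max α1 α2 + 20 + 1)) := by positivity
    have hbadk := hbad A rfl rfl hτ1 hτ2 φ0 h0 h20 hLC1 δ q n hT hφK _ hp00 hp0 hbs.1
    have hnmk := hnm A rfl rfl hτ1 hτ2 φ0 h0 h20 hLC2 δ q n hT hφK _ hp00 hp0 hbs.1
    refine ⟨fun k hk hSn hMk => ⟨?_, hnmk k hSn hMk⟩, hbs.2⟩
    have hk0 : k ≠ 0 := by omega
    have h := hbadk k hSn hMk φ0 h0 q.K_big (by linarith) (by linarith)
    rw [if_neg hk0, if_neg hk0] at h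
    exact h)
  obtain ⟨Cv, a0, hcore⟩ := hcore
  refine ⟨Cv, a0, 1 / 2, by norm_num, ?_⟩
  intro δ a ha A' hA'
  exact hcore δ (Set.mem_univ _) a ha A' hA'

/-- the constants for large densities -/
theorem base_exists_u (m : Model) (d : ℕ) (hd : 0 < d) : ∃ φ1 : ℝ, 0 < φ1 ∧
    ∀ (φ0 : ℝ) (h0 : 0 < φ0), φ1 ≤ φ0 → ∀ δ : ℝ,
    ∃ (Cv a A r0 : ℕ) (c : ℝ), Base (wf m φ0 h0) δ d Cv a A r0 c := by
  obtain ⟨φ1, hφ1, hgood⟩ := good_whp_u m d hd
  refine ⟨φ1, hφ1, fun φ0 h0 hφ0 δ => ?_⟩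
  obtain ⟨Cv0, a0, c, hc, hgood⟩ := hgood φ0 h0 hφ0
  obtain ⟨a, ha, A0, hfacts⟩ := block_facts d hd (Cv0 + 1) (max a0 10)
  have ha0 : a0 ≤ a := (le_max_left _ _).trans ha
  have ha10 : 10 ≤ a := (le_max_right _ _).trans ha
  obtain ⟨r1, h1⟩ := hgood δ a ha0 (max A0 (1000 * a))
    (by have := le_max_right A0 (1000 * a); omega)
  obtain ⟨r2, h2⟩ := hfacts (max A0 (1000 * a)) (le_max_left _ _)
  refine ⟨Cv0 + 1, a, max A0 (1000 * a), max (max r1 r2) 10, c, ?_⟩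
  refine
    { d_pos := hd
      c_pos := hc
      Cv_pos := Nat.succ_pos _
      a_big := ha10
      A_big := le_max_right _ _
      r0_big := le_max_right _ _
      good := ?_
      facts := ?_ }
  · intro r hr n hn1 hn2 q hM hT
    refine le_trans (PP_mono q _ fun η l _ hG hG' => hG (good_Cv (Nat.le_succ Cv0) hG'))
      (h1 r ((le_max_left _ _).trans ((le_max_left _ _).trans hr)) n hn1 hn2 q hM hT)
  · intro r hr n hn E hE u hu m' hm1 hm2 z s hs hs'
    exact h2 r ((le_max_right _ _).trans ((le_max_left _ _).trans hr)) n hn E hE u hu m' hm1 hm2 z s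
      hs hs'

end ZQ.Rows
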