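import Pool.Agent.ZP.Aux79
import Pool.Agent.ZQ.Sys2
import Pool.Agent.ZI.Aux79

/-! # Auxiliary facts for S5: reverse comparison with independent blocks (with recovery) -/

set_option autoImplicit false

open scoped ENNReal BigOperators Classical
open MeasureTheory

noncomputable section

namespace ZQ.Rows

open ZP hiding Agree BlockFacts Env GoodK IsGamma LowTail QK StepP Sys UpTail envT inf infMv muK stepI stepR visU
open ZP.Rows
open ZQ.Rows

variable [ZQ.Thr]

open ZI.Rows
open ZP hiding Agree BlockFacts Env GoodK IsGamma LowTail QK StepP Sys UpTail envT inf infMv muK stepI stepR visU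
open ZQ

variable {d : ℕ} {Ω : Type} [MeasurableSpace Ω] {P : Measure Ω}

namespace S5

variable [IsProbabilityMeasure P]

/-- the reverse of the comparison with independent blocks -/
theorem chain_rev (S : Sys d P) (k : ℕ) (hk : S.k0 ≤ k) (u : Fin d → ℝ) (hu : ∑ j, u j ^ 2 = 1)
    (ms : List ℕ) (hms : ∀ m ∈ ms, rr S.A k ^ (7 * S.a) ≤ m) (hsum : ms.sum ≤ rr S.A k * 2 ^ k)
    (z : Pos d) (s : ℕ) (hks : kp S.a S.A k ≤ s) (hs : 2 * s ≤ (2 ^ k) ^ 2)
    (G : List (ℕ × Pos d) → Prop) :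
    prodQ (QK P S.E S.a S.A k u) ms G ≤
      P {ω | G ((S.E k ω).chain (PK d S.a S.A k) u ms z s)} + err (rr S.A k) := by
  have h1 := S.chain k hk u hu ms hms hsum z s hks hs (fun l => ¬ G l)
  have h2 := prodQ_le_one (QK P S.E S.a S.A k u) (fun m => S.tsumQ k hk u m) ms G
  have h3 : (1 : ℝ≥0∞) ≤ P {ω | G ((S.E k ω).chain (PK d S.a S.A k) u ms z s)} +
      P {ω | ¬ G ((S.E k ω).chain (PK d S.a S.A k) u ms z s)} := by
    refine le_trans (le_of_eq ?_) (measure_union_le _ _)
    rw [← measure_univ (μ := P)]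
    congr 1
    ext ω
    simp [em]
  have h4 : prodQ (QK P S.E S.a S.A k u) ms (fun l => ¬ G l) ≠ ⊤ := by
    refine ne_top_of_le_ne_top ENNReal.one_ne_top ?_
    rw [← h2]
    exact le_add_self
  rw [← ENNReal.add_le_add_iff_right h4]
  calc prodQ (QK P S.E S.a S.A k u) ms G + prodQ (QK P S.E S.a S.A k u) ms (fun l => ¬ G l)
      = 1 := h2
    _ ≤ P {ω | G ((S.E k ω).chain (PK d S.a S.A k) u ms z s)} +
      P {ω | ¬ G ((S.E k ω).chain (PK d S.a S.A k) u ms z s)} := h3
    _ ≤ P {ω | G ((S.E k ω).chain (PK d S.a S.A k) u ms z s)} +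
      (prodQ (QK P S.E S.a S.A k u) ms (fun l => ¬ G l) + err (rr S.A k)) := by
        gcongr
    _ = _ := by ring

end S5

end ZQ.Rows
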