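import Pool.Agent.ZP.E2
import Pool.Agent.ZQ.E1
import Pool.Agent.ZI.E2

/-! # Row E2: paths with marks that agree in a region give infections that agree; port of ZI/E2 -/

set_option autoImplicit false

open scoped ENNReal BigOperators Classical

noncomputable section

namespace ZQ.E2

open ZP hiding AgreeW Base BlockFacts Env EqEnv PastEv QT envT inf infMv pe stepI stepR visU
open ZP.E2 hiding core fold_agree fold_filterMap infMv_eq_nu inf_succ nu nu_congr nu_self nu_sub stG stG_foldl_fst stG_foldl_sub visU_eq visU_sub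

variable [ZQ.Thr]

open ZP hiding AgreeW Base BlockFacts Env EqEnv PastEv QT envT inf infMv pe stepI stepR visU
open ZQ

variable {d : ℕ}

/-- the infected set after one step, as a function of the mark and of the two consecutive configurations -/
def nu {M : ℕ} (o : Option (Tor d M)) (η η1 : Tor d M → ℕ) (A : Set (Pos d)) : Set (Pos d) :=
  {z | z ∈ ZP.E2.nu o η η1 A ∧ ((z ∈ A ∧ η (tv z) ≤ η1 (tv z)) ∨ Thr.θ ≤ η1 (tv z))}

theorem nu_self {M : ℕ} (η : Tor d M → ℕ) (A : Set (Pos d)) : nu none η η A = A := by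
  ext z
  unfold nu
  rw [ZP.E2.nu_self]
  constructor
  · exact fun h => h.1
  · exact fun h => ⟨h, Or.inl ⟨h, le_rfl⟩⟩

/-- the infection moves as a function of the configurations and the mark -/
theorem infMv_eq_nu {M : ℕ} (hM : 3 ≤ M) (η : Tor d M → ℕ) (A : Set (Pos d))
    (b : Lab (Tor d M) d) : infMv nbT tv η A b = nu (mkL b) η (mv nbT η b) A := by
  have hM2 : 2 ≤ M := by omega
  have h0 := ZP.E2.infMv_eq_nu hM η A b
  obtain ⟨x, j, e⟩ := b
  unfold nu
  rw [← h0]
  cases j with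
  | zero =>
    ext z
    show (z ∈ A ∧ (tv z = x → 2 ≤ η x)) ↔
      ((z ∈ A ∧ (tv z = x → 2 ≤ η x)) ∧ ((z ∈ A ∧ η (tv z) ≤ η (tv z)) ∨ Thr.θ ≤ η (tv z)))
    exact ⟨fun h => ⟨h, Or.inl ⟨h.1, le_rfl⟩⟩, fun h => h.1⟩
  | succ k =>
    ext z
    show (z ∈ ZI.infMv nbT tv η A (x, k, e) ∧
        (k < η x → (z ∈ A ∧ tv z ≠ x) ∨ Thr.θ ≤ ZI.mv nbT η (x, k, e) (tv z))) ↔
      (z ∈ ZI.infMv nbT tv η A (x, k, e) ∧ ((z ∈ A ∧ η (tv z) ≤ ZI.mv nbT η (x, k, e) (tv z)) ∨
        Thr.θ ≤ ZI.mv nbT η (x, k, e) (tv z)))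
    refine and_congr_right fun hz => ?_
    by_cases hk : k < η x
    · have h1 := ZI.Rows.mv_at hM2 η (x, k, e) hk
      constructor
      · intro h
        refine (h hk).imp_left fun h' => ⟨h'.1, ZI.Rows.le_mv_of_ne hM2 η (x, k, e) _ h'.2⟩
      · intro h _
        refine h.imp_left fun h' => ⟨h'.1, fun h2 => ?_⟩
        have h3 := h'.2
        rw [h2] at h3
        change ZI.mv nbT η (x, k, e) x = η x - 1 at h1
        omega
    · have h1 : z ∈ A := by
        unfold ZI.infMv at hz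
        rwa [if_neg hk] at hz
      rw [ZI.C5.mv_stay η (x, k, e) hk]
      exact ⟨fun _ => Or.inl ⟨h1, le_rfl⟩, fun _ h' => absurd h' hk⟩

theorem nu_sub {M : ℕ} {o o' : Option (Tor d M)} {η η1 η' η1' : Tor d M → ℕ} {A Γ : Set (Pos d)}
    (hA : A ⊆ Γ)
    (h0 : ∀ y ∈ Γ, ∀ z : Pos d, (z = y ∨ ∃ e : Dir d, z = y + dv e) → η (tv z) = η' (tv z))
    (h1 : ∀ y ∈ Γ, ∀ z : Pos d, (z = y ∨ ∃ e : Dir d, z = y + dv e) → η1 (tv z) = η1' (tv z))
    (h2 : ∀ y ∈ Γ, ∀ z : Pos d, (z = y ∨ ∃ e : Dir d, z = y + dv e) →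
      (o' = some (tv z) → o = some (tv z))) :
    nu o η η1 A ⊆ nu o' η' η1' A := by
  rintro z ⟨hz, ho⟩
  refine ⟨ZP.E2.nu_sub hA h0 h1 h2 hz, ?_⟩
  have hy : ∃ y ∈ Γ, z = y ∨ ∃ e : Dir d, z = y + dv e := by
    rcases hz.1 with ⟨hz, -⟩ | ⟨e, hz, -, -⟩
    · exact ⟨z, hA hz, Or.inl rfl⟩
    · exact ⟨_, hA hz, Or.inr ⟨e, (sub_add_cancel z _).symm⟩⟩
  obtain ⟨y, hy, hyz⟩ := hy
  rw [← h0 y hy z hyz, ← h1 y hy z hyz]
  exact ho

theorem nu_congr {M : ℕ} {o o' : Option (Tor d M)} {η η1 η' η1' : Tor d M → ℕ} {A Γ : Set (Pos d)}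
    (hA : A ⊆ Γ)
    (h0 : ∀ y ∈ Γ, ∀ z : Pos d, (z = y ∨ ∃ e : Dir d, z = y + dv e) → η (tv z) = η' (tv z))
    (h1 : ∀ y ∈ Γ, ∀ z : Pos d, (z = y ∨ ∃ e : Dir d, z = y + dv e) → η1 (tv z) = η1' (tv z))
    (h2 : ∀ y ∈ Γ, ∀ z : Pos d, (z = y ∨ ∃ e : Dir d, z = y + dv e) →
      (o = some (tv z) ↔ o' = some (tv z))) :
    nu o η η1 A = nu o' η' η1' A :=
  Set.Subset.antisymm (nu_sub hA h0 h1 fun y hy z hz => (h2 y hy z hz).2)
    (nu_sub hA (fun y hy z hz => (h0 y hy z hz).symm) (fun y hy z hz => (h1 y hy z hz).symm)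
      fun y hy z hz => (h2 y hy z hz).1)

/-- one letter for the restricted infection -/
def stG {M K : ℕ} (G : Set (Pos d)) (s : (Tor d M → ℕ) × Set (Pos d)) (a : Let d M K) :
    (Tor d M → ℕ) × Set (Pos d) :=
  (stepA s.1 a, nu (mark a) s.1 (stepA s.1 a) s.2 ∩ G)

theorem stG_foldl_fst {M K : ℕ} (G : Set (Pos d)) (L : List (Let d M K)) :
    ∀ s : (Tor d M → ℕ) × Set (Pos d), (L.foldl (stG G) s).1 = L.foldl stepA s.1 := by
  induction L with
  | nil => exact fun _ => rfl
  | cons a L ih => exact fun s => ih _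

theorem stG_foldl_sub {M K : ℕ} (G : Set (Pos d)) (L : List (Let d M K)) :
    ∀ s : (Tor d M → ℕ) × Set (Pos d), s.2 ⊆ G → (L.foldl (stG G) s).2 ⊆ G := by
  induction L with
  | nil => exact fun _ h => h
  | cons a L ih => exact fun s _ => ih _ Set.inter_subset_right

theorem fold_filterMap {M K : ℕ} (hM : 3 ≤ M) (G : Set (Pos d)) (L : List (Let d M K)) :
    ∀ s : (Tor d M → ℕ) × Set (Pos d), s.2 ⊆ G →
      (L.filterMap toLab).foldl (stepR nbT tv G) s = L.foldl (stG G) s := by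
  induction L with
  | nil => exact fun s _ => rfl
  | cons a L ih =>
    intro s hs
    cases h : toLab a with
    | none =>
      have h1 : stG G s a = s := by
        have h2 : stepA s.1 a = s.1 := by
          unfold stepA
          rw [h]
        have h3 : mark a = none := by
          unfold mark
          rw [h]
        refine Prod.ext h2 ?_
        change nu (mark a) s.1 (stepA s.1 a) s.2 ∩ G = s.2
        rw [h2, h3, nu_self]
        exact Set.inter_eq_left.2 hs
      rw [List.filterMap_cons_none h, List.foldl_cons, h1]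
      exact ih s hs
    | some b =>
      have h1 : stG G s a = stepR nbT tv G s b := by
        have h2 : stepA s.1 a = mv nbT s.1 b := by
          unfold stepA
          rw [h]
        refine Prod.ext h2 ?_
        change nu (mark a) s.1 (stepA s.1 a) s.2 ∩ G = infMv nbT tv s.1 s.2 b ∩ G
        rw [h2, infMv_eq_nu hM, mark_eq a b h]
      rw [List.filterMap_cons_some h, List.foldl_cons, List.foldl_cons, h1]
      exact ih _ Set.inter_subset_right

/-- two words whose configurations and marks agree near the region give the same infected sets in it -/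
theorem fold_agree {M K : ℕ} (G Γ : Set (Pos d)) (η η' : Tor d M → ℕ) (A : Set (Pos d))
    (L L' : List (Let d M K)) (hlen : L.length = L'.length)
    (hag : ∀ i ≤ L.length, ∀ y ∈ Γ, ∀ z : Pos d, (z = y ∨ ∃ e : Dir d, z = y + dv e) →
      (L.take i).foldl stepA η (tv z) = (L'.take i).foldl stepA η' (tv z))
    (hmk : ∀ i < L.length, ∀ y ∈ Γ, ∀ z : Pos d, (z = y ∨ ∃ e : Dir d, z = y + dv e) →
      ((L.map mark).getD i none = some (tv z) ↔ (L'.map mark).getD i none = some (tv z)))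
    (hsub : ∀ i ≤ L.length, ((L.take i).foldl (stG G) (η, A)).2 ⊆ Γ) :
    ∀ i ≤ L.length, ((L.take i).foldl (stG G) (η, A)).2 = ((L'.take i).foldl (stG G) (η', A)).2 := by
  intro i
  induction i with
  | zero =>
    intro _
    rw [List.take_zero, List.take_zero]
    rfl
  | succ i ih =>
    intro hi
    have hi1 : i < L.length := by omega
    have hi2 : i < L'.length := by omega
    have e1 : L.take (i + 1) = L.take i ++ [L[i]] := (List.take_append_getElem hi1).symm
    have e2 : L'.take (i + 1) = L'.take i ++ [L'[i]] := (List.take_append_getElem hi2).symm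
    have ih' := ih (by omega)
    have f1 : (L.take (i + 1)).foldl stepA η = stepA ((L.take i).foldl stepA η) L[i] := by
      rw [e1, List.foldl_append]
      rfl
    have f2 : (L'.take (i + 1)).foldl stepA η' = stepA ((L'.take i).foldl stepA η') L'[i] := by
      rw [e2, List.foldl_append]
      rfl
    have m1 : (L.map mark).getD i none = mark L[i] := by
      rw [List.getD_eq_getElem _ _ (by rw [List.length_map]; exact hi1), List.getElem_map]
    have m2 : (L'.map mark).getD i none = mark L'[i] := by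
      rw [List.getD_eq_getElem _ _ (by rw [List.length_map]; exact hi2), List.getElem_map]
    have hmk' := hmk i hi1
    rw [m1, m2] at hmk'
    rw [e1, e2, List.foldl_append, List.foldl_append]
    change nu (mark L[i]) ((L.take i).foldl (stG G) (η, A)).1
        (stepA ((L.take i).foldl (stG G) (η, A)).1 L[i]) ((L.take i).foldl (stG G) (η, A)).2 ∩ G =
      nu (mark L'[i]) ((L'.take i).foldl (stG G) (η', A)).1
        (stepA ((L'.take i).foldl (stG G) (η', A)).1 L'[i])
        ((L'.take i).foldl (stG G) (η', A)).2 ∩ G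
    rw [stG_foldl_fst, stG_foldl_fst, ← ih', ← f1, ← f2,
      nu_congr (hsub i (by omega)) (hag i (by omega)) (hag (i + 1) hi) hmk']

/-! ### paths -/

variable {m : Model} {δ : ℝ} (q : Par d m δ)

theorem inf_succ (w : List (Let d q.M (q.K + 1))) (η : Tor d q.M → ℕ) (G : ℕ → Set (Pos d)) (s : ℕ)
    (A : Set (Pos d)) (j : ℕ) :
    inf nbT tv η (units q.N1 w) G s A (j + 1) =
      ((seg q w (s + j)).foldl (stG (G (s + j))) ((w.take ((s + j) * q.N1)).foldl stepA η,
        inf nbT tv η (units q.N1 w) G s A j ∩ G (s + j))).2 := by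
  have hM := q.M_ge
  change ((units q.N1 w (s + j)).foldl (stepR nbT tv (G (s + j)))
    (cfg nbT η (units q.N1 w) (s + j), inf nbT tv η (units q.N1 w) G s A j ∩ G (s + j))).2 = _
  rw [units_eq, cfg_eq, fold_filterMap (by omega) _ _ _ Set.inter_subset_right]

theorem visU_eq (w : List (Let d q.M (q.K + 1))) (η : Tor d q.M → ℕ) (G : ℕ → Set (Pos d)) (s : ℕ)
    (A : Set (Pos d)) (j : ℕ) :
    visU nbT tv η (units q.N1 w) G s A j =
      {z | ∃ i ≤ (seg q w (s + j)).length, z ∈ (((seg q w (s + j)).take i).foldl (stG (G (s + j)))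
        ((w.take ((s + j) * q.N1)).foldl stepA η,
        inf nbT tv η (units q.N1 w) G s A j ∩ G (s + j))).2} := by
  have hM := q.M_ge
  unfold visU
  rw [cfg_eq]
  ext z
  simp only [Set.mem_ofPred_eq]
  constructor
  · rintro ⟨i, hi, hz⟩
    rw [units_eq] at hi hz
    obtain ⟨i', h1, h2⟩ := ZI.E2.take_filterMap toLab _ i hi
    refine ⟨i', h1, ?_⟩
    rw [h2, fold_filterMap (by omega) _ _ _ Set.inter_subset_right] at hz
    exact hz
  · rintro ⟨i, hi, hz⟩
    obtain ⟨k, h1, h2⟩ := ZI.E2.filterMap_take toLab (seg q w (s + j)) i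
    refine ⟨k, h1, ?_⟩
    rw [units_eq, h2, fold_filterMap (by omega) _ _ _ Set.inter_subset_right]
    exact hz

/-- the general comparison for two words -/
theorem core (w w' : List (Let d q.M (q.K + 1))) (η η' : Tor d q.M → ℕ) (T : ℕ)
    (hw : T * q.N1 ≤ w.length) (hw' : T * q.N1 ≤ w'.length) (Γ : ℕ → Set (Pos d))
    (hag : ∀ t ≤ T, ∀ i, t * q.N1 ≤ i → i ≤ (t + 1) * q.N1 → i ≤ T * q.N1 → ∀ y ∈ Γ t,
      ∀ z : Pos d, (z = y ∨ ∃ e : Dir d, z = y + dv e) →
      (w.take i).foldl stepA η (tv z) = (w'.take i).foldl stepA η' (tv z))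
    (hmk : ∀ t ≤ T, ∀ i, t * q.N1 ≤ i → i ≤ (t + 1) * q.N1 → i ≤ T * q.N1 → ∀ y ∈ Γ t,
      ∀ z : Pos d, (z = y ∨ ∃ e : Dir d, z = y + dv e) →
      ((w.map mark).getD i none = some (tv z) ↔ (w'.map mark).getD i none = some (tv z)))
    (G : ℕ → Set (Pos d)) (s : ℕ) (x : Pos d) (h0 : s ≤ T → x ∈ G s → x ∈ Γ s)
    (hsub : ∀ j, s + j < T → visU nbT tv η (units q.N1 w) G s {x} j ⊆ Γ (s + j)) :
    ∀ j, s + j ≤ T →
      inf nbT tv η (units q.N1 w) G s {x} j = inf nbT tv η' (units q.N1 w') G s {x} j ∧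
      (s + j < T → visU nbT tv η (units q.N1 w) G s {x} j =
        visU nbT tv η' (units q.N1 w') G s {x} j) := by
  have hN : 0 < q.N1 := q.N1_pos
  have key : ∀ j, s + j < T →
      inf nbT tv η (units q.N1 w) G s {x} j = inf nbT tv η' (units q.N1 w') G s {x} j →
      ∀ i ≤ q.N1, (((seg q w (s + j)).take i).foldl (stG (G (s + j)))
        ((w.take ((s + j) * q.N1)).foldl stepA η,
        inf nbT tv η (units q.N1 w) G s {x} j ∩ G (s + j))).2 =
        (((seg q w' (s + j)).take i).foldl (stG (G (s + j)))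
        ((w'.take ((s + j) * q.N1)).foldl stepA η',
        inf nbT tv η' (units q.N1 w') G s {x} j ∩ G (s + j))).2 := by
    intro j hj hinf
    have hmul : (s + j + 1) * q.N1 ≤ T * q.N1 := Nat.mul_le_mul_right _ hj
    have hexp : (s + j + 1) * q.N1 = (s + j) * q.N1 + q.N1 := Nat.succ_mul _ _
    have l1 : (seg q w (s + j)).length = q.N1 := seg_length q w _ (hmul.trans hw)
    have l2 : (seg q w' (s + j)).length = q.N1 := seg_length q w' _ (hmul.trans hw')
    intro i0 hi0
    rw [← hinf]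
    refine fold_agree (G (s + j)) (Γ (s + j)) _ _ _ _ _ (by rw [l1, l2]) ?_ ?_ ?_ i0
      (by rw [l1]; exact hi0)
    · intro i hi y hy z hz
      rw [l1] at hi
      rw [← List.foldl_append, ← List.foldl_append, ← take_seg q w _ i hi,
        ← take_seg q w' _ i hi]
      exact hag (s + j) hj.le _ (by omega) (by omega) (by omega) y hy z hz
    · intro i hi y hy z hz
      rw [l1] at hi
      rw [seg_getD q w _ _ hi, seg_getD q w' _ _ hi]
      exact hmk (s + j) hj.le _ (by omega) (by omega) (by omega) y hy z hz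
    · intro i hi z hz
      apply hsub j hj
      rw [visU_eq]
      exact ⟨i, hi, hz⟩
  have hinf : ∀ j, s + j ≤ T →
      inf nbT tv η (units q.N1 w) G s {x} j = inf nbT tv η' (units q.N1 w') G s {x} j := by
    intro j
    induction j with
    | zero =>
      intro hs
      rw [Nat.add_zero] at hs
      ext z
      change (z ∈ ({x} : Set (Pos d)) ∧ z ∈ G s ∧ Thr.θ ≤ cfg nbT η (units q.N1 w) s (tv z)) ↔
        (z ∈ ({x} : Set (Pos d)) ∧ z ∈ G s ∧ Thr.θ ≤ cfg nbT η' (units q.N1 w') s (tv z))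
      refine and_congr_right fun hz => and_congr_right fun hG => ?_
      rw [Set.mem_singleton_iff] at hz
      subst hz
      have h1 : s * q.N1 ≤ T * q.N1 := Nat.mul_le_mul_right _ hs
      have h2 : (s + 1) * q.N1 = s * q.N1 + q.N1 := Nat.succ_mul _ _
      rw [cfg_eq, cfg_eq, hag s hs (s * q.N1) le_rfl (by omega) h1 z (h0 hs hG) z (Or.inl rfl)]
    | succ j ih =>
      intro hj
      have hj' : s + j < T := by omega
      have hmul : (s + j + 1) * q.N1 ≤ T * q.N1 := Nat.mul_le_mul_right _ hj'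
      have l1 : (seg q w (s + j)).length = q.N1 := seg_length q w _ (hmul.trans hw)
      have l2 : (seg q w' (s + j)).length = q.N1 := seg_length q w' _ (hmul.trans hw')
      have hk := key j hj' (ih hj'.le) q.N1 le_rfl
      have t1 : (seg q w (s + j)).take q.N1 = seg q w (s + j) := List.take_of_length_le l1.le
      have t2 : (seg q w' (s + j)).take q.N1 = seg q w' (s + j) := List.take_of_length_le l2.le
      rw [t1, t2] at hk
      rw [inf_succ, inf_succ]
      exact hk
  intro j hj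
  refine ⟨hinf j hj, fun hj' => ?_⟩
  have hmul : (s + j + 1) * q.N1 ≤ T * q.N1 := Nat.mul_le_mul_right _ hj'
  have l1 : (seg q w (s + j)).length = q.N1 := seg_length q w _ (hmul.trans hw)
  have l2 : (seg q w' (s + j)).length = q.N1 := seg_length q w' _ (hmul.trans hw')
  have hk := key j hj' (hinf j hj)
  rw [visU_eq, visU_eq]
  ext z
  simp only [Set.mem_ofPred_eq, l1, l2]
  constructor
  · rintro ⟨i, hi, hz⟩
    exact ⟨i, hi, by rwa [← hk i hi]⟩
  · rintro ⟨i, hi, hz⟩
    exact ⟨i, hi, by rwa [hk i hi]⟩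

theorem visU_sub (w : List (Let d q.M (q.K + 1))) (η : Tor d q.M → ℕ) (G : ℕ → Set (Pos d)) (s : ℕ)
    (A : Set (Pos d)) (j : ℕ) : visU nbT tv η (units q.N1 w) G s A j ⊆ G (s + j) := by
  rw [visU_eq]
  rintro z ⟨i, -, hz⟩
  exact stG_foldl_sub _ _ _ Set.inter_subset_right hz

end ZQ.E2

namespace ZQ.Rows

open ZP hiding AgreeW Base BlockFacts Env EqEnv PastEv QT envT inf infMv pe stepI stepR visU
open ZP.Rows hiding agree_paths agree_words pe_path

variable [ZQ.Thr]

open ZP hiding AgreeW Base BlockFacts Env EqEnv PastEv QT envT inf infMv pe stepI stepR visU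
open ZP.E2 hiding core fold_agree fold_filterMap infMv_eq_nu inf_succ nu nu_congr nu_self nu_sub stG stG_foldl_fst stG_foldl_sub visU_eq visU_sub
open ZQ.E2
open ZQ

variable {d : ℕ} {m : Model} {δ : ℝ}

/-! ## E2: paths that agree in a region give infections that agree -/

/-- the statement for words -/
theorem agree_words (q : Par d m δ) (w w' : List (Let d q.M (q.K + 1))) (η η' : Tor d q.M → ℕ) (T : ℕ)
    (hw : T * q.N1 ≤ w.length) (hw' : T * q.N1 ≤ w'.length) (Γ : ℕ → Set (Pos d))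
    (hag : ∀ t ≤ T, ∀ i, t * q.N1 ≤ i → i ≤ (t + 1) * q.N1 → i ≤ T * q.N1 → ∀ y ∈ Γ t,
      ∀ z : Pos d, (z = y ∨ ∃ e : Dir d, z = y + dv e) →
      (w.take i).foldl stepA η (tv z) = (w'.take i).foldl stepA η' (tv z))
    (hmk : ∀ t ≤ T, ∀ i, t * q.N1 ≤ i → i ≤ (t + 1) * q.N1 → i ≤ T * q.N1 → ∀ y ∈ Γ t,
      ∀ z : Pos d, (z = y ∨ ∃ e : Dir d, z = y + dv e) →
      ((w.map mark).getD i none = some (tv z) ↔ (w'.map mark).getD i none = some (tv z))) :
    AgreeW (envT q η w) (envT q η' w') Γ T := by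
  have hN : 0 < q.N1 := q.N1_pos
  have hc := fun G s x h0 hsub => core q w w' η η' T hw hw' Γ hag hmk G s x h0 hsub
  refine ⟨?_, ?_⟩
  · intro t ht x hx
    change Thr.θ ≤ cfg nbT η (units q.N1 w) t (tv x) ↔ Thr.θ ≤ cfg nbT η' (units q.N1 w') t (tv x)
    have h1 : t * q.N1 ≤ T * q.N1 := Nat.mul_le_mul_right _ ht
    have h2 : (t + 1) * q.N1 = t * q.N1 + q.N1 := Nat.succ_mul _ _
    rw [cfg_eq, cfg_eq, hag t ht (t * q.N1) le_rfl (by omega) h1 x hx x (Or.inl rfl)]
  · intro G hG s t x y ht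
    have h0 : s ≤ T → x ∈ G s → x ∈ Γ s := fun hs hx => hG s hs hx
    have hsub : ∀ j, s + j < T → visU nbT tv η (units q.N1 w) G s {x} j ⊆ Γ (s + j) := fun j hj =>
      (visU_sub q _ _ G s {x} j).trans (hG (s + j) hj.le)
    constructor
    · rintro ⟨j, hj, hy⟩
      refine ⟨j, hj, ?_⟩
      have h1 := (hc G s x h0 hsub j (by omega)).1
      change y ∈ inf nbT tv η (units q.N1 w) G s {x} j at hy
      change y ∈ inf nbT tv η' (units q.N1 w') G s {x} j
      rwa [← h1]
    · rintro ⟨j, hj, hy⟩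
      refine ⟨j, hj, ?_⟩
      have h1 := (hc G s x h0 hsub j (by omega)).1
      change y ∈ inf nbT tv η' (units q.N1 w') G s {x} j at hy
      change y ∈ inf nbT tv η (units q.N1 w) G s {x} j
      rwa [h1]

theorem agree_paths (hd : 0 < d) (q : Par d m δ) (p p' : List (Tor d q.M → ℕ))
    (o o' : List (Option (Tor d q.M))) (hp : IsPath q p o) (hp' : IsPath q p' o')
    (hlen : p.length = p'.length) (T : ℕ) (hT : T * q.N1 < p.length) (Γ : ℕ → Set (Pos d))
    (hΓ : ∀ t ≤ T, ∀ i, t * q.N1 ≤ i → i ≤ (t + 1) * q.N1 → i ≤ T * q.N1 → ∀ y ∈ Γ t, ∀ z : Pos d,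
      (z = y ∨ ∃ e : Dir d, z = y + dv e) →
      (p.getD i (fun _ => 0)) (tv z) = (p'.getD i (fun _ => 0)) (tv z) ∧
      (o.getD i none = some (tv z) ↔ o'.getD i none = some (tv z))) :
    AgreeW (pe q p o) (pe q p' o') Γ T ∧
    ∀ (G : ℕ → Set (Pos d)) (s : ℕ) (x : Pos d), s < T → x ∈ Γ s →
      (∀ j, s + j < T →
        visU (pe q p o).nb (pe q p o).pr (pe q p o).η0 (pe q p o).U G s {x} j ⊆ Γ (s + j)) →
      ∀ j, s + j ≤ T →
        inf (pe q p o).nb (pe q p o).pr (pe q p o).η0 (pe q p o).U G s {x} j =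
          inf (pe q p' o').nb (pe q p' o').pr (pe q p' o').η0 (pe q p' o').U G s {x} j ∧
        (s + j < T → visU (pe q p o).nb (pe q p o).pr (pe q p o).η0 (pe q p o).U G s {x} j =
          visU (pe q p' o').nb (pe q p' o').pr (pe q p' o').η0 (pe q p' o').U G s {x} j) := by
  obtain ⟨η, w, rfl, rfl⟩ := hp
  obtain ⟨η', w', rfl, rfl⟩ := hp'
  have hE := pe_path q hd η w
  have hE' := pe_path q hd η' w'
  rw [path_length, path_length] at hlen
  rw [path_length] at hT
  have hag : ∀ t ≤ T, ∀ i, t * q.N1 ≤ i → i ≤ (t + 1) * q.N1 → i ≤ T * q.N1 → ∀ y ∈ Γ t,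
      ∀ z : Pos d, (z = y ∨ ∃ e : Dir d, z = y + dv e) →
      (w.take i).foldl stepA η (tv z) = (w'.take i).foldl stepA η' (tv z) := by
    intro t ht i h1 h2 h3 y hy z hz
    rw [← path_getD w η i (by omega) (fun _ => 0), ← path_getD w' η' i (by omega) (fun _ => 0)]
    exact (hΓ t ht i h1 h2 h3 y hy z hz).1
  have hmk : ∀ t ≤ T, ∀ i, t * q.N1 ≤ i → i ≤ (t + 1) * q.N1 → i ≤ T * q.N1 → ∀ y ∈ Γ t,
      ∀ z : Pos d, (z = y ∨ ∃ e : Dir d, z = y + dv e) →
      ((w.map mark).getD i none = some (tv z) ↔ (w'.map mark).getD i none = some (tv z)) :=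
    fun t ht i h1 h2 h3 y hy z hz => (hΓ t ht i h1 h2 h3 y hy z hz).2
  have hA := agree_words q w w' η η' T (by omega) (by omega) Γ hag hmk
  refine ⟨⟨?_, ?_⟩, ?_⟩
  · intro t ht x hx
    rw [← hE.occ, ← hE'.occ]
    exact hA.occ t ht x hx
  · intro G hG s t x y ht
    have h1 : ∀ {E E' : Env d}, EqEnv E E' → (E.R G s x t y ↔ E'.R G s x t y) := by
      intro E E' h
      unfold Env.R
      simp only [h.inf]
    rw [← h1 hE, ← h1 hE']
    exact hA.R G hG s t x y ht
  · intro G s x _ hx hsub j hj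
    rw [← hE.inf, ← hE'.inf, ← hE.vis, ← hE'.vis]
    refine core q w w' η η' T (by omega) (by omega) Γ hag hmk G s x (fun _ _ => hx) ?_ j hj
    intro j hj
    have h1 := hsub j hj
    rw [← hE.vis] at h1
    exact h1

end ZQ.Rows
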