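import Pool.Agent.ZP.E5a
import Pool.Agent.ZQ.Dec
import Pool.Agent.ZQ.InfLem
import Pool.Agent.ZQ.S1
import Pool.Agent.ZQ.E1
import Pool.Agent.ZQ.E3
import Pool.Agent.ZQ.E2
import Pool.Agent.ZI.E5a

/-! # E5a: transfer of the past event (deterministic; with recovery) -/

set_option autoImplicit false

open scoped ENNReal BigOperators Classical Pointwise

noncomputable section

namespace ZQ.E5a

open ZP hiding Agree AgreeW Base BlockFacts Env EqEnv GoodK IsGamma LowTail PastEv QK QT StepP Sys UpTail envT foldl_stepR_fst foldl_stepR_inter foldl_stepR_mono foldl_stepR_occ foldl_stepR_region inf infMv infMv_mono infMv_occ inf_comp inf_inter inf_mono_univ inf_occ inf_pred mem_foldl_stepR mem_infMv muK pe stepI stepR visU visU_mono_univ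
open ZP.E5a hiding SameW infU_congr inf_succ_region take_R take_W take_inf take_near take_ok take_visU visU_congr visU_region visU_split

variable [ZQ.Thr]

open ZI.Geo
open ZP hiding Agree AgreeW Base BlockFacts Env EqEnv GoodK IsGamma LowTail PastEv QK QT StepP Sys UpTail envT foldl_stepR_fst foldl_stepR_inter foldl_stepR_mono foldl_stepR_occ foldl_stepR_region inf infMv infMv_mono infMv_occ inf_comp inf_inter inf_mono_univ inf_occ inf_pred mem_foldl_stepR mem_infMv muK pe stepI stepR visU visU_mono_univ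
open ZP.S1 hiding block_time chain_core dur dur_cons
open ZQ.S1
open ZP.E3 hiding R_agree R_congr blk_eq core inf_congr near_eq ok_agree
open ZQ.E3
open ZQ

export ZI.E5a (lev_le_nrm lev_le_supn lev_dv_le supn_add_le supn_dv_le)

variable {d : ℕ}

/-! ## generalities on restricted infections -/
section gen

variable {V : Type} {nb : V → Dir d → Option V} {pr : Pos d → V} {η0 : V → ℕ} {U : ℕ → List (Lab V d)}
  {G : ℕ → Set (Pos d)} {s j : ℕ} {A : Set (Pos d)} {b x : Pos d}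

theorem visU_split (hb : b ∈ visU nb pr η0 U G s A j) :
    ∃ z ∈ inf nb pr η0 U G s A j, z ∈ G (s + j) ∧ b ∈ visU nb pr η0 U G (s + j) {z} 0 := by
  obtain ⟨i, hi, h⟩ := hb
  obtain ⟨z, hz, hbz⟩ := mem_foldl_stepR _ _ _ _ h
  refine ⟨z, hz.1, hz.2, i, hi, ?_⟩
  refine foldl_stepR_mono subset_rfl _ _ ?_ hbz
  rintro _ rfl
  exact ⟨⟨rfl, hz.2, inf_occ j _ hz.1⟩, hz.2⟩

theorem visU_region : visU nb pr η0 U G s A j ⊆ G (s + j) := by
  rintro b ⟨i, -, h⟩
  exact foldl_stepR_region _ _ _ Set.inter_subset_right h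

theorem inf_succ_region : inf nb pr η0 U G s A (j + 1) ⊆ G (s + j) := fun _ h =>
  foldl_stepR_region _ _ _ Set.inter_subset_right h

end gen

/-! ## congruence in the unit lists -/
section congr

variable {V : Type} {nb : V → Dir d → Option V} {pr : Pos d → V} {η0 : V → ℕ}
  {U U' : ℕ → List (Lab V d)} {T : ℕ}

theorem infU_congr (h : ∀ t < T, U t = U' t) (G : ℕ → Set (Pos d)) (s : ℕ) (A : Set (Pos d)) (j : ℕ)
    (hj : s + j ≤ T) : inf nb pr η0 U G s A j = inf nb pr η0 U' G s A j := by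
  induction j with
  | zero =>
    show {z | z ∈ A ∧ z ∈ G s ∧ Thr.θ ≤ cfg nb η0 U s (pr z)} = {z | z ∈ A ∧ z ∈ G s ∧ Thr.θ ≤ cfg nb η0 U' s (pr z)}
    rw [cfg_congr h s (by omega)]
  | succ j ih =>
    show ((U (s + j)).foldl (stepR nb pr (G (s + j)))
      (cfg nb η0 U (s + j), inf nb pr η0 U G s A j ∩ G (s + j))).2 =
      ((U' (s + j)).foldl (stepR nb pr (G (s + j)))
      (cfg nb η0 U' (s + j), inf nb pr η0 U' G s A j ∩ G (s + j))).2
    rw [h (s + j) (by omega), cfg_congr h (s + j) (by omega), ih (by omega)]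

theorem visU_congr (h : ∀ t < T, U t = U' t) (G : ℕ → Set (Pos d)) (s : ℕ) (A : Set (Pos d)) (j : ℕ)
    (hj : s + j < T) : visU nb pr η0 U G s A j = visU nb pr η0 U' G s A j := by
  unfold visU
  rw [h (s + j) hj, cfg_congr h (s + j) (by omega), infU_congr h G s A j (by omega)]

end congr

/-- two environments whose block infections agree up to the duration `T` -/
structure SameW (E E' : Env d) (Q : BP) (u : Fin d → ℝ) (T : ℕ) : Prop where
  near : E.near Q.κ Q.κ 0 = E'.near Q.κ Q.κ 0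
  W : ∀ t ≤ T, E.W Q u 0 Q.κ (Q.κ + t) = E'.W Q u 0 Q.κ (Q.κ + t)

theorem SameW.blk {E E' : Env d} {Q : BP} {u : Fin d → ℝ} {T : ℕ} (h : SameW E E' Q u T) {m : ℕ}
    (h1 : E.bh Q u m 0 Q.κ = T) (h2 : ∃ y ∈ E.W Q u 0 Q.κ (Q.κ + T), (m : ℝ) ≤ lev u y) :
    E'.blk Q u m 0 Q.κ = E.blk Q u m 0 Q.κ := by
  have hT : E'.bh Q u m 0 Q.κ = T := by
    refine le_antisymm (Nat.sInf_le ?_) ?_
    · obtain ⟨y, hy, hl⟩ := h2
      refine ⟨y, ?_, by rwa [sub_zero]⟩
      rw [← h.W T le_rfl]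
      exact hy
    · by_contra hlt
      push Not at hlt
      have hne : {h | ∃ y ∈ E'.W Q u 0 Q.κ (Q.κ + h), (m : ℝ) ≤ lev u (y - 0)}.Nonempty := by
        obtain ⟨y, hy, hl⟩ := h2
        refine ⟨T, y, ?_, by rwa [sub_zero]⟩
        rw [← h.W T le_rfl]
        exact hy
      obtain ⟨y, hy, hl⟩ := Nat.sInf_mem hne
      have h3 : E.bh Q u m 0 Q.κ ≤ E'.bh Q u m 0 Q.κ := by
        refine Nat.sInf_le ⟨y, ?_, hl⟩
        change y ∈ E'.W Q u 0 Q.κ (Q.κ + E'.bh Q u m 0 Q.κ) at hy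
        rw [h.W _ hlt.le]
        exact hy
      omega
  have hset : {v : Pos d | 0 + v ∈ E'.W Q u 0 Q.κ (Q.κ + E'.bh Q u m 0 Q.κ) ∧ (m : ℝ) ≤ lev u v} =
      {v : Pos d | 0 + v ∈ E.W Q u 0 Q.κ (Q.κ + E.bh Q u m 0 Q.κ) ∧ (m : ℝ) ≤ lev u v} := by
    rw [hT, h1, h.W T le_rfl]
  have hx : E'.bx Q u m 0 Q.κ = E.bx Q u m 0 Q.κ := by
    rw [ZQ.E1.bx_eq, ZQ.E1.bx_eq, hset]
  unfold Env.blk
  rw [hT, h1, hx]

/-! ## truncated words -/

theorem take_inf {M K : ℕ} (N1 T : ℕ) (η : Tor d M → ℕ) (l : List (Let d M K)) (G : ℕ → Set (Pos d))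
    (s : ℕ) (A : Set (Pos d)) (j : ℕ) (hj : s + j ≤ T) :
    inf nbT tv η (units N1 (l.take (T * N1))) G s A j = inf nbT tv η (units N1 l) G s A j :=
  infU_congr (fun _ ht => ZI.E5a.units_take _ _ ht) G s A j hj

theorem take_visU {M K : ℕ} (N1 T : ℕ) (η : Tor d M → ℕ) (l : List (Let d M K)) (G : ℕ → Set (Pos d))
    (s : ℕ) (A : Set (Pos d)) (j : ℕ) (hj : s + j < T) :
    visU nbT tv η (units N1 (l.take (T * N1))) G s A j = visU nbT tv η (units N1 l) G s A j :=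
  visU_congr (fun _ ht => ZI.E5a.units_take _ _ ht) G s A j hj

section take

variable {m : Model} {δ : ℝ} (q : Par d m δ) (η : Tor d q.M → ℕ) (l : List (Let d q.M (q.K + 1)))

theorem take_R (T : ℕ) {G : ℕ → Set (Pos d)} {s t : ℕ} {x y : Pos d} (ht : t ≤ T) :
    (envT q η (l.take (T * q.N1))).R G s x t y ↔ (envT q η l).R G s x t y := by
  constructor
  · rintro ⟨j, hj, hx⟩
    refine ⟨j, hj, ?_⟩
    have h1 : y ∈ inf nbT tv η (units q.N1 (l.take (T * q.N1))) G s {x} j := hx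
    rw [take_inf q.N1 T η l G s {x} j (by omega)] at h1
    exact h1
  · rintro ⟨j, hj, hx⟩
    refine ⟨j, hj, ?_⟩
    have h1 : y ∈ inf nbT tv η (units q.N1 l) G s {x} j := hx
    rw [← take_inf q.N1 T η l G s {x} j (by omega)] at h1
    exact h1

theorem take_ok (T k s : ℕ) (x : Pos d) (ht : s + k ≤ T) :
    (envT q η (l.take (T * q.N1))).ok k s x ↔ (envT q η l).ok k s x := by
  have h1 : (envT q η (l.take (T * q.N1))).fg k s x ↔ (envT q η l).fg k s x := by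
    unfold Env.fg
    exact exists_congr fun y => take_R q η l T ht
  have h2 : (envT q η (l.take (T * q.N1))).bg k s x ↔ (envT q η l).bg k s x := by
    unfold Env.bg
    exact exists_congr fun t => exists_congr fun y => and_congr_right fun _ => take_R q η l T (by omega)
  unfold Env.ok
  rw [h1, h2]

theorem take_near (T k s : ℕ) (z : Pos d) (ht : s + k ≤ T) :
    (envT q η (l.take (T * q.N1))).near k s z = (envT q η l).near k s z := by
  rw [ZQ.E1.near_eq, ZQ.E1.near_eq]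
  congr 1
  ext v
  exact take_ok q η l T k s (z + v) ht

theorem take_W (P : BP) (u : Fin d → ℝ) (T : ℕ) (hT : P.κ ≤ T) (t : ℕ) (ht : t ≤ T) :
    (envT q η (l.take ((P.κ + T) * q.N1))).W P u 0 P.κ (P.κ + t) =
      (envT q η l).W P u 0 P.κ (P.κ + t) := by
  ext x
  unfold Env.W
  rw [take_near q η l (P.κ + T) P.κ P.κ 0 (by omega)]
  exact take_R q η l (P.κ + T) (by omega)

end take

end ZQ.E5a

namespace ZQ.Rows

open ZP hiding Agree AgreeW Base BlockFacts Env EqEnv GoodK IsGamma LowTail PastEv QK QT StepP Sys UpTail envT foldl_stepR_fst foldl_stepR_inter foldl_stepR_mono foldl_stepR_occ foldl_stepR_region inf infMv infMv_mono infMv_occ inf_comp inf_inter inf_mono_univ inf_occ inf_pred mem_foldl_stepR mem_infMv muK pe stepI stepR visU visU_mono_univ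
open ZP.Rows hiding agree_paths agree_words bh_chain blk_of_pastEv chain_eq pastEv_of_good past_transfer pe_path

variable [ZQ.Thr]

open ZI.Geo
open ZP hiding Agree AgreeW Base BlockFacts Env EqEnv GoodK IsGamma LowTail PastEv QK QT StepP Sys UpTail envT foldl_stepR_fst foldl_stepR_inter foldl_stepR_mono foldl_stepR_occ foldl_stepR_region inf infMv infMv_mono infMv_occ inf_comp inf_inter inf_mono_univ inf_occ inf_pred mem_foldl_stepR mem_infMv muK pe stepI stepR visU visU_mono_univ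
open ZP.S1 hiding block_time chain_core dur dur_cons
open ZQ.S1
open ZP.E5a hiding SameW infU_congr inf_succ_region take_R take_W take_inf take_near take_ok take_visU visU_congr visU_region visU_split
open ZQ.E5a
open ZP.E3 hiding R_agree R_congr blk_eq core inf_congr near_eq ok_agree
open ZQ.E3
open ZQ

variable {d : ℕ} {m : Model} {δ : ℝ}

/-- the past event determines the block variable of every longer word -/
theorem blk_of_pastEv (q : Par d m δ) (P : BP) (u : Fin d → ℝ) (r Cv m' : ℕ) (y : ℕ × Pos d)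
    (η : Tor d q.M → ℕ) (l : List (Let d q.M (q.K + 1)))
    (h : PastEv (envT q η (l.take ((P.κ + y.1) * q.N1))) P u r Cv m' y) :
    (envT q η l).blk P u m' 0 P.κ = y := by
  have hs : SameW (envT q η (l.take ((P.κ + y.1) * q.N1))) (envT q η l) P u y.1 :=
    ⟨take_near q η l (P.κ + y.1) P.κ P.κ 0 (by have := h.h_lb; omega),
      fun t ht => take_W q η l P u y.1 h.h_lb t ht⟩
  have h1 : (envT q η (l.take ((P.κ + y.1) * q.N1))).bh P u m' 0 P.κ = y.1 := by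
    have := h.blk
    exact congrArg Prod.fst this
  rw [hs.blk h1 ⟨y.2, h.att, h.lev_ge⟩, h.blk]

/-- the good event implies the past event (deterministic) -/
theorem pastEv_of_good {Cv a A r0 : ℕ} {c : ℝ} (hB : Base m δ d Cv a A r0 c) : ∃ r1 ≥ r0, ∀ r ≥ r1,
    ∀ n : ℕ, r ^ A ≤ n → ∀ q : Par d m δ, q.M = n ^ 4 → ∀ (u : Fin d → ℝ), ∑ j, u j ^ 2 = 1 →
    ∀ m' : ℕ, r ^ (7 * a) ≤ m' → m' ≤ r * n → ∀ (η : Tor d q.M → ℕ)
    (l : List (Let d q.M (q.K + 1))),
    (envT q η l).Good r (r ^ a) Cv (n ^ 2) (n ^ 2) →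
    Adm (bp d a r n) u r Cv m' n ((envT q η l).blk (bp d a r n) u m' 0 (r ^ a)) ∧
    PastEv (envT q η (l.take ((r ^ a + ((envT q η l).blk (bp d a r n) u m' 0 (r ^ a)).1) * q.N1)))
      (bp d a r n) u r Cv m' ((envT q η l).blk (bp d a r n) u m' 0 (r ^ a)) := by
  have ha := hB.a_big
  have hA := hB.A_big
  have hr0 := hB.r0_big
  refine ⟨r0 + d, by omega, fun r hr n hn q hM u hu m' hm hmn η l hE => ?_⟩
  set E := envT q η l with hEd
  set Q := bp d a r n with hQ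
  have hκ' : Q.κ = r ^ a := rfl
  rw [← hκ']
  have hr2 : 2 ≤ r := by omega
  have hroom : r ^ a + r ^ (2 * a) * m' ≤ n ^ 2 := room2 ha hA hr2 hn hmn
  have F : BlockFacts E Q u r Cv m' n 0 Q.κ :=
    hB.facts r (by omega) n hn E hE u hu m' hm hmn 0 (r ^ a) le_rfl hroom
  have hb1 : E.bh Q u m' 0 Q.κ ≤ 8 * r ^ a * m' := (block_time hr2 ha hm F).1
  have hκ : 1024 ≤ r ^ a := (block_time hr2 ha hm F).2.2
  have hb : Q.κ + E.bh Q u m' 0 Q.κ ≤ n ^ 2 := by
    refine le_trans (Nat.add_le_add_left (le_trans hb1 ?_) _) hroom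
    refine Nat.mul_le_mul_right _ ?_
    calc 8 * r ^ a ≤ r ^ a * r ^ a := Nat.mul_le_mul_right _ (by omega)
      _ = r ^ (2 * a) := by rw [← pow_add]; congr 1; ring
  have hmem : 0 + E.bx Q u m' 0 Q.κ ∈ E.W Q u 0 Q.κ (Q.κ + E.bh Q u m' 0 Q.κ) := F.x_mem
  have hlb : Q.κ ≤ E.bh Q u m' 0 Q.κ := F.h_lb
  have hpos : 1 ≤ E.bh Q u m' 0 Q.κ := by
    have : 1024 ≤ Q.κ := hκ
    omega
  have hblk1 : (E.blk Q u m' 0 Q.κ).1 = E.bh Q u m' 0 Q.κ := rfl
  have hblk2 : (E.blk Q u m' 0 Q.κ).2 = E.bx Q u m' 0 Q.κ := rfl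
  have hsup : supn (E.bx Q u m' 0 Q.κ) ≤ n ^ 2 := by
    obtain ⟨j, hj, hy⟩ := hmem
    obtain ⟨i, rfl⟩ : ∃ i, j = i + 1 := ⟨j - 1, by omega⟩
    have := (inf_succ_region hy).2
    rwa [sub_zero, zero_add] at this
  refine ⟨⟨by rwa [hblk1], ?_, ?_, ?_, hsup⟩, ?_⟩
  · rw [hblk1]
    exact F.h_ub
  · rw [hblk2]
    exact F.x_lev
  · rw [hblk2]
    have := F.W_ub _ hmem
    rwa [sub_zero, zero_add] at this
  · have key : ∀ T, T = E.bh Q u m' 0 Q.κ →
        PastEv (envT q η (l.take ((Q.κ + T) * q.N1))) Q u r Cv m' (T, E.bx Q u m' 0 Q.κ) := by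
      intro T hT
      have hTκ : Q.κ ≤ T := by omega
      have hnear : (envT q η (l.take ((Q.κ + T) * q.N1))).near Q.κ Q.κ 0 = E.near Q.κ Q.κ 0 :=
        take_near q η l (Q.κ + T) Q.κ Q.κ 0 (by omega)
      have hs : SameW E (envT q η (l.take ((Q.κ + T) * q.N1))) Q u T :=
        ⟨hnear.symm, fun t ht => (take_W q η l Q u T hTκ t ht).symm⟩
      have hmem' : E.bx Q u m' 0 Q.κ ∈ E.W Q u 0 Q.κ (Q.κ + T) := by
        rw [zero_add, ← hT] at hmem
        exact hmem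
      refine ⟨?_, ?_, F.x_lev, hTκ, ?_, ?_, ?_⟩
      · rw [hs.blk hT.symm ⟨E.bx Q u m' 0 Q.κ, hmem', F.x_lev⟩, hT]
        rfl
      · show E.bx Q u m' 0 Q.κ ∈ (envT q η (l.take ((Q.κ + T) * q.N1))).W Q u 0 Q.κ (Q.κ + T)
        rw [take_W q η l Q u T hTκ T le_rfl]
        exact hmem'
      · rw [hnear]
        exact (take_ok q η l (Q.κ + T) Q.κ Q.κ _ (by omega)).2 F.near_ok
      · rw [hnear]
        have := F.near_supn
        rwa [sub_zero] at this
      · intro t ht b hb'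
        have ht' : t < T := ht
        rw [hnear] at hb'
        have hb'' : b ∈ visU nbT tv η (units q.N1 (l.take ((Q.κ + T) * q.N1))) (wall Q u 0 Q.κ) Q.κ
            {E.near Q.κ Q.κ 0} t := hb'
        rw [take_visU q.N1 (Q.κ + T) η l (wall Q u 0 Q.κ) Q.κ _ t (by omega)] at hb''
        obtain ⟨z, hz, hzG, hbz⟩ := visU_split hb''
        have hzW : z ∈ E.W Q u 0 Q.κ (Q.κ + t) := ⟨t, rfl, hz⟩
        have h1 := F.conf (Q.κ + t) (by omega) (by omega) z hzW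
        have h2 : E.vis (fun _ => Set.univ) (Q.κ + t) z (Q.κ + t + 1) b := by
          refine ⟨0, by omega, ?_⟩
          exact visU_mono_univ 0 hbz
        have h3 := hE.g4' (Q.κ + t) (Q.κ + t + 1) z b (by omega) (by omega) h2
        have h4 : lev u b = lev u z + lev u (b - z) := by
          rw [← ZI.Geo.lev_add]
          congr 1
          abel
        have h5 := lev_le_nrm hu (b - z)
        rw [sub_zero] at h1
        push_cast at h1 h3
        show lev u b ≤ m' + 2 * Q.mg + Cv + r - ((T : ℝ) - t) / (8 * Q.κ)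
        rw [h4, hT]
        have e1 : (Cv : ℝ) * ((Q.κ : ℝ) + t + 1 - (Q.κ + t)) = Cv := by ring
        rw [e1] at h3
        have e2 : ((Q.κ : ℝ) + E.bh Q u m' 0 Q.κ - (Q.κ + t)) = (E.bh Q u m' 0 Q.κ : ℝ) - t := by ring
        rw [e2] at h1
        linarith
    exact key _ rfl

/-- transfer of the past event between paths that agree below the line -/
theorem past_transfer {Cv a A r0 : ℕ} {c : ℝ} (hB : Base m δ d Cv a A r0 c) : ∃ r1 ≥ r0, ∀ r ≥ r1,
    ∀ n : ℕ, r ^ A ≤ n → ∀ q : Par d m δ, q.M = n ^ 4 → ∀ (u : Fin d → ℝ), ∑ j, u j ^ 2 = 1 →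
    ∀ m' : ℕ, r ^ (7 * a) ≤ m' → m' ≤ r * n → ∀ y : ℕ × Pos d, Adm (bp d a r n) u r Cv m' n y →
    ∀ (p p' : List (Tor d q.M → ℕ)) (o o' : List (Option (Tor d q.M))), IsPath q p o → IsPath q p' o' →
    p.length = (r ^ a + y.1) * q.N1 + 1 → p'.length = (r ^ a + y.1) * q.N1 + 1 →
    (∀ i ≤ (r ^ a + y.1) * q.N1, ∀ v : Tor d q.M,
      Lev u 0 v ≤ m' + 3 * (bp d a r n).mg -
        (((r ^ a + y.1 : ℕ) : ℝ) - (i : ℝ) / q.N1) / (8 * (bp d a r n).κ) →
      p.getD i (fun _ => 0) v = p'.getD i (fun _ => 0) v ∧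
      (o.getD i none = some v ↔ o'.getD i none = some v)) →
    PastEv (pe q p o) (bp d a r n) u r Cv m' y → PastEv (pe q p' o') (bp d a r n) u r Cv m' y := by
  have ha := hB.a_big
  have hA := hB.A_big
  have hr0 := hB.r0_big
  obtain ⟨n0, hn0⟩ := ZI.Rows.Lev_approx d
  refine ⟨r0 + d + Cv + n0, by omega,
    fun r hr n hn q hM u hu m' hm hmn y hy p p' o o' hp hp' hl hl' hag h => ?_⟩
  set Q := bp d a r n with hQ
  have hκr : r ^ a = Q.κ := rfl
  rw [hκr] at hl hl' hag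
  obtain ⟨T, z0⟩ := y
  obtain ⟨hy1, hy2, hy3, hy4, hy5⟩ := hy
  change Q.κ ≤ T at hy1
  change (T : ℝ) ≤ 4 * Q.κ * (m' + 2 * Q.mg) at hy2
  have hr10 : 10 ≤ r := by omega
  have hrn : r ^ (2 * a + 2) ≤ n := le_trans (Nat.pow_le_pow_right (by omega) (by omega)) hn
  have hκ1 : 1 ≤ Q.κ := Nat.one_le_pow _ _ (by omega)
  have hκ0 : (0 : ℝ) < Q.κ := by exact_mod_cast hκ1
  have hκκ : Q.κ + Q.κ ^ 2 ≤ n := by
    have e1 : Q.κ ^ 2 = r ^ (2 * a) := by rw [← hκr, ← pow_mul]; congr 1; ring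
    have e2 : r ^ (2 * a + 2) = r ^ (2 * a) * r ^ 2 := by rw [pow_add]
    have e3 : Q.κ ≤ Q.κ ^ 2 := by nlinarith
    have e4 : r ^ (2 * a) * 2 ≤ r ^ (2 * a) * r ^ 2 := Nat.mul_le_mul_left _ (by nlinarith)
    omega
  have hn1 : 1 ≤ n := le_trans (Nat.one_le_pow _ _ (by omega)) hrn
  have hnn2 : n ≤ n ^ 2 := by nlinarith
  have hκm : 4 * d * (Q.κ + Q.κ ^ 2) + 4 ≤ m' := by
    refine le_trans ?_ hm
    have e1 : r ^ (7 * a) = Q.κ ^ 2 * r ^ (5 * a) := by
      rw [← hκr, ← pow_mul, ← pow_add]; congr 1; ring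
    have e2 : r ^ 3 ≤ r ^ (5 * a) := Nat.pow_le_pow_right (by omega) (by omega)
    have e3 : 8 * d + 4 ≤ r ^ 3 := by nlinarith [sq_nonneg r]
    have e4 : Q.κ ≤ Q.κ ^ 2 := by nlinarith
    have e5 : 1 ≤ Q.κ ^ 2 := Nat.one_le_pow _ _ hκ1
    calc 4 * d * (Q.κ + Q.κ ^ 2) + 4 ≤ Q.κ ^ 2 * (8 * d + 4) := by nlinarith
      _ ≤ Q.κ ^ 2 * r ^ 3 := Nat.mul_le_mul_left _ e3
      _ ≤ Q.κ ^ 2 * r ^ (5 * a) := Nat.mul_le_mul_left _ e2
      _ = r ^ (7 * a) := e1.symm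
  have hmg : Cv + r + 2 ≤ Q.mg := by
    show Cv + r + 2 ≤ r ^ (3 * a)
    have h1 : r ^ 2 ≤ r ^ (3 * a) := Nat.pow_le_pow_right (by omega) (by omega)
    nlinarith
  have hmgR : (Cv : ℝ) + r + 2 ≤ Q.mg := by exact_mod_cast hmg
  have hN1 : (0 : ℝ) < q.N1 := by exact_mod_cast q.N1_pos
  have hLev : ∀ z : Pos d, supn z ≤ 4 * n ^ 2 → Lev u (0 : Tor d q.M) (tv z) ≤ lev u z + 1 / 4 := by
    have h1 : ∀ M, M = n ^ 4 → ∀ z : Pos d, supn z ≤ 4 * n ^ 2 →
        Lev u (0 : Tor d M) (tv z) ≤ lev u z + 1 / 4 := by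
      rintro _ rfl z hz
      have h2 := hn0 n (by
        have : r ≤ r ^ (2 * a + 2) := by
          calc r = r ^ 1 := (pow_one _).symm
            _ ≤ r ^ (2 * a + 2) := Nat.pow_le_pow_right (by omega) (by omega)
        omega) u hu 0 z hz
      rw [zero_add] at h2
      linarith [(abs_le.1 h2).2]
    exact h1 _ hM
  -- the region
  let Γ : ℕ → Set (Pos d) := fun t =>
    {z | lev u z ≤ m' + 2 * Q.mg + Cv + r - (((Q.κ + T : ℕ) : ℝ) - t) / (8 * Q.κ) ∧ supn z ≤ n ^ 2}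
  have hΓ0 : ∀ v : Pos d, supn v ≤ Q.κ + Q.κ ^ 2 → ∀ t, v ∈ Γ t := by
    intro v hv t
    refine ⟨?_, by omega⟩
    have h1 := lev_le_supn hu v
    have h2 : (d : ℝ) * (supn v : ℝ) ≤ d * ((Q.κ + Q.κ ^ 2 : ℕ) : ℝ) := by
      refine mul_le_mul_of_nonneg_left ?_ (Nat.cast_nonneg _)
      exact_mod_cast hv
    have h3 : (((Q.κ + T : ℕ) : ℝ) - t) / (8 * Q.κ) ≤ 1 / 8 + (m' + 2 * Q.mg) / 2 := by
      rw [div_le_iff₀ (by positivity)]
      push_cast
      have : (0 : ℝ) ≤ t := Nat.cast_nonneg _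
      linarith
    have h4R : 4 * (d : ℝ) * ((Q.κ + Q.κ ^ 2 : ℕ) : ℝ) + 4 ≤ m' := by exact_mod_cast hκm
    have h5 : (0 : ℝ) ≤ Q.mg := Nat.cast_nonneg _
    have h6 : (0 : ℝ) ≤ Cv := Nat.cast_nonneg _
    have h7 : (0 : ℝ) ≤ r := Nat.cast_nonneg _
    have h8 : (0 : ℝ) ≤ (d : ℝ) * ((Q.κ + Q.κ ^ 2 : ℕ) : ℝ) := by positivity
    linarith
  obtain ⟨hAg, hI⟩ := agree_paths hB.d_pos q p p' o o' hp hp' (hl.trans hl'.symm) (Q.κ + T)
    (by rw [hl]; exact Nat.lt_succ_self _) Γ (by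
    rintro t ht i hi1 - hi3 y0 ⟨hy0, hy0'⟩ z hz
    refine hag i hi3 (tv z) ?_
    have h1 : lev u z ≤ lev u y0 + 1 ∧ supn z ≤ 4 * n ^ 2 := by
      rcases hz with rfl | ⟨e, rfl⟩
      · exact ⟨by linarith, by omega⟩
      · refine ⟨by rw [ZI.Geo.lev_add]; linarith [lev_dv_le hu e], ?_⟩
        have := supn_add_le y0 (dv e)
        have := supn_dv_le e
        omega
    have h2 := hLev z h1.2
    have h3 : (t : ℝ) ≤ (i : ℝ) / q.N1 := by
      rw [le_div_iff₀ hN1]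
      exact_mod_cast hi1
    have h4 : (((Q.κ + T : ℕ) : ℝ) - (i : ℝ) / q.N1) / (8 * Q.κ) ≤
        (((Q.κ + T : ℕ) : ℝ) - t) / (8 * Q.κ) :=
      div_le_div_of_nonneg_right (by linarith) (by positivity)
    show Lev u 0 (tv z) ≤ m' + 3 * Q.mg - (((Q.κ + T : ℕ) : ℝ) - (i : ℝ) / q.N1) / (8 * Q.κ)
    linarith [h1.1])
  have hball : ∀ v : Pos d, supn v ≤ Q.κ → ∀ i, Ball v ((Q.κ : ℝ) ^ 2) ⊆ Γ i := by
    intro v hv i z hz
    refine hΓ0 z ?_ i
    have h1 : supn (z - v) ≤ Q.κ ^ 2 := supn_le_of_nrm (by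
      have h2 : nrm (z - v) ≤ (Q.κ : ℝ) ^ 2 := hz
      exact_mod_cast h2)
    have h3 := supn_add_le v (z - v)
    rw [add_sub_cancel] at h3
    omega
  have hok : ∀ v : Pos d, supn v ≤ Q.κ → ((pe q p o).ok Q.κ Q.κ v ↔ (pe q p' o').ok Q.κ Q.κ v) :=
    fun v hv => ok_agree hAg (by omega) (fun i _ _ => hball v hv i)
  have hnear : (pe q p' o').near Q.κ Q.κ 0 = (pe q p o).near Q.κ Q.κ 0 := by
    refine near_eq (r := Q.κ) ⟨(pe q p o).near Q.κ Q.κ 0, h.near_supn, ?_⟩ (fun v hv => ?_)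
    · rw [zero_add]
      exact h.near_ok
    · rw [zero_add]
      exact hok v hv
  have hIn := hI (wall Q u 0 Q.κ) Q.κ ((pe q p o).near Q.κ Q.κ 0) (by omega)
    (hΓ0 _ (le_trans h.near_supn (by omega)) _) (by
    intro j hj b hb
    refine ⟨?_, ?_⟩
    · have := h.conf j (by change j < T; omega) b hb
      change lev u b ≤ m' + 2 * Q.mg + Cv + r - ((T : ℝ) - j) / (8 * Q.κ) at this
      have e1 : ((Q.κ + T : ℕ) : ℝ) - ((Q.κ + j : ℕ) : ℝ) = (T : ℝ) - j := by push_cast; ring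
      rwa [e1]
    · have := (visU_region hb).2
      rwa [sub_zero] at this)
  have hW : ∀ t ≤ T, (pe q p o).W Q u 0 Q.κ (Q.κ + t) = (pe q p' o').W Q u 0 Q.κ (Q.κ + t) := by
    intro t ht
    ext x
    constructor
    · rintro ⟨j, hj, hx⟩
      obtain rfl : j = t := by omega
      refine ⟨j, rfl, ?_⟩
      rw [hnear, ← (hIn j (by omega)).1]
      exact hx
    · rintro ⟨j, hj, hx⟩
      obtain rfl : j = t := by omega
      refine ⟨j, rfl, ?_⟩
      rw [hnear, ← (hIn j (by omega)).1] at hx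
      exact hx
  have hs : SameW (pe q p o) (pe q p' o') Q u T := ⟨hnear.symm, hW⟩
  refine ⟨?_, ?_, h.lev_ge, hy1, ?_, ?_, ?_⟩
  · rw [hs.blk (congrArg Prod.fst h.blk) ⟨z0, h.att, h.lev_ge⟩, h.blk]
  · show z0 ∈ (pe q p' o').W Q u 0 Q.κ (Q.κ + T)
    rw [← hW T le_rfl]
    exact h.att
  · rw [hnear]
    exact (hok _ h.near_supn).1 h.near_ok
  · rw [hnear]
    exact h.near_supn
  · intro t ht b hb
    rw [hnear, ← (hIn t (by change t < T at ht; omega)).2 (by change t < T at ht; omega)] at hb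
    exact h.conf t ht b hb

end ZQ.Rows
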