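import Pool.Agent.ZP.E5b
import Pool.Agent.ZQ.E1
import Pool.Agent.ZQ.E2
import Pool.Agent.ZQ.E3
import Pool.Agent.ZI.E5b

/-! # Row E5b: transfer of the future (with recovery) -/

set_option autoImplicit false

open scoped ENNReal BigOperators Classical

noncomputable section

namespace ZQ.E5b

open ZP hiding Agree AgreeW Base BlockFacts Env EqEnv GoodK IsGamma LowTail PastEv QK QT StepP Sys UpTail envT inf infMv muK pe stepI stepR visU
open ZP.E5b hiding agreeW_of_eqEnv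

variable [ZQ.Thr]

open ZP hiding Agree AgreeW Base BlockFacts Env EqEnv GoodK IsGamma LowTail PastEv QK QT StepP Sys UpTail envT inf infMv muK pe stepI stepR visU
open ZP.Rows hiding agree_paths agree_words bh_chain chain_eq future_transfer pe_path
open ZQ.Rows
open ZQ

variable {d : ℕ} {m : Model} {δ : ℝ}

theorem agreeW_of_eqEnv {E E' F F' : Env d} (h : EqEnv E F) (h' : EqEnv E' F') {Γ : ℕ → Set (Pos d)}
    {T : ℕ} (hF : AgreeW F F' Γ T) : AgreeW E E' Γ T where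
  occ := fun t ht x hx => (h.occ t x).trans ((hF.occ t ht x hx).trans (h'.occ t x).symm)
  R := fun G hG s t x y ht => (EqEnv.R h G s x t y).trans ((hF.R G hG s t x y ht).trans
    (EqEnv.R h' G s x t y).symm)

end ZQ.E5b

namespace ZQ.Rows

open ZP hiding Agree AgreeW Base BlockFacts Env EqEnv GoodK IsGamma LowTail PastEv QK QT StepP Sys UpTail envT inf infMv muK pe stepI stepR visU
open ZP.Rows hiding agree_paths agree_words bh_chain chain_eq future_transfer pe_path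

variable [ZQ.Thr]

open ZP hiding Agree AgreeW Base BlockFacts Env EqEnv GoodK IsGamma LowTail PastEv QK QT StepP Sys UpTail envT inf infMv muK pe stepI stepR visU
open ZP.E5b hiding agreeW_of_eqEnv
open ZQ.E5b
open ZQ

open ZI.E5b (mix_mix abs_u_le lev_add lev_v0 supn_v0 supn_add big lev_torus)

open ZI.Rows (Lev_approx)

variable {d : ℕ} {m : Model} {δ : ℝ}

theorem future_transfer {Cv a A r0 : ℕ} {c : ℝ} (hB : Base m δ d Cv a A r0 c) : ∃ r1 ≥ r0, ∀ r ≥ r1,
    ∀ n : ℕ, r ^ A ≤ n → ∀ q : Par d m δ, q.M = n ^ 4 → ∀ (u : Fin d → ℝ), ∑ j, u j ^ 2 = 1 →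
    ∀ m' : ℕ, r ^ (7 * a) ≤ m' → m' ≤ r * n → ∀ y : ℕ × Pos d, Adm (bp d a r n) u r Cv m' n y →
    ∀ ms : List ℕ, (∀ m'' ∈ ms, r ^ (7 * a) ≤ m'') → ms.sum ≤ r * n →
    ∀ (η η' : Tor d q.M → ℕ) (w : List (Let d q.M (q.K + 1))), w.length = n ^ 2 * q.N1 →
    (envT q η w).Good r (r ^ a) Cv (n ^ 2) (n ^ 2) →
    ¬ LeakF q (bp d a r n) u m' η w →
    ¬ LeakF q (bp d a r n) u m' (mix (Up u (m' + 4 * (bp d a r n).mg)) η η') w →
    (envT q (mix (Up u (m' + 4 * (bp d a r n).mg)) η η') w).chain (bp d a r n) u ms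
        (y.2 + v0 (bp d a r n) u) (bp d a r n).Δ =
      (envT q η w).chain (bp d a r n) u ms (y.2 + v0 (bp d a r n) u) (bp d a r n).Δ := by
  obtain ⟨r1, hr1, H⟩ := chain_eq hB
  obtain ⟨n0, hn0⟩ := Lev_approx d
  refine ⟨max r1 (max n0 (d + 10)), le_trans hr1 (le_max_left _ _), ?_⟩
  intro r hr n hn q hq u hu m' hm' hm2 y hy ms hms hsum η η' w hw hG hL hL'
  have hrr1 : r1 ≤ r := (le_max_left _ _).trans hr
  have hrn0 : n0 ≤ r := ((le_max_left _ _).trans (le_max_right _ _)).trans hr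
  have hrd : d + 10 ≤ r := ((le_max_right _ _).trans (le_max_right _ _)).trans hr
  have hr10 : 10 ≤ r := by omega
  have ha := hB.a_big
  have hA := hB.A_big
  have hbig := big hr10 ha hA hn
  have hrpos : 0 < r := by omega
  have hp1 : r ^ (3 * a) ≤ r ^ (4 * a) := Nat.pow_le_pow_right hrpos (by omega)
  have hp2 : r ^ (2 * a) * r ≤ r ^ (4 * a) := by
    rw [← pow_succ]
    exact Nat.pow_le_pow_right hrpos (by omega)
  have hp3 : r ≤ r ^ (3 * a) := by
    calc r = r ^ 1 := (pow_one r).symm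
      _ ≤ _ := Nat.pow_le_pow_right hrpos (by omega)
  have hn1 : 1 ≤ n := by
    have : 0 < r ^ (4 * a) := pow_pos hrpos _
    omega
  have hn2 : n ≤ n ^ 2 := by
    rw [pow_two]
    exact Nat.le_mul_of_pos_left _ (by omega)
  have hnn0 : n0 ≤ n := by
    have : r ≤ r ^ (4 * a) := hp3.trans hp1
    omega
  set P := bp d a r n with hP
  have hmg : P.mg = r ^ (3 * a) := rfl
  have hκ : P.κ = r ^ a := rfl
  have hl0 : P.l0 = 32 * r ^ (3 * a) := rfl
  have hΔ : P.Δ = (64 * r ^ (3 * a) + 2) * r ^ a := rfl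
  have hκpos : (0 : ℝ) < P.κ := by
    rw [hκ]
    exact_mod_cast pow_pos hrpos a
  have hκ1 : (1 : ℝ) ≤ P.κ := by
    rw [hκ]
    exact_mod_cast Nat.one_le_pow _ _ hrpos
  have hΔle : P.Δ ≤ 66 * r ^ (4 * a) := by
    rw [hΔ]
    have h1 : r ^ (3 * a) * r ^ a = r ^ (4 * a) := by
      rw [← pow_add]
      congr 1
      ring
    have h2 : r ^ a ≤ r ^ (4 * a) := Nat.pow_le_pow_right hrpos (by omega)
    calc (64 * r ^ (3 * a) + 2) * r ^ a = 64 * (r ^ (3 * a) * r ^ a) + 2 * r ^ a := by ring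
      _ ≤ 64 * r ^ (4 * a) + 2 * r ^ (4 * a) := by rw [h1]; omega
      _ = 66 * r ^ (4 * a) := by ring
  set U : Set (Tor d q.M) := Up u (m' + 4 * P.mg) with hU
  set ζ := mix U η η' with hζ
  -- the two evolutions agree above the line
  have hag : ∀ i ≤ w.length, ∀ v : Tor d q.M,
      (m' : ℝ) + 6 * P.mg + ((i : ℝ) / q.N1) / (16 * P.κ) ≤ Lev u 0 v →
      (w.take i).foldl stepA η v = (w.take i).foldl stepA ζ v := by
    intro i hi v hv
    have h1 : (w.take i).foldl stepA η v = (w.take i).foldl stepA (mix U η (fun _ => 0)) v := by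
      by_contra h
      exact hL ⟨i, hi, v, h, hv⟩
    have h2 : (w.take i).foldl stepA ζ v = (w.take i).foldl stepA (mix U ζ (fun _ => 0)) v := by
      by_contra h
      exact hL' ⟨i, hi, v, h, hv⟩
    rw [hζ, mix_mix] at h2
    rw [h1, ← h2]
  have hN1 : (0 : ℝ) < q.N1 := by exact_mod_cast q.N1_pos
  have hmgbig : (d : ℝ) + 10 ≤ P.mg := by
    rw [hmg]
    exact_mod_cast hrd.trans hp3
  have hd0 : (0 : ℝ) ≤ d := Nat.cast_nonneg _
  -- agreement of the paths in the region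
  have hA1 := agree_paths hB.d_pos q (path η w) (path ζ w) (w.map mark) (w.map mark) ⟨η, w, rfl, rfl⟩
    ⟨ζ, w, rfl, rfl⟩ (by rw [path_length, path_length]) (n ^ 2) (by rw [path_length, hw]; omega)
    (HS P u (m' + 7 * P.mg) n) (by
      intro t ht i hi1 hi2 hi3 y' hy' z hz
      have hiw : i ≤ w.length := by rw [hw]; exact hi3
      rw [path_getD _ w η i hiw, path_getD _ w ζ i hiw]
      refine ⟨hag i hiw _ ?_, Iff.rfl⟩
      have h1 := lev_torus hnn0 hn0 hu q.M hq inferInstance y' z hy'.2 hz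
      refine le_trans ?_ h1
      have h2 : (i : ℝ) / q.N1 ≤ t + 1 := by
        rw [div_le_iff₀ hN1]
        exact_mod_cast hi2
      have h3 : ((i : ℝ) / q.N1) / (16 * P.κ) ≤ (t : ℝ) / (16 * P.κ) + 1 / 16 := by
        calc ((i : ℝ) / q.N1) / (16 * P.κ) ≤ ((t : ℝ) + 1) / (16 * P.κ) := by gcongr
          _ = (t : ℝ) / (16 * P.κ) + 1 / (16 * P.κ) := add_div _ _ _
          _ ≤ _ := by
              gcongr
              linarith
      have h4 : (m' : ℝ) + 7 * P.mg + (t : ℝ) / (16 * P.κ) ≤ lev u y' := hy'.1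
      linarith)
  have hA2 : AgreeW (envT q η w) (envT q ζ w) (HS P u (m' + 7 * P.mg) n) (n ^ 2) :=
    agreeW_of_eqEnv (pe_path q hB.d_pos η w) (pe_path q hB.d_pos ζ w) hA1.1
  refine H r hrr1 n hn (envT q η w) (envT q ζ w) hG u hu ms hms hsum (y.2 + v0 P u) P.Δ (n ^ 2)
    (m' + 7 * P.mg) ?_ ?_ ?_ ?_ ?_ le_rfl hA2
  · rw [hΔ]
    exact Nat.le_mul_of_pos_left _ (by omega)
  · have h2 : 1000 * r ^ (4 * a) * n ≤ n ^ 2 := by
      rw [pow_two]
      exact Nat.mul_le_mul_right _ hbig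
    have h3 : r ^ (4 * a) ≤ r ^ (4 * a) * n := Nat.le_mul_of_pos_right _ (by omega)
    nlinarith
  · refine (supn_add _ _).trans ?_
    have h1 := supn_v0 P hu
    have h2 := hy.2.2.2.2
    rw [hl0] at h1
    omega
  · rw [lev_add]
    have h1 := lev_v0 P hu
    have h2 := hy.2.2.1
    have h3 : ((P.Δ : ℕ) : ℝ) / (16 * P.κ) = 4 * P.mg + 1 / 8 := by
      rw [hΔ, hmg, ← hκ]
      push_cast
      field_simp
      ring
    have h4 : ((P.l0 : ℕ) : ℝ) = 32 * P.mg := by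
      rw [hl0, hmg]
      push_cast
      ring
    show (m' : ℝ) + 7 * P.mg + ((P.Δ : ℕ) : ℝ) / (16 * P.κ) + 2 * P.mg ≤ _
    rw [h3]
    rw [h4] at h1
    linarith
  · have h1 : r ^ (2 * a) * ms.sum ≤ r ^ (4 * a) * n := by
      calc r ^ (2 * a) * ms.sum ≤ r ^ (2 * a) * (r * n) := Nat.mul_le_mul_left _ hsum
        _ = (r ^ (2 * a) * r) * n := by ring
        _ ≤ _ := Nat.mul_le_mul_right _ hp2
    have h2 : 1000 * r ^ (4 * a) * n ≤ n ^ 2 := by
      rw [pow_two]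
      exact Nat.mul_le_mul_right _ hbig
    have h3 : r ^ (4 * a) ≤ r ^ (4 * a) * n := Nat.le_mul_of_pos_right _ (by omega)
    calc P.Δ + r ^ (2 * a) * ms.sum ≤ 66 * r ^ (4 * a) + r ^ (4 * a) * n := add_le_add hΔle h1
      _ ≤ 1000 * r ^ (4 * a) * n := by nlinarith
      _ ≤ n ^ 2 := h2

end ZQ.Rows
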