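import Pool.Agent.ZP.E5c
import Pool.Agent.ZQ.PJ
import Pool.Agent.ZQ.Dec
import Pool.Agent.ZI.E5c

/-! # Row E5c: leak probabilities (with recovery), by projection -/

set_option autoImplicit false

open scoped ENNReal BigOperators Classical

noncomputable section

namespace ZI.E5cP

open ZI ZI.E5c ZI.Rows


end ZI.E5cP

namespace ZQ.Rows

open ZP hiding AgreeW Base BlockFacts Env EqEnv PastEv QT envT inf infMv pe stepI stepR visU
open ZP.Rows hiding R_of_noRec R_toZI cfg_toZI envT_toZI foldl_stepR_noRec foldl_stepR_toZI inf_noRec inf_toZI leakF_le leakP_le occ_toZI visU_noRec visU_toZI vis_of_noRec vis_toZI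

variable [ZQ.Thr]

open ZP hiding AgreeW Base BlockFacts Env EqEnv PastEv QT envT inf infMv pe stepI stepR visU
open ZQ

variable {d : ℕ} {m : Model} {δ : ℝ}

theorem leakP_le {Cv a A r0 : ℕ} {c : ℝ} (hB : Base m δ d Cv a A r0 c) : ∃ r1 ≥ r0, ∀ r ≥ r1,
    ∀ n : ℕ, r ^ A ≤ n → n ≤ (2 * r) ^ A → ∀ q : Par d m δ, q.M = n ^ 4 →
    ∀ (u : Fin d → ℝ), ∑ j, u j ^ 2 = 1 → ∀ m' N : ℕ,
    q.PP N (fun η w => LeakP q (bp d a r n) u m' η w) ≤ ENNReal.ofReal (Real.exp (- (r : ℝ))) := by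
  obtain ⟨r1, hr1, h⟩ := ZI.E5cP.leakP_core m d hB.a_big hB.A_big hB.r0_big
  refine ⟨r1, hr1, fun r hr n hn hn' q hq u hu m' N => ?_⟩
  have h1 := h r hr n hn hn' q.toZI hq u hu m' N
  refine le_trans (le_of_eq ?_) h1
  refine Eq.trans ?_ (PP_prj q hB.d_pos N (fun η w => ZI.LeakP q.toZI (bp d a r n) u m' η w))
  congr 1
  funext η w
  exact propext (leakP_prj q (bp d a r n) u m' η w)

theorem leakF_le {Cv a A r0 : ℕ} {c : ℝ} (hB : Base m δ d Cv a A r0 c) : ∃ r1 ≥ r0, ∀ r ≥ r1,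
    ∀ n : ℕ, r ^ A ≤ n → n ≤ (2 * r) ^ A → ∀ q : Par d m δ, q.M = n ^ 4 →
    ∀ (u : Fin d → ℝ), ∑ j, u j ^ 2 = 1 → ∀ m' N : ℕ,
    q.PP N (fun η w => LeakF q (bp d a r n) u m' η w) ≤ ENNReal.ofReal (Real.exp (- (r : ℝ))) := by
  obtain ⟨r1, hr1, h⟩ := ZI.E5cP.leakF_core m d hB.a_big hB.A_big hB.r0_big
  refine ⟨r1, hr1, fun r hr n hn hn' q hq u hu m' N => ?_⟩
  have h1 := h r hr n hn hn' q.toZI hq u hu m' N
  refine le_trans (le_of_eq ?_) h1
  refine Eq.trans ?_ (PP_prj q hB.d_pos N (fun η w => ZI.LeakF q.toZI (bp d a r n) u m' η w))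
  congr 1
  funext η w
  exact propext (leakF_prj q (bp d a r n) u m' η w)

end ZQ.Rows
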