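import Pool.Agent.ZP.E5d
import Pool.Agent.ZQ.E4
import Pool.Agent.ZQ.E5a
import Pool.Agent.ZQ.E5b
import Pool.Agent.ZP.R2
import Pool.Agent.ZQ.E1
import Pool.Agent.ZQ.E3
import Pool.Agent.ZQ.E5c
import Pool.Agent.ZI.E5d

/-! # Row E5d: one-step decoupling of blocks (with recovery) -/

set_option autoImplicit false

open scoped ENNReal BigOperators Classical Pointwise

noncomputable section

namespace ZQ.E5d

open ZP hiding Agree AgreeW Base BlockFacts Env EqEnv GoodK IsGamma LowTail PastEv QK QT StepP Sys UpTail envT foldl_stepR_fst foldl_stepR_inter foldl_stepR_mono foldl_stepR_occ foldl_stepR_region inf infMv infMv_mono infMv_occ inf_comp inf_inter inf_mono_univ inf_occ inf_pred mem_foldl_stepR mem_infMv muK pe stepI stepR visU visU_mono_univ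
open ZP.E5d hiding agreeW_symm chain_drop

variable [ZQ.Thr]

open ZP hiding Agree AgreeW Base BlockFacts Env EqEnv GoodK IsGamma LowTail PastEv QK QT StepP Sys UpTail envT foldl_stepR_fst foldl_stepR_inter foldl_stepR_mono foldl_stepR_occ foldl_stepR_region inf infMv infMv_mono infMv_occ inf_comp inf_inter inf_mono_univ inf_occ inf_pred mem_foldl_stepR mem_infMv muK pe stepI stepR visU visU_mono_univ
open ZP.Rows hiding R_of_noRec R_toZI agree_paths agree_take agree_words bh_chain blk_of_pastEv cfg_toZI chain_eq chain_shift envT_toZI foldl_stepR_noRec foldl_stepR_toZI future_transfer inf_noRec inf_toZI leakF_le leakP_le occ_toZI one_step pastEv_of_good past_transfer pe_path start_inv visU_noRec visU_toZI vis_of_noRec vis_toZI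
open ZQ.Rows
open ZQ
open ZI (EvE_mono EvE_const EvE_mul PrE_le_one PrE_mono PrE_or)

export ZI.E5d (supn_le_iff supn_add_le supn_v0_le mix_mix exp_bound)

variable {d : ℕ} {m : Model} {δ : ℝ}

/-! ### expectations -/

/-! ### the abstract decoupling -/

/-! ### small facts -/

theorem agreeW_symm {E E' : Env d} {Γ : ℕ → Set (Pos d)} {T : ℕ} (h : AgreeW E E' Γ T) :
    AgreeW E' E Γ T :=
  ⟨fun t ht x hx => (h.occ t ht x hx).symm, fun G hG s t x y ht => (h.R G hG s t x y ht).symm⟩

end ZQ.E5d

namespace ZQ.E5d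

open ZP hiding Agree AgreeW Base BlockFacts Env EqEnv GoodK IsGamma LowTail PastEv QK QT StepP Sys UpTail envT foldl_stepR_fst foldl_stepR_inter foldl_stepR_mono foldl_stepR_occ foldl_stepR_region inf infMv infMv_mono infMv_occ inf_comp inf_inter inf_mono_univ inf_occ inf_pred mem_foldl_stepR mem_infMv muK pe stepI stepR visU visU_mono_univ
open ZP.E5d hiding agreeW_symm chain_drop

variable [ZQ.Thr]

open ZP hiding Agree AgreeW Base BlockFacts Env EqEnv GoodK IsGamma LowTail PastEv QK QT StepP Sys UpTail envT foldl_stepR_fst foldl_stepR_inter foldl_stepR_mono foldl_stepR_occ foldl_stepR_region inf infMv infMv_mono infMv_occ inf_comp inf_inter inf_mono_univ inf_occ inf_pred mem_foldl_stepR mem_infMv muK pe stepI stepR visU visU_mono_univ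
open ZP.Rows hiding R_of_noRec R_toZI agree_paths agree_take agree_words bh_chain blk_of_pastEv cfg_toZI chain_eq chain_shift envT_toZI foldl_stepR_noRec foldl_stepR_toZI future_transfer inf_noRec inf_toZI leakF_le leakP_le occ_toZI one_step pastEv_of_good past_transfer pe_path start_inv visU_noRec visU_toZI vis_of_noRec vis_toZI
open ZQ.Rows
open ZQ

variable {d : ℕ} {m : Model} {δ : ℝ}

/-- the second block onwards is a function of the configuration at the time `s0` and the future letters -/
theorem chain_drop (q : Par d m δ) (η : Tor d q.M → ℕ) (l : List (Let d q.M (q.K + 1))) (P : BP)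
    (u : Fin d → ℝ) (ms : List ℕ) (z : Pos d) (s0 t : ℕ) (ht : P.κ ≤ t) :
    (envT q η l).chain P u ms z (s0 + t) =
      (envT q ((l.take (s0 * q.N1)).foldl stepA η) (l.drop (s0 * q.N1))).chain P u ms z t := by
  obtain ⟨t', rfl⟩ : ∃ t', t = t' + P.κ := ⟨t - P.κ, by omega⟩
  rw [← Nat.add_assoc, chain_shift q η l P u ms z (s0 + t'),
    chain_shift q ((l.take (s0 * q.N1)).foldl stepA η) (l.drop (s0 * q.N1)) P u ms z t']
  have h1 : (s0 + t') * q.N1 = s0 * q.N1 + t' * q.N1 := by ring
  rw [h1, List.take_add, List.foldl_append, List.drop_drop]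

end ZQ.E5d

namespace ZQ.Rows

open ZP hiding Agree AgreeW Base BlockFacts Env EqEnv GoodK IsGamma LowTail PastEv QK QT StepP Sys UpTail envT foldl_stepR_fst foldl_stepR_inter foldl_stepR_mono foldl_stepR_occ foldl_stepR_region inf infMv infMv_mono infMv_occ inf_comp inf_inter inf_mono_univ inf_occ inf_pred mem_foldl_stepR mem_infMv muK pe stepI stepR visU visU_mono_univ
open ZP.Rows hiding R_of_noRec R_toZI agree_paths agree_take agree_words bh_chain blk_of_pastEv cfg_toZI chain_eq chain_shift envT_toZI foldl_stepR_noRec foldl_stepR_toZI future_transfer inf_noRec inf_toZI leakF_le leakP_le occ_toZI one_step pastEv_of_good past_transfer pe_path start_inv visU_noRec visU_toZI vis_of_noRec vis_toZI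

variable [ZQ.Thr]

open ZP.E5d hiding agreeW_symm chain_drop
open ZQ.E5d
open ZP hiding Agree AgreeW Base BlockFacts Env EqEnv GoodK IsGamma LowTail PastEv QK QT StepP Sys UpTail envT foldl_stepR_fst foldl_stepR_inter foldl_stepR_mono foldl_stepR_occ foldl_stepR_region inf infMv infMv_mono infMv_occ inf_comp inf_inter inf_mono_univ inf_occ inf_pred mem_foldl_stepR mem_infMv muK pe stepI stepR visU visU_mono_univ
open ZQ

variable {d : ℕ} {m : Model} {δ : ℝ}

/-- one-step decoupling -/
theorem one_step {Cv a A r0 : ℕ} {c : ℝ} (hB : Base m δ d Cv a A r0 c) : ∃ c' : ℝ, 0 < c' ∧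
    ∃ r1 ≥ r0, ∀ r ≥ r1, ∀ n : ℕ, r ^ A ≤ n → n ≤ (2 * r) ^ A → ∀ q : Par d m δ, q.M = n ^ 4 →
    q.Tiny n →
    ∀ (u : Fin d → ℝ), ∑ j, u j ^ 2 = 1 → ∀ m' : ℕ, r ^ (7 * a) ≤ m' → m' ≤ r * n →
    ∀ y : ℕ × Pos d, Adm (bp d a r n) u r Cv m' n y →
    ∀ ms : List ℕ, (∀ m'' ∈ ms, r ^ (7 * a) ≤ m'') → m' + ms.sum ≤ r * n →
    ∀ G : List (ℕ × Pos d) → Prop,
    q.PP (n ^ 2 * q.N1) (fun η l => (envT q η l).Good r (r ^ a) Cv (n ^ 2) (n ^ 2) ∧
      (envT q η l).blk (bp d a r n) u m' 0 (r ^ a) = y ∧
      G ((envT q η l).chain (bp d a r n) u ms (y.2 + v0 (bp d a r n) u)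
        (r ^ a + y.1 + (bp d a r n).Δ))) ≤
    QT q (bp d a r n) u n m' y *
      q.PP (n ^ 2 * q.N1) (fun η l => G ((envT q η l).chain (bp d a r n) u ms 0 (r ^ a))) +
      ENNReal.ofReal (Real.exp (- c' * r)) := by
  obtain ⟨ra, hra, H3⟩ := chain_eq hB
  obtain ⟨rb, hrb, H4⟩ := start_inv hB
  obtain ⟨rc, hrc, H5⟩ := past_transfer hB
  obtain ⟨rd, hrd, H6⟩ := pastEv_of_good hB
  obtain ⟨re, hre, H7⟩ := future_transfer hB
  obtain ⟨rf, hrf, H8⟩ := leakP_le hB
  obtain ⟨rg, hrg, H9⟩ := leakF_le hB
  have hc := hB.c_pos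
  refine ⟨min 1 c / 2, by have := lt_min one_pos hc; linarith,
    ra + rb + rc + rd + re + rf + rg + 10 + ⌈10 / c⌉₊, by omega, ?_⟩
  intro r hr n hn hn2 q hq hT u hu m' hm' hm'n y hy ms hms hsum G
  have hd := hB.d_pos
  -- numbers
  have ha10 := hB.a_big
  have hA := hB.A_big
  have hr10 : 10 ≤ r := by omega
  have hrc10 : 10 / c ≤ (r : ℝ) := by
    have h1 : ⌈10 / c⌉₊ ≤ r := by omega
    exact (Nat.le_ceil _).trans (by exact_mod_cast h1)
  set P := bp d a r n with hP
  have hk10 : 10 ≤ r ^ a := by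
    calc 10 ≤ r := hr10
      _ = r ^ 1 := (pow_one r).symm
      _ ≤ r ^ a := Nat.pow_le_pow_right (by omega) (by omega)
  have hrk : r ≤ r ^ a := by
    calc r = r ^ 1 := (pow_one r).symm
      _ ≤ r ^ a := Nat.pow_le_pow_right (by omega) (by omega)
  have hkn : (r ^ a) ^ 10 ≤ n := by
    rw [← pow_mul]
    exact (Nat.pow_le_pow_right (by omega) (by omega)).trans hn
  have hmg : P.mg = (r ^ a) ^ 3 := by rw [← pow_mul, mul_comm]; rfl
  have hκ : P.κ = r ^ a := rfl
  have hΔ : P.Δ = (64 * (r ^ a) ^ 3 + 2) * r ^ a := by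
    rw [← pow_mul, mul_comm a 3]; rfl
  have hl0 : P.l0 = 32 * (r ^ a) ^ 3 := by rw [← pow_mul, mul_comm a 3]; rfl
  have h2a : r ^ (2 * a) = (r ^ a) ^ 2 := by rw [← pow_mul, mul_comm]
  obtain ⟨hy1, hy2, hy3, hy4, hy5⟩ := hy
  have hnum := numbers (r ^ a) n r m' y.1 ms.sum hk10 hrk hkn hsum (by
    have := hy2
    rw [hmg, hκ] at this
    push_cast at this ⊢
    exact this)
  obtain ⟨hn1, hn2', hn3, hn4, hn5, hn6⟩ := hnum
  rw [← hΔ] at hn2' hn3 hn4 hn6
  rw [← h2a] at hn3
  set N := (r ^ a + y.1) * q.N1 with hN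
  set M := n ^ 2 * q.N1 with hM
  have hNM : N ≤ M := Nat.mul_le_mul_right _ hn1
  set z1 := y.2 + v0 P u with hz1
  have hsums : ms.sum ≤ r * n := by omega
  have hAdm : Adm P u r Cv m' n y := ⟨hy1, hy2, hy3, hy4, hy5⟩
  -- the two factors
  set aa : (Tor d q.M → ℕ) → List (Let d q.M (q.K + 1)) → Prop :=
    fun η w => PastEv (pe q (path η w).reverse (w.map mark).reverse) P u r Cv m' y with haa
  set bb : (Tor d q.M → ℕ) → List (Let d q.M (q.K + 1)) → Prop :=
    fun η w => G ((envT q η w).chain P u ms z1 P.Δ) with hbb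
  -- step 1: longer words
  have hstep1 : q.PP M (fun η l => (envT q η l).Good r (r ^ a) Cv (n ^ 2) (n ^ 2) ∧
      (envT q η l).blk P u m' 0 (r ^ a) = y ∧
      G ((envT q η l).chain P u ms z1 (r ^ a + y.1 + P.Δ))) ≤
      q.PP (N + M) (fun η l =>
        PastEv (pe q (path η (l.take N)) ((l.take N).map mark)) P u r Cv m' y ∧
        bb ((l.take N).foldl stepA η) (l.drop N)) := by
    rw [← PP_take q hd M N, Nat.add_comm M N]
    refine PP_mono q (N + M) fun η l hl => ?_
    rintro ⟨hg, hb, hG⟩
    constructor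
    · have h1 := (H6 r (by omega) n hn q hq u hu m' hm' hm'n η (l.take M) hg).2
      rw [hb, ← hP, List.take_take, min_eq_left hNM] at h1
      exact (EqEnv.pastEv (pe_path q hd η (l.take N)) P u r Cv m' y).mp h1
    · have h1 := agreeW_symm (agree_take q η l (n ^ 2) (HS P u (lev u z1 -
        ((r ^ a + y.1 + P.Δ : ℕ) : ℝ) / (16 * P.κ) - 2 * P.mg) n))
      have h2 := H3 r (by omega) n hn (envT q η (l.take M)) (envT q η l) hg u hu ms hms hsums z1
        (r ^ a + y.1 + P.Δ) (n ^ 2)
        (lev u z1 - ((r ^ a + y.1 + P.Δ : ℕ) : ℝ) / (16 * P.κ) - 2 * P.mg) (by omega) hn2'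
        (by
          have h3 := supn_add_le y.2 (v0 P u)
          have h4 := supn_v0_le P u hu
          rw [hl0] at h4
          rw [hz1]
          omega) (by rw [← hP]; linarith) hn3 le_rfl h1
      rw [← hP] at h2
      rw [hbb]
      show G ((envT q ((l.take N).foldl stepA η) (l.drop N)).chain P u ms z1 P.Δ)
      rw [hN, ← chain_drop q η l P u ms z1 (r ^ a + y.1) P.Δ hn6, h2]
      exact hG
  -- step 2: reversal of the past
  have hstep2 : q.PP (N + M) (fun η l =>
        PastEv (pe q (path η (l.take N)) ((l.take N).map mark)) P u r Cv m' y ∧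
        bb ((l.take N).foldl stepA η) (l.drop N)) =
      ∑' η : Tor d q.M → ℕ, prw (m.m1 q.K) η * (PrE q.w N (aa η) * PrE q.w M (bb η)) := by
    set F : List (Tor d q.M → ℕ) → List (Option (Tor d q.M)) → List (Let d q.M (q.K + 1)) → ℝ≥0∞ :=
      fun L o w =>
      if (PastEv (pe q L.reverse o.reverse) P u r Cv m' y ∧ bb (L.headD (fun _ => 0)) w) then 1
      else 0 with hF
    have h1 : q.PP (N + M) (fun η l =>
        PastEv (pe q (path η (l.take N)) ((l.take N).map mark)) P u r Cv m' y ∧
        bb ((l.take N).foldl stepA η) (l.drop N)) =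
        q.EE (N + M) (fun η l => F (path η (l.take N)).reverse ((l.take N).map mark).reverse
          (l.drop N)) := by
      unfold Par.PP
      congr 1
      funext η l
      rw [hF]
      simp only [List.reverse_reverse, headD_reverse_path]
      split_ifs <;> rfl
    rw [h1, past_future q hd N M F]
    unfold Par.EE
    refine tsum_congr fun η => ?_
    congr 1
    have h2 := ZI.R2aux.EvE_take_drop q.w M N (fun l l' => F (path η l) (l.map mark) l')
    rw [h2]
    have h3 : (fun l => EvE q.w M (fun l' => F (path η l) (l.map mark) l')) =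
        fun l => PrE q.w M (bb η) * (if aa η l then 1 else 0) := by
      funext l
      rw [hF, haa]
      simp only [R2aux.head_path]
      by_cases h4 : PastEv (pe q (path η l).reverse (l.map mark).reverse) P u r Cv m' y
      · simp only [h4, true_and, if_true, mul_one]
        rfl
      · simp only [h4, false_and, if_false, mul_zero]
        exact ZI.EvE_const q.w (sum_w q hd) M 0
    rw [h3, ZI.EvE_mul, mul_comm]
    rfl
  -- step 3: decoupling
  have hstep3 := decouple q hd N M (Up u (m' + 4 * P.mg)) aa bb (LeakP q P u m') (LeakF q P u m')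
    (fun η w => ¬ (envT q η w).Good r (r ^ a) Cv (n ^ 2) (n ^ 2)) (by
      intro η η' w hw h
      by_contra hcon
      push Not at hcon
      obtain ⟨hc1, hc2, hc3⟩ := hcon
      apply hc1
      refine H5 r (by omega) n hn q hq u hu m' hm' hm'n y hAdm (path η w).reverse
        (path (mix (Up u (m' + 4 * P.mg)) η' η) w).reverse (w.map mark).reverse
        (w.map mark).reverse (isPath_reverse q hd _ _ ⟨η, w, rfl, rfl⟩)
        (isPath_reverse q hd _ _ ⟨_, w, rfl, rfl⟩) ?_ ?_ ?_ h
      · rw [List.length_reverse, length_path, hw]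
      · rw [List.length_reverse, length_path, hw]
      · intro i hi v hv
        refine ⟨?_, Iff.rfl⟩
        rw [getD_reverse_path w η _ i (by omega), getD_reverse_path w _ _ i (by omega)]
        have h1 : Lev u 0 v ≤ m' + 3 * P.mg - (((w.length - i : ℕ) : ℝ) / q.N1) / (8 * P.κ) := by
          refine hv.trans_eq ?_
          have h2 : ((w.length - i : ℕ) : ℝ) / q.N1 =
              ((r ^ a + y.1 : ℕ) : ℝ) - (i : ℝ) / q.N1 := by
            rw [hw, hN, Nat.cast_sub hi]
            have h3 : (q.N1 : ℝ) ≠ 0 := by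
              have := q.N1_pos
              positivity
            push_cast
            field_simp
          rw [h2]
        have h2 : (w.take (w.length - i)).foldl stepA η v =
            (w.take (w.length - i)).foldl stepA (mix (Up u (m' + 4 * P.mg)) (fun _ => 0) η) v := by
          by_contra h3
          exact hc2 ⟨w.length - i, Nat.sub_le _ _, v, h3, h1⟩
        have h4 : (w.take (w.length - i)).foldl stepA (mix (Up u (m' + 4 * P.mg)) η' η) v =
            (w.take (w.length - i)).foldl stepA (mix (Up u (m' + 4 * P.mg)) (fun _ => 0) η) v := by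
          by_contra h3
          refine hc3 ⟨w.length - i, Nat.sub_le _ _, v, ?_, h1⟩
          rw [mix_mix]
          exact h3
        rw [h2, h4]) (by
      intro η η' w hw h
      by_contra hcon
      push Not at hcon
      obtain ⟨hc1, hc2, hc3, hc4⟩ := hcon
      apply hc1
      have h1 := H7 r (by omega) n hn q hq u hu m' hm' hm'n y hAdm ms hms hsums η η' w hw hc4 hc2 hc3
      rw [hbb]
      show G ((envT q (mix (Up u (m' + 4 * P.mg)) η η') w).chain P u ms z1 P.Δ)
      rw [← hP] at h1
      rw [hz1, h1]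
      exact h)
  -- the first factor
  have hfac1 : q.PP N aa ≤ QT q P u n m' y := by
    have h1 : q.PP N aa = q.EE N (fun η l => (fun L o => if PastEv (pe q L o) P u r Cv m' y then
        (1 : ℝ≥0∞) else 0) (path η l).reverse (l.map mark).reverse) := rfl
    rw [h1, ← reversal q hd N
      (fun L o => if PastEv (pe q L o) P u r Cv m' y then (1 : ℝ≥0∞) else 0)]
    have h2 : q.EE N (fun η l => (fun L o => if PastEv (pe q L o) P u r Cv m' y then
        (1 : ℝ≥0∞) else 0) (path η l) (l.map mark)) =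
        q.PP N (fun η l => PastEv (pe q (path η l) (l.map mark)) P u r Cv m' y) := rfl
    rw [h2, ← PP_take q hd N (M - N), Nat.add_sub_cancel' hNM]
    refine PP_mono q M fun η l _ h3 => ?_
    exact blk_of_pastEv q P u r Cv m' y η l
      ((EqEnv.pastEv (pe_path q hd η (l.take N)) P u r Cv m' y).mpr h3)
  -- the second factor
  have hfac2 : q.PP M bb ≤ q.PP M (fun η l => G ((envT q η l).chain P u ms 0 (r ^ a))) +
      ENNReal.ofReal (Real.exp (- c * r)) :=
    H4 r (by omega) n hn hn2 q hq hT u hu ms hms hsums z1 P.Δ hn6 hn4 G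
  have hQ1 : QT q P u n m' y ≤ 1 := PP_le_one q hd _ _
  have hgood := hB.good r (by omega) n hn hn2 q hq hT
  have hlp := H8 r (by omega) n hn hn2 q hq u hu m' N
  have hlf := H9 r (by omega) n hn hn2 q hq u hu m' M
  rw [← hP] at hlp hlf
  calc q.PP M (fun η l => (envT q η l).Good r (r ^ a) Cv (n ^ 2) (n ^ 2) ∧
      (envT q η l).blk P u m' 0 (r ^ a) = y ∧
      G ((envT q η l).chain P u ms z1 (r ^ a + y.1 + P.Δ)))
      ≤ ∑' η : Tor d q.M → ℕ, prw (m.m1 q.K) η * (PrE q.w N (aa η) * PrE q.w M (bb η)) :=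
        hstep1.trans_eq hstep2
    _ ≤ q.PP N aa * q.PP M bb + 2 * q.PP N (LeakP q P u m') + 2 * q.PP M (LeakF q P u m') +
        q.PP M (fun η w => ¬ (envT q η w).Good r (r ^ a) Cv (n ^ 2) (n ^ 2)) := hstep3
    _ ≤ QT q P u n m' y * (q.PP M (fun η l => G ((envT q η l).chain P u ms 0 (r ^ a))) +
        ENNReal.ofReal (Real.exp (- c * r))) + 2 * ENNReal.ofReal (Real.exp (- (r : ℝ))) +
        2 * ENNReal.ofReal (Real.exp (- (r : ℝ))) + ENNReal.ofReal (Real.exp (- c * r)) :=
        add_le_add (add_le_add (add_le_add (mul_le_mul' hfac1 hfac2) (mul_le_mul_right hlp _))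
          (mul_le_mul_right hlf _)) hgood
    _ = QT q P u n m' y * q.PP M (fun η l => G ((envT q η l).chain P u ms 0 (r ^ a))) +
        (QT q P u n m' y * ENNReal.ofReal (Real.exp (- c * r)) +
          4 * ENNReal.ofReal (Real.exp (- (r : ℝ))) + ENNReal.ofReal (Real.exp (- c * r))) := by
        ring
    _ ≤ QT q P u n m' y * q.PP M (fun η l => G ((envT q η l).chain P u ms 0 (r ^ a))) +
        (1 * ENNReal.ofReal (Real.exp (- c * r)) +
          4 * ENNReal.ofReal (Real.exp (- (r : ℝ))) + ENNReal.ofReal (Real.exp (- c * r))) :=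
        add_le_add le_rfl (add_le_add (add_le_add (mul_le_mul_left hQ1 _) le_rfl) le_rfl)
    _ ≤ QT q P u n m' y * q.PP M (fun η l => G ((envT q η l).chain P u ms 0 (r ^ a))) +
        ENNReal.ofReal (Real.exp (- (min 1 c / 2) * r)) := by
        refine add_le_add le_rfl ?_
        have h1 := exp_bound c r hc (by exact_mod_cast hr10) hrc10
        calc 1 * ENNReal.ofReal (Real.exp (- c * r)) +
            4 * ENNReal.ofReal (Real.exp (- (r : ℝ))) + ENNReal.ofReal (Real.exp (- c * r))
            = ENNReal.ofReal (4 * Real.exp (- (r : ℝ)) + 2 * Real.exp (- c * r)) := by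
              rw [ENNReal.ofReal_add (by positivity) (by positivity),
                ENNReal.ofReal_mul (by norm_num), ENNReal.ofReal_mul (by norm_num)]
              rw [show ENNReal.ofReal 4 = 4 by norm_num, show ENNReal.ofReal 2 = 2 by norm_num]
              ring
          _ ≤ _ := ENNReal.ofReal_le_ofReal h1

end ZQ.Rows
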