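import Pool.Agent.ZP.E6b
import Pool.Agent.ZQ.E6
import Pool.Agent.ZP.R2
import Pool.Agent.ZQ.E4
import Pool.Agent.ZQ.E5a
import Pool.Agent.ZQ.E5d

/-! # Row E6: the chain of blocks (with recovery) -/

set_option autoImplicit false

open scoped ENNReal BigOperators Classical Pointwise

noncomputable section

namespace ZQ.Rows

open ZP hiding Agree AgreeW Base BlockFacts Env EqEnv GoodK IsGamma LowTail PastEv QK QT StepP Sys UpTail envT foldl_stepR_fst foldl_stepR_inter foldl_stepR_mono foldl_stepR_occ foldl_stepR_region inf infMv infMv_mono infMv_occ inf_comp inf_inter inf_mono_univ inf_occ inf_pred mem_foldl_stepR mem_infMv muK pe stepI stepR visU visU_mono_univ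
open ZP.Rows hiding R_of_noRec R_toZI agree_paths agree_take agree_words bh_chain blk_of_pastEv block_chain cfg_toZI chain_eq chain_shift envT_toZI foldl_stepR_noRec foldl_stepR_toZI future_transfer inf_noRec inf_toZI leakF_le leakP_le occ_toZI one_step pastEv_of_good past_transfer pe_path start_inv visU_noRec visU_toZI vis_of_noRec vis_toZI

variable [ZQ.Thr]

open ZP hiding Agree AgreeW Base BlockFacts Env EqEnv GoodK IsGamma LowTail PastEv QK QT StepP Sys UpTail envT foldl_stepR_fst foldl_stepR_inter foldl_stepR_mono foldl_stepR_occ foldl_stepR_region inf infMv infMv_mono infMv_occ inf_comp inf_inter inf_mono_univ inf_occ inf_pred mem_foldl_stepR mem_infMv muK pe stepI stepR visU visU_mono_univ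
open ZQ

variable {d : ℕ} {m : Model} {δ : ℝ}

theorem block_chain {Cv a A r0 : ℕ} {c : ℝ} (hB : Base m δ d Cv a A r0 c) : ∃ r1 ≥ r0, ∀ r ≥ r1,
    ∀ n : ℕ, r ^ A ≤ n → n ≤ (2 * r) ^ A → ∀ q : Par d m δ, q.M = n ^ 4 → q.Tiny n →
    ∀ (u : Fin d → ℝ), ∑ j, u j ^ 2 = 1 → ∀ ms : List ℕ, (∀ m' ∈ ms, r ^ (7 * a) ≤ m') →
    ms.sum ≤ r * n → ∀ (z : Pos d) (s : ℕ), r ^ a ≤ s → 2 * s ≤ n ^ 2 →
    ∀ G : List (ℕ × Pos d) → Prop,
    2 * q.PP (n ^ 2 * q.N1) (fun η l => G ((envT q η l).chain (bp d a r n) u ms z s)) ≤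
      2 * prodQ (QT q (bp d a r n) u n) ms G + err r := by
  obtain ⟨ra, hra, h⟩ := pastEv_of_good hB
  refine E6.block_chain_of hB (fun q => sum_w q hB.d_pos) ⟨ra, hra, ?_⟩ (start_inv hB) (one_step hB)
  intro r hr n hn q hM u hu m' hm1 hm2 η l hg
  exact (h r hr n hn q hM u hu m' hm1 hm2 η l hg).1

end ZQ.Rows
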