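import Pool.Agent.ZP.F1b
import Pool.Agent.ZQ.LK
import Pool.Agent.ZQ.CK
import Pool.Agent.ZQ.P2b
import Pool.Agent.ZQ.P1
import Pool.Agent.ZI.F1b

/-! # Row F1b: agreement of the scales (with recovery) -/

set_option autoImplicit false

open scoped ENNReal BigOperators Classical
open MeasureTheory

noncomputable section

namespace ZQ.F1b

open ZP hiding Agree AgreeW Base BlockFacts EK Env EqEnv GoodK Iset PastEv QK QT Surv Sys capE conf envB envC envT inf infMv infd kill pe st stepI stepR visU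
open ZP.F1b hiding agree_envC inf_trunc step_agree visU_trunc

variable [ZQ.Thr]

open ZP hiding Agree AgreeW Base BlockFacts EK Env EqEnv GoodK Iset PastEv QK QT Surv Sys capE conf envB envC envT inf infMv infd kill pe st stepI stepR visU
open ZQ

variable {d : ℕ} {m : Model} {δ : ℝ}

/-! ### agreement is an equivalence relation; truncation -/

theorem Agree.refl (N : ℕ) (E : Env d) : Agree N E E :=
  ⟨fun _ _ _ _ => Iff.rfl, fun _ _ _ _ _ _ _ => Iff.rfl, fun _ _ _ _ _ _ _ => Iff.rfl⟩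

theorem Agree.symm {N : ℕ} {E E' : Env d} (h : Agree N E E') : Agree N E' E :=
  ⟨fun t ht x hx => (h.occ t ht x hx).symm, fun G hG s t x y ht => (h.R G hG s t x y ht).symm,
    fun G hG s t x y ht => (h.vis G hG s t x y ht).symm⟩

theorem Agree.trans {N : ℕ} {E E' E'' : Env d} (h : Agree N E E') (h' : Agree N E' E'') :
    Agree N E E'' :=
  ⟨fun t ht x hx => (h.occ t ht x hx).trans (h'.occ t ht x hx),
    fun G hG s t x y ht => (h.R G hG s t x y ht).trans (h'.R G hG s t x y ht),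
    fun G hG s t x y ht => (h.vis G hG s t x y ht).trans (h'.vis G hG s t x y ht)⟩

theorem Agree.mono {N N' : ℕ} (hN : N ≤ N') {E E' : Env d} (h : Agree N' E E') : Agree N E E' :=
  ⟨fun t ht x hx => h.occ t (ht.trans hN) x (hx.trans (by omega)),
    fun G hG s t x y ht => h.R G (fun t => (hG t).trans fun x (hx : supn x ≤ 4 * N) =>
      show supn x ≤ 4 * N' from hx.trans (by omega)) s t x y (ht.trans hN),
    fun G hG s t x y ht => h.vis G (fun t => (hG t).trans fun x (hx : supn x ≤ 4 * N) =>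
      show supn x ≤ 4 * N' from hx.trans (by omega)) s t x y (ht.trans hN)⟩

theorem Agree.of_eqEnv {E E' : Env d} (h : EqEnv E E') (N : ℕ) : Agree N E E' := by
  refine ⟨fun t _ x _ => h.occ t x, fun G _ s t x y _ => ?_, fun G _ s t x y _ => ?_⟩
  · unfold Env.R
    constructor
    · rintro ⟨j, hj, hy⟩
      exact ⟨j, hj, by rw [← h.inf]; exact hy⟩
    · rintro ⟨j, hj, hy⟩
      exact ⟨j, hj, by rw [h.inf]; exact hy⟩
  · unfold Env.vis
    constructor
    · rintro ⟨j, hj, hy⟩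
      exact ⟨j, hj, by rw [← h.vis]; exact hy⟩
    · rintro ⟨j, hj, hy⟩
      exact ⟨j, hj, by rw [h.vis]; exact hy⟩

section trunc

variable {V : Type} (nb : V → Dir d → Option V) (pr : Pos d → V) (η0 : V → ℕ)
  (U U' : ℕ → List (Lab V d)) (N : ℕ) (h : ∀ t < N, U' t = U t)

include h

theorem inf_trunc (G : ℕ → Set (Pos d)) (s : ℕ) (A : Set (Pos d)) : ∀ j, s + j ≤ N →
    inf nb pr η0 U' G s A j = inf nb pr η0 U G s A j
  | 0, hj => by
      unfold inf
      rw [cfg_trunc nb η0 U U' N h s (by omega)]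
  | j + 1, hj => by
      unfold inf
      rw [h (s + j) (by omega), cfg_trunc nb η0 U U' N h (s + j) (by omega),
        inf_trunc G s A j (by omega)]

theorem visU_trunc (G : ℕ → Set (Pos d)) (s : ℕ) (A : Set (Pos d)) (j : ℕ) (hj : s + j < N) :
    visU nb pr η0 U' G s A j = visU nb pr η0 U G s A j := by
  unfold visU
  rw [h (s + j) hj, cfg_trunc nb η0 U U' N h (s + j) hj.le,
    inf_trunc nb pr η0 U U' N h G s A j hj.le]

end trunc

theorem Agree.trunc (E : Env d) (U' : ℕ → List (Lab E.V d)) (N : ℕ) (h : ∀ t < N, U' t = E.U t) :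
    Agree N { E with U := U' } E := by
  refine ⟨fun t ht x _ => ?_, fun G _ s t x y ht => ?_, fun G _ s t x y ht => ?_⟩
  · unfold Env.occ
    rw [cfg_trunc E.nb E.η0 E.U U' N h t ht]
  · unfold Env.R
    constructor
    · rintro ⟨j, hj, hy⟩
      refine ⟨j, hj, ?_⟩
      rw [← inf_trunc E.nb E.pr E.η0 E.U U' N h G s {x} j (by omega)]
      exact hy
    · rintro ⟨j, hj, hy⟩
      refine ⟨j, hj, ?_⟩
      show y ∈ inf E.nb E.pr E.η0 U' G s {x} j
      rw [inf_trunc E.nb E.pr E.η0 E.U U' N h G s {x} j (by omega)]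
      exact hy
  · unfold Env.vis
    constructor
    · rintro ⟨j, hj, hy⟩
      refine ⟨j, hj, ?_⟩
      rw [← visU_trunc E.nb E.pr E.η0 E.U U' N h G s {x} j (by omega)]
      exact hy
    · rintro ⟨j, hj, hy⟩
      refine ⟨j, hj, ?_⟩
      show y ∈ visU E.nb E.pr E.η0 U' G s {x} j
      rw [visU_trunc E.nb E.pr E.η0 E.U U' N h G s {x} j (by omega)]
      exact hy

variable {Ω : Type} [MeasurableSpace Ω] {P : Measure Ω}

theorem agree_envC (C : Clocks m δ d P) (M K T N : ℕ) (hN : N ≤ T) (ω : Ω) :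
    Agree N (envC C M K N ω) (envC C M K T ω) := by
  refine Agree.trunc (envC C M K T ω) _ N fun t ht => ?_
  show (if t < N then (ringList (C.ring ω) (torLab d M (K + 1)) t (t + 1)).map
    (fun l => ((tv l.1 : Tor d M), l.2)) else []) = if t < T then _ else []
  rw [if_pos ht, if_pos (by omega)]

/-! ### one step: scales `n` and `2 n` -/

open ZI.F1b (stepErr)

theorem step_agree [IsProbabilityMeasure P] (hd : 0 < d) (hδ : 0 ≤ δ) (C : Clocks m δ d P) {C1 C2 : ℕ}
    (h1 : ∀ q : Par d m δ, ∀ R N : ℕ, 2 * R + 2 ≤ q.M → 16 * N + 4 ≤ R →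
      q.PP (N * q.N1) (fun η l => ¬ Agree N (envT q η l) (kill R (envT q η l))) ≤
        ENNReal.ofReal (C1 * (R + 1 : ℝ) ^ C1 * Real.exp (C1 * N - R / 4)))
    (h2 : ∀ q : Par d m δ, ∀ K' T : ℕ, 2 * m.φ ≤ m.g K' →
      q.PP (T * q.N1) (fun η l => ¬ (EqEnv (envT q η l) (capE K' (envT q η l)) ∧
        ∀ R : ℕ, 2 * R + 2 ≤ q.M → EqEnv (kill R (envT q η l)) (kill R (capE K' (envT q η l))))) ≤
        ENNReal.ofReal (T * (q.M : ℝ) ^ d * (C2 : ℝ) ^ (K' + 1) / K'.factorial))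
    (n : ℕ) (hn : 16 ≤ n) (hg : 2 * m.φ ≤ m.g n) (ε : ℝ) (hε : 0 < ε) :
    P {ω | ¬ Agree (n ^ 2) (envC C (n ^ 4) n (n ^ 2) ω)
      (envC C ((2 * n) ^ 4) (2 * n) ((2 * n) ^ 2) ω)} ≤ stepErr m d C1 C2 n ε := by
  have hg2 : 2 * m.φ ≤ m.g (2 * n) := hg.trans
    (monotone_nat_of_le_succ (fun k => by
      have := m.inc_lb k
      have := m.Gm_pos
      linarith) (by omega))
  have hn4 : 16 ^ 2 * n ^ 2 ≤ n ^ 4 := by
    calc 16 ^ 2 * n ^ 2 ≤ n ^ 2 * n ^ 2 := by gcongr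
      _ = n ^ 4 := by ring
  have hn2 : 256 ≤ n ^ 2 := by nlinarith
  set R : ℕ := n ^ 4 / 4 with hR
  have hR1 : 2 * R + 2 ≤ n ^ 4 := by omega
  have hR2 : 16 * n ^ 2 + 4 ≤ R := by omega
  have h2n : n ^ 4 ≤ (2 * n) ^ 4 := Nat.pow_le_pow_left (by omega) 4
  obtain ⟨qa, qa1, qa2, -, qa3⟩ := Rows.transfer hd hδ C (n ^ 4) n (n ^ 2) (by omega) (by omega) hg ε 1 hε
    one_pos
  obtain ⟨qb, qb1, qb2, -, qb3⟩ := Rows.transfer hd hδ C ((2 * n) ^ 4) (2 * n) (n ^ 2) (by omega)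
    (by omega) hg2 ε 1 hε one_pos
  have ha := (qa3 (fun E => ¬ Agree (n ^ 2) E (kill R E))).trans (add_le_add (add_le_add
    (h1 qa R (n ^ 2) (by rw [qa1]; exact hR1) hR2) le_rfl) le_rfl)
  have hb := (qb3 (fun E => ¬ Agree (n ^ 2) E (kill R E))).trans (add_le_add (add_le_add
    (h1 qb R (n ^ 2) (by rw [qb1]; omega) hR2) le_rfl) le_rfl)
  have hc := (qb3 (fun E => ¬ (EqEnv E (capE n E) ∧
    ∀ R : ℕ, 2 * R + 2 ≤ qb.M → EqEnv (kill R E) (kill R (capE n E))))).trans (add_le_add (add_le_add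
    (h2 qb n (n ^ 2) hg) le_rfl) le_rfl)
  rw [qb1] at hc
  refine (measure_mono ?_).trans ((measure_union_le _ _).trans (add_le_add
    ((measure_union_le _ _).trans (add_le_add ha hb)) hc))
  intro ω hω
  by_contra hcon
  simp only [Set.mem_union, Set.mem_ofPred_eq, not_or, not_not] at hcon
  obtain ⟨⟨e1, e2⟩, e3⟩ := hcon
  refine hω ?_
  have e4 := e3.2 R (by omega)
  have e5 : kill R (capE n (envC C ((2 * n) ^ 4) (2 * n) (n ^ 2) ω)) =
      kill R (envC C (n ^ 4) n (n ^ 2) ω) := by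
    rw [Rows.capE_envC C _ _ _ _ (by omega), Rows.kill_envC C _ _ _ _ (by omega),
      Rows.kill_envC C _ _ _ _ hR1]
  rw [e5] at e4
  exact Agree.trans (Agree.trans (Agree.trans e1 (Agree.symm (Agree.of_eqEnv e4 _)))
    (Agree.symm e2)) (agree_envC C _ _ _ _ (Nat.pow_le_pow_left (by omega) 2) ω)

end ZQ.F1b

namespace ZQ.Rows

open ZP hiding Agree AgreeW Base BlockFacts EK Env EqEnv GoodK Iset PastEv QK QT Surv Sys capE conf envB envC envT inf infMv infd kill pe st stepI stepR visU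
open ZP.Rows hiding R_of_noRec R_toZI capE_envC cap_agree cfg_toZI envT_toZI foldl_stepR_noRec foldl_stepR_toZI inf_noRec inf_toZI kill_R kill_envC kill_vis killed_agree nullMeas occ_toZI pe_path sys_agree transfer visU_noRec visU_toZI vis_of_noRec vis_toZI

variable [ZQ.Thr]

open ZP hiding Agree AgreeW Base BlockFacts EK Env EqEnv GoodK Iset PastEv QK QT Surv Sys capE conf envB envC envT inf infMv infd kill pe st stepI stepR visU
open ZP.F1b hiding agree_envC inf_trunc step_agree visU_trunc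
open ZQ.F1b
open ZQ

open ZI.F1b (stepErr ev_step ev_g sum_err err_ge)

variable {d : ℕ} {m : Model} {δ : ℝ} {Ω : Type} [MeasurableSpace Ω] {P : Measure Ω}

theorem sys_agree [IsProbabilityMeasure P] (hd : 0 < d) (hδ : 0 ≤ δ) (C : Clocks m δ d P) (A : ℕ) (hA : 1 ≤ A) :
    ∃ k0 : ℕ, ∀ k ≥ k0, ∀ k' ≥ k,
    P {ω | ¬ Agree ((2 ^ k) ^ 2) (EK C k ω) (EK C k' ω)} ≤ err (rr A k) := by
  obtain ⟨C1, h1⟩ := killed_agree m δ d hd
  obtain ⟨C2, h2⟩ := cap_agree m δ d hd
  obtain ⟨n0, hn0⟩ := Filter.eventually_atTop.mp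
    (((ev_step m d C1 C2 (ZI.Rows.tv1_le m)).and (ev_g m)).and (Filter.eventually_ge_atTop 16))
  refine ⟨max n0 3, fun k hk k' hk' => ?_⟩
  have hk0 : n0 ≤ k := (le_max_left _ _).trans hk
  have hk3 : 3 ≤ k := (le_max_right _ _).trans hk
  have hstep : ∀ j ≥ k, P {ω | ¬ Agree ((2 ^ j) ^ 2) (EK C j ω) (EK C (j + 1) ω)} ≤
      ENNReal.ofReal (9 * Real.exp (-((2 : ℝ) ^ j))) := by
    intro j hj
    have hj2 : n0 ≤ 2 ^ j := (hk0.trans hj).trans Nat.lt_two_pow_self.le
    obtain ⟨⟨h3, h4⟩, h5⟩ := hn0 (2 ^ j) hj2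
    have h6 := step_agree hd hδ C h1 h2 (2 ^ j) h5 h4 (Real.exp (-((2 ^ j : ℕ) : ℝ))) (Real.exp_pos _)
    have h7 : (2 * 2 ^ j) = 2 ^ (j + 1) := by ring
    rw [h7] at h6
    refine (h6.trans h3).trans (le_of_eq ?_)
    push_cast
    rfl
  have hall : ∀ i : ℕ, P {ω | ¬ Agree ((2 ^ k) ^ 2) (EK C k ω) (EK C (k + i) ω)} ≤
      ENNReal.ofReal (∑ j ∈ Finset.range i, (9 : ℝ) * Real.exp (-((2 : ℝ) ^ (k + j)))) := by
    intro i
    induction i with
    | zero =>
      have : {ω | ¬ Agree ((2 ^ k) ^ 2) (EK C k ω) (EK C (k + 0) ω)} = ∅ := by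
        ext ω
        simp [ZQ.F1b.Agree.refl]
      rw [this]
      simp
    | succ i ih =>
      rw [Finset.sum_range_succ, ENNReal.ofReal_add
        (Finset.sum_nonneg fun j _ => by positivity) (by positivity)]
      refine (measure_mono ?_).trans ((measure_union_le _ _).trans
        (add_le_add ih (hstep (k + i) (by omega))))
      intro ω hω
      by_contra hcon
      simp only [Set.mem_union, Set.mem_ofPred_eq, not_or, not_not] at hcon
      refine hω (Agree.trans hcon.1 (Agree.mono ?_ hcon.2))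
      gcongr
      · norm_num
      · omega
  obtain ⟨i, rfl⟩ : ∃ i, k' = k + i := ⟨k' - k, by omega⟩
  refine (hall i).trans (le_trans (ENNReal.ofReal_le_ofReal ?_) (err_ge A k hk3))
  refine (sum_err k i).trans ?_
  have h8 : (0 : ℝ) ≤ (1 / 2 : ℝ) ^ i := by positivity
  have h9 := Real.exp_pos (-((2 : ℝ) ^ k))
  nlinarith

end ZQ.Rows
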