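import Pool.Agent.ZP.F1
import Pool.Agent.ZI.F1
import Pool.Agent.ZQ.E6b
import Pool.Agent.ZQ.F1a
import Pool.Agent.ZQ.F1b
import Pool.Agent.ZQ.F1c

/-! # Row F1: the abstract system of the clocks (with recovery) -/

set_option autoImplicit false

open scoped ENNReal BigOperators Classical Pointwise
open MeasureTheory

noncomputable section

namespace ZQ.Rows

open ZP hiding Agree AgreeW Base BlockFacts EK Env EqEnv GoodK IsGamma Iset LowTail PastEv QK QT StepP Surv Sys UpTail capE conf envB envC envT foldl_stepR_fst foldl_stepR_inter foldl_stepR_mono foldl_stepR_occ foldl_stepR_region inf infMv infMv_mono infMv_occ inf_comp inf_inter inf_mono_univ inf_occ inf_pred infd kill mem_foldl_stepR mem_infMv muK pe st stepI stepR visU visU_mono_univ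
open ZP.Rows hiding R_mono R_occ R_of_noRec R_restrict R_route R_self R_split R_start R_toZI R_trans R_vis agree_paths agree_take agree_words bh_chain blk_of_pastEv block_chain capE_envC cap_agree cfg_toZI chain_eq chain_shift envT_toZI foldl_stepR_noRec foldl_stepR_toZI future_transfer inf_mono inf_noRec inf_split inf_start inf_toZI kill_R kill_envC kill_vis killed_agree leakF_le leakP_le mem_inf_iff nullMeas occ_toZI one_step pastEv_of_good past_transfer pe_path st_R st_mono st_vis start_inv surv_int sys_agree sys_chain_of sys_good sys_link sys_linkR sys_of_clocks sys_shift sys_tsumQ transfer visU_mono visU_noRec visU_split visU_toZI vis_mono vis_mono_time vis_of_R vis_of_R' vis_of_noRec vis_restrict vis_toZI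

variable [ZQ.Thr]

open ZP hiding Agree AgreeW Base BlockFacts EK Env EqEnv GoodK IsGamma Iset LowTail PastEv QK QT StepP Surv Sys UpTail capE conf envB envC envT foldl_stepR_fst foldl_stepR_inter foldl_stepR_mono foldl_stepR_occ foldl_stepR_region inf infMv infMv_mono infMv_occ inf_comp inf_inter inf_mono_univ inf_occ inf_pred infd kill mem_foldl_stepR mem_infMv muK pe st stepI stepR visU visU_mono_univ
open ZQ

variable {d : ℕ} {m : Model} {δ : ℝ}

theorem sys_of_clocks {Ω : Type} [MeasurableSpace Ω] {P : Measure Ω} [IsProbabilityMeasure P]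
    (hd : 0 < d) (hδ : 0 ≤ δ) (C : Clocks m δ d P)
    {Cv a A r0 : ℕ} {c : ℝ} (hB : Base m δ d Cv a A r0 c) :
    ∃ S : Sys d P, (∀ ω t, S.I ω t = Iset C ω t) ∧ S.S0 = Surv C := by
  have hA1 : 1 ≤ A := by
    have h1 := hB.A_big
    have h2 := hB.a_big
    omega
  obtain ⟨k1, h1⟩ := sys_good hδ C hB
  obtain ⟨k2, h2⟩ := sys_chain_of hδ C hB (block_chain hB)
  obtain ⟨k3, h3⟩ := sys_shift hd hδ C A hA1
  obtain ⟨k4, h4⟩ := sys_agree hd hδ C A hA1
  obtain ⟨k5, h5⟩ := sys_link hd hδ C A hA1
  obtain ⟨k6, h6⟩ := sys_linkR hd hδ C A hA1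
  let k0 : ℕ := k1 + k2 + k3 + k4 + k5 + k6 + A * r0
  refine ⟨{ d_pos := hd, Cv := Cv, a := a, A := A, k0 := k0, Cv_pos := hB.Cv_pos, a_big := hB.a_big,
            A_big := hB.A_big, E := EK C, facts := ?_, good := ?_, chain := ?_, tsumQ := ?_, agree := ?_,
            shift := ?_, I := Iset C, S0 := Surv C, I_mono := ?_, link := ?_,
            surv := ?_ }, ?_, ?_⟩
  · intro k hk E hE u hu m' hm1 hm2 z s hs
    have hr : r0 ≤ rr A k := ZI.Rows.rr_ge A k r0 (by omega) hA1
    exact hB.facts (rr A k) hr (2 ^ k) (ZI.Rows.rr_pow_le' A k) E hE u hu m' hm1 hm2 z s hs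
  · intro k hk
    exact h1 k (by omega)
  · intro k hk u hu ms hms hsum z s hs G
    exact h2 k (by omega) u hu ms hms hsum z s hs G
  · intro k _ u m'
    exact sys_tsumQ hd hδ C a A k u m'
  · intro k hk k' hk'
    exact h4 k (by omega) k' hk'
  · intro k hk s0 T hT H
    exact h3 k (by omega) s0 T hT H
  · intro ω t t' htt x hx
    obtain ⟨s, hs0, hst, hx⟩ := hx
    exact ⟨s, hs0, hst.trans htt, hx⟩
  · intro k hk
    exact h5 k (by omega)
  · intro k hk t ht
    refine le_trans (measure_mono ?_) (h6 k (by omega))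
    rintro ω ⟨hω, hn⟩ hlink
    obtain ⟨x, hx⟩ := hω t (Nat.cast_nonneg t)
    exact hn ⟨x, (hlink t ht x).1 hx⟩
  · intro ω t
    rfl
  · rfl

end ZQ.Rows
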