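import Pool.Agent.ZP.S2
import Pool.Agent.ZQ.S1
import Pool.Agent.ZQ.D0b
import Pool.Agent.ZQ.InfLem
import Pool.Agent.ZI.S2
import Pool.Agent.ZI.Geo

/-! # S2: comparison of scales (deterministic; with recovery) -/

set_option autoImplicit false

open scoped ENNReal BigOperators Classical
open MeasureTheory

noncomputable section

namespace ZQ.S2

open ZP hiding Agree BlockFacts Env GoodK IsGamma LowTail QK StepP Sys UpTail envT foldl_stepR_fst foldl_stepR_inter foldl_stepR_mono foldl_stepR_occ foldl_stepR_region inf infMv infMv_mono infMv_occ inf_comp inf_inter inf_mono_univ inf_occ inf_pred mem_foldl_stepR mem_infMv muK stepI stepR visU visU_mono_univ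
open ZP.S2 hiding R_ball R_ball' R_mono_start bg_iff fg_iff near_congr scale_nums

variable [ZQ.Thr]

open ZI.Geo
open ZP hiding Agree BlockFacts Env GoodK IsGamma LowTail QK StepP Sys UpTail envT foldl_stepR_fst foldl_stepR_inter foldl_stepR_mono foldl_stepR_occ foldl_stepR_region inf infMv infMv_mono infMv_occ inf_comp inf_inter inf_mono_univ inf_occ inf_pred mem_foldl_stepR mem_infMv muK stepI stepR visU visU_mono_univ
open ZP.S1 hiding block_time chain_core dur dur_cons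
open ZQ.S1
open ZQ

export ZI.S2 (rk_inj supn_le_of_rk_le argmin_congr rr_mono)

variable {d : ℕ}

variable {Ω : Type} [MeasurableSpace Ω] {P : Measure Ω} {E E' : Env d} {r κ κ' Cv N Dm : ℕ}

/-- finite speed: the region of an unrestricted infection is a ball around its start -/
theorem R_ball (hE : E.Good r κ Cv N Dm) {s t : ℕ} {x y : Pos d} (ht : t ≤ N)
    (h : E.R (fun _ => Set.univ) s x t y) {ρ : ℝ} (hρ : (Cv : ℝ) * ((t : ℝ) - s) + r ≤ ρ) :
    E.R (fun _ => Ball x ρ) s x t y := by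
  have hst := h.le
  have hst' : (s : ℝ) ≤ t := by exact_mod_cast hst
  have hCv : (0 : ℝ) ≤ Cv := Nat.cast_nonneg _
  have hr : (0 : ℝ) ≤ r := Nat.cast_nonneg _
  have h0 : (0 : ℝ) ≤ (Cv : ℝ) * ((t : ℝ) - s) := mul_nonneg hCv (by linarith)
  have h1 := h.inter (H := fun _ => Ball x ρ) (by
    show nrm (x - x) ≤ ρ
    rw [sub_self, nrm_zero]
    linarith) (by
    intro i hi1 hi2 z hz
    have h2 := hE.g4' s (i + 1) x z (by omega) (by omega) hz
    have h3 : ((i + 1 : ℕ) : ℝ) ≤ t := by exact_mod_cast hi2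
    show nrm (z - x) ≤ ρ
    have h4 : (Cv : ℝ) * (((i + 1 : ℕ) : ℝ) - s) ≤ Cv * ((t : ℝ) - s) :=
      mul_le_mul_of_nonneg_left (by linarith) hCv
    linarith)
  have h5 : (fun _ : ℕ => Set.univ ∩ Ball x ρ) = (fun _ : ℕ => Ball x ρ) := by
    funext _
    exact Set.univ_inter _
  rw [h5] at h1
  exact h1

/-- finite speed: the region of an unrestricted infection is a ball around its end -/
theorem R_ball' (hE : E.Good r κ Cv N Dm) {s t : ℕ} {x y : Pos d} (ht : t ≤ N)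
    (h : E.R (fun _ => Set.univ) s x t y) {ρ : ℝ} (hρ : 2 * ((Cv : ℝ) * ((t : ℝ) - s) + r) ≤ ρ) :
    E.R (fun _ => Ball y ρ) s x t y := by
  have hst := h.le
  have h1 := R_ball hE ht h (le_refl _)
  have h2 := hE.g4 s t x y hst ht h
  refine ZQ.Rows.R_mono E (fun _ => ?_) h1
  intro z hz
  have h3 : nrm (z - x) ≤ (Cv : ℝ) * ((t : ℝ) - s) + r := hz
  show nrm (z - y) ≤ ρ
  have h4 := nrm_sub_le z x y
  rw [nrm_sub_comm x y] at h4
  linarith

/-- the property `fg` at different scales -/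
theorem fg_iff (hd : 0 < d) (hE : E.Good r κ Cv N Dm) (hag : Agree N E E') (hκκ : κ ≤ κ')
    (h1 : Cv * κ + r ≤ κ ^ 2) (h2 : 2 * (Cv * κ' + r) ≤ κ' ^ 2) (hDm : 4 * d * κ ≤ Dm) {t : ℕ} {x : Pos d}
    (hx : supn x + κ' ^ 2 ≤ 4 * N) (ht : κ ≤ t) (htN : t + κ' + 4 * d * κ ^ 2 ≤ N) :
    E.fg κ t x ↔ E'.fg κ' t x := by
  have hsub : ∀ _t : ℕ, Ball x ((κ' : ℝ) ^ 2) ⊆ {x | supn x ≤ 4 * N} := fun _ => by
    have := Ball_sub (N := N) (x := x) (n := κ' ^ 2) hx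
    push_cast at this
    exact this
  constructor
  · intro h
    obtain ⟨y, hy, -⟩ := ZQ.Rows.persist hd hE h1 hDm ht h (t' := t + κ') (by omega) (by omega)
    have h3 : ((Cv : ℝ) * (((t + κ' : ℕ) : ℝ) - t) + r) ≤ (κ' : ℝ) ^ 2 := by
      have h4 : (2 : ℝ) * (Cv * κ' + r) ≤ (κ' : ℝ) ^ 2 := by exact_mod_cast h2
      have h5 : (0 : ℝ) ≤ (Cv * κ' + r) := by positivity
      push_cast
      linarith
    exact ⟨y, (hag.R _ hsub t (t + κ') x y (by omega)).1 (R_ball hE (by omega) hy h3)⟩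
  · rintro ⟨y, hy⟩
    have h3 := (hag.R _ hsub t (t + κ') x y (by omega)).2 hy
    exact ZQ.Rows.fg_of_R hE h1 (t' := t + κ') (by omega) (by omega) h3.univ

/-- the property `bg` at different scales -/
theorem bg_iff (hE : E.Good r κ Cv N Dm) (hag : Agree N E E') (hκκ : κ ≤ κ') (hκ1 : 1 ≤ κ)
    (h1 : 2 * (Cv * κ + r) ≤ κ ^ 2) (h2 : 2 * (Cv * κ' + r) ≤ κ' ^ 2) (hDm : d * κ ≤ Dm) {t : ℕ} {x : Pos d}
    (hx : supn x + κ' ^ 2 ≤ 4 * N) (ht : κ' + (d * κ + 1) * κ + κ ≤ t) (htN : t + κ ≤ N) :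
    E.bg κ t x ↔ E'.bg κ' t x := by
  have hsub : ∀ _t : ℕ, Ball x ((κ' : ℝ) ^ 2) ⊆ {x | supn x ≤ 4 * N} := fun _ => by
    have := Ball_sub (N := N) (x := x) (n := κ' ^ 2) hx
    push_cast at this
    exact this
  constructor
  · intro h
    obtain ⟨t0, ht0⟩ : ∃ t0, t = t0 + (κ' + (d * κ + 1) * κ) := ⟨t - (κ' + (d * κ + 1) * κ), by omega⟩
    obtain ⟨v, -, hv, hok⟩ := hE.g1 t0 (by omega) (by omega) x
    have hn : nrm (x + v - x) ≤ d * κ := by
      rw [add_sub_cancel_left]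
      refine le_trans (nrm_le_supn v) ?_
      exact mul_le_mul_of_nonneg_left (by exact_mod_cast hv) (Nat.cast_nonneg _)
    have h3 := hE.g3 t0 t (x + v) x (by omega) (by omega) htN hok.1 h
      (le_trans hn (by exact_mod_cast hDm)) (by
        have e1 : (t : ℝ) - t0 = κ' + (d * κ + 1) * κ := by
          rw [ht0]
          push_cast
          ring
        rw [e1]
        have e2 : (nrm (x + v - x) + 1) * (κ : ℝ) ≤ (d * κ + 1) * κ :=
          mul_le_mul_of_nonneg_right (by linarith) (Nat.cast_nonneg _)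
        have e3 : (0 : ℝ) ≤ κ' := Nat.cast_nonneg _
        linarith)
    obtain ⟨z, -, -, h4⟩ := ZQ.Rows.R_split E h3.univ (t - κ') (by omega) (by omega)
    have h5 : 2 * ((Cv : ℝ) * ((t : ℝ) - ((t - κ' : ℕ) : ℝ)) + r) ≤ (κ' : ℝ) ^ 2 := by
      rw [Nat.cast_sub (by omega)]
      have h6 : (2 : ℝ) * (Cv * κ' + r) ≤ (κ' : ℝ) ^ 2 := by exact_mod_cast h2
      rw [sub_sub_cancel]
      exact h6
    exact ⟨t - κ', z, by omega, (hag.R _ hsub _ _ _ _ (by omega)).1 (R_ball' hE (by omega) h4 h5)⟩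
  · rintro ⟨s, y, hs, hy⟩
    have h3 := (hag.R _ hsub s t y x (by omega)).2 hy
    exact ZQ.Rows.bg_of_R hE h1 (t' := t) (by omega) (by omega) h3.univ

/-- the nearest position depends only on the properties near the point -/
theorem near_congr {t n : ℕ} (h : ∀ v, supn v ≤ n → (E.ok κ t (0 + v) ↔ E'.ok κ' t (0 + v)))
    (h0 : ∃ v, supn v ≤ n ∧ E.ok κ t (0 + v)) : E.near κ t 0 = E'.near κ' t 0 := by
  obtain ⟨v, hv, hv'⟩ := h0
  have hs : {v : Pos d | E.ok κ t (0 + v)}.Nonempty := ⟨v, hv'⟩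
  have ht : {v : Pos d | E'.ok κ' t (0 + v)}.Nonempty := ⟨v, (h v hv).1 hv'⟩
  unfold Env.near
  rw [dif_pos hs, dif_pos ht]
  congr 1
  refine argmin_congr hs ht ?_ ?_
  · have h1 : supn (Function.argminOn rk {v : Pos d | E.ok κ t (0 + v)} hs) ≤ n :=
      le_trans (supn_le_of_rk_le (Function.argminOn_le rk _ hv')) hv
    exact (h _ h1).1 (Function.argminOn_mem rk _ hs)
  · have h1 : supn (Function.argminOn rk {v : Pos d | E'.ok κ' t (0 + v)} ht) ≤ n :=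
      le_trans (supn_le_of_rk_le (Function.argminOn_le rk _ ((h v hv).1 hv'))) hv
    exact (h _ h1).2 (Function.argminOn_mem rk _ ht)

theorem R_mono_start {G G' : ℕ → Set (Pos d)} {s t : ℕ} {x y : Pos d}
    (h : ∀ t, s ≤ t → G t ⊆ G' t) (ho : E.occ s x) (hx : x ∈ G s) (hR : E.R G s x t y) :
    E.R G' s x t y :=
  (Env.R_self ho (h s le_rfl hx)).comp hR fun i hi _ => h i hi

/-- numerical facts on the scales -/
theorem scale_nums (S : Sys d P) : ∃ k1 ≥ S.k0, ∀ k ≥ k1, 2 ≤ rr S.A k ∧ d ≤ rr S.A k ∧ 20 ≤ k ∧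
    ∀ k' ≥ k, k' ≤ 10 * k → 1 ≤ kp S.a S.A k ∧ kp S.a S.A k ≤ kp S.a S.A k' ∧
    2 * (S.Cv * kp S.a S.A k + rr S.A k) ≤ kp S.a S.A k ^ 2 ∧
    2 * (S.Cv * kp S.a S.A k' + rr S.A k) ≤ kp S.a S.A k' ^ 2 ∧
    4 * d * kp S.a S.A k ≤ (2 ^ k) ^ 2 ∧
    4 * (kp S.a S.A k' + 4 * d * kp S.a S.A k' ^ 2 + kp S.a S.A k' ^ 2) ≤ (2 ^ k) ^ 2 ∧
    (d * kp S.a S.A k + 1) * kp S.a S.A k + kp S.a S.A k ≤ 4 * d * kp S.a S.A k' ^ 2 := by
  have ha := S.a_big
  have hA := S.A_big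
  have hd0 := S.d_pos
  obtain ⟨k1, hk1, H⟩ := exists_scale S.A S.k0 (d + 2 * (S.Cv + 1)) (by omega)
  refine ⟨k1, hk1, fun k hk => ?_⟩
  obtain ⟨h2, hN, h20⟩ := H k hk
  refine ⟨h2, by omega, h20, fun k' hk' hk'' => ?_⟩
  have hr : rr S.A k ≤ rr S.A k ^ S.a := by
    calc rr S.A k = rr S.A k ^ 1 := (pow_one _).symm
      _ ≤ _ := Nat.pow_le_pow_right (by omega) (by omega)
  have hκκ : kp S.a S.A k ≤ kp S.a S.A k' := Nat.pow_le_pow_left (rr_mono S.A hk') _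
  have hr' : rr S.A k ≤ kp S.a S.A k := hr
  have hbig : kp S.a S.A k' ^ 3 ≤ 2 ^ k := by
    unfold kp rr
    rw [← pow_mul, ← pow_mul]
    refine Nat.pow_le_pow_right (by norm_num) ?_
    have e1 : k' / S.A * S.A ≤ k' := Nat.div_mul_le_self k' S.A
    have e2 : k' / S.A * (1000 * S.a) ≤ k' := le_trans (Nat.mul_le_mul_left _ hA) e1
    have e3 : k' / S.A * (1000 * S.a) = 1000 * (k' / S.A * S.a) := by ring
    have e4 : k' / S.A * (S.a * 3) = 3 * (k' / S.A * S.a) := by ring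
    omega
  generalize kp S.a S.A k = κ at *
  generalize kp S.a S.A k' = κ' at *
  generalize rr S.A k = r at *
  generalize S.Cv = Cv at *
  have h2k : 24 * 2 ^ k ≤ (2 ^ k) ^ 2 := by
    have e1 : 24 ≤ 2 ^ k := le_trans (by norm_num : 24 ≤ 2 ^ 20) (Nat.pow_le_pow_right (by norm_num) h20)
    calc 24 * 2 ^ k ≤ 2 ^ k * 2 ^ k := Nat.mul_le_mul_right _ e1
      _ = _ := by ring
  have hκ1 : 1 ≤ κ := by omega
  have hdκ : d ≤ κ' := by omega
  have e2 : κ' * κ' ≤ κ' ^ 3 := by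
    calc κ' * κ' = κ' ^ 2 := by ring
      _ ≤ κ' ^ 3 := Nat.pow_le_pow_right (by omega) (by norm_num)
  have e1 : κ' ≤ κ' ^ 3 := by
    calc κ' = κ' ^ 1 := (pow_one _).symm
      _ ≤ κ' ^ 3 := Nat.pow_le_pow_right (by omega) (by norm_num)
  have e3 : d * κ' ^ 2 ≤ κ' ^ 3 := by
    calc d * κ' ^ 2 ≤ κ' * κ' ^ 2 := Nat.mul_le_mul_right _ hdκ
      _ = κ' ^ 3 := by ring
  refine ⟨hκ1, hκκ, ?_, ?_, ?_, ?_, ?_⟩
  · calc 2 * (Cv * κ + r) ≤ 2 * (Cv * κ + κ) := by omega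
      _ = (2 * (Cv + 1)) * κ := by ring
      _ ≤ κ * κ := Nat.mul_le_mul_right _ (by omega)
      _ = κ ^ 2 := by ring
  · calc 2 * (Cv * κ' + r) ≤ 2 * (Cv * κ' + κ') := by omega
      _ = (2 * (Cv + 1)) * κ' := by ring
      _ ≤ κ' * κ' := Nat.mul_le_mul_right _ (by omega)
      _ = κ' ^ 2 := by ring
  · have e4 : d * κ ≤ κ' * κ' := Nat.mul_le_mul hdκ hκκ
    have e5 : 4 * d * κ = 4 * (d * κ) := by ring
    rw [e5]
    omega
  · have e5 : 4 * d * κ' ^ 2 = 4 * (d * κ' ^ 2) := by ring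
    have e6 : κ' ^ 2 = κ' * κ' := by ring
    rw [e5]
    rw [e6] at e3 ⊢
    omega
  · have e4 : κ * κ ≤ κ' * κ' := Nat.mul_le_mul hκκ hκκ
    have e5 : d * (κ * κ) ≤ d * (κ' * κ') := Nat.mul_le_mul_left _ e4
    have e6 : κ * 1 ≤ κ * κ := Nat.mul_le_mul_left _ hκ1
    have e7 : 1 * (κ' * κ') ≤ d * (κ' * κ') := Nat.mul_le_mul_right _ hd0
    have e8 : (d * κ + 1) * κ = d * (κ * κ) + κ := by ring
    have e9 : 4 * d * κ' ^ 2 = 4 * (d * (κ' * κ')) := by ring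
    rw [e8, e9]
    omega

end ZQ.S2

namespace ZQ.Rows

open ZP hiding Agree BlockFacts Env GoodK IsGamma LowTail QK StepP Sys UpTail envT foldl_stepR_fst foldl_stepR_inter foldl_stepR_mono foldl_stepR_occ foldl_stepR_region inf infMv infMv_mono infMv_occ inf_comp inf_inter inf_mono_univ inf_occ inf_pred mem_foldl_stepR mem_infMv muK stepI stepR visU visU_mono_univ
open ZP.Rows hiding R_mono R_occ R_restrict R_route R_self R_split R_start R_trans R_vis bg_of_R bh_chain bh_scale block_facts fg_R fg_of_R inf_mono inf_split inf_start mem_inf_iff near_ok ok_occ ok_scale persist persist_steps visU_mono visU_split vis_mono vis_mono_time vis_of_R vis_of_R' vis_restrict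

variable [ZQ.Thr]

open ZP hiding Agree BlockFacts Env GoodK IsGamma LowTail QK StepP Sys UpTail envT foldl_stepR_fst foldl_stepR_inter foldl_stepR_mono foldl_stepR_occ foldl_stepR_region inf infMv infMv_mono infMv_occ inf_comp inf_inter inf_mono_univ inf_occ inf_pred mem_foldl_stepR mem_infMv muK stepI stepR visU visU_mono_univ
open ZP.S1 hiding block_time chain_core dur dur_cons
open ZQ.S1
open ZP.S2 hiding R_ball R_ball' R_mono_start bg_iff fg_iff near_congr scale_nums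
open ZQ.S2
open ZQ

variable {d : ℕ}

section S

variable {Ω : Type} [MeasurableSpace Ω] {P : Measure Ω}

theorem ok_scale (S : Sys d P) : ∃ k1 ≥ S.k0, ∀ k ≥ k1, ∀ k' ≥ k, k' ≤ 10 * k → ∀ E E' : Env d,
    GoodK S.a S.A S.Cv k E → GoodK S.a S.A S.Cv k' E' → Agree ((2 ^ k) ^ 2) E E' →
    ∀ (t : ℕ) (x : Pos d), kp S.a S.A k' + 4 * d * kp S.a S.A k' ^ 2 ≤ t → 2 * t ≤ (2 ^ k) ^ 2 →
    supn x ≤ (2 ^ k) ^ 2 → (E.ok (kp S.a S.A k) t x ↔ E'.ok (kp S.a S.A k') t x) := by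
  obtain ⟨k1, hk1, H⟩ := scale_nums S
  refine ⟨k1, hk1, fun k hk k' hk' hk'' E E' hE _hE' hag t x ht htN hx => ?_⟩
  obtain ⟨h2, hd, h20, H2⟩ := H k hk
  obtain ⟨a1, a2, a3, a4, a5, a6, a7⟩ := H2 k' hk' hk''
  have hE' : E.Good (rr S.A k) (kp S.a S.A k) S.Cv ((2 ^ k) ^ 2) ((2 ^ k) ^ 2) := hE
  have e1 : 4 * d * kp S.a S.A k ^ 2 ≤ 4 * d * kp S.a S.A k' ^ 2 :=
    Nat.mul_le_mul_left _ (Nat.pow_le_pow_left a2 2)
  have e2 : d * kp S.a S.A k ≤ 4 * d * kp S.a S.A k := Nat.mul_le_mul_right _ (by omega)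
  have e3 : kp S.a S.A k ≤ kp S.a S.A k ^ 2 := by
    calc kp S.a S.A k = kp S.a S.A k ^ 1 := (pow_one _).symm
      _ ≤ _ := Nat.pow_le_pow_right (by omega) (by norm_num)
  have hf := fg_iff (x := x) (t := t) S.d_pos hE' hag a2 (by omega) a4 a5 (by omega) (by omega) (by omega)
  have hb := bg_iff (x := x) (t := t) hE' hag a2 a1 a3 a4 (by omega) (by omega) (by omega) (by omega)
  exact and_congr hf hb

theorem bh_scale (S : Sys d P) : ∃ k1 ≥ S.k0, ∀ k ≥ k1, ∀ k' ≥ k, k' ≤ 10 * k → ∀ E E' : Env d,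
    GoodK S.a S.A S.Cv k E → GoodK S.a S.A S.Cv k' E' → Agree ((2 ^ k) ^ 2) E E' →
    ∀ u : Fin d → ℝ, ∑ j, u j ^ 2 = 1 → ∀ m : ℕ, rr S.A k ^ (7 * S.a) ≤ m → m ≤ rr S.A k * 2 ^ k →
    ∀ s : ℕ, kp S.a S.A k' + 4 * d * kp S.a S.A k' ^ 2 ≤ s → 4 * s ≤ (2 ^ k) ^ 2 →
    E'.bh (PK d S.a S.A k') u m 0 s ≤ E.bh (PK d S.a S.A k) u m 0 s := by
  have ha := S.a_big
  have hA := S.A_big
  obtain ⟨k1, hk1, H⟩ := scale_nums S
  obtain ⟨k2, hk2, Hok⟩ := ok_scale S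
  refine ⟨max k1 k2, le_trans hk1 (le_max_left _ _), ?_⟩
  intro k hk k' hk' hk'' E E' hE hE' hag u hu m hm hmn s hs1 hs2
  have hkk1 : k1 ≤ k := le_trans (le_max_left _ _) hk
  have hkk2 : k2 ≤ k := le_trans (le_max_right _ _) hk
  obtain ⟨h2, hd, h20, H2⟩ := H k hkk1
  obtain ⟨a1, a2, a3, a4, a5, a6, a7⟩ := H2 k' hk' hk''
  have hOK := Hok k hkk2 k' hk' hk'' E E' hE hE' hag s
  have hks : kp S.a S.A k ≤ s := by omega
  have hroom : s + rr S.A k ^ (2 * S.a) * m ≤ (2 ^ k) ^ 2 := room ha hA h20 (by omega) hmn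
  have F := S.facts k (le_trans hk1 hkk1) E hE u hu m hm hmn 0 s hks hroom
  obtain ⟨hb1, -, hκ⟩ := block_time h2 ha hm F
  have hb : s + E.bh (PK d S.a S.A k) u m 0 s ≤ (2 ^ k) ^ 2 := by
    refine le_trans (Nat.add_le_add_left (le_trans hb1 ?_) _) hroom
    refine Nat.mul_le_mul_right _ ?_
    calc 8 * rr S.A k ^ S.a ≤ rr S.A k ^ S.a * rr S.A k ^ S.a := Nat.mul_le_mul_right _ (by omega)
      _ = rr S.A k ^ (2 * S.a) := by rw [← pow_add]; congr 1; ring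
  have hκn : kp S.a S.A k ≤ (2 ^ k) ^ 2 := by omega
  have hnear : E.near (kp S.a S.A k) s 0 = E'.near (kp S.a S.A k') s 0 := by
    refine near_congr (n := kp S.a S.A k) (fun v hv => ?_) ?_
    · rw [zero_add]
      exact hOK v hs1 (by omega) (by omega)
    · obtain ⟨v, -, hv1, hv2⟩ := hE.g1 s hks (by
        show s + kp S.a S.A k ≤ (2 ^ k) ^ 2
        omega) 0
      exact ⟨v, hv1, hv2⟩
  -- the start
  have hst : E.occ s (E.near (kp S.a S.A k) s 0) ∧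
      E.near (kp S.a S.A k) s 0 ∈ wall (PK d S.a S.A k) u 0 s s := by
    obtain ⟨j, hj, hy⟩ := F.near_W
    obtain rfl : j = 0 := by omega
    exact ⟨hy.2.2, hy.2.1⟩
  have hwall : ∀ t, wall (PK d S.a S.A k) u 0 s t ⊆ {x | supn x ≤ 4 * (2 ^ k) ^ 2} := by
    rintro t y ⟨-, hy⟩
    rw [sub_zero] at hy
    have : (PK d S.a S.A k).Dw = (2 ^ k) ^ 2 := rfl
    rw [this] at hy
    exact le_trans hy (by omega)
  refine Nat.sInf_le ⟨0 + E.bx (PK d S.a S.A k) u m 0 s, ?_, ?_⟩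
  · have h1 := F.x_mem
    have h3 : E.R (wall (PK d S.a S.A k) u 0 s) s (E.near (kp S.a S.A k) s 0)
      (s + E.bh (PK d S.a S.A k) u m 0 s) (0 + E.bx (PK d S.a S.A k) u m 0 s) := h1
    have h4 := (hag.R _ hwall s _ _ _ hb).1 h3
    have h5 : E'.occ s (E.near (kp S.a S.A k) s 0) := by
      refine (hag.occ s (by omega) _ ?_).1 hst.1
      exact hwall s hst.2
    show E'.R (wall (PK d S.a S.A k') u 0 s) s (E'.near (kp S.a S.A k') s 0)
      (s + E.bh (PK d S.a S.A k) u m 0 s) (0 + E.bx (PK d S.a S.A k) u m 0 s)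
    rw [← hnear]
    exact R_mono_start (fun t ht => wall_mono hk' u ht) h5 hst.2 h4
  · rw [zero_add, sub_zero]
    exact F.x_lev

end S

end ZQ.Rows
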