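import Pool.Agent.ZP.S4
import Pool.Agent.ZQ.Sys2
import Pool.Agent.ZQ.S1
import Pool.Agent.ZQ.S2
import Pool.Agent.ZI.S4

/-! # Row S4: upper tail of the durations for all sizes, step property (with recovery) -/

set_option autoImplicit false

open scoped ENNReal BigOperators Classical Pointwise
open MeasureTheory

noncomputable section

namespace ZQ.S4aux

open ZP hiding Agree BlockFacts Env GoodK IsGamma LowTail QK StepP Sys UpTail envT foldl_stepR_fst foldl_stepR_inter foldl_stepR_mono foldl_stepR_occ foldl_stepR_region inf infMv infMv_mono infMv_occ inf_comp inf_inter inf_mono_univ inf_occ inf_pred mem_foldl_stepR mem_infMv muK stepI stepR visU visU_mono_univ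
open ZP.S4aux hiding QK_le_tail block_ub chain_ub delta_le mean_compare muK_eq rr_le rr_pow_le tail_le_QK up_core

variable [ZQ.Thr]

open ZP hiding Agree BlockFacts Env GoodK IsGamma LowTail QK StepP Sys UpTail envT foldl_stepR_fst foldl_stepR_inter foldl_stepR_mono foldl_stepR_occ foldl_stepR_region inf infMv infMv_mono infMv_occ inf_comp inf_inter inf_mono_univ inf_occ inf_pred mem_foldl_stepR mem_infMv muK stepI stepR visU visU_mono_univ
open ZQ

export ZI.S4aux (le_tail tail_le mn min_eq_sum mn_eq mn_toReal mn_le mn_compare forall₂_replicate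
  prodQ_replicate small_err)

variable {d : ℕ} {Ω : Type} [MeasurableSpace Ω] {P : Measure Ω}

/-! ## the blocks of a chain on the good event -/

lemma block_ub (S : Sys d P) {k : ℕ} (hk : S.k0 ≤ k) {E : Env d} (hE : GoodK S.a S.A S.Cv k E)
    {u : Fin d → ℝ} (hu : ∑ j, u j ^ 2 = 1) {m : ℕ} (hm : rr S.A k ^ (7 * S.a) ≤ m)
    (hm' : m ≤ rr S.A k * 2 ^ k) {z : Pos d} {s : ℕ}
    (hks : kp S.a S.A k ≤ s) (hs : s + rr S.A k ^ (2 * S.a) * m ≤ (2 ^ k) ^ 2) :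
    E.bh (PK d S.a S.A k) u m z s ≤ 12 * rr S.A k ^ S.a * m := by
  have h1 := (S.facts k hk E hE u hu m hm hm' z s hks hs).h_ub
  have hr : 1 ≤ rr S.A k := Nat.one_le_two_pow
  have h2 : (PK d S.a S.A k).κ = rr S.A k ^ S.a := rfl
  have h3 : (PK d S.a S.A k).mg = rr S.A k ^ (3 * S.a) := rfl
  have h4 : rr S.A k ^ (3 * S.a) ≤ m :=
    (Nat.pow_le_pow_right hr (by omega)).trans hm
  have h4' : ((rr S.A k ^ (3 * S.a) : ℕ) : ℝ) ≤ m := by exact_mod_cast h4
  rw [h2, h3] at h1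
  have h5 : (E.bh (PK d S.a S.A k) u m z s : ℝ) ≤ ((12 * rr S.A k ^ S.a * m : ℕ) : ℝ) := by
    refine h1.trans ?_
    push_cast at h4' ⊢
    have h6 : (0 : ℝ) ≤ (rr S.A k : ℝ) ^ S.a := by positivity
    nlinarith
  exact_mod_cast h5

lemma delta_le (S : Sys d P) (k : ℕ) :
    (PK d S.a S.A k).Δ ≤ 66 * rr S.A k ^ (4 * S.a) := by
  have hr : 1 ≤ rr S.A k := Nat.one_le_two_pow
  have h2 : (PK d S.a S.A k).Δ = (64 * rr S.A k ^ (3 * S.a) + 2) * rr S.A k ^ S.a := rfl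
  rw [h2]
  have h3 : 1 ≤ rr S.A k ^ (3 * S.a) := Nat.one_le_pow _ _ hr
  calc (64 * rr S.A k ^ (3 * S.a) + 2) * rr S.A k ^ S.a
      ≤ (64 * rr S.A k ^ (3 * S.a) + 2 * rr S.A k ^ (3 * S.a)) * rr S.A k ^ S.a := by gcongr; omega
    _ = 66 * rr S.A k ^ (4 * S.a) := by rw [show 4 * S.a = 3 * S.a + S.a by ring, pow_add]; ring

lemma chain_ub (S : Sys d P) {k : ℕ} (hk : S.k0 ≤ k) {E : Env d} (hE : GoodK S.a S.A S.Cv k E)
    {u : Fin d → ℝ} (hu : ∑ j, u j ^ 2 = 1) (hr2 : 2 ≤ rr S.A k) :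
    ∀ (ms : List ℕ), (∀ m ∈ ms, rr S.A k ^ (7 * S.a) ≤ m) → (∀ m ∈ ms, m ≤ rr S.A k * 2 ^ k) →
      ∀ (z : Pos d) (s : ℕ), kp S.a S.A k ≤ s → s + rr S.A k ^ (2 * S.a) * ms.sum ≤ (2 ^ k) ^ 2 →
      List.Forall₂ (fun (m : ℕ) (y : ℕ × Pos d) => y.1 ≤ 12 * rr S.A k ^ S.a * m) ms
        (E.chain (PK d S.a S.A k) u ms z s)
  | [], _, _, _, _, _, _ => List.Forall₂.nil
  | m :: ms, hm, hm', z, s, hks, hs => by
      have h1 : rr S.A k ^ (7 * S.a) ≤ m := hm m (by simp)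
      have h2 : m ≤ rr S.A k * 2 ^ k := hm' m (by simp)
      rw [List.sum_cons, Nat.mul_add] at hs
      have h3 := block_ub S hk hE hu h1 h2 (z := z) (s := s) hks (by omega)
      refine List.Forall₂.cons h3 (chain_ub S hk hE hu hr2 ms (fun m' h => hm m' (by simp [h]))
        (fun m' h => hm' m' (by simp [h])) _ _ (by omega) ?_)
      have h4 := delta_le S k
      have hr : 1 ≤ rr S.A k := by omega
      have h5 : rr S.A k ^ (4 * S.a) ≤ m := (Nat.pow_le_pow_right hr (by omega)).trans h1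
      have h6 : 78 ≤ rr S.A k ^ S.a := by
        have h7 : 2 ^ 10 ≤ rr S.A k ^ S.a :=
          (Nat.pow_le_pow_left hr2 10).trans (Nat.pow_le_pow_right hr S.a_big)
        omega
      have h8 : rr S.A k ^ (2 * S.a) = rr S.A k ^ S.a * rr S.A k ^ S.a := by
        rw [← pow_add]; congr 1; ring
      have h9 : (E.blk (PK d S.a S.A k) u m z s).1 = E.bh (PK d S.a S.A k) u m z s := rfl
      rw [h9]
      have h10 : 12 * rr S.A k ^ S.a * m + 66 * m ≤ rr S.A k ^ (2 * S.a) * m := by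
        rw [h8]
        nlinarith [Nat.mul_le_mul h6 (le_refl (rr S.A k ^ S.a * m)), Nat.zero_le (rr S.A k ^ S.a * m),
          Nat.mul_le_mul (le_trans (by norm_num : 1 ≤ 78) h6) (le_refl m)]
      omega

/-! ## comparison of the means at two scales -/

/-- the law of the block started at `(0, s)` compared with `QK`, tails of the duration -/
lemma tail_le_QK (S : Sys d P) {k : ℕ} (hk : S.k0 ≤ k) {u : Fin d → ℝ} (hu : ∑ j, u j ^ 2 = 1) {m : ℕ}
    (hm : rr S.A k ^ (7 * S.a) ≤ m) (hm' : m ≤ rr S.A k * 2 ^ k) {s : ℕ} (hks : kp S.a S.A k ≤ s)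
    (hs : 2 * s ≤ (2 ^ k) ^ 2) (A : ℕ × Pos d → Prop) [DecidablePred A] :
    P {ω | A ((S.E k ω).blk (PK d S.a S.A k) u m 0 s)} ≤
      ∑' y : ℕ × Pos d, (if A y then QK P S.E S.a S.A k u m y else 0) + err (rr S.A k) := by
  have h1 := S.chain k hk u hu [m] (by
    intro m' h
    rw [List.mem_singleton.mp h]
    exact hm) (by simpa using hm') 0 s hks hs (fun l => ∃ y, l = [y] ∧ A y)
  have h2 : {ω | A ((S.E k ω).blk (PK d S.a S.A k) u m 0 s)} ⊆
      {ω | ∃ y, (S.E k ω).chain (PK d S.a S.A k) u [m] 0 s = [y] ∧ A y} := fun ω hω => by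
    exact ⟨_, rfl, hω⟩
  refine (measure_mono h2).trans (h1.trans (add_le_add (le_of_eq ?_) le_rfl))
  simp only [prodQ]
  refine tsum_congr fun y => ?_
  by_cases hA : A y
  · rw [if_pos hA, if_pos ⟨y, rfl, hA⟩, mul_one]
  · rw [if_neg hA, if_neg, mul_zero]
    rintro ⟨y', hy, hA'⟩
    have : y = y' := by simpa using hy
    rw [this] at hA
    exact hA hA'

lemma QK_le_tail [IsProbabilityMeasure P] (S : Sys d P) {k : ℕ} (hk : S.k0 ≤ k) {u : Fin d → ℝ}
    (hu : ∑ j, u j ^ 2 = 1) {m : ℕ}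
    (hm : rr S.A k ^ (7 * S.a) ≤ m) (hm' : m ≤ rr S.A k * 2 ^ k) {s : ℕ} (hks : kp S.a S.A k ≤ s)
    (hs : 2 * s ≤ (2 ^ k) ^ 2) (A : ℕ × Pos d → Prop) [DecidablePred A] :
    ∑' y : ℕ × Pos d, (if A y then QK P S.E S.a S.A k u m y else 0) ≤
      P {ω | A ((S.E k ω).blk (PK d S.a S.A k) u m 0 s)} + err (rr S.A k) := by
  have h1 : ∑' y, (if A y then QK P S.E S.a S.A k u m y else 0) +
      ∑' y, (if ¬ A y then QK P S.E S.a S.A k u m y else 0) = 1 := by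
    rw [← ENNReal.tsum_add, ← S.tsumQ k hk u m]
    exact tsum_congr fun y => by by_cases hA : A y <;> simp [hA]
  have h2 := tail_le_QK S hk hu hm hm' hks hs (fun y => ¬ A y)
  have h3 : (1 : ℝ≥0∞) ≤ P {ω | A ((S.E k ω).blk (PK d S.a S.A k) u m 0 s)} +
      P {ω | ¬ A ((S.E k ω).blk (PK d S.a S.A k) u m 0 s)} := by
    have h4 : (Set.univ : Set Ω) ⊆ {ω | A ((S.E k ω).blk (PK d S.a S.A k) u m 0 s)} ∪
        {ω | ¬ A ((S.E k ω).blk (PK d S.a S.A k) u m 0 s)} := fun ω _ => by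
      by_cases h : A ((S.E k ω).blk (PK d S.a S.A k) u m 0 s)
      · exact Or.inl h
      · exact Or.inr h
    calc (1 : ℝ≥0∞) = P Set.univ := measure_univ.symm
      _ ≤ _ := (measure_mono h4).trans (measure_union_le _ _)
  have h5 : ∑' y, (if ¬ A y then QK P S.E S.a S.A k u m y else 0) ≠ ⊤ := by
    intro h
    rw [h] at h1
    simp at h1
  refine (ENNReal.add_le_add_iff_right h5).mp ?_
  rw [h1]
  refine h3.trans ?_
  calc P {ω | A ((S.E k ω).blk (PK d S.a S.A k) u m 0 s)} +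
        P {ω | ¬ A ((S.E k ω).blk (PK d S.a S.A k) u m 0 s)}
      ≤ P {ω | A ((S.E k ω).blk (PK d S.a S.A k) u m 0 s)} +
        (∑' y, (if ¬ A y then QK P S.E S.a S.A k u m y else 0) + err (rr S.A k)) :=
        add_le_add le_rfl h2
    _ = _ := by ring

lemma mean_compare [IsProbabilityMeasure P] (S : Sys d P) {k0 k : ℕ} (hk0 : S.k0 ≤ k0) (hk : k0 ≤ k)
    {u : Fin d → ℝ} (hu : ∑ j, u j ^ 2 = 1) {s : ℕ} (hks : kp S.a S.A k ≤ s)
    (hs : 2 * s ≤ (2 ^ k0) ^ 2)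
    (hsc : ∀ E E' : Env d, GoodK S.a S.A S.Cv k0 E → GoodK S.a S.A S.Cv k E' →
      Agree ((2 ^ k0) ^ 2) E E' → ∀ m : ℕ, rr S.A k0 ^ (7 * S.a) ≤ m → m ≤ rr S.A k0 * 2 ^ k0 →
      E'.bh (PK d S.a S.A k) u m 0 s ≤ E.bh (PK d S.a S.A k0) u m 0 s)
    {m : ℕ} (hm : rr S.A k ^ (7 * S.a) ≤ m) (hm' : m ≤ rr S.A k0 * 2 ^ k0) (N : ℕ) :
    mn (QK P S.E S.a S.A k u m) N ≤
      mn (QK P S.E S.a S.A k0 u m) N + N * (5 * err (rr S.A k0)) := by
  have hrr : rr S.A k0 ≤ rr S.A k := by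
    unfold rr
    exact Nat.pow_le_pow_right (by norm_num) (Nat.div_le_div_right hk)
  have hm0 : rr S.A k0 ^ (7 * S.a) ≤ m := (Nat.pow_le_pow_left hrr _).trans hm
  have hmk : m ≤ rr S.A k * 2 ^ k :=
    hm'.trans (Nat.mul_le_mul hrr (Nat.pow_le_pow_right (by norm_num) hk))
  have hks0 : kp S.a S.A k0 ≤ s := (Nat.pow_le_pow_left hrr _).trans hks
  have hsk : 2 * s ≤ (2 ^ k) ^ 2 :=
    hs.trans (Nat.pow_le_pow_left (Nat.pow_le_pow_right (by norm_num) hk) 2)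
  refine mn_compare _ _ _ _ fun j => ?_
  have h1 := QK_le_tail S (hk0.trans hk) hu hm hmk hks hsk (fun y => j < y.1)
  have h2 := tail_le_QK S hk0 hu hm0 hm' hks0 hs (fun y => j < y.1)
  have h3 : {ω | j < ((S.E k ω).blk (PK d S.a S.A k) u m 0 s).1} ⊆
      {ω | j < ((S.E k0 ω).blk (PK d S.a S.A k0) u m 0 s).1} ∪
        ({ω | ¬ GoodK S.a S.A S.Cv k0 (S.E k0 ω)} ∪ ({ω | ¬ GoodK S.a S.A S.Cv k (S.E k ω)} ∪
          {ω | ¬ Agree ((2 ^ k0) ^ 2) (S.E k0 ω) (S.E k ω)})) := by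
    intro ω hω
    by_cases a1 : GoodK S.a S.A S.Cv k0 (S.E k0 ω)
    · by_cases a2 : GoodK S.a S.A S.Cv k (S.E k ω)
      · by_cases a3 : Agree ((2 ^ k0) ^ 2) (S.E k0 ω) (S.E k ω)
        · left
          exact lt_of_lt_of_le hω (hsc _ _ a1 a2 a3 m hm0 hm')
        · exact Or.inr (Or.inr (Or.inr a3))
      · exact Or.inr (Or.inr (Or.inl a2))
    · exact Or.inr (Or.inl a1)
  have h4 : err (rr S.A k) ≤ err (rr S.A k0) := by
    unfold err
    refine ENNReal.ofReal_le_ofReal (Real.exp_le_exp.mpr (neg_le_neg (Real.sqrt_le_sqrt ?_)))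
    exact_mod_cast hrr
  have h5 : P {ω | j < ((S.E k ω).blk (PK d S.a S.A k) u m 0 s).1} ≤
      P {ω | j < ((S.E k0 ω).blk (PK d S.a S.A k0) u m 0 s).1} +
        (err (rr S.A k0) + (err (rr S.A k0) + err (rr S.A k0))) :=
    calc P {ω | j < ((S.E k ω).blk (PK d S.a S.A k) u m 0 s).1}
        ≤ _ := measure_mono h3
      _ ≤ P {ω | j < ((S.E k0 ω).blk (PK d S.a S.A k0) u m 0 s).1} +
          (P {ω | ¬ GoodK S.a S.A S.Cv k0 (S.E k0 ω)} + (P {ω | ¬ GoodK S.a S.A S.Cv k (S.E k ω)} +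
            P {ω | ¬ Agree ((2 ^ k0) ^ 2) (S.E k0 ω) (S.E k ω)})) :=
          (measure_union_le _ _).trans (add_le_add le_rfl ((measure_union_le _ _).trans
            (add_le_add le_rfl (measure_union_le _ _))))
      _ ≤ _ :=
          add_le_add le_rfl (add_le_add (S.good k0 hk0) (add_le_add
            ((S.good k (hk0.trans hk)).trans h4) (S.agree k0 hk0 k hk)))
  calc ∑' y : ℕ × Pos d, (if j < y.1 then QK P S.E S.a S.A k u m y else 0)
      ≤ P {ω | j < ((S.E k ω).blk (PK d S.a S.A k) u m 0 s).1} + err (rr S.A k) := h1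
    _ ≤ (P {ω | j < ((S.E k0 ω).blk (PK d S.a S.A k0) u m 0 s).1} +
        (err (rr S.A k0) + (err (rr S.A k0) + err (rr S.A k0)))) + err (rr S.A k0) :=
        add_le_add h5 h4
    _ ≤ ((∑' y : ℕ × Pos d, (if j < y.1 then QK P S.E S.a S.A k0 u m y else 0) + err (rr S.A k0)) +
        (err (rr S.A k0) + (err (rr S.A k0) + err (rr S.A k0)))) + err (rr S.A k0) :=
        add_le_add (add_le_add h2 le_rfl) le_rfl
    _ = _ := by ring

/-! ## the core estimate -/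

theorem up_core [IsProbabilityMeasure P] (S : Sys d P) {k : ℕ} (hk : S.k0 ≤ k)
    {u : Fin d → ℝ} (hu : ∑ j, u j ^ 2 = 1)
    (hch : ∀ E : Env d, GoodK S.a S.A S.Cv k E → ∀ ms : List ℕ, ms ≠ [] →
      (∀ m ∈ ms, rr S.A k ^ (7 * S.a) ≤ m) → ms.sum ≤ rr S.A k * 2 ^ k → ∀ (z : Pos d) (s : ℕ),
      kp S.a S.A k ≤ s → 2 * s ≤ (2 ^ k) ^ 2 → E.bh (PK d S.a S.A k) u ms.sum z s ≤
        ((E.chain (PK d S.a S.A k) u ms z s).map Prod.fst).sum +
          (ms.length - 1) * (PK d S.a S.A k).Δ)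
    {m0 m1 q m : ℕ} (hm0 : rr S.A k ^ (7 * S.a) ≤ m0) (hm1 : m0 ≤ m1) (hm1' : m1 ≤ 2 * m0)
    (hm : m = m1 + q * m0) (hmk : m ≤ 2 ^ k) (hr2 : 2 ≤ rr S.A k) (hq : 0 < q)
    (hsq : 12 * rr S.A k ^ S.a * m0 ≤ m0 ^ 2)
    (hhor : 2 * (rr S.A k ^ (2 * S.a) * (rr S.A k * 2 ^ k)) ≤ (2 ^ k) ^ 2)
    {g ε : ℝ} (hg : 0 < g) (hε : 0 < ε)
    (h24 : 24 * ((rr S.A k ^ S.a : ℕ) : ℝ) * m0 ≤ ε / 8 * m)
    (h66 : (q : ℝ) * (66 * ((rr S.A k ^ (4 * S.a) : ℕ) : ℝ)) ≤ ε / 8 * m)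
    (hmean : (mn (QK P S.E S.a S.A k u m0) (m0 ^ 2)).toReal ≤ (g + ε / 4) * m0)
    (hexp : Real.sqrt (rr S.A k) ≤ ε ^ 2 * q / (32 * (m0 : ℝ) ^ 2))
    (z : Pos d) (s : ℕ) (hks : kp S.a S.A k ≤ s) (hs : 2 * s ≤ (2 ^ k) ^ 2) :
    P {ω | (g + ε) * m < ((S.E k ω).bh (PK d S.a S.A k) u m z s : ℝ)} ≤ 8 * err (rr S.A k) := by
  classical
  have hm0pos : 0 < m0 := lt_of_lt_of_le (by positivity) hm0
  set ms : List ℕ := m1 :: List.replicate q m0 with hms
  have hsum : ms.sum = m := by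
    rw [hms, List.sum_cons, List.sum_replicate, smul_eq_mul, hm]
  have hall : ∀ m' ∈ ms, rr S.A k ^ (7 * S.a) ≤ m' := by
    intro m' h
    rcases List.mem_cons.mp h with h | h
    · rw [h]; exact hm0.trans hm1
    · rw [List.eq_of_mem_replicate h]; exact hm0
  have hr1 : 1 ≤ rr S.A k := by omega
  have hsumle : ms.sum ≤ rr S.A k * 2 ^ k := by
    rw [hsum]
    exact hmk.trans (Nat.le_mul_of_pos_left _ (by omega))
  have hallub : ∀ m' ∈ ms, m' ≤ rr S.A k * 2 ^ k := fun m' h =>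
    (List.le_sum_of_mem h).trans hsumle
  have hstart : s + rr S.A k ^ (2 * S.a) * ms.sum ≤ (2 ^ k) ^ 2 := by
    have h1 : rr S.A k ^ (2 * S.a) * ms.sum ≤ rr S.A k ^ (2 * S.a) * (rr S.A k * 2 ^ k) :=
      Nat.mul_le_mul_left _ hsumle
    omega
  set f : ℕ × Pos d → ℝ := fun y => min (y.1 : ℝ) ((m0 ^ 2 : ℕ) : ℝ) with hf
  set Q : ℕ → ℕ × Pos d → ℝ≥0∞ := QK P S.E S.a S.A k u with hQ
  have hQ1 : ∀ m', ∑' y, Q m' y = 1 := fun m' => S.tsumQ k hk u m'
  set μ : ℝ := ∑' y, (Q m0 y).toReal * f y with hμ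
  have hμ' : μ ≤ (g + ε / 4) * m0 := by
    rw [hμ, ← mn_toReal (Q m0) (hQ1 m0) (m0 ^ 2)]
    exact hmean
  set t : ℝ := ε / 2 * (q * m0) with ht
  set G1 : List (ℕ × Pos d) → Prop := fun l => t ≤ |(l.map f).sum - q * μ| with hG1
  set G : List (ℕ × Pos d) → Prop := fun l => G1 l.tail with hG
  -- the deterministic part
  have hdet : {ω | (g + ε) * m < ((S.E k ω).bh (PK d S.a S.A k) u m z s : ℝ)} ⊆
      {ω | ¬ GoodK S.a S.A S.Cv k (S.E k ω)} ∪
        {ω | G ((S.E k ω).chain (PK d S.a S.A k) u ms z s)} := by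
    intro ω hω
    by_cases hgd : GoodK S.a S.A S.Cv k (S.E k ω)
    · right
      have h1 := hch _ hgd ms (by rw [hms]; simp) hall hsumle z s hks hs
      have h2 := chain_ub S hk hgd hu hr2 ms hall hallub z s hks hstart
      rw [hsum] at h1
      show t ≤ |(((S.E k ω).chain (PK d S.a S.A k) u ms z s).tail.map f).sum - q * μ|
      have hlen : ms.length - 1 = q := by rw [hms]; simp
      rw [hlen] at h1
      obtain ⟨y0, l', hl⟩ : ∃ y0 l', (S.E k ω).chain (PK d S.a S.A k) u ms z s = y0 :: l' :=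
        ⟨_, _, rfl⟩
      rw [hl] at h1 h2 ⊢
      rw [hms] at h2
      cases h2 with
      | cons h3 h4 =>
      have h5 := forall₂_replicate h4
      rw [List.map_cons, List.sum_cons] at h1
      rw [List.tail_cons]
      have h6 : (l'.map f).sum = (((l'.map Prod.fst).sum : ℕ) : ℝ) := by
        have h7 : ∀ l : List (ℕ × Pos d), (∀ y ∈ l, y.1 ≤ 12 * rr S.A k ^ S.a * m0) →
            (l.map f).sum = (((l.map Prod.fst).sum : ℕ) : ℝ) := by
          intro l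
          induction l with
          | nil => intro _; simp
          | cons y l ih =>
            intro h
            rw [List.map_cons, List.sum_cons, List.map_cons, List.sum_cons,
              ih (fun y' hy' => h y' (List.mem_cons_of_mem _ hy')), Nat.cast_add]
            congr 1
            exact min_eq_left (by exact_mod_cast (h y (by simp)).trans hsq)
        exact h7 l' h5
      have h8 : ((S.E k ω).bh (PK d S.a S.A k) u m z s : ℝ) ≤
          (y0.1 : ℝ) + (l'.map f).sum + q * ((PK d S.a S.A k).Δ : ℝ) := by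
        rw [h6]
        exact_mod_cast h1
      have h9 : (y0.1 : ℝ) ≤ ε / 8 * m := by
        have h10 : (y0.1 : ℝ) ≤ ((12 * rr S.A k ^ S.a * m1 : ℕ) : ℝ) := by exact_mod_cast h3
        refine h10.trans (le_trans ?_ h24)
        have h11 : (m1 : ℝ) ≤ 2 * m0 := by exact_mod_cast hm1'
        push_cast
        have h12 : (0 : ℝ) ≤ (rr S.A k : ℝ) ^ S.a := by positivity
        nlinarith
      have h13 : (q : ℝ) * ((PK d S.a S.A k).Δ : ℝ) ≤ ε / 8 * m := by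
        refine le_trans ?_ h66
        have h14 : ((PK d S.a S.A k).Δ : ℝ) ≤ ((66 * rr S.A k ^ (4 * S.a) : ℕ) : ℝ) := by
          exact_mod_cast delta_le S k
        push_cast at h14 ⊢
        exact mul_le_mul_of_nonneg_left h14 (by positivity)
      have h15 : (g + ε) * m < ((S.E k ω).bh (PK d S.a S.A k) u m z s : ℝ) := hω
      have h16 : (g + 3 * ε / 4) * m < (l'.map f).sum := by linarith
      have h17 : ((q * m0 : ℕ) : ℝ) ≤ m := by
        exact_mod_cast (by omega : q * m0 ≤ m)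
      push_cast at h17
      have h18 : (g + 3 * ε / 4) * (q * m0) ≤ (g + 3 * ε / 4) * m :=
        mul_le_mul_of_nonneg_left h17 (by positivity)
      have h19 : (q : ℝ) * μ ≤ q * ((g + ε / 4) * m0) :=
        mul_le_mul_of_nonneg_left hμ' (by positivity)
      refine le_trans ?_ (le_abs_self _)
      rw [ht]
      nlinarith
    · left; exact hgd
  -- the probabilistic part
  have hprob : prodQ Q ms G ≤ 2 * err (rr S.A k) := by
    have h1 : prodQ Q ms G = prodQ (fun _ => Q m0) (List.replicate q m0) G1 := by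
      rw [hms]
      show ∑' y, Q m1 y * prodQ Q (List.replicate q m0) (fun l => G1 (List.tail (y :: l))) = _
      simp only [List.tail_cons]
      rw [ENNReal.tsum_mul_right, hQ1, one_mul]
      exact prodQ_replicate Q m0 q G1
    have h2 := ZI.Rows.prodQ_hoeffding (Q m0) (hQ1 m0) f ((m0 ^ 2 : ℕ) : ℝ) (by positivity)
      (fun y => by
        rw [hf, abs_of_nonneg (le_min (by positivity) (by positivity))]
        exact min_le_right _ _) (List.replicate q m0) t (by positivity)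
    rw [List.length_replicate] at h2
    rw [h1]
    refine h2.trans ?_
    rw [ENNReal.ofReal_mul (by norm_num), ENNReal.ofReal_ofNat]
    refine mul_le_mul' le_rfl ?_
    unfold err
    refine ENNReal.ofReal_le_ofReal (Real.exp_le_exp.mpr ?_)
    have h3 : - t ^ 2 / (8 * (q : ℝ) * ((m0 ^ 2 : ℕ) : ℝ) ^ 2) = -(ε ^ 2 * q / (32 * (m0 : ℝ) ^ 2)) := by
      have hq' : (q : ℝ) ≠ 0 := by positivity
      have hm0' : (m0 : ℝ) ≠ 0 := by positivity
      rw [ht]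
      push_cast
      field_simp
      ring
    rw [h3]
    exact neg_le_neg hexp
  calc P {ω | (g + ε) * m < ((S.E k ω).bh (PK d S.a S.A k) u m z s : ℝ)}
      ≤ P {ω | ¬ GoodK S.a S.A S.Cv k (S.E k ω)} +
        P {ω | G ((S.E k ω).chain (PK d S.a S.A k) u ms z s)} :=
        (measure_mono hdet).trans (measure_union_le _ _)
    _ ≤ err (rr S.A k) + (2 * err (rr S.A k) + err (rr S.A k)) :=
        add_le_add (S.good k hk) ((S.chain k hk u hu ms hall hsumle z s hks hs G).trans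
          (add_le_add hprob le_rfl))
    _ = 4 * err (rr S.A k) := by ring
    _ ≤ 8 * err (rr S.A k) := by gcongr; norm_num

/-! ## asymptotics -/

lemma rr_pow_le (S : Sys d P) (n k : ℕ) : rr S.A k ^ (n * S.a) ≤ 2 ^ (n * (k / 1000)) := by
  unfold rr
  rw [← pow_mul]
  refine Nat.pow_le_pow_right (by norm_num) ?_
  have ha : 0 < S.a := by have := S.a_big; omega
  have h1 : k / S.A * S.a ≤ k / 1000 := by
    rw [Nat.le_div_iff_mul_le (by norm_num)]
    calc k / S.A * S.a * 1000 = k / S.A * (1000 * S.a) := by ring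
      _ ≤ k / S.A * S.A := Nat.mul_le_mul_left _ S.A_big
      _ ≤ k := Nat.div_mul_le_self k S.A
  calc k / S.A * (n * S.a) = n * (k / S.A * S.a) := by ring
    _ ≤ n * (k / 1000) := Nat.mul_le_mul_left _ h1

lemma rr_le (S : Sys d P) (k : ℕ) : rr S.A k ≤ 2 ^ (k / 1000) := by
  have h1 := rr_pow_le S 1 k
  rw [one_mul, one_mul] at h1
  refine le_trans ?_ h1
  exact Nat.le_self_pow (by have := S.a_big; omega) _

lemma muK_eq (S : Sys d P) (k : ℕ) (hk : S.k0 ≤ k) (u : Fin d → ℝ) :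
    (mn (QK P S.E S.a S.A k u (2 ^ k)) ((2 ^ k) ^ 2)).toReal = muK S k u := by
  rw [mn_toReal _ (S.tsumQ k hk u _)]
  unfold muK
  push_cast
  rfl

end ZQ.S4aux

namespace ZQ.Rows

open ZP hiding Agree BlockFacts Env GoodK IsGamma LowTail QK StepP Sys UpTail envT foldl_stepR_fst foldl_stepR_inter foldl_stepR_mono foldl_stepR_occ foldl_stepR_region inf infMv infMv_mono infMv_occ inf_comp inf_inter inf_mono_univ inf_occ inf_pred mem_foldl_stepR mem_infMv muK stepI stepR visU visU_mono_univ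
open ZP.Rows hiding R_mono R_occ R_restrict R_route R_self R_split R_start R_trans R_vis bg_of_R bh_chain bh_scale block_facts fg_R fg_of_R inf_mono inf_split inf_start mem_inf_iff near_ok ok_occ ok_scale persist persist_steps stepP_whp up_tail visU_mono visU_split vis_mono vis_mono_time vis_of_R vis_of_R' vis_restrict

variable [ZQ.Thr]

open S4aux
open ZP hiding Agree BlockFacts Env GoodK IsGamma LowTail QK StepP Sys UpTail envT foldl_stepR_fst foldl_stepR_inter foldl_stepR_mono foldl_stepR_occ foldl_stepR_region inf infMv infMv_mono infMv_occ inf_comp inf_inter inf_mono_univ inf_occ inf_pred mem_foldl_stepR mem_infMv muK stepI stepR visU visU_mono_univ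
open ZQ

variable {d : ℕ} {Ω : Type} [MeasurableSpace Ω] {P : Measure Ω}

theorem up_tail [IsProbabilityMeasure P] (S : Sys d P) (γ : (Fin d → ℝ) → ℝ) (c C : ℝ)
    (hγ : IsGamma S γ c C) : UpTail S γ := by
  intro u hu ε hε
  have hg : 0 < γ u := lt_of_lt_of_le hγ.c_pos (hγ.lb u hu)
  have hApos : 0 < S.A := by have := S.a_big; have := S.A_big; omega
  obtain ⟨kc, hkc0, hkc⟩ := bh_chain S
  obtain ⟨ks, hks0, hks⟩ := bh_scale S
  obtain ⟨N, hN⟩ := exists_nat_gt (192 / ε + 528 / ε + 64 / ε ^ 2)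
  have hN2 : 192 / ε + 528 / ε + 64 / ε ^ 2 < (2 : ℝ) ^ N :=
    hN.trans (by exact_mod_cast Nat.lt_two_pow_self)
  have e1 : ∀ᶠ j : ℕ in Filter.atTop, muK S j u / 2 ^ j < γ u + ε / 8 :=
    (hγ.lim u hu).eventually (gt_mem_nhds (by linarith))
  have e2 := small_err S.A hApos 1 (ε / 40) (by positivity)
  have e3 : ∀ᶠ j : ℕ in Filter.atTop, max kc ks ≤ j := Filter.eventually_ge_atTop _
  obtain ⟨J, hJ⟩ := Filter.eventually_atTop.mp (e1.and (e2.and e3))
  refine ⟨8 * (J + 1) + 1000 * (N + 10) + S.A + 1000 * (4 * (1 + 4 * d)),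
    fun k hk m hm hmk z s hks0' hs => ?_⟩
  obtain ⟨f1, f2, f3⟩ := hJ (k / 8) (by omega)
  have hkk : max kc ks ≤ k := f3.trans (Nat.div_le_self k 8)
  have hkc' : kc ≤ k := (le_max_left _ _).trans hkk
  have hk0 : S.k0 ≤ k := hkc0.le.trans hkc'
  have hks' : ks ≤ k / 8 := (le_max_right _ _).trans f3
  have hk8 : S.k0 ≤ k / 8 := hks0.le.trans hks'
  have hr1 : 1 ≤ rr S.A k := Nat.one_le_two_pow
  have hr2 : 2 ≤ rr S.A k := by
    unfold rr
    have h1 : 1 ≤ k / S.A := (Nat.one_le_div_iff hApos).mpr (by omega)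
    calc 2 = 2 ^ 1 := rfl
      _ ≤ 2 ^ (k / S.A) := Nat.pow_le_pow_right (by norm_num) h1
  -- sizes
  have hj : N + 10 ≤ k / 1000 := by omega
  set j := k / 1000 with hjdef
  set m0 : ℕ := 2 ^ (k / 8) with hm0def
  have hm0pos : 0 < m0 := by positivity
  have hmhalf : 2 ^ (k / 2) ≤ m := by
    have h1 : (2 ^ (k / 2)) ^ 2 ≤ m ^ 2 := by
      refine le_trans ?_ hm
      rw [← pow_mul]
      exact Nat.pow_le_pow_right (by norm_num) (Nat.div_mul_le_self k 2)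
    exact (Nat.pow_le_pow_iff_left (by norm_num)).mp h1
  have hdivlb : 2 ^ (k / 2 - k / 8) ≤ m / m0 := by
    rw [Nat.le_div_iff_mul_le hm0pos, hm0def, ← pow_add]
    refine le_trans (Nat.pow_le_pow_right (by norm_num) ?_) hmhalf
    omega
  have hdiv2 : 2 ≤ m / m0 := by
    refine le_trans ?_ hdivlb
    calc 2 = 2 ^ 1 := rfl
      _ ≤ 2 ^ (k / 2 - k / 8) := Nat.pow_le_pow_right (by norm_num) (by omega)
  set q : ℕ := m / m0 - 1 with hqdef
  set m1 : ℕ := m0 + m % m0 with hm1def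
  have hmeq : m = m1 + q * m0 := by
    have h1 := Nat.div_add_mod m m0
    have h2 : m / m0 = q + 1 := by omega
    rw [h2] at h1
    rw [hm1def]
    nlinarith
  have hmod := Nat.mod_lt m hm0pos
  have hqm0 : (q : ℝ) * m0 ≤ m := by
    have : q * m0 ≤ m := by rw [hmeq]; omega
    exact_mod_cast this
  have hq2 : (2 : ℝ) ^ (k / 2 - k / 8) ≤ 2 * q := by
    have : 2 ^ (k / 2 - k / 8) ≤ 2 * q := by omega
    exact_mod_cast this
  have hmhalf' : (2 : ℝ) ^ (k / 2) ≤ m := by exact_mod_cast hmhalf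
  have hm0r : (m0 : ℝ) = 2 ^ (k / 8) := by rw [hm0def]; push_cast; rfl
  -- the bounds on r
  have hRa : ((rr S.A k ^ S.a : ℕ) : ℝ) ≤ 2 ^ j := by
    have h1 := rr_pow_le S 1 k
    rw [one_mul, one_mul] at h1
    exact_mod_cast h1
  have hR4 : ((rr S.A k ^ (4 * S.a) : ℕ) : ℝ) ≤ 2 ^ (4 * j) := by
    exact_mod_cast rr_pow_le S 4 k
  have hR1 : (rr S.A k : ℝ) ≤ 2 ^ j := by exact_mod_cast rr_le S k
  have hN24 : 192 / ε ≤ 2 ^ N := by
    have : 0 < 528 / ε := by positivity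
    have : 0 < 64 / ε ^ 2 := by positivity
    linarith
  have hN66 : 528 / ε ≤ 2 ^ N := by
    have : 0 < 192 / ε := by positivity
    have : 0 < 64 / ε ^ 2 := by positivity
    linarith
  have hN64 : 64 / ε ^ 2 ≤ 2 ^ N := by
    have : 0 < 192 / ε := by positivity
    have : 0 < 528 / ε := by positivity
    linarith
  refine up_core S hk0 hu (hkc k hkc' · · u hu) (m0 := m0) (m1 := m1) (q := q) (m := m)
    ?_ (by omega) (by omega) hmeq hmk hr2 (by omega) ?_ ?_ hg hε ?_ ?_ ?_ ?_ z s hks0' hs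
  · refine (rr_pow_le S 7 k).trans (Nat.pow_le_pow_right (by norm_num) ?_)
    omega
  · have h1 := rr_pow_le S 1 k
    rw [one_mul, one_mul] at h1
    calc 12 * rr S.A k ^ S.a * m0 ≤ 2 ^ 4 * 2 ^ j * m0 := by gcongr; norm_num
      _ ≤ m0 * m0 := by
          refine Nat.mul_le_mul_right _ ?_
          rw [hm0def, ← pow_add]
          exact Nat.pow_le_pow_right (by norm_num) (by omega)
      _ = m0 ^ 2 := by ring
  · have h1 := rr_pow_le S 2 k
    have h2 := rr_le S k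
    calc 2 * (rr S.A k ^ (2 * S.a) * (rr S.A k * 2 ^ k))
        ≤ 2 * (2 ^ (2 * j) * (2 ^ j * 2 ^ k)) := by gcongr
      _ = 2 ^ (1 + 3 * j + k) := by ring
      _ ≤ 2 ^ (k * 2) := Nat.pow_le_pow_right (by norm_num) (by omega)
      _ = (2 ^ k) ^ 2 := by rw [pow_mul]
  · have h1 : 24 * ((rr S.A k ^ S.a : ℕ) : ℝ) * m0 ≤ 24 * 2 ^ j * 2 ^ (k / 8) := by
      rw [hm0r]
      gcongr
    have h2 : (24 : ℝ) ≤ ε / 8 * 2 ^ N := by
      rw [div_le_iff₀ hε] at hN24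
      linarith
    calc 24 * ((rr S.A k ^ S.a : ℕ) : ℝ) * m0 ≤ 24 * 2 ^ j * 2 ^ (k / 8) := h1
      _ ≤ (ε / 8 * 2 ^ N) * 2 ^ j * 2 ^ (k / 8) := by gcongr
      _ = ε / 8 * 2 ^ (N + j + k / 8) := by rw [pow_add, pow_add]; ring
      _ ≤ ε / 8 * 2 ^ (k / 2) := by
          gcongr
          · norm_num
          · omega
      _ ≤ ε / 8 * m := by gcongr
  · have h1 : (66 : ℝ) * ((rr S.A k ^ (4 * S.a) : ℕ) : ℝ) ≤ ε / 8 * m0 := by
      have h2 : (66 : ℝ) ≤ ε / 8 * 2 ^ N := by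
        rw [div_le_iff₀ hε] at hN66
        linarith
      calc (66 : ℝ) * ((rr S.A k ^ (4 * S.a) : ℕ) : ℝ) ≤ (ε / 8 * 2 ^ N) * 2 ^ (4 * j) := by
            gcongr
        _ = ε / 8 * 2 ^ (N + 4 * j) := by rw [pow_add]; ring
        _ ≤ ε / 8 * 2 ^ (k / 8) := by
            gcongr
            · norm_num
            · omega
        _ = ε / 8 * m0 := by rw [hm0r]
    calc (q : ℝ) * (66 * ((rr S.A k ^ (4 * S.a) : ℕ) : ℝ)) ≤ q * (ε / 8 * m0) := by gcongr
      _ = ε / 8 * (q * m0) := by ring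
      _ ≤ ε / 8 * m := by gcongr
  · -- the mean
    have hkj : kp S.a S.A k ≤ 2 ^ j := by
      have h1 := rr_pow_le S 1 k
      rw [one_mul, one_mul] at h1
      exact h1
    obtain ⟨σ, hσ⟩ : ∃ σ : ℕ, σ = kp S.a S.A k + 4 * d * kp S.a S.A k ^ 2 := ⟨_, rfl⟩
    have hσ1 : kp S.a S.A k ≤ σ := by rw [hσ]; exact Nat.le_add_right _ _
    have hσ2 : 4 * σ ≤ (2 ^ (k / 8)) ^ 2 := by
      have h1 : kp S.a S.A k ^ 2 ≤ 2 ^ (2 * j) := by
        rw [mul_comm, pow_mul]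
        exact Nat.pow_le_pow_left hkj 2
      have h2 : kp S.a S.A k ≤ kp S.a S.A k ^ 2 := Nat.le_self_pow (by norm_num) _
      have h3 : 4 * (1 + 4 * d) ≤ 2 ^ j := by
        have h4 : 4 * (1 + 4 * d) ≤ j := by omega
        exact h4.trans Nat.lt_two_pow_self.le
      calc 4 * σ ≤ 4 * (1 + 4 * d) * kp S.a S.A k ^ 2 := by rw [hσ]; nlinarith
        _ ≤ 2 ^ j * 2 ^ (2 * j) := Nat.mul_le_mul h3 h1
        _ = 2 ^ (3 * j) := by rw [← pow_add]; congr 1; ring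
        _ ≤ 2 ^ (k / 8 * 2) := Nat.pow_le_pow_right (by norm_num) (by omega)
        _ = (2 ^ (k / 8)) ^ 2 := by rw [pow_mul]
    have h1 := mean_compare S hk8 (Nat.div_le_self k 8) (u := u) hu (s := σ) hσ1 (by omega)
      (fun E E' a1 a2 a3 m' b1 b2 =>
        hks (k / 8) hks' k (Nat.div_le_self k 8) (by omega) E E' a1 a2 a3 u hu m' b1 b2 σ hσ.ge hσ2)
      (m := m0) ((rr_pow_le S 7 k).trans (Nat.pow_le_pow_right (by norm_num) (by omega)))
      (Nat.le_mul_of_pos_left _ (by unfold rr; positivity)) (m0 ^ 2)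
    have h2 := muK_eq S (k / 8) hk8 u
    rw [← hm0def] at h2
    have h3 : mn (QK P S.E S.a S.A (k / 8) u m0) (m0 ^ 2) ≠ ⊤ :=
      ne_top_of_le_ne_top (ENNReal.natCast_ne_top _) (mn_le _ (S.tsumQ _ hk8 u _) _)
    have h4 : ((m0 ^ 2 : ℕ) : ℝ≥0∞) * (5 * err (rr S.A (k / 8))) ≠ ⊤ :=
      ENNReal.mul_ne_top (ENNReal.natCast_ne_top _)
        (ENNReal.mul_ne_top (by norm_num) ENNReal.ofReal_ne_top)
    have h5 := (ENNReal.toReal_le_toReal (ne_top_of_le_ne_top (ENNReal.add_ne_top.mpr ⟨h3, h4⟩) h1)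
      (ENNReal.add_ne_top.mpr ⟨h3, h4⟩)).mpr h1
    rw [ENNReal.toReal_add h3 h4, h2, ENNReal.toReal_mul, ENNReal.toReal_mul,
      ENNReal.toReal_natCast] at h5
    refine h5.trans ?_
    have h6 : (err (rr S.A (k / 8))).toReal = Real.exp (-Real.sqrt (rr S.A (k / 8))) :=
      ENNReal.toReal_ofReal (Real.exp_pos _).le
    have h7 : muK S (k / 8) u < (γ u + ε / 8) * m0 := by
      rw [div_lt_iff₀ (by positivity)] at f1
      rw [hm0r]
      exact f1
    rw [h6]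
    rw [pow_one, ← hm0r] at f2
    have h8 : (5 : ℝ≥0∞).toReal = 5 := by norm_num
    rw [h8]
    push_cast
    have h9 : (m0 : ℝ) ^ 2 * (5 * Real.exp (-Real.sqrt (rr S.A (k / 8)))) =
        5 * m0 * (m0 * Real.exp (-Real.sqrt (rr S.A (k / 8)))) := by ring
    rw [h9]
    have h10 : 5 * (m0 : ℝ) * (m0 * Real.exp (-Real.sqrt (rr S.A (k / 8)))) ≤
        5 * m0 * (ε / 40) := by gcongr
    nlinarith
  · -- the exponent
    have h1 : Real.sqrt (rr S.A k) ≤ 2 ^ j := by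
      refine le_trans ?_ hR1
      rw [Real.sqrt_le_left (by positivity)]
      have : (1 : ℝ) ≤ rr S.A k := by exact_mod_cast hr1
      nlinarith
    refine h1.trans ?_
    have h2 : (1 : ℝ) ≤ ε ^ 2 / 64 * 2 ^ N := by
      rw [div_le_iff₀ (by positivity)] at hN64
      linarith
    rw [le_div_iff₀ (by positivity), hm0r]
    calc (2 : ℝ) ^ j * (32 * (2 ^ (k / 8)) ^ 2) = 32 * 2 ^ (j + 2 * (k / 8)) := by
          rw [← pow_mul, pow_add]; ring
      _ = 1 * (32 * 2 ^ (j + 2 * (k / 8))) := by ring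
      _ ≤ (ε ^ 2 / 64 * 2 ^ N) * (32 * 2 ^ (j + 2 * (k / 8))) := by gcongr
      _ = ε ^ 2 / 2 * 2 ^ (N + (j + 2 * (k / 8))) := by rw [pow_add 2 N]; ring
      _ ≤ ε ^ 2 / 2 * 2 ^ (k / 2 - k / 8) := by
          gcongr
          · norm_num
          · omega
      _ ≤ ε ^ 2 / 2 * (2 * q) := by gcongr
      _ = ε ^ 2 * q := by ring

/-- union over the starting points, the sizes and a finite set of directions -/
theorem stepP_whp [IsProbabilityMeasure P] (S : Sys d P) (γ : (Fin d → ℝ) → ℝ) (hU : UpTail S γ)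
    (𝒰 : Finset (Fin d → ℝ)) (h𝒰 : ∀ u ∈ 𝒰, ∑ j, u j ^ 2 = 1) (ε : ℝ) (hε : 0 < ε) :
    ∃ k1 : ℕ, ∀ k ≥ k1, P {ω | ¬ StepP S.a S.A k (S.E k ω) 𝒰 (fun u => γ u + ε)} ≤
      ENNReal.ofReal ((1 / 2 : ℝ) ^ k) := by
  classical
  have hApos : 0 < S.A := by have := S.a_big; have := S.A_big; omega
  -- thresholds
  have e1 : ∀ u ∈ 𝒰, ∀ᶠ k : ℕ in Filter.atTop, ∀ m : ℕ, 2 ^ k ≤ m ^ 2 →
      m ≤ 2 ^ k → ∀ (z : Pos d) (s : ℕ), kp S.a S.A k ≤ s → 2 * s ≤ (2 ^ k) ^ 2 →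
      P {ω | (γ u + ε) * m < ((S.E k ω).bh (PK d S.a S.A k) u m z s : ℝ)} ≤ 8 * err (rr S.A k) :=
    fun u hu => Filter.eventually_atTop.mpr (hU u (h𝒰 u hu) ε hε)
  have e2 := (Filter.eventually_all_finset 𝒰).mpr e1
  have e3 := small_err S.A hApos (4 + 2 * d) (1 / (32 * 3 ^ d * (𝒰.card + 1))) (by positivity)
  obtain ⟨k1, hk1⟩ := Filter.eventually_atTop.mp (e2.and e3)
  refine ⟨k1, fun k hk => ?_⟩
  obtain ⟨f1, f2⟩ := hk1 k hk
  set M : ℕ := (2 ^ k) ^ 2 with hM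
  set Zs : Finset (Pos d) := Fintype.piFinset fun _ => Finset.Icc (-(M : ℤ)) M with hZs
  have hZmem : ∀ z : Pos d, supn z ≤ M → z ∈ Zs := by
    intro z hz
    rw [hZs, Fintype.mem_piFinset]
    intro j
    have h1 : (z j).natAbs ≤ M := (Finset.le_sup (f := fun j => (z j).natAbs) (Finset.mem_univ j)).trans hz
    rw [Finset.mem_Icc]
    omega
  have hZcard : Zs.card = (2 * M + 1) ^ d := by
    rw [hZs, Fintype.card_piFinset, Finset.prod_const, Int.card_Icc, Finset.card_univ, Fintype.card_fin]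
    congr 1
    omega
  set T : Finset ((Fin d → ℝ) × ℕ × Pos d × ℕ) :=
    𝒰 ×ˢ (Finset.range (2 ^ k + 1) ×ˢ (Zs ×ˢ Finset.range (M + 1))) with hT
  set B : ((Fin d → ℝ) × ℕ × Pos d × ℕ) → Set Ω := fun x =>
    {ω | 2 ^ k ≤ x.2.1 ^ 2 ∧ x.2.1 ≤ 2 ^ k ∧ kp S.a S.A k ≤ x.2.2.2 ∧ 2 * x.2.2.2 ≤ (2 ^ k) ^ 2 ∧
      (γ x.1 + ε) * x.2.1 < ((S.E k ω).bh (PK d S.a S.A k) x.1 x.2.1 x.2.2.1 x.2.2.2 : ℝ)} with hB
  have hsub : {ω | ¬ StepP S.a S.A k (S.E k ω) 𝒰 (fun u => γ u + ε)} ⊆ ⋃ x ∈ T, B x := by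
    intro ω hω
    have h1 : ¬ StepP S.a S.A k (S.E k ω) 𝒰 (fun u => γ u + ε) := hω
    unfold StepP at h1
    push Not at h1
    obtain ⟨u, hu, m, hm1, hm2, z, s, hz, hks, hs, hlt⟩ := h1
    refine Set.mem_iUnion₂.mpr ⟨(u, m, z, s), ?_, hm1, hm2, hks, hs, hlt⟩
    rw [hT, Finset.mem_product, Finset.mem_product, Finset.mem_product]
    refine ⟨hu, Finset.mem_range.mpr (by simpa using Nat.lt_succ_of_le hm2), hZmem z hz,
      Finset.mem_range.mpr ?_⟩
    show s < M + 1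
    omega
  have hone : ∀ x ∈ T, P (B x) ≤ 8 * err (rr S.A k) := by
    intro x hx
    rw [hT, Finset.mem_product] at hx
    by_cases hc : 2 ^ k ≤ x.2.1 ^ 2 ∧ x.2.1 ≤ 2 ^ k ∧ kp S.a S.A k ≤ x.2.2.2 ∧
        2 * x.2.2.2 ≤ (2 ^ k) ^ 2
    · refine (measure_mono ?_).trans
        (f1 x.1 hx.1 x.2.1 hc.1 hc.2.1 x.2.2.1 x.2.2.2 hc.2.2.1 hc.2.2.2)
      exact fun ω hω => hω.2.2.2.2
    · have : B x = ∅ := by
        ext ω
        simp only [Set.mem_empty_iff_false, iff_false]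
        exact fun hω => hc ⟨hω.1, hω.2.1, hω.2.2.1, hω.2.2.2.1⟩
      rw [this, measure_empty]
      exact bot_le
  have hcard : (T.card : ℝ) ≤ 𝒰.card * (4 * 3 ^ d * ((2 : ℝ) ^ k) ^ (3 + 2 * d)) := by
    rw [hT, Finset.card_product, Finset.card_product, Finset.card_product, hZcard,
      Finset.card_range, Finset.card_range, hM]
    push_cast
    have h1 : (1 : ℝ) ≤ 2 ^ k := one_le_pow₀ (by norm_num)
    have h2 : (1 : ℝ) ≤ ((2 : ℝ) ^ k) ^ 2 := one_le_pow₀ h1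
    have h3 : (2 : ℝ) ^ k + 1 ≤ 2 * 2 ^ k := by linarith
    have h4 : ((2 : ℝ) ^ k) ^ 2 + 1 ≤ 2 * ((2 : ℝ) ^ k) ^ 2 := by linarith
    have h5 : (2 * ((2 : ℝ) ^ k) ^ 2 + 1) ^ d ≤ (3 * ((2 : ℝ) ^ k) ^ 2) ^ d := by
      gcongr
      linarith
    calc (𝒰.card : ℝ) * (((2 : ℝ) ^ k + 1) * ((2 * ((2 : ℝ) ^ k) ^ 2 + 1) ^ d *
          (((2 : ℝ) ^ k) ^ 2 + 1)))
        ≤ 𝒰.card * ((2 * 2 ^ k) * ((3 * ((2 : ℝ) ^ k) ^ 2) ^ d * (2 * ((2 : ℝ) ^ k) ^ 2))) := by
          gcongr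
      _ = 𝒰.card * (4 * 3 ^ d * ((2 : ℝ) ^ k) ^ (3 + 2 * d)) := by
          rw [mul_pow, ← pow_mul, ← pow_mul, ← pow_mul]
          ring
  calc P {ω | ¬ StepP S.a S.A k (S.E k ω) 𝒰 (fun u => γ u + ε)}
      ≤ P (⋃ x ∈ T, B x) := measure_mono hsub
    _ ≤ ∑ x ∈ T, P (B x) := measure_biUnion_finset_le _ _
    _ ≤ ∑ x ∈ T, 8 * err (rr S.A k) := Finset.sum_le_sum hone
    _ = (T.card : ℝ≥0∞) * (8 * err (rr S.A k)) := by rw [Finset.sum_const, nsmul_eq_mul]
    _ = ENNReal.ofReal ((T.card : ℝ) * (8 * Real.exp (-Real.sqrt (rr S.A k)))) := by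
        unfold err
        rw [ENNReal.ofReal_mul (by positivity), ENNReal.ofReal_mul (by norm_num),
          ENNReal.ofReal_natCast, ENNReal.ofReal_ofNat]
    _ ≤ ENNReal.ofReal ((1 / 2 : ℝ) ^ k) := by
        refine ENNReal.ofReal_le_ofReal ?_
        have h1 : (0 : ℝ) < 2 ^ k := by positivity
        have h2 : (𝒰.card : ℝ) ≤ 𝒰.card + 1 := by linarith
        calc (T.card : ℝ) * (8 * Real.exp (-Real.sqrt (rr S.A k)))
            ≤ (𝒰.card * (4 * 3 ^ d * ((2 : ℝ) ^ k) ^ (3 + 2 * d))) *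
              (8 * Real.exp (-Real.sqrt (rr S.A k))) := by gcongr
          _ ≤ ((𝒰.card + 1) * (4 * 3 ^ d * ((2 : ℝ) ^ k) ^ (3 + 2 * d))) *
              (8 * Real.exp (-Real.sqrt (rr S.A k))) := by gcongr
          _ = (32 * 3 ^ d * (𝒰.card + 1)) * (1 / 2 ^ k) *
              (((2 : ℝ) ^ k) ^ (4 + 2 * d) * Real.exp (-Real.sqrt (rr S.A k))) := by
              rw [show 4 + 2 * d = (3 + 2 * d) + 1 by ring, pow_succ ((2 : ℝ) ^ k) (3 + 2 * d)]
              field_simp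
              ring
          _ ≤ (32 * 3 ^ d * (𝒰.card + 1)) * (1 / 2 ^ k) * (1 / (32 * 3 ^ d * (𝒰.card + 1))) := by
              gcongr
          _ = (1 / 2 : ℝ) ^ k := by
              rw [one_div_pow]
              field_simp

end ZQ.Rows
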