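import Pool.Agent.ZP.S3b
import Pool.Agent.ZQ.Aux79
import Pool.Agent.ZI.S3a

/-! # Row S3 (with recovery), first part: the two recursive inequalities for the moments -/

set_option autoImplicit false

open scoped ENNReal NNReal BigOperators Classical
open MeasureTheory

noncomputable section

namespace ZQ.S3

open ZP hiding Agree BlockFacts Env GoodK IsGamma LowTail QK StepP Sys UpTail envT inf infMv muK stepI stepR visU
open ZP.S3 hiding Chain1 M1 M1_le M2 M2_le QK_ne_top Scale1 m1 m1_le m1_nonneg m2 m2_nonneg mu_eq rec_real rec_step scale_step tailQ wait_small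

variable [ZQ.Thr]

open ZP hiding Agree BlockFacts Env GoodK IsGamma LowTail QK StepP Sys UpTail envT inf infMv muK stepI stepR visU
open ZQ

export ZI.S3 (ind ind_true ind_false law_eq sum_ind layer compare prod_fac prod_one prod_two)

variable {d : ℕ} {Ω : Type} [MeasurableSpace Ω] {P : Measure Ω}

/-- the statement of row S1 -/
def Chain1 (S : Sys d P) (k1 : ℕ) : Prop := ∀ k ≥ k1, ∀ E : Env d, GoodK S.a S.A S.Cv k E →
    ∀ u : Fin d → ℝ, ∑ j, u j ^ 2 = 1 → ∀ ms : List ℕ, ms ≠ [] →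
    (∀ m ∈ ms, rr S.A k ^ (7 * S.a) ≤ m) → ms.sum ≤ rr S.A k * 2 ^ k → ∀ (z : Pos d) (s : ℕ),
    kp S.a S.A k ≤ s → 2 * s ≤ (2 ^ k) ^ 2 →
    E.bh (PK d S.a S.A k) u ms.sum z s ≤
      ((E.chain (PK d S.a S.A k) u ms z s).map Prod.fst).sum + (ms.length - 1) * (PK d S.a S.A k).Δ

/-- the statement of row S2 -/
def Scale1 (S : Sys d P) (k1 : ℕ) : Prop := ∀ k ≥ k1, ∀ k' ≥ k, k' ≤ 10 * k → ∀ E E' : Env d,
    GoodK S.a S.A S.Cv k E → GoodK S.a S.A S.Cv k' E' → Agree ((2 ^ k) ^ 2) E E' →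
    ∀ u : Fin d → ℝ, ∑ j, u j ^ 2 = 1 → ∀ m : ℕ, rr S.A k ^ (7 * S.a) ≤ m → m ≤ rr S.A k * 2 ^ k →
    ∀ s : ℕ, kp S.a S.A k' + 4 * d * kp S.a S.A k' ^ 2 ≤ s → 4 * s ≤ (2 ^ k) ^ 2 →
    E'.bh (PK d S.a S.A k') u m 0 s ≤ E.bh (PK d S.a S.A k) u m 0 s

/-! ### the scales -/

variable [IsProbabilityMeasure P]

/-- the law of the block variable -/
lemma tailQ (S : Sys d P) {k : ℕ} (hk : S.k0 ≤ k) (u : Fin d → ℝ) (m : ℕ)
    (G : ℕ × Pos d → Prop) :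
    P {ω | G ((S.E k ω).blk (PK d S.a S.A k) u m 0 (kp S.a S.A k))} =
      ∑' y, QK P S.E S.a S.A k u m y * ind (G y) :=
  law_eq (fun ω => (S.E k ω).blk (PK d S.a S.A k) u m 0 (kp S.a S.A k)) (S.tsumQ k hk u m) G

/-- two blocks instead of one -/
lemma rec_step (S : Sys d P) {k1 k : ℕ} (hS : Chain1 S k1) (hk0 : S.k0 ≤ k) (hk1 : k1 ≤ k)
    (hk : 15 ≤ k) (u : Fin d → ℝ) (hu : ∑ j, u j ^ 2 = 1) (φ : ℕ → ℕ) (hφ : Monotone φ) :
    ∑' y, QK P S.E S.a S.A (k + 1) u (2 ^ (k + 1)) y *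
        ((φ (min y.1 ((2 ^ (k + 1)) ^ 2)) : ℕ) : ℝ≥0∞) ≤
      ((φ ((2 ^ (k + 1)) ^ 2) : ℕ) : ℝ≥0∞) * (2 * err (rr S.A k)) +
      ∑' y : (ℕ × Pos d) × (ℕ × Pos d), QK P S.E S.a S.A (k + 1) u (2 ^ k) y.1 *
        QK P S.E S.a S.A (k + 1) u (2 ^ k) y.2 *
        ((φ (min y.1.1 ((2 ^ k) ^ 2) + min y.2.1 ((2 ^ k) ^ 2) + (PK d S.a S.A (k + 1)).Δ) : ℕ) :
          ℝ≥0∞) := by
  refine compare (q := QK P S.E S.a S.A (k + 1) u (2 ^ (k + 1)))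
    (q' := fun y : (ℕ × Pos d) × (ℕ × Pos d) => QK P S.E S.a S.A (k + 1) u (2 ^ k) y.1 *
        QK P S.E S.a S.A (k + 1) u (2 ^ k) y.2) (F := fun y => φ (min y.1 ((2 ^ (k + 1)) ^ 2)))
    (F' := fun y => φ (min y.1.1 ((2 ^ k) ^ 2) + min y.2.1 ((2 ^ k) ^ 2) +
      (PK d S.a S.A (k + 1)).Δ)) (M := φ ((2 ^ (k + 1)) ^ 2)) (fun y => hφ (min_le_right _ _))
      (2 * err (rr S.A k)) fun t _ => ?_
  have hs := rr_small S.A_big (a := S.a) (A := S.A) hk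
  set r := rr S.A (k + 1) with hr
  have hr1 : 1 ≤ r := rr_pos _ _
  have hrp : ∀ b ≤ 7 * S.a, 66 * r ^ b ≤ 2 ^ k := fun b hb =>
    (Nat.mul_le_mul_left _ (Nat.pow_le_pow_right hr1 hb)).trans hs
  have h7 : r ^ (7 * S.a) ≤ 2 ^ k := by have := hrp _ le_rfl; omega
  set ms : List ℕ := [2 ^ k, 2 ^ k] with hms
  have hsum : ms.sum = 2 ^ (k + 1) := by simp [hms, pow_succ]; ring
  have hm : ∀ m ∈ ms, r ^ (7 * S.a) ≤ m := by
    intro m hm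
    simp only [hms, List.mem_cons, List.not_mem_nil, or_false, or_self] at hm
    rw [hm]
    exact h7
  have hle : ms.sum ≤ r * 2 ^ (k + 1) := by
    rw [hsum]
    exact Nat.le_mul_of_pos_left _ hr1
  set T : ℕ := (2 ^ k) ^ 2 with hT
  set G : List (ℕ × Pos d) → Prop := fun l =>
    t < φ ((l.map (fun y => min y.1 T)).sum + (PK d S.a S.A (k + 1)).Δ) with hG
  have hk2' : 0 < 2 ^ k := by positivity
  have hkp2 : 2 * kp S.a S.A (k + 1) ≤ (2 ^ (k + 1)) ^ 2 := by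
    have h8 : 66 * r ^ S.a ≤ 2 ^ k := hrp _ (by omega)
    have h9 : 66 * kp S.a S.A (k + 1) ≤ 2 ^ k := h8
    have h10 : (2 ^ (k + 1)) ^ 2 = 4 * (2 ^ k * 2 ^ k) := by rw [pow_succ (n := k)]; ring
    have h11 : 2 ^ k ≤ 2 ^ k * 2 ^ k := Nat.le_mul_of_pos_left _ hk2'
    omega
  have h1 := S.chain (k + 1) (by omega) u hu ms hm hle 0 (kp S.a S.A (k + 1)) le_rfl hkp2 G
  have h2 := tailQ S (k := k + 1) (by omega) u (2 ^ (k + 1))
    (fun y => t < φ (min y.1 ((2 ^ (k + 1)) ^ 2)))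
  rw [← h2]
  -- the deterministic inclusion
  have h3 : {ω | t < φ (min ((S.E (k + 1) ω).blk (PK d S.a S.A (k + 1)) u (2 ^ (k + 1)) 0 (kp S.a S.A (k + 1))).1
      ((2 ^ (k + 1)) ^ 2))} ⊆ {ω | ¬ GoodK S.a S.A S.Cv (k + 1) (S.E (k + 1) ω)} ∪
      {ω | G ((S.E (k + 1) ω).chain (PK d S.a S.A (k + 1)) u ms 0 (kp S.a S.A (k + 1)))} := by
    intro ω hω
    by_cases hg : GoodK S.a S.A S.Cv (k + 1) (S.E (k + 1) ω)
    swap
    · exact Or.inl hg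
    right
    have h4 := hS (k + 1) (by omega) (S.E (k + 1) ω) hg u hu ms (by simp [hms]) hm hle 0
      (kp S.a S.A (k + 1)) le_rfl hkp2
    rw [hsum] at h4
    set E := S.E (k + 1) ω with hE
    set p := PK d S.a S.A (k + 1) with hp
    have hκ : p.κ = r ^ S.a := rfl
    have hmg : p.mg = r ^ (3 * S.a) := rfl
    have hΔ : p.Δ = (64 * r ^ (3 * S.a) + 2) * r ^ S.a := rfl
    have hT0 : T = 2 ^ k * 2 ^ k := by rw [hT]; ring
    have hT1 : (2 ^ (k + 1)) ^ 2 = 4 * T := by rw [hT]; ring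
    have hk2 : 0 < 2 ^ k := by positivity
    have hpa : 66 * r ^ S.a ≤ 2 ^ k := hrp _ (by omega)
    have hp2 : 66 * r ^ (2 * S.a) ≤ 2 ^ k := hrp _ (by omega)
    have hp3 : 66 * r ^ (3 * S.a) ≤ 2 ^ k := hrp _ (by omega)
    have hp4 : 66 * r ^ (4 * S.a) ≤ 2 ^ k := hrp _ (by omega)
    have hΔ' : p.Δ + kp S.a S.A (k + 1) ≤ T := by
      have h7a : 66 * kp S.a S.A (k + 1) ≤ 2 ^ k := hpa
      have h7b : p.Δ ≤ 2 ^ k := by
        rw [hΔ]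
        have h5 : (64 * r ^ (3 * S.a) + 2) * r ^ S.a ≤ 66 * r ^ (4 * S.a) := by
          have h6 : 1 ≤ r ^ (3 * S.a) := Nat.one_le_pow _ _ hr1
          calc (64 * r ^ (3 * S.a) + 2) * r ^ S.a ≤ (66 * r ^ (3 * S.a)) * r ^ S.a :=
                Nat.mul_le_mul_right _ (by omega)
            _ = 66 * r ^ (4 * S.a) := by ring
        exact h5.trans hp4
      have h7c : 2 * 2 ^ k ≤ 2 ^ k * 2 ^ k := by
        refine Nat.mul_le_mul_right _ ?_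
        calc 2 = 2 ^ 1 := rfl
          _ ≤ 2 ^ k := Nat.pow_le_pow_right (by norm_num) (by omega)
      rw [hT0]
      omega
    have hb2 : r ^ (2 * S.a) * 2 ^ k ≤ T := by
      rw [hT0]
      exact Nat.mul_le_mul_right _ (by omega)
    have hh : ∀ (z : Pos d) (s : ℕ), kp S.a S.A (k + 1) ≤ s → s ≤ 2 * T →
        E.bh p u (2 ^ k) z s ≤ T := by
      intro z s hs0 hs
      have hf := S.facts (k + 1) (by omega) E hg u hu (2 ^ k) h7
        (by rw [pow_succ]; nlinarith [hr1, hk2]) z s hs0 (by rw [hT1]; show s + r ^ (2 * S.a) * 2 ^ k ≤ 4 * T; omega)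
      have h5 := hf.h_ub
      have h6 : (E.bh p u (2 ^ k) z s : ℝ) ≤ ((4 * p.κ * (2 ^ k + 2 * p.mg) : ℕ) : ℝ) := by
        push_cast
        push_cast at h5
        exact h5
      have h7 : E.bh p u (2 ^ k) z s ≤ 4 * p.κ * (2 ^ k + 2 * p.mg) := by exact_mod_cast h6
      refine h7.trans ?_
      rw [hκ, hmg, hT0]
      calc 4 * r ^ S.a * (2 ^ k + 2 * r ^ (3 * S.a)) ≤ 4 * r ^ S.a * (3 * 2 ^ k) :=
            Nat.mul_le_mul_left _ (by omega)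
        _ = (12 * r ^ S.a) * 2 ^ k := by ring
        _ ≤ 2 ^ k * 2 ^ k := Nat.mul_le_mul_right _ (by omega)
    set κ0 := kp S.a S.A (k + 1) with hκ0
    have e1 : E.chain p u ms 0 κ0 = [E.blk p u (2 ^ k) 0 κ0,
        E.blk p u (2 ^ k) (0 + (E.blk p u (2 ^ k) 0 κ0).2 + v0 p u)
          (κ0 + (E.blk p u (2 ^ k) 0 κ0).1 + p.Δ)] := rfl
    have g1 := hh 0 κ0 le_rfl (by omega)
    have g2 := hh (0 + (E.blk p u (2 ^ k) 0 κ0).2 + v0 p u)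
      (κ0 + (E.blk p u (2 ^ k) 0 κ0).1 + p.Δ) (by omega) (by
        have : (E.blk p u (2 ^ k) 0 κ0).1 = E.bh p u (2 ^ k) 0 κ0 := rfl
        rw [this]
        omega)
    rw [e1] at h4
    show G (E.chain p u ms 0 κ0)
    rw [hG, e1]
    show t < φ _
    refine lt_of_lt_of_le hω (hφ ?_)
    refine (min_le_left _ _).trans ?_
    refine le_trans (show (E.blk p u (2 ^ (k + 1)) 0 (kp S.a S.A (k + 1))).1 ≤ _ from h4) ?_
    simp only [List.map_cons, List.map_nil, List.sum_cons, List.sum_nil, hms, List.length_cons,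
      List.length_nil]
    have g1' : min (E.blk p u (2 ^ k) 0 κ0).1 T = (E.blk p u (2 ^ k) 0 κ0).1 := min_eq_left g1
    have g2' : min (E.blk p u (2 ^ k) (0 + (E.blk p u (2 ^ k) 0 κ0).2 + v0 p u)
          (κ0 + (E.blk p u (2 ^ k) 0 κ0).1 + p.Δ)).1 T = (E.blk p u (2 ^ k)
          (0 + (E.blk p u (2 ^ k) 0 κ0).2 + v0 p u) (κ0 + (E.blk p u (2 ^ k) 0 κ0).1 + p.Δ)).1 :=
      min_eq_left g2
    rw [g1', g2']
    omega
  have herr : err r ≤ err (rr S.A k) := err_anti (rr_mono (Nat.le_succ k))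
  have h5 : prodQ (QK P S.E S.a S.A (k + 1) u) ms G =
      ∑' y : (ℕ × Pos d) × (ℕ × Pos d), QK P S.E S.a S.A (k + 1) u (2 ^ k) y.1 *
        QK P S.E S.a S.A (k + 1) u (2 ^ k) y.2 *
        ind (t < φ (min y.1.1 T + min y.2.1 T + (PK d S.a S.A (k + 1)).Δ)) := by
    rw [ENNReal.tsum_prod']
    show ∑' y, QK P S.E S.a S.A (k + 1) u (2 ^ k) y *
      ∑' z, QK P S.E S.a S.A (k + 1) u (2 ^ k) z * ind (G [y, z]) = _
    refine tsum_congr fun y => ?_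
    rw [← ENNReal.tsum_mul_left]
    refine tsum_congr fun z => ?_
    rw [← mul_assoc]
    congr 2
  calc P {ω | t < φ (min ((S.E (k + 1) ω).blk (PK d S.a S.A (k + 1)) u (2 ^ (k + 1)) 0 (kp S.a S.A (k + 1))).1
      ((2 ^ (k + 1)) ^ 2))} ≤ P _ := measure_mono h3
    _ ≤ err r + (prodQ (QK P S.E S.a S.A (k + 1) u) ms G + err r) :=
        (measure_union_le _ _).trans (add_le_add (S.good (k + 1) (by omega)) h1)
    _ ≤ err (rr S.A k) + (prodQ (QK P S.E S.a S.A (k + 1) u) ms G + err (rr S.A k)) := by gcongr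
    _ = _ := by rw [h5]; ring

omit [IsProbabilityMeasure P] in
/-- the waiting time needed for the comparison of the scales `k` and `k + 1` is small -/
lemma wait_small (S : Sys d P) {k : ℕ} (hk : 15 ≤ k) (hkd : d ≤ 2 ^ (k / 4)) :
    4 * (kp S.a S.A (k + 1) + 4 * d * kp S.a S.A (k + 1) ^ 2) ≤ (2 ^ k) ^ 2 := by
  have hs := rr_small S.A_big (a := S.a) (A := S.A) hk
  set r := rr S.A (k + 1) with hr
  have hr1 : 1 ≤ r := rr_pos _ _
  have hrp : ∀ b ≤ 7 * S.a, 66 * r ^ b ≤ 2 ^ k := fun b hb =>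
    (Nat.mul_le_mul_left _ (Nat.pow_le_pow_right hr1 hb)).trans hs
  have e1 : kp S.a S.A (k + 1) = r ^ S.a := rfl
  have e2 : kp S.a S.A (k + 1) ^ 2 = r ^ (2 * S.a) := by rw [e1, ← pow_mul, mul_comm]
  have h1 := hrp S.a (by omega)
  have h2 := hrp (2 * S.a) (by omega)
  rw [e2, e1]
  have h3 : d ≤ 2 ^ k := hkd.trans (Nat.pow_le_pow_right (by norm_num) (Nat.div_le_self _ _))
  have h4 : 66 * (d * r ^ (2 * S.a)) ≤ 2 ^ k * 2 ^ k := by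
    calc 66 * (d * r ^ (2 * S.a)) = d * (66 * r ^ (2 * S.a)) := by ring
      _ ≤ 2 ^ k * 2 ^ k := Nat.mul_le_mul h3 h2
  have h5 : 2 ^ k ≤ 2 ^ k * 2 ^ k := Nat.le_mul_of_pos_left _ (by positivity)
  have h6 : (2 ^ k) ^ 2 = 2 ^ k * 2 ^ k := sq _
  have h7 : 4 * (r ^ S.a + 4 * d * r ^ (2 * S.a)) = 4 * r ^ S.a + 16 * (d * r ^ (2 * S.a)) := by ring
  rw [h6, h7]
  omega

/-- comparison of the scales -/
lemma scale_step (S : Sys d P) {k1 k : ℕ} (hS : Scale1 S k1) (hk0 : S.k0 ≤ k) (hk1 : k1 ≤ k)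
    (hk : 15 ≤ k) (hkd : d ≤ 2 ^ (k / 4)) (u : Fin d → ℝ) (hu : ∑ j, u j ^ 2 = 1) (φ : ℕ → ℕ)
    (hφ : Monotone φ) :
    ∑' y, QK P S.E S.a S.A (k + 1) u (2 ^ k) y * ((φ (min y.1 ((2 ^ k) ^ 2)) : ℕ) : ℝ≥0∞) ≤
      ((φ ((2 ^ k) ^ 2) : ℕ) : ℝ≥0∞) * (5 * err (rr S.A k)) +
      ∑' y, QK P S.E S.a S.A k u (2 ^ k) y * ((φ (min y.1 ((2 ^ k) ^ 2)) : ℕ) : ℝ≥0∞) := by
  refine compare (q := QK P S.E S.a S.A (k + 1) u (2 ^ k))
    (q' := QK P S.E S.a S.A k u (2 ^ k)) (F := fun y => φ (min y.1 ((2 ^ k) ^ 2)))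
    (F' := fun y => φ (min y.1 ((2 ^ k) ^ 2))) (M := φ ((2 ^ k) ^ 2)) (fun y => hφ (min_le_right _ _))
      (5 * err (rr S.A k)) fun t _ => ?_
  set G : List (ℕ × Pos d) → Prop := fun l => t < φ (min (l.map Prod.fst).sum ((2 ^ k) ^ 2)) with hG
  have hG1 : ∀ y : ℕ × Pos d, G [y] = (t < φ (min y.1 ((2 ^ k) ^ 2))) := fun y => by
    simp only [hG, List.map_cons, List.map_nil, List.sum_cons, List.sum_nil, add_zero]
  have hw := wait_small S hk hkd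
  set s := kp S.a S.A (k + 1) + 4 * d * kp S.a S.A (k + 1) ^ 2 with hs'
  have hs := rr_small S.A_big (a := S.a) (A := S.A) hk
  have h7' : rr S.A (k + 1) ^ (7 * S.a) ≤ 2 ^ k := by omega
  have h7 : rr S.A k ^ (7 * S.a) ≤ 2 ^ k := by
    have : rr S.A k ^ (7 * S.a) ≤ rr S.A (k + 1) ^ (7 * S.a) :=
      Nat.pow_le_pow_left (rr_mono (Nat.le_succ k)) _
    omega
  have hkk : kp S.a S.A k ≤ kp S.a S.A (k + 1) := Nat.pow_le_pow_left (rr_mono (Nat.le_succ k)) _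
  have hkN : 2 * s ≤ (2 ^ k) ^ 2 := by omega
  have hNN : (2 ^ k) ^ 2 ≤ (2 ^ (k + 1)) ^ 2 :=
    Nat.pow_le_pow_left (Nat.pow_le_pow_right (by norm_num) (Nat.le_succ k)) 2
  have e1 : ∑' y, QK P S.E S.a S.A (k + 1) u (2 ^ k) y * ind (t < φ (min y.1 ((2 ^ k) ^ 2))) =
      prodQ (QK P S.E S.a S.A (k + 1) u) [2 ^ k] G := by
    rw [prodQ_one]
    exact tsum_congr fun y => by rw [hG1]
  have e2 : ∑' y, QK P S.E S.a S.A k u (2 ^ k) y * ind (t < φ (min y.1 ((2 ^ k) ^ 2))) =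
      prodQ (QK P S.E S.a S.A k u) [2 ^ k] G := by
    rw [prodQ_one]
    exact tsum_congr fun y => by rw [hG1]
  rw [e1, e2]
  have a1 := ZQ.Rows.S5.chain_rev S (k + 1) (by omega) u hu [2 ^ k] (by
      intro m hm
      rw [List.mem_singleton] at hm
      rw [hm]
      exact h7') (by
      rw [List.sum_singleton]
      calc 2 ^ k ≤ 2 ^ (k + 1) := Nat.pow_le_pow_right (by norm_num) (Nat.le_succ k)
        _ ≤ _ := Nat.le_mul_of_pos_left _ (rr_pos _ _)) 0 s (by omega) (by omega) G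
  have a2 := S.chain k hk0 u hu [2 ^ k] (by
      intro m hm
      rw [List.mem_singleton] at hm
      rw [hm]
      exact h7) (by
      rw [List.sum_singleton]
      exact Nat.le_mul_of_pos_left _ (rr_pos _ _)) 0 s (by omega) hkN G
  have h3 : {ω | G ((S.E (k + 1) ω).chain (PK d S.a S.A (k + 1)) u [2 ^ k] 0 s)} ⊆
      ({ω | ¬ GoodK S.a S.A S.Cv (k + 1) (S.E (k + 1) ω)} ∪
      {ω | ¬ GoodK S.a S.A S.Cv k (S.E k ω)} ∪
      {ω | ¬ Agree ((2 ^ k) ^ 2) (S.E k ω) (S.E (k + 1) ω)}) ∪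
      {ω | G ((S.E k ω).chain (PK d S.a S.A k) u [2 ^ k] 0 s)} := by
    intro ω hω
    by_cases hg : GoodK S.a S.A S.Cv (k + 1) (S.E (k + 1) ω)
    swap
    · exact Or.inl (Or.inl (Or.inl hg))
    by_cases hg' : GoodK S.a S.A S.Cv k (S.E k ω)
    swap
    · exact Or.inl (Or.inl (Or.inr hg'))
    by_cases ha : Agree ((2 ^ k) ^ 2) (S.E k ω) (S.E (k + 1) ω)
    swap
    · exact Or.inl (Or.inr ha)
    right
    have h4 := hS k hk1 (k + 1) (by omega) (by omega) _ _ hg' hg ha u hu (2 ^ k) h7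
      (Nat.le_mul_of_pos_left _ (rr_pos _ _)) s le_rfl hw
    have c1 : (S.E (k + 1) ω).chain (PK d S.a S.A (k + 1)) u [2 ^ k] 0 s =
      [(S.E (k + 1) ω).blk (PK d S.a S.A (k + 1)) u (2 ^ k) 0 s] := rfl
    have c2 : (S.E k ω).chain (PK d S.a S.A k) u [2 ^ k] 0 s =
      [(S.E k ω).blk (PK d S.a S.A k) u (2 ^ k) 0 s] := rfl
    have hω' : G ((S.E (k + 1) ω).chain (PK d S.a S.A (k + 1)) u [2 ^ k] 0 s) := hω
    show G ((S.E k ω).chain (PK d S.a S.A k) u [2 ^ k] 0 s)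
    rw [c1, hG1] at hω'
    rw [c2, hG1]
    refine lt_of_lt_of_le hω' (hφ ?_)
    exact min_le_min h4 le_rfl
  have herr : err (rr S.A (k + 1)) ≤ err (rr S.A k) := err_anti (rr_mono (Nat.le_succ k))
  calc _ ≤ P {ω | G ((S.E (k + 1) ω).chain (PK d S.a S.A (k + 1)) u [2 ^ k] 0 s)} +
        err (rr S.A (k + 1)) := a1
    _ ≤ ((err (rr S.A (k + 1)) + err (rr S.A k) + err (rr S.A k)) +
        (prodQ (QK P S.E S.a S.A k u) [2 ^ k] G + err (rr S.A k))) + err (rr S.A (k + 1)) := by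
        refine add_le_add ?_ le_rfl
        refine (measure_mono h3).trans ?_
        refine (measure_union_le _ _).trans (add_le_add ?_ a2)
        refine (measure_union_le _ _).trans (add_le_add ?_ (S.agree k hk0 (k + 1) (by omega)))
        exact (measure_union_le _ _).trans (add_le_add (S.good (k + 1) (by omega)) (S.good k hk0))
    _ ≤ ((err (rr S.A k) + err (rr S.A k) + err (rr S.A k)) +
        (prodQ (QK P S.E S.a S.A k u) [2 ^ k] G + err (rr S.A k))) + err (rr S.A k) := by gcongr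
    _ = _ := by ring

end ZQ.S3

namespace ZQ.S3

open ZP hiding Agree BlockFacts Env GoodK IsGamma LowTail QK StepP Sys UpTail envT inf infMv muK stepI stepR visU
open ZP.S3 hiding Chain1 M1 M1_le M2 M2_le QK_ne_top Scale1 m1 m1_le m1_nonneg m2 m2_nonneg mu_eq rec_real rec_step scale_step tailQ wait_small

variable [ZQ.Thr]

open ZP hiding Agree BlockFacts Env GoodK IsGamma LowTail QK StepP Sys UpTail envT inf infMv muK stepI stepR visU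
open ZQ

variable {d : ℕ} {Ω : Type} [MeasurableSpace Ω] {P : Measure Ω}

/-- the truncated first moment -/
def M1 (S : Sys d P) (k : ℕ) (u : Fin d → ℝ) : ℝ≥0∞ :=
  ∑' y, QK P S.E S.a S.A k u (2 ^ k) y * ((min y.1 ((2 ^ k) ^ 2) : ℕ) : ℝ≥0∞)

/-- the truncated second moment -/
def M2 (S : Sys d P) (k : ℕ) (u : Fin d → ℝ) : ℝ≥0∞ :=
  ∑' y, QK P S.E S.a S.A k u (2 ^ k) y * (((min y.1 ((2 ^ k) ^ 2)) ^ 2 : ℕ) : ℝ≥0∞)

lemma M1_le (S : Sys d P) {k : ℕ} (hk : S.k0 ≤ k) (u : Fin d → ℝ) : M1 S k u ≤ 4 ^ k := by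
  have h := S.tsumQ k hk u (2 ^ k)
  calc M1 S k u ≤ ∑' y, QK P S.E S.a S.A k u (2 ^ k) y * 4 ^ k := by
        refine ENNReal.tsum_le_tsum fun y => mul_le_mul_right ?_ _
        have : min y.1 ((2 ^ k) ^ 2) ≤ 4 ^ k := by
          refine (min_le_right _ _).trans (le_of_eq ?_)
          rw [← pow_mul, mul_comm, pow_mul]
          norm_num
        exact_mod_cast this
    _ = 4 ^ k := by rw [ENNReal.tsum_mul_right, h, one_mul]

lemma M2_le (S : Sys d P) {k : ℕ} (hk : S.k0 ≤ k) (u : Fin d → ℝ) : M2 S k u ≤ 16 ^ k := by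
  have h := S.tsumQ k hk u (2 ^ k)
  calc M2 S k u ≤ ∑' y, QK P S.E S.a S.A k u (2 ^ k) y * 16 ^ k := by
        refine ENNReal.tsum_le_tsum fun y => mul_le_mul_right ?_ _
        have : (min y.1 ((2 ^ k) ^ 2)) ^ 2 ≤ 16 ^ k := by
          refine (Nat.pow_le_pow_left (min_le_right _ _) 2).trans (le_of_eq ?_)
          rw [← pow_mul, ← pow_mul, show (16 : ℕ) = 2 ^ 4 by norm_num, ← pow_mul]
          congr 1
          ring
        exact_mod_cast this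
    _ = 16 ^ k := by rw [ENNReal.tsum_mul_right, h, one_mul]

/-- real version of the first moment -/
def m1 (S : Sys d P) (k : ℕ) (u : Fin d → ℝ) : ℝ := (M1 S k u).toReal

/-- real version of the second moment -/
def m2 (S : Sys d P) (k : ℕ) (u : Fin d → ℝ) : ℝ := (M2 S k u).toReal

lemma QK_ne_top (S : Sys d P) {k : ℕ} (hk : S.k0 ≤ k) (u : Fin d → ℝ) (m : ℕ) (y : ℕ × Pos d) :
    QK P S.E S.a S.A k u m y ≠ ⊤ := by
  refine ne_top_of_le_ne_top ENNReal.one_ne_top ?_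
  rw [← S.tsumQ k hk u m]
  exact ENNReal.le_tsum y

lemma mu_eq (S : Sys d P) {k : ℕ} (hk : S.k0 ≤ k) (u : Fin d → ℝ) : muK S k u = m1 S k u := by
  unfold muK m1 M1
  rw [ENNReal.tsum_toReal_eq]
  · refine tsum_congr fun y => ?_
    rw [ENNReal.toReal_mul, ENNReal.toReal_natCast]
    congr 1
    push_cast
    rfl
  · intro y
    exact ENNReal.mul_ne_top (QK_ne_top S hk u _ y) (ENNReal.natCast_ne_top _)

lemma m1_nonneg (S : Sys d P) (k : ℕ) (u : Fin d → ℝ) : 0 ≤ m1 S k u := ENNReal.toReal_nonneg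

lemma m2_nonneg (S : Sys d P) (k : ℕ) (u : Fin d → ℝ) : 0 ≤ m2 S k u := ENNReal.toReal_nonneg

lemma m1_le (S : Sys d P) {k : ℕ} (hk : S.k0 ≤ k) (u : Fin d → ℝ) : m1 S k u ≤ 4 ^ k := by
  have h := ENNReal.toReal_mono (by finiteness) (M1_le S hk u)
  simpa [m1] using h

variable [IsProbabilityMeasure P]

/-- the two recursive inequalities for the moments -/
lemma rec_real (S : Sys d P) {k1 k : ℕ} (hS1 : Chain1 S k1) (hS2 : Scale1 S k1) (hk0 : S.k0 ≤ k)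
    (hk1 : k1 ≤ k) (hk : 15 ≤ k) (hkd : d ≤ 2 ^ (k / 4)) (u : Fin d → ℝ) (hu : ∑ j, u j ^ 2 = 1) :
    m1 S (k + 1) u ≤ 2 * m1 S k u + (PK d S.a S.A (k + 1)).Δ + 18 * 4 ^ k * ep S.A k ∧
    m2 S (k + 1) u ≤ 42 * 16 ^ k * ep S.A k + 2 * m2 S k u + 2 * (m1 S k u + 5 * 4 ^ k * ep S.A k) ^ 2 +
      4 * (PK d S.a S.A (k + 1)).Δ * (m1 S k u + 5 * 4 ^ k * ep S.A k) +
      ((PK d S.a S.A (k + 1)).Δ : ℝ) ^ 2 := by
  set D := (PK d S.a S.A (k + 1)).Δ with hD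
  have hq := S.tsumQ (k + 1) (by omega) u (2 ^ k)
  have a1 := rec_step S hS1 hk0 hk1 hk u hu (fun n => n) (fun _ _ h => h)
  have a2 := rec_step S hS1 hk0 hk1 hk u hu (fun n => n ^ 2) (fun _ _ h => Nat.pow_le_pow_left h 2)
  have b1 := scale_step S hS2 hk0 hk1 hk hkd u hu (fun n => n) (fun _ _ h => h)
  have b2 := scale_step S hS2 hk0 hk1 hk hkd u hu (fun n => n ^ 2) (fun _ _ h => Nat.pow_le_pow_left h 2)
  have c1 := prod_one (QK P S.E S.a S.A (k + 1) u (2 ^ k)) hq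
    (fun y => ((min y.1 ((2 ^ k) ^ 2) : ℕ) : ℝ≥0∞)) (D : ℝ≥0∞)
  have c2 := prod_two (QK P S.E S.a S.A (k + 1) u (2 ^ k)) hq
    (fun y => ((min y.1 ((2 ^ k) ^ 2) : ℕ) : ℝ≥0∞)) (D : ℝ≥0∞)
  simp only [Nat.cast_add, Nat.cast_pow] at a1 a2 b1 b2 c1 c2
  rw [c1] at a1
  rw [c2] at a2
  set E1 := ∑' y, QK P S.E S.a S.A (k + 1) u (2 ^ k) y * ((min y.1 ((2 ^ k) ^ 2) : ℕ) : ℝ≥0∞)
    with hE1
  set E2 := ∑' y, QK P S.E S.a S.A (k + 1) u (2 ^ k) y * ((min y.1 ((2 ^ k) ^ 2) : ℕ) : ℝ≥0∞) ^ 2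
    with hE2
  have hM1 : M1 S (k + 1) u ≤ (((2 : ℕ) : ℝ≥0∞) ^ (k + 1)) ^ 2 * (2 * err (rr S.A k)) + (2 * E1 + D) := a1
  have hM2 : M2 S (k + 1) u ≤ ((((2 : ℕ) : ℝ≥0∞) ^ (k + 1)) ^ 2) ^ 2 * (2 * err (rr S.A k)) +
      (2 * E2 + 2 * E1 ^ 2 + 4 * D * E1 + (D : ℝ≥0∞) ^ 2) := by
    refine le_trans (le_of_eq ?_) a2
    unfold M2
    simp only [Nat.cast_pow]
  have hN1 : E1 ≤ (((2 : ℕ) : ℝ≥0∞) ^ k) ^ 2 * (5 * err (rr S.A k)) + M1 S k u := b1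
  have hN2 : E2 ≤ ((((2 : ℕ) : ℝ≥0∞) ^ k) ^ 2) ^ 2 * (5 * err (rr S.A k)) + M2 S k u := by
    refine b2.trans (le_of_eq ?_)
    unfold M2
    simp only [Nat.cast_pow]
  rw [err_eq] at hM1 hM2 hN1 hN2
  have t1 : M1 S k u ≠ ⊤ := ne_top_of_le_ne_top (by finiteness) (M1_le S hk0 u)
  have t2 : M2 S k u ≠ ⊤ := ne_top_of_le_ne_top (by finiteness) (M2_le S hk0 u)
  have t3 : M1 S (k + 1) u ≠ ⊤ := ne_top_of_le_ne_top (by finiteness) (M1_le S (by omega) u)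
  have t4 : M2 S (k + 1) u ≠ ⊤ := ne_top_of_le_ne_top (by finiteness) (M2_le S (by omega) u)
  have t5 : E1 ≠ ⊤ := ne_top_of_le_ne_top (by finiteness) hN1
  have t6 : E2 ≠ ⊤ := ne_top_of_le_ne_top (by finiteness) hN2
  have hx : ((Real.toNNReal (ep S.A k) : ℝ≥0) : ℝ) = ep S.A k := Real.coe_toNNReal _ (ep_pos _ _).le
  unfold m1 m2
  generalize Real.toNNReal (ep S.A k) = e at *
  lift M1 S k u to ℝ≥0 using t1 with x1
  lift M2 S k u to ℝ≥0 using t2 with x2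
  lift M1 S (k + 1) u to ℝ≥0 using t3 with x3
  lift M2 S (k + 1) u to ℝ≥0 using t4 with x4
  lift E1 to ℝ≥0 using t5 with y1
  lift E2 to ℝ≥0 using t6 with y2
  rw [← hx]
  have g1 : (x3 : ℝ) ≤ ((2 : ℝ) ^ (k + 1)) ^ 2 * (2 * e) + (2 * y1 + D) := by exact_mod_cast hM1
  have g2 : (x4 : ℝ) ≤ (((2 : ℝ) ^ (k + 1)) ^ 2) ^ 2 * (2 * e) +
      (2 * y2 + 2 * (y1 : ℝ) ^ 2 + 4 * D * y1 + (D : ℝ) ^ 2) := by exact_mod_cast hM2
  have g3 : (y1 : ℝ) ≤ ((2 : ℝ) ^ k) ^ 2 * (5 * e) + x1 := by exact_mod_cast hN1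
  have g4 : (y2 : ℝ) ≤ (((2 : ℝ) ^ k) ^ 2) ^ 2 * (5 * e) + x2 := by exact_mod_cast hN2
  have p1 : ((2 : ℝ) ^ k) ^ 2 = 4 ^ k := by rw [← pow_mul, mul_comm, pow_mul]; norm_num
  have p2 : ((2 : ℝ) ^ (k + 1)) ^ 2 = 4 * 4 ^ k := by rw [pow_succ (2 : ℝ) k, mul_pow, p1]; ring
  have p3 : ((4 : ℝ) ^ k) ^ 2 = 16 ^ k := by rw [← pow_mul, mul_comm, pow_mul]; norm_num
  rw [p2] at g1 g2
  rw [p1] at g3 g4
  have p4 : (4 * (4 : ℝ) ^ k) ^ 2 = 16 * 16 ^ k := by rw [mul_pow, p3]; ring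
  rw [p4] at g2
  rw [p3] at g4
  simp only [ENNReal.coe_toReal]
  have hD0 : (0 : ℝ) ≤ D := Nat.cast_nonneg _
  have hy : (y1 : ℝ) ≤ x1 + 5 * 4 ^ k * e := by linarith
  have hy0 : (0 : ℝ) ≤ y1 := y1.2
  have hy2 : (y1 : ℝ) ^ 2 ≤ (x1 + 5 * 4 ^ k * e) ^ 2 := pow_le_pow_left₀ hy0 hy 2
  have hy3 : 4 * (D : ℝ) * y1 ≤ 4 * D * (x1 + 5 * 4 ^ k * e) :=
    mul_le_mul_of_nonneg_left hy (by positivity)
  constructor
  · linarith
  · linarith

end ZQ.S3
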