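import Pool.Agent.ZP.S3
import Pool.Agent.ZQ.S3b
import Pool.Agent.ZQ.S1
import Pool.Agent.ZQ.S2

/-! # Row S3: the speeds exist (with recovery) -/

set_option autoImplicit false

open scoped ENNReal NNReal BigOperators Classical Topology
open MeasureTheory

noncomputable section

namespace ZQ.S3

open ZP hiding Agree BlockFacts Env GoodK IsGamma LowTail QK StepP Sys UpTail envT foldl_stepR_fst foldl_stepR_inter foldl_stepR_mono foldl_stepR_occ foldl_stepR_region inf infMv infMv_mono infMv_occ inf_comp inf_inter inf_mono_univ inf_occ inf_pred mem_foldl_stepR mem_infMv muK stepI stepR visU visU_mono_univ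
open ZP.S3 hiding A_pos Chain1 M1 M1_le M2 M2_le QK_ne_top Scale1 cheb dl dl_le dl_le' dl_nonneg dl_summable e0 e0_nonneg e0_summable e1 e1_nonneg e1_summable facts0 gamma_exists_of m1 m1_lb m1_le m1_nonneg m2 m2_nonneg mu_eq rec_a rec_real rec_step rec_v scale_step tailQ wait_small

variable [ZQ.Thr]

open ZP hiding Agree BlockFacts Env GoodK IsGamma LowTail QK StepP Sys UpTail envT foldl_stepR_fst foldl_stepR_inter foldl_stepR_mono foldl_stepR_occ foldl_stepR_region inf infMv infMv_mono infMv_occ inf_comp inf_inter inf_mono_univ inf_occ inf_pred mem_foldl_stepR mem_infMv muK stepI stepR visU visU_mono_univ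
open ZQ

variable {d : ℕ} {Ω : Type} [MeasurableSpace Ω] {P : Measure Ω}

/-! ### summable errors -/

/-- the waiting time of the scale `k + 1` divided by `2 ^ (k + 1)` -/
def dl (S : Sys d P) (k : ℕ) : ℝ := ((PK d S.a S.A (k + 1)).Δ : ℝ) / 2 ^ (k + 1)

lemma dl_nonneg (S : Sys d P) (k : ℕ) : 0 ≤ dl S k := div_nonneg (Nat.cast_nonneg _) (by positivity)

lemma dl_le (S : Sys d P) (k : ℕ) : dl S k ≤ 66 * (3 / 4 : ℝ) ^ (k + 1) := by
  have h1 := div_bound (a := S.a) (A := S.A) (k := k + 1) S.A_big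
  set r := rr S.A (k + 1) with hr
  have hr1 : 1 ≤ r := rr_pos _ _
  have h2 : (PK d S.a S.A (k + 1)).Δ ≤ 66 * r ^ (4 * S.a) := by
    have h5 : (64 * r ^ (3 * S.a) + 2) * r ^ S.a ≤ 66 * r ^ (4 * S.a) := by
      have h6 : 1 ≤ r ^ (3 * S.a) := Nat.one_le_pow _ _ hr1
      calc (64 * r ^ (3 * S.a) + 2) * r ^ S.a ≤ (66 * r ^ (3 * S.a)) * r ^ S.a :=
            Nat.mul_le_mul_right _ (by omega)
        _ = 66 * r ^ (4 * S.a) := by ring
    exact h5
  have h3 : (r ^ (4 * S.a)) ^ 2 ≤ 2 ^ (k + 1) := by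
    rw [hr, rr_pow_eq, ← pow_mul]
    refine Nat.pow_le_pow_right (by norm_num) ?_
    have : 4 * S.a * ((k + 1) / S.A) * 2 = 8 * (S.a * ((k + 1) / S.A)) := by ring
    omega
  set x : ℝ := ((r ^ (4 * S.a) : ℕ) : ℝ) with hx
  have h4 : x ^ 2 ≤ 2 ^ (k + 1) := by
    rw [hx]
    exact_mod_cast h3
  have h5 : x / 2 ^ (k + 1) ≤ (3 / 4 : ℝ) ^ (k + 1) := by
    refine le_of_sq_le_sq ?_ (by positivity)
    calc (x / 2 ^ (k + 1)) ^ 2 = x ^ 2 / (2 ^ (k + 1)) ^ 2 := div_pow _ _ _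
      _ ≤ 2 ^ (k + 1) / (2 ^ (k + 1)) ^ 2 := by gcongr
      _ = (1 / 2) ^ (k + 1) := by
          rw [sq, ← div_div, div_self (by positivity), one_div, one_div, inv_pow]
      _ ≤ (9 / 16) ^ (k + 1) := pow_le_pow_left₀ (by norm_num) (by norm_num) _
      _ = ((3 / 4 : ℝ) ^ (k + 1)) ^ 2 := by rw [← pow_mul, mul_comm, pow_mul]; norm_num
  have h6 : ((PK d S.a S.A (k + 1)).Δ : ℝ) ≤ 66 * x := by
    rw [hx]
    exact_mod_cast h2
  unfold dl
  calc ((PK d S.a S.A (k + 1)).Δ : ℝ) / 2 ^ (k + 1) ≤ 66 * x / 2 ^ (k + 1) := by gcongr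
    _ = 66 * (x / 2 ^ (k + 1)) := by ring
    _ ≤ _ := by gcongr

lemma dl_le' (S : Sys d P) (k : ℕ) : dl S k ≤ 66 := by
  refine (dl_le S k).trans ?_
  have : (3 / 4 : ℝ) ^ (k + 1) ≤ 1 := pow_le_one₀ (by norm_num) (by norm_num)
  linarith

lemma dl_summable (S : Sys d P) : Summable (dl S) := by
  have h1 : Summable (fun k : ℕ => ((3 : ℝ) / 4) ^ k) :=
    summable_geometric_of_lt_one (by norm_num) (by norm_num)
  have h2 : Summable (fun k : ℕ => 66 * ((3 : ℝ) / 4) ^ (k + 1)) :=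
    ((summable_nat_add_iff 1).2 h1).mul_left 66
  exact Summable.of_nonneg_of_le (dl_nonneg S) (dl_le S) h2

variable [IsProbabilityMeasure P]

/-- Chebyshev inequality for the truncated duration -/
lemma cheb (S : Sys d P) {k : ℕ} (hk : S.k0 ≤ k) (u : Fin d → ℝ) :
    0 ≤ m2 S k u - m1 S k u ^ 2 ∧ ∀ δ : ℝ, 0 < δ →
      (P {ω | δ < |((min ((S.E k ω).blk (PK d S.a S.A k) u (2 ^ k) 0 (kp S.a S.A k)).1 ((2 ^ k) ^ 2) : ℕ) : ℝ) -
        m1 S k u|}).toReal * δ ^ 2 ≤ m2 S k u - m1 S k u ^ 2 := by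
  set Q := QK P S.E S.a S.A k u (2 ^ k) with hQdef
  set f : ℕ × Pos d → ℝ := fun y => ((min y.1 ((2 ^ k) ^ 2) : ℕ) : ℝ) with hf
  set T : ℝ := (((2 ^ k) ^ 2 : ℕ) : ℝ) with hT
  have hf0 : ∀ y, 0 ≤ f y := fun y => Nat.cast_nonneg _
  have hfT : ∀ y, f y ≤ T := fun y => by
    have : min y.1 ((2 ^ k) ^ 2) ≤ (2 ^ k) ^ 2 := min_le_right _ _
    exact Nat.cast_le.2 this
  have hQ := S.tsumQ k hk u (2 ^ k)
  have hfin : ∀ y, Q y ≠ ∞ := QK_ne_top S hk u _
  have hP : Summable (fun y => (Q y).toReal) := ENNReal.summable_toReal (by rw [hQ]; simp)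
  have hP1 : ∑' y, (Q y).toReal = 1 := by
    rw [← ENNReal.tsum_toReal_eq hfin, hQ, ENNReal.toReal_one]
  have hPf : Summable (fun y => (Q y).toReal * f y) := by
    refine Summable.of_norm_bounded (hP.mul_right T) fun y => ?_
    rw [Real.norm_of_nonneg (mul_nonneg ENNReal.toReal_nonneg (hf0 y))]
    exact mul_le_mul_of_nonneg_left (hfT y) ENNReal.toReal_nonneg
  have hPf2 : Summable (fun y => (Q y).toReal * f y ^ 2) := by
    refine Summable.of_norm_bounded (hP.mul_right (T ^ 2)) fun y => ?_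
    rw [Real.norm_of_nonneg (mul_nonneg ENNReal.toReal_nonneg (sq_nonneg _))]
    exact mul_le_mul_of_nonneg_left (pow_le_pow_left₀ (hf0 y) (hfT y) 2) ENNReal.toReal_nonneg
  have e1 : ∑' y, (Q y).toReal * f y = m1 S k u := by
    unfold m1 M1
    rw [ENNReal.tsum_toReal_eq]
    · refine tsum_congr fun y => ?_
      rw [ENNReal.toReal_mul, ENNReal.toReal_natCast]
    · intro y
      exact ENNReal.mul_ne_top (hfin y) (ENNReal.natCast_ne_top _)
  have e2 : ∑' y, (Q y).toReal * f y ^ 2 = m2 S k u := by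
    unfold m2 M2
    rw [ENNReal.tsum_toReal_eq]
    · refine tsum_congr fun y => ?_
      rw [ENNReal.toReal_mul, ENNReal.toReal_natCast]
      congr 1
      simp only [hf]
      push_cast
      rfl
    · intro y
      exact ENNReal.mul_ne_top (hfin y) (ENNReal.natCast_ne_top _)
  set μ := m1 S k u with hμ
  have h1 : ∀ y, (Q y).toReal * (f y - μ) ^ 2 =
      (Q y).toReal * f y ^ 2 + (Q y).toReal * f y * (-2 * μ) + (Q y).toReal * μ ^ 2 :=
    fun y => by ring
  have hs : Summable (fun y => (Q y).toReal * (f y - μ) ^ 2) := by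
    simp only [h1]
    exact (hPf2.add (hPf.mul_right _)).add (hP.mul_right _)
  have e3 : ∑' y, (Q y).toReal * (f y - μ) ^ 2 = m2 S k u - μ ^ 2 := by
    simp only [h1]
    rw [(hPf2.add (hPf.mul_right _)).tsum_add (hP.mul_right _), hPf2.tsum_add (hPf.mul_right _),
      tsum_mul_right, tsum_mul_right, hP1, e1, e2]
    ring
  constructor
  · rw [← e3]
    exact tsum_nonneg fun y => mul_nonneg ENNReal.toReal_nonneg (sq_nonneg _)
  · intro δ hδ
    have h2 := tailQ S hk u (2 ^ k) (fun y => δ < |f y - μ|)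
    have h3 : P {ω | δ < |((min ((S.E k ω).blk (PK d S.a S.A k) u (2 ^ k) 0 (kp S.a S.A k)).1
        ((2 ^ k) ^ 2) : ℕ) : ℝ) - μ|} = ∑' y, Q y * ind (δ < |f y - μ|) := h2
    have hi : ∀ p : Prop, (ind p).toReal ≤ 1 ∧ ind p ≠ ⊤ := by
      intro p
      by_cases hp : p
      · rw [ind_true hp]; simp
      · rw [ind_false hp]; simp
    rw [h3, ENNReal.tsum_toReal_eq (fun y => ENNReal.mul_ne_top (hfin y) (hi _).2), ← e3,
      ← tsum_mul_right]
    refine Summable.tsum_le_tsum (fun y => ?_) ?_ hs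
    · rw [ENNReal.toReal_mul, mul_assoc]
      refine mul_le_mul_of_nonneg_left ?_ ENNReal.toReal_nonneg
      by_cases hp : δ < |f y - μ|
      · rw [ind_true hp, ENNReal.toReal_one, one_mul, ← sq_abs (f y - μ)]
        exact pow_le_pow_left₀ hδ.le hp.le 2
      · rw [ind_false hp, ENNReal.toReal_zero, zero_mul]
        exact sq_nonneg _
    · refine Summable.of_nonneg_of_le (fun y => mul_nonneg ENNReal.toReal_nonneg (sq_nonneg _))
        (fun y => ?_) (hP.mul_right (δ ^ 2))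
      rw [ENNReal.toReal_mul]
      refine mul_le_mul_of_nonneg_right ?_ (sq_nonneg _)
      exact mul_le_of_le_one_right ENNReal.toReal_nonneg (hi _).1

omit [IsProbabilityMeasure P] in
/-- facts on the block of size `2 ^ k` at the origin -/
lemma facts0 (S : Sys d P) {k : ℕ} (hk0 : S.k0 ≤ k) (hk : 15 ≤ k) (u : Fin d → ℝ)
    (hu : ∑ j, u j ^ 2 = 1) (E : Env d) (hg : GoodK S.a S.A S.Cv k E) :
    BlockFacts E (PK d S.a S.A k) u (rr S.A k) S.Cv (2 ^ k) (2 ^ k) 0 (kp S.a S.A k) ∧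
      E.bh (PK d S.a S.A k) u (2 ^ k) 0 (kp S.a S.A k) ≤ (2 ^ k) ^ 2 := by
  have hs := rr_small S.A_big (a := S.a) (A := S.A) hk
  set r := rr S.A k with hr
  have hr1 : 1 ≤ r := rr_pos _ _
  have hrp : ∀ b ≤ 7 * S.a, 66 * r ^ b ≤ 2 ^ k := fun b hb =>
    (Nat.mul_le_mul_left _ ((Nat.pow_le_pow_right hr1 hb).trans
      (Nat.pow_le_pow_left (rr_mono (Nat.le_succ k)) _))).trans hs
  have h7 : r ^ (7 * S.a) ≤ 2 ^ k := by have := hrp _ le_rfl; omega
  have hpa : 66 * r ^ S.a ≤ 2 ^ k := hrp _ (by omega)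
  have hp2 : 66 * r ^ (2 * S.a) ≤ 2 ^ k := hrp _ (by omega)
  have hp3 : 66 * r ^ (3 * S.a) ≤ 2 ^ k := hrp _ (by omega)
  have hf := S.facts k hk0 E hg u hu (2 ^ k) h7 (Nat.le_mul_of_pos_left _ hr1) 0
    (kp S.a S.A k) le_rfl (by
    have g0 : kp S.a S.A k = r ^ S.a := rfl
    have g1 : 2 ^ k ≤ 2 ^ k * 2 ^ k := Nat.le_mul_of_pos_left _ (by positivity)
    have g2 : 66 * (r ^ (2 * S.a) * 2 ^ k) ≤ 2 ^ k * 2 ^ k := by
      rw [← mul_assoc]
      exact Nat.mul_le_mul_right _ hp2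
    rw [g0, sq]
    show r ^ S.a + r ^ (2 * S.a) * 2 ^ k ≤ 2 ^ k * 2 ^ k
    omega)
  refine ⟨hf, ?_⟩
  have h5 := hf.h_ub
  have hκ : (PK d S.a S.A k).κ = r ^ S.a := rfl
  have hmg : (PK d S.a S.A k).mg = r ^ (3 * S.a) := rfl
  have h6 : (E.bh (PK d S.a S.A k) u (2 ^ k) 0 (kp S.a S.A k) : ℝ) ≤
      ((4 * (PK d S.a S.A k).κ * (2 ^ k + 2 * (PK d S.a S.A k).mg) : ℕ) : ℝ) := by
    push_cast
    push_cast at h5
    exact h5
  have h7 : E.bh (PK d S.a S.A k) u (2 ^ k) 0 (kp S.a S.A k) ≤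
    4 * (PK d S.a S.A k).κ * (2 ^ k + 2 * (PK d S.a S.A k).mg) := by exact_mod_cast h6
  refine h7.trans ?_
  rw [hκ, hmg, sq]
  calc 4 * r ^ S.a * (2 ^ k + 2 * r ^ (3 * S.a)) ≤ 4 * r ^ S.a * (3 * 2 ^ k) :=
        Nat.mul_le_mul_left _ (by omega)
    _ = (12 * r ^ S.a) * 2 ^ k := by ring
    _ ≤ 2 ^ k * 2 ^ k := Nat.mul_le_mul_right _ (by omega)

/-- lower bound of the mean -/
lemma m1_lb (S : Sys d P) {k : ℕ} (hk0 : S.k0 ≤ k) (hk : 15 ≤ k) (hkd : 2 * d + 6 ≤ k)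
    (u : Fin d → ℝ) (hu : ∑ j, u j ^ 2 = 1) : 1 / (4 * (S.Cv : ℝ)) ≤ m1 S k u / 2 ^ k := by
  have hCv : (0 : ℝ) < S.Cv := by exact_mod_cast S.Cv_pos
  -- probability of the good event
  have h1 : P {ω | ¬ (2 ^ k ≤ 2 * S.Cv * ((S.E k ω).blk (PK d S.a S.A k) u (2 ^ k) 0 (kp S.a S.A k)).1)} ≤
      err (rr S.A k) := by
    refine (measure_mono fun ω hω => ?_).trans (S.good k hk0)
    intro hg
    apply hω
    have hf := (facts0 S hk0 hk u hu _ hg).1
    have h2 := hf.x_lev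
    have h3 := lev_le_nrm u hu ((S.E k ω).bx (PK d S.a S.A k) u (2 ^ k) 0 (kp S.a S.A k))
    have h4 := hf.x_nrm
    have h5 : 4 * (d * (PK d S.a S.A k).κ) ≤ 2 ^ k := by
      have h6 : (PK d S.a S.A k).κ ≤ 2 ^ (k / 2) := ZP.Rows.S5.kp_le_half S.a S.A k S.A_big
      have h7 : d ≤ 2 ^ d := Nat.lt_two_pow_self.le
      calc 4 * (d * (PK d S.a S.A k).κ) ≤ 2 ^ 2 * (2 ^ d * 2 ^ (k / 2)) :=
            Nat.mul_le_mul (by norm_num) (Nat.mul_le_mul h7 h6)
        _ = 2 ^ (2 + (d + k / 2)) := by rw [pow_add, pow_add]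
        _ ≤ 2 ^ k := Nat.pow_le_pow_right (by norm_num) (by omega)
    have h6 : 4 * ((d : ℝ) * (PK d S.a S.A k).κ) ≤ 2 ^ k := by exact_mod_cast h5
    have h7 : ((2 ^ k : ℕ) : ℝ) ≤ S.Cv * ((S.E k ω).bh (PK d S.a S.A k) u (2 ^ k) 0 (kp S.a S.A k) : ℝ) +
        2 * d * (PK d S.a S.A k).κ := h2.trans (h3.trans h4)
    push_cast at h7
    have h8 : (2 : ℝ) ^ k ≤ 2 * S.Cv * ((S.E k ω).bh (PK d S.a S.A k) u (2 ^ k) 0 (kp S.a S.A k) : ℝ) := by
      linarith
    have h9 : 2 ^ k ≤ 2 * S.Cv * (S.E k ω).bh (PK d S.a S.A k) u (2 ^ k) 0 (kp S.a S.A k) := by exact_mod_cast h8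
    exact h9
  have h2 : (1 : ℝ≥0∞) ≤
      P {ω | 2 ^ k ≤ 2 * S.Cv * ((S.E k ω).blk (PK d S.a S.A k) u (2 ^ k) 0 (kp S.a S.A k)).1} +
        err (rr S.A k) := by
    refine le_trans ?_ (add_le_add le_rfl h1)
    rw [← measure_univ (μ := P)]
    refine (measure_mono (fun ω _ => ?_)).trans (measure_union_le _ _)
    by_cases h : 2 ^ k ≤ 2 * S.Cv * ((S.E k ω).blk (PK d S.a S.A k) u (2 ^ k) 0 (kp S.a S.A k)).1
    · exact Or.inl h
    · exact Or.inr h
  rw [tailQ S hk0 u (2 ^ k) (fun y => 2 ^ k ≤ 2 * S.Cv * y.1)] at h2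
  have h3 : (2 : ℝ≥0∞) ^ k * ∑' y, QK P S.E S.a S.A k u (2 ^ k) y * ind (2 ^ k ≤ 2 * S.Cv * y.1) ≤
      2 * S.Cv * M1 S k u := by
    unfold M1
    rw [← ENNReal.tsum_mul_left, ← ENNReal.tsum_mul_left]
    refine ENNReal.tsum_le_tsum fun y => ?_
    by_cases h : 2 ^ k ≤ 2 * S.Cv * y.1
    · rw [ind_true h, mul_one]
      have h4 : 2 ^ k ≤ 2 * S.Cv * min y.1 ((2 ^ k) ^ 2) := by
        rcases le_total y.1 ((2 ^ k) ^ 2) with h5 | h5
        · rw [min_eq_left h5]
          exact h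
        · rw [min_eq_right h5, sq, ← mul_assoc]
          exact Nat.le_mul_of_pos_left _ (by have := S.Cv_pos; positivity)
      have h5 : (2 : ℝ≥0∞) ^ k ≤ 2 * S.Cv * ((min y.1 ((2 ^ k) ^ 2) : ℕ) : ℝ≥0∞) := by
        exact_mod_cast h4
      calc (2 : ℝ≥0∞) ^ k * QK P S.E S.a S.A k u (2 ^ k) y ≤
          (2 * S.Cv * ((min y.1 ((2 ^ k) ^ 2) : ℕ) : ℝ≥0∞)) * QK P S.E S.a S.A k u (2 ^ k) y :=
            mul_le_mul_left h5 _
        _ = _ := by ring
    · rw [ind_false h, mul_zero, mul_zero]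
      exact zero_le
  set X := ∑' y, QK P S.E S.a S.A k u (2 ^ k) y * ind (2 ^ k ≤ 2 * S.Cv * y.1) with hX
  have t1 : M1 S k u ≠ ⊤ := ne_top_of_le_ne_top (by finiteness) (M1_le S hk0 u)
  have t2 : X ≠ ⊤ := by
    refine ne_top_of_le_ne_top ENNReal.one_ne_top ?_
    rw [← S.tsumQ k hk0 u (2 ^ k)]
    refine ENNReal.tsum_le_tsum fun y => ?_
    by_cases h : 2 ^ k ≤ 2 * S.Cv * y.1
    · rw [ind_true h, mul_one]
    · rw [ind_false h, mul_zero]
      exact zero_le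
  rw [err_eq] at h2
  have hx : ((Real.toNNReal (ep S.A k) : ℝ≥0) : ℝ) = ep S.A k := Real.coe_toNNReal _ (ep_pos _ _).le
  have hh := ep_half S.A k
  rw [← hx] at hh
  unfold m1
  generalize Real.toNNReal (ep S.A k) = e at *
  clear_value X
  lift M1 S k u to ℝ≥0 using t1 with x
  lift X to ℝ≥0 using t2 with y
  have g1 : (1 : ℝ) ≤ y + e := by exact_mod_cast h2
  have g2 : (2 : ℝ) ^ k * y ≤ 2 * S.Cv * x := by exact_mod_cast h3
  simp only [ENNReal.coe_toReal]
  rw [div_le_div_iff₀ (by positivity) (by positivity)]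
  have h2k : (0 : ℝ) < 2 ^ k := by positivity
  nlinarith

end ZQ.S3

namespace ZQ.S3

open ZP hiding Agree BlockFacts Env GoodK IsGamma LowTail QK StepP Sys UpTail envT foldl_stepR_fst foldl_stepR_inter foldl_stepR_mono foldl_stepR_occ foldl_stepR_region inf infMv infMv_mono infMv_occ inf_comp inf_inter inf_mono_univ inf_occ inf_pred mem_foldl_stepR mem_infMv muK stepI stepR visU visU_mono_univ
open ZP.S3 hiding A_pos Chain1 M1 M1_le M2 M2_le QK_ne_top Scale1 cheb dl dl_le dl_le' dl_nonneg dl_summable e0 e0_nonneg e0_summable e1 e1_nonneg e1_summable facts0 gamma_exists_of m1 m1_lb m1_le m1_nonneg m2 m2_nonneg mu_eq rec_a rec_real rec_step rec_v scale_step tailQ wait_small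

variable [ZQ.Thr]

open ZP hiding Agree BlockFacts Env GoodK IsGamma LowTail QK StepP Sys UpTail envT foldl_stepR_fst foldl_stepR_inter foldl_stepR_mono foldl_stepR_occ foldl_stepR_region inf infMv infMv_mono infMv_occ inf_comp inf_inter inf_mono_univ inf_occ inf_pred mem_foldl_stepR mem_infMv muK stepI stepR visU visU_mono_univ
open ZQ

variable {d : ℕ} {Ω : Type} [MeasurableSpace Ω] {P : Measure Ω}

lemma Chain1.mono {S : Sys d P} {k k' : ℕ} (h : Chain1 S k) (hk : k ≤ k') : Chain1 S k' :=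
  fun j hj => h j (hk.trans hj)

lemma Scale1.mono {S : Sys d P} {k k' : ℕ} (h : Scale1 S k) (hk : k ≤ k') : Scale1 S k' :=
  fun j hj => h j (hk.trans hj)

/-- the first error sequence -/
def e0 (S : Sys d P) (k : ℕ) : ℝ := dl S k + 9 * (4 ^ k * ep S.A k)

/-- the second error sequence -/
def e1 (S : Sys d P) (C0 : ℝ) (k : ℕ) : ℝ := (67 + 2 * C0) * dl S k + 700 * (4 ^ k * ep S.A k)

lemma A_pos (S : Sys d P) : 0 < S.A := by
  have h1 := S.A_big
  have h2 := S.a_big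
  omega

lemma e0_nonneg (S : Sys d P) (k : ℕ) : 0 ≤ e0 S k := by
  have h1 := dl_nonneg S k
  have h2 := ep_pos S.A k
  unfold e0
  positivity

lemma e1_nonneg (S : Sys d P) {C0 : ℝ} (hC : 0 ≤ C0) (k : ℕ) : 0 ≤ e1 S C0 k := by
  have h1 := dl_nonneg S k
  have h2 := ep_pos S.A k
  unfold e1
  positivity

lemma e0_summable (S : Sys d P) : Summable (e0 S) :=
  (dl_summable S).add ((ep_summable S.A (A_pos S)).mul_left 9)

lemma e1_summable (S : Sys d P) (C0 : ℝ) : Summable (e1 S C0) :=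
  ((dl_summable S).mul_left _).add ((ep_summable S.A (A_pos S)).mul_left 700)

variable [IsProbabilityMeasure P]

/-- first recursion -/
lemma rec_a (S : Sys d P) {k1 k : ℕ} (hS1 : Chain1 S k1) (hS2 : Scale1 S k1) (hk0 : S.k0 ≤ k)
    (hk1 : k1 ≤ k) (hk : 15 ≤ k) (hkd : d ≤ 2 ^ (k / 4)) (u : Fin d → ℝ) (hu : ∑ j, u j ^ 2 = 1) :
    m1 S (k + 1) u / 2 ^ (k + 1) ≤ m1 S k u / 2 ^ k + e0 S k := by
  have h := (rec_real S hS1 hS2 hk0 hk1 hk hkd u hu).1
  have h2 : (0 : ℝ) < 2 ^ k := by positivity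
  have h3 : (1 : ℝ) ≤ 2 ^ k := one_le_pow₀ (by norm_num)
  have h4 := ep_pos S.A k
  have h5 : (4 : ℝ) ^ k * ep S.A k ≤ 2 ^ k * (4 ^ k * ep S.A k) :=
    le_mul_of_one_le_left (by positivity) h3
  have h6 : ((PK d S.a S.A (k + 1)).Δ : ℝ) = dl S k * 2 ^ (k + 1) := by
    unfold dl
    field_simp
  rw [div_le_iff₀ (by positivity)]
  calc m1 S (k + 1) u ≤ 2 * m1 S k u + (PK d S.a S.A (k + 1)).Δ + 18 * 4 ^ k * ep S.A k := h
    _ ≤ 2 * m1 S k u + dl S k * 2 ^ (k + 1) + 18 * (2 ^ k * (4 ^ k * ep S.A k)) := by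
        rw [h6]
        linarith
    _ = (m1 S k u / 2 ^ k + e0 S k) * 2 ^ (k + 1) := by
        unfold e0
        field_simp
        ring

/-- second recursion -/
lemma rec_v (S : Sys d P) {k1 k : ℕ} (hS1 : Chain1 S k1) (hS2 : Scale1 S k1) (hk0 : S.k0 ≤ k)
    (hk1 : k1 ≤ k) (hk : 15 ≤ k) (hkd : d ≤ 2 ^ (k / 4)) (u : Fin d → ℝ) (hu : ∑ j, u j ^ 2 = 1) (C0 : ℝ)
    (hC : m1 S k u / 2 ^ k ≤ C0) :
    m2 S (k + 1) u / 4 ^ (k + 1) ≤
      (m2 S k u / 4 ^ k - (m1 S k u / 2 ^ k) ^ 2) / 2 + (m1 S k u / 2 ^ k) ^ 2 + e1 S C0 k := by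
  have h := (rec_real S hS1 hS2 hk0 hk1 hk hkd u hu).2
  have h2 : (0 : ℝ) < 2 ^ k := by positivity
  have hq : (1 : ℝ) ≤ 2 ^ k := one_le_pow₀ (by norm_num)
  have hε := ep_pos S.A k
  have hε2 := ep_half S.A k
  have hD := dl_nonneg S k
  have hD2 := dl_le' S k
  have h6 : ((PK d S.a S.A (k + 1)).Δ : ℝ) = dl S k * (2 * 2 ^ k) := by
    unfold dl
    rw [pow_succ]
    field_simp
  have p1 : (4 : ℝ) ^ k = (2 ^ k) ^ 2 := by rw [← pow_mul, mul_comm, pow_mul]; norm_num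
  have p2 : (16 : ℝ) ^ k = (2 ^ k) ^ 4 := by
    rw [show (16 : ℝ) = 2 ^ 4 by norm_num, ← pow_mul, ← pow_mul, mul_comm]
  have p3 : (4 : ℝ) ^ (k + 1) = 4 * (2 ^ k) ^ 2 := by rw [pow_succ, p1]; ring
  have hm1 := m1_le S hk0 u
  have hm0 := m1_nonneg S k u
  rw [h6, p2] at h
  unfold e1
  rw [p1] at h hm1 ⊢
  rw [p3]
  set q : ℝ := 2 ^ k with hqdef
  set ε := ep S.A k with hεdef
  set D := dl S k with hDdef
  set A := m1 S k u / q with hA
  set B := m2 S k u / q ^ 2 with hB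
  have e1' : m1 S k u = A * q := by rw [hA]; field_simp
  have e2' : m2 S k u = B * q ^ 2 := by rw [hB]; field_simp
  have hA0 : 0 ≤ A := div_nonneg hm0 h2.le
  have hAq : A ≤ q := by
    rw [hA, div_le_iff₀ h2]
    nlinarith
  rw [e1', e2'] at h
  rw [div_le_iff₀ (by positivity)]
  have t1 : q ^ 2 * ε ≥ q * ε := by
    have : q * ε ≤ q * (q * ε) := le_mul_of_one_le_left (by positivity) hq
    linarith
  have t2 : A * q * ε ≤ q ^ 2 * ε := by
    have : A * q ≤ q * q := mul_le_mul_of_nonneg_right hAq h2.le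
    nlinarith
  have t3 : q ^ 2 * ε ^ 2 ≤ q ^ 2 * ε * (1 / 2) := by
    have : q ^ 2 * ε * ε ≤ q ^ 2 * ε * (1 / 2) := mul_le_mul_of_nonneg_left hε2 (by positivity)
    linarith
  have t4 : D * (q * ε) ≤ 66 * (q ^ 2 * ε) :=
    mul_le_mul hD2 t1 (by positivity) (by norm_num)
  have t5 : D * A ≤ D * C0 := mul_le_mul_of_nonneg_left hC hD
  have t6 : D ^ 2 ≤ 66 * D := by nlinarith
  have key : (21 / 2 : ℝ) * (q ^ 2 * ε) + B / 2 + (A ^ 2 + 10 * (A * q * ε) + 25 * (q ^ 2 * ε ^ 2)) / 2 +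
      2 * (D * A) + 10 * (D * (q * ε)) + D ^ 2 ≤
      (B - A ^ 2) / 2 + A ^ 2 + ((67 + 2 * C0) * D + 700 * (q ^ 2 * ε)) := by
    have h0 : 0 ≤ q ^ 2 * ε := by positivity
    linarith
  have key2 := mul_le_mul_of_nonneg_right key (show (0 : ℝ) ≤ 4 * q ^ 2 by positivity)
  refine le_trans (le_trans h (le_of_eq ?_)) key2
  ring

/-- the speeds exist, from the statements of S1 and S2 -/
theorem gamma_exists_of (S : Sys d P) (h1 : ∃ k1 ≥ S.k0, Chain1 S k1)
    (h2 : ∃ k1 ≥ S.k0, Scale1 S k1) :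
    ∃ (γ : (Fin d → ℝ) → ℝ) (c C : ℝ), IsGamma S γ c C := by
  obtain ⟨k1, hk1, hS1⟩ := h1
  obtain ⟨k2, -, hS2⟩ := h2
  set K := max (max k1 k2) (max 15 (4 * d + 6)) with hK
  have hKk1 : k1 ≤ K := (le_max_left _ _).trans (le_max_left _ _)
  have hKk2 : k2 ≤ K := (le_max_right _ _).trans (le_max_left _ _)
  have hK15 : 15 ≤ K := (le_max_left _ _).trans (le_max_right _ _)
  have hKd : 4 * d + 6 ≤ K := (le_max_right _ _).trans (le_max_right _ _)
  have hdK : ∀ k, K ≤ k → d ≤ 2 ^ (k / 4) := fun k hk =>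
    Nat.lt_two_pow_self.le.trans (Nat.pow_le_pow_right (by norm_num) (by omega))
  have hK0 : S.k0 ≤ K := le_trans hk1 hKk1
  have hC1 : Chain1 S K := hS1.mono hKk1
  have hC2 : Scale1 S K := hS2.mono hKk2
  have hs0 := shift_summable (e0_summable S) K
  set C0 : ℝ := 2 ^ K + ∑' j, e0 S (K + j) with hC0
  have hC0nn : 0 ≤ C0 := add_nonneg (by positivity) (tsum_nonneg fun j => e0_nonneg S _)
  have hs1 := shift_summable (e1_summable S C0) K
  -- bound of the means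
  have ha0 : ∀ u : Fin d → ℝ, m1 S K u / 2 ^ K ≤ 2 ^ K := by
    intro u
    rw [div_le_iff₀ (by positivity)]
    refine (m1_le S hK0 u).trans (le_of_eq ?_)
    rw [← mul_pow]
    norm_num
  have haC : ∀ u : Fin d → ℝ, ∑ j, u j ^ 2 = 1 → ∀ j, m1 S (K + j) u / 2 ^ (K + j) ≤ C0 := by
    intro u hu j
    have h3 : ∀ j, m1 S (K + j) u / 2 ^ (K + j) ≤
        m1 S K u / 2 ^ K + ∑ i ∈ Finset.range j, e0 S (K + i) := by
      intro j
      induction j with
      | zero => simp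
      | succ j ih =>
        rw [Finset.sum_range_succ]
        have h4 := rec_a S hC1 hC2 (k := K + j) (by omega) (by omega) (by omega) (hdK _ (by omega)) u hu
        have h5 : m1 S (K + (j + 1)) u / 2 ^ (K + (j + 1)) ≤
          m1 S (K + j) u / 2 ^ (K + j) + e0 S (K + j) := h4
        linarith
    refine (h3 j).trans (add_le_add (ha0 u) ?_)
    exact hs0.sum_le_tsum _ fun i _ => e0_nonneg S _
  -- the recursion
  have hrec : ∀ u : Fin d → ℝ, ∑ j, u j ^ 2 = 1 → ∃ γ : ℝ,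
      Filter.Tendsto (fun j => m1 S (K + j) u / 2 ^ (K + j)) Filter.atTop (𝓝 γ) ∧
      γ ≤ 2 ^ K + ∑' j, e1 S C0 (K + j) ∧
      Summable (fun j => m2 S (K + j) u / 4 ^ (K + j) - (m1 S (K + j) u / 2 ^ (K + j)) ^ 2) := by
    intro u hu
    obtain ⟨⟨γ, hγ1, hγ2⟩, hv⟩ := ZI.Rows.recursion (fun j => m1 S (K + j) u / 2 ^ (K + j))
      (fun j => m2 S (K + j) u / 4 ^ (K + j) - (m1 S (K + j) u / 2 ^ (K + j)) ^ 2)
      (fun j => e1 S C0 (K + j)) (fun j => div_nonneg (m1_nonneg S _ u) (by positivity))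
      (fun j => by
        have h3 := (cheb S (k := K + j) (by omega) u).1
        have h4 : m2 S (K + j) u / 4 ^ (K + j) - (m1 S (K + j) u / 2 ^ (K + j)) ^ 2 =
            (m2 S (K + j) u - m1 S (K + j) u ^ 2) / 4 ^ (K + j) := by
          rw [div_pow, ← pow_mul, mul_comm (K + j) 2, pow_mul, show (2 : ℝ) ^ 2 = 4 by norm_num,
            sub_div]
        rw [h4]
        exact div_nonneg h3 (by positivity))
      (fun j => e1_nonneg S hC0nn _) hs1
      (fun j => by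
        have h4 := rec_a S hC1 hC2 (k := K + j) (by omega) (by omega) (by omega) (hdK _ (by omega)) u hu
        refine h4.trans (add_le_add le_rfl ?_)
        have h5 := dl_nonneg S (K + j)
        have h6 := ep_pos S.A (K + j)
        have h7 : 0 ≤ (4 : ℝ) ^ (K + j) * ep S.A (K + j) := by positivity
        have h8 : 0 ≤ C0 * dl S (K + j) := mul_nonneg hC0nn h5
        unfold e0 e1
        nlinarith)
      (fun j => by
        have h4 := rec_v S hC1 hC2 (k := K + j) (by omega) (by omega) (by omega) (hdK _ (by omega)) u hu C0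
          (haC u hu j)
        have h5 : m2 S (K + (j + 1)) u / 4 ^ (K + (j + 1)) ≤
          (m2 S (K + j) u / 4 ^ (K + j) - (m1 S (K + j) u / 2 ^ (K + j)) ^ 2) / 2 +
          (m1 S (K + j) u / 2 ^ (K + j)) ^ 2 + e1 S C0 (K + j) := h4
        linarith)
    refine ⟨γ, hγ1, ?_, hv⟩
    have h3 := hγ2 0
    simp only [zero_add, add_zero] at h3
    exact h3.trans (add_le_add (ha0 u) le_rfl)
  choose! γ hγ1 hγ2 hγ3 using hrec
  refine ⟨γ, 1 / (4 * (S.Cv : ℝ)), 2 ^ K + ∑' j, e1 S C0 (K + j), ?_, ?_, ?_, ?_, ?_⟩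
  · have : (0 : ℝ) < S.Cv := by exact_mod_cast S.Cv_pos
    positivity
  · intro u hu
    refine ge_of_tendsto (hγ1 u hu) (Filter.Eventually.of_forall fun j => ?_)
    exact m1_lb S (by omega) (by omega) (by omega) u hu
  · intro u hu
    exact hγ2 u hu
  · intro u hu
    have h3 := hγ1 u hu
    rw [← Filter.tendsto_add_atTop_iff_nat K]
    refine h3.congr fun j => ?_
    rw [add_comm j K, mu_eq S (by omega) u]
  · intro u hu ε hε
    set γu := γ u with hγu
    -- the tail of the sum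
    have h3 : ∀ᶠ j in Filter.atTop, |m1 S (K + j) u / 2 ^ (K + j) - γu| < ε / 2 := by
      have := (hγ1 u hu).eventually (Metric.ball_mem_nhds γu (half_pos hε))
      filter_upwards [this] with j hj
      rwa [Real.dist_eq] at hj
    obtain ⟨J, hJ⟩ := Filter.eventually_atTop.1 h3
    set v : ℕ → ℝ := fun j => m2 S (K + j) u / 4 ^ (K + j) - (m1 S (K + j) u / 2 ^ (K + j)) ^ 2
      with hv
    have h4 : ∀ j, J ≤ j → P {ω | ε < |((S.E (K + j) ω).bh (PK d S.a S.A (K + j)) u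
        (2 ^ (K + j)) 0 (kp S.a S.A (K + j)) : ℝ) / 2 ^ (K + j) - γu|} ≤
        ENNReal.ofReal (ep S.A (K + j) + v j * (4 / ε ^ 2)) := by
      intro j hj
      set k := K + j with hk
      have h5 : {ω | ε < |((S.E k ω).bh (PK d S.a S.A k) u (2 ^ k) 0 (kp S.a S.A k) : ℝ) / 2 ^ k - γu|} ⊆
          {ω | ¬ GoodK S.a S.A S.Cv k (S.E k ω)} ∪
          {ω | ε / 2 * 2 ^ k < |((min ((S.E k ω).blk (PK d S.a S.A k) u (2 ^ k) 0 (kp S.a S.A k)).1
            ((2 ^ k) ^ 2) : ℕ) : ℝ) - m1 S k u|} := by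
        intro ω hω
        by_cases hg : GoodK S.a S.A S.Cv k (S.E k ω)
        swap
        · exact Or.inl hg
        right
        have h6 := (facts0 S (k := k) (by omega) (by omega) u hu _ hg).2
        have h7 : min ((S.E k ω).blk (PK d S.a S.A k) u (2 ^ k) 0 (kp S.a S.A k)).1 ((2 ^ k) ^ 2) =
          (S.E k ω).bh (PK d S.a S.A k) u (2 ^ k) 0 (kp S.a S.A k) := min_eq_left h6
        show ε / 2 * 2 ^ k < _
        rw [h7]
        set h := (S.E k ω).bh (PK d S.a S.A k) u (2 ^ k) 0 (kp S.a S.A k) with hh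
        have h8 : ε < |(h : ℝ) / 2 ^ k - γu| := hω
        have h9 := hJ j hj
        have h10 : |(h : ℝ) / 2 ^ k - γu| ≤ |(h : ℝ) / 2 ^ k - m1 S k u / 2 ^ k| +
          |m1 S k u / 2 ^ k - γu| := abs_sub_le _ _ _
        have h11 : ε / 2 < |(h : ℝ) / 2 ^ k - m1 S k u / 2 ^ k| := by linarith
        rw [← sub_div, abs_div, abs_of_pos (show (0 : ℝ) < 2 ^ k by positivity),
          lt_div_iff₀ (by positivity)] at h11
        exact h11
      have h6 := (cheb S (k := k) (by omega) u).2 (ε / 2 * 2 ^ k) (by positivity)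
      have h7 : P {ω | ε / 2 * 2 ^ k < |((min ((S.E k ω).blk (PK d S.a S.A k) u (2 ^ k) 0 (kp S.a S.A k)).1
            ((2 ^ k) ^ 2) : ℕ) : ℝ) - m1 S k u|} ≤ ENNReal.ofReal (v j * (4 / ε ^ 2)) := by
        refine (ENNReal.le_ofReal_iff_toReal_le (measure_ne_top _ _) ?_).2 ?_
        · refine mul_nonneg ?_ (by positivity)
          have h3 := (cheb S (k := K + j) (by omega) u).1
          have h4 : m2 S (K + j) u / 4 ^ (K + j) - (m1 S (K + j) u / 2 ^ (K + j)) ^ 2 =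
              (m2 S (K + j) u - m1 S (K + j) u ^ 2) / 4 ^ (K + j) := by
            rw [div_pow, ← pow_mul, mul_comm (K + j) 2, pow_mul, show (2 : ℝ) ^ 2 = 4 by norm_num,
              sub_div]
          show 0 ≤ m2 S (K + j) u / 4 ^ (K + j) - (m1 S (K + j) u / 2 ^ (K + j)) ^ 2
          rw [h4]
          exact div_nonneg h3 (by positivity)
        · have h8 : v j * (4 / ε ^ 2) = (m2 S k u - m1 S k u ^ 2) / (ε / 2 * 2 ^ k) ^ 2 := by
            show (m2 S k u / 4 ^ k - (m1 S k u / 2 ^ k) ^ 2) * (4 / ε ^ 2) = _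
            have p1 : (4 : ℝ) ^ k = (2 ^ k) ^ 2 := by
              rw [← pow_mul, mul_comm, pow_mul]
              norm_num
            rw [p1]
            field_simp
            ring
          rw [h8, le_div_iff₀ (by positivity)]
          exact h6
      calc _ ≤ P _ := measure_mono h5
        _ ≤ err (rr S.A k) + ENNReal.ofReal (v j * (4 / ε ^ 2)) :=
            (measure_union_le _ _).trans (add_le_add (S.good k (by omega)) h7)
        _ ≤ _ := by
            have h8 : err (rr S.A k) = ENNReal.ofReal (ep S.A k) := rfl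
            rw [h8, ← ENNReal.ofReal_add (ep_pos _ _).le]
            refine mul_nonneg ?_ (by positivity)
            have h3 := (cheb S (k := K + j) (by omega) u).1
            have h4 : m2 S (K + j) u / 4 ^ (K + j) - (m1 S (K + j) u / 2 ^ (K + j)) ^ 2 =
                (m2 S (K + j) u - m1 S (K + j) u ^ 2) / 4 ^ (K + j) := by
              rw [div_pow, ← pow_mul, mul_comm (K + j) 2, pow_mul, show (2 : ℝ) ^ 2 = 4 by norm_num,
                sub_div]
            show 0 ≤ m2 S (K + j) u / 4 ^ (K + j) - (m1 S (K + j) u / 2 ^ (K + j)) ^ 2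
            rw [h4]
            exact div_nonneg h3 (by positivity)
    have hsum : Summable (fun j => ep S.A (K + j) + v j * (4 / ε ^ 2)) := by
      refine Summable.add ?_ ((hγ3 u hu).mul_right _)
      refine Summable.of_nonneg_of_le (fun j => (ep_pos _ _).le) (fun j => ?_)
        (shift_summable (ep_summable S.A (A_pos S)) K)
      exact le_mul_of_one_le_left (ep_pos _ _).le (one_le_pow₀ (by norm_num))
    -- split the sum
    set f : ℕ → ℝ≥0∞ := fun k => P {ω | ε < |((S.E k ω).bh (PK d S.a S.A k) u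
        (2 ^ k) 0 (kp S.a S.A k) : ℝ) / 2 ^ k - γu|} with hf
    have h5 : ∑' k, f k = ∑ i ∈ Finset.range (K + J), f i + ∑' k, f (k + (K + J)) :=
      (Summable.sum_add_tsum_nat_add' (ENNReal.summable)).symm
    show ∑' k, f k ≠ ⊤
    rw [h5]
    refine ENNReal.add_ne_top.2 ⟨?_, ?_⟩
    · exact ENNReal.sum_ne_top.2 fun i _ => measure_ne_top _ _
    · have h6 : ∑' k, f (k + (K + J)) ≤
          ∑' k, ENNReal.ofReal (ep S.A (K + (k + J)) + v (k + J) * (4 / ε ^ 2)) := by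
        refine ENNReal.tsum_le_tsum fun k => ?_
        have h7 := h4 (k + J) (by omega)
        have h8 : k + (K + J) = K + (k + J) := by ring
        rw [h8]
        exact h7
      refine ne_top_of_le_ne_top ?_ h6
      have h7 : Summable (fun k => ep S.A (K + (k + J)) + v (k + J) * (4 / ε ^ 2)) :=
        (summable_nat_add_iff J).2 hsum
      exact h7.tsum_ofReal_ne_top

end ZQ.S3

namespace ZQ.Rows

open ZP hiding Agree BlockFacts Env GoodK IsGamma LowTail QK StepP Sys UpTail envT foldl_stepR_fst foldl_stepR_inter foldl_stepR_mono foldl_stepR_occ foldl_stepR_region inf infMv infMv_mono infMv_occ inf_comp inf_inter inf_mono_univ inf_occ inf_pred mem_foldl_stepR mem_infMv muK stepI stepR visU visU_mono_univ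
open ZP.Rows hiding R_mono R_occ R_restrict R_route R_self R_split R_start R_trans R_vis bg_of_R bh_chain bh_scale block_facts fg_R fg_of_R gamma_exists inf_mono inf_split inf_start mem_inf_iff near_ok ok_occ ok_scale persist persist_steps visU_mono visU_split vis_mono vis_mono_time vis_of_R vis_of_R' vis_restrict

variable [ZQ.Thr]

open ZP hiding Agree BlockFacts Env GoodK IsGamma LowTail QK StepP Sys UpTail envT foldl_stepR_fst foldl_stepR_inter foldl_stepR_mono foldl_stepR_occ foldl_stepR_region inf infMv infMv_mono infMv_occ inf_comp inf_inter inf_mono_univ inf_occ inf_pred mem_foldl_stepR mem_infMv muK stepI stepR visU visU_mono_univ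
open ZQ

variable {d : ℕ} {Ω : Type} [MeasurableSpace Ω] {P : Measure Ω}

theorem gamma_exists [IsProbabilityMeasure P] (S : Sys d P) :
    ∃ (γ : (Fin d → ℝ) → ℝ) (c C : ℝ), IsGamma S γ c C :=
  ZQ.S3.gamma_exists_of S (bh_chain S) (bh_scale S)

end ZQ.Rows
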