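import Pool.Agent.ZP.S5
import Pool.Agent.ZQ.S1
import Pool.Agent.ZQ.Aux79

/-! # S5: the lower tail of the durations (with recovery) -/

set_option autoImplicit false

open scoped ENNReal BigOperators Classical
open MeasureTheory

noncomputable section

namespace ZQ.Rows

open ZP hiding Agree BlockFacts Env GoodK IsGamma LowTail QK StepP Sys UpTail envT inf infMv muK stepI stepR visU
open ZP.Rows hiding bh_chain low_tail

variable [ZQ.Thr]

open ZP hiding Agree BlockFacts Env GoodK IsGamma LowTail QK StepP Sys UpTail envT inf infMv muK stepI stepR visU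
open ZQ

variable {d : ℕ} {Ω : Type} [MeasurableSpace Ω] {P : Measure Ω}

open ZI.Rows.S5 S5

theorem low_tail [IsProbabilityMeasure P] (S : Sys d P) (γ : (Fin d → ℝ) → ℝ) (c C : ℝ)
    (hγ : IsGamma S γ c C) (hU : UpTail S γ) : LowTail S γ := by
  intro u hu ε e1 hε he1
  set ε' : ℝ := ε * e1 / 4 with hε'
  have hε'0 : 0 < ε' := by positivity
  obtain ⟨kB, hkB0, hkB⟩ := bh_chain S
  obtain ⟨kU, hkU⟩ := hU u hu ε' hε'0
  obtain ⟨K1, hK1⟩ := half_small e1 he1
  obtain ⟨K2, hK2⟩ := half_small (ε' / 66) (by positivity)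
  have hA : 0 < S.A := by
    have h1 := S.a_big
    have h2 := S.A_big
    omega
  have hsum := tsum_err S.A hA
  have herr : ∃ K3 : ℕ, ∀ k ≥ K3, 9 * err (rr S.A k) ≤ 1 / 2 := by
    have h1 := ENNReal.tendsto_atTop_zero_of_tsum_ne_top hsum
    rw [ENNReal.tendsto_atTop_zero] at h1
    obtain ⟨N, hN⟩ := h1 (1 / 18) (by simp)
    refine ⟨N, fun k hk => ?_⟩
    calc 9 * err (rr S.A k) ≤ 9 * (1 / 18) := by
          gcongr
          exact hN k hk
      _ = 1 / 2 := by
        rw [ENNReal.div_eq_inv_mul, ENNReal.div_eq_inv_mul, mul_one, mul_one]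
        rw [show (18 : ℝ≥0∞) = 9 * 2 by norm_num, ENNReal.mul_inv (by simp) (by simp), ← mul_assoc,
          ENNReal.mul_inv_cancel (by simp) (by simp), one_mul]
  obtain ⟨K3, hK3⟩ := herr
  set pc : ℕ → ℝ≥0∞ := fun k =>
    P {ω | ε' < |((S.E k ω).bh (PK d S.a S.A k) u (2 ^ k) 0 (kp S.a S.A k) : ℝ) / 2 ^ k - γ u|} with hpc
  refine ⟨fun k => 2 * (pc k + 2 * err (rr S.A k)) + err (rr S.A k), ?_,
    max (max (max kB kU) (max K1 K2)) (max K3 4), ?_⟩
  · have h1 : ∑' k, pc k ≠ ⊤ := hγ.conc u hu ε' hε'0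
    rw [ENNReal.tsum_add, ENNReal.tsum_mul_left, ENNReal.tsum_add, ENNReal.tsum_mul_left]
    exact ENNReal.add_ne_top.mpr ⟨ENNReal.mul_ne_top (by simp)
      (ENNReal.add_ne_top.mpr ⟨h1, ENNReal.mul_ne_top (by simp) hsum⟩), hsum⟩
  intro k hk m hm1 hm2 z s hks hs
  have hkB' : kB ≤ k := by omega
  have hkU' : kU ≤ k := by omega
  have hk1 : K1 ≤ k := by omega
  have hk2 : K2 ≤ k := by omega
  have hk3 : K3 ≤ k := by omega
  have hk4 : 4 ≤ k := by omega
  have hk0 : S.k0 ≤ k := by omega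
  -- sizes
  have hr7 : rr S.A k ^ (7 * S.a) ≤ 2 ^ (k / 2) := rr_pow_le S.a S.A k _ S.A_big (by omega)
  have hr7' : (rr S.A k ^ (7 * S.a) : ℝ) ≤ 2 ^ (k / 2) := by exact_mod_cast hr7
  have hmr : rr S.A k ^ (7 * S.a) ≤ m := by
    have h1 := hK1 k hk1
    have h2 : ((rr S.A k ^ (7 * S.a) : ℕ) : ℝ) ≤ (m : ℝ) := by
      push_cast
      linarith
    exact_mod_cast h2
  obtain ⟨m', hm'⟩ : ∃ m' : ℕ, m + m' = 2 ^ k := ⟨2 ^ k - m, by omega⟩
  have hm'2 : 2 ^ k ≤ 2 * m' := by omega
  have hm'r : rr S.A k ^ (7 * S.a) ≤ m' := by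
    have h1 : 2 ^ (k / 2) * 2 ≤ 2 ^ k := by
      rw [← pow_succ]
      apply Nat.pow_le_pow_right (by norm_num)
      omega
    omega
  have hrr := rr_pos S.A k
  have h2k : 2 ^ k ≤ rr S.A k * 2 ^ k := Nat.le_mul_of_pos_left _ hrr
  have hm'sq : 2 ^ k ≤ m' ^ 2 := by
    have h1 : 2 ^ (k - 1) ≤ m' := by
      have : 2 ^ k = 2 * 2 ^ (k - 1) := by
        rw [← pow_succ']
        congr 1
        omega
      omega
    calc 2 ^ k ≤ 2 ^ ((k - 1) * 2) := Nat.pow_le_pow_right (by norm_num) (by omega)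
      _ = (2 ^ (k - 1)) ^ 2 := by rw [pow_mul]
      _ ≤ m' ^ 2 := Nat.pow_le_pow_left h1 2
  -- the two properties
  set Gm : List (ℕ × Pos d) → Prop := fun l => ∀ y ∈ l.head?, (y.1 : ℝ) ≤ (γ u - ε) * m with hGm
  set Gp : List (ℕ × Pos d) → Prop := fun l => ∀ y ∈ l.head?, (y.1 : ℝ) ≤ (γ u + ε') * m' with hGp
  set Q := QK P S.E S.a S.A k u with hQ
  have hs0 : 2 * kp S.a S.A k ≤ (2 ^ k) ^ 2 := two_kp_le S.a S.A k S.a_big S.A_big (by omega)
  -- b is at least one half
  have hb : 1 / 2 ≤ prodQ Q [m'] Gp := by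
    have h1 := ZI.Rows.prodQ_le_one Q (fun m => S.tsumQ k hk0 u m) [m'] Gp
    have h2 := chain_rev S k hk0 u hu [m'] (by simpa using hm'r) (by
      simp only [List.sum_cons, List.sum_nil, add_zero]
      omega) 0 (kp S.a S.A k) le_rfl hs0 (fun l => ¬ Gp l)
    have h3 := hkU k hkU' m' hm'sq (by omega) 0 (kp S.a S.A k) le_rfl hs0
    have h4 : P {ω | ¬ Gp ((S.E k ω).chain (PK d S.a S.A k) u [m'] 0 (kp S.a S.A k))} ≤ 8 * err (rr S.A k) := by
      refine le_trans (measure_mono ?_) h3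
      intro ω hω
      simp only [Set.mem_ofPred_eq, hGp, Env.chain, Env.blk, List.head?_cons, Option.mem_def,
        Option.some.injEq, forall_eq', not_le] at hω
      exact hω
    have h5 : prodQ Q [m'] (fun l => ¬ Gp l) ≤ 1 / 2 := by
      refine le_trans h2 (le_trans (add_le_add h4 le_rfl) ?_)
      refine le_trans (le_of_eq ?_) (hK3 k hk3)
      ring
    have h6 : (1 / 2 : ℝ≥0∞) + 1 / 2 ≤ prodQ Q [m'] Gp + 1 / 2 := by
      calc (1 / 2 : ℝ≥0∞) + 1 / 2 = 1 := ENNReal.add_halves 1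
        _ = prodQ Q [m'] Gp + prodQ Q [m'] (fun l => ¬ Gp l) := h1.symm
        _ ≤ prodQ Q [m'] Gp + 1 / 2 := by gcongr
    rwa [ENNReal.add_le_add_iff_right (by simp)] at h6
  -- the product
  have hab : prodQ Q [m, m'] (fun l => Gm l ∧ Gp l.tail) = prodQ Q [m] Gm * prodQ Q [m'] Gp := by
    simp only [prodQ]
    rw [← ENNReal.tsum_mul_right]
    refine tsum_congr ?_
    intro y
    rw [mul_assoc]
    congr 1
    by_cases hy : Gm [y]
    · simp only [hy, if_true, one_mul]
      refine tsum_congr ?_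
      intro y'
      congr 1
      have : (Gm [y, y'] ∧ Gp [y, y'].tail) ↔ Gp [y'] := by
        simp only [List.tail_cons]
        constructor
        · exact fun h => h.2
        · exact fun h => ⟨hy, h⟩
      by_cases h' : Gp [y']
      · rw [if_pos (this.mpr h'), if_pos h']
      · rw [if_neg (fun h => h' (this.mp h)), if_neg h']
    · simp only [hy, if_false, zero_mul]
      rw [ENNReal.tsum_eq_zero]
      intro y'
      have : ¬ (Gm [y, y'] ∧ Gp [y, y'].tail) := fun h => hy h.1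
      rw [if_neg this, mul_zero]
  -- the block of size `2 ^ k`
  have h2ch : prodQ Q [m, m'] (fun l => Gm l ∧ Gp l.tail) ≤ pc k + 2 * err (rr S.A k) := by
    have h1 := chain_rev S k hk0 u hu [m, m'] (by
      intro x hx
      simp only [List.mem_cons, List.not_mem_nil, or_false] at hx
      rcases hx with rfl | rfl
      · exact hmr
      · exact hm'r) (by
      simp only [List.sum_cons, List.sum_nil, add_zero]
      omega) 0 (kp S.a S.A k) le_rfl hs0 (fun l => Gm l ∧ Gp l.tail)
    refine le_trans h1 ?_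
    have h2 : {ω | Gm ((S.E k ω).chain (PK d S.a S.A k) u [m, m'] 0 (kp S.a S.A k)) ∧
        Gp ((S.E k ω).chain (PK d S.a S.A k) u [m, m'] 0 (kp S.a S.A k)).tail} ⊆
        {ω | ε' < |((S.E k ω).bh (PK d S.a S.A k) u (2 ^ k) 0 (kp S.a S.A k) : ℝ) / 2 ^ k - γ u|} ∪
        {ω | ¬ GoodK S.a S.A S.Cv k (S.E k ω)} := by
      intro ω hω
      by_cases hgood : GoodK S.a S.A S.Cv k (S.E k ω)
      swap
      · right
        exact hgood
      left
      have h3 := hkB k hkB' (S.E k ω) hgood u hu [m, m'] (by simp) (by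
        intro x hx
        simp only [List.mem_cons, List.not_mem_nil, or_false] at hx
        rcases hx with rfl | rfl
        · exact hmr
        · exact hm'r) (by
        simp only [List.sum_cons, List.sum_nil, add_zero]
        omega) 0 (kp S.a S.A k) le_rfl hs0
      obtain ⟨h4, h5⟩ := hω
      simp only [hGm, Env.chain, Env.blk, List.head?_cons, Option.mem_def,
        Option.some.injEq, forall_eq'] at h4
      simp only [hGp, Env.chain, Env.blk, List.head?_cons, Option.mem_def, List.tail_cons,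
        Option.some.injEq, forall_eq'] at h5
      simp only [List.sum_cons, List.sum_nil, add_zero, Env.chain, Env.blk, List.map_cons,
        List.map_nil, List.length_cons, List.length_nil] at h3
      rw [hm'] at h3
      have h3' := (Nat.cast_le (α := ℝ)).mpr h3
      push_cast at h3'
      have hΔ : ((PK d S.a S.A k).Δ : ℝ) ≤ ε' * 2 ^ k := by
        have h6 : (PK d S.a S.A k).Δ ≤ 66 * 2 ^ (k / 2) := by
          have h7 : (PK d S.a S.A k).Δ = (64 * rr S.A k ^ (3 * S.a) + 2) * rr S.A k ^ S.a := rfl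
          rw [h7]
          have h8 : 1 ≤ rr S.A k ^ (3 * S.a) := Nat.one_le_pow _ _ hrr
          calc (64 * rr S.A k ^ (3 * S.a) + 2) * rr S.A k ^ S.a
              ≤ (66 * rr S.A k ^ (3 * S.a)) * rr S.A k ^ S.a := by
                apply Nat.mul_le_mul_right
                omega
            _ = 66 * rr S.A k ^ (4 * S.a) := by
                rw [mul_assoc, ← pow_add]
                congr 2
                ring
            _ ≤ 66 * 2 ^ (k / 2) := by
                apply Nat.mul_le_mul_left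
                exact rr_pow_le S.a S.A k _ S.A_big (by omega)
        have h9 : ((PK d S.a S.A k).Δ : ℝ) ≤ 66 * 2 ^ (k / 2) := by exact_mod_cast h6
        have h10 := hK2 k hk2
        calc ((PK d S.a S.A k).Δ : ℝ) ≤ 66 * 2 ^ (k / 2) := h9
          _ ≤ 66 * (ε' / 66 * 2 ^ k) := by linarith
          _ = ε' * 2 ^ k := by ring
      have hmm : (m : ℝ) + m' = 2 ^ k := by exact_mod_cast hm'
      have h2k0 : (0 : ℝ) < 2 ^ k := by positivity
      have hkey : ((S.E k ω).bh (PK d S.a S.A k) u (2 ^ k) 0 (kp S.a S.A k) : ℝ) ≤ (γ u - 2 * ε') * 2 ^ k := by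
        have h11 : ε * (e1 * 2 ^ k) ≤ ε * m := mul_le_mul_of_nonneg_left hm1 hε.le
        have h12 : ε' * (m' : ℝ) ≤ ε' * 2 ^ k := by
          apply mul_le_mul_of_nonneg_left _ hε'0.le
          have : (0 : ℝ) ≤ m := Nat.cast_nonneg m
          linarith
        have h13 : ε * (e1 * 2 ^ k) = 4 * (ε' * 2 ^ k) := by
          rw [hε']
          ring
        have h14 : (γ u - ε) * m + (γ u + ε') * m' = γ u * 2 ^ k - ε * m + ε' * m' := by
          rw [← hmm]
          ring
        have h15 : (γ u - 2 * ε') * 2 ^ k = γ u * 2 ^ k - 2 * (ε' * 2 ^ k) := by ring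
        rw [h15]
        linarith
      have h16 : ((S.E k ω).bh (PK d S.a S.A k) u (2 ^ k) 0 (kp S.a S.A k) : ℝ) / 2 ^ k ≤ γ u - 2 * ε' := by
        rw [div_le_iff₀ h2k0]
        exact hkey
      have h17 : 2 * ε' ≤ |((S.E k ω).bh (PK d S.a S.A k) u (2 ^ k) 0 (kp S.a S.A k) : ℝ) / 2 ^ k - γ u| := by
        rw [abs_of_nonpos (by linarith)]
        linarith
      show ε' < _
      linarith
    calc P {ω | Gm ((S.E k ω).chain (PK d S.a S.A k) u [m, m'] 0 (kp S.a S.A k)) ∧
        Gp ((S.E k ω).chain (PK d S.a S.A k) u [m, m'] 0 (kp S.a S.A k)).tail} + err (rr S.A k)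
        ≤ (pc k + err (rr S.A k)) + err (rr S.A k) := by
          gcongr
          refine le_trans (measure_mono h2) (le_trans (measure_union_le _ _) ?_)
          gcongr
          exact S.good k hk0
      _ = pc k + 2 * err (rr S.A k) := by ring
  have ha : prodQ Q [m] Gm ≤ 2 * (pc k + 2 * err (rr S.A k)) := by
    calc prodQ Q [m] Gm = 2 * (prodQ Q [m] Gm * (1 / 2)) := by
          rw [mul_comm (prodQ Q [m] Gm), ← mul_assoc, one_div, ENNReal.mul_inv_cancel (by simp) (by simp),
            one_mul]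
      _ ≤ 2 * (prodQ Q [m] Gm * prodQ Q [m'] Gp) := by gcongr
      _ ≤ 2 * (pc k + 2 * err (rr S.A k)) := by
          rw [← hab]
          gcongr
  have h1 := S.chain k hk0 u hu [m] (by simpa using hmr) (by
      simp only [List.sum_cons, List.sum_nil, add_zero]
      omega) z s hks hs Gm
  have h2 : {ω | ((S.E k ω).bh (PK d S.a S.A k) u m z s : ℝ) ≤ (γ u - ε) * m} ⊆
      {ω | Gm ((S.E k ω).chain (PK d S.a S.A k) u [m] z s)} := by
    intro ω hω
    simp only [Set.mem_ofPred_eq, hGm, Env.chain, Env.blk, List.head?_cons, Option.mem_def,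
      Option.some.injEq, forall_eq']
    exact hω
  exact le_trans (measure_mono h2) (le_trans h1 (add_le_add ha le_rfl))

end ZQ.Rows
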