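import Pool.Agent.ZP.S9
import Pool.Agent.ZQ.D0
import Pool.Agent.ZQ.S4
import Pool.Agent.ZQ.S8
import Pool.Agent.ZI.S9

/-! # Row S9: the upper bound (with recovery) -/

set_option autoImplicit false

open scoped ENNReal BigOperators Classical
open MeasureTheory

noncomputable section

namespace ZQ.Rows

open ZP hiding Agree BlockFacts Env GoodK IsGamma LowTail QK StepP Sys UpTail envT foldl_stepR_fst foldl_stepR_inter foldl_stepR_mono foldl_stepR_occ foldl_stepR_region inf infMv infMv_mono infMv_occ inf_comp inf_inter inf_mono_univ inf_occ inf_pred mem_foldl_stepR mem_infMv muK stepI stepR visU visU_mono_univ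
open ZP.Rows hiding R_mono R_occ R_restrict R_route R_self R_split R_start R_trans R_vis bg_of_R bh_chain bh_scale block_facts fg_R fg_of_R inf_mono inf_split inf_start mem_inf_iff near_ok ok_occ ok_scale persist persist_steps reach route_block stepP_whp up_tail upper upper_small visU_mono visU_split vis_mono vis_mono_time vis_of_R vis_of_R' vis_restrict

variable [ZQ.Thr]

open ZP hiding Agree BlockFacts Env GoodK IsGamma LowTail QK StepP Sys UpTail envT foldl_stepR_fst foldl_stepR_inter foldl_stepR_mono foldl_stepR_occ foldl_stepR_region inf infMv infMv_mono infMv_occ inf_comp inf_inter inf_mono_univ inf_occ inf_pred mem_foldl_stepR mem_infMv muK stepI stepR visU visU_mono_univ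
open ZQ

variable {d : ℕ} {Ω : Type} [MeasurableSpace Ω] {P : Measure Ω}

namespace S9

export ZI.Rows (lev_le_nrm lev_sub gridm gridm_le le_gridm gridm_le' exists_grid rr_small tsum_err
  exists_net isNet_insert)
export ZI.Rows.S9 (a1 a2 a3 a4 a5 a6 a7 a8 a9)

/-- the probability that the infection started from the origin is too fast in the direction `u` -/
theorem fast_prob_lin [IsProbabilityMeasure P] (S : Sys d P) (γ : (Fin d → ℝ) → ℝ) (c C : ℝ)
    (hγ : IsGamma S γ c C) (hU : UpTail S γ) (hL : LowTail S γ)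
    (u : Fin d → ℝ)
    (hu : ∑ j, u j ^ 2 = 1) (ε : ℝ) (hε : 0 < ε) (hε1 : ε < γ u) :
    ∃ C3 : ℕ, 0 < C3 ∧ ∃ b : ℕ → ℝ≥0∞, ∑' k, b k ≠ ⊤ ∧ ∃ k1 : ℕ, ∀ k ≥ k1, ∀ m : ℕ,
      (2 : ℝ) ^ k ≤ 4 * C3 * m → C3 * m ≤ 2 ^ k →
      P {ω | ∃ (t : ℕ) (x : Pos d), (t : ℝ) ≤ (γ u - ε) * m ∧
        (S.E k ω).R (fun _ => Set.univ) 0 0 t x ∧ (m : ℝ) ≤ lev u x} ≤ b k := by
  have hg : 0 < γ u := lt_of_lt_of_le hγ.c_pos (hγ.lb u hu)
  obtain ⟨δ, hδ, e1, he1, C3, N0, hC3, kA, hA⟩ := route_block S u hu (γ u) ε (C + 2) hg hε hε1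
    (lt_of_le_of_lt (hγ.ub u hu) (by linarith))
  obtain ⟨𝒰0, h𝒰0⟩ := exists_net d δ hδ
  have hnet : IsNet δ (insert u 𝒰0) := isNet_insert h𝒰0 hu
  obtain ⟨kB, hB⟩ := stepP_whp S γ hU (insert u 𝒰0) hnet.1 1 one_pos
  obtain ⟨q, hq, kC, hC⟩ := hL u hu (ε / 2) e1 (by positivity) he1
  refine ⟨C3, hC3, fun k => (err (rr S.A k) + ENNReal.ofReal ((1 / 2 : ℝ) ^ k) + N0 * q k) +
    err (rr S.A k), ?_, max (max kA kB) (max kC S.k0), ?_⟩
  · have hA0 : 0 < S.A := by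
      have h1 := S.A_big
      have h2 := S.a_big
      omega
    have h1 := tsum_err hA0
    have h2 : ∑' k : ℕ, ENNReal.ofReal ((1 / 2 : ℝ) ^ k) ≠ ⊤ :=
      (summable_geometric_of_lt_one (by norm_num) (by norm_num)).tsum_ofReal_ne_top
    rw [ENNReal.tsum_add, ENNReal.tsum_add, ENNReal.tsum_add, ENNReal.tsum_mul_left]
    exact ENNReal.add_ne_top.2 ⟨ENNReal.add_ne_top.2 ⟨ENNReal.add_ne_top.2 ⟨h1, h2⟩,
      ENNReal.mul_ne_top (ENNReal.natCast_ne_top _) hq⟩, h1⟩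
  intro k hk m hm1 hm2
  have hkA : kA ≤ k := (le_max_left _ _).trans ((le_max_left _ _).trans hk)
  have hkB : kB ≤ k := (le_max_right _ _).trans ((le_max_left _ _).trans hk)
  have hkC : kC ≤ k := (le_max_left _ _).trans ((le_max_right _ _).trans hk)
  have hk0 : S.k0 ≤ k := (le_max_right _ _).trans ((le_max_right _ _).trans hk)
  obtain ⟨s0, F, hs0, hFc, hF, hmain⟩ := hA k hkA m hm1 hm2
  have hb0 : 0 ≤ (γ u - ε) * m := mul_nonneg (by linarith) (Nat.cast_nonneg _)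
  -- shift
  have hshift := S.shift k hk0 s0 ⌊(γ u - ε) * m⌋₊ (by
      have h1 : ((⌊(γ u - ε) * m⌋₊ : ℕ) : ℝ) ≤ γ u * m :=
        (Nat.floor_le hb0).trans (mul_le_mul_of_nonneg_right (by linarith) (Nat.cast_nonneg _))
      have h2 : ((s0 + ⌊(γ u - ε) * m⌋₊ : ℕ) : ℝ) ≤ ((2 : ℝ) ^ k) ^ 2 := by
        push_cast
        linarith
      exact_mod_cast h2)
    (fun A => ∃ (t : ℕ) (x : Pos d), (t : ℝ) ≤ (γ u - ε) * m ∧ x ∈ A t ∧ (m : ℝ) ≤ lev u x)
  have hsub : {ω | ∃ (t : ℕ) (x : Pos d), (t : ℝ) ≤ (γ u - ε) * m ∧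
        (S.E k ω).R (fun _ => Set.univ) 0 0 t x ∧ (m : ℝ) ≤ lev u x} ⊆
      {ω | ∃ (t : ℕ) (x : Pos d), (t : ℝ) ≤ (γ u - ε) * m ∧
        x ∈ {x | t ≤ ⌊(γ u - ε) * m⌋₊ ∧ (S.E k ω).R (fun _ => Set.univ) 0 0 t x} ∧
        (m : ℝ) ≤ lev u x} := by
    rintro ω ⟨t, x, h1, h2, h3⟩
    exact ⟨t, x, h1, ⟨Nat.le_floor h1, h2⟩, h3⟩
  refine (measure_mono hsub).trans (hshift.trans (add_le_add ?_ le_rfl))
  -- the event for the shifted infection
  have hsub2 : {ω | ∃ (t : ℕ) (x : Pos d), (t : ℝ) ≤ (γ u - ε) * m ∧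
        x ∈ {x | t ≤ ⌊(γ u - ε) * m⌋₊ ∧ (S.E k ω).R (fun _ => Set.univ) s0 0 (s0 + t) x} ∧
        (m : ℝ) ≤ lev u x} ⊆
      ({ω | ¬ GoodK S.a S.A S.Cv k (S.E k ω)} ∪
        {ω | ¬ StepP S.a S.A k (S.E k ω) (insert u 𝒰0) (fun v => γ v + 1)}) ∪
      ⋃ f ∈ F, {ω | ((S.E k ω).bh (PK d S.a S.A k) u f.2.2 f.1 f.2.1 : ℝ) ≤ (γ u - ε / 2) * f.2.2} := by
    rintro ω ⟨t, x, h1, ⟨_, h2⟩, h3⟩
    by_cases hG : GoodK S.a S.A S.Cv k (S.E k ω)
    · by_cases hS : StepP S.a S.A k (S.E k ω) (insert u 𝒰0) (fun v => γ v + 1)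
      · right
        obtain ⟨f, hfF, hf⟩ := hmain (S.E k ω) hG (insert u 𝒰0) hnet (Finset.mem_insert_self _ _)
          (fun v => γ v + 1) (fun v hv => ⟨by
            have := hγ.lb v (hnet.1 v hv)
            have := hγ.c_pos
            linarith, by
            have := hγ.ub v (hnet.1 v hv)
            linarith⟩) hS ⟨t, x, h1, h2, h3⟩
        exact Set.mem_biUnion hfF hf
      · left; right; exact hS
    · left; left; exact hG
  refine (measure_mono hsub2).trans ((measure_union_le _ _).trans (add_le_add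
    ((measure_union_le _ _).trans (add_le_add (S.good k hk0) (hB k hkB))) ?_))
  refine (measure_biUnion_finset_le _ _).trans ?_
  calc ∑ f ∈ F, P {ω | ((S.E k ω).bh (PK d S.a S.A k) u f.2.2 f.1 f.2.1 : ℝ) ≤
        (γ u - ε / 2) * f.2.2} ≤ ∑ _f ∈ F, q k :=
        Finset.sum_le_sum (fun f hf => hC k hkC f.2.2 (hF f hf).2.2.1 (hF f hf).2.2.2 f.1 f.2.1
          (hF f hf).1 (hF f hf).2.1)
    _ = F.card * q k := by rw [Finset.sum_const, nsmul_eq_mul]
    _ ≤ N0 * q k := by gcongr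

end S9

open S9 in
theorem upper_small [IsProbabilityMeasure P] (S : Sys d P) (γ : (Fin d → ℝ) → ℝ) (c C : ℝ)
    (hγ : IsGamma S γ c C) (hU : UpTail S γ) (hL : LowTail S γ)
    (u : Fin d → ℝ)
    (hu : ∑ j, u j ^ 2 = 1) (ε : ℝ) (hε : 0 < ε) (hε1 : ε ≤ 1) :
    ∀ᵐ ω ∂P, ∃ T0 : ℝ, ∀ t : ℝ, T0 ≤ t → ∀ x ∈ S.I ω t, lev u x ≤ (1 + ε) * t / γ u := by
  set g := γ u with hgdef
  have hg : 0 < g := lt_of_lt_of_le hγ.c_pos (hγ.lb u hu)
  obtain ⟨C3, hC3, b, hb, kA, hA⟩ := S9.fast_prob_lin S γ c C hγ hU hL u hu (g * ε / 8) (by positivity)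
    (by nlinarith [mul_le_mul_of_nonneg_left hε1 hg.le])
  obtain ⟨J, hJ⟩ := exists_nat_gt (16 / ε)
  have hJ0' : (0 : ℝ) < J := lt_trans (by positivity) hJ
  have hJ0 : 0 < J := by exact_mod_cast hJ0'
  have hA0 : 0 < S.A := by
    have h1 := S.A_big
    have h2 := S.a_big
    omega
  have hA2 : 2 ≤ S.A := by
    have h1 := S.A_big
    have h2 := S.a_big
    omega
  obtain ⟨kR, hR⟩ := rr_small S.A hA2 (ε / (8 * (C3 : ℝ))) (by positivity)
  -- the exceptional sets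
  set k1 : ℕ := max (max kA S.k0) 0 with hk1
  let bad : ℕ → Set Ω := fun k =>
    if k1 ≤ k ∧ (4 * C3 : ℝ) ≤ 2 ^ k then
      ({ω | ¬ GoodK S.a S.A S.Cv k (S.E k ω)} ∪
        {ω | ¬ ∀ t : ℕ, 1 ≤ t → t ≤ (2 ^ k) ^ 2 → ∀ b,
          (b ∈ S.I ω t ↔ (S.E k ω).vis (fun _ => Set.univ) 0 0 t b)}) ∪
      ⋃ j ∈ Finset.range J, {ω | ∃ (t : ℕ) (x : Pos d), (t : ℝ) ≤ (g - g * ε / 8) * gridm C3 J k j ∧
        (S.E k ω).R (fun _ => Set.univ) 0 0 t x ∧ (gridm C3 J k j : ℝ) ≤ lev u x}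
    else ∅
  have hbad : ∑' k, P (bad k) ≠ ⊤ := by
    have h1 : ∀ k, P (bad k) ≤ err (rr S.A k) + err (rr S.A k) + J * b k := by
      intro k
      by_cases hk : k1 ≤ k ∧ (4 * C3 : ℝ) ≤ 2 ^ k
      · simp only [bad, if_pos hk]
        have hkA : kA ≤ k := (le_max_left _ _).trans ((le_max_left _ _).trans hk.1)
        have hk0 : S.k0 ≤ k := (le_max_right _ _).trans ((le_max_left _ _).trans hk.1)
        refine (measure_union_le _ _).trans (add_le_add ((measure_union_le _ _).trans (add_le_add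
          (S.good k hk0) (S.link k hk0))) ?_)
        refine (measure_biUnion_finset_le _ _).trans ?_
        calc _ ≤ ∑ _j ∈ Finset.range J, b k := by
              refine Finset.sum_le_sum (fun j hj => hA k hkA (gridm C3 J k j) ?_
                (gridm_le hJ0 (Finset.mem_range.1 hj).le))
              have h2 := le_gridm (k := k) (j := j) hC3 hJ0
              have hC3' : (0 : ℝ) < C3 := by exact_mod_cast hC3
              have h3 : (2 : ℝ) ^ k / (2 * C3) ≤ (2 : ℝ) ^ k * (J + j) / (2 * J * C3) := by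
                rw [div_le_div_iff₀ (by positivity) (by positivity)]
                have h4 : (0 : ℝ) ≤ (2 : ℝ) ^ k * j * (2 * C3) := by positivity
                linarith
              have h5 : (2 : ℝ) ^ k / (2 * C3) - 1 ≤ gridm C3 J k j := by linarith
              have h6 : (2 : ℝ) ^ k / (2 * C3) * (4 * C3) = 2 * 2 ^ k := by field_simp; ring
              have h7 := mul_le_mul_of_nonneg_left h5 (show (0 : ℝ) ≤ 4 * C3 by positivity)
              linarith [hk.2]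
          _ = J * b k := by rw [Finset.sum_const, Finset.card_range, nsmul_eq_mul]
      · simp only [bad, if_neg hk, measure_empty]
        exact zero_le
    have h2 := tsum_err hA0
    refine ne_top_of_le_ne_top ?_ (ENNReal.tsum_le_tsum h1)
    rw [ENNReal.tsum_add, ENNReal.tsum_add, ENNReal.tsum_mul_left]
    exact ENNReal.add_ne_top.2 ⟨ENNReal.add_ne_top.2 ⟨h2, h2⟩,
      ENNReal.mul_ne_top (ENNReal.natCast_ne_top _) hb⟩
  have hBC := ae_eventually_notMem hbad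
  filter_upwards [hBC] with ω hω
  obtain ⟨k2, hk2⟩ := Filter.eventually_atTop.1 hω
  -- the final time
  set k3 : ℕ := max (max k1 k2) (max kR (4 * C3)) with hk3
  have hC3' : (0 : ℝ) < C3 := by exact_mod_cast hC3
  have hCv0 : (0 : ℝ) ≤ S.Cv := Nat.cast_nonneg _
  refine ⟨g * 2 ^ (k3 + 1) + 12 * g / ε + 2 + 8 * g * S.Cv / ε + 2 * g ^ 2, ?_⟩
  intro t ht x hx
  by_contra hcon
  push Not at hcon
  have p1 : 0 ≤ g * 2 ^ (k3 + 1) := by positivity
  have p2 : 0 ≤ 12 * g / ε := by positivity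
  have p3 : 0 ≤ 8 * g * S.Cv / ε := by positivity
  have p4 : 0 ≤ 2 * g ^ 2 := by positivity
  have t1 : g * 2 ^ (k3 + 1) ≤ t := by linarith
  have t2 : 12 * g / ε ≤ t := by linarith
  have t3 : 2 ≤ t := by linarith
  have t4 : 8 * g * S.Cv / ε ≤ t := by linarith
  have t5 : 2 * g ^ 2 ≤ t := by linarith
  have ht0 : 0 ≤ t := by linarith
  have htg : 0 ≤ t / g := by positivity
  set τ : ℝ := (1 + ε / 2) * (t / g) with hτ
  have hτt : t / g ≤ τ := S9.a1 hε.le htg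
  have hτ1 : (2 : ℝ) ^ (k3 + 1) ≤ τ := by
    refine le_trans ?_ hτt
    rw [le_div_iff₀ hg]
    linarith
  have hC31 : (1 : ℝ) ≤ C3 := by exact_mod_cast hC3
  have hpow1 : (1 : ℝ) ≤ 2 ^ (k3 + 1) := one_le_pow₀ (by norm_num)
  obtain ⟨k, j, hj, hk1', hk2', hm1, hm2⟩ := exists_grid (J := J) hC3 hJ0 τ (S9.a2 hC31 hτ1 hpow1)
  -- the scale is large
  have hτ0 : 0 ≤ τ := htg.trans hτt
  have hτk : τ < 2 ^ k := S9.a3 hC31 hτ0 hk2'
  have hk3k : k3 ≤ k := by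
    by_contra hlt
    push Not at hlt
    have h1 : (2 : ℝ) ^ k ≤ 2 ^ (k3 + 1) := pow_le_pow_right₀ (by norm_num) (by omega)
    linarith
  have hkk1 : k1 ≤ k := (le_max_left _ _).trans ((le_max_left _ _).trans hk3k)
  have hkk2 : k2 ≤ k := (le_max_right _ _).trans ((le_max_left _ _).trans hk3k)
  have hkR : kR ≤ k := (le_max_left _ _).trans ((le_max_right _ _).trans hk3k)
  have hk4 : 4 * C3 ≤ k := (le_max_right _ _).trans ((le_max_right _ _).trans hk3k)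
  have hk5 : (4 * C3 : ℝ) ≤ 2 ^ k := by
    have h1 : 4 * C3 ≤ 2 ^ k := hk4.trans Nat.lt_two_pow_self.le
    exact_mod_cast h1
  have hnot := hk2 k hkk2
  have hbadk : bad k = _ := if_pos (show k1 ≤ k ∧ (4 * C3 : ℝ) ≤ 2 ^ k from ⟨hkk1, hk5⟩)
  rw [hbadk] at hnot
  clear hbadk
  have hGood : GoodK S.a S.A S.Cv k (S.E k ω) := by
    by_contra h
    exact hnot (Or.inl (Or.inl h))
  have hlink : ∀ t : ℕ, 1 ≤ t → t ≤ (2 ^ k) ^ 2 → ∀ b,
      (b ∈ S.I ω t ↔ (S.E k ω).vis (fun _ => Set.univ) 0 0 t b) := by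
    by_contra h
    exact hnot (Or.inl (Or.inr h))
  have hfast : ∀ j ∈ Finset.range J, ∀ (t : ℕ) (x : Pos d),
      (t : ℝ) ≤ (g - g * ε / 8) * gridm C3 J k j →
      (S.E k ω).R (fun _ => Set.univ) 0 0 t x → (gridm C3 J k j : ℝ) ≤ lev u x → False := by
    intro j hj t x h1 h2 h3
    exact hnot (Or.inr (Set.mem_biUnion hj ⟨t, x, h1, h2, h3⟩))
  clear hnot
  -- the integer time
  set t' : ℕ := ⌈t⌉₊ with ht'
  have ht'1 : t ≤ t' := Nat.le_ceil t
  have ht'2 : (t' : ℝ) < t + 1 := Nat.ceil_lt_add_one ht0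
  have ht'3 : 1 ≤ t' := by
    have : (1 : ℝ) ≤ t' := by linarith
    exact_mod_cast this
  have ht'4 : t' ≤ (2 ^ k) ^ 2 := by
    have h1 : t / g < 2 ^ k := lt_of_le_of_lt hτt hτk
    have h2 : (t / g) ^ 2 ≤ ((2 : ℝ) ^ k) ^ 2 := pow_le_pow_left₀ htg h1.le 2
    have h3 : t + 1 ≤ (t / g) ^ 2 := by
      rw [div_pow, le_div_iff₀ (by positivity)]
      exact S9.a4 t5 t3
    have h4 : (t' : ℝ) ≤ ((2 : ℝ) ^ k) ^ 2 := by linarith
    exact_mod_cast h4
  have hx' : x ∈ S.I ω t' := S.I_mono ω ht'1 hx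
  obtain ⟨i, hi, hvis⟩ := (hlink t' ht'3 ht'4 x).1 hx'
  obtain ⟨z, -, hRz, hz⟩ := visU_split (S.E k ω) i hvis
  rw [zero_add] at hi
  have hi1 : (i : ℝ) ≤ t' - 1 := by
    have : i + 1 ≤ t' := hi
    have h1 : ((i + 1 : ℕ) : ℝ) ≤ t' := by exact_mod_cast this
    push_cast at h1
    linarith
  have hdist := hGood.g4' (0 + i) (0 + i + 1) z x (Nat.le_succ _) (by omega)
    ⟨0, by omega, hz⟩
  have hdist2 : nrm (x - z) ≤ S.Cv + rr S.A k := by
    push_cast at hdist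
    linarith
  have hlev : lev u x - lev u z ≤ S.Cv + rr S.A k := by
    rw [← lev_sub]
    exact (lev_le_nrm hu _).trans hdist2
  have hrr := hR k hkR
  have hrr2 : (rr S.A k : ℝ) ≤ ε / 4 * τ := by
    have h1 : ε / (8 * (C3 : ℝ)) * 2 ^ k ≤ ε / (8 * (C3 : ℝ)) * (2 * C3 * τ) :=
      mul_le_mul_of_nonneg_left hk1' (by positivity)
    have h2 : ε / (8 * (C3 : ℝ)) * (2 * C3 * τ) = ε / 4 * τ := by
      field_simp
      ring
    linarith
  have hcon2 : (1 + ε) * (t / g) < lev u x := by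
    have : (1 + ε) * t / g = (1 + ε) * (t / g) := by ring
    rw [← this]
    exact hcon
  have hCvt : (S.Cv : ℝ) ≤ ε / 8 * (t / g) := by
    rw [div_le_iff₀ hε] at t4
    have h1 : ε / 8 * (t / g) = ε * t / (8 * g) := by field_simp
    rw [h1, le_div_iff₀ (by positivity)]
    linarith
  have hzlev : τ ≤ lev u z := S9.a6 hε hε1 htg hτ hrr2 hCvt hcon2 hlev
  refine hfast j (Finset.mem_range.2 hj) i z ?_ (by simpa using hRz) (hm1.trans hzlev)
  -- time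
  have hJ1 : 1 / (J : ℝ) ≤ ε / 16 := S9.a7 hε hJ0' hJ
  have hJp : 0 < 1 / (J : ℝ) := by positivity
  have hq : (1 + ε / 4) * (t / g) ≤ τ / (1 + 1 / J) := by
    rw [le_div_iff₀ (by positivity)]
    calc (1 + ε / 4) * (t / g) * (1 + 1 / (J : ℝ)) = (1 + ε / 4) * (1 + 1 / (J : ℝ)) * (t / g) := by ring
      _ ≤ (1 + ε / 2) * (t / g) := mul_le_mul_of_nonneg_right (S9.a8 hε hε1 hJ1) htg
  have hm3 : (1 + ε / 4) * (t / g) - 1 ≤ gridm C3 J k j := by linarith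
  have h1 := S9.a9 hε hε1 hg ht0 t2 hm3
  linarith

/-- the upper bound -/
theorem upper [IsProbabilityMeasure P] (S : Sys d P) (γ : (Fin d → ℝ) → ℝ) (c C : ℝ)
    (hγ : IsGamma S γ c C) (hU : UpTail S γ) (hL : LowTail S γ)
    (u : Fin d → ℝ)
    (hu : ∑ j, u j ^ 2 = 1) (ε : ℝ) (hε : 0 < ε) :
    ∀ᵐ ω ∂P, ∃ T0 : ℝ, ∀ t : ℝ, T0 ≤ t → ∀ x ∈ S.I ω t, lev u x ≤ (1 + ε) * t / γ u := by
  have hg : 0 < γ u := lt_of_lt_of_le hγ.c_pos (hγ.lb u hu)
  filter_upwards [upper_small S γ c C hγ hU hL u hu (min ε 1) (lt_min hε one_pos)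
    (min_le_right _ _)] with ω hω
  obtain ⟨T0, hT0⟩ := hω
  refine ⟨max T0 0, fun t ht x hx => (hT0 t ((le_max_left _ _).trans ht) x hx).trans ?_⟩
  have ht0 : 0 ≤ t := (le_max_right _ _).trans ht
  have : min ε 1 ≤ ε := min_le_left _ _
  gcongr

end ZQ.Rows
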