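import Pool.Agent.ZP.S11
import Pool.Agent.ZQ.S3
import Pool.Agent.ZQ.S4
import Pool.Agent.ZQ.S5
import Pool.Agent.ZQ.S9
import Pool.Agent.ZQ.S10
import Pool.Agent.ZI.R7

/-! # S11: the shape theorem for the abstract system (with recovery) -/

set_option autoImplicit false

open scoped ENNReal BigOperators Classical Pointwise
open MeasureTheory

noncomputable section

namespace ZQ.Rows

open ZP hiding Agree BlockFacts Env GoodK IsGamma LowTail QK StepP Sys UpTail envT foldl_stepR_fst foldl_stepR_inter foldl_stepR_mono foldl_stepR_occ foldl_stepR_region inf infMv infMv_mono infMv_occ inf_comp inf_inter inf_mono_univ inf_occ inf_pred mem_foldl_stepR mem_infMv muK stepI stepR visU visU_mono_univ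
open ZP.Rows hiding R_mono R_occ R_restrict R_route R_self R_split R_start R_trans R_vis bg_of_R bh_chain bh_scale block_facts fg_R fg_of_R gamma_exists inf_mono inf_split inf_start low_tail lower mem_inf_iff moving_target near_ok ok_occ ok_scale persist persist_steps reach route_block shape stepP_whp up_tail upper upper_small visU_mono visU_split vis_mono vis_mono_time vis_of_R vis_of_R' vis_restrict

variable [ZQ.Thr]

open ZP hiding Agree BlockFacts Env GoodK IsGamma LowTail QK StepP Sys UpTail envT foldl_stepR_fst foldl_stepR_inter foldl_stepR_mono foldl_stepR_occ foldl_stepR_region inf infMv infMv_mono infMv_occ inf_comp inf_inter inf_mono_univ inf_occ inf_pred mem_foldl_stepR mem_infMv muK stepI stepR visU visU_mono_univ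
open ZQ

variable {d : ℕ} {Ω : Type} [MeasurableSpace Ω] {P : Measure Ω}

theorem shape [IsProbabilityMeasure P] (S : Sys d P) : ∃ B : Set (Fin d → ℝ), IsCompact B ∧
    Convex ℝ B ∧ 0 ∈ interior B ∧ ∀ ε : ℝ, 0 < ε → ε < 1 → ∀ᵐ ω ∂P, ω ∈ S.S0 →
      ∃ T0 : ℝ, ∀ t : ℝ, T0 ≤ t → ∀ x : Pos d,
        ((fun j => (x j : ℝ)) ∈ ((1 - ε) * t) • B → x ∈ S.I ω t) ∧
        (x ∈ S.I ω t → (fun j => (x j : ℝ)) ∈ ((1 + ε) * t) • B) := by
  obtain ⟨γ, c, C, hγ⟩ := gamma_exists S
  have hU : UpTail S γ := up_tail S γ c C hγ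
  have hL : LowTail S γ := low_tail S γ c C hγ hU
  have hc := hγ.c_pos
  -- the speed function
  have hd := S.d_pos
  have hunit : ∃ u : Fin d → ℝ, ∑ j, u j ^ 2 = 1 := by
    refine ⟨Pi.single ⟨0, hd⟩ 1, ?_⟩
    rw [Finset.sum_eq_single (⟨0, hd⟩ : Fin d)]
    · simp
    · intro j _ hj
      simp [Pi.single_eq_of_ne hj]
    · intro h
      exact absurd (Finset.mem_univ _) h
  have hC : 0 < C := by
    obtain ⟨u, hu⟩ := hunit
    have h1 := hγ.lb u hu
    have h2 := hγ.ub u hu
    linarith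
  have hv : ∀ u : Fin d → ℝ, ∑ j, u j ^ 2 = 1 → 1 / C ≤ 1 / γ u ∧ 1 / γ u ≤ 1 / c := by
    intro u hu
    have h1 := hγ.lb u hu
    have h2 := hγ.ub u hu
    exact ⟨one_div_le_one_div_of_le (by linarith) h2, one_div_le_one_div_of_le hc h1⟩
  have hC' : 0 < 1 / C := by positivity
  obtain ⟨hB1, hB2, hB3⟩ := ZI.wulff_compact (fun u => 1 / γ u) (1 / C) (1 / c) hC' hv
  have hB0 : (0 : Fin d → ℝ) ∈ interior (ZI.wulff (fun u => 1 / γ u)) := by
    apply ZI.R7.ball_subset hC' (fun u hu => (hv u hu).1)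
    change ∑ j : Fin d, (0 : Fin d → ℝ) j ^ 2 < (1 / C) ^ 2
    rw [Finset.sum_eq_zero (fun j _ => by simp)]
    positivity
  refine ⟨ZI.wulff (fun u => 1 / γ u), hB1, hB2, hB0, ?_⟩
  intro ε hε hε1
  obtain ⟨𝒰, h𝒰, δ, hδ, hout⟩ := ZI.wulff_outer (fun u => 1 / γ u) (1 / C) (1 / c) hC' hv ε hε
  have hup : ∀ᵐ ω ∂P, ∀ u ∈ 𝒰, ∃ T0 : ℝ, ∀ t : ℝ, T0 ≤ t → ∀ x ∈ S.I ω t,
      lev u x ≤ (1 + δ * c) * t / γ u := by
    rw [Filter.eventually_all_finset]
    intro u hu
    exact upper S γ c C hγ hU hL u (h𝒰 u hu) (δ * c) (by positivity)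
  have hlo := lower S γ c C hγ hU ε hε hε1
  filter_upwards [hup, hlo] with ω h1 h2 hω
  obtain ⟨T2, hT2⟩ := h2 hω
  choose! T1 hT1 using h1
  obtain ⟨T3, hT3⟩ : ∃ T3 : ℝ, ∀ u ∈ 𝒰, T1 u ≤ T3 := by
    obtain ⟨M, hM⟩ := (𝒰.image T1).exists_le
    exact ⟨M, fun u hu => hM _ (Finset.mem_image_of_mem _ hu)⟩
  refine ⟨max (max T2 T3) 1, ?_⟩
  intro t ht x
  have ht1 : 1 ≤ t := le_trans (le_max_right _ _) ht
  have ht2 : T2 ≤ t := le_trans (le_trans (le_max_left _ _) (le_max_left _ _)) ht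
  have ht3 : T3 ≤ t := le_trans (le_trans (le_max_right _ _) (le_max_left _ _)) ht
  constructor
  · intro hx
    refine hT2 t ht2 x ?_
    intro u hu
    obtain ⟨b, hb, hbx⟩ := hx
    have hb' := hb u hu
    have hlev : lev u x = ((1 - ε) * t) * ∑ j, u j * b j := by
      unfold lev
      rw [Finset.mul_sum]
      refine Finset.sum_congr rfl ?_
      intro j _
      have := congrFun hbx j
      simp only [Pi.smul_apply, smul_eq_mul] at this
      rw [← this]
      ring
    rw [hlev]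
    have h0 : 0 ≤ (1 - ε) * t := by
      apply mul_nonneg <;> linarith
    calc ((1 - ε) * t) * ∑ j, u j * b j ≤ ((1 - ε) * t) * (1 / γ u) :=
          mul_le_mul_of_nonneg_left hb' h0
      _ = (1 - ε) * t / γ u := by ring
  · intro hx
    have ht0 : 0 < t := by linarith
    have key : (fun j => (x j : ℝ) / t) ∈ (1 + ε) • ZI.wulff (fun u => 1 / γ u) := by
      refine hout _ ?_
      intro u hu
      have h3 := hT1 u hu t (le_trans (hT3 u hu) ht3) x hx
      have hγu : 0 < γ u := lt_of_lt_of_le hc (hγ.lb u (h𝒰 u hu))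
      have h4 : ∑ j, u j * ((x j : ℝ) / t) = lev u x / t := by
        unfold lev
        rw [Finset.sum_div]
        refine Finset.sum_congr rfl ?_
        intro j _
        ring
      rw [h4, div_le_iff₀ ht0]
      refine le_trans h3 ?_
      have h5 : c / γ u ≤ 1 := by
        rw [div_le_one hγu]
        exact hγ.lb u (h𝒰 u hu)
      have h6 : (1 + δ * c) * t / γ u = t * (1 / γ u) + (δ * t) * (c / γ u) := by
        ring
      rw [h6]
      have h7 : (δ * t) * (c / γ u) ≤ (δ * t) * 1 :=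
        mul_le_mul_of_nonneg_left h5 (by positivity)
      nlinarith [h7]
    obtain ⟨b, hb, hbx⟩ := key
    refine ⟨b, hb, ?_⟩
    ext j
    have := congrFun hbx j
    simp only [Pi.smul_apply, smul_eq_mul] at this ⊢
    have h8 : (x j : ℝ) = (x j : ℝ) / t * t := by
      field_simp
    rw [h8, ← this]
    ring

end ZQ.Rows
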