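import Pool.Agent.ZP.F2
import Pool.Agent.ZQ.F1
import Pool.Agent.ZQ.S11

/-! # Row F2: the shape theorem for the process given by clocks (with recovery) -/

set_option autoImplicit false

open scoped ENNReal BigOperators Classical Pointwise
open MeasureTheory

noncomputable section

namespace ZQ.Rows

open ZP hiding Agree AgreeW Base BlockFacts EK Env EqEnv GoodK IsGamma Iset LowTail PastEv QK QT StepP Surv Sys UpTail capE conf envB envC envT foldl_stepR_fst foldl_stepR_inter foldl_stepR_mono foldl_stepR_occ foldl_stepR_region inf infMv infMv_mono infMv_occ inf_comp inf_inter inf_mono_univ inf_occ inf_pred infd kill mem_foldl_stepR mem_infMv muK pe st stepI stepR visU visU_mono_univ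
open ZP.Rows hiding R_mono R_occ R_of_noRec R_restrict R_route R_self R_split R_start R_toZI R_trans R_vis agree_paths agree_take agree_words bg_of_R bh_chain bh_scale blk_of_pastEv block_chain block_facts capE_envC cap_agree cfg_toZI chain_eq chain_shift envT_toZI fg_R fg_of_R foldl_stepR_noRec foldl_stepR_toZI future_transfer gamma_exists inf_mono inf_noRec inf_split inf_start inf_toZI kill_R kill_envC kill_vis killed_agree leakF_le leakP_le low_tail lower mem_inf_iff moving_target near_ok nullMeas occ_toZI ok_occ ok_scale one_step pastEv_of_good past_transfer pe_path persist persist_steps reach route_block shape shape_theorem st_R st_mono st_vis start_inv stepP_whp surv_int sys_agree sys_chain_of sys_good sys_link sys_linkR sys_of_clocks sys_shift sys_tsumQ transfer up_tail upper upper_small visU_mono visU_noRec visU_split visU_toZI vis_mono vis_mono_time vis_of_R vis_of_R' vis_of_noRec vis_restrict vis_toZI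

variable [ZQ.Thr]

open ZP hiding Agree AgreeW Base BlockFacts EK Env EqEnv GoodK IsGamma Iset LowTail PastEv QK QT StepP Surv Sys UpTail capE conf envB envC envT foldl_stepR_fst foldl_stepR_inter foldl_stepR_mono foldl_stepR_occ foldl_stepR_region inf infMv infMv_mono infMv_occ inf_comp inf_inter inf_mono_univ inf_occ inf_pred infd kill mem_foldl_stepR mem_infMv muK pe st stepI stepR visU visU_mono_univ
open ZQ

variable {d : ℕ} {m : Model} {δ : ℝ}

/-- a neighbour of a point of `a • B` is in `b • B` if `a + 1 / r ≤ b` -/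
theorem near_smul {B : Set (Fin d → ℝ)} (hB : Convex ℝ B) (h0 : 0 ∈ interior B) :
    ∃ r : ℝ, 0 < r ∧ ∀ a b : ℝ, 0 ≤ a → a + r ≤ b → ∀ y v : Fin d → ℝ, y ∈ a • B → ‖v‖ ≤ 1 →
      y + v ∈ b • B := by
  obtain ⟨s, hs, hball⟩ := Metric.isOpen_iff.1 isOpen_interior 0 h0
  have hball' : ∀ v : Fin d → ℝ, ‖v‖ ≤ s / 2 → v ∈ B := by
    intro v hv
    refine interior_subset (hball ?_)
    rw [mem_ball_zero_iff]
    linarith
  refine ⟨2 / s, by positivity, fun a b ha hab y v hy hv => ?_⟩
  have hb : 0 < b := lt_of_lt_of_le (by positivity) hab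
  obtain ⟨y', hy', rfl⟩ := hy
  have hv' : (s / 2) • v ∈ B := by
    refine hball' _ ?_
    rw [norm_smul, Real.norm_eq_abs, abs_of_pos (by positivity)]
    nlinarith
  have h0B : (0 : Fin d → ℝ) ∈ B := interior_subset h0
  refine ⟨b⁻¹ • (a • y' + v), ?_, smul_inv_smul₀ hb.ne' _⟩
  have h1 : b⁻¹ • (a • y' + v) = (a / b) • y' + (2 / s / b) • ((s / 2) • v) +
      ((b - a - 2 / s) / b) • (0 : Fin d → ℝ) := by
    rw [smul_add, smul_smul, smul_smul, smul_zero, add_zero]
    congr 2
    · rw [div_eq_inv_mul]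
    · field_simp
  rw [h1]
  have h2 : 0 ≤ (b - a - 2 / s) / b := div_nonneg (by linarith) hb.le
  have h3 : a / b + 2 / s / b + (b - a - 2 / s) / b = 1 := by
    field_simp
    ring
  have h4 := hB.sum_mem (t := Finset.univ) (w := ![a / b, 2 / s / b, (b - a - 2 / s) / b])
    (z := ![y', (s / 2) • v, 0]) ?_ ?_ ?_
  · simpa [Fin.sum_univ_three] using h4
  · intro i _
    fin_cases i
    · exact div_nonneg ha hb.le
    · exact div_nonneg (by positivity) hb.le
    · exact h2
  · simpa [Fin.sum_univ_three] using h3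
  · intro i _
    fin_cases i
    · exact hy'
    · exact hv'
    · exact h0B

theorem norm_dv (e : Dir d) : ‖(fun j => (dv e j : ℝ))‖ ≤ 1 := by
  rw [pi_norm_le_iff_of_nonneg zero_le_one]
  intro j
  unfold ZI.dv
  rcases eq_or_ne e.1 j with h | h
  · subst h
    rcases e.2 <;> simp
  · simp [Pi.single_eq_of_ne (Ne.symm h)]

/-- the shape theorem; the upper bound also holds for the neighbours of the visited sites -/
theorem shape_theorem {Ω : Type} [MeasurableSpace Ω] {P : Measure Ω} [IsProbabilityMeasure P]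
    (hd : 0 < d) (hδ : 0 ≤ δ) (C : Clocks m δ d P)
    {Cv a A r0 : ℕ} {c : ℝ} (hB : Base m δ d Cv a A r0 c) :
    ∃ B : Set (Fin d → ℝ), IsCompact B ∧ Convex ℝ B ∧ (interior B).Nonempty ∧
      ∀ ε : ℝ, 0 < ε → ε < 1 → ∀ᵐ ω ∂P, ω ∈ Surv C →
        ∃ T0 : ℝ, ∀ t : ℝ, T0 ≤ t → ∀ x : Pos d,
          ((fun j => (x j : ℝ)) ∈ ((1 - ε) * t) • B → x ∈ Iset C ω t) ∧
          (∀ y ∈ Iset C ω t, (x = y ∨ ∃ e : Dir d, x = y + dv e) →
            (fun j => (x j : ℝ)) ∈ ((1 + ε) * t) • B) := by
  obtain ⟨S, hI, hS⟩ := sys_of_clocks hd hδ C hB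
  obtain ⟨B, h1, h2, h3, h4⟩ := shape S
  obtain ⟨r, hr, hr'⟩ := near_smul h2 h3
  refine ⟨B, h1, h2, ⟨0, h3⟩, ?_⟩
  intro ε hε hε1
  filter_upwards [h4 ε hε hε1, h4 (ε / 2) (by linarith) (by linarith)] with ω hω hω' h0
  obtain ⟨T0, hT⟩ := hω (hS ▸ h0)
  obtain ⟨T1, hT'⟩ := hω' (hS ▸ h0)
  refine ⟨max (max T0 T1) (2 * r / ε), fun t ht x => ?_⟩
  have ht0 : T0 ≤ t := ((le_max_left _ _).trans (le_max_left _ _)).trans ht
  have ht1 : T1 ≤ t := ((le_max_right _ _).trans (le_max_left _ _)).trans ht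
  have ht2 : 2 * r / ε ≤ t := (le_max_right _ _).trans ht
  have htpos : 0 < t := lt_of_lt_of_le (by positivity) ht2
  have h5 := hT t ht0 x
  rw [hI ω t] at h5
  refine ⟨h5.1, ?_⟩
  rintro y hy hxy
  have h6 := hT' t ht1 y
  rw [hI ω t] at h6
  have h7 := h6.2 hy
  have h8 : (1 + ε / 2) * t + r ≤ (1 + ε) * t := by
    rw [div_le_iff₀ hε] at ht2
    nlinarith
  rcases hxy with rfl | ⟨e, rfl⟩
  · exact h5.2 hy
  · have h9 := hr' ((1 + ε / 2) * t) ((1 + ε) * t) (by positivity) h8 _
      (fun j => (dv e j : ℝ)) h7 (norm_dv e)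
    have h10 : (fun j => ((y + dv e) j : ℝ)) = (fun j => (y j : ℝ)) + fun j => (dv e j : ℝ) := by
      funext j
      simp
    rw [h10]
    exact h9

end ZQ.Rows
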